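import Mathlib
import Pool.Agent.P.MP_eeb913_an.Defs

/-!
Definitions for the uniqueness of equilibrium states of complex Henon maps.
The plane `E = ℂ × ℂ` carries the sup norm.
-/

namespace Pool.Agent.P.MP_eeb913_an.U

open MeasureTheory Filter Metric Set
open scoped ENNReal

/-- The complex plane of dimension two, with the sup norm. -/
abbrev E : Type := ℂ × ℂ

/-- The closed unit bidisc. -/
abbrev D2 : Set E := closedBall 0 1

/-- One Henon factor `(x, y) ↦ (p x - a y, x)`, given by the pair `(p, a)`. -/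
noncomputable def henonFactor (q : Polynomial ℂ × ℂ) (z : ℂ × ℂ) : ℂ × ℂ :=
  (q.1.eval z.1 - q.2 * z.2, z.1)

/-- The composition `f₁ ∘ ⋯ ∘ f_m` of the Henon factors of the list `[q₁, …, q_m]`. -/
noncomputable def henonMap (L : List (Polynomial ℂ × ℂ)) : ℂ × ℂ → ℂ × ℂ :=
  L.foldr (fun q g => henonFactor q ∘ g) id

/-- Filtration properties of `f` at radius `R` with degree `d`. -/
structure Filt (f : E → E) (d : ℕ) (R : ℝ) : Prop where
  one_le : 1 ≤ R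
  up : ∃ M : ℝ, 1 ≤ M ∧ ∀ z, ‖f z‖ ≤ M * (max 1 ‖z‖) ^ d
  low : ∃ m : ℝ, 0 < m ∧ ∀ z : E, R ≤ ‖z.1‖ → ‖z.2‖ ≤ ‖z.1‖ → m * ‖z.1‖ ^ d ≤ ‖(f z).1‖
  esc : ∀ z : E, R ≤ ‖z.1‖ → ‖z.2‖ ≤ ‖z.1‖ →
    2 * ‖z.1‖ ≤ ‖(f z).1‖ ∧ ‖(f z).2‖ ≤ ‖(f z).1‖ / 2
  box : ∀ z : E, ‖z‖ ≤ R → ‖(f z).2‖ ≤ max R (‖(f z).1‖ / 2)

/-- Conjugation by the exchange of the two coordinates. -/
def sw (g : E → E) : E → E := fun z => (g z.swap).swap

/-- `f` is a Henon-like automorphism with inverse `g`, degree `d` and filtration radius `R₀`. -/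
structure IsHL (f g : E → E) (d : ℕ) (R₀ : ℝ) : Prop where
  two_le : 2 ≤ d
  cf : ContDiff ℂ 2 f
  cg : ContDiff ℂ 2 g
  gf : ∀ z, g (f z) = z
  fg : ∀ z, f (g z) = z
  ff : ∀ R, R₀ ≤ R → Filt f d R
  fi : ∀ R, R₀ ≤ R → Filt (sw g) d R

/-- An affine chart `z ↦ c + A z`. -/
structure Chart where
  c : E
  A : E ≃L[ℂ] E

/-- The point with coordinates `z`. -/
noncomputable def Chart.pt (χ : Chart) (z : E) : E := χ.c + χ.A z

/-- The coordinates of the point `x`. -/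
noncomputable def Chart.co (χ : Chart) (x : E) : E := χ.A.symm (x - χ.c)

/-- The chart conjugated by the exchange of coordinates: `χ.sw.pt z = (χ.pt z.swap).swap`. -/
noncomputable def Chart.sw (χ : Chart) : Chart :=
  ⟨χ.c.swap, ((ContinuousLinearEquiv.prodComm ℂ ℂ ℂ).trans χ.A).trans
    (ContinuousLinearEquiv.prodComm ℂ ℂ ℂ)⟩

/-- The starting point of a crossing for the boundary data `b = (u', s)`. -/
noncomputable def Chart.start (χ : Chart) (T : E → E) (b : E) : E := χ.pt ((T b).1, b.2)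

/-- The starting points for boundary data of norm at most `ρ`. -/
noncomputable def Chart.core (χ : Chart) (T : E → E) (ρ : ℝ) : Set E := χ.start T '' closedBall 0 ρ

/-- `T` maps the unit bidisc into the bidisc of radius `κ` and is `κ`-Lipschitz on it. -/
structure IsCon (κ : ℝ) (T : E → E) : Prop where
  bound : ∀ b ∈ D2, ‖T b‖ ≤ κ
  lip : ∀ b ∈ D2, ∀ b' ∈ D2, ‖T b - T b'‖ ≤ κ * ‖b - b'‖

/-- `T : (u', s) ↦ (u, s')` is a crossing of `F` from the chart `χ` to the chart `χ'`: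
`F` sends the point `(u, s)` of `χ` to the point `(u', s')` of `χ'`. -/
structure IsCross (κ : ℝ) (F : E → E) (χ χ' : Chart) (T : E → E) : Prop where
  con : IsCon κ T
  map : ∀ b ∈ D2, F (χ.start T b) = χ'.pt (b.1, (T b).2)

/-- `z 0, …, z n` is a chain of points of the unit bidisc through the sections `T 0, …`. -/
def IsChain (T : ℕ → E → E) (n : ℕ) (z : ℕ → E) : Prop :=
  (∀ i ≤ n, z i ∈ D2) ∧ ∀ i < n, T i ((z (i + 1)).1, (z i).2) = ((z i).1, (z (i + 1)).2)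

/-- A good crossing of length `n` from `χ` to itself: orbits of starting points stay close. -/
structure IsGood (f : E → E) (κ ε D : ℝ) (χ : Chart) (n : ℕ) (T : E → E) : Prop where
  cross : IsCross κ f^[n] χ χ T
  decay : ∀ b ∈ D2, ∀ b' ∈ D2, ∀ t ≤ n,
    ‖f^[t] (χ.start T b) - f^[t] (χ.start T b')‖ ≤
      D * Real.exp (-(ε * (min t (n - t) : ℕ))) * ‖b - b'‖

/-- The free energy `h_ν + ∫ φ dν`. -/
noncomputable def fe {X : Type} [MeasurableSpace X] (f : X → X) (φ : X → ℝ) (ν : Measure X) :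
    EReal :=
  ksEntropy f ν + ((∫ x, φ x ∂ν : ℝ) : EReal)

/-- Directional derivative of a real function. -/
noncomputable def dd {V : Type} [NormedAddCommGroup V] [NormedSpace ℝ V] (v : V) (u : V → ℝ) :
    V → ℝ :=
  fun z => fderiv ℝ u z v

/-- The Laplacian on `ℂ`. -/
noncomputable def lap (u : ℂ → ℝ) (z : ℂ) : ℝ :=
  dd 1 (dd 1 u) z + dd Complex.I (dd Complex.I u) z

/-- The squared gradient on `ℂ`. -/
noncomputable def gr (u : ℂ → ℝ) (z : ℂ) : ℝ := dd 1 u z ^ 2 + dd Complex.I u z ^ 2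

/-- Four times `∂² u / ∂ζ ∂ζbar` on `E`. -/
noncomputable def hp (u : E → ℝ) (z : E) : ℝ :=
  dd ((1, 0) : E) (dd ((1, 0) : E) u) z +
    dd ((Complex.I, 0) : E) (dd ((Complex.I, 0) : E) u) z

/-- Four times `∂² u / ∂η ∂ηbar` on `E`. -/
noncomputable def hq (u : E → ℝ) (z : E) : ℝ :=
  dd ((0, 1) : E) (dd ((0, 1) : E) u) z +
    dd ((0, Complex.I) : E) (dd ((0, Complex.I) : E) u) z

/-- Four times the real part of `∂² u / ∂ζ ∂ηbar` on `E`. -/
noncomputable def hr (u : E → ℝ) (z : E) : ℝ :=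
  dd ((1, 0) : E) (dd ((0, 1) : E) u) z +
    dd ((Complex.I, 0) : E) (dd ((0, Complex.I) : E) u) z

/-- Four times the imaginary part of `∂² u / ∂ζ ∂ηbar` on `E`. -/
noncomputable def hs (u : E → ℝ) (z : E) : ℝ :=
  dd ((1, 0) : E) (dd ((0, Complex.I) : E) u) z -
    dd ((Complex.I, 0) : E) (dd ((0, 1) : E) u) z

/-- The mixed complex Monge-Ampere expression. -/
noncomputable def mq (a b : E → ℝ) (z : E) : ℝ :=
  hp a z * hq b z + hq a z * hp b z - 2 * (hr a z * hr b z + hs a z * hs b z)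

/-- The squared Euclidean norm on `E`. -/
noncomputable def nsq (z : E) : ℝ := ‖z.1‖ ^ 2 + ‖z.2‖ ^ 2

/-- A family of stable leaves: `γ ω` is the graph `s ↦ u` of the points whose forward chain
passes through the sections `T (ω 0), T (ω 1), …`; `z ω s` is that chain. -/
structure IsLeaves (T : Bool → E → E) (γ : (ℕ → Bool) → ℂ → ℂ)
    (z : (ℕ → Bool) → ℂ → ℕ → E) : Prop where
  chain : ∀ ω, ∀ s ∈ closedBall (0 : ℂ) 1, ∀ n, IsChain (fun i => T (ω i)) n (z ω s)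
  zero : ∀ ω, ∀ s ∈ closedBall (0 : ℂ) 1, z ω s 0 = (γ ω s, s)

/-- Products of a linear cocycle `A` over the map `G`. -/
noncomputable def coc {Y : Type} (G : Y → Y) (A : Y → E →L[ℂ] E) : ℕ → Y → E →L[ℂ] E
  | 0, _ => ContinuousLinearMap.id ℂ E
  | n + 1, y => (A (G^[n] y)).comp (coc G A n y)

/-- An invertible extension `(Y, m, G)` of `f` with an expanded unit vector field `v` and a
contracted unit vector field `w`. -/
structure IsHyp (f : E → E) (R L χ : ℝ) {Y : Type} [MeasurableSpace Y] (m : Measure Y)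
    (G G' : Y → Y) (π v w : Y → E) (a b : Y → ℝ) : Prop where
  mp : MeasurePreserving G m m
  mp' : MeasurePreserving G' m m
  left : ∀ y, G' (G y) = y
  right : ∀ y, G (G' y) = y
  mπ : Measurable π
  mv : Measurable v
  mw : Measurable w
  ma : Measurable a
  mb : Measurable b
  semi : ∀ y, π (G y) = f (π y)
  bd : ∀ y, ‖π y‖ ≤ R
  nv : ∀ y, ‖v y‖ = 1
  nw : ∀ y, ‖w y‖ = 1
  up : ∀ y, ‖fderiv ℂ f (π y)‖ ≤ L
  low : ∀ y z, ‖z‖ ≤ L * ‖fderiv ℂ f (π y) z‖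
  dv : ∀ y, fderiv ℂ f (π y) (v y) = (a y : ℂ) • v (G y)
  dw : ∀ y, fderiv ℂ f (π y) (w y) = (b y : ℂ) • w (G y)
  ab : ∀ y, L⁻¹ ≤ a y ∧ a y ≤ L ∧ L⁻¹ ≤ b y ∧ b y ≤ L
  hyp : ∀ᵐ y ∂m, ∃ k : ℕ, ∀ n : ℕ, k ≤ n →
    χ * n ≤ birkhoffSum G (fun y => Real.log (a y)) n y ∧
    χ * n ≤ birkhoffSum G' (fun y => Real.log (a (G' y))) n y ∧
    birkhoffSum G (fun y => Real.log (b y)) n y ≤ -(χ * n)

/-- A box `χ` with finite families `W n` of distinct good crossings of length `n`. -/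
structure IsSys (f : E → E) (R κ ε D : ℝ) (χ : Chart) (W : ℕ → Finset (E → E)) : Prop where
  k0 : 0 < κ
  k1 : κ < 1
  e0 : 0 < ε
  d0 : 0 < D
  box : ∀ z ∈ D2, ‖χ.pt z‖ ≤ R
  good : ∀ n, ∀ T ∈ W n, IsGood f κ ε D χ n T
  disj : ∀ n, ∀ T ∈ W n, ∀ T' ∈ W n, T ≠ T' → ¬ EqOn T T' D2

/-- The lower bound for partition sums: every window around a large `j` contains a length `n`
with a large weighted count of crossings. -/
def LowerSum (f : E → E) (φ : E → ℝ) (P δ : ℝ) (χ : Chart) (W : ℕ → Finset (E → E)) : Prop :=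
  ∀ η : ℝ, 0 < η → ∃ (T₀ : ℕ) (C : ℝ), ∀ j : ℕ, T₀ < j → ∃ n : ℕ, j ≤ n + T₀ ∧ n ≤ j + T₀ ∧
    Real.exp (n * P - j * δ - η * Real.log j - C) ≤
      ∑ T ∈ W n, Real.exp (birkhoffSum f φ n (χ.start T 0))

/-- The area, with multiplicity, of the image of `S` under the holomorphic function `A`. -/
noncomputable def area (A : ℂ → ℂ) (S : Set ℂ) : ℝ≥0∞ :=
  ∫⁻ ζ in S, ENNReal.ofReal (‖deriv A ζ‖ ^ 2)

end Pool.Agent.P.MP_eeb913_an.U
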