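import Mathlib
import Pool.Agent.P.MP_eeb913_an.U.Defs

/-!
Elementary facts on charts, crossings and the exchange of coordinates.
-/

namespace Pool.Agent.P.MP_eeb913_an.U

open MeasureTheory Filter Metric Set

theorem Chart.co_pt (χ : Chart) (z : E) : χ.co (χ.pt z) = z := by
  simp [Chart.co, Chart.pt]

theorem Chart.pt_co (χ : Chart) (x : E) : χ.pt (χ.co x) = x := by
  simp [Chart.co, Chart.pt]

theorem Chart.pt_injective (χ : Chart) : Function.Injective χ.pt := fun z z' h => by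
  rw [← χ.co_pt z, h, χ.co_pt]

theorem Chart.pt_sub (χ : Chart) (z z' : E) : χ.pt z - χ.pt z' = χ.A (z - z') := by
  simp [Chart.pt]

theorem Chart.co_sub (χ : Chart) (x x' : E) : χ.co x - χ.co x' = χ.A.symm (x - x') := by
  simp [Chart.co]

theorem Chart.contDiff_pt (χ : Chart) {n : WithTop ℕ∞} : ContDiff ℂ n χ.pt :=
  contDiff_const.add χ.A.contDiff

theorem Chart.contDiff_co (χ : Chart) {n : WithTop ℕ∞} : ContDiff ℂ n χ.co :=
  χ.A.symm.contDiff.comp (contDiff_id.sub contDiff_const)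

theorem Chart.continuous_pt (χ : Chart) : Continuous χ.pt :=
  (χ.contDiff_pt (n := 0)).continuous

theorem Chart.continuous_co (χ : Chart) : Continuous χ.co :=
  (χ.contDiff_co (n := 0)).continuous

theorem Chart.sw_pt (χ : Chart) (z : E) : χ.sw.pt z = (χ.pt z.swap).swap := by
  simp [Chart.sw, Chart.pt]

theorem norm_swap (z : E) : ‖z.swap‖ = ‖z‖ := by
  simp [Prod.norm_def, max_comm]

theorem mem_D2 {z : E} : z ∈ D2 ↔ ‖z.1‖ ≤ 1 ∧ ‖z.2‖ ≤ 1 := by
  simp [D2, Prod.norm_def]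

theorem swap_mem_D2 {z : E} (hz : z ∈ D2) : z.swap ∈ D2 := by
  rw [mem_D2] at hz ⊢; exact ⟨hz.2, hz.1⟩

theorem sw_sw (g : E → E) : sw (sw g) = g := by
  funext z; simp [sw]

theorem sw_swap (g : E → E) (z : E) : sw g z.swap = (g z).swap := by simp [sw]

theorem sw_iterate (g : E → E) (n : ℕ) : (sw g)^[n] = sw g^[n] := by
  induction n with
  | zero => funext z; simp [sw]
  | succ n ih =>
    funext z
    rw [Function.iterate_succ_apply', ih, Function.iterate_succ']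
    simp [sw]

theorem contDiff_sw {g : E → E} {n : WithTop ℕ∞} (hg : ContDiff ℂ n g) : ContDiff ℂ n (sw g) := by
  have h : ContDiff ℂ n (Prod.swap : E → E) := contDiff_snd.prodMk contDiff_fst
  exact h.comp (hg.comp h)

theorem contDiff_iterate {f : E → E} {n : WithTop ℕ∞} (hf : ContDiff ℂ n f) (k : ℕ) :
    ContDiff ℂ n f^[k] := by
  induction k with
  | zero => exact contDiff_id
  | succ k ih => rw [Function.iterate_succ']; exact hf.comp ih

theorem IsHL.symm {f g : E → E} {d : ℕ} {R₀ : ℝ} (h : IsHL f g d R₀) :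
    IsHL (sw g) (sw f) d R₀ where
  two_le := h.two_le
  cf := contDiff_sw h.cg
  cg := contDiff_sw h.cf
  gf z := by simp [sw, h.fg]
  fg z := by simp [sw, h.gf]
  ff := h.fi
  fi R hR := by rw [sw_sw]; exact h.ff R hR

theorem IsHL.gf_iterate {f g : E → E} {d : ℕ} {R₀ : ℝ} (h : IsHL f g d R₀) (n : ℕ) (z : E) :
    g^[n] (f^[n] z) = z :=
  Function.LeftInverse.iterate h.gf n z

theorem IsHL.fg_iterate {f g : E → E} {d : ℕ} {R₀ : ℝ} (h : IsHL f g d R₀) (n : ℕ) (z : E) :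
    f^[n] (g^[n] z) = z :=
  Function.LeftInverse.iterate h.fg n z

theorem IsHL.one_le {f g : E → E} {d : ℕ} {R₀ : ℝ} (h : IsHL f g d R₀) : 1 ≤ R₀ :=
  (h.ff R₀ le_rfl).one_le

theorem IsCon.mono {κ κ' : ℝ} {T : E → E} (h : IsCon κ T) (hκ : κ ≤ κ') : IsCon κ' T where
  bound b hb := (h.bound b hb).trans hκ
  lip b hb b' hb' := (h.lip b hb b' hb').trans (mul_le_mul_of_nonneg_right hκ (norm_nonneg _))

theorem IsCon.nonneg {κ : ℝ} {T : E → E} (h : IsCon κ T) : 0 ≤ κ :=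
  (norm_nonneg _).trans (h.bound 0 (by simp [D2]))

theorem IsCon.continuousOn {κ : ℝ} {T : E → E} (h : IsCon κ T) : ContinuousOn T D2 := by
  refine (LipschitzOnWith.of_dist_le_mul (K := ⟨κ, h.nonneg⟩) fun b hb b' hb' => ?_).continuousOn
  rw [dist_eq_norm, dist_eq_norm]
  exact h.lip b hb b' hb'

theorem IsCon.sw {κ : ℝ} {T : E → E} (h : IsCon κ T) : IsCon κ (sw T) where
  bound b hb := by
    simp only [U.sw, norm_swap]; exact h.bound _ (swap_mem_D2 hb)
  lip b hb b' hb' := by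
    have := h.lip _ (swap_mem_D2 hb) _ (swap_mem_D2 hb')
    simp only [U.sw]
    rw [← Prod.swap_sub, norm_swap]
    rwa [← Prod.swap_sub, norm_swap] at this

theorem IsCross.mono {κ κ' : ℝ} {F T : E → E} {χ χ' : Chart} (h : IsCross κ F χ χ' T)
    (hκ : κ ≤ κ') : IsCross κ' F χ χ' T :=
  ⟨h.con.mono hκ, h.map⟩

theorem IsCross.sw {κ : ℝ} {F G T : E → E} {χ χ' : Chart} (hGF : ∀ z, G (F z) = z)
    (h : IsCross κ F χ χ' T) : IsCross κ (sw G) χ'.sw χ.sw (sw T) where
  con := h.con.sw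
  map b hb := by
    have h1 := h.map _ (swap_mem_D2 hb)
    simp only [Chart.start, Chart.sw_pt, U.sw, Prod.swap_swap, Prod.fst_swap, Prod.snd_swap,
      Prod.swap_prod_mk] at h1 ⊢
    rw [← h1, hGF]

theorem IsGood.mono {f : E → E} {κ κ' ε D : ℝ} {χ : Chart} {n : ℕ} {T : E → E}
    (h : IsGood f κ ε D χ n T) (hκ : κ ≤ κ') : IsGood f κ' ε D χ n T :=
  ⟨h.cross.mono hκ, h.decay⟩

theorem IsCon.continuousOn_start {κ : ℝ} {T : E → E} (h : IsCon κ T) (χ : Chart) :
    ContinuousOn (χ.start T) D2 :=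
  χ.continuous_pt.comp_continuousOn (h.continuousOn.fst.prodMk continuousOn_snd)

theorem IsCon.isCompact_core {κ ρ : ℝ} {T : E → E} (h : IsCon κ T) (χ : Chart) (hρ : ρ ≤ 1) :
    IsCompact (χ.core T ρ) :=
  (isCompact_closedBall 0 ρ).image_of_continuousOn
    ((h.continuousOn_start χ).mono (closedBall_subset_closedBall hρ))

end Pool.Agent.P.MP_eeb913_an.U
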