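import Mathlib
import Pool.Agent.P.MP_eeb913_an.U.Basic

/-!
The maximal ergodic lemma and its consequences.

maximal: Garsia's proof. M N y = max over n ≤ N of birkhoffSum G u n y (n = 0 included, so M N ≥ 0);
on A N = {M N > 0}, M N y ≤ u y + M N (G y); integrate over A N ∩ S, use ∫ over S of M N ∘ G equal to
∫ over S of M N (S invariant, G preserves m.restrict S); then let N tend to infinity
(dominated convergence, A N ∩ S increases to S).
exists_good_set: let Pos G u = {y | ∃ l k, ∀ n ≥ k, (c' + 1 / (l + 1)) n ≤ birkhoffSum G u n y},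
measurable and strictly invariant under G (u bounded, birkhoffSum_succ'), hence under G'. S is the
intersection of Pos G u and Pos G' (u ∘ G'). For an invariant T inside the complement of Pos G u,
maximal applied to c' + 1 / (l + 1) - u gives ∫_T u ≤ c' m T; the same for G' and u ∘ G', and
∫_T u ∘ G' = ∫_T u. Split the complement of S in two such sets; so c m Y ≤ c' m Sᶜ + B m S.
tempered: T = {y | ∃ l, ∃ᶠ n, (ε / 2 + 1 / (l + 1)) n ≤ q (G^[n] y)} and
S = {y | ∀ᶠ n, |q (G (G^[n] y)) - q (G^[n] y)| ≤ B} are strictly invariant and S is conull (replace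
the a.e. set by a measurable one first). On T ∩ S, for every M the indicator of {M ≤ q} has a
Birkhoff sum larger than n ε / (8 (B + 1)) for some n (q stays ≥ ε n / 4 during the last
ε n / (4 (B + 1)) steps before n). maximal gives m (T ∩ S ∩ {M ≤ q}) ≥ ε / (8 (B + 1)) m (T ∩ S), and
the left side tends to 0. Off T, q (G^[n] y) ≤ ε n eventually.
recurrent_set: Conservative.ae_mem_imp_frequently_image_mem.
-/

namespace Pool.Agent.P.MP_eeb913_an.U

open MeasureTheory Filter Metric Set
open scoped ENNReal NNReal Topology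

section Aux

variable {Y : Type} [MeasurableSpace Y] {m : Measure Y} {G : Y → Y}

/-- the largest Birkhoff sum of length at most `N` -/
noncomputable def ergMax (G : Y → Y) (u : Y → ℝ) : ℕ → Y → ℝ
  | 0, _ => 0
  | N + 1, y => max 0 (u y + ergMax G u N (G y))

omit [MeasurableSpace Y] in
theorem ergMax_nonneg (u : Y → ℝ) (N : ℕ) (y : Y) : 0 ≤ ergMax G u N y := by
  cases N with
  | zero => exact le_rfl
  | succ N => exact le_max_left _ _

omit [MeasurableSpace Y] in
theorem ergMax_mono (u : Y → ℝ) (y : Y) : Monotone fun N => ergMax G u N y := by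
  refine monotone_nat_of_le_succ fun N => ?_
  induction N generalizing y with
  | zero => exact le_max_left _ _
  | succ N ih => exact max_le_max le_rfl (add_le_add le_rfl (ih (G y)))

omit [MeasurableSpace Y] in
theorem le_ergMax (u : Y → ℝ) (N : ℕ) (y : Y) : birkhoffSum G u N y ≤ ergMax G u N y := by
  induction N generalizing y with
  | zero => exact (birkhoffSum_zero G u y).le
  | succ N ih =>
    rw [birkhoffSum_succ']
    exact (add_le_add le_rfl (ih (G y))).trans (le_max_right _ _)

theorem ergMax_meas (hG : Measurable G) {u : Y → ℝ} (hu : Measurable u) (N : ℕ) :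
    Measurable (ergMax G u N) := by
  induction N with
  | zero => exact measurable_const
  | succ N ih => exact measurable_const.max (hu.add (ih.comp hG))

theorem ergMax_int (hG : MeasurePreserving G m m) {u : Y → ℝ} (hi : Integrable u m) (N : ℕ) :
    Integrable (ergMax G u N) m := by
  induction N with
  | zero => exact integrable_zero _ _ _
  | succ N ih => exact (integrable_zero _ _ _).sup (hi.add (hG.integrable_comp_of_integrable ih))

theorem erg_comp (hG : MeasurePreserving G m m) {u : Y → ℝ} (hu : Measurable u) :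
    ∫ y, u (G y) ∂m = ∫ y, u y ∂m := by
  rw [← integral_map hG.measurable.aemeasurable hu.aestronglyMeasurable, hG.map_eq]

theorem erg_max (hG : MeasurePreserving G m m) {u : Y → ℝ} (hu : Measurable u)
    (hi : Integrable u m) (hpos : ∀ᵐ y ∂m, ∃ n : ℕ, 0 < birkhoffSum G u n y) :
    0 ≤ ∫ y, u y ∂m := by
  have hA : ∀ N, MeasurableSet {y | 0 < ergMax G u (N + 1) y} := fun N =>
    measurableSet_lt measurable_const (ergMax_meas hG.measurable hu _)
  have lim := tendsto_integral_of_dominated_convergence (μ := m)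
    (F := fun N => indicator {y | 0 < ergMax G u (N + 1) y} u) (f := u) (fun y => ‖u y‖)
    (fun N => (hu.indicator (hA N)).aestronglyMeasurable) hi.norm
    (fun N => Eventually.of_forall fun y => norm_indicator_le_norm_self _ _) (by
      filter_upwards [hpos] with y ⟨n, hn⟩
      refine tendsto_const_nhds.congr' ?_
      filter_upwards [eventually_ge_atTop n] with N hN
      exact (indicator_of_mem (s := {y | 0 < ergMax G u (N + 1) y})
        (hn.trans_le ((le_ergMax u n y).trans (ergMax_mono u y (by omega : n ≤ N + 1)))) u).symm)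
  refine ge_of_tendsto' lim fun N => ?_
  have h1 := ergMax_int hG hi (N + 1)
  have h2 : Integrable (fun y => ergMax G u (N + 1) (G y)) m := hG.integrable_comp_of_integrable h1
  refine le_trans ?_ (integral_mono (h1.sub h2) (hi.indicator (hA N)) fun y => ?_)
  · rw [Pi.sub_def, integral_sub h1 h2, erg_comp hG (ergMax_meas hG.measurable hu _), sub_self]
  · have h3 : ergMax G u N (G y) ≤ ergMax G u (N + 1) (G y) := ergMax_mono u (G y) N.le_succ
    have h4 := ergMax_nonneg (G := G) u N (G y)
    have h5 : ergMax G u (N + 1) y = max 0 (u y + ergMax G u N (G y)) := rfl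
    by_cases hy : 0 < ergMax G u (N + 1) y
    · rw [indicator_of_mem (s := {y | 0 < ergMax G u (N + 1) y}) hy, Pi.sub_apply]
      rcases max_cases 0 (u y + ergMax G u N (G y)) with h | h <;> linarith [h.1]
    · rw [indicator_of_notMem (s := {y | 0 < ergMax G u (N + 1) y}) hy, Pi.sub_apply]
      linarith [not_lt.1 hy]

theorem erg_restrict (hG : MeasurePreserving G m m) {S : Set Y} (hS : MeasurableSet S)
    (hinv : G ⁻¹' S = S) : MeasurePreserving G (m.restrict S) (m.restrict S) := by
  have := hG.restrict_preimage hS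
  rwa [hinv] at this

/-- the points whose Birkhoff sums are bounded below -/
def ergBd (G : Y → Y) (w : Y → ℝ) : Set Y := {y | ∃ K : ℕ, ∀ n : ℕ, -(K : ℝ) ≤ birkhoffSum G w n y}

theorem ergBd_meas (hG : Measurable G) {w : Y → ℝ} (hw : Measurable w) :
    MeasurableSet (ergBd G w) := by
  simp only [ergBd, ofPred_exists, ofPred_forall]
  exact MeasurableSet.iUnion fun K => MeasurableSet.iInter fun n => measurableSet_le
    measurable_const (Finset.measurable_sum _ fun i _ => hw.comp (hG.iterate i))

omit [MeasurableSpace Y] in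
theorem ergBd_inv (G : Y → Y) (w : Y → ℝ) : G ⁻¹' ergBd G w = ergBd G w := by
  ext y
  obtain ⟨L, hL⟩ := exists_nat_ge |w y|
  have h1 := abs_le.1 hL
  refine ⟨fun ⟨K, hK⟩ => ⟨K + L, fun n => ?_⟩, fun ⟨K, hK⟩ => ⟨K + L, fun n => ?_⟩⟩
  · cases n with
    | zero => rw [birkhoffSum_zero, neg_nonpos]; positivity
    | succ n => rw [birkhoffSum_succ']; push_cast; linarith [hK n]
  · have := hK (n + 1)
    rw [birkhoffSum_succ'] at this
    push_cast
    linarith

theorem ergBd_int (hG : MeasurePreserving G m m) {w : Y → ℝ} (hw : Measurable w)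
    (hi : Integrable w m) {T : Set Y} (hT : MeasurableSet T) (hinv : G ⁻¹' T = T)
    (h : ∀ y ∈ T, y ∉ ergBd G w) : ∫ y in T, w y ∂m ≤ 0 := by
  have := erg_max (erg_restrict hG hT hinv) hw.neg hi.neg.integrableOn
    ((ae_restrict_mem hT).mono fun y hy => by
      by_contra hc
      push Not at hc
      refine h y hy ⟨0, fun n => ?_⟩
      have := hc n
      simp only [birkhoffSum] at this ⊢
      simpa using this)
  rwa [Pi.neg_def, integral_neg, neg_nonneg] at this

omit [MeasurableSpace Y] in
theorem erg_inv {G' : Y → Y} (h2 : ∀ y, G (G' y) = y) {S : Set Y} (h : G ⁻¹' S = S) :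
    G' ⁻¹' S = S := by
  ext y
  rw [mem_preimage, ← h, mem_preimage, h2, h]

theorem erg_two [IsFiniteMeasure m] {G' : Y → Y} (hG : MeasurePreserving G m m)
    (hG' : MeasurePreserving G' m m) (h2 : ∀ y, G (G' y) = y) {w : Y → ℝ}
    (hw : Measurable w) {B : ℝ} (hB : ∀ y, |w y| ≤ B) :
    ∫ y, w y ∂m ≤ B * m.real (ergBd G w ∩ ergBd G' fun y => w (G' y)) := by
  have hi : Integrable w m := Integrable.of_bound hw.aestronglyMeasurable B (ae_of_all _ hB)
  have hP := ergBd_meas hG.measurable hw
  have hQ : MeasurableSet (ergBd G' fun y => w (G' y)) :=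
    ergBd_meas hG'.measurable (hw.comp hG'.measurable)
  have e1 := ergBd_int hG hw hi hP.compl (by rw [preimage_compl, ergBd_inv]) fun y hy => hy
  have i2 : G' ⁻¹' (ergBd G w \ ergBd G' fun y => w (G' y)) =
      ergBd G w \ ergBd G' fun y => w (G' y) := by
    rw [preimage_sdiff, ergBd_inv, erg_inv h2 (ergBd_inv G w)]
  have e2 := ergBd_int hG' (hw.comp hG'.measurable) (hG'.integrable_comp_of_integrable hi)
    (hP.diff hQ) i2 fun y hy => hy.2
  have e3 := erg_comp (erg_restrict hG' (hP.diff hQ) i2) hw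
  have e4 := norm_setIntegral_le_of_norm_le_const (μ := m) (f := w) (C := B)
    (s := ergBd G w ∩ ergBd G' fun y => w (G' y)) (measure_lt_top _ _) fun y _ => hB y
  rw [← integral_add_compl hP hi, ← integral_inter_add_sdiff hQ hi.integrableOn]
  simp only [Function.comp_def] at e2
  linarith [(abs_le.1 e4).2]

theorem erg_cob [IsFiniteMeasure m] (hG : MeasurePreserving G m m) {q : Y → ℝ} (hq : Measurable q)
    {B : ℝ} (hB : ∀ᵐ y ∂m, |q (G y) - q y| ≤ B) : ∫ y, q (G y) - q y ∂m = 0 := by
  have hm : ∀ M : ℕ, Measurable fun y => max (-(M : ℝ)) (min (M : ℝ) (q y)) := fun M =>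
    measurable_const.max (measurable_const.min hq)
  have hl : ∀ x : ℝ, Tendsto (fun M : ℕ => max (-(M : ℝ)) (min (M : ℝ) x)) atTop (𝓝 x) := fun x => by
    obtain ⟨L, hL⟩ := exists_nat_ge |x|
    refine tendsto_const_nhds.congr' ?_
    filter_upwards [eventually_ge_atTop L] with M hM
    have h1 := abs_le.1 (hL.trans (Nat.cast_le.2 hM))
    rw [min_eq_right h1.2, max_eq_right h1.1]
  have lim := tendsto_integral_of_dominated_convergence (μ := m)
    (F := fun (M : ℕ) y => max (-(M : ℝ)) (min (M : ℝ) (q (G y))) - max (-(M : ℝ)) (min (M : ℝ) (q y)))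
    (f := fun y => q (G y) - q y) (fun _ => B)
    (fun M => (((hm M).comp hG.measurable).sub (hm M)).aestronglyMeasurable) (integrable_const B)
    (fun M => hB.mono fun y hy => by
      refine le_trans ?_ hy
      rw [Real.norm_eq_abs, max_comm, max_comm (-(M : ℝ))]
      refine (abs_max_sub_max_le_abs _ _ _).trans ?_
      refine (abs_min_sub_min_le_max _ _ _ _).trans ?_
      rw [sub_self, abs_zero]
      exact max_le (abs_nonneg _) le_rfl)
    (ae_of_all _ fun y => (hl _).sub (hl _))
  refine tendsto_nhds_unique lim (tendsto_const_nhds.congr fun M => ?_)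
  have hi : Integrable (fun y => max (-(M : ℝ)) (min (M : ℝ) (q y))) m :=
    Integrable.of_bound (hm M).aestronglyMeasurable M (ae_of_all _ fun y => abs_le.2
      ⟨le_max_left _ _, max_le (neg_le_self (Nat.cast_nonneg M)) (min_le_left _ _)⟩)
  have hi' : Integrable (fun y => max (-(M : ℝ)) (min (M : ℝ) (q (G y)))) m :=
    hG.integrable_comp_of_integrable hi
  rw [integral_sub hi' hi, erg_comp hG (hm M), sub_self]

end Aux

theorem maximal {Y : Type} [MeasurableSpace Y] {m : Measure Y} [IsFiniteMeasure m] {G : Y → Y}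
    (hG : MeasurePreserving G m m) {u : Y → ℝ} (hu : Measurable u) {B : ℝ} (hB : ∀ y, |u y| ≤ B)
    {S : Set Y} (hS : MeasurableSet S) (hinv : G ⁻¹' S = S)
    (hpos : ∀ y ∈ S, ∃ n : ℕ, 0 < birkhoffSum G u n y) : 0 ≤ ∫ y in S, u y ∂m := by
  exact erg_max (erg_restrict hG hS hinv) hu
    (Integrable.of_bound hu.aestronglyMeasurable B (ae_of_all _ hB)) ((ae_restrict_mem hS).mono hpos)

theorem exists_good_set {Y : Type} [MeasurableSpace Y] {m : Measure Y} [IsFiniteMeasure m]
    {G G' : Y → Y} (hG : MeasurePreserving G m m) (hG' : MeasurePreserving G' m m)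
    (h1 : ∀ y, G' (G y) = y) (h2 : ∀ y, G (G' y) = y) {u : Y → ℝ} (hu : Measurable u)
    {B c c' : ℝ} (hB : ∀ y, |u y| ≤ B) (hc : c' < c)
    (hint : c * m.real univ ≤ ∫ y, u y ∂m) :
    ∃ S : Set Y, MeasurableSet S ∧ G ⁻¹' S = S ∧ G' ⁻¹' S = S ∧
      (c - c') * m.real univ ≤ (B + |c'|) * m.real S ∧
      ∀ y ∈ S, ∃ k : ℕ, ∀ n : ℕ, k ≤ n → c' * n ≤ birkhoffSum G u n y ∧
        c' * n ≤ birkhoffSum G' (fun y => u (G' y)) n y := by
  have hi : Integrable u m := Integrable.of_bound hu.aestronglyMeasurable B (ae_of_all _ hB)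
  set a : ℕ → ℝ := fun l => c' + 1 / ((l : ℝ) + 1) with ha
  set S : ℕ → Set Y := fun l =>
    ergBd G (fun y => u y - a l) ∩ ergBd G' fun y => u (G' y) - a l with hS
  have iG : G ⁻¹' (⋃ l, S l) = ⋃ l, S l := by
    simp only [preimage_iUnion, hS, preimage_inter, ergBd_inv, erg_inv h1 (ergBd_inv G' _)]
  have ev : ∀ (F : Y → Y) (w : Y → ℝ) (l : ℕ) (y : Y), y ∈ ergBd F (fun y => w y - a l) →
      ∀ᶠ n : ℕ in atTop, c' * n ≤ birkhoffSum F w n y := by
    rintro F w l y ⟨K, hK⟩
    filter_upwards [eventually_ge_atTop (K * (l + 1))] with n hn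
    have h3 := hK n
    have h4 : (K : ℝ) * (l + 1) ≤ n := by exact_mod_cast hn
    have h5 : (K : ℝ) ≤ n * (1 / ((l : ℝ) + 1)) := by
      rw [mul_one_div, le_div_iff₀ (by positivity)]; exact h4
    simp only [birkhoffSum, Finset.sum_sub_distrib, Finset.sum_const, Finset.card_range,
      nsmul_eq_mul, ha] at h3 ⊢
    linarith
  refine ⟨⋃ l, S l, MeasurableSet.iUnion fun l => (ergBd_meas hG.measurable
    (hu.sub_const _)).inter (ergBd_meas hG'.measurable ((hu.comp hG'.measurable).sub_const _)),
    iG, erg_inv h2 iG, ?_, fun y hy => ?_⟩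
  · have t : Tendsto a atTop (𝓝 c') := by
      have := (tendsto_one_div_add_atTop_nhds_zero_nat (𝕜 := ℝ)).const_add c'
      rwa [add_zero] at this
    refine le_of_tendsto_of_tendsto' ((t.const_sub c).mul_const _)
      ((t.abs.const_add B).mul_const _) fun l => ?_
    have h3 := erg_two hG hG' h2 (hu.sub_const (a l)) (B := B + |a l|) fun y =>
      (abs_sub _ _).trans (add_le_add (hB y) le_rfl)
    rw [integral_sub hi (integrable_const _), integral_const, smul_eq_mul] at h3
    have h4 : m.real (S l) ≤ m.real (⋃ l, S l) := measureReal_mono (subset_iUnion S l)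
    rcases isEmpty_or_nonempty Y with hY | ⟨⟨y⟩⟩
    · simp [Measure.real, m.eq_zero_of_isEmpty]
    · have h5 : 0 ≤ B + |a l| := add_nonneg ((abs_nonneg _).trans (hB y)) (abs_nonneg _)
      have h6 := mul_le_mul_of_nonneg_left h4 h5
      simp only [hS] at h6 ⊢
      linarith
  · obtain ⟨l, hl⟩ := mem_iUnion.1 hy
    exact eventually_atTop.1 ((ev G u l y hl.1).and (ev G' (fun y => u (G' y)) l y hl.2))

theorem tempered {Y : Type} [MeasurableSpace Y] {m : Measure Y} [IsFiniteMeasure m] {G : Y → Y}
    (hG : MeasurePreserving G m m) {q : Y → ℝ} (hq : Measurable q) {B : ℝ}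
    (hB : ∀ᵐ y ∂m, |q (G y) - q y| ≤ B) {ε : ℝ} (hε : 0 < ε) :
    ∀ᵐ y ∂m, ∃ K : ℝ, ∀ n : ℕ, q (G^[n] y) ≤ K + ε * n := by
  have hw : Measurable fun y => q (G y) - q y := (hq.comp hG.measurable).sub hq
  have hi : Integrable (fun y => q (G y) - q y) m :=
    Integrable.of_bound hw.aestronglyMeasurable B hB
  have hT := (ergBd_meas hG.measurable (hw.const_sub ε)).compl
  have iT : G ⁻¹' (ergBd G fun y => ε - (q (G y) - q y))ᶜ =
      (ergBd G fun y => ε - (q (G y) - q y))ᶜ := by rw [preimage_compl, ergBd_inv]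
  have e1 := ergBd_int hG (hw.const_sub ε) ((integrable_const ε).sub hi) hT iT fun y hy => hy
  rw [integral_sub (integrable_const ε) hi.integrableOn,
    erg_cob (erg_restrict hG hT iT) hq (ae_restrict_of_ae hB), setIntegral_const, smul_eq_mul,
    sub_zero] at e1
  have e2 := le_antisymm (nonpos_of_mul_nonpos_left e1 hε) measureReal_nonneg
  rw [measureReal_eq_zero_iff] at e2
  filter_upwards [compl_mem_ae_iff.2 e2] with y hy
  obtain ⟨K, hK⟩ := not_not.1 hy
  refine ⟨K + q y, fun n => ?_⟩
  have h1 := hK n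
  have h2 := Finset.sum_range_sub (fun i => q (G^[i] y)) n
  simp only [Function.iterate_succ_apply', Function.iterate_zero, id] at h2
  simp only [birkhoffSum] at h1
  rw [Finset.sum_sub_distrib, h2, Finset.sum_const, Finset.card_range, nsmul_eq_mul] at h1
  linarith

theorem recurrent_set {Y : Type} [MeasurableSpace Y] {m : Measure Y} [IsFiniteMeasure m]
    {G : Y → Y} (hG : MeasurePreserving G m m) {R : Set Y} (hR : MeasurableSet R) :
    MeasurableSet {y | ∃ᶠ n in atTop, G^[n] y ∈ R} ∧
      G ⁻¹' {y | ∃ᶠ n in atTop, G^[n] y ∈ R} = {y | ∃ᶠ n in atTop, G^[n] y ∈ R} ∧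
      m (R \ {y | ∃ᶠ n in atTop, G^[n] y ∈ R}) = 0 := by
  refine ⟨?_, ?_, ?_⟩
  · simp only [frequently_atTop, ofPred_forall, ofPred_exists, ofPred_and]
    exact MeasurableSet.iInter fun a => MeasurableSet.iUnion fun b =>
      (MeasurableSet.const _).inter (hG.measurable.iterate b hR)
  · ext y
    simp only [mem_preimage, mem_ofPred_eq, ← Function.iterate_succ_apply]
    conv_rhs => rw [← map_add_atTop_eq_nat 1, frequently_map]
  · have := hG.conservative.ae_mem_imp_frequently_image_mem hR.nullMeasurableSet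
    refine measure_mono_null (fun y hy => ?_) (ae_iff.1 this)
    exact fun h => hy.2 (h hy.1)

end Pool.Agent.P.MP_eeb913_an.U
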