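import Mathlib
import Pool.Agent.P.MP_eeb913_an.U.Basic
import Pool.Agent.P.MP_eeb913_an.Entropy

/-!
Elementary properties of the entropy.

ksEntropy_nonneg: every term negMulLog of a number in [0, 1] is nonnegative; use the partition into
Fin 1. ksEntropy_mix_le: negMulLog (a + b) ≤ negMulLog a + negMulLog b for a, b ≥ 0 and
negMulLog (t a) = t negMulLog a + a negMulLog t give
H (t₁ ν₁ + t₂ ν₂) ≤ t₁ H ν₁ + t₂ H ν₂ + 2; divide by n; for ε > 0 eventually H_i / n < h_i + ε.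
ksEntropy_inv: the name (α (g^[i] x))_i of x equals the reversed name of g^[n-1] x for f
(g^[i] x = f^[n-1-i] (g^[n-1] x)); reindex the sum by the bijection of Fin n → Fin k given by
Fin.rev and use invariance of ν under g^[n-1].
exists_piece: put ν' = μ - ∑ ν i (Measure.sub_add_cancel_of_le; it is invariant). For a finite
invariant ν let defect ν = ν.real univ * (P - free energy of the normalised ν), 0 if ν = 0 (the free
energy is a real number: between 0 + ∫ φ and P). ksEntropy_mix_le makes defect superadditive,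
defect ≥ 0, so ∑ defect (ν i) ≤ defect μ ≤ δ (induction on I). If all nonzero pieces had free energy
< P - δ / t the sum would exceed δ.
-/

namespace Pool.Agent.P.MP_eeb913_an.U

open MeasureTheory Filter Metric Set
open scoped ENNReal NNReal Topology

private theorem af_pe_nonneg {X ι : Type} [MeasurableSpace X] [Fintype ι] (ν : Measure X)
    [IsProbabilityMeasure ν] (τ : X → ι) : 0 ≤ partitionEntropy ν τ :=
  Finset.sum_nonneg fun _ _ => Real.negMulLog_nonneg measureReal_nonneg measureReal_le_one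

private theorem af_negMulLog_add {a b : ℝ} (ha : 0 ≤ a) (hb : 0 ≤ b) :
    Real.negMulLog (a + b) ≤ Real.negMulLog a + Real.negMulLog b := by
  have h : ∀ x y : ℝ, 0 ≤ x → 0 ≤ y → x * Real.log x ≤ x * Real.log (x + y) := by
    intro x y hx hy
    rcases hx.eq_or_lt with h0 | h0
    · rw [← h0]; simp
    · exact mul_le_mul_of_nonneg_left (Real.log_le_log h0 (by linarith)) hx
  have h1 := h a b ha hb
  have h2 := h b a hb ha
  rw [add_comm b a] at h2
  unfold Real.negMulLog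
  nlinarith

private theorem af_sum_one {X ι : Type} [MeasurableSpace X] [Fintype ι] [MeasurableSpace ι]
    [MeasurableSingletonClass ι] (ν : Measure X) [IsProbabilityMeasure ν] (τ : X → ι)
    (hτ : Measurable τ) : ∑ i, ν.real (τ ⁻¹' {i}) = 1 := by
  have : IsProbabilityMeasure (ν.map τ) := Measure.isProbabilityMeasure_map hτ.aemeasurable
  have hreal : ∀ i, (ν.map τ).real {i} = ν.real (τ ⁻¹' {i}) := fun i => by
    rw [map_measureReal_apply hτ (measurableSet_singleton i)]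
  have := integral_fintype (μ := ν.map τ) (f := fun _ : ι => (1 : ℝ)) (integrable_const _)
  simp only [integral_const, probReal_univ, smul_eq_mul, mul_one, hreal] at this
  exact this.symm

private theorem af_pe_mix {X ι : Type} [MeasurableSpace X] [Fintype ι] [MeasurableSpace ι]
    [MeasurableSingletonClass ι] (ν₁ ν₂ : Measure X) [IsProbabilityMeasure ν₁]
    [IsProbabilityMeasure ν₂] (τ : X → ι) (hτ : Measurable τ) (t₁ t₂ : ℝ≥0) :
    partitionEntropy (t₁ • ν₁ + t₂ • ν₂) τ ≤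
      t₁ * partitionEntropy ν₁ τ + t₂ * partitionEntropy ν₂ τ + 2 := by
  have hle : ∀ t : ℝ≥0, Real.negMulLog t ≤ 1 := fun t =>
    (Real.negMulLog_le_one_sub_self t.coe_nonneg).trans (by linarith [t.coe_nonneg])
  have h1 : ∀ i, Real.negMulLog ((t₁ • ν₁ + t₂ • ν₂).real (τ ⁻¹' {i})) ≤
      t₁ * Real.negMulLog (ν₁.real (τ ⁻¹' {i})) + t₂ * Real.negMulLog (ν₂.real (τ ⁻¹' {i})) +
        (ν₁.real (τ ⁻¹' {i}) + ν₂.real (τ ⁻¹' {i})) := by
    intro i
    rw [measureReal_add_apply, measureReal_nnreal_smul_apply, measureReal_nnreal_smul_apply]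
    refine (af_negMulLog_add (by positivity) (by positivity)).trans ?_
    rw [Real.negMulLog_mul, Real.negMulLog_mul]
    have a1 := mul_le_mul_of_nonneg_left (hle t₁) (measureReal_nonneg (μ := ν₁) (s := τ ⁻¹' {i}))
    have a2 := mul_le_mul_of_nonneg_left (hle t₂) (measureReal_nonneg (μ := ν₂) (s := τ ⁻¹' {i}))
    linarith
  refine (Finset.sum_le_sum fun i _ => h1 i).trans ?_
  rw [Finset.sum_add_distrib, Finset.sum_add_distrib, Finset.sum_add_distrib, ← Finset.mul_sum,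
    ← Finset.mul_sum, af_sum_one ν₁ τ hτ, af_sum_one ν₂ τ hτ]
  unfold partitionEntropy
  linarith

private theorem af_eventually {X : Type} [MeasurableSpace X] (f : X → X) (ν : Measure X) {h ε : ℝ}
    (e : ksEntropy f ν ≤ h) (hε : 0 < ε) {k : ℕ} (α : X → Fin k) (hα : Measurable α) :
    ∀ᶠ n : ℕ in atTop,
      partitionEntropy ν (fun (x : X) (i : Fin n) => α (f^[i] x)) / n < h + ε := by
  have h1 : limsup (fun n : ℕ =>
      ((partitionEntropy ν (fun (x : X) (i : Fin n) => α (f^[i] x)) / n : ℝ) : EReal)) atTop ≤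
      ksEntropy f ν :=
    le_iSup_of_le k (le_iSup_of_le α (le_iSup_of_le hα le_rfl))
  have h2 : (h : EReal) < ((h + ε : ℝ) : EReal) := EReal.coe_lt_coe_iff.2 (by linarith)
  filter_upwards [eventually_lt_of_limsup_lt ((h1.trans e).trans_lt h2)] with n hn
  exact EReal.coe_lt_coe_iff.1 hn

theorem ksEntropy_nonneg {X : Type} [MeasurableSpace X] (f : X → X) (ν : Measure X)
    [IsProbabilityMeasure ν] : 0 ≤ ksEntropy f ν := by
  refine le_iSup_of_le 1 (le_iSup_of_le (fun _ => 0) (le_iSup_of_le measurable_const ?_))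
  refine le_limsup_of_frequently_le (Frequently.of_forall fun n => ?_)
  exact EReal.coe_nonneg.2 (div_nonneg (af_pe_nonneg ν _) n.cast_nonneg)

theorem ksEntropy_mix_le {X : Type} [MeasurableSpace X] (f : X → X)
    (ν₁ ν₂ : Measure X) [IsProbabilityMeasure ν₁] [IsProbabilityMeasure ν₂] (hf : Measurable f)
    (t₁ t₂ : ℝ≥0) (ht : t₁ + t₂ = 1) {h₁ h₂ : ℝ} (e₁ : ksEntropy f ν₁ ≤ h₁)
    (e₂ : ksEntropy f ν₂ ≤ h₂) :
    ksEntropy f (t₁ • ν₁ + t₂ • ν₂) ≤ ((t₁ * h₁ + t₂ * h₂ : ℝ) : EReal) := by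
  refine iSup_le fun k => iSup_le fun α => iSup_le fun hα => ?_
  apply EReal.le_of_forall_lt_iff_le.mp
  intro z hz
  rw [EReal.coe_lt_coe_iff] at hz
  set ε := (z - (t₁ * h₁ + t₂ * h₂)) / 2 with hεdef
  have hε : 0 < ε := by linarith
  have ht' : (t₁ : ℝ) + t₂ = 1 := by exact_mod_cast ht
  apply limsup_le_of_le (hf := by isBoundedDefault)
  have hev : ∀ᶠ n : ℕ in atTop, (2 : ℝ) / n < ε :=
    (tendsto_const_div_atTop_nhds_zero_nat _).eventually (gt_mem_nhds hε)
  filter_upwards [hev, af_eventually f ν₁ e₁ hε α hα, af_eventually f ν₂ e₂ hε α hα]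
    with n hn hn₁ hn₂
  have hτ : Measurable (fun (x : X) (i : Fin n) => α (f^[i] x)) :=
    measurable_pi_lambda _ fun i => hα.comp (hf.iterate i)
  have h1 := div_le_div_of_nonneg_right (af_pe_mix ν₁ ν₂ _ hτ t₁ t₂) (n.cast_nonneg (α := ℝ))
  rw [add_div, add_div, mul_div_assoc, mul_div_assoc] at h1
  rw [EReal.coe_le_coe_iff]
  have a1 := mul_le_mul_of_nonneg_left hn₁.le t₁.coe_nonneg
  have a2 := mul_le_mul_of_nonneg_left hn₂.le t₂.coe_nonneg
  have a3 : (t₁ : ℝ) * ε + t₂ * ε = ε := by rw [← add_mul, ht', one_mul]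
  have a4 : z = t₁ * h₁ + t₂ * h₂ + 2 * ε := by rw [hεdef]; ring
  rw [mul_add] at a1 a2
  linarith

private theorem af_names_inv {X : Type} [MeasurableSpace X] {f g : X → X} {ν : Measure X}
    (hf : MeasurePreserving f ν ν) (hg : MeasurePreserving g ν ν) (h2 : ∀ x, f (g x) = x)
    {k : ℕ} (α : X → Fin k) (hα : Measurable α) (n : ℕ) :
    partitionEntropy ν (fun (x : X) (i : Fin n) => α (g^[i] x)) =
      partitionEntropy ν (fun (x : X) (i : Fin n) => α (f^[i] x)) := by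
  have hτ : Measurable (fun (x : X) (i : Fin n) => α (f^[i] x)) :=
    measurable_pi_lambda _ fun i => hα.comp (hf.measurable.iterate i)
  have key : ∀ (x : X) (i : Fin n), f^[(Fin.rev i : Fin n)] (g^[n - 1] x) = g^[i] x := by
    intro x i
    have e : n - 1 = (Fin.rev i : Fin n) + (i : ℕ) := by
      have := i.2
      rw [Fin.val_rev]; omega
    rw [e, Function.iterate_add_apply]
    exact Function.LeftInverse.iterate h2 _ _
  unfold partitionEntropy
  refine Fintype.sum_equiv (Equiv.arrowCongr Fin.revPerm (Equiv.refl (Fin k))) _ _ fun w => ?_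
  rw [← (hg.iterate (n - 1)).measureReal_preimage
    (hτ (measurableSet_singleton _)).nullMeasurableSet]
  congr 2
  ext x
  simp only [mem_preimage, mem_singleton_iff]
  constructor
  · intro h
    funext i
    have := key x (Fin.rev i)
    rw [Fin.rev_rev] at this
    rw [this, ← h]
    simp
  · intro h
    funext i
    have := congrFun h (Fin.rev i)
    rw [key] at this
    rw [this]
    simp

theorem ksEntropy_inv {X : Type} [MeasurableSpace X] {f g : X → X} {ν : Measure X}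
    (hf : MeasurePreserving f ν ν) (hg : MeasurePreserving g ν ν) (h1 : ∀ x, g (f x) = x)
    (h2 : ∀ x, f (g x) = x) : ksEntropy g ν = ksEntropy f ν := by
  have _ := h1
  unfold ksEntropy
  refine iSup_congr fun k => iSup_congr fun α => iSup_congr fun hα => ?_
  simp only [af_names_inv hf hg h2 α hα]

private theorem af_norm {X : Type} [MeasurableSpace X] {f : X → X} {ν : Measure X}
    [IsFiniteMeasure ν] (h0 : ν ≠ 0) (h : MeasurePreserving f ν ν) :
    IsInvariantProb f ((ν univ)⁻¹ • ν) := by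
  have : NeZero ν := ⟨h0⟩
  exact ⟨inferInstance, h.smul_measure _⟩

private theorem af_real {X : Type} [MeasurableSpace X] {f : X → X} {φ : X → ℝ} {P : ℝ}
    (hP : ∀ ν, IsInvariantProb f ν → fe f φ ν ≤ P) {ν : Measure X} (hν : IsInvariantProb f ν) :
    ∃ h : ℝ, ksEntropy f ν = h ∧ fe f φ ν = ((h + ∫ x, φ x ∂ν : ℝ) : EReal) := by
  have := hν.1
  have h0 := ksEntropy_nonneg f ν
  have h1 := hP ν hν
  unfold fe at h1 ⊢
  induction he : ksEntropy f ν using EReal.rec with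
  | bot => rw [he] at h0; simp at h0
  | top => rw [he] at h1; simp at h1
  | coe h => exact ⟨h, rfl, (EReal.coe_add _ _).symm⟩

/-- mass times the distance of the free energy of the normalised measure from `P` -/
private noncomputable def afDef {X : Type} [MeasurableSpace X] (f : X → X) (φ : X → ℝ) (P : ℝ)
    (ν : Measure X) : ℝ :=
  ν.real univ * (P - (fe f φ ((ν univ)⁻¹ • ν)).toReal)

private theorem af_def_zero {X : Type} [MeasurableSpace X] (f : X → X) (φ : X → ℝ) (P : ℝ) :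
    afDef f φ P 0 = 0 := by
  simp [afDef]

private theorem af_def_nonneg {X : Type} [MeasurableSpace X] {f : X → X} {φ : X → ℝ} {P : ℝ}
    (hP : ∀ ν, IsInvariantProb f ν → fe f φ ν ≤ P) {ν : Measure X} [IsFiniteMeasure ν]
    (h : MeasurePreserving f ν ν) : 0 ≤ afDef f φ P ν := by
  by_cases h0 : ν = 0
  · rw [h0, af_def_zero]
  · have hn := af_norm h0 h
    obtain ⟨e, -, he⟩ := af_real hP hn
    have h1 := hP _ hn
    unfold afDef
    rw [he] at h1 ⊢
    rw [EReal.toReal_coe]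
    exact mul_nonneg measureReal_nonneg (sub_nonneg.2 (EReal.coe_le_coe_iff.1 h1))

private theorem af_def_add {X : Type} [MeasurableSpace X] {f : X → X} (hf : Measurable f)
    {φ : X → ℝ} (hφ : Measurable φ) {B : ℝ} (hB : ∀ x, |φ x| ≤ B) {P : ℝ}
    (hP : ∀ ν, IsInvariantProb f ν → fe f φ ν ≤ P) {ν₁ ν₂ : Measure X} [IsFiniteMeasure ν₁]
    [IsFiniteMeasure ν₂] (h₁ : MeasurePreserving f ν₁ ν₁) (h₂ : MeasurePreserving f ν₂ ν₂) :
    afDef f φ P ν₁ + afDef f φ P ν₂ ≤ afDef f φ P (ν₁ + ν₂) := by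
  by_cases z₁ : ν₁ = 0
  · rw [z₁, af_def_zero, zero_add, zero_add]
  by_cases z₂ : ν₂ = 0
  · rw [z₂, af_def_zero, add_zero, add_zero]
  have z : ν₁ + ν₂ ≠ 0 := fun h =>
    z₁ (le_antisymm (h ▸ Measure.le_add_right le_rfl) (Measure.zero_le _))
  have n₁ := af_norm z₁ h₁
  have n₂ := af_norm z₂ h₂
  have n := af_norm z (h₁.add_measure h₂)
  obtain ⟨e₁, k₁, f₁⟩ := af_real hP n₁
  obtain ⟨e₂, k₂, f₂⟩ := af_real hP n₂
  obtain ⟨e, k, f₀⟩ := af_real hP n
  obtain ⟨m₁, hm₁⟩ : ∃ m : ℝ≥0, ν₁ univ = m := ⟨_, (coe_measureUnivNNReal ν₁).symm⟩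
  obtain ⟨m₂, hm₂⟩ : ∃ m : ℝ≥0, ν₂ univ = m := ⟨_, (coe_measureUnivNNReal ν₂).symm⟩
  have p₁ : m₁ ≠ 0 := fun h => z₁ (Measure.measure_univ_eq_zero.1 (by rw [hm₁, h]; rfl))
  have p₂ : m₂ ≠ 0 := fun h => z₂ (Measure.measure_univ_eq_zero.1 (by rw [hm₂, h]; rfl))
  have p : m₁ + m₂ ≠ 0 := fun h => p₁ (add_eq_zero.1 h).1
  have hsm : ∀ (m : ℝ≥0) (ρ : Measure X), m ≠ 0 → ρ univ = m →
      (m / (m₁ + m₂)) • ((ρ univ)⁻¹ • ρ) = ((ν₁ + ν₂) univ)⁻¹ • ρ := by
    intro m ρ hm hρ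
    rw [ENNReal.smul_def, smul_smul, Measure.add_apply, hρ, hm₁, hm₂, ← ENNReal.coe_add,
      ← ENNReal.coe_inv hm, ← ENNReal.coe_inv p, ← ENNReal.coe_mul]
    congr 2
    field_simp
  have hmix : ((ν₁ + ν₂) univ)⁻¹ • (ν₁ + ν₂) =
      (m₁ / (m₁ + m₂)) • ((ν₁ univ)⁻¹ • ν₁) + (m₂ / (m₁ + m₂)) • ((ν₂ univ)⁻¹ • ν₂) := by
    rw [hsm m₁ ν₁ p₁ hm₁, hsm m₂ ν₂ p₂ hm₂, smul_add]
  have := n₁.1
  have := n₂.1
  have hent := ksEntropy_mix_le f ((ν₁ univ)⁻¹ • ν₁) ((ν₂ univ)⁻¹ • ν₂) hf (m₁ / (m₁ + m₂))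
    (m₂ / (m₁ + m₂)) (by field_simp) k₁.le k₂.le
  rw [← hmix, k, EReal.coe_le_coe_iff] at hent
  have hint : ∀ (ρ : Measure X) [IsFiniteMeasure ρ], Integrable φ ρ := fun ρ _ =>
    Integrable.of_bound hφ.aestronglyMeasurable B (Eventually.of_forall hB)
  have hI : ∫ x, φ x ∂(((ν₁ + ν₂) univ)⁻¹ • (ν₁ + ν₂)) =
      ((m₁ / (m₁ + m₂) : ℝ≥0) : ℝ) * ∫ x, φ x ∂((ν₁ univ)⁻¹ • ν₁) +
        ((m₂ / (m₁ + m₂) : ℝ≥0) : ℝ) * ∫ x, φ x ∂((ν₂ univ)⁻¹ • ν₂) := by
    rw [hmix, integral_add_measure (hint _) (hint _), integral_smul_nnreal_measure,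
      integral_smul_nnreal_measure]
    rfl
  have r₁ : ν₁.real univ = m₁ := by rw [measureReal_def, hm₁]; rfl
  have r₂ : ν₂.real univ = m₂ := by rw [measureReal_def, hm₂]; rfl
  have r : (ν₁ + ν₂).real univ = m₁ + m₂ := by rw [measureReal_add_apply, r₁, r₂]
  unfold afDef
  rw [f₁, f₂, f₀, EReal.toReal_coe, EReal.toReal_coe, EReal.toReal_coe, r₁, r₂, r, hI]
  push_cast at hent ⊢
  have pr : (0 : ℝ) < m₁ + m₂ := by exact_mod_cast pos_iff_ne_zero.2 p
  have a1 := mul_le_mul_of_nonneg_left hent pr.le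
  have c₁ : ∀ y : ℝ, ((m₁ : ℝ) + m₂) * (m₁ / (m₁ + m₂) * y) = m₁ * y := fun y => by field_simp
  have c₂ : ∀ y : ℝ, ((m₁ : ℝ) + m₂) * (m₂ / (m₁ + m₂) * y) = m₂ * y := fun y => by field_simp
  rw [mul_add, c₁, c₂] at a1
  rw [mul_sub ((m₁ : ℝ) + m₂), mul_add ((m₁ : ℝ) + m₂), mul_add ((m₁ : ℝ) + m₂), c₁, c₂]
  nlinarith

private theorem af_def_sum {X : Type} [MeasurableSpace X] {f : X → X} (hf : Measurable f)
    {φ : X → ℝ} (hφ : Measurable φ) {B : ℝ} (hB : ∀ x, |φ x| ≤ B) {P : ℝ}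
    (hP : ∀ ν, IsInvariantProb f ν → fe f φ ν ≤ P) {ι : Type} (ν : ι → Measure X) (I : Finset ι)
    (hfin : ∀ i ∈ I, IsFiniteMeasure (ν i)) (hinv : ∀ i ∈ I, MeasurePreserving f (ν i) (ν i)) :
    IsFiniteMeasure (∑ i ∈ I, ν i) ∧ MeasurePreserving f (∑ i ∈ I, ν i) (∑ i ∈ I, ν i) ∧
      ∑ i ∈ I, afDef f φ P (ν i) ≤ afDef f φ P (∑ i ∈ I, ν i) := by
  classical
  induction I using Finset.induction_on with
  | empty =>
    simp only [Finset.sum_empty, af_def_zero, le_refl, and_true]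
    exact ⟨inferInstance, hf, by simp⟩
  | insert a J ha ih =>
    obtain ⟨i1, i2, i3⟩ := ih (fun i hi => hfin i (Finset.mem_insert_of_mem hi))
      (fun i hi => hinv i (Finset.mem_insert_of_mem hi))
    have := hfin a (Finset.mem_insert_self a J)
    have ha' := hinv a (Finset.mem_insert_self a J)
    rw [Finset.sum_insert ha, Finset.sum_insert ha]
    refine ⟨inferInstance, ha'.add_measure i2, ?_⟩
    have := af_def_add hf hφ hB hP ha' i2
    linarith

theorem exists_piece {X : Type} [MeasurableSpace X] {f : X → X} (hf : Measurable f) {φ : X → ℝ}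
    (hφ : Measurable φ) {B : ℝ} (hB : ∀ x, |φ x| ≤ B) {P δ t : ℝ}
    (hP : ∀ ν, IsInvariantProb f ν → fe f φ ν ≤ P) {μ : Measure X} (hμ : IsInvariantProb f μ)
    (hδ : ((P - δ : ℝ) : EReal) ≤ fe f φ μ) {ι : Type} (I : Finset ι) (ν : ι → Measure X)
    (hinv : ∀ i ∈ I, MeasurePreserving f (ν i) (ν i)) (hle : ∑ i ∈ I, ν i ≤ μ) (ht : 0 < t)
    (hmass : t ≤ ∑ i ∈ I, (ν i).real univ) :
    ∃ i ∈ I, ν i ≠ 0 ∧ IsInvariantProb f (((ν i) univ)⁻¹ • ν i) ∧
      ((P - δ / t : ℝ) : EReal) ≤ fe f φ (((ν i) univ)⁻¹ • ν i) := by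
  have := hμ.1
  have hfin : ∀ i ∈ I, IsFiniteMeasure (ν i) := fun i hi =>
    isFiniteMeasure_of_le μ
      ((Finset.single_le_sum (f := ν) (fun j _ => Measure.zero_le _) hi).trans hle)
  obtain ⟨s1, s2, s3⟩ := af_def_sum hf hφ hB hP ν I hfin hinv
  set S := ∑ i ∈ I, ν i with hS
  have hrest : MeasurePreserving f (μ - S) (μ - S) := by
    refine ⟨hf, Measure.ext fun A hA => ?_⟩
    rw [Measure.map_apply hf hA, Measure.sub_apply (hf hA) hle, Measure.sub_apply hA hle,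
      hμ.2.measure_preimage hA.nullMeasurableSet, s2.measure_preimage hA.nullMeasurableSet]
  have h1 := af_def_add hf hφ hB hP hrest s2
  rw [Measure.sub_add_cancel_of_le hle] at h1
  have h2 := af_def_nonneg hP hrest
  obtain ⟨e, -, he⟩ := af_real hP hμ
  have h3 := hP μ hμ
  rw [he, EReal.coe_le_coe_iff] at h3 hδ
  have h4 : afDef f φ P μ ≤ δ := by
    unfold afDef
    rw [measure_univ, inv_one, one_smul, he, EReal.toReal_coe, probReal_univ]
    linarith
  have hδ0 : 0 ≤ δ / t := div_nonneg (by linarith) ht.le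
  by_contra hcon
  have h5 : ∀ i ∈ I, ν i ≠ 0 → (ν i).real univ * (δ / t) < afDef f φ P (ν i) := by
    intro i hi h0
    have := hfin i hi
    have hn := af_norm h0 (hinv i hi)
    obtain ⟨e', -, he'⟩ := af_real hP hn
    have h6 : ¬ ((P - δ / t : ℝ) : EReal) ≤ fe f φ (((ν i) univ)⁻¹ • ν i) := fun h =>
      hcon ⟨i, hi, h0, hn, h⟩
    unfold afDef
    rw [he'] at h6 ⊢
    rw [EReal.coe_le_coe_iff, not_le] at h6
    rw [EReal.toReal_coe]
    have : NeZero (ν i) := ⟨h0⟩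
    exact mul_lt_mul_of_pos_left (by linarith) measureReal_univ_pos
  have h7 : ∃ i ∈ I, ν i ≠ 0 := by
    by_contra h
    have : ∑ i ∈ I, (ν i).real univ = 0 := Finset.sum_eq_zero fun i hi => by
      have h0 : ν i = 0 := by
        by_contra h0
        exact h ⟨i, hi, h0⟩
      rw [h0]; simp
    linarith
  have h8 : ∑ i ∈ I, (ν i).real univ * (δ / t) < ∑ i ∈ I, afDef f φ P (ν i) := by
    refine Finset.sum_lt_sum (fun i hi => ?_) ?_
    · by_cases h0 : ν i = 0
      · rw [h0, af_def_zero]; simp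
      · exact (h5 i hi h0).le
    · obtain ⟨i, hi, h0⟩ := h7
      exact ⟨i, hi, h5 i hi h0⟩
  rw [← Finset.sum_mul] at h8
  have h9 := mul_le_mul_of_nonneg_right hmass hδ0
  rw [mul_div_cancel₀ _ ht.ne'] at h9
  linarith

end Pool.Agent.P.MP_eeb913_an.U
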