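import Mathlib
import Pool.Agent.P.MP_eeb913_an.U.Basic

/-!
The Laplacian on ℂ: integration by parts and chain rules.

integral_dd_eq_zero: integral_mul_fderiv_eq_neg_fderiv_mul_of_integrable with one factor 1, or
integral_fderiv_eq_zero style lemmas of Mathlib.Analysis.Calculus.LineDeriv.IntegrationByParts.
contDiff_mul_of_tsupport: at points of U use the product rule, off tsupport χ the product vanishes
near the point. integral_mul_lap: χ * dd v (dd v u) - u * dd v (dd v χ) = dd v (χ * dd v u - u * dd v χ)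
everywhere (on U by the product rule, off tsupport χ both sides vanish), and the function under dd v
is C¹ with compact support. slice_bound: take a bump χ (ContDiffBump) equal to 1 on the ball r' with
tsupport in ball r₁, C = sup |lap χ|.
lap_normSq: dd v (‖A‖²) w = 2 Re (conj (A w) * deriv A w * v) near z; differentiate once more and add
the directions 1 and I (the terms with the second derivative cancel).
-/

namespace Pool.Agent.P.MP_eeb913_an.U

open MeasureTheory Filter Metric Set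
open scoped ENNReal NNReal Topology

theorem integral_dd_eq_zero {V : Type} [NormedAddCommGroup V] [NormedSpace ℝ V]
    [FiniteDimensional ℝ V] [MeasurableSpace V] [BorelSpace V] (μ : Measure V)
    [μ.IsAddHaarMeasure] {u : V → ℝ} (hu : ContDiff ℝ 1 u) (hc : HasCompactSupport u) (v : V) :
    ∫ z, dd v u z ∂μ = 0 := by
  have h1 : Continuous fun z => fderiv ℝ u z v :=
    (hu.continuous_fderiv one_ne_zero).clm_apply continuous_const
  have h := integral_mul_fderiv_eq_neg_fderiv_mul_of_integrable (μ := μ) (f := fun _ => (1 : ℝ))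
    (g := u) (v := v) (by simp)
    (by simpa using h1.integrable_of_hasCompactSupport (hc.fderiv_apply ℝ v))
    (by simpa using hu.continuous.integrable_of_hasCompactSupport hc)
    (fun x _ => differentiableAt_const _) (fun x _ => hu.differentiable one_ne_zero x)
  simpa [dd] using h

theorem contDiff_mul_of_tsupport {V : Type} [NormedAddCommGroup V] [NormedSpace ℝ V]
    {χ u : V → ℝ} {U : Set V} {n : WithTop ℕ∞} (hU : IsOpen U) (hχ : ContDiff ℝ n χ)
    (hs : tsupport χ ⊆ U) (hu : ContDiffOn ℝ n u U) : ContDiff ℝ n fun z => χ z * u z := by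
  refine contDiff_iff_contDiffAt.2 fun z => ?_
  by_cases hz : z ∈ tsupport χ
  · exact hχ.contDiffAt.mul (hu.contDiffAt (hU.mem_nhds (hs hz)))
  · refine (contDiffAt_const (c := (0 : ℝ))).congr_of_eventuallyEq ?_
    filter_upwards [notMem_tsupport_iff_eventuallyEq.1 hz] with w hw
    rw [hw, Pi.zero_apply, zero_mul]

theorem contDiffOn_dd {V : Type} [NormedAddCommGroup V] [NormedSpace ℝ V] {u : V → ℝ} {U : Set V}
    {n : ℕ} (hU : IsOpen U) (hu : ContDiffOn ℝ (n + 1 : ℕ) u U) (v : V) :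
    ContDiffOn ℝ n (dd v u) U := by
  exact (hu.fderiv_of_isOpen hU (by push_cast; exact le_rfl)).clm_apply contDiffOn_const

private theorem lap_dd1 {u : ℂ → ℝ} {U : Set ℂ} (hU : IsOpen U) (hu : ContDiffOn ℝ 2 u U)
    (v : ℂ) : ContDiffOn ℝ 1 (dd v u) U :=
  contDiffOn_dd (n := 1) hU hu v

private theorem lap_dd2 {u : ℂ → ℝ} {U : Set ℂ} (hU : IsOpen U) (hu : ContDiffOn ℝ 2 u U)
    (v w : ℂ) : ContinuousOn (dd w (dd v u)) U :=
  (contDiffOn_dd (n := 0) hU (lap_dd1 hU hu v) w).continuousOn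

theorem continuousOn_lap {u : ℂ → ℝ} {U : Set ℂ} (hU : IsOpen U) (hu : ContDiffOn ℝ 2 u U) :
    ContinuousOn (lap u) U ∧ ContinuousOn (gr u) U := by
  exact ⟨(lap_dd2 hU hu _ _).add (lap_dd2 hU hu _ _),
    ((lap_dd1 hU hu _).continuousOn.pow 2).add ((lap_dd1 hU hu _).continuousOn.pow 2)⟩

private theorem lap_int {ψ w : ℂ → ℝ} {U : Set ℂ} (hU : IsOpen U) (hψ : Continuous ψ)
    (hc : HasCompactSupport ψ) (hs : tsupport ψ ⊆ U) (hw : ContinuousOn w U) :
    Integrable fun z => ψ z * w z :=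
  (contDiff_mul_of_tsupport (n := 0) hU (contDiff_zero.2 hψ) hs
    (contDiffOn_zero.2 hw)).continuous.integrable_of_hasCompactSupport hc.mul_right

private theorem lap_ibp {χ u : ℂ → ℝ} {U : Set ℂ} (hU : IsOpen U) (hχ : ContDiff ℝ 2 χ)
    (hc : HasCompactSupport χ) (hs : tsupport χ ⊆ U) (hu : ContDiffOn ℝ 2 u U) (v : ℂ) :
    Integrable (fun z => χ z * dd v (dd v u) z) ∧ Integrable (fun z => dd v (dd v χ) z * u z) ∧
      ∫ z, χ z * dd v (dd v u) z = ∫ z, dd v (dd v χ) z * u z := by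
  have a1 : ContDiff ℝ 1 (dd v χ) := contDiffOn_univ.1 (lap_dd1 isOpen_univ hχ.contDiffOn v)
  have a2 : Continuous (dd v (dd v χ)) :=
    continuousOn_univ.1 (lap_dd2 isOpen_univ hχ.contDiffOn v v)
  have s1 : tsupport (dd v χ) ⊆ U := (tsupport_fderiv_apply_subset ℝ v).trans hs
  have s2 : tsupport (dd v (dd v χ)) ⊆ U := (tsupport_fderiv_apply_subset ℝ v).trans s1
  have c1 : HasCompactSupport (dd v χ) := hc.fderiv_apply ℝ v
  have c2 : HasCompactSupport (dd v (dd v χ)) := c1.fderiv_apply ℝ v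
  have b1 := lap_dd1 hU hu v
  have i1 := lap_int hU hχ.continuous hc hs (lap_dd2 hU hu v v)
  have i2 := lap_int hU a1.continuous c1 s1 b1.continuousOn
  have i3 := lap_int hU a2 c2 s2 hu.continuousOn
  refine ⟨i1, i3, ?_⟩
  have e1 := integral_mul_fderiv_eq_neg_fderiv_mul_of_integrable (μ := volume) (f := χ)
    (g := dd v u) (v := v) i2 i1 (lap_int hU hχ.continuous hc hs b1.continuousOn)
    (fun x _ => hχ.differentiable two_ne_zero x)
    (fun x hx => (b1.contDiffAt (hU.mem_nhds (hs hx))).differentiableAt one_ne_zero)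
  have e2 := integral_mul_fderiv_eq_neg_fderiv_mul_of_integrable (μ := volume) (f := dd v χ)
    (g := u) (v := v) i3 i2 (lap_int hU a1.continuous c1 s1 hu.continuousOn)
    (fun x _ => a1.differentiable one_ne_zero x)
    (fun x hx => (hu.contDiffAt (hU.mem_nhds (s1 hx))).differentiableAt two_ne_zero)
  change ∫ z, χ z * dd v (dd v u) z = -∫ z, dd v χ z * dd v u z at e1
  change ∫ z, dd v χ z * dd v u z = -∫ z, dd v (dd v χ) z * u z at e2
  rw [e1, e2, neg_neg]

theorem integral_mul_lap {χ u : ℂ → ℝ} {U : Set ℂ} (hU : IsOpen U) (hχ : ContDiff ℝ 2 χ)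
    (hc : HasCompactSupport χ) (hs : tsupport χ ⊆ U) (hu : ContDiffOn ℝ 2 u U) :
    Integrable (fun z => χ z * lap u z) ∧ Integrable (fun z => u z * lap χ z) ∧
      ∫ z, χ z * lap u z = ∫ z, u z * lap χ z := by
  obtain ⟨a1, a2, a3⟩ := lap_ibp hU hχ hc hs hu 1
  obtain ⟨b1, b2, b3⟩ := lap_ibp hU hχ hc hs hu Complex.I
  have e1 : (fun z => χ z * lap u z) =
      fun z => χ z * dd 1 (dd 1 u) z + χ z * dd Complex.I (dd Complex.I u) z := by
    funext z
    rw [lap, mul_add]
  have e2 : (fun z => u z * lap χ z) =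
      fun z => dd 1 (dd 1 χ) z * u z + dd Complex.I (dd Complex.I χ) z * u z := by
    funext z
    rw [lap]
    ring
  rw [e1, e2]
  exact ⟨a1.add b1, a2.add b2, by rw [integral_add a1 b1, integral_add a2 b2, a3, b3]⟩

theorem slice_bound {r' r₁ : ℝ} (h0 : 0 < r') (h : r' < r₁) :
    ∃ C : ℝ, 0 ≤ C ∧ ∀ u : ℂ → ℝ, ContDiffOn ℝ 2 u (ball 0 r₁) →
      (∀ z ∈ ball (0 : ℂ) r₁, 0 ≤ lap u z) →
      ∫⁻ z in ball (0 : ℂ) r', ENNReal.ofReal (lap u z) ≤
        ENNReal.ofReal C * ∫⁻ z in ball (0 : ℂ) r₁, ENNReal.ofReal |u z| := by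
  let χ : ContDiffBump (0 : ℂ) := ⟨r', (r' + r₁) / 2, h0, by linarith⟩
  have hχ : ContDiff ℝ 2 χ := χ.contDiff
  have hs : tsupport χ ⊆ ball (0 : ℂ) r₁ := by
    rw [χ.tsupport_eq]
    exact closedBall_subset_ball (by change (r' + r₁) / 2 < r₁; linarith)
  have hcl : Continuous (lap χ) :=
    continuousOn_univ.1 (continuousOn_lap isOpen_univ hχ.contDiffOn).1
  have h0l : ∀ z, z ∉ tsupport χ → lap χ z = 0 := by
    intro z hz
    have k : ∀ v : ℂ, dd v (dd v χ) z = 0 := fun v =>
      image_eq_zero_of_notMem_tsupport fun h => hz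
        (tsupport_fderiv_apply_subset ℝ v (tsupport_fderiv_apply_subset ℝ v h))
    rw [lap, k, k, add_zero]
  have hsl : HasCompactSupport (lap χ) := HasCompactSupport.intro χ.hasCompactSupport h0l
  obtain ⟨C, hC⟩ := hcl.bounded_above_of_compact_support hsl
  have hC0 : 0 ≤ C := (norm_nonneg _).trans (hC 0)
  refine ⟨C, hC0, fun u hu hp => ?_⟩
  obtain ⟨i1, i2, e⟩ := integral_mul_lap isOpen_ball hχ χ.hasCompactSupport hs hu
  have hnn : ∀ z, 0 ≤ χ z * lap u z := by
    intro z
    by_cases hz : z ∈ tsupport χ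
    · exact mul_nonneg χ.nonneg (hp z (hs hz))
    · rw [image_eq_zero_of_notMem_tsupport hz, zero_mul]
  calc ∫⁻ z in ball (0 : ℂ) r', ENNReal.ofReal (lap u z)
      = ∫⁻ z in ball (0 : ℂ) r', ENNReal.ofReal (χ z * lap u z) := by
        refine setLIntegral_congr_fun measurableSet_ball fun z hz => ?_
        rw [χ.one_of_mem_closedBall (ball_subset_closedBall hz), one_mul]
    _ ≤ ∫⁻ z, ENNReal.ofReal (χ z * lap u z) := setLIntegral_le_lintegral _ _
    _ = ENNReal.ofReal (∫ z, u z * lap χ z) := by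
        rw [← e, ofReal_integral_eq_lintegral_ofReal i1 (Eventually.of_forall hnn)]
    _ ≤ ∫⁻ z, ‖u z * lap χ z‖ₑ := by
        refine le_trans ?_ (enorm_integral_le_lintegral_enorm _)
        exact Real.ofReal_le_enorm _
    _ ≤ ∫⁻ z, (ball (0 : ℂ) r₁).indicator
          (fun z => ENNReal.ofReal C * ENNReal.ofReal |u z|) z := by
        refine lintegral_mono fun z => ?_
        by_cases hz : z ∈ ball (0 : ℂ) r₁
        · rw [indicator_of_mem hz, ← ENNReal.ofReal_mul hC0, ← ofReal_norm, norm_mul, mul_comm]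
          exact ENNReal.ofReal_le_ofReal (mul_le_mul_of_nonneg_right (hC z) (abs_nonneg _))
        · rw [h0l z fun h => hz (hs h)]
          simp
    _ = _ := by
        rw [lintegral_indicator measurableSet_ball, lintegral_const_mul' _ _ ENNReal.ofReal_ne_top]

private theorem lap_diff {V : Type} [NormedAddCommGroup V] [NormedSpace ℝ V] {u : V → ℝ} {z : V}
    (hu : ContDiffAt ℝ 2 u z) (v : V) : DifferentiableAt ℝ (dd v u) z :=
  ((hu.fderiv_right (m := 1) le_rfl).clm_apply contDiffAt_const).differentiableAt one_ne_zero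

private theorem lap_ev {V : Type} [NormedAddCommGroup V] [NormedSpace ℝ V] {u : V → ℝ} {z : V}
    (hu : ContDiffAt ℝ 2 u z) : ∀ᶠ w in 𝓝 z, DifferentiableAt ℝ u w :=
  (hu.eventually (by simp)).mono fun _ h => h.differentiableAt two_ne_zero

private theorem lap_congr {a b : ℂ → ℝ} {z : ℂ} (h : a =ᶠ[𝓝 z] b) (v : ℂ) :
    dd v a z = dd v b z := by
  rw [dd, dd, h.fderiv_eq]

private theorem lap_chain {θ : ℝ → ℝ} {u : ℂ → ℝ} {z : ℂ} (hθ : DifferentiableAt ℝ θ (u z))
    (hu : DifferentiableAt ℝ u z) (v : ℂ) :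
    dd v (fun w => θ (u w)) z = deriv θ (u z) * dd v u z := by
  have h := (hθ.hasDerivAt.comp_hasFDerivAt z hu.hasFDerivAt).fderiv
  change fderiv ℝ (θ ∘ u) z v = _
  rw [h]
  rfl

theorem lap_comp {θ : ℝ → ℝ} {u : ℂ → ℝ} {z : ℂ} (hθ : ContDiffAt ℝ 2 θ (u z))
    (hu : ContDiffAt ℝ 2 u z) :
    lap (fun w => θ (u w)) z = deriv θ (u z) * lap u z + deriv (deriv θ) (u z) * gr u z ∧
      gr (fun w => θ (u w)) z = deriv θ (u z) ^ 2 * gr u z := by
  have d1 := hθ.differentiableAt two_ne_zero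
  have d2 := hu.differentiableAt two_ne_zero
  have key : ∀ v : ℂ, dd v (dd v fun w => θ (u w)) z =
      deriv θ (u z) * dd v (dd v u) z + deriv (deriv θ) (u z) * dd v u z ^ 2 := by
    intro v
    have h1 : (dd v fun w => θ (u w)) =ᶠ[𝓝 z] fun w => deriv θ (u w) * dd v u w := by
      filter_upwards [lap_ev hu, d2.continuousAt.eventually (lap_ev hθ)] with w a b
      exact lap_chain b a v
    have h2 : DifferentiableAt ℝ (deriv θ) (u z) := lap_diff hθ 1
    have h3 : DifferentiableAt ℝ (fun w => deriv θ (u w)) z := h2.comp z d2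
    rw [lap_congr h1, dd, fderiv_fun_mul h3 (lap_diff hu v)]
    have h4 := lap_chain h2 d2 v
    simp only [dd] at h4 ⊢
    simp only [_root_.add_apply, _root_.smul_apply, smul_eq_mul, h4]
    ring
  constructor
  · rw [lap, lap, gr, key, key]
    ring
  · rw [gr, gr, lap_chain d1 d2, lap_chain d1 d2]
    ring

private theorem lap_add1 {u u' : ℂ → ℝ} {z : ℂ} (hu : DifferentiableAt ℝ u z)
    (hu' : DifferentiableAt ℝ u' z) (v : ℂ) :
    dd v (fun w => u w + u' w) z = dd v u z + dd v u' z := by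
  rw [dd, fderiv_fun_add hu hu']
  rfl

theorem lap_add {u u' : ℂ → ℝ} {z : ℂ} (hu : ContDiffAt ℝ 2 u z) (hu' : ContDiffAt ℝ 2 u' z) :
    lap (fun w => u w + u' w) z = lap u z + lap u' z ∧
      ∀ v : ℂ, dd v (fun w => u w + u' w) z = dd v u z + dd v u' z := by
  have key : ∀ v : ℂ, dd v (dd v fun w => u w + u' w) z = dd v (dd v u) z + dd v (dd v u') z := by
    intro v
    have h1 : (dd v fun w => u w + u' w) =ᶠ[𝓝 z] fun w => dd v u w + dd v u' w := by
      filter_upwards [lap_ev hu, lap_ev hu'] with w a b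
      exact lap_add1 a b v
    rw [lap_congr h1, lap_add1 (lap_diff hu v) (lap_diff hu' v)]
  refine ⟨?_, lap_add1 (hu.differentiableAt two_ne_zero) (hu'.differentiableAt two_ne_zero)⟩
  rw [lap, lap, lap, key, key]
  ring

private theorem lap_inner {A B : ℂ → ℂ} {z a b : ℂ} (hA : HasDerivAt A a z)
    (hB : HasDerivAt B b z) (v : ℂ) :
    dd v (fun w => 2 * inner ℝ (A w) (B w)) z =
      2 * (inner ℝ (A z) (b * v) + inner ℝ (a * v) (B z)) := by
  have h1 := hA.complexToReal_fderiv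
  have h2 := hB.complexToReal_fderiv
  rw [dd, fderiv_const_mul (h1.differentiableAt.inner ℝ h2.differentiableAt),
    _root_.smul_apply, fderiv_inner_apply ℝ h1.differentiableAt h2.differentiableAt,
    h1.fderiv, h2.fderiv]
  rfl

private theorem lap_sq {A : ℂ → ℂ} {z a : ℂ} (hA : HasDerivAt A a z) (v : ℂ) :
    dd v (fun w => ‖A w‖ ^ 2) z = 2 * inner ℝ (A z) (a * v) := by
  rw [dd, hA.complexToReal_fderiv.norm_sq.fderiv]
  simp [two_mul]
  ring

theorem lap_normSq {A : ℂ → ℂ} {z : ℂ} (hA : AnalyticAt ℂ A z) :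
    (∀ n : ℕ, ContDiffAt ℝ n (fun w => ‖A w‖ ^ 2) z) ∧
      lap (fun w => ‖A w‖ ^ 2) z = 4 * ‖deriv A z‖ ^ 2 ∧
      gr (fun w => ‖A w‖ ^ 2) z = 4 * ‖A z‖ ^ 2 * ‖deriv A z‖ ^ 2 := by
  have d1 := hA.differentiableAt.hasDerivAt
  have d2 := hA.deriv.differentiableAt.hasDerivAt
  have key : ∀ v : ℂ, dd v (dd v fun w => ‖A w‖ ^ 2) z =
      2 * (inner ℝ (A z) (deriv (deriv A) z * v * v) +
        inner ℝ (deriv A z * v) (deriv A z * v)) := by
    intro v
    have h1 : (dd v fun w => ‖A w‖ ^ 2) =ᶠ[𝓝 z] fun w => 2 * inner ℝ (A w) (deriv A w * v) := by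
      filter_upwards [hA.eventually_analyticAt] with w a
      exact lap_sq a.differentiableAt.hasDerivAt v
    rw [lap_congr h1, lap_inner d1 (d2.mul_const v)]
  refine ⟨fun n => (hA.contDiffAt.restrict_scalars ℝ).norm_sq ℝ, ?_, ?_⟩
  · rw [lap, key, key, real_inner_self_eq_norm_sq, real_inner_self_eq_norm_sq, norm_mul, norm_mul,
      mul_assoc _ Complex.I, Complex.I_mul_I, mul_neg, inner_neg_right, norm_one, Complex.norm_I,
      mul_one, mul_one]
    ring
  · rw [gr, lap_sq d1, lap_sq d1, Complex.sq_norm, mul_assoc, Complex.sq_norm]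
    simp only [Complex.inner, Complex.normSq_apply, Complex.mul_re, Complex.mul_im,
      Complex.conj_re, Complex.conj_im, Complex.I_re, Complex.I_im, Complex.one_re, Complex.one_im]
    ring

end Pool.Agent.P.MP_eeb913_an.U
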