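import Mathlib
import Pool.Agent.P.MP_eeb913_an.U.Basic
import Pool.Agent.P.MP_eeb913_an.U.Lap

/-!
A one dimensional Chern-Levine-Nirenberg inequality and log-subharmonic functions.

cln_one. σ s = (max (t - s) 0)³ is C² with σ' = -3 (max (t - s) 0)², σ'' = 6 max (t - s) 0; σ ∘ W has
compact support. integral_mul_lap with χ = σ ∘ W, U = univ and u = W' - c, resp. u = 1, and lap_comp:
∫ σ(W) lap W' = ∫ (W' - c) (σ'' (W) gr W + σ' (W) lap W) ≤ osc ∫ σ'' (W) gr W = - osc ∫ σ' (W) lap W.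
LogSub S z means S z ≥ 0, lap S z ≥ 0 and gr S z ≤ S z * lap S z. It is stable under addition
(Cauchy-Schwarz: |a + b|² ≤ (√(S₁ L₁) + √(S₂ L₂))² ≤ (S₁ + S₂) (L₁ + L₂)); exp of a subharmonic
function has it; log of a positive function having it is subharmonic (lap_comp).
lap_log_nsq: S = 1 + |h₁|² + |h₂|², lap (log S) = (S lap S - gr S) / S² with
S lap S - gr S = lap S + ((S - 1) lap S - gr S) ≥ lap S = 4 nsq h'.
-/

namespace Pool.Agent.P.MP_eeb913_an.U

open MeasureTheory Filter Metric Set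
open scoped ENNReal NNReal Topology

namespace Cln

theorem hasDerivAt_pos_pow (n : ℕ) (x : ℝ) :
    HasDerivAt (fun y : ℝ => max y 0 ^ (n + 2)) ((n + 2 : ℕ) * max x 0 ^ (n + 1)) x := by
  rcases lt_trichotomy x 0 with hx | rfl | hx
  · have h : (fun y : ℝ => max y 0 ^ (n + 2)) =ᶠ[𝓝 x] fun _ => 0 := by
      filter_upwards [gt_mem_nhds hx] with y hy
      rw [max_eq_right hy.le, zero_pow (by omega)]
    rw [max_eq_right hx.le, zero_pow (by omega), mul_zero]
    exact (hasDerivAt_const x (0 : ℝ)).congr_of_eventuallyEq h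
  · rw [max_self, zero_pow (by omega), mul_zero, hasDerivAt_iff_isLittleO]
    simp only [max_self, sub_zero, smul_zero]
    rw [zero_pow (by omega)]
    simp only [sub_zero]
    refine Asymptotics.IsBigO.trans_isLittleO (g := fun y : ℝ => y ^ (n + 2)) ?_
      (Asymptotics.isLittleO_pow_id (by omega))
    refine Asymptotics.IsBigO.of_bound' (Eventually.of_forall fun y => ?_)
    rw [norm_pow, norm_pow]
    refine pow_le_pow_left₀ (norm_nonneg _) ?_ _
    rw [Real.norm_eq_abs, Real.norm_eq_abs, abs_of_nonneg (le_max_right _ _)]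
    exact max_le (le_abs_self y) (abs_nonneg y)
  · have h : (fun y : ℝ => max y 0 ^ (n + 2)) =ᶠ[𝓝 x] fun y => y ^ (n + 2) := by
      filter_upwards [lt_mem_nhds hx] with y hy
      rw [max_eq_left hy.le]
    rw [max_eq_left hx.le]
    exact (hasDerivAt_pow (n + 2) x).congr_of_eventuallyEq h

theorem hasDerivAt_cube (t s : ℝ) :
    HasDerivAt (fun y : ℝ => max (t - y) 0 ^ 3) (-3 * max (t - s) 0 ^ 2) s := by
  have h := (hasDerivAt_pos_pow 1 (t - s)).comp s ((hasDerivAt_id s).const_sub t)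
  refine h.congr_deriv ?_
  push_cast
  ring

theorem hasDerivAt_sq (t s : ℝ) :
    HasDerivAt (fun y : ℝ => -3 * max (t - y) 0 ^ 2) (6 * max (t - s) 0) s := by
  have h := ((hasDerivAt_pos_pow 0 (t - s)).comp s ((hasDerivAt_id s).const_sub t)).const_mul (-3)
  refine h.congr_deriv ?_
  push_cast
  ring

theorem deriv_cube (t : ℝ) :
    deriv (fun y : ℝ => max (t - y) 0 ^ 3) = fun y => -3 * max (t - y) 0 ^ 2 :=
  funext fun s => (hasDerivAt_cube t s).deriv

theorem deriv_sq (t : ℝ) :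
    deriv (fun y : ℝ => -3 * max (t - y) 0 ^ 2) = fun y => 6 * max (t - y) 0 :=
  funext fun s => (hasDerivAt_sq t s).deriv

theorem contDiff_cube (t : ℝ) : ContDiff ℝ 2 (fun y : ℝ => max (t - y) 0 ^ 3) := by
  rw [show (2 : WithTop ℕ∞) = 1 + 1 from rfl, contDiff_succ_iff_deriv]
  refine ⟨fun s => (hasDerivAt_cube t s).differentiableAt, by simp, ?_⟩
  rw [deriv_cube, contDiff_one_iff_deriv]
  refine ⟨fun s => (hasDerivAt_sq t s).differentiableAt, ?_⟩
  rw [deriv_sq]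
  fun_prop

theorem dd_const (v : ℂ) (c : ℝ) : dd v (fun _ : ℂ => c) = fun _ => 0 := by
  funext z
  simp [dd]

theorem lap_const (c : ℝ) (z : ℂ) : lap (fun _ : ℂ => c) z = 0 := by
  simp [lap, dd_const]

theorem gr_const (c : ℝ) (z : ℂ) : gr (fun _ : ℂ => c) z = 0 := by
  simp [gr, dd_const]

theorem gr_nonneg (u : ℂ → ℝ) (z : ℂ) : 0 ≤ gr u z := by
  unfold gr
  positivity

/-- Log-subharmonicity at a point. -/
structure LogSub (S : ℂ → ℝ) (z : ℂ) : Prop where
  cd : ContDiffAt ℝ 2 S z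
  pos : 0 ≤ S z
  lp : 0 ≤ lap S z
  gl : gr S z ≤ S z * lap S z

theorem cs_aux {a b a' b' S L S' L' : ℝ} (hS : 0 ≤ S) (hL : 0 ≤ L) (hS' : 0 ≤ S') (hL' : 0 ≤ L')
    (h : a ^ 2 + b ^ 2 ≤ S * L) (h' : a' ^ 2 + b' ^ 2 ≤ S' * L') :
    (a + a') ^ 2 + (b + b') ^ 2 ≤ (S + S') * (L + L') := by
  have h1 : (a * a' + b * b') ^ 2 ≤ (a ^ 2 + b ^ 2) * (a' ^ 2 + b' ^ 2) := by
    nlinarith [sq_nonneg (a * b' - b * a')]
  have h2 : (a ^ 2 + b ^ 2) * (a' ^ 2 + b' ^ 2) ≤ (S * L) * (S' * L') :=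
    mul_le_mul h h' (by positivity) (by positivity)
  have h3 : (2 * (a * a' + b * b')) ^ 2 ≤ (S * L' + S' * L) ^ 2 := by
    nlinarith [sq_nonneg (S * L' - S' * L)]
  have h4 : 2 * (a * a' + b * b') ≤ S * L' + S' * L :=
    (abs_le_of_sq_le_sq' h3 (by positivity)).2
  nlinarith

theorem LogSub.add {S S' : ℂ → ℝ} {z : ℂ} (h : LogSub S z) (h' : LogSub S' z) :
    LogSub (fun w => S w + S' w) z := by
  obtain ⟨h1, h2⟩ := lap_add h.cd h'.cd
  refine ⟨h.cd.add h'.cd, add_nonneg h.pos h'.pos, by rw [h1]; exact add_nonneg h.lp h'.lp, ?_⟩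
  rw [h1]
  unfold gr
  rw [h2, h2]
  exact cs_aux h.pos h.lp h'.pos h'.lp h.gl h'.gl

theorem logSub_const {c : ℝ} (hc : 0 ≤ c) (z : ℂ) : LogSub (fun _ => c) z :=
  ⟨contDiffAt_const, hc, by rw [lap_const], by rw [lap_const, gr_const, mul_zero]⟩

theorem logSub_sum {ι : Type} (I : Finset ι) (S : ι → ℂ → ℝ) (z : ℂ)
    (h : ∀ i ∈ I, LogSub (S i) z) : LogSub (fun w => ∑ i ∈ I, S i w) z := by
  classical
  induction I using Finset.induction_on with
  | empty => simpa using logSub_const le_rfl z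
  | insert i I hi ih =>
    simp only [Finset.sum_insert hi]
    exact (h i (Finset.mem_insert_self _ _)).add
      (ih fun j hj => h j (Finset.mem_insert_of_mem hj))

theorem logSub_exp {W : ℂ → ℝ} {z : ℂ} (hW : ContDiffAt ℝ 2 W z) (hl : 0 ≤ lap W z) :
    LogSub (fun w => Real.exp (W w)) z := by
  obtain ⟨h1, h2⟩ := lap_comp (θ := Real.exp) Real.contDiff_exp.contDiffAt hW
  rw [Real.deriv_exp] at h1 h2
  rw [Real.deriv_exp] at h1
  have h3 := gr_nonneg W z
  have h4 := Real.exp_pos (W z)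
  refine ⟨hW.exp, h4.le, by rw [h1]; positivity, ?_⟩
  rw [h1, h2]
  nlinarith [mul_nonneg (mul_pos h4 h4).le hl]

theorem logSub_normSq {A : ℂ → ℂ} {z : ℂ} (hA : AnalyticAt ℂ A z) :
    LogSub (fun w => ‖A w‖ ^ 2) z := by
  obtain ⟨h1, h2, h3⟩ := lap_normSq hA
  refine ⟨h1 2, by positivity, by rw [h2]; positivity, ?_⟩
  rw [h2, h3]
  exact le_of_eq (by ring)

theorem logSub_nsq {h : ℂ → E} (hh : Differentiable ℂ h) (z : ℂ) :
    LogSub (fun w => nsq (h w)) z :=
  (logSub_normSq (hh.fst.analyticAt z)).add (logSub_normSq (hh.snd.analyticAt z))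

theorem lap_nsq {h : ℂ → E} (hh : Differentiable ℂ h) (z : ℂ) :
    lap (fun w => nsq (h w)) z = 4 * nsq (deriv h z) := by
  have h1 := lap_normSq (hh.fst.analyticAt z)
  have h2 := lap_normSq (hh.snd.analyticAt z)
  have h3 := (lap_add (h1.1 2) (h2.1 2)).1
  have d1 : deriv (fun x => (h x).1) z = (deriv h z).1 :=
    ((ContinuousLinearMap.fst ℂ ℂ ℂ).hasFDerivAt.comp_hasDerivAt z (hh z).hasDerivAt).deriv
  have d2 : deriv (fun x => (h x).2) z = (deriv h z).2 :=
    ((ContinuousLinearMap.snd ℂ ℂ ℂ).hasFDerivAt.comp_hasDerivAt z (hh z).hasDerivAt).deriv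
  rw [h1.2.1, h2.2.1, d1, d2] at h3
  unfold nsq
  rw [h3]
  ring

theorem lap_log {S : ℂ → ℝ} {z : ℂ} (h : ContDiffAt ℝ 2 S z) (h0 : 0 < S z) :
    lap (fun w => Real.log (S w)) z = (S z * lap S z - gr S z) / S z ^ 2 := by
  have h1 := (lap_comp (θ := Real.log) (Real.contDiffAt_log.2 h0.ne') h).1
  rw [Real.deriv_log', deriv_inv] at h1
  rw [h1]
  field_simp
  ring

end Cln

open Cln in
theorem cln_one {W W' : ℂ → ℝ} {t c osc : ℝ} (hW : ContDiff ℝ 2 W) (hW' : ContDiff ℝ 2 W')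
    (hl : ∀ z, 0 ≤ lap W z) (hb : Bornology.IsBounded {z | W z ≤ t})
    (ho : ∀ z, W z ≤ t → c ≤ W' z ∧ W' z ≤ c + osc) :
    Integrable (fun z => max (t - W z) 0 ^ 3 * lap W' z) ∧
      Integrable (fun z => max (t - W z) 0 ^ 2 * lap W z) ∧
      ∫ z, max (t - W z) 0 ^ 3 * lap W' z ≤ 3 * osc * ∫ z, max (t - W z) 0 ^ 2 * lap W z := by
  have hK : IsCompact {z | W z ≤ t} :=
    Metric.isCompact_of_isClosed_isBounded (isClosed_le hW.continuous continuous_const) hb
  have hm : ∀ z, z ∉ {z | W z ≤ t} → max (t - W z) 0 = 0 := fun z hz => by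
    have : t < W z := not_le.1 hz
    exact max_eq_right (by linarith)
  have hχ : ContDiff ℝ 2 fun z => max (t - W z) 0 ^ 3 := (contDiff_cube t).comp hW
  have hc : HasCompactSupport fun z => max (t - W z) 0 ^ 3 :=
    HasCompactSupport.intro hK fun z hz => by rw [hm z hz]; norm_num
  have hlap : ∀ z, lap (fun z => max (t - W z) 0 ^ 3) z =
      -3 * (max (t - W z) 0 ^ 2 * lap W z) + 6 * (max (t - W z) 0 * gr W z) := fun z => by
    have h := (lap_comp (θ := fun y : ℝ => max (t - y) 0 ^ 3) (contDiff_cube t).contDiffAt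
      (hW.contDiffAt (x := z))).1
    rw [deriv_cube, deriv_sq] at h
    rw [h]
    ring
  obtain ⟨hc1, hc2⟩ := continuousOn_lap isOpen_univ hW.contDiffOn
  rw [continuousOn_univ] at hc1 hc2
  have hmc : Continuous fun z => max (t - W z) 0 :=
    (continuous_const.sub hW.continuous).max continuous_const
  have i1 : Integrable fun z => max (t - W z) 0 ^ 2 * lap W z :=
    ((hmc.pow 2).mul hc1).integrable_of_hasCompactSupport
      (HasCompactSupport.intro hK fun z hz => by simp [hm z hz])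
  have i2 : Integrable fun z => max (t - W z) 0 * gr W z :=
    (hmc.mul hc2).integrable_of_hasCompactSupport
      (HasCompactSupport.intro hK fun z hz => by simp [hm z hz])
  obtain ⟨-, -, e1⟩ := integral_mul_lap (u := fun _ => (1 : ℝ)) isOpen_univ hχ hc (subset_univ _)
    contDiffOn_const
  simp only [lap_const, mul_zero, integral_zero, one_mul, hlap] at e1
  rw [integral_add (i1.const_mul _) (i2.const_mul _), integral_const_mul, integral_const_mul] at e1
  obtain ⟨j1, j2, e2⟩ := integral_mul_lap (u := fun z => W' z + -c) isOpen_univ hχ hc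
    (subset_univ _) (hW'.add contDiff_const).contDiffOn
  have hl' : ∀ z, lap (fun z => W' z + -c) z = lap W' z := fun z => by
    rw [(lap_add hW'.contDiffAt contDiffAt_const).1, lap_const, add_zero]
  simp only [hl'] at j1 e2
  refine ⟨j1, i1, ?_⟩
  rw [e2]
  have e3 : 3 * osc * ∫ z, max (t - W z) 0 ^ 2 * lap W z =
      ∫ z, 6 * osc * (max (t - W z) 0 * gr W z) := by
    rw [integral_const_mul]
    linear_combination osc * e1
  rw [e3]
  refine integral_mono j2 (i2.const_mul _) fun z => ?_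
  simp only [hlap]
  by_cases hz : W z ≤ t
  · obtain ⟨h1, h2⟩ := ho z hz
    have h3 : 0 ≤ max (t - W z) 0 ^ 2 * lap W z := mul_nonneg (by positivity) (hl z)
    have h4 : 0 ≤ max (t - W z) 0 * gr W z := mul_nonneg (le_max_right _ _) (gr_nonneg W z)
    nlinarith [mul_nonneg (sub_nonneg.2 h1) h3, mul_nonneg (sub_nonneg.2 h2) h4]
  · rw [hm z hz]
    simp

open Cln in
theorem lap_log_exp_add {W : ℂ → ℝ} (hW : ContDiff ℝ 2 W) (hl : ∀ z, 0 ≤ lap W z) {ι : Type}
    (I : Finset ι) (h : ι → ℂ → E) (hh : ∀ i ∈ I, Differentiable ℂ (h i)) :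
    ContDiff ℝ 2 (fun z => Real.log (Real.exp (W z) + ∑ i ∈ I, (1 + nsq (h i z)))) ∧
      ∀ z, 0 ≤ lap (fun z => Real.log (Real.exp (W z) + ∑ i ∈ I, (1 + nsq (h i z)))) z := by
  have h1 : ∀ z, LogSub (fun z => ∑ i ∈ I, (1 + nsq (h i z))) z := fun z =>
    logSub_sum I (fun i z => 1 + nsq (h i z)) z fun i hi =>
      (logSub_const zero_le_one z).add (logSub_nsq (hh i hi) z)
  have h2 : ∀ z, LogSub (fun z => Real.exp (W z) + ∑ i ∈ I, (1 + nsq (h i z))) z := fun z =>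
    (logSub_exp hW.contDiffAt (hl z)).add (h1 z)
  have h3 : ∀ z, 0 < Real.exp (W z) + ∑ i ∈ I, (1 + nsq (h i z)) := fun z =>
    add_pos_of_pos_of_nonneg (Real.exp_pos _) (h1 z).pos
  refine ⟨contDiff_iff_contDiffAt.2 fun z => (h2 z).cd.log (h3 z).ne', fun z => ?_⟩
  rw [lap_log (h2 z).cd (h3 z)]
  exact div_nonneg (sub_nonneg.2 (h2 z).gl) (sq_nonneg _)

open Cln in
theorem lap_log_nsq {h : ℂ → E} (hh : Differentiable ℂ h) :
    ContDiff ℝ 2 (fun z => Real.log (1 + nsq (h z))) ∧ ∀ z,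
      4 * nsq (deriv h z) / (1 + nsq (h z)) ^ 2 ≤ lap (fun z => Real.log (1 + nsq (h z))) z ∧
      lap (fun z => Real.log (1 + nsq (h z))) z ≤ 4 * nsq (deriv h z) := by
  have h1 := logSub_nsq hh
  have h2 : ∀ z, ContDiffAt ℝ 2 (fun z => 1 + nsq (h z)) z := fun z =>
    contDiffAt_const.add (h1 z).cd
  have h3 : ∀ z, 0 < 1 + nsq (h z) := fun z => add_pos_of_pos_of_nonneg one_pos (h1 z).pos
  refine ⟨contDiff_iff_contDiffAt.2 fun z => (h2 z).log (h3 z).ne', fun z => ?_⟩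
  obtain ⟨e1, e2⟩ := lap_add (u := fun _ => (1 : ℝ)) contDiffAt_const (h1 z).cd
  have e3 : gr (fun z => 1 + nsq (h z)) z = gr (fun z => nsq (h z)) z := by
    unfold gr
    rw [e2, e2, dd_const, dd_const, zero_add, zero_add]
  rw [lap_const, zero_add] at e1
  have g1 := (h1 z).gl
  have g2 := (h1 z).lp
  have g3 : 0 ≤ nsq (h z) := (h1 z).pos
  have g4 := gr_nonneg (fun z => nsq (h z)) z
  rw [lap_log (h2 z) (h3 z), e1, e3, ← lap_nsq hh z]
  constructor
  · refine div_le_div_of_nonneg_right ?_ (sq_nonneg _)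
    linarith
  · rw [div_le_iff₀ (pow_pos (h3 z) 2)]
    nlinarith [mul_nonneg g3 g2, mul_nonneg g3 (mul_nonneg g3 g2)]

end Pool.Agent.P.MP_eeb913_an.U
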