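import Mathlib
import Pool.Agent.P.MP_eeb913_an.U.Basic

/-!
Consequences of the filtration and Lipschitz bounds on balls.

Sketch. W = {z | |z.2| ≤ max R (|z.1| / 2)} contains the box, each point of W is in the box or has
R ≤ |z.1|, |z.2| ≤ |z.1| (call this V⁺), f maps W to W and V⁺ to V⁺ doubling |z.1|.
bounded_between: if ‖f^[j] z‖ > R' ≥ R then f^[j] z ∈ V⁺ with first coordinate > R', which never
decreases. growth_up: a n = log (max 1 ‖f^[n] z‖) has a (n+1) ≤ log M + d * a n, so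
a n + log M ≤ d^n (a 0 + log M); log (1 + t) ≤ log 2 + log (max 1 t).
growth_low: with K = |log m|, b n = log |(f^[n] z).1| - K satisfies b (n+1) ≥ d * b n (d ≥ 2), and
b i₀ ≥ 1 once 2^i₀ ≥ exp (K + 1).
exists_lip: fderiv f is continuous and differentiable with continuous derivative, bounded on the
compact convex ball; mean value inequality (Convex.norm_image_sub_le_of_norm_fderiv_le).
ae_bounded: by Poincare recurrence (Conservative.ae_mem_imp_frequently_image_mem) V⁺ ∩ ball M is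
null for each M as orbits in V⁺ tend to infinity; same for sw g with the measure map swap, or
directly for g; g preserves ν since f does and g is its measurable inverse.
-/

namespace Pool.Agent.P.MP_eeb913_an.U

open MeasureTheory Filter Metric Set
open scoped ENNReal NNReal Topology

theorem Filt.mem_W {f : E → E} {d : ℕ} {R : ℝ} (h : Filt f d R) {z : E}
    (hz : ‖z.2‖ ≤ max R (‖z.1‖ / 2)) (n : ℕ) :
    ‖(f^[n] z).2‖ ≤ max R (‖(f^[n] z).1‖ / 2) := by
  induction n with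
  | zero => exact hz
  | succ n ih =>
    rw [Function.iterate_succ_apply']
    set w := f^[n] z
    by_cases h1 : ‖w.1‖ ≤ R
    · refine h.box w ?_
      rw [Prod.norm_def]
      refine max_le h1 (ih.trans (max_le le_rfl ?_))
      linarith [norm_nonneg w.1]
    · have h1' : R ≤ ‖w.1‖ := (not_le.mp h1).le
      have h2 : ‖w.2‖ ≤ ‖w.1‖ := ih.trans (max_le h1' (by linarith [norm_nonneg w.1]))
      exact (h.esc w h1' h2).2.trans (le_max_right _ _)

theorem Filt.doubling {f : E → E} {d : ℕ} {R : ℝ} (h : Filt f d R) {z : E}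
    (h1 : R ≤ ‖z.1‖) (h2 : ‖z.2‖ ≤ ‖z.1‖) (n : ℕ) :
    2 ^ n * ‖z.1‖ ≤ ‖(f^[n] z).1‖ ∧ ‖(f^[n] z).2‖ ≤ ‖(f^[n] z).1‖ := by
  induction n with
  | zero => simpa using h2
  | succ n ih =>
    rw [Function.iterate_succ_apply']
    have h0 := norm_nonneg z.1
    have hp : (1 : ℝ) ≤ 2 ^ n := one_le_pow₀ (by norm_num)
    have hR : R ≤ ‖(f^[n] z).1‖ := by nlinarith [ih.1]
    have := h.esc _ hR ih.2
    refine ⟨?_, ?_⟩
    · rw [pow_succ]
      linarith [this.1, ih.1]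
    · linarith [this.2, norm_nonneg (f (f^[n] z)).1]

theorem Filt.bounded_between {f : E → E} {d : ℕ} {R R' : ℝ} (h : Filt f d R) (hR : R ≤ R') {z : E}
    (hz : ‖z.2‖ ≤ max R (‖z.1‖ / 2)) {n : ℕ} (hn : ‖(f^[n] z).1‖ ≤ R') :
    ∀ j ≤ n, ‖f^[j] z‖ ≤ R' := by
  intro j hj
  by_contra hcon
  have hlt : R' < ‖f^[j] z‖ := not_le.mp hcon
  have hW := h.mem_W hz j
  set w := f^[j] z with hw
  have h0 := norm_nonneg w.1
  have h1 : R' < ‖w.1‖ := by
    by_contra h1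
    have h1' : ‖w.1‖ ≤ R' := not_lt.mp h1
    have : ‖w‖ ≤ R' := by
      rw [Prod.norm_def]
      exact max_le h1' (hW.trans (max_le hR (by linarith)))
    linarith
  have h2 : ‖w.2‖ ≤ ‖w.1‖ := hW.trans (max_le (by linarith) (by linarith))
  obtain ⟨k, rfl⟩ := Nat.exists_eq_add_of_le' hj
  have := (h.doubling (by linarith) h2 k).1
  rw [Function.iterate_add_apply, ← hw] at hn
  have hp : (1 : ℝ) ≤ 2 ^ k := one_le_pow₀ (by norm_num)
  nlinarith

theorem Filt.growth_up {f : E → E} {d : ℕ} {R : ℝ} (h : Filt f d R) (hd : 2 ≤ d) (ρ : ℝ) :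
    ∃ C : ℝ, 0 ≤ C ∧ ∀ z : E, ‖z‖ ≤ ρ → ∀ n : ℕ, Real.log (1 + ‖f^[n] z‖) ≤ C * d ^ n := by
  obtain ⟨M, hM, hup⟩ := h.up
  have hlM : 0 ≤ Real.log M := Real.log_nonneg hM
  have hd' : (2 : ℝ) ≤ d := by exact_mod_cast hd
  have hl2 : 0 ≤ Real.log 2 := Real.log_nonneg (by norm_num)
  have hlρ : 0 ≤ Real.log (max 1 ρ) := Real.log_nonneg (le_max_left _ _)
  refine ⟨Real.log 2 + (Real.log (max 1 ρ) + Real.log M), by positivity, fun z hz n => ?_⟩
  have key : ∀ n : ℕ, Real.log (max 1 ‖f^[n] z‖) + Real.log M ≤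
      (Real.log (max 1 ρ) + Real.log M) * d ^ n := by
    intro n
    induction n with
    | zero =>
      have : Real.log (max 1 ‖z‖) ≤ Real.log (max 1 ρ) :=
        Real.log_le_log (by positivity) (max_le_max le_rfl hz)
      simpa using this
    | succ n ih =>
      rw [Function.iterate_succ_apply']
      set w := f^[n] z
      have h1 : (1 : ℝ) ≤ (max 1 ‖w‖) ^ d := one_le_pow₀ (le_max_left _ _)
      have h2 : max 1 ‖f w‖ ≤ M * (max 1 ‖w‖) ^ d := max_le (by nlinarith) (hup w)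
      have h3 := Real.log_le_log (by positivity) h2
      rw [Real.log_mul (by positivity) (by positivity), Real.log_pow] at h3
      have h4 := mul_le_mul_of_nonneg_left ih (show (0 : ℝ) ≤ d by positivity)
      rw [pow_succ]
      nlinarith
  have h1 : Real.log (1 + ‖f^[n] z‖) ≤ Real.log 2 + Real.log (max 1 ‖f^[n] z‖) := by
    rw [← Real.log_mul (by norm_num) (by positivity)]
    refine Real.log_le_log (by positivity) ?_
    linarith [le_max_left 1 ‖f^[n] z‖, le_max_right 1 ‖f^[n] z‖]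
  have hp : (1 : ℝ) ≤ (d : ℝ) ^ n := one_le_pow₀ (by linarith)
  have := key n
  nlinarith

theorem Filt.growth_low {f : E → E} {d : ℕ} {R : ℝ} (h : Filt f d R) (hd : 2 ≤ d) :
    ∃ (c : ℝ) (i₀ : ℕ), 0 < c ∧ ∀ z : E, R ≤ ‖z.1‖ → ‖z.2‖ ≤ ‖z.1‖ → ∀ n : ℕ, i₀ ≤ n →
      c * d ^ n ≤ Real.log ‖(f^[n] z).1‖ := by
  obtain ⟨m, hm, hlow⟩ := h.low
  have hd' : (2 : ℝ) ≤ d := by exact_mod_cast hd
  set K := |Real.log m| with hK
  have hK0 : 0 ≤ K := abs_nonneg _
  have hK1 : -K ≤ Real.log m := neg_abs_le _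
  obtain ⟨i₀, hi⟩ := pow_unbounded_of_one_lt (Real.exp (K + 1)) (show (1 : ℝ) < 2 by norm_num)
  refine ⟨((d : ℝ) ^ i₀)⁻¹, i₀, by positivity, fun z h1 h2 n hn => ?_⟩
  have hz1 : 1 ≤ ‖z.1‖ := h.one_le.trans h1
  have key : ∀ k : ℕ, (d : ℝ) ^ k + K ≤ Real.log ‖(f^[k + i₀] z).1‖ := by
    intro k
    induction k with
    | zero =>
      have h3 := (h.doubling h1 h2 i₀).1
      have hp : (0 : ℝ) < 2 ^ i₀ := by positivity
      have h4 : Real.exp (K + 1) ≤ ‖(f^[i₀] z).1‖ := by nlinarith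
      have h5 := Real.log_le_log (Real.exp_pos _) h4
      rw [Real.log_exp] at h5
      simpa [add_comm] using h5
    | succ k ih =>
      have h3 := h.doubling h1 h2 (k + i₀)
      have hp : (1 : ℝ) ≤ 2 ^ (k + i₀) := one_le_pow₀ (by norm_num)
      rw [show k + 1 + i₀ = (k + i₀) + 1 by ring, Function.iterate_succ_apply']
      set w := f^[k + i₀] z
      have hw : ‖z.1‖ ≤ ‖w.1‖ := by nlinarith [h3.1]
      have hw0 : 0 < ‖w.1‖ := by linarith
      have h4 := Real.log_le_log (by positivity) (hlow w (h1.trans hw) h3.2)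
      rw [Real.log_mul hm.ne' (by positivity), Real.log_pow] at h4
      have h5 := mul_le_mul_of_nonneg_left ih (show (0 : ℝ) ≤ d by positivity)
      rw [pow_succ]
      nlinarith
  obtain ⟨k, rfl⟩ := Nat.exists_eq_add_of_le' hn
  have := key k
  rw [pow_add, mul_comm ((d : ℝ) ^ k), ← mul_assoc, inv_mul_cancel₀ (by positivity), one_mul]
  linarith

theorem exists_lip {f : E → E} (hf : ContDiff ℂ 2 f) (ρ : ℝ) :
    ∃ L : ℝ, 2 ≤ L ∧ (∀ x : E, ‖x‖ ≤ ρ → ‖fderiv ℂ f x‖ ≤ L) ∧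
      (∀ x y : E, ‖x‖ ≤ ρ → ‖y‖ ≤ ρ → ‖f x - f y‖ ≤ L * ‖x - y‖) ∧
      ∀ x y : E, ‖x‖ ≤ ρ → ‖y‖ ≤ ρ → ‖fderiv ℂ f x - fderiv ℂ f y‖ ≤ L * ‖x - y‖ := by
  have hf1 : ContDiff ℂ 1 (fderiv ℂ f) := hf.fderiv_right (by norm_num)
  have hc1 : Continuous (fderiv ℂ f) := hf1.continuous
  have hc2 : Continuous (fderiv ℂ (fderiv ℂ f)) := hf1.continuous_fderiv (by norm_num)
  obtain ⟨A, hA⟩ := (isCompact_closedBall (0 : E) ρ).exists_bound_of_continuousOn hc1.continuousOn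
  obtain ⟨B, hB⟩ := (isCompact_closedBall (0 : E) ρ).exists_bound_of_continuousOn
    (E := E →L[ℂ] E →L[ℂ] E) (f := fderiv ℂ (fderiv ℂ f)) hc2.continuousOn
  have hm : ∀ x : E, ‖x‖ ≤ ρ → x ∈ closedBall (0 : E) ρ := fun x hx => by simpa using hx
  have hA' : ∀ x ∈ closedBall (0 : E) ρ, ‖fderiv ℂ f x‖ ≤ max 2 (max A B) := fun x hx =>
    (hA x hx).trans ((le_max_left _ _).trans (le_max_right _ _))
  have hB' : ∀ x ∈ closedBall (0 : E) ρ, ‖fderiv ℂ (fderiv ℂ f) x‖ ≤ max 2 (max A B) :=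
    fun x hx => (hB x hx).trans ((le_max_right _ _).trans (le_max_right _ _))
  refine ⟨max 2 (max A B), le_max_left _ _, fun x hx => hA' x (hm x hx), fun x y hx hy => ?_,
    fun x y hx hy => ?_⟩
  · exact (convex_closedBall (0 : E) ρ).norm_image_sub_le_of_norm_fderiv_le
      (fun x _ => hf.differentiable (by norm_num) x) hA' (hm y hy) (hm x hx)
  · exact (convex_closedBall (0 : E) ρ).norm_image_sub_le_of_norm_fderiv_le
      (fun x _ => hf1.differentiable (by norm_num) x) hB' (hm y hy) (hm x hx)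

theorem iter_lip {f : E → E} {ρ L : ℝ} (hL : 1 ≤ L)
    (h : ∀ x y : E, ‖x‖ ≤ ρ → ‖y‖ ≤ ρ → ‖f x - f y‖ ≤ L * ‖x - y‖) {x y : E} {n : ℕ}
    (hx : ∀ j < n, ‖f^[j] x‖ ≤ ρ) (hy : ∀ j < n, ‖f^[j] y‖ ≤ ρ) :
    ∀ j ≤ n, ‖f^[j] x - f^[j] y‖ ≤ L ^ j * ‖x - y‖ := by
  intro j
  induction j with
  | zero => intro _; simp
  | succ j ih =>
    intro hj
    rw [Function.iterate_succ_apply', Function.iterate_succ_apply', pow_succ', mul_assoc]
    exact (h _ _ (hx j hj) (hy j hj)).trans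
      (mul_le_mul_of_nonneg_left (ih (Nat.le_of_succ_le hj)) (by linarith))

theorem iter_lip_near {f : E → E} {ρ L : ℝ} (hL : 1 ≤ L)
    (h : ∀ x y : E, ‖x‖ ≤ ρ + 1 → ‖y‖ ≤ ρ + 1 → ‖f x - f y‖ ≤ L * ‖x - y‖) {x y : E} {n : ℕ}
    (hy : ∀ j < n, ‖f^[j] y‖ ≤ ρ) (hxy : L ^ n * ‖x - y‖ ≤ 1) :
    ∀ j ≤ n, ‖f^[j] x - f^[j] y‖ ≤ L ^ j * ‖x - y‖ := by
  intro j
  induction j with
  | zero => intro _; simp
  | succ j ih =>
    intro hj
    have h1 := ih (Nat.le_of_succ_le hj)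
    have h2 : L ^ j * ‖x - y‖ ≤ L ^ n * ‖x - y‖ :=
      mul_le_mul_of_nonneg_right (pow_le_pow_right₀ hL (Nat.le_of_succ_le hj)) (norm_nonneg _)
    have h3 := hy j hj
    have h4 : ‖f^[j] x‖ ≤ ρ + 1 := by
      have := norm_add_le (f^[j] x - f^[j] y) (f^[j] y)
      rw [sub_add_cancel] at this
      linarith
    rw [Function.iterate_succ_apply', Function.iterate_succ_apply', pow_succ', mul_assoc]
    exact (h _ _ h4 (by linarith)).trans (mul_le_mul_of_nonneg_left h1 (by linarith))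

theorem IsHL.measurePreserving_inv {f g : E → E} {d : ℕ} {R₀ : ℝ} (h : IsHL f g d R₀)
    {ν : Measure E} (hν : MeasurePreserving f ν ν) : MeasurePreserving g ν ν := by
  have hg : Measurable g := h.cg.continuous.measurable
  refine ⟨hg, ?_⟩
  conv_lhs => rw [← hν.map_eq]
  rw [Measure.map_map hg hν.measurable]
  have : g ∘ f = id := funext h.gf
  rw [this, Measure.map_id]

theorem filtLem_rec {F : E → E} {ν : Measure E} [IsFiniteMeasure ν]
    (hν : MeasurePreserving F ν ν) : ∀ᵐ x ∂ν, ¬ ∀ n : ℕ, (2 : ℝ) ^ n ≤ ‖F^[n] x‖ := by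
  have h1 : ∀ᵐ x ∂ν, ∀ M : ℕ, x ∈ closedBall (0 : E) M →
      ∃ᶠ n in atTop, F^[n] x ∈ closedBall (0 : E) M :=
    ae_all_iff.mpr fun M => hν.conservative.ae_mem_imp_frequently_image_mem
      measurableSet_closedBall.nullMeasurableSet
  filter_upwards [h1] with x hx hall
  obtain ⟨M, hM⟩ := exists_nat_ge ‖x‖
  have h2 := hx M (by simpa using hM)
  have h3 : ∀ᶠ n : ℕ in atTop, (M : ℝ) < 2 ^ n :=
    (tendsto_pow_atTop_atTop_of_one_lt (show (1 : ℝ) < 2 by norm_num)).eventually_gt_atTop _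
  obtain ⟨n, hn, hn'⟩ := (h2.and_eventually h3).exists
  have : ‖F^[n] x‖ ≤ M := by simpa using hn
  linarith [hall n]

theorem IsHL.ae_bounded {f g : E → E} {d : ℕ} {R₀ : ℝ} (h : IsHL f g d R₀)
    {ν : Measure E} [IsFiniteMeasure ν] (hν : MeasurePreserving f ν ν) :
    ∀ᵐ x ∂ν, ∀ n : ℕ, ‖f^[n] x‖ ≤ R₀ ∧ ‖g^[n] x‖ ≤ R₀ := by
  have hg := h.measurePreserving_inv hν
  have h1 := h.one_le
  have hb : ∀ᵐ x ∂ν, ‖x‖ ≤ R₀ := by
    filter_upwards [filtLem_rec hν, filtLem_rec hg] with x hx hx'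
    by_contra hcon
    have hlt : R₀ < ‖x‖ := not_le.mp hcon
    rw [Prod.norm_def] at hlt
    rcases le_total ‖x.2‖ ‖x.1‖ with hle | hle
    · rw [max_eq_left hle] at hlt
      refine hx fun n => ?_
      have := ((h.ff R₀ le_rfl).doubling hlt.le hle n).1
      have hp : (0 : ℝ) < 2 ^ n := by positivity
      nlinarith [norm_fst_le (f^[n] x)]
    · rw [max_eq_right hle] at hlt
      refine hx' fun n => ?_
      have := ((h.fi R₀ le_rfl).doubling (z := x.swap) hlt.le hle n).1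
      rw [sw_iterate, sw_swap] at this
      have hp : (0 : ℝ) < 2 ^ n := by positivity
      have h2 : 2 ^ n * ‖x.2‖ ≤ ‖(g^[n] x).2‖ := this
      nlinarith [norm_snd_le (g^[n] x)]
  refine ae_all_iff.mpr fun n => ?_
  exact ((hν.iterate n).quasiMeasurePreserving.ae hb).and
    ((hg.iterate n).quasiMeasurePreserving.ae hb)

end Pool.Agent.P.MP_eeb913_an.U
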