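import Mathlib
import Pool.Agent.P.MP_eeb913_an.U.Basic
import Pool.Agent.P.MP_eeb913_an.U.Cln
import Pool.Agent.P.MP_eeb913_an.U.FiltLem

/-!
Subexponential growth of the area of iterates of a line inside a Bowen ball.

area_abstract. v j = log (1 + nsq (h j)); ‖z‖² ≤ nsq z ≤ 2 ‖z‖². ℓ = log (2 L²); if v j ≤ t ≤ 2 log Λ then
‖h j‖ ≤ Λ and v (j+1) ≤ v j + ℓ. Block length k ≥ 1, s = log (1 + 3 k), t = 2 (s + 1) + k ℓ,
Λ = exp t. W 0 = t (v 0 - s), W (i+1) = t (W' i - s) with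
W' i = log (exp (W i) + ∑_{i k < j ≤ (i+1) k} (1 + nsq (h j))), used while (i+1) k ≤ n. All are C²,
subharmonic (lap_log_exp_add, lap_comp for the affine map), ≥ - t s, with bounded sublevel sets
(W' i ≥ W i). On {W i ≤ t}: v (i k) ≤ s + 1, so v j ≤ s + 1 + k ℓ ≤ t for j ≤ min n ((i+1) k) and
0 ≤ W' i ≤ t + s ≤ 2 t. Let M i = ∫ max (t - W i) 0 ^ 2 * lap (W i). On {W (i+1) < t}: W i ≤ W' i < s + 1
≤ t / 2, so M (i+1) ≤ (t + t s)² t (2 / t)³ ∫ max (t - W i) 0 ^ 3 lap (W' i) ≤ 48 t (1 + s)² M i by cln_one.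
M 0 ≤ (t + t s)² t * 4 nsq w * area of {nsq (p + ζ w) ≤ exp (s + 1)} ≤ constant depending on k only.
On the set of the statement W i ≤ 0 for all i (exp (W i) ≤ 1, each term ≤ 3). With i = n / k, cln_one for
W i and v n gives t³ (4 / 9) ∫ ‖h n'‖² ≤ 3 t M i. Finally (48 t (1 + s)²)^(n / k) ≤ exp (η n) for k large.
area_upper. h j ζ = ε⁻¹ • (f^[j] (p + ζ • w) - f^[j] x), ε = 1 / Λ, L from exists_lip at radius ρ + 1.
-/

namespace Pool.Agent.P.MP_eeb913_an.U

open MeasureTheory Filter Metric Set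
open scoped ENNReal NNReal Topology

theorem area_nsq (z : E) : ‖z‖ ^ 2 ≤ nsq z ∧ nsq z ≤ 2 * ‖z‖ ^ 2 := by
  have h1 := norm_fst_le z
  have h2 := norm_snd_le z
  have p1 := norm_nonneg z.1
  have p2 := norm_nonneg z.2
  have q1 := pow_le_pow_left₀ p1 h1 2
  have q2 := pow_le_pow_left₀ p2 h2 2
  refine ⟨?_, by unfold nsq; linarith⟩
  unfold nsq
  rw [Prod.norm_def]
  rcases max_choice ‖z.1‖ ‖z.2‖ with e | e <;> rw [e] <;> nlinarith

theorem area_nsq_nonneg (z : E) : 0 ≤ nsq z := (sq_nonneg _).trans (area_nsq z).1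

theorem area_aff {u : ℂ → ℝ} (hu : ContDiff ℝ 2 u) (t s : ℝ) :
    ContDiff ℝ 2 (fun z => t * (u z - s)) ∧ ∀ z, lap (fun z => t * (u z - s)) z = t * lap u z := by
  refine ⟨contDiff_const.mul (hu.sub contDiff_const), fun z => ?_⟩
  have h1 : deriv (fun x : ℝ => t * (x - s)) = fun _ => t := by
    funext x
    simp
  have := (lap_comp (θ := fun x : ℝ => t * (x - s)) (u := u) (z := z) (by fun_prop)
    hu.contDiffAt).1
  rw [this, h1]
  simp

/-- the inner function of the recursion -/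
noncomputable def areaV (h : ℕ → ℂ → E) (k i : ℕ) (W : ℂ → ℝ) (z : ℂ) : ℝ :=
  Real.log (Real.exp (W z) + ∑ m ∈ Finset.range k, (1 + nsq (h (i * k + m + 1) z)))

/-- the subharmonic functions of the blocks -/
noncomputable def areaW (h : ℕ → ℂ → E) (k : ℕ) (s t : ℝ) : ℕ → ℂ → ℝ
  | 0 => fun z => t * (Real.log (1 + nsq (h 0 z)) - s)
  | i + 1 => fun z => t * (areaV h k i (areaW h k s t i) z - s)

section blocks

variable {h : ℕ → ℂ → E} {k : ℕ} {s t : ℝ}

theorem areaV_reg (hh : ∀ j, Differentiable ℂ (h j)) (i : ℕ) {W : ℂ → ℝ} (hW : ContDiff ℝ 2 W)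
    (hl : ∀ z, 0 ≤ lap W z) :
    ContDiff ℝ 2 (areaV h k i W) ∧ ∀ z, 0 ≤ lap (areaV h k i W) z :=
  lap_log_exp_add hW hl (Finset.range k) (fun m => h (i * k + m + 1)) fun _ _ => hh _

theorem area_lap0 {g : ℂ → E} (hg : Differentiable ℂ g) (z : ℂ) :
    0 ≤ lap (fun z => Real.log (1 + nsq (g z))) z :=
  le_trans (div_nonneg (mul_nonneg (by norm_num) (area_nsq_nonneg _)) (sq_nonneg _))
    ((lap_log_nsq hg).2 z).1

theorem areaW_reg (hh : ∀ j, Differentiable ℂ (h j)) (ht : 0 ≤ t) (i : ℕ) :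
    ContDiff ℝ 2 (areaW h k s t i) ∧ ∀ z, 0 ≤ lap (areaW h k s t i) z := by
  induction i with
  | zero =>
    obtain ⟨a, b⟩ := area_aff (lap_log_nsq (hh 0)).1 t s
    exact ⟨a, fun z => (mul_nonneg ht (area_lap0 (hh 0) z)).trans (b z).ge⟩
  | succ i ih =>
    obtain ⟨c, d⟩ := areaV_reg (k := k) hh i ih.1 ih.2
    obtain ⟨a, b⟩ := area_aff c t s
    exact ⟨a, fun z => (mul_nonneg ht (d z)).trans (b z).ge⟩

theorem area_sum_nonneg (i : ℕ) (z : ℂ) :
    0 ≤ ∑ m ∈ Finset.range k, (1 + nsq (h (i * k + m + 1) z)) :=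
  Finset.sum_nonneg fun _ _ => add_nonneg zero_le_one (area_nsq_nonneg _)

theorem le_areaV (i : ℕ) (W : ℂ → ℝ) (z : ℂ) : W z ≤ areaV h k i W z := by
  have := Real.log_le_log (Real.exp_pos (W z))
    (le_add_of_nonneg_right (area_sum_nonneg (h := h) (k := k) i z))
  rwa [Real.log_exp] at this

theorem log_le_areaV (hk : 1 ≤ k) (i : ℕ) (W : ℂ → ℝ) (z : ℂ) :
    Real.log (1 + nsq (h ((i + 1) * k) z)) ≤ areaV h k i W z := by
  refine Real.log_le_log (by linarith [area_nsq_nonneg (h ((i + 1) * k) z)]) ?_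
  have h1 := Finset.single_le_sum (f := fun m => 1 + nsq (h (i * k + m + 1) z))
    (s := Finset.range k) (fun _ _ => add_nonneg zero_le_one (area_nsq_nonneg _))
    (Finset.mem_range.2 (show k - 1 < k by omega))
  have h2 : i * k + (k - 1) + 1 = (i + 1) * k := by rw [add_mul, one_mul]; omega
  simp only [h2] at h1
  linarith [Real.exp_pos (W z)]

theorem area_log_nonneg (x : E) : 0 ≤ Real.log (1 + nsq x) :=
  Real.log_nonneg (le_add_of_nonneg_right (area_nsq_nonneg x))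

theorem log_le_areaW (hk : 1 ≤ k) (ht : 0 ≤ t) (i : ℕ) (z : ℂ) :
    t * (Real.log (1 + nsq (h (i * k) z)) - s) ≤ areaW h k s t i z := by
  cases i with
  | zero => rw [zero_mul]; exact le_rfl
  | succ i =>
    exact mul_le_mul_of_nonneg_left
      (by linarith [log_le_areaV (h := h) hk i (areaW h k s t i) z]) ht

theorem areaW_lower (hk : 1 ≤ k) (ht : 0 ≤ t) (i : ℕ) (z : ℂ) :
    -(t * s) ≤ areaW h k s t i z := by
  have h1 := log_le_areaW (h := h) (s := s) hk ht i z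
  have h2 := mul_nonneg ht (area_log_nonneg (h (i * k) z))
  linarith

theorem area_div {x : ℝ} (ht : 0 < t) (h : t * (x - s) ≤ t) : x ≤ s + 1 := by
  have : t * (x - s) ≤ t * 1 := by linarith
  linarith [le_of_mul_le_mul_left this ht]

theorem areaW_succ_le (ht : 0 < t) (i : ℕ) {z : ℂ} (hz : areaW h k s t (i + 1) z ≤ t) :
    areaW h k s t i z ≤ s + 1 :=
  (le_areaV (h := h) (k := k) i _ z).trans (area_div ht hz)

theorem areaW_zero_le (ht : 0 < t) (hst : s + 1 ≤ t) (i : ℕ) {z : ℂ}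
    (hz : areaW h k s t i z ≤ t) : areaW h k s t 0 z ≤ t := by
  induction i with
  | zero => exact hz
  | succ i ih => exact ih ((areaW_succ_le ht i hz).trans hst)

theorem area_norm_le {x : E} {a : ℝ} (h : Real.log (1 + nsq x) ≤ a) : ‖x‖ ≤ Real.exp a := by
  have h0 := area_nsq_nonneg x
  have h1 : 1 + nsq x ≤ Real.exp a := (Real.log_le_iff_le_exp (by linarith)).1 h
  nlinarith [(area_nsq x).1, norm_nonneg x, sq_nonneg (‖x‖ - 1)]

theorem area_ball (p : E) {w : E} (hw : w ≠ 0) (R : ℝ) :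
    ∃ c : ℂ, ∀ ζ : ℂ, ‖p + ζ • w‖ ≤ R → ζ ∈ closedBall c (2 * R / ‖w‖) := by
  by_cases hc : ∃ c : ℂ, ‖p + c • w‖ ≤ R
  · obtain ⟨c, hc⟩ := hc
    refine ⟨c, fun ζ hζ => ?_⟩
    rw [mem_closedBall, dist_eq_norm, le_div_iff₀ (norm_pos_iff.2 hw), ← norm_smul]
    have : (ζ - c) • w = (p + ζ • w) - (p + c • w) := by rw [sub_smul]; abel
    rw [this]
    linarith [norm_sub_le (p + ζ • w) (p + c • w)]
  · exact ⟨0, fun ζ hζ => (hc ⟨ζ, hζ⟩).elim⟩

/-- growth along one block -/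
theorem area_block {L ℓ : ℝ} {n : ℕ} (hL : 1 ≤ L) (hℓ : Real.log (2 * L ^ 2) = ℓ)
    (hst : s + 1 + k * ℓ ≤ t)
    (hs : ∀ j < n, ∀ ζ, ‖h j ζ‖ ≤ Real.exp t → ‖h (j + 1) ζ‖ ≤ L * ‖h j ζ‖) {j : ℕ} {z : ℂ}
    (hz : Real.log (1 + nsq (h j z)) ≤ s + 1) :
    ∀ m ≤ k, j + m ≤ n → Real.log (1 + nsq (h (j + m) z)) ≤ s + 1 + m * ℓ := by
  have hL2 : 1 ≤ L ^ 2 := one_le_pow₀ hL
  have hℓ0 : 0 ≤ ℓ := by rw [← hℓ]; exact Real.log_nonneg (by linarith)
  intro m
  induction m with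
  | zero => intro _ _; simpa using hz
  | succ m ih =>
    intro hm hn
    have a1 := ih (by omega) (by omega)
    have a2 : (m : ℝ) * ℓ ≤ k * ℓ :=
      mul_le_mul_of_nonneg_right (by exact_mod_cast (by omega : m ≤ k)) hℓ0
    have a3 := hs (j + m) (by omega) z (area_norm_le (a1.trans (by linarith)))
    have a4 := pow_le_pow_left₀ (norm_nonneg _) a3 2
    have a5 := (area_nsq (h (j + m + 1) z)).2
    have a6 := mul_le_mul_of_nonneg_left (area_nsq (h (j + m) z)).1 (sq_nonneg L)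
    have a7 := area_nsq_nonneg (h (j + m) z)
    have a8 := area_nsq_nonneg (h (j + m + 1) z)
    have a9 : 1 + nsq (h (j + m + 1) z) ≤ 2 * L ^ 2 * (1 + nsq (h (j + m) z)) := by
      rw [mul_pow] at a4; linarith
    have a10 := Real.log_le_log (by linarith) a9
    rw [Real.log_mul (by positivity) (by linarith), hℓ] at a10
    rw [← add_assoc]
    push_cast
    linarith

theorem areaW_small {n : ℕ} (hk : 1 ≤ k) (ht : 0 ≤ t) (hs : 1 + 3 * (k : ℝ) ≤ Real.exp s) {z : ℂ}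
    (hz : ∀ j ≤ n, ‖h j z‖ ≤ 1) (i : ℕ) (hi : i * k ≤ n) : areaW h k s t i z ≤ 0 := by
  have h3 : ∀ j ≤ n, 1 + nsq (h j z) ≤ 3 := fun j hj => by
    have a := pow_le_one₀ (n := 2) (norm_nonneg _) (hz j hj)
    linarith [(area_nsq (h j z)).2]
  have hk' : (1 : ℝ) ≤ k := by exact_mod_cast hk
  induction i with
  | zero =>
    refine mul_nonpos_of_nonneg_of_nonpos ht (sub_nonpos.2 ?_)
    rw [Real.log_le_iff_le_exp (by linarith [area_nsq_nonneg (h 0 z)])]
    linarith [h3 0 (Nat.zero_le _)]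
  | succ i ih =>
    rw [add_mul, one_mul] at hi
    have a1 := Real.exp_le_one_iff.2 (ih (by omega))
    have a2 := Finset.sum_le_card_nsmul (Finset.range k) (fun m => 1 + nsq (h (i * k + m + 1) z)) 3
      fun m hm => h3 _ (by have := Finset.mem_range.1 hm; omega)
    rw [Finset.card_range, nsmul_eq_mul] at a2
    refine mul_nonpos_of_nonneg_of_nonpos ht (sub_nonpos.2 ?_)
    rw [areaV, Real.log_le_iff_le_exp
      (add_pos_of_pos_of_nonneg (Real.exp_pos _) (area_sum_nonneg i z))]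
    linarith

end blocks

theorem area_zero {h : ℕ → ℂ → E} {k : ℕ} {s t : ℝ} {p w : E} (hw : w ≠ 0) (hs : 0 ≤ s)
    (ht : 0 < t) (hh : ∀ j, Differentiable ℂ (h j)) (h0 : ∀ ζ, h 0 ζ = p + ζ • w) :
    ∫ z, max (t - areaW h k s t 0 z) 0 ^ 2 * lap (areaW h k s t 0) z ≤
      (t + t * s) ^ 2 * t * 32 * Real.exp (s + 1) ^ 2 * Real.pi := by
  obtain ⟨c, hc⟩ := area_ball p hw (Real.exp (s + 1))
  have hw0 := norm_pos_iff.2 hw
  have hd : ∀ z, deriv (h 0) z = w := fun z => by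
    rw [show h 0 = fun ζ : ℂ => p + ζ • w from funext h0]
    simpa using (((hasDerivAt_id z).smul_const w).const_add p).deriv
  have hl : ∀ z, lap (areaW h k s t 0) z ≤ t * (8 * ‖w‖ ^ 2) := fun z => by
    refine ((area_aff (lap_log_nsq (hh 0)).1 t s).2 z).le.trans
      (mul_le_mul_of_nonneg_left ?_ ht.le)
    have := ((lap_log_nsq (hh 0)).2 z).2
    rw [hd] at this
    linarith [(area_nsq w).2]
  have hl0 := (areaW_reg (k := k) (s := s) hh ht.le 0).2
  have key : ∫ z, max (t - areaW h k s t 0 z) 0 ^ 2 * lap (areaW h k s t 0) z ≤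
      ∫ z, (closedBall c (2 * Real.exp (s + 1) / ‖w‖)).indicator
        (fun _ => (t + t * s) ^ 2 * (t * (8 * ‖w‖ ^ 2))) z := by
    refine integral_mono_of_nonneg
      (Eventually.of_forall fun z => mul_nonneg (sq_nonneg _) (hl0 z))
      ((integrable_indicator_iff measurableSet_closedBall).2
        (integrableOn_const (isCompact_closedBall _ _).measure_lt_top.ne))
      (Eventually.of_forall fun z => ?_)
    dsimp only
    by_cases hz : areaW h k s t 0 z ≤ t
    · have a1 : ‖p + z • w‖ ≤ Real.exp (s + 1) := by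
        rw [← h0]; exact area_norm_le (area_div ht hz)
      rw [indicator_of_mem (hc z a1)]
      have a2 : -(t * s) ≤ areaW h k s t 0 z := by
        have := mul_nonneg ht.le (area_log_nonneg (h 0 z))
        simp only [areaW]; linarith
      exact mul_le_mul (pow_le_pow_left₀ (le_max_right _ _)
        (max_le (by linarith) (by positivity)) 2) (hl z) (hl0 z) (sq_nonneg _)
    · rw [max_eq_right (by linarith [not_le.1 hz])]
      simp only [ne_eq, OfNat.ofNat_ne_zero, not_false_eq_true, zero_pow, zero_mul]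
      exact indicator_nonneg (fun _ _ => by positivity) z
  refine key.trans (le_of_eq ?_)
  rw [integral_indicator_const _ measurableSet_closedBall, Measure.real, Complex.volume_closedBall,
    ENNReal.toReal_mul, ENNReal.toReal_pow, ENNReal.toReal_ofReal (by positivity), smul_eq_mul]
  simp only [ENNReal.coe_toReal, NNReal.coe_real_pi]
  field_simp
  ring

theorem area_core {L ℓ s t : ℝ} {k : ℕ} (hL : 1 ≤ L) (hℓ : Real.log (2 * L ^ 2) = ℓ) (hk : 1 ≤ k)
    (hs0 : 0 ≤ s) (hs : 1 + 3 * (k : ℝ) ≤ Real.exp s) (ht1 : 2 * (s + 1) ≤ t)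
    (ht2 : s + 1 + k * ℓ ≤ t) (h : ℕ → ℂ → E) (p w : E) (n : ℕ) (hw : w ≠ 0)
    (hh : ∀ j, Differentiable ℂ (h j)) (h0 : ∀ ζ, h 0 ζ = p + ζ • w)
    (hst : ∀ j < n, ∀ ζ, ‖h j ζ‖ ≤ Real.exp t → ‖h (j + 1) ζ‖ ≤ L * ‖h j ζ‖) :
    ∫⁻ ζ in {ζ : ℂ | ∀ j ≤ n, ‖h j ζ‖ ≤ 1}, ENNReal.ofReal (‖deriv (h n) ζ‖ ^ 2) ≤
      ENNReal.ofReal (9 / (4 * t ^ 3) * (3 * t * ((24 * (1 + s) ^ 2 * (t + s)) ^ (n / k) *
        ((t + t * s) ^ 2 * t * 32 * Real.exp (s + 1) ^ 2 * Real.pi)))) := by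
  have ht : 0 < t := by linarith
  have hk' : (1 : ℝ) ≤ k := by exact_mod_cast hk
  have hℓ0 : 0 ≤ ℓ := by
    rw [← hℓ]; exact Real.log_nonneg (by linarith [one_le_pow₀ (n := 2) hL])
  have reg := areaW_reg (k := k) (s := s) hh ht.le
  have bdd : ∀ i, Bornology.IsBounded {z | areaW h k s t i z ≤ t} := fun i => by
    obtain ⟨c, hc⟩ := area_ball p hw (Real.exp (s + 1))
    refine (isBounded_closedBall (x := c) (r := 2 * Real.exp (s + 1) / ‖w‖)).subset
      fun z hz => hc z ?_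
    rw [← h0]
    exact area_norm_le (area_div ht (areaW_zero_le ht (by linarith) i hz))
  have blk : ∀ i z, areaW h k s t i z ≤ t → ∀ m ≤ k, i * k + m ≤ n →
      Real.log (1 + nsq (h (i * k + m) z)) ≤ t := fun i z hz m hm hn => by
    have a1 := area_block hL hℓ ht2 hst (area_div ht ((log_le_areaW hk ht.le i z).trans hz)) m hm hn
    have a2 : (m : ℝ) * ℓ ≤ k * ℓ := mul_le_mul_of_nonneg_right (by exact_mod_cast hm) hℓ0
    linarith
  have hM : ∀ i, i * k ≤ n →
      ∫ z, max (t - areaW h k s t i z) 0 ^ 2 * lap (areaW h k s t i) z ≤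
        (24 * (1 + s) ^ 2 * (t + s)) ^ i *
          ((t + t * s) ^ 2 * t * 32 * Real.exp (s + 1) ^ 2 * Real.pi) := by
    intro i
    induction i with
    | zero => intro _; rw [pow_zero, one_mul]; exact area_zero hw hs0 ht hh h0
    | succ i ih =>
      intro hi
      rw [add_mul, one_mul] at hi
      have a0 := ih (by omega)
      obtain ⟨c1, c2⟩ := areaV_reg (k := k) hh i (reg i).1 (reg i).2
      obtain ⟨i1, -, i3⟩ := cln_one (c := 0) (osc := t + s) (reg i).1 c1 (reg i).2 (bdd i)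
        fun z hz => by
          refine ⟨(area_log_nonneg _).trans (log_le_areaV hk i _ z), ?_⟩
          have b1 := Finset.sum_le_card_nsmul (Finset.range k)
            (fun m => 1 + nsq (h (i * k + m + 1) z)) (Real.exp t) fun m hm => by
              have hm' := Finset.mem_range.1 hm
              exact (Real.log_le_iff_le_exp
                (by linarith [area_nsq_nonneg (h (i * k + m + 1) z)])).1
                (blk i z hz (m + 1) hm' (by omega))
          rw [Finset.card_range, nsmul_eq_mul] at b1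
          have b2 := Real.exp_le_exp.2 hz
          have b3 : Real.exp t * (1 + k) ≤ Real.exp t * Real.exp s :=
            mul_le_mul_of_nonneg_left (by linarith) (Real.exp_pos t).le
          rw [zero_add, areaV, Real.log_le_iff_le_exp
            (add_pos_of_pos_of_nonneg (Real.exp_pos _) (area_sum_nonneg i z)), Real.exp_add]
          linarith
      have key : ∫ z, max (t - areaW h k s t (i + 1) z) 0 ^ 2 * lap (areaW h k s t (i + 1)) z ≤
          ∫ z, 8 * (1 + s) ^ 2 *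
            (max (t - areaW h k s t i z) 0 ^ 3 * lap (areaV h k i (areaW h k s t i)) z) := by
        refine integral_mono_of_nonneg
          (Eventually.of_forall fun z => mul_nonneg (sq_nonneg _) ((reg (i + 1)).2 z))
          (i1.const_mul _) (Eventually.of_forall fun z => ?_)
        dsimp only
        have e : lap (areaW h k s t (i + 1)) z = t * lap (areaV h k i (areaW h k s t i)) z :=
          (area_aff c1 t s).2 z
        have c3 := c2 z
        by_cases hz : areaW h k s t (i + 1) z ≤ t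
        · have b1 := areaW_succ_le ht i hz
          have b2 := areaW_lower (h := h) (s := s) hk ht.le (i + 1) z
          have b3 : max (t - areaW h k s t (i + 1) z) 0 ^ 2 ≤ (t + t * s) ^ 2 :=
            pow_le_pow_left₀ (le_max_right _ _) (max_le (by linarith) (by positivity)) 2
          have b4 : (t / 2) ^ 3 ≤ max (t - areaW h k s t i z) 0 ^ 3 :=
            pow_le_pow_left₀ (by positivity) (le_max_of_le_left (by linarith)) 3
          rw [e]
          calc _ ≤ (t + t * s) ^ 2 * (t * lap (areaV h k i (areaW h k s t i)) z) :=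
                mul_le_mul_of_nonneg_right b3 (mul_nonneg ht.le c3)
            _ = 8 * (1 + s) ^ 2 * ((t / 2) ^ 3 * lap (areaV h k i (areaW h k s t i)) z) := by ring
            _ ≤ _ := mul_le_mul_of_nonneg_left (mul_le_mul_of_nonneg_right b4 c3) (by positivity)
        · rw [max_eq_right (by linarith [not_le.1 hz])]
          simp only [ne_eq, OfNat.ofNat_ne_zero, not_false_eq_true, zero_pow, zero_mul]
          exact mul_nonneg (by positivity) (mul_nonneg (pow_nonneg (le_max_right _ _) 3) c3)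
      rw [integral_const_mul] at key
      have b5 := mul_le_mul_of_nonneg_left a0 (show 0 ≤ 3 * (t + s) by positivity)
      have b6 := mul_le_mul_of_nonneg_left (i3.trans b5) (show 0 ≤ 8 * (1 + s) ^ 2 by positivity)
      refine (key.trans b6).trans (le_of_eq ?_)
      ring
  have hn : n / k * k ≤ n := Nat.div_mul_le_self n k
  have hn' : n / k * k + n % k = n := by rw [mul_comm]; exact Nat.div_add_mod n k
  obtain ⟨i1, -, i3⟩ := cln_one (c := 0) (osc := t) (reg (n / k)).1 (lap_log_nsq (hh n)).1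
    (reg (n / k)).2 (bdd _) fun z hz => by
      refine ⟨area_log_nonneg _, ?_⟩
      have := blk _ z hz (n % k) (Nat.mod_lt n hk).le hn'.le
      rw [hn'] at this
      linarith
  have nn : ∀ z, 0 ≤ max (t - areaW h k s t (n / k) z) 0 ^ 3 *
      lap (fun z => Real.log (1 + nsq (h n z))) z := fun z =>
    mul_nonneg (pow_nonneg (le_max_right _ _) 3) (area_lap0 (hh n) z)
  have hc : IsClosed {ζ : ℂ | ∀ j ≤ n, ‖h j ζ‖ ≤ 1} := by
    simp only [ofPred_forall]
    exact isClosed_iInter fun j => isClosed_iInter fun _ =>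
      isClosed_le (hh j).continuous.norm continuous_const
  calc _ ≤ ∫⁻ ζ in {ζ : ℂ | ∀ j ≤ n, ‖h j ζ‖ ≤ 1}, ENNReal.ofReal (9 / (4 * t ^ 3) *
          (max (t - areaW h k s t (n / k) ζ) 0 ^ 3 *
            lap (fun z => Real.log (1 + nsq (h n z))) ζ)) := by
        refine setLIntegral_mono' hc.measurableSet fun z hz => ENNReal.ofReal_le_ofReal ?_
        have b1 := areaW_small hk ht.le hs hz (n / k) hn
        have b2 : t ^ 3 ≤ max (t - areaW h k s t (n / k) z) 0 ^ 3 :=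
          pow_le_pow_left₀ ht.le (le_max_of_le_left (by linarith)) 3
        have b3 : 1 + nsq (h n z) ≤ 3 := by
          have a := pow_le_one₀ (n := 2) (norm_nonneg _) (hz n le_rfl)
          linarith [(area_nsq (h n z)).2]
        have b4 := area_nsq_nonneg (h n z)
        have b5 : 4 * ‖deriv (h n) z‖ ^ 2 / 3 ^ 2 ≤
            4 * nsq (deriv (h n) z) / (1 + nsq (h n z)) ^ 2 :=
          div_le_div₀ (mul_nonneg (by norm_num) (area_nsq_nonneg _))
            (by linarith [(area_nsq (deriv (h n) z)).1]) (by positivity)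
            (pow_le_pow_left₀ (by positivity) b3 2)
        have b6 := mul_le_mul b2 (b5.trans ((lap_log_nsq (hh n)).2 z).1) (by positivity)
          (pow_nonneg (le_max_right _ _) 3)
        refine le_trans (le_of_eq ?_) (mul_le_mul_of_nonneg_left b6 (by positivity))
        field_simp
        norm_num
    _ ≤ ∫⁻ ζ, ENNReal.ofReal (9 / (4 * t ^ 3) * (max (t - areaW h k s t (n / k) ζ) 0 ^ 3 *
            lap (fun z => Real.log (1 + nsq (h n z))) ζ)) := setLIntegral_le_lintegral _ _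
    _ = ENNReal.ofReal (∫ ζ, 9 / (4 * t ^ 3) * (max (t - areaW h k s t (n / k) ζ) 0 ^ 3 *
            lap (fun z => Real.log (1 + nsq (h n z))) ζ)) :=
        (ofReal_integral_eq_lintegral_ofReal (i1.const_mul _)
          (Eventually.of_forall fun z => mul_nonneg (by positivity) (nn z))).symm
    _ ≤ _ := by
        refine ENNReal.ofReal_le_ofReal ?_
        rw [integral_const_mul]
        exact mul_le_mul_of_nonneg_left
          (i3.trans (mul_le_mul_of_nonneg_left (hM _ hn) (by positivity))) (by positivity)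

theorem area_abstract {L η : ℝ} (hL : 1 ≤ L) (hη : 0 < η) :
    ∃ Λ C : ℝ, 1 ≤ Λ ∧ ∀ (h : ℕ → ℂ → E) (p w : E) (n : ℕ), w ≠ 0 →
      (∀ j, Differentiable ℂ (h j)) → (∀ ζ, h 0 ζ = p + ζ • w) →
      (∀ j < n, ∀ ζ, ‖h j ζ‖ ≤ Λ → ‖h (j + 1) ζ‖ ≤ L * ‖h j ζ‖) →
      ∫⁻ ζ in {ζ : ℂ | ∀ j ≤ n, ‖h j ζ‖ ≤ 1}, ENNReal.ofReal (‖deriv (h n) ζ‖ ^ 2) ≤
        ENNReal.ofReal (C * Real.exp (η * n)) := by
  obtain ⟨ℓ, hℓ⟩ : ∃ ℓ, Real.log (2 * L ^ 2) = ℓ := ⟨_, rfl⟩
  have hℓ0 : 0 ≤ ℓ := by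
    rw [← hℓ]; exact Real.log_nonneg (by linarith [one_le_pow₀ (n := 2) hL])
  obtain ⟨k, hk⟩ := exists_nat_ge (max 1 (24 * (24 * 16 * (11 + ℓ)) / η ^ 4))
  have hk1 : (1 : ℝ) ≤ k := (le_max_left _ _).trans hk
  have hk2 := (div_le_iff₀ (pow_pos hη 4)).1 ((le_max_right _ _).trans hk)
  obtain ⟨s, hs⟩ : ∃ s : ℝ, s = 3 * k := ⟨_, rfl⟩
  obtain ⟨t, ht⟩ : ∃ t : ℝ, t = 2 * (s + 1) + k * ℓ := ⟨_, rfl⟩
  have hs0 : 0 ≤ s := by linarith
  have hkl : 0 ≤ k * ℓ := by positivity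
  have ht0 : 0 < t := by linarith
  have hQ : 24 * (1 + s) ^ 2 * (t + s) ≤ Real.exp (η * k) := by
    have a1 := Real.pow_div_factorial_le_exp (η * k) (by positivity) 4
    have a2 : (1 + s) ^ 2 ≤ (4 * k) ^ 2 := pow_le_pow_left₀ (by linarith) (by linarith) 2
    have a3 : (1 + s) ^ 2 * (t + s) ≤ (4 * k) ^ 2 * ((11 + ℓ) * k) :=
      mul_le_mul a2 (by linarith) (by linarith) (by positivity)
    have a4 := mul_le_mul_of_nonneg_right hk2 (show (0 : ℝ) ≤ k ^ 3 by positivity)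
    norm_num [Nat.factorial] at a1
    linarith
  refine ⟨Real.exp t, 9 / (4 * t ^ 3) * (3 * t *
    ((t + t * s) ^ 2 * t * 32 * Real.exp (s + 1) ^ 2 * Real.pi)), Real.one_le_exp ht0.le,
    fun h p w n hw hh h0 hst => ?_⟩
  refine (area_core (k := k) hL hℓ (by exact_mod_cast hk1) hs0
    (by linarith [Real.add_one_le_exp s]) (by linarith) (by linarith) h p w n hw hh h0 hst).trans
    (ENNReal.ofReal_le_ofReal ?_)
  have b1 : (24 * (1 + s) ^ 2 * (t + s)) ^ (n / k) ≤ Real.exp (η * n) := by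
    refine (pow_le_pow_left₀ (by positivity) hQ _).trans ?_
    rw [← Real.exp_nat_mul, Real.exp_le_exp]
    have : ((n / k : ℕ) : ℝ) * k ≤ n := by exact_mod_cast Nat.div_mul_le_self n k
    linarith [mul_le_mul_of_nonneg_left this hη.le]
  have b2 := mul_le_mul_of_nonneg_left b1 (show 0 ≤ 9 / (4 * t ^ 3) * (3 * t *
    ((t + t * s) ^ 2 * t * 32 * Real.exp (s + 1) ^ 2 * Real.pi)) by positivity)
  linarith

theorem area_upper {f : E → E} (hf : ContDiff ℂ 2 f) (ρ : ℝ) {η : ℝ} (hη : 0 < η) :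
    ∃ ε C : ℝ, 0 < ε ∧ ∀ (p w : E) (n : ℕ) (x : E), w ≠ 0 → (∀ j ≤ n, ‖f^[j] x‖ ≤ ρ) →
      ∫⁻ ζ in {ζ : ℂ | ∀ j ≤ n, ‖f^[j] (p + ζ • w) - f^[j] x‖ ≤ ε},
        ENNReal.ofReal (‖deriv (fun ζ : ℂ => f^[n] (p + ζ • w)) ζ‖ ^ 2) ≤
          ENNReal.ofReal (C * Real.exp (η * n)) := by
  obtain ⟨L, hL, -, hlip, -⟩ := exists_lip hf (ρ + 1)
  obtain ⟨Λ, C, hΛ, H⟩ := area_abstract (L := L) (by linarith) hη
  have hΛ0 : 0 < Λ := by linarith
  refine ⟨1 / Λ, C, by positivity, fun p w n x hw hx => ?_⟩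
  have hd : ∀ j, Differentiable ℂ fun ζ : ℂ => f^[j] (p + ζ • w) := fun j =>
    ((contDiff_iterate hf j).differentiable (by norm_num)).comp (by fun_prop)
  have hn : ∀ y : E, ‖(Λ : ℂ) • y‖ = Λ * ‖y‖ := fun y => by
    rw [norm_smul, Complex.norm_real, Real.norm_eq_abs, abs_of_pos hΛ0]
  have key := H (fun j ζ => (Λ : ℂ) • (f^[j] (p + ζ • w) - f^[j] x)) ((Λ : ℂ) • (p - x))
    ((Λ : ℂ) • w) n (smul_ne_zero (by exact_mod_cast hΛ0.ne') hw)
    (fun j => ((hd j).sub_const _).fun_const_smul _)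
    (fun ζ => by
      simp only [Function.iterate_zero, id]
      rw [smul_comm ζ, ← smul_add]; congr 1; abel)
    (fun j hj ζ hζ => by
      simp only [hn] at hζ ⊢
      have a1 : ‖f^[j] (p + ζ • w) - f^[j] x‖ ≤ 1 :=
        le_of_mul_le_mul_left (by linarith) hΛ0
      have a2 := hx j hj.le
      have a3 := norm_sub_norm_le (f^[j] (p + ζ • w)) (f^[j] x)
      have a4 := hlip (f^[j] (p + ζ • w)) (f^[j] x) (by linarith) (by linarith)
      rw [Function.iterate_succ_apply', Function.iterate_succ_apply']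
      linarith [mul_le_mul_of_nonneg_left a4 hΛ0.le])
  have e : {ζ : ℂ | ∀ j ≤ n, ‖f^[j] (p + ζ • w) - f^[j] x‖ ≤ 1 / Λ} =
      {ζ : ℂ | ∀ j ≤ n, ‖(Λ : ℂ) • (f^[j] (p + ζ • w) - f^[j] x)‖ ≤ 1} := by
    ext ζ
    simp only [mem_ofPred_eq, hn, le_div_iff₀' hΛ0]
  rw [e]
  refine le_trans (lintegral_mono fun ζ => ENNReal.ofReal_le_ofReal ?_) key
  have e2 : deriv (fun ζ : ℂ => (Λ : ℂ) • (f^[n] (p + ζ • w) - f^[n] x)) ζ =
      (Λ : ℂ) • deriv (fun ζ : ℂ => f^[n] (p + ζ • w)) ζ :=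
    (((hd n ζ).hasDerivAt.sub_const _).const_smul (Λ : ℂ)).deriv
  rw [e2, hn]
  exact pow_le_pow_left₀ (norm_nonneg _) (le_mul_of_one_le_left (norm_nonneg _) hΛ) 2

end Pool.Agent.P.MP_eeb913_an.U
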