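import Mathlib
import Pool.Agent.P.MP_eeb913_an.U.Basic

/-!
Choice of a pair of leaves with logarithmically integrable distance.

Sketch. ν = Measure.infinitePi (fun _ => uniform measure on Bool), t i = exp (-(Λ + C (i + 1))).
O i = {(ω', ω, ζ) | ζ ∈ ball ∧ ∃ η ∈ ball, ‖A ω' ζ - B ω η‖ < t i} is open, decreasing in i.
g₁ (ω', ω, ζ) = ofReal (Λ + C) + ofReal C * ∑' i, indicator (O i) 1. If the distance is ≥ t i₀ for a least
i₀ then - log dist ≤ Λ + C + C i₀ ≤ g₁; distance 0 gives g₁ = ⊤. For fixed (ω', ζ) the ω with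
(ω', ω, ζ) ∈ O i agree on the coordinates ≤ i (sepB at all levels j ≤ i), so this set has ν-measure
≤ 2^(-(i+1)), and (∑ indicators)² ≤ ∑ (2 i + 1) indicator (O i) has integral ≤ 3. So
∫⁻ g₁² d(ν × ν × vol) ≤ vol (ball) (2 (Λ + C)² + 6 C²); the same for g₂ with sepA. By Tonelli and
exists_le_lintegral (or exists_le_laverage) some (ω', ω) has ∫⁻ g₁² + ∫⁻ g₂² below the sum of the bounds.
-/

namespace Pool.Agent.P.MP_eeb913_an.U

open MeasureTheory Filter Metric Set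
open scoped ENNReal NNReal Topology

/-- The fair coin. -/
noncomputable def avCoin : Measure Bool := (2 : ℝ≥0∞)⁻¹ • Measure.count

instance avCoin_prob : IsProbabilityMeasure avCoin := by
  constructor
  rw [avCoin, Measure.smul_apply, Measure.count_univ, smul_eq_mul]
  have h : ENat.card Bool = 2 := by simp
  rw [h]
  exact ENNReal.inv_mul_cancel (by norm_num) (by norm_num)

theorem avCoin_single (b : Bool) : avCoin {b} = 2⁻¹ := by
  rw [avCoin, Measure.smul_apply, Measure.count_singleton, smul_eq_mul, mul_one]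

/-- The fair Bernoulli measure. -/
noncomputable def avNu : Measure (ℕ → Bool) := Measure.infinitePi fun _ => avCoin

instance avNu_prob : IsProbabilityMeasure avNu := by
  unfold avNu
  infer_instance

theorem avNu_le (S : Set (ℕ → Bool)) (i : ℕ) (h : ∀ ω ∈ S, ∀ ω₂ ∈ S, ∀ j < i, ω j = ω₂ j) :
    avNu S ≤ 2⁻¹ ^ i := by
  rcases S.eq_empty_or_nonempty with rfl | ⟨ω₀, h₀⟩
  · simp
  · have hs : S ⊆ Set.pi (Finset.range i : Set ℕ) fun j => {ω₀ j} := by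
      intro ω hω j hj
      exact h ω hω ω₀ h₀ j (Finset.mem_range.1 hj)
    refine (measure_mono hs).trans (le_of_eq ?_)
    rw [avNu, Measure.infinitePi_pi _ fun _ _ => measurableSet_singleton _]
    simp only [avCoin_single, Finset.prod_const, Finset.card_range]

/-- The absolute constant. -/
noncomputable def avK : ℝ≥0∞ := 1 + ∑' i : ℕ, ((i : ℝ≥0∞) + 2) ^ 2 * 2⁻¹ ^ (i + 1)

theorem avK_ne_top : avK ≠ ⊤ := by
  have h0 := summable_pow_mul_geometric_of_norm_lt_one (R := ℝ) 2 (r := 2⁻¹) (by norm_num)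
  have h1 : Summable fun i : ℕ => ((i : ℝ) + 2) ^ 2 * 2⁻¹ ^ (i + 1) := by
    refine (((summable_nat_add_iff 2).2 h0).mul_left 2).congr fun i => ?_
    push_cast
    ring
  have h2 := ENNReal.ofReal_tsum_of_nonneg (fun i => by positivity) h1
  have h3 : ∀ i : ℕ, ENNReal.ofReal (((i : ℝ) + 2) ^ 2 * 2⁻¹ ^ (i + 1)) =
      ((i : ℝ≥0∞) + 2) ^ 2 * 2⁻¹ ^ (i + 1) := by
    intro i
    rw [ENNReal.ofReal_mul (by positivity), ENNReal.ofReal_pow (by positivity),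
      ENNReal.ofReal_pow (by positivity), ENNReal.ofReal_add (by positivity) (by positivity),
      ENNReal.ofReal_natCast, ENNReal.ofReal_inv_of_pos (by positivity), ENNReal.ofReal_ofNat]
  simp only [h3] at h2
  rw [avK, ← h2]
  exact ENNReal.add_ne_top.2 ⟨ENNReal.one_ne_top, ENNReal.ofReal_ne_top⟩

theorem av_side (r₁ : ℝ) {C Λ : ℝ} (hC : 0 < C) (hΛ : 0 ≤ Λ) (A B : (ℕ → Bool) → ℂ → E)
    (hA : ContinuousOn (fun p : (ℕ → Bool) × ℂ => A p.1 p.2) (univ ×ˢ ball 0 r₁))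
    (hB : ContinuousOn (fun p : (ℕ → Bool) × ℂ => B p.1 p.2) (univ ×ˢ ball 0 r₁))
    (sep : ∀ ω' ω ω₂ : ℕ → Bool, ∀ ζ ∈ ball (0 : ℂ) r₁, ∀ η ∈ ball (0 : ℂ) r₁,
        ∀ η₂ ∈ ball (0 : ℂ) r₁, ∀ i : ℕ,
          ‖A ω' ζ - B ω η‖ < Real.exp (-(Λ + C * (i + 1))) →
          ‖A ω' ζ - B ω₂ η₂‖ < Real.exp (-(Λ + C * (i + 1))) → ω i = ω₂ i) :
    ∃ S : ((ℕ → Bool) × (ℕ → Bool)) × ℂ → ℝ≥0∞, Measurable S ∧
      (∀ ω' ω, ∀ ζ ∈ ball (0 : ℂ) r₁, ∀ η ∈ ball (0 : ℂ) r₁,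
        (A ω' ζ = B ω η → S ((ω', ω), ζ) = ⊤) ∧
        ENNReal.ofReal (-Real.log ‖A ω' ζ - B ω η‖) ^ 2 ≤ S ((ω', ω), ζ)) ∧
      ∫⁻ p, ∫⁻ ζ in ball (0 : ℂ) r₁, S (p, ζ) ∂volume ∂(avNu.prod avNu) ≤
        ENNReal.ofReal (((1 + Λ) * (1 + C)) ^ 2) * avK * volume (ball (0 : ℂ) r₁) := by
  set M : ℝ := (1 + Λ) * (1 + C) with hM
  have hM0 : 0 < M := by positivity
  let O : ℕ → Set (((ℕ → Bool) × (ℕ → Bool)) × ℂ) := fun i =>
    {p | p.2 ∈ ball (0 : ℂ) r₁ ∧ ∃ η ∈ ball (0 : ℂ) r₁,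
      ‖A p.1.1 p.2 - B p.1.2 η‖ < Real.exp (-(Λ + C * (i + 1)))}
  have hO : ∀ i, IsOpen (O i) := by
    intro i
    have e : O i = ⋃ η ∈ ball (0 : ℂ) r₁, (univ ×ˢ ball (0 : ℂ) r₁) ∩
        (fun p : ((ℕ → Bool) × (ℕ → Bool)) × ℂ => ‖A p.1.1 p.2 - B p.1.2 η‖) ⁻¹'
          Iio (Real.exp (-(Λ + C * (i + 1)))) := by
      ext p
      simp only [O, mem_ofPred_eq, mem_iUnion, mem_inter_iff, mem_prod, mem_univ, true_and,
        mem_preimage, mem_Iio, exists_prop]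
      constructor
      · rintro ⟨h1, η, h2, h3⟩
        exact ⟨η, h2, h1, h3⟩
      · rintro ⟨η, h2, h1, h3⟩
        exact ⟨h1, η, h2, h3⟩
    rw [e]
    refine isOpen_biUnion fun η hη => ContinuousOn.isOpen_inter_preimage ?_
      (isOpen_univ.prod isOpen_ball) isOpen_Iio
    refine ContinuousOn.norm (ContinuousOn.sub ?_ ?_)
    · exact hA.comp (f := fun p : ((ℕ → Bool) × (ℕ → Bool)) × ℂ => (p.1.1, p.2))
        (by fun_prop) fun p hp => ⟨mem_univ _, hp.2⟩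
    · exact hB.comp (f := fun p : ((ℕ → Bool) × (ℕ → Bool)) × ℂ => (p.1.2, η))
        (by fun_prop) fun p hp => ⟨mem_univ _, hη⟩
  have hOm : ∀ i, MeasurableSet (O i) := fun i => (hO i).measurableSet
  let S : ((ℕ → Bool) × (ℕ → Bool)) × ℂ → ℝ≥0∞ := fun p =>
    ENNReal.ofReal (M ^ 2) * (1 + ∑' i : ℕ, (O i).indicator (fun _ => ((i : ℝ≥0∞) + 2) ^ 2) p)
  have hSm : Measurable S := by
    refine Measurable.const_mul (Measurable.const_add ?_ _) _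
    exact Measurable.tsum fun i => measurable_const.indicator (hOm i)
  refine ⟨S, hSm, fun ω' ω ζ hζ η hη => ⟨fun h => ?_, ?_⟩, ?_⟩
  · have h1 : ∀ i, ((ω', ω), ζ) ∈ O i := fun i =>
      ⟨hζ, η, hη, by rw [h, sub_self, norm_zero]; exact Real.exp_pos _⟩
    have h2 : ∑' i : ℕ, (O i).indicator (fun _ => ((i : ℝ≥0∞) + 2) ^ 2) ((ω', ω), ζ) = ⊤ := by
      rw [eq_top_iff, ← ENNReal.tsum_const_eq_top_of_ne_zero (α := ℕ) one_ne_zero]
      refine ENNReal.tsum_le_tsum fun i => ?_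
      rw [indicator_of_mem (h1 i)]
      exact one_le_pow₀ (le_add_left one_le_two)
    simp only [S, h2, add_top]
    exact ENNReal.mul_top (ENNReal.ofReal_pos.2 (by positivity)).ne'
  · set δ := ‖A ω' ζ - B ω η‖ with hδ
    have hδ0 : 0 ≤ δ := norm_nonneg _
    rcases hδ0.eq_or_lt with h0 | h0
    · rw [← h0]
      simp
    have hex : ∃ n : ℕ, -Real.log δ ≤ Λ + C * (n + 1) := by
      obtain ⟨n, hn⟩ := exists_nat_ge (-Real.log δ / C)
      refine ⟨n, ?_⟩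
      rw [div_le_iff₀ hC] at hn
      nlinarith
    classical
    have hn := Nat.find_spec hex
    have hb : ∀ n : ℕ, Λ + C * (n + 1) ≤ M * (n + 1) := by
      intro n
      have : (0 : ℝ) ≤ n := n.cast_nonneg
      have h1 : 0 ≤ Λ * n := by positivity
      have h2 : 0 ≤ Λ * C * (n + 1) := by positivity
      rw [hM]
      nlinarith
    have hsq : ∀ n : ℕ, -Real.log δ ≤ Λ + C * (n + 1) →
        ENNReal.ofReal (-Real.log δ) ^ 2 ≤ ENNReal.ofReal (M ^ 2) * ((n : ℝ≥0∞) + 1) ^ 2 := by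
      intro n h
      refine (pow_le_pow_left' (ENNReal.ofReal_le_ofReal (h.trans (hb n))) 2).trans (le_of_eq ?_)
      rw [ENNReal.ofReal_mul hM0.le, mul_pow, ENNReal.ofReal_pow hM0.le,
        ENNReal.ofReal_add (by positivity) (by positivity), ENNReal.ofReal_natCast,
        ENNReal.ofReal_one]
    rcases hk : Nat.find hex with _ | k
    · rw [hk] at hn
      refine (hsq 0 hn).trans ?_
      refine mul_le_mul_right ?_ _
      simp
    · have hlt := Nat.find_min hex (m := k) (by omega)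
      rw [hk] at hn
      refine (hsq _ hn).trans (mul_le_mul_right ?_ _)
      have hmem : ((ω', ω), ζ) ∈ O k := by
        refine ⟨hζ, η, hη, ?_⟩
        change δ < _
        rw [← Real.log_lt_iff_lt_exp h0]
        linarith [not_le.1 hlt]
      refine le_add_left (le_trans (le_of_eq ?_) (ENNReal.le_tsum k))
      rw [indicator_of_mem hmem]
      push_cast
      ring
  · rw [lintegral_lintegral_swap (f := fun p ζ => S (p, ζ)) hSm.aemeasurable,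
      ← setLIntegral_const]
    refine setLIntegral_mono' measurableSet_ball fun ζ hζ => ?_
    have hm2 : Measurable fun p : (ℕ → Bool) × (ℕ → Bool) => S (p, ζ) :=
      hSm.comp measurable_prodMk_right
    rw [lintegral_prod _ hm2.aemeasurable]
    refine (lintegral_mono (g := fun _ => ENNReal.ofReal (M ^ 2) * avK) fun ω' => ?_).trans
      (by simp)
    have hmk : Measurable fun ω : ℕ → Bool => ((ω', ω), ζ) := by fun_prop
    have hind : ∀ i : ℕ, Measurable fun ω : ℕ → Bool =>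
        (O i).indicator (fun _ => ((i : ℝ≥0∞) + 2) ^ 2) ((ω', ω), ζ) := fun i =>
      (measurable_const.indicator (hOm i)).comp hmk
    simp only [S]
    rw [lintegral_const_mul' _ _ ENNReal.ofReal_ne_top, lintegral_add_left measurable_const,
      lintegral_tsum fun i => (hind i).aemeasurable]
    refine mul_le_mul_right ?_ _
    rw [avK, lintegral_const, measure_univ, mul_one]
    refine add_le_add_right (ENNReal.tsum_le_tsum fun i => ?_) _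
    have e : (fun ω : ℕ → Bool => (O i).indicator (fun _ => ((i : ℝ≥0∞) + 2) ^ 2) ((ω', ω), ζ)) =
        ((fun ω : ℕ → Bool => ((ω', ω), ζ)) ⁻¹' O i).indicator fun _ => ((i : ℝ≥0∞) + 2) ^ 2 := by
      funext ω
      rfl
    rw [e, lintegral_indicator_const (hmk (hOm i))]
    refine mul_le_mul_right (avNu_le _ _ ?_) _
    rintro ω ⟨-, η, hη, h1⟩ ω₂ ⟨-, η₂, hη₂, h2⟩ j hj
    have hle : Real.exp (-(Λ + C * (i + 1))) ≤ Real.exp (-(Λ + C * (j + 1))) := by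
      have : (j : ℝ) ≤ i := by exact_mod_cast Nat.lt_succ_iff.1 hj
      exact Real.exp_le_exp.2 (by nlinarith)
    exact sep ω' ω ω₂ ζ hζ η hη η₂ hη₂ j (h1.trans_le hle) (h2.trans_le hle)

theorem av_sqrt_sq (x : ℝ≥0∞) : (x ^ (2⁻¹ : ℝ)) ^ 2 = x := by
  rw [← ENNReal.rpow_natCast, ← ENNReal.rpow_mul]
  norm_num

theorem av_le_sqrt {x y : ℝ≥0∞} (h : x ^ 2 ≤ y) : x ≤ y ^ (2⁻¹ : ℝ) := by
  rw [← av_sqrt_sq y] at h
  exact (ENNReal.pow_le_pow_left_iff two_ne_zero).1 h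

theorem exists_pair (r₁ : ℝ) {C : ℝ} (hC : 0 < C) :
    ∃ C' : ℝ, 0 ≤ C' ∧ ∀ (A B : (ℕ → Bool) → ℂ → E) (Λ : ℝ), 0 ≤ Λ →
      ContinuousOn (fun p : (ℕ → Bool) × ℂ => A p.1 p.2) (univ ×ˢ ball 0 r₁) →
      ContinuousOn (fun p : (ℕ → Bool) × ℂ => B p.1 p.2) (univ ×ˢ ball 0 r₁) →
      (∀ ω' ω ω₂ : ℕ → Bool, ∀ ζ ∈ ball (0 : ℂ) r₁, ∀ η ∈ ball (0 : ℂ) r₁,
        ∀ η₂ ∈ ball (0 : ℂ) r₁, ∀ i : ℕ,
          ‖A ω' ζ - B ω η‖ < Real.exp (-(Λ + C * (i + 1))) →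
          ‖A ω' ζ - B ω₂ η₂‖ < Real.exp (-(Λ + C * (i + 1))) → ω i = ω₂ i) →
      (∀ ω ω' ω₂ : ℕ → Bool, ∀ η ∈ ball (0 : ℂ) r₁, ∀ ζ ∈ ball (0 : ℂ) r₁,
        ∀ ζ₂ ∈ ball (0 : ℂ) r₁, ∀ i : ℕ,
          ‖A ω' ζ - B ω η‖ < Real.exp (-(Λ + C * (i + 1))) →
          ‖A ω₂ ζ₂ - B ω η‖ < Real.exp (-(Λ + C * (i + 1))) → ω' i = ω₂ i) →
      ∃ (ω' ω : ℕ → Bool) (g₁ g₂ : ℂ → ℝ≥0∞), Measurable g₁ ∧ Measurable g₂ ∧
        (∀ ζ ∈ ball (0 : ℂ) r₁, ∀ η ∈ ball (0 : ℂ) r₁, (A ω' ζ = B ω η → g₁ ζ = ⊤) ∧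
          ENNReal.ofReal (-Real.log ‖A ω' ζ - B ω η‖) ≤ g₁ ζ ∧
          ENNReal.ofReal (-Real.log ‖A ω' ζ - B ω η‖) ≤ g₂ η) ∧
        ∫⁻ ζ in ball (0 : ℂ) r₁, g₁ ζ ^ 2 ≤ ENNReal.ofReal ((C' * (1 + Λ)) ^ 2) ∧
        ∫⁻ η in ball (0 : ℂ) r₁, g₂ η ^ 2 ≤ ENNReal.ofReal ((C' * (1 + Λ)) ^ 2) := by
  set V : ℝ≥0∞ := volume (ball (0 : ℂ) r₁) with hV
  have hVt : V ≠ ⊤ := measure_ball_lt_top.ne
  have hKV : 2 * (avK * V) ≠ ⊤ :=
    ENNReal.mul_ne_top (by norm_num) (ENNReal.mul_ne_top avK_ne_top hVt)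
  refine ⟨√((2 * (avK * V)).toReal) * (1 + C), by positivity, ?_⟩
  intro A B Λ hΛ hA hB sepB sepA
  obtain ⟨S₁, hm₁, h₁, hi₁⟩ := av_side r₁ hC hΛ A B hA hB sepB
  obtain ⟨S₂, hm₂, h₂, hi₂⟩ := av_side r₁ hC hΛ B A hB hA (by
    intro ω ω' ω₂ η hη ζ hζ ζ₂ hζ₂ i k1 k2
    rw [norm_sub_rev] at k1 k2
    exact sepA ω ω' ω₂ η hη ζ hζ ζ₂ hζ₂ i k1 k2)
  have hH₁ : Measurable fun p => ∫⁻ ζ in ball (0 : ℂ) r₁, S₁ (p, ζ) := hm₁.lintegral_prod_right'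
  have hH₂ : Measurable fun p => ∫⁻ ζ in ball (0 : ℂ) r₁, S₂ (p, ζ) := hm₂.lintegral_prod_right'
  have hH₃ : Measurable fun p : (ℕ → Bool) × (ℕ → Bool) =>
      ∫⁻ ζ in ball (0 : ℂ) r₁, S₂ (p.swap, ζ) := hH₂.comp measurable_swap
  obtain ⟨⟨ω', ω⟩, hp⟩ := exists_le_lintegral (μ := avNu.prod avNu) (hH₁.add hH₃).aemeasurable
  simp only [Pi.add_apply, Prod.swap_prod_mk] at hp
  rw [lintegral_add_left hH₁,
    lintegral_prod_swap fun p => ∫⁻ ζ in ball (0 : ℂ) r₁, S₂ (p, ζ)] at hp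
  have hb := hp.trans (add_le_add hi₁ hi₂)
  have e : ENNReal.ofReal (((1 + Λ) * (1 + C)) ^ 2) * avK * V +
      ENNReal.ofReal (((1 + Λ) * (1 + C)) ^ 2) * avK * V =
      ENNReal.ofReal ((√((2 * (avK * V)).toReal) * (1 + C) * (1 + Λ)) ^ 2) := by
    rw [mul_assoc (√_), mul_pow (√_), Real.sq_sqrt ENNReal.toReal_nonneg,
      ENNReal.ofReal_mul ENNReal.toReal_nonneg, ENNReal.ofReal_toReal hKV, mul_comm (1 + C)]
    ring
  rw [e] at hb
  refine ⟨ω', ω, fun ζ => S₁ ((ω', ω), ζ) ^ (2⁻¹ : ℝ), fun η => S₂ ((ω, ω'), η) ^ (2⁻¹ : ℝ),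
    (hm₁.comp measurable_prodMk_left).pow_const _, (hm₂.comp measurable_prodMk_left).pow_const _,
    fun ζ hζ η hη => ⟨fun h => ?_, av_le_sqrt (h₁ ω' ω ζ hζ η hη).2, av_le_sqrt ?_⟩, ?_, ?_⟩
  · simp only [(h₁ ω' ω ζ hζ η hη).1 h]
    exact ENNReal.top_rpow_of_pos (by norm_num)
  · rw [norm_sub_rev]
    exact (h₂ ω ω' η hη ζ hζ).2
  · simp only [av_sqrt_sq]
    exact le_self_add.trans hb
  · simp only [av_sqrt_sq]
    exact le_add_self.trans hb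

end Pool.Agent.P.MP_eeb913_an.U
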