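import Mathlib
import Pool.Agent.P.MP_eeb913_an.U.Basic

/-!
Chains through contracting sections.

chain_est: with a i = |Δu i|, c i = |Δs i|: a i ≤ κ max (a (i+1)) (c i) and
c (i+1) ≤ κ max (a (i+1)) (c i) for i < n. Prove by induction on p, for all i ≤ n at once,
a i ≤ max (max (κ^(n-i) U) (κ^(i+1) S)) (2 κ^p) and c i ≤ max (max (κ^i S) (κ^(n-i+1) U)) (2 κ^p), then
let p tend to infinity.
exists_chain: fixed point of the κ-contraction z ↦ z' of the closed unit ball of Fin (n+1) → E (or of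
ℕ →ᵇ E): (z' i).1 = (T i ((z (i+1)).1, (z i).2)).1 for i < n, (z' n).1 = b.1, (z' 0).2 = b.2,
(z' (i+1)).2 = (T i ((z (i+1)).1, (z i).2)).2.
exists_comp: choose z b by exists_chain, T' b = ((z b 0).1, (z b n).2); chain_est gives the Lipschitz
bound (n > 0), induction on i gives the orbit formula.
exists_leaves: the same contraction on bounded sequences ℕ →ᵇ E with only (z 0).2 = s prescribed
(or limits of finite chains).
-/

namespace Pool.Agent.P.MP_eeb913_an.U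

open MeasureTheory Filter Metric Set
open scoped ENNReal NNReal Topology

theorem IsChain.bound {κ : ℝ} {T : ℕ → E → E} {n : ℕ} {z : ℕ → E} (hz : IsChain T n z)
    (hT : ∀ i < n, IsCon κ (T i)) {i : ℕ} (hi : i < n) :
    ((z (i + 1)).1, (z i).2) ∈ D2 ∧ ‖(z i).1‖ ≤ κ ∧ ‖(z (i + 1)).2‖ ≤ κ := by
  have h1 : ((z (i + 1)).1, (z i).2) ∈ D2 :=
    mem_D2.mpr ⟨(mem_D2.mp (hz.1 (i + 1) hi)).1, (mem_D2.mp (hz.1 i hi.le)).2⟩
  have h2 := (hT i hi).bound _ h1
  rw [hz.2 i hi, Prod.norm_def, max_le_iff] at h2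
  exact ⟨h1, h2⟩

private theorem est_aux {κ : ℝ} (h0 : 0 ≤ κ) (h1 : κ < 1) {n : ℕ} {a c A C : ℕ → ℝ}
    (hM : ∀ i ≤ n, a i ≤ A i + 2 ∧ c i ≤ C i + 2)
    (hac : ∀ i < n, max (a i) (c (i + 1)) ≤ κ * max (a (i + 1)) (c i))
    (hA : a n ≤ A n) (hC : c 0 ≤ C 0)
    (hAC : ∀ i < n, κ * max (A (i + 1)) (C i) ≤ min (A i) (C (i + 1))) :
    ∀ i ≤ n, a i ≤ A i ∧ c i ≤ C i := by
  have key : ∀ p : ℕ, ∀ i ≤ n, a i ≤ A i + 2 * κ ^ p ∧ c i ≤ C i + 2 * κ ^ p := by
    intro p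
    induction p with
    | zero => simpa using hM
    | succ p ih =>
      have hp : 0 ≤ 2 * κ ^ (p + 1) := by positivity
      have h2 : ∀ i < n, max (a i) (c (i + 1)) ≤ min (A i) (C (i + 1)) + 2 * κ ^ (p + 1) := by
        intro i hi
        have h3 : max (a (i + 1)) (c i) ≤ max (A (i + 1)) (C i) + 2 * κ ^ p :=
          max_le ((ih (i + 1) hi).1.trans (by gcongr; exact le_max_left _ _))
            ((ih i hi.le).2.trans (by gcongr; exact le_max_right _ _))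
        have h4 := mul_le_mul_of_nonneg_left h3 h0
        have h5 := hac i hi
        have h6 := hAC i hi
        rw [pow_succ]
        linarith
      intro i hi
      constructor
      · rcases hi.eq_or_lt with rfl | hi
        · linarith
        · have := h2 i hi
          linarith [le_max_left (a i) (c (i + 1)), min_le_left (A i) (C (i + 1))]
      · rcases i with _ | i
        · linarith
        · have := h2 i hi
          linarith [le_max_right (a i) (c (i + 1)), min_le_right (A i) (C (i + 1))]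
  have hl : ∀ x : ℝ, Tendsto (fun p : ℕ => x + 2 * κ ^ p) atTop (𝓝 x) := fun x => by
    simpa using ((tendsto_pow_atTop_nhds_zero_of_lt_one h0 h1).const_mul 2).const_add x
  intro i hi
  exact ⟨ge_of_tendsto' (hl _) fun p => (key p i hi).1,
    ge_of_tendsto' (hl _) fun p => (key p i hi).2⟩

theorem chain_est {κ : ℝ} (h0 : 0 ≤ κ) (h1 : κ < 1) {T : ℕ → E → E} {n : ℕ} {z z' : ℕ → E}
    (hT : ∀ i < n, IsCon κ (T i)) (hz : IsChain T n z) (hz' : IsChain T n z') :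
    ∀ i ≤ n, ‖(z i).1 - (z' i).1‖ ≤
        max (κ ^ (n - i) * ‖(z n).1 - (z' n).1‖) (κ ^ (i + 1) * ‖(z 0).2 - (z' 0).2‖) ∧
      ‖(z i).2 - (z' i).2‖ ≤
        max (κ ^ i * ‖(z 0).2 - (z' 0).2‖) (κ ^ (n - i + 1) * ‖(z n).1 - (z' n).1‖) := by
  have hU := norm_nonneg ((z n).1 - (z' n).1)
  have hS := norm_nonneg ((z 0).2 - (z' 0).2)
  have hp : ∀ {x : ℝ} {i j : ℕ}, 0 ≤ x → j ≤ i + 1 → κ * (κ ^ i * x) ≤ κ ^ j * x := by
    intro x i j hx hij
    rw [← mul_assoc, ← pow_succ']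
    exact mul_le_mul_of_nonneg_right (pow_le_pow_of_le_one h0 h1.le hij) hx
  refine est_aux h0 h1 (a := fun i => ‖(z i).1 - (z' i).1‖) (c := fun i => ‖(z i).2 - (z' i).2‖)
    (A := fun i => max (κ ^ (n - i) * ‖(z n).1 - (z' n).1‖) (κ ^ (i + 1) * ‖(z 0).2 - (z' 0).2‖))
    (C := fun i => max (κ ^ i * ‖(z 0).2 - (z' 0).2‖) (κ ^ (n - i + 1) * ‖(z n).1 - (z' n).1‖))
    ?_ ?_ ?_ ?_ ?_
  · intro i hi
    have h2 := mem_D2.mp (hz.1 i hi)
    have h3 := mem_D2.mp (hz'.1 i hi)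
    have h4 := norm_sub_le (z i).1 (z' i).1
    have h5 := norm_sub_le (z i).2 (z' i).2
    have h6 : 0 ≤ max (κ ^ (n - i) * ‖(z n).1 - (z' n).1‖) (κ ^ (i + 1) * ‖(z 0).2 - (z' 0).2‖) :=
      le_max_of_le_left (by positivity)
    have h7 : 0 ≤ max (κ ^ i * ‖(z 0).2 - (z' 0).2‖) (κ ^ (n - i + 1) * ‖(z n).1 - (z' n).1‖) :=
      le_max_of_le_left (by positivity)
    constructor <;> linarith [h2.1, h2.2, h3.1, h3.2]
  · intro i hi
    have h2 := (hT i hi).lip _ (hz.bound hT hi).1 _ (hz'.bound hT hi).1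
    rw [hz.2 i hi, hz'.2 i hi] at h2
    exact h2
  · simp
  · simp
  · intro i hi
    beta_reduce
    rw [mul_max_of_nonneg _ _ h0, mul_max_of_nonneg _ _ h0, mul_max_of_nonneg _ _ h0]
    refine le_min (max_le (max_le ?_ ?_) (max_le ?_ ?_)) (max_le (max_le ?_ ?_) (max_le ?_ ?_))
    · exact le_max_of_le_left (hp hU (by omega))
    · exact le_max_of_le_right (hp hS (by omega))
    · exact le_max_of_le_right (hp hS (by omega))
    · exact le_max_of_le_left (hp hU (by omega))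
    · exact le_max_of_le_right (hp hU (by omega))
    · exact le_max_of_le_left (hp hS (by omega))
    · exact le_max_of_le_left (hp hS (by omega))
    · exact le_max_of_le_right (hp hU (by omega))

private theorem exists_inf {κ : ℝ} (h0 : 0 ≤ κ) (h1 : κ < 1) {T : ℕ → E → E}
    (hb : ∀ i, ∀ b ∈ D2, T i b ∈ D2)
    (hl : ∀ i, ∀ b ∈ D2, ∀ b' ∈ D2, ‖T i b - T i b'‖ ≤ κ * ‖b - b'‖) {s : ℂ} (hs : ‖s‖ ≤ 1) :
    ∃ z : ℕ → E, (∀ i, z i ∈ D2) ∧ (z 0).2 = s ∧
      ∀ i, T i ((z (i + 1)).1, (z i).2) = ((z i).1, (z (i + 1)).2) := by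
  have : CompleteSpace D2 := isClosed_closedBall.completeSpace_coe
  have : Nonempty D2 := ⟨⟨0, by simp⟩⟩
  let w : BoundedContinuousFunction ℕ D2 → ℕ → E := fun z i => ((z (i + 1)).1.1, (z i).1.2)
  have hw : ∀ z i, w z i ∈ D2 := fun z i =>
    mem_D2.mpr ⟨(mem_D2.mp (z (i + 1)).2).1, (mem_D2.mp (z i).2).2⟩
  have hwd : ∀ z z' i, ‖w z i - w z' i‖ ≤ dist z z' := fun z z' i => by
    have h2 := BoundedContinuousFunction.dist_coe_le_dist (f := z) (g := z') (i + 1)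
    have h3 := BoundedContinuousFunction.dist_coe_le_dist (f := z) (g := z') i
    rw [Subtype.dist_eq, dist_eq_norm] at h2 h3
    exact max_le ((norm_fst_le ((z (i + 1)).1 - (z' (i + 1)).1)).trans h2)
      ((norm_snd_le ((z i).1 - (z' i).1)).trans h3)
  have hTd : ∀ z z' i, ‖T i (w z i) - T i (w z' i)‖ ≤ κ * dist z z' := fun z z' i =>
    (hl i _ (hw z i) _ (hw z' i)).trans (mul_le_mul_of_nonneg_left (hwd z z' i) h0)
  let v : BoundedContinuousFunction ℕ D2 → ℕ → E := fun z i =>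
    ((T i (w z i)).1, Nat.casesOn i s fun j => (T j (w z j)).2)
  have hv : ∀ z i, v z i ∈ D2 := fun z i => by
    refine mem_D2.mpr ⟨(mem_D2.mp (hb i _ (hw z i))).1, ?_⟩
    rcases i with _ | j
    · exact hs
    · exact (mem_D2.mp (hb j _ (hw z j))).2
  let Ψ : BoundedContinuousFunction ℕ D2 → BoundedContinuousFunction ℕ D2 := fun z =>
    BoundedContinuousFunction.mkOfDiscrete (fun i => ⟨v z i, hv z i⟩) 2 fun i j => by
      rw [Subtype.dist_eq, dist_eq_norm]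
      have h2 := mem_closedBall_zero_iff.mp (hv z i)
      have h3 := mem_closedBall_zero_iff.mp (hv z j)
      linarith [norm_sub_le (v z i) (v z j)]
  have hΨ : ContractingWith ⟨κ, h0⟩ Ψ := by
    refine ⟨h1, LipschitzWith.of_dist_le_mul fun z z' => ?_⟩
    refine (BoundedContinuousFunction.dist_le (mul_nonneg h0 dist_nonneg)).mpr fun i => ?_
    rw [Subtype.dist_eq, dist_eq_norm]
    refine max_le ((norm_fst_le (T i (w z i) - T i (w z' i))).trans (hTd z z' i)) ?_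
    rcases i with _ | j
    · change ‖s - s‖ ≤ _
      rw [sub_self, norm_zero]
      exact mul_nonneg h0 dist_nonneg
    · exact (norm_snd_le (T j (w z j) - T j (w z' j))).trans (hTd z z' j)
  have hfix : ∀ i, v (hΨ.fixedPoint Ψ) i = (hΨ.fixedPoint Ψ i).1 := fun i =>
    congrArg (fun z : BoundedContinuousFunction ℕ D2 => (z i).1) hΨ.fixedPoint_isFixedPt
  refine ⟨fun i => (hΨ.fixedPoint Ψ i).1, fun i => (hΨ.fixedPoint Ψ i).2, ?_, fun i => ?_⟩
  · exact (congrArg Prod.snd (hfix 0)).symm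
  · have h2 := congrArg Prod.fst (hfix i)
    have h3 := congrArg Prod.snd (hfix (i + 1))
    exact Prod.ext h2 h3

theorem exists_chain {κ : ℝ} (h0 : 0 ≤ κ) (h1 : κ < 1) {T : ℕ → E → E} {n : ℕ}
    (hT : ∀ i < n, IsCon κ (T i)) {b : E} (hb : b ∈ D2) :
    ∃ z : ℕ → E, IsChain T n z ∧ (z n).1 = b.1 ∧ (z 0).2 = b.2 := by
  obtain ⟨z, h2, h3, h4⟩ := exists_inf h0 h1 (T := fun i => if i < n then T i else fun _ => b)
    (fun i x hx => by
      split_ifs with hi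
      · exact mem_closedBall_zero_iff.mpr (((hT i hi).bound x hx).trans h1.le)
      · exact hb)
    (fun i x hx y hy => by
      split_ifs with hi
      · exact (hT i hi).lip x hx y hy
      · rw [sub_self, norm_zero]
        positivity) (mem_D2.mp hb).2
  refine ⟨z, ⟨fun i _ => h2 i, fun i hi => ?_⟩, ?_, h3⟩
  · have := h4 i
    rwa [if_pos hi] at this
  · have := h4 n
    rw [if_neg (lt_irrefl n)] at this
    exact (congrArg Prod.fst this).symm

theorem exists_comp {κ : ℝ} (h1 : κ < 1) {n : ℕ} (hn : 0 < n) {F T : ℕ → E → E} {χ : ℕ → Chart}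
    (hT : ∀ i < n, IsCross κ (F i) (χ i) (χ (i + 1)) (T i)) {Φ : ℕ → E → E}
    (hΦ0 : ∀ x, Φ 0 x = x) (hΦ : ∀ i < n, ∀ x, Φ (i + 1) x = F i (Φ i x)) :
    ∃ (T' : E → E) (z : E → ℕ → E), IsCross κ (Φ n) (χ 0) (χ n) T' ∧ ∀ b ∈ D2,
      IsChain T n (z b) ∧ z b 0 = ((T' b).1, b.2) ∧ z b n = (b.1, (T' b).2) ∧
        ∀ i ≤ n, Φ i ((χ 0).start T' b) = (χ i).pt (z b i) := by
  have hc : ∀ i < n, IsCon κ (T i) := fun i hi => (hT i hi).con
  have h0 : 0 ≤ κ := (hc 0 hn).nonneg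
  choose! z hz hz1 hz2 using fun b hb => exists_chain h0 h1 hc (b := b) hb
  have e0 : ∀ b ∈ D2, z b 0 = ((z b 0).1, b.2) := fun b hb => Prod.ext rfl (hz2 b hb)
  have en : ∀ b ∈ D2, z b n = (b.1, (z b n).2) := fun b hb => Prod.ext (hz1 b hb) rfl
  have horb : ∀ b ∈ D2, ∀ i ≤ n,
      Φ i ((χ 0).start (fun b => ((z b 0).1, (z b n).2)) b) = (χ i).pt (z b i) := by
    intro b hb i
    induction i with
    | zero =>
      intro _
      rw [hΦ0, Chart.start, ← e0 b hb]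
    | succ i ih =>
      intro hi
      have h2 := (hT i hi).map _ ((hz b hb).bound hc hi).1
      rw [Chart.start, (hz b hb).2 i hi] at h2
      rw [hΦ i hi, ih (Nat.le_of_succ_le hi)]
      exact h2
  refine ⟨fun b => ((z b 0).1, (z b n).2), z, ⟨⟨fun b hb => ?_, fun b hb b' hb' => ?_⟩,
    fun b hb => ?_⟩, fun b hb => ⟨hz b hb, e0 b hb, en b hb, horb b hb⟩⟩
  · obtain ⟨m, rfl⟩ := Nat.exists_eq_succ_of_ne_zero hn.ne'
    exact max_le ((hz b hb).bound hc hn).2.1 ((hz b hb).bound hc (Nat.lt_succ_self m)).2.2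
  · have h2 := chain_est h0 h1 hc (hz b hb) (hz b' hb')
    rw [hz1 b hb, hz1 b' hb', hz2 b hb, hz2 b' hb'] at h2
    have hp : ∀ {x : ℝ} {i : ℕ}, 0 ≤ x → x ≤ ‖b - b'‖ → 1 ≤ i → κ ^ i * x ≤ κ * ‖b - b'‖ := by
      intro x i hx hx' hi
      exact mul_le_mul (pow_le_of_le_one h0 h1.le (by omega)) hx' hx h0
    have h3 : ‖b.1 - b'.1‖ ≤ ‖b - b'‖ := norm_fst_le (b - b')
    have h4 : ‖b.2 - b'.2‖ ≤ ‖b - b'‖ := norm_snd_le (b - b')
    exact max_le ((h2 0 hn.le).1.trans (max_le (hp (norm_nonneg _) h3 (by omega))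
        (hp (norm_nonneg _) h4 (by omega))))
      ((h2 n le_rfl).2.trans (max_le (hp (norm_nonneg _) h4 (by omega))
        (hp (norm_nonneg _) h3 (by omega))))
  · rw [horb b hb n le_rfl, ← en b hb]

theorem exists_leaves {κ : ℝ} (h1 : κ < 1) {T : Bool → E → E} (hT : ∀ a, IsCon κ (T a)) :
    ∃ (γ : (ℕ → Bool) → ℂ → ℂ) (z : (ℕ → Bool) → ℂ → ℕ → E), IsLeaves T γ z := by
  have h0 : 0 ≤ κ := (hT true).nonneg
  choose! z h2 h3 h4 using fun (ω : ℕ → Bool) (s : ℂ) (hs : ‖s‖ ≤ 1) =>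
    exists_inf h0 h1 (T := fun i => T (ω i))
      (fun i x hx => mem_closedBall_zero_iff.mpr (((hT (ω i)).bound x hx).trans h1.le))
      (fun i => (hT (ω i)).lip) hs
  refine ⟨fun ω s => (z ω s 0).1, z, fun ω s hs n => ?_, fun ω s hs => ?_⟩
  · have hs' := mem_closedBall_zero_iff.mp hs
    exact ⟨fun i _ => h2 ω s hs' i, fun i _ => h4 ω s hs' i⟩
  · exact Prod.ext rfl (h3 ω s (mem_closedBall_zero_iff.mp hs))

end Pool.Agent.P.MP_eeb913_an.U
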