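import Mathlib
import Pool.Agent.P.MP_eeb913_an.U.Basic

/-!
One hyperbolic step gives a crossing.

Sketch. For p = (u', s) in the bidisc, u ↦ u - ((g (u, s)).1 - u') / a maps the closed unit disc into
the disc of radius lam (1 + 2 δ) ≤ κ and is a contraction with constant lam δ < 1 (write
g z = (a z.1, b z.2) + Err z with ‖Err z‖ ≤ 2 δ and Err δ-Lipschitz). Its fixed point is (T p).1 and
(T p).2 = (g ((T p).1, s)).2. With m = ‖p - p'‖: |Δu| ≤ lam (m + δ max |Δu| m) forces |Δu| ≤ κ m, and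
|Δs'| ≤ (lam + δ) m. The last clause is uniqueness of the fixed point.
-/

namespace Pool.Agent.P.MP_eeb913_an.U

open MeasureTheory Filter Metric Set
open scoped ENNReal NNReal Topology

private theorem step_key {g : E → E} {a b : ℂ} {lam δ κ : ℝ} (h0 : 0 < lam) (hδ : 0 ≤ δ)
    (hκ : lam + 2 * δ ≤ κ) (hκ1 : κ < 1) (ha : 1 ≤ lam * ‖a‖) (hb : ‖b‖ ≤ lam) {z z' : E} {m : ℝ}
    (h : ‖g z - g z' - (a * (z - z').1, b * (z - z').2)‖ ≤ δ * ‖z - z'‖)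
    (h1 : ‖(g z).1 - (g z').1‖ ≤ m) (h2 : ‖z.2 - z'.2‖ ≤ m) :
    ‖z.1 - z'.1‖ ≤ κ * m ∧ ‖(g z).2 - (g z').2‖ ≤ κ * m := by
  have hm : 0 ≤ m := (norm_nonneg _).trans h1
  have e1 : ‖(g z).1 - (g z').1 - a * (z.1 - z'.1)‖ ≤ δ * ‖z - z'‖ := (norm_fst_le _).trans h
  have e2 : ‖(g z).2 - (g z').2 - b * (z.2 - z'.2)‖ ≤ δ * ‖z - z'‖ := (norm_snd_le _).trans h
  have n1 : ‖z - z'‖ = max ‖z.1 - z'.1‖ ‖z.2 - z'.2‖ := rfl
  have hu0 := norm_nonneg (z.1 - z'.1)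
  have e3 : ‖a‖ * ‖z.1 - z'.1‖ ≤ m + δ * ‖z - z'‖ := by
    rw [← norm_mul]
    have := norm_sub_le ((g z).1 - (g z').1) ((g z).1 - (g z').1 - a * (z.1 - z'.1))
    rw [sub_sub_cancel] at this
    linarith
  have e4 : ‖z.1 - z'.1‖ ≤ lam * (m + δ * ‖z - z'‖) := by
    have := mul_le_mul_of_nonneg_left e3 h0.le
    nlinarith
  have hl1 : lam * (1 + δ) ≤ κ := by nlinarith
  have e5 : ‖z.1 - z'.1‖ ≤ m := by
    by_contra hc
    push Not at hc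
    have h3 : ‖z - z'‖ ≤ ‖z.1 - z'.1‖ := by rw [n1]; exact max_le le_rfl (by linarith)
    have h4 : δ * ‖z - z'‖ ≤ δ * ‖z.1 - z'.1‖ := mul_le_mul_of_nonneg_left h3 hδ
    have h5 : lam * (m + δ * ‖z - z'‖) ≤ lam * ((1 + δ) * ‖z.1 - z'.1‖) :=
      mul_le_mul_of_nonneg_left (by linarith) h0.le
    have h6 : lam * (1 + δ) * ‖z.1 - z'.1‖ ≤ κ * ‖z.1 - z'.1‖ :=
      mul_le_mul_of_nonneg_right hl1 hu0
    nlinarith
  have e6 : δ * ‖z - z'‖ ≤ δ * m := by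
    refine mul_le_mul_of_nonneg_left ?_ hδ
    rw [n1]; exact max_le e5 h2
  constructor
  · have h5 : lam * (m + δ * ‖z - z'‖) ≤ lam * ((1 + δ) * m) :=
      mul_le_mul_of_nonneg_left (by linarith) h0.le
    have h6 : lam * (1 + δ) * m ≤ κ * m := mul_le_mul_of_nonneg_right hl1 hm
    linarith
  · have h3 := norm_add_le ((g z).2 - (g z').2 - b * (z.2 - z'.2)) (b * (z.2 - z'.2))
    rw [sub_add_cancel, norm_mul] at h3
    have h4 : ‖b‖ * ‖z.2 - z'.2‖ ≤ lam * m := mul_le_mul hb h2 (norm_nonneg _) h0.le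
    have h6 : (lam + δ) * m ≤ κ * m := mul_le_mul_of_nonneg_right (by linarith) hm
    linarith

private theorem step_err {g : E → E} {a b : ℂ} {δ : ℝ} (hδ : 0 ≤ δ) (e0 : ‖g 0‖ ≤ δ)
    (eL : ∀ z ∈ D2, ∀ z' ∈ D2,
      ‖g z - g z' - (a * (z - z').1, b * (z - z').2)‖ ≤ δ * ‖z - z'‖) {z : E} (hz : z ∈ D2) :
    ‖(g z).1 - a * z.1‖ ≤ 2 * δ ∧ ‖(g z).2 - b * z.2‖ ≤ 2 * δ := by
  have h := eL z hz 0 (by simp [D2])
  rw [sub_zero] at h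
  have h1 : ‖z‖ ≤ 1 := by simpa [D2] using hz
  have h2 : δ * ‖z‖ ≤ δ := mul_le_of_le_one_right hδ h1
  have h3 := norm_add_le (g z - g 0 - (a * z.1, b * z.2)) (g 0)
  have h4 : g z - g 0 - (a * z.1, b * z.2) + g 0 = g z - (a * z.1, b * z.2) := by abel
  rw [h4] at h3
  have h5 : ‖g z - (a * z.1, b * z.2)‖ ≤ 2 * δ := by linarith
  exact ⟨(norm_fst_le _).trans h5, (norm_snd_le _).trans h5⟩

private theorem step_fix {g : E → E} {a b : ℂ} {lam δ κ : ℝ} (h0 : 0 < lam) (hδ : 0 ≤ δ)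
    (hκ : lam + 2 * δ ≤ κ) (hκ1 : κ < 1) (ha : 1 ≤ lam * ‖a‖) (e0 : ‖g 0‖ ≤ δ)
    (eL : ∀ z ∈ D2, ∀ z' ∈ D2,
      ‖g z - g z' - (a * (z - z').1, b * (z - z').2)‖ ≤ δ * ‖z - z'‖) {p : E} (hp : p ∈ D2) :
    ∃ u : ℂ, ‖u‖ ≤ κ ∧ (g (u, p.2)).1 = p.1 := by
  obtain ⟨hp1, hp2⟩ := mem_D2.1 hp
  have ha0 : 0 < ‖a‖ := by
    by_contra hc
    have : lam * ‖a‖ ≤ 0 := mul_nonpos_of_nonneg_of_nonpos h0.le (not_lt.1 hc)
    linarith
  have hane : a ≠ 0 := norm_pos_iff.1 ha0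
  have hinv : ‖a‖⁻¹ ≤ lam := by rw [inv_le_iff_one_le_mul₀ ha0]; exact ha
  let Φ : ℂ → ℂ := fun u => (p.1 - ((g (u, p.2)).1 - a * u)) / a
  have hbd : ∀ u ∈ closedBall (0 : ℂ) 1, ‖Φ u‖ ≤ κ := by
    intro u hu
    have hu1 : ‖u‖ ≤ 1 := by simpa using hu
    have h1 := (step_err hδ e0 eL (z := (u, p.2)) (mem_D2.2 ⟨hu1, hp2⟩)).1
    have h2 := norm_sub_le p.1 ((g (u, p.2)).1 - a * u)
    have h3 : ‖p.1 - ((g (u, p.2)).1 - a * u)‖ ≤ 1 + 2 * δ := by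
      dsimp only at h1; linarith
    calc ‖Φ u‖ = ‖p.1 - ((g (u, p.2)).1 - a * u)‖ * ‖a‖⁻¹ := by
          simp only [Φ]; rw [norm_div, div_eq_mul_inv]
      _ ≤ (1 + 2 * δ) * lam := mul_le_mul h3 hinv (by positivity) (by positivity)
      _ ≤ κ := by nlinarith
  have hmaps : MapsTo Φ (closedBall (0 : ℂ) 1) (closedBall 0 1) := fun u hu => by
    have := hbd u hu
    simp only [mem_closedBall, dist_zero_right]
    linarith
  have hlip : ∀ u ∈ closedBall (0 : ℂ) 1, ∀ v ∈ closedBall (0 : ℂ) 1,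
      dist (Φ u) (Φ v) ≤ (δ * lam) * dist u v := by
    intro u hu v hv
    have hu1 : ‖u‖ ≤ 1 := by simpa using hu
    have hv1 : ‖v‖ ≤ 1 := by simpa using hv
    have h := eL (u, p.2) (mem_D2.2 ⟨hu1, hp2⟩) (v, p.2) (mem_D2.2 ⟨hv1, hp2⟩)
    have h1 : ‖((u, p.2) : E) - (v, p.2)‖ = ‖u - v‖ := by simp [Prod.norm_def]
    rw [h1] at h
    have h2 : ‖(g (u, p.2)).1 - (g (v, p.2)).1 - a * (u - v)‖ ≤ δ * ‖u - v‖ :=
      (norm_fst_le _).trans h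
    have h3 : Φ u - Φ v = -((g (u, p.2)).1 - (g (v, p.2)).1 - a * (u - v)) / a := by
      simp only [Φ]; ring
    rw [dist_eq_norm, dist_eq_norm, h3, norm_div, norm_neg, div_eq_mul_inv]
    refine (mul_le_mul h2 hinv (by positivity) (by positivity)).trans (le_of_eq ?_)
    ring
  have hK : δ * lam < 1 := by nlinarith
  have hc : ContractingWith ⟨δ * lam, by positivity⟩ (hmaps.restrict Φ _ _) :=
    ⟨hK, LipschitzWith.of_dist_le_mul fun u v => hlip u u.2 v v.2⟩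
  obtain ⟨u, hu, hfix, -⟩ := hc.exists_fixedPoint' isClosed_closedBall.isComplete hmaps
    (x := 0) (by simp) (edist_ne_top _ _)
  refine ⟨u, ?_, ?_⟩
  · have := hbd u hu
    rwa [hfix.eq] at this
  · have h1 : (p.1 - ((g (u, p.2)).1 - a * u)) / a = u := hfix.eq
    rw [div_eq_iff hane] at h1
    linear_combination -h1

theorem exists_step {g : E → E} {a b : ℂ} {lam δ κ : ℝ} (h0 : 0 < lam) (hδ : 0 ≤ δ)
    (hκ : lam + 2 * δ ≤ κ) (hκ1 : κ < 1) (ha : 1 ≤ lam * ‖a‖) (hb : ‖b‖ ≤ lam) (e0 : ‖g 0‖ ≤ δ)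
    (eL : ∀ z ∈ D2, ∀ z' ∈ D2,
      ‖g z - g z' - (a * (z - z').1, b * (z - z').2)‖ ≤ δ * ‖z - z'‖) :
    ∃ T : E → E, IsCon κ T ∧ (∀ p ∈ D2, g ((T p).1, p.2) = (p.1, (T p).2)) ∧
      ∀ z ∈ D2, g z ∈ D2 → T ((g z).1, z.2) = (z.1, (g z).2) := by
  classical
  have hfix := fun p (hp : p ∈ D2) => step_fix h0 hδ hκ hκ1 ha e0 eL hp
  choose! u hu1 hu2 using hfix
  have hmem : ∀ p ∈ D2, ((u p, p.2) : E) ∈ D2 := fun p hp =>
    mem_D2.2 ⟨(hu1 p hp).trans hκ1.le, (mem_D2.1 hp).2⟩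
  refine ⟨fun p => (u p, (g (u p, p.2)).2), ⟨fun p hp => ?_, fun p hp p' hp' => ?_⟩,
    fun p hp => ?_, fun z hz hgz => ?_⟩
  · refine norm_prod_le_iff.2 ⟨hu1 p hp, ?_⟩
    have h1 := (step_err hδ e0 eL (hmem p hp)).2
    have h2 := norm_add_le ((g (u p, p.2)).2 - b * p.2) (b * p.2)
    rw [sub_add_cancel, norm_mul] at h2
    have h3 : ‖b‖ * ‖p.2‖ ≤ lam * 1 := mul_le_mul hb (mem_D2.1 hp).2 (norm_nonneg _) h0.le
    dsimp only at h1 ⊢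
    linarith
  · have h := step_key h0 hδ hκ hκ1 ha hb (m := ‖p - p'‖) (eL _ (hmem p hp) _ (hmem p' hp'))
      (by rw [hu2 p hp, hu2 p' hp']; exact norm_fst_le (p - p')) (norm_snd_le (p - p'))
    exact norm_prod_le_iff.2 h
  · exact Prod.ext (hu2 p hp) rfl
  · have hp : (((g z).1, z.2) : E) ∈ D2 := mem_D2.2 ⟨(mem_D2.1 hgz).1, (mem_D2.1 hz).2⟩
    have h := (step_key h0 hδ hκ hκ1 ha hb (m := 0) (eL _ (hmem _ hp) z hz)
      (by rw [hu2 _ hp]; simp) (by simp)).1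
    rw [mul_zero, norm_le_zero_iff, sub_eq_zero] at h
    dsimp only at h ⊢
    rw [h]

end Pool.Agent.P.MP_eeb913_an.U
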