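import Mathlib
import Pool.Agent.P.MP_eeb913_an.U.Basic
import Pool.Agent.P.MP_eeb913_an.U.FiltLem
import Pool.Agent.P.MP_eeb913_an.U.Step
import Pool.Agent.P.MP_eeb913_an.U.Chain

/-!
Pesin charts along an orbit segment give a good crossing.

Sketch. ε = χ / 2, lam = exp (-ε), κ = (1 + lam) / 2, δ = (1 - lam) / 4. M from exists_lip at radius
R + 1 (WLOG K ≥ 1, L ≥ 1; if R < 0 the inner statement is vacuous but the chart is still needed).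
For vectors p, p' with ‖z‖ ≤ K' ‖z.1 • p + z.2 • p'‖ the map z ↦ r (z.1 • p + z.2 • p') is a
ContinuousLinearEquiv (injective, finite dimension). c = (x₀, r C₀). For 0 < j < n the chart c j is
(f^[j] x, r j • C j) with r j = r exp (-ε min j (n - j)); c 0 = c n = c. Let (p, ρ, C~) and
(p', ρ', C~') be centre, radius and frame of c j and c (j+1), x j the orbit point, C j, C (j+1) the
true frames, K' the bound for the inverse of C~'. Then g z = (c (j+1)).co (f ((c j).pt z)) equals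
(ρ / ρ') (A z.1, B z.2) + Err z, where
f (p + ρ C~ z) - p' = (x (j+1) - p') + Df (p - x j) + ρ C~' diag z + ρ (C (j+1) - C~') diag z
+ ρ Df (C~ - C j) z + Rem (p - x j + ρ C~ z), and Rem h = f (x j + h) - f (x j) - Df h is
M ‖h‖max-Lipschitz with Rem 0 = 0. Terms with θ occur only for j = 0 or j + 1 = n, where ρ' ≥ r exp (-ε)
and K' ≤ K exp ε. ρ / ρ' ∈ [exp (-ε), exp ε] and ρ² K' / ρ' ≤ r K exp (2 ε). Choose r, then θ, small so
that exists_step applies with a = (ρ / ρ') A, b = (ρ / ρ') B. exists_comp composes the steps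
(Φ i = f^[i]); decay from chain_est with D = 2 r. The coordinates of the true orbit (c.co x, 0, …, 0,
c.co (f^[n] x), of norm ≤ K θ / r ≤ κ) form a chain by the last clause of exists_step, equal to z b for
b = ((c.co (f^[n] x)).1, (c.co x).2) by chain_est, so x is in the core.
-/

namespace Pool.Agent.P.MP_eeb913_an.U

open MeasureTheory Filter Metric Set
open scoped ENNReal NNReal Topology

private theorem chart_exists {P Q : E} {K ρ : ℝ} (hρ : 0 < ρ)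
    (h : ∀ z : E, ‖z‖ ≤ K * ‖z.1 • P + z.2 • Q‖) (p : E) :
    ∃ c : Chart, c.c = p ∧ ∀ z, c.A z = (ρ : ℂ) • (z.1 • P + z.2 • Q) := by
  let l : E →ₗ[ℂ] E := (ρ : ℂ) • ((LinearMap.fst ℂ ℂ ℂ).smulRight P + (LinearMap.snd ℂ ℂ ℂ).smulRight Q)
  have hl : ∀ z, l z = (ρ : ℂ) • (z.1 • P + z.2 • Q) := fun z => rfl
  have hi : Function.Injective l := by
    rw [injective_iff_map_eq_zero]
    intro z hz
    rw [hl, smul_eq_zero] at hz
    have h0 := hz.resolve_left (Complex.ofReal_ne_zero.2 hρ.ne')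
    have := h z
    rwa [h0, norm_zero, mul_zero, norm_le_zero_iff] at this
  exact ⟨⟨p, (LinearEquiv.ofInjectiveEndo l hi).toContinuousLinearEquiv⟩, rfl, hl⟩

private theorem comb_le {P Q : E} {s t : ℝ} (hP : ‖P‖ ≤ s) (hQ : ‖Q‖ ≤ t) (w : E) :
    ‖w.1 • P + w.2 • Q‖ ≤ (s + t) * ‖w‖ := by
  have h1 : ‖w.1 • P‖ ≤ ‖w‖ * s := by
    rw [norm_smul]
    exact mul_le_mul (norm_fst_le w) hP (norm_nonneg _) (norm_nonneg _)
  have h2 : ‖w.2 • Q‖ ≤ ‖w‖ * t := by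
    rw [norm_smul]
    exact mul_le_mul (norm_snd_le w) hQ (norm_nonneg _) (norm_nonneg _)
  linarith [norm_add_le (w.1 • P) (w.2 • Q)]

private theorem chart_le {c : Chart} {P Q : E} {ρ : ℝ} (hρ : 0 < ρ)
    (hc : ∀ z, c.A z = (ρ : ℂ) • (z.1 • P + z.2 • Q)) (hP : ‖P‖ ≤ 1) (hQ : ‖Q‖ ≤ 1) (w : E) :
    ‖c.A w‖ ≤ 2 * ρ * ‖w‖ := by
  rw [hc, norm_smul, Complex.norm_real, Real.norm_of_nonneg hρ.le]
  have := mul_le_mul_of_nonneg_left (comb_le hP hQ w) hρ.le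
  linarith

private theorem vec_err {D : E →L[ℂ] E} {P V P' V' : E} {A L M t t' : ℝ} (hD : ‖D‖ ≤ M)
    (hV : ‖P - V‖ ≤ t) (hV' : ‖P' - V'‖ ≤ t') (hA0 : 0 ≤ A) (hA : A ≤ L)
    (dV : D V = (A : ℂ) • V') : ‖D P - (A : ℂ) • P'‖ ≤ M * t + L * t' := by
  have e : D P - (A : ℂ) • P' = D (P - V) - (A : ℂ) • (P' - V') := by
    rw [map_sub, dV, smul_sub]
    abel
  have h1 : ‖D (P - V)‖ ≤ M * t :=
    (D.le_opNorm _).trans (mul_le_mul hD hV (norm_nonneg _) ((norm_nonneg _).trans hD))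
  have h2 : ‖(A : ℂ) • (P' - V')‖ ≤ L * t' := by
    rw [norm_smul, Complex.norm_real, Real.norm_of_nonneg hA0]
    exact mul_le_mul hA hV' (norm_nonneg _) (hA0.trans hA)
  rw [e]
  linarith [norm_sub_le (D (P - V)) ((A : ℂ) • (P' - V'))]

private theorem step_err {f : E → E} (hf : Differentiable ℂ f) {R M : ℝ}
    (h1 : ∀ x : E, ‖x‖ ≤ R + 1 → ‖fderiv ℂ f x‖ ≤ M)
    (h2 : ∀ x y : E, ‖x‖ ≤ R + 1 → ‖y‖ ≤ R + 1 → ‖f x - f y‖ ≤ M * ‖x - y‖)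
    (h3 : ∀ x y : E, ‖x‖ ≤ R + 1 → ‖y‖ ≤ R + 1 → ‖fderiv ℂ f x - fderiv ℂ f y‖ ≤ M * ‖x - y‖)
    {x V W V' W' P Q P' Q' : E} {c c' : Chart} {ρ ρ' t t' N A B L : ℝ} (hx : ‖x‖ ≤ R)
    (hρ : 0 < ρ) (hρ' : 0 < ρ') (htρ : t + 2 * ρ ≤ 1) (hN0 : 0 ≤ N)
    (hc : ∀ z, c.A z = (ρ : ℂ) • (z.1 • P + z.2 • Q))
    (hc' : ∀ z, c'.A z = (ρ' : ℂ) • (z.1 • P' + z.2 • Q'))
    (hP : ‖P‖ ≤ 1) (hQ : ‖Q‖ ≤ 1) (hp : ‖c.c - x‖ ≤ t) (hV : ‖P - V‖ ≤ t) (hW : ‖Q - W‖ ≤ t)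
    (hp' : ‖c'.c - f x‖ ≤ t') (hV' : ‖P' - V'‖ ≤ t') (hW' : ‖Q' - W'‖ ≤ t')
    (hN : ∀ z, ‖z‖ ≤ N * ‖c'.A z‖) (hA0 : 0 ≤ A) (hA : A ≤ L) (hB0 : 0 ≤ B) (hB : B ≤ 1)
    (dV : fderiv ℂ f x V = (A : ℂ) • V') (dW : fderiv ℂ f x W = (B : ℂ) • W') :
    ‖c'.co (f (c.pt 0))‖ ≤ N * (M * t + t') ∧ ∀ z ∈ D2, ∀ z' ∈ D2,
      ‖c'.co (f (c.pt z)) - c'.co (f (c.pt z')) -
        (((ρ / ρ' * A : ℝ) : ℂ) * (z - z').1, ((ρ / ρ' * B : ℝ) : ℂ) * (z - z').2)‖ ≤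
        N * (ρ * (4 * M * t + (L + 1) * t' + 4 * M * ρ)) * ‖z - z'‖ := by
  have hD := h1 x (by linarith)
  have hM : 0 ≤ M := (norm_nonneg _).trans hD
  have ht : 0 ≤ t := (norm_nonneg _).trans hp
  have hball : ∀ y : E, ‖y - x‖ ≤ t + 2 * ρ → ‖y‖ ≤ R + 1 := fun y hy => by
    linarith [norm_sub_norm_le y x]
  constructor
  · refine (hN _).trans (mul_le_mul_of_nonneg_left ?_ hN0)
    rw [Chart.co, ContinuousLinearEquiv.apply_symm_apply, Chart.pt, map_zero, add_zero]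
    have a := h2 c.c x (hball _ (by linarith)) (by linarith)
    have b := norm_sub_le (f c.c - f x) (c'.c - f x)
    rw [sub_sub_sub_cancel_right] at b
    linarith [mul_le_mul_of_nonneg_left hp hM]
  intro z hz z' hz'
  rw [mul_assoc]
  refine (hN _).trans (mul_le_mul_of_nonneg_left ?_ hN0)
  have hpt : ∀ z ∈ D2, c.pt z ∈ closedBall x (t + 2 * ρ) := fun z hz => by
    rw [mem_closedBall_iff_norm, Chart.pt, add_sub_right_comm]
    have a := chart_le hρ hc hP hQ z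
    have b : ‖z‖ ≤ 1 := mem_closedBall_zero_iff.1 hz
    nlinarith [norm_add_le (c.c - x) (c.A z)]
  have mv := (convex_closedBall x (t + 2 * ρ)).norm_image_sub_le_of_norm_fderiv_le'
    (𝕜 := ℂ) (f := f) (φ := fderiv ℂ f x) (C := M * (t + 2 * ρ)) (fun y _ => hf y)
    (fun y hy => (h3 y x (hball y (mem_closedBall_iff_norm.1 hy)) (by linarith)).trans
      (mul_le_mul_of_nonneg_left (mem_closedBall_iff_norm.1 hy) hM)) (hpt z' hz') (hpt z hz)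
  rw [Chart.pt_sub] at mv
  rw [Chart.co_sub, map_sub, ContinuousLinearEquiv.apply_symm_apply]
  set w := z - z'
  have e : f (c.pt z) - f (c.pt z') -
      c'.A (((ρ / ρ' * A : ℝ) : ℂ) * w.1, ((ρ / ρ' * B : ℝ) : ℂ) * w.2) =
      (f (c.pt z) - f (c.pt z') - fderiv ℂ f x (c.A w)) + (ρ : ℂ) •
        (w.1 • (fderiv ℂ f x P - (A : ℂ) • P') + w.2 • (fderiv ℂ f x Q - (B : ℂ) • Q')) := by
    have h0 : (ρ' : ℂ) ≠ 0 := Complex.ofReal_ne_zero.2 hρ'.ne'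
    rw [hc, hc', map_smul, map_add, map_smul, map_smul]
    have e1 : (ρ' : ℂ) * (((ρ / ρ' * A : ℝ) : ℂ) * w.1) = ρ * (w.1 * A) := by
      push_cast
      field_simp
    have e2 : (ρ' : ℂ) * (((ρ / ρ' * B : ℝ) : ℂ) * w.2) = ρ * (w.2 * B) := by
      push_cast
      field_simp
    simp only [smul_add, smul_sub, smul_smul, e1, e2]
    abel
  rw [e]
  refine (norm_add_le _ _).trans ?_
  rw [norm_smul, Complex.norm_real, Real.norm_of_nonneg hρ.le]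
  have a := comb_le (vec_err hD hV hV' hA0 hA dV) (vec_err hD hW hW' hB0 hB dW) w
  have b := mul_le_mul_of_nonneg_left (chart_le hρ hc hP hQ w)
    (show 0 ≤ M * (t + 2 * ρ) by positivity)
  have d := mul_le_mul_of_nonneg_left a hρ.le
  linarith

theorem good_of_segment {f : E → E} (hf : ContDiff ℂ 2 f) (R L K : ℝ) {χ D₀ : ℝ} (hχ : 0 < χ)
    (hD₀ : 0 < D₀) :
    ∃ κ θ D : ℝ, 0 < κ ∧ κ < 1 ∧ 0 < θ ∧ 0 < D ∧ D ≤ D₀ ∧ ∀ x₀ V₀ W₀ : E, ‖V₀‖ ≤ 1 → ‖W₀‖ ≤ 1 →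
      (∀ z : E, ‖z‖ ≤ K * ‖z.1 • V₀ + z.2 • W₀‖) →
      ∃ c : Chart, (∀ z ∈ D2, ‖c.pt z - x₀‖ ≤ 1) ∧ ∀ (n : ℕ) (x : E) (V W : ℕ → E), 0 < n →
        (∀ j ≤ n, ‖f^[j] x‖ ≤ R ∧ ‖V j‖ ≤ 1 ∧ ‖W j‖ ≤ 1 ∧ ∀ z : E,
          ‖z‖ ≤ K * Real.exp (χ / 2 * (min j (n - j) : ℕ)) * ‖z.1 • V j + z.2 • W j‖) →
        (∀ j < n, ∃ A B : ℝ, Real.exp χ ≤ A ∧ A ≤ L ∧ 0 ≤ B ∧ B ≤ Real.exp (-χ) ∧
          fderiv ℂ f (f^[j] x) (V j) = (A : ℂ) • V (j + 1) ∧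
          fderiv ℂ f (f^[j] x) (W j) = (B : ℂ) • W (j + 1)) →
        ‖x - x₀‖ ≤ θ → ‖V 0 - V₀‖ ≤ θ → ‖W 0 - W₀‖ ≤ θ →
        ‖f^[n] x - x₀‖ ≤ θ → ‖V n - V₀‖ ≤ θ → ‖W n - W₀‖ ≤ θ →
        ∃ T : E → E, IsGood f κ (χ / 2) D c n T ∧ x ∈ c.core T κ := by
  obtain ⟨M, hM, m1, m2, m3⟩ := exists_lip hf (R + 1)
  set ε := χ / 2 with hε
  have hε0 : 0 < ε := by positivity
  set e := Real.exp ε with he
  have he1 : 1 < e := Real.one_lt_exp_iff.2 hε0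
  have he0 : 0 < e := by linarith
  have hχe : Real.exp χ = e * e := by rw [he, ← Real.exp_add, hε, add_halves]
  have hl0 : 0 < e⁻¹ := inv_pos.2 he0
  have hl1 : e⁻¹ < 1 := inv_lt_one_of_one_lt₀ he1
  obtain ⟨δ, hδ⟩ : ∃ δ : ℝ, δ = (1 - e⁻¹) / 4 := ⟨_, rfl⟩
  obtain ⟨κ, hκ⟩ : ∃ κ : ℝ, κ = (1 + e⁻¹) / 2 := ⟨_, rfl⟩
  have hδ0 : 0 < δ := by linarith
  have hκ0 : 0 < κ := by linarith
  have hκ1 : κ < 1 := by linarith
  obtain ⟨K₁, hK0, hK⟩ : ∃ K₁ : ℝ, 0 < K₁ ∧ K ≤ K₁ :=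
    ⟨max K 1, lt_max_of_lt_right one_pos, le_max_left _ _⟩
  obtain ⟨L₁, hL0, hL⟩ : ∃ L₁ : ℝ, 0 < L₁ ∧ L ≤ L₁ :=
    ⟨max L 1, lt_max_of_lt_right one_pos, le_max_left _ _⟩
  have hM0 : 0 < M := by linarith
  obtain ⟨r, hr0, hr1, hr2, hr3⟩ : ∃ r : ℝ, 0 < r ∧ 2 * r ≤ D₀ ∧ 4 * r ≤ 1 ∧
      4 * M * (K₁ * e ^ 2 * r) ≤ δ / 2 := by
    refine ⟨min (min (D₀ / 2) (1 / 4)) (δ / 2 / (4 * M * (K₁ * e ^ 2))), by positivity, ?_, ?_, ?_⟩
    · linarith [min_le_left (min (D₀ / 2) (1 / 4)) (δ / 2 / (4 * M * (K₁ * e ^ 2))),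
        min_le_left (D₀ / 2) (1 / 4)]
    · linarith [min_le_left (min (D₀ / 2) (1 / 4)) (δ / 2 / (4 * M * (K₁ * e ^ 2))),
        min_le_right (D₀ / 2) (1 / 4)]
    · have := (le_div_iff₀ (by positivity)).1
        (min_le_right (min (D₀ / 2) (1 / 4)) (δ / 2 / (4 * M * (K₁ * e ^ 2))))
      linarith
  obtain ⟨θ, hθ0, hθ1, hθ2⟩ : ∃ θ : ℝ, 0 < θ ∧ θ ≤ 1 / 2 ∧
      (4 * M + L₁ + 1) * (K₁ * e ^ 2 / r * θ) ≤ δ / 2 := by
    refine ⟨min (1 / 2) (δ / 2 / ((4 * M + L₁ + 1) * (K₁ * e ^ 2 / r))), by positivity,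
      min_le_left _ _, ?_⟩
    have := (le_div_iff₀ (by positivity)).1
      (min_le_right (1 / 2) (δ / 2 / ((4 * M + L₁ + 1) * (K₁ * e ^ 2 / r))))
    linarith
  set τ := K₁ * e ^ 2 / r * θ with hτ
  have hτ0 : 0 < τ := by positivity
  have hτκ : τ ≤ κ := by nlinarith [mul_pos hM0 hτ0, mul_pos hL0 hτ0]
  refine ⟨κ, θ, 2 * r, hκ0, hκ1, hθ0, by positivity, hr1, fun x₀ V₀ W₀ hV₀ hW₀ h₀ => ?_⟩
  obtain ⟨c, hcc, hcA⟩ := chart_exists hr0 h₀ x₀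
  refine ⟨c, fun z hz => ?_, fun n x V W hn ho hd a0 a1 a2 b0 b1 b2 => ?_⟩
  · rw [Chart.pt, hcc, add_sub_cancel_left]
    have a := chart_le hr0 hcA hV₀ hW₀ z
    have b : ‖z‖ ≤ 1 := mem_closedBall_zero_iff.1 hz
    nlinarith
  obtain ⟨u, hu⟩ : ∃ u : ℕ → ℝ, ∀ j, u j = Real.exp (ε * (min j (n - j) : ℕ)) := ⟨_, fun _ => rfl⟩
  have hu1 : ∀ j, 1 ≤ u j := fun j => by
    rw [hu]
    exact Real.one_le_exp (by positivity)
  have hu0 : ∀ j, 0 < u j := fun j => one_pos.trans_le (hu1 j)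
  have hue : ∀ i j, min i (n - i) ≤ min j (n - j) + 1 → u i ≤ e * u j := fun i j h => by
    rw [hu, hu, he, ← Real.exp_add, Real.exp_le_exp]
    have : ((min i (n - i) : ℕ) : ℝ) ≤ (min j (n - j) : ℕ) + 1 := by exact_mod_cast h
    nlinarith
  have hend : ∀ j, j = 0 ∨ j = n → u j = 1 := fun j h => by
    rw [hu, show min j (n - j) = 0 by omega, Nat.cast_zero, mul_zero, Real.exp_zero]
  have hinv : ∀ (c' : Chart) (P Q : E) (s : ℝ), 0 < s →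
      (∀ z, c'.A z = ((r / s : ℝ) : ℂ) • (z.1 • P + z.2 • Q)) →
      (∀ z : E, ‖z‖ ≤ K * s * ‖z.1 • P + z.2 • Q‖) → ∀ z, ‖z‖ ≤ K₁ * s ^ 2 / r * ‖c'.A z‖ := by
    intro c' P Q s hs h1 h2 z
    rw [h1, norm_smul, Complex.norm_real, Real.norm_of_nonneg (by positivity), ← mul_assoc,
      show K₁ * s ^ 2 / r * (r / s) = K₁ * s by field_simp]
    exact (h2 z).trans (by gcongr)
  have key : ∀ j, ∃ (d : Chart) (P Q : E) (t : ℝ), j ≤ n → (j = 0 ∨ j = n → d = c) ∧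
      (t = 0 ∨ j = 0 ∨ j = n) ∧ 0 ≤ t ∧ t ≤ θ ∧
      (∀ z, d.A z = ((r / u j : ℝ) : ℂ) • (z.1 • P + z.2 • Q)) ∧ ‖P‖ ≤ 1 ∧ ‖Q‖ ≤ 1 ∧
      ‖d.c - f^[j] x‖ ≤ t ∧ ‖P - V j‖ ≤ t ∧ ‖Q - W j‖ ≤ t ∧
      ∀ z, ‖z‖ ≤ K₁ * u j ^ 2 / r * ‖d.A z‖ := by
    intro j
    by_cases hj : j = 0 ∨ j = n
    · have hA : ∀ z, c.A z = ((r / u j : ℝ) : ℂ) • (z.1 • V₀ + z.2 • W₀) := by
        rw [hend j hj, div_one]
        exact hcA
      refine ⟨c, V₀, W₀, θ, fun _ => ⟨fun _ => rfl, Or.inr hj, hθ0.le, le_rfl, hA, hV₀, hW₀, ?_, ?_,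
        ?_, hinv c V₀ W₀ _ (hu0 j) hA (by rw [hend j hj, mul_one]; exact h₀)⟩⟩
      · rw [hcc, norm_sub_rev]
        rcases hj with rfl | rfl
        exacts [a0, b0]
      · rw [norm_sub_rev]
        rcases hj with rfl | rfl
        exacts [a1, b1]
      · rw [norm_sub_rev]
        rcases hj with rfl | rfl
        exacts [a2, b2]
    · by_cases hjn : j ≤ n
      · obtain ⟨-, o1, o2, o3⟩ := ho j hjn
        rw [← hu] at o3
        obtain ⟨d, hdc, hdA⟩ := chart_exists (div_pos hr0 (hu0 j)) o3 (f^[j] x)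
        exact ⟨d, V j, W j, 0, fun _ => ⟨fun h => absurd h hj, Or.inl rfl, le_rfl, hθ0.le, hdA, o1,
          o2, by rw [hdc, sub_self, norm_zero], by rw [sub_self, norm_zero],
          by rw [sub_self, norm_zero], hinv d _ _ _ (hu0 j) hdA o3⟩⟩
      · exact ⟨c, 0, 0, 0, fun h => absurd h hjn⟩
  choose d P Q t key using key
  have hNt : ∀ i j, j ≤ n → min i (n - i) ≤ min j (n - j) + 1 → K₁ * u i ^ 2 / r * t j ≤ τ := by
    intro i j hj h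
    obtain ⟨-, k1, k2, k3, -⟩ := key j hj
    rcases k1 with k1 | k1
    · rw [k1, mul_zero]
      exact hτ0.le
    · have := hue i j h
      rw [hend j k1, mul_one] at this
      have := hu0 i
      rw [hτ]
      gcongr
  have hy : ∀ j ≤ n, ‖(d j).co (f^[j] x)‖ ≤ κ := by
    intro j hj
    obtain ⟨-, -, -, -, -, -, -, k1, -, -, k2⟩ := key j hj
    refine (k2 _).trans (le_trans ?_ ((hNt j j hj (Nat.le_succ _)).trans hτκ))
    rw [Chart.co, ContinuousLinearEquiv.apply_symm_apply, norm_sub_rev]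
    exact mul_le_mul_of_nonneg_left k1 (by positivity)
  have hyD : ∀ j ≤ n, (d j).co (f^[j] x) ∈ D2 := fun j hj =>
    mem_closedBall_zero_iff.2 ((hy j hj).trans hκ1.le)
  have step : ∀ i, ∃ T : E → E, i < n → IsCross κ f (d i) (d (i + 1)) T ∧
      T (((d (i + 1)).co (f^[i + 1] x)).1, ((d i).co (f^[i] x)).2) =
        (((d i).co (f^[i] x)).1, ((d (i + 1)).co (f^[i + 1] x)).2) := by
    intro i
    by_cases hi : i < n
    swap
    · exact ⟨id, fun h => absurd h hi⟩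
    obtain ⟨A, B, A1, A2, B1, B2, dV, dW⟩ := hd i hi
    obtain ⟨-, -, k0, k1, k2, k3, k4, k5, k6, k7, -⟩ := key i hi.le
    obtain ⟨-, -, l0, -, l2, -, -, l5, l6, l7, l8⟩ := key (i + 1) hi
    rw [Function.iterate_succ_apply'] at l5
    have hρ : r / u i ≤ r := div_le_self hr0.le (hu1 i)
    have hρ0 : 0 < r / u i := div_pos hr0 (hu0 i)
    have p0 := hu0 i
    have p1 := hu0 (i + 1)
    have q0 := hue i (i + 1) (by omega)
    have q1 := hue (i + 1) i (by omega)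
    have hA0 : 0 ≤ A := (Real.exp_pos χ).le.trans A1
    rw [Real.exp_neg, hχe] at B2
    rw [hχe] at A1
    obtain ⟨s1, s2⟩ := step_err (hf.differentiable (by norm_num)) m1 m2 m3 (ho i hi.le).1 hρ0
      (div_pos hr0 p1) (by linarith) (by positivity) k2 l2 k3 k4 k5 k6 k7 l5 l6 l7 l8 hA0
      (A2.trans hL) B1 (B2.trans (inv_le_one_of_one_le₀ (by nlinarith))) dV dW
    have n0 := hNt (i + 1) i hi.le (by omega)
    have n1 := hNt (i + 1) (i + 1) hi (by omega)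
    have n2 : K₁ * u (i + 1) ^ 2 / r * (r / u i * (r / u i)) ≤ K₁ * e ^ 2 * r := by
      have : u (i + 1) / u i ≤ e := (div_le_iff₀ p0).2 q1
      calc _ = K₁ * (u (i + 1) / u i) ^ 2 * r := by field_simp
        _ ≤ _ := by gcongr
    set N := K₁ * u (i + 1) ^ 2 / r
    have hN : 0 ≤ N := by positivity
    have hq : r / u i / (r / u (i + 1)) = u (i + 1) / u i := by field_simp
    rw [hq] at s2
    have w1 : 1 ≤ e⁻¹ * ‖((u (i + 1) / u i * A : ℝ) : ℂ)‖ := by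
      rw [Complex.norm_real, Real.norm_of_nonneg (by positivity), le_inv_mul_iff₀ he0, mul_one,
        div_mul_eq_mul_div, le_div_iff₀ p0]
      linarith [mul_le_mul_of_nonneg_left A1 p1.le, mul_le_mul_of_nonneg_left q0 he0.le]
    have w2 : ‖((u (i + 1) / u i * B : ℝ) : ℂ)‖ ≤ e⁻¹ := by
      rw [Complex.norm_real, Real.norm_of_nonneg (by positivity)]
      calc u (i + 1) / u i * B ≤ e * (e * e)⁻¹ :=
            mul_le_mul ((div_le_iff₀ p0).2 q1) B2 B1 he0.le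
        _ = e⁻¹ := by field_simp
    have w3 : N * (M * t i + t (i + 1)) ≤ δ := by
      linarith [mul_le_mul_of_nonneg_left n0 hM0.le, mul_pos hM0 hτ0, mul_pos hL0 hτ0]
    have w4 : N * (r / u i * (4 * M * t i + (L₁ + 1) * t (i + 1) + 4 * M * (r / u i))) ≤ δ := by
      have hρ1 : r / u i ≤ 1 := by linarith
      have c0 : r / u i * (N * t i) ≤ τ := (mul_le_of_le_one_left (by positivity) hρ1).trans n0
      have c1 : r / u i * (N * t (i + 1)) ≤ τ := (mul_le_of_le_one_left (by positivity) hρ1).trans n1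
      have c2 := mul_le_mul_of_nonneg_left c0 hM0.le
      have c3 := mul_le_mul_of_nonneg_left c1 (show 0 ≤ L₁ + 1 by linarith)
      have c4 := mul_le_mul_of_nonneg_left n2 hM0.le
      linarith
    obtain ⟨T, T1, T2, T3⟩ := exists_step (g := fun z => (d (i + 1)).co (f ((d i).pt z)))
      hl0 hδ0.le (show e⁻¹ + 2 * δ ≤ κ by linarith) hκ1 w1 w2 (s1.trans w3) fun z hz z' hz' =>
        (s2 z hz z' hz').trans (mul_le_mul_of_nonneg_right w4 (norm_nonneg _))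
    refine ⟨T, fun _ => ⟨⟨T1, fun b hb => ?_⟩, ?_⟩⟩
    · rw [← T2 b hb, Chart.pt_co, Chart.start]
    · have := T3 _ (hyD i hi.le)
      simp only [Chart.pt_co, ← Function.iterate_succ_apply' f] at this
      exact this (hyD (i + 1) hi)
  choose T hT using step
  obtain ⟨T', z, c1, c2⟩ := exists_comp (F := fun _ => f) (χ := d) (Φ := fun i => f^[i]) hκ1 hn
    (fun i hi => (hT i hi).1) (fun _ => rfl) fun i _ y => Function.iterate_succ_apply' f i y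
  have d0 : d 0 = c := (key 0 hn.le).1 (Or.inl rfl)
  have dn : d n = c := (key n le_rfl).1 (Or.inr rfl)
  have hcon : ∀ i < n, IsCon κ (T i) := fun i hi => (hT i hi).1.con
  have hpow : ∀ k : ℕ, κ ^ k ≤ 1 := fun k => pow_le_one₀ hκ0.le hκ1.le
  rw [d0] at c2
  rw [d0, dn] at c1
  refine ⟨T', ⟨c1, fun b hb b' hb' j hj => ?_⟩, ?_⟩
  · obtain ⟨e1, e2, e3, e4⟩ := c2 b hb
    obtain ⟨e1', e2', e3', e4'⟩ := c2 b' hb'
    obtain ⟨-, -, -, -, k2, k3, k4, -⟩ := key j hj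
    obtain ⟨g1, g2⟩ := chain_est hκ0.le hκ1 hcon e1 e1' j hj
    rw [e2, e3, e2', e3'] at g1 g2
    have v1 : ∀ k : ℕ, κ ^ k * ‖b.1 - b'.1‖ ≤ ‖b - b'‖ := fun k =>
      (mul_le_of_le_one_left (norm_nonneg _) (hpow k)).trans (norm_fst_le (b - b'))
    have v2 : ∀ k : ℕ, κ ^ k * ‖b.2 - b'.2‖ ≤ ‖b - b'‖ := fun k =>
      (mul_le_of_le_one_left (norm_nonneg _) (hpow k)).trans (norm_snd_le (b - b'))
    have g : ‖z b j - z b' j‖ ≤ ‖b - b'‖ :=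
      max_le (g1.trans (max_le (v1 _) (v2 _))) (g2.trans (max_le (v2 _) (v1 _)))
    rw [e4 j hj, e4' j hj, Chart.pt_sub, Real.exp_neg, ← hu, mul_assoc 2, ← div_eq_mul_inv]
    have := hu0 j
    exact (chart_le (div_pos hr0 this) k2 k3 k4 _).trans
      (mul_le_mul_of_nonneg_left g (by positivity))
  · have hb : ‖((((d n).co (f^[n] x)).1, ((d 0).co (f^[0] x)).2) : E)‖ ≤ κ :=
      max_le ((norm_fst_le ((d n).co (f^[n] x))).trans (hy n le_rfl))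
        ((norm_snd_le ((d 0).co (f^[0] x))).trans (hy 0 hn.le))
    refine ⟨_, mem_closedBall_zero_iff.2 hb, ?_⟩
    obtain ⟨e1, e2, e3, -⟩ := c2 _ (mem_closedBall_zero_iff.2 (hb.trans hκ1.le))
    have hch : IsChain T n fun j => (d j).co (f^[j] x) := ⟨hyD, fun i hi => (hT i hi).2⟩
    have g := (chain_est hκ0.le hκ1 hcon e1 hch 0 hn.le).1
    rw [e2, e3] at g
    simp only [sub_self, norm_zero, mul_zero, max_self, norm_le_zero_iff, sub_eq_zero] at g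
    rw [Chart.start, g, d0]
    exact c.pt_co x

end Pool.Agent.P.MP_eeb913_an.U
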