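import Mathlib
import Pool.Agent.P.MP_eeb913_an.U.Basic

/-!
Lifting an invariant measure to the unit sphere bundle of a linear cocycle.

Sketch. H (y, v) = (G y, A y v / ‖A y v‖), with inverse
(y, v) ↦ (G.symm y, A' (G.symm y) v / ‖A' (G.symm y) v‖); both are continuous since A y v ≠ 0.
By induction coc G A n y v = (∏ of the norms) • (H^[n] (y, v)).2, so
log ‖coc G A n y v‖ = birkhoffSum H (fun p => log ‖A p.1 p.2‖) n (y, v).
In the sup norm ‖M‖ ≤ ‖M e₁‖ + ‖M e₂‖, so for the n of the hypothesis there are e ∈ {e₁, e₂} and the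
measurable set S n = {y | exp (n b) / 2 < ‖coc G A n y e‖} with m.real (S n) ≥ c / 2. Let
m n = n⁻¹ • ∑_{j < n} ((m.restrict (S n)).map (fun y => (y, e))).map H^[j], finite measures of mass
m (S n) ≤ m univ; ∫ log ‖A p.1 p.2‖ dm n ≥ mass * (b - log 2 / n); (m n).map fst ≤ m by invariance.
Take a limit m' in FiniteMeasure along an ultrafilter
(isCompact_setOfPred_finiteMeasure_le_of_compactSpace). Mass and the integral of the continuous
function converge; invariance as usual; m'.map fst ≤ m: ∫ u d(m'.map fst) ≤ ∫ u dm for continuous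
u ≥ 0, so the inequality holds on closed or on open sets and then on measurable sets by regularity.
-/

namespace Pool.Agent.P.MP_eeb913_an.U

open MeasureTheory Filter Metric Set
open scoped ENNReal NNReal Topology

section General

variable {X Y : Type} [MetricSpace X] [CompactSpace X] [MeasurableSpace X] [BorelSpace X]
  [MetricSpace Y] [CompactSpace Y] [MeasurableSpace Y] [BorelSpace Y]

theorem lift_integrable {u : X → ℝ} (hu : Continuous u) (μ : Measure X) [IsFiniteMeasure μ] :
    Integrable u μ :=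
  (BoundedContinuousFunction.mkOfCompact (⟨u, hu⟩ : C(X, ℝ))).integrable μ

theorem lift_le_of_integral {μ m : Measure Y} [IsFiniteMeasure μ] [IsFiniteMeasure m]
    (h : ∀ u : Y → ℝ, Continuous u → (∀ y, 0 ≤ u y) → ∫ y, u y ∂μ ≤ ∫ y, u y ∂m) : μ ≤ m := by
  have hF : ∀ F : Set Y, IsClosed F → μ F ≤ m F := fun F hF => by
    refine le_of_tendsto_of_tendsto' (HasOuterApproxClosed.tendsto_lintegral_apprSeq hF μ)
      (HasOuterApproxClosed.tendsto_lintegral_apprSeq hF m) fun n => ?_
    rw [← ENNReal.toReal_le_toReal ((hF.apprSeq n).lintegral_lt_top_of_nnreal μ).ne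
      ((hF.apprSeq n).lintegral_lt_top_of_nnreal m).ne,
      BoundedContinuousFunction.toReal_lintegral_coe_eq_integral,
      BoundedContinuousFunction.toReal_lintegral_coe_eq_integral]
    exact h _ (NNReal.continuous_coe.comp (hF.apprSeq n).continuous) fun y => NNReal.coe_nonneg _
  refine Measure.le_iff.2 fun s hs => ?_
  rw [hs.measure_eq_iSup_isClosed_of_ne_top (measure_ne_top μ s)]
  exact iSup_le fun K => iSup_le fun hK => iSup_le fun hc => (hF K hc).trans (measure_mono hK)

omit [CompactSpace X] [MeasurableSpace X] [BorelSpace X] in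
theorem lift_birk_cont {H : X → X} (hH : Continuous H) {u : X → ℝ} (hu : Continuous u) (n : ℕ) :
    Continuous (birkhoffSum H u n) := by
  unfold birkhoffSum
  exact continuous_finsetSum _ fun j _ => hu.comp (hH.iterate j)

theorem lift_integral_birk {H : X → X} (hH : Continuous H) {u : X → ℝ} (hu : Continuous u)
    (n : ℕ) (ν : Measure X) [IsFiniteMeasure ν] :
    ∫ x, birkhoffSum H u n x ∂ν = ∑ j ∈ Finset.range n, ∫ x, u (H^[j] x) ∂ν := by
  unfold birkhoffSum
  exact integral_finsetSum _ fun j _ => lift_integrable (hu.comp (hH.iterate j)) ν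

theorem lift_avg {H : X → X} (hH : Continuous H) (n : ℕ) (ν : Measure X) [IsFiniteMeasure ν] :
    ∃ μ : FiniteMeasure X, ∀ u : X → ℝ, Continuous u →
      ∫ x, u x ∂(μ : Measure X) = (n : ℝ)⁻¹ * ∫ x, birkhoffSum H u n x ∂ν := by
  refine ⟨⟨(n : ℝ≥0)⁻¹ • ∑ j ∈ Finset.range n, ν.map H^[j], inferInstance⟩, fun u hu => ?_⟩
  change ∫ x, u x ∂((n : ℝ≥0)⁻¹ • ∑ j ∈ Finset.range n, ν.map H^[j]) = _
  rw [integral_smul_nnreal_measure, integral_finsetSum_measure fun j _ => lift_integrable hu _,
    lift_integral_birk hH hu]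
  rw [NNReal.smul_def, smul_eq_mul, NNReal.coe_inv, NNReal.coe_natCast]
  congr 1
  refine Finset.sum_congr rfl fun j _ => ?_
  exact integral_map (hH.iterate j).measurable.aemeasurable hu.aestronglyMeasurable

theorem lift_limit {H : X → X} (hH : Continuous H) {G : Y → Y} (hG : Continuous G) {π : X → Y}
    (hπ : Continuous π) (hs : ∀ x, π (H x) = G (π x)) (m : Measure Y) [IsFiniteMeasure m]
    (hm : MeasurePreserving G m m) {φ : X → ℝ} (hφ : Continuous φ) (b c K : ℝ)
    (h : ∃ᶠ n : ℕ in atTop, ∃ ν : FiniteMeasure X, (ν : Measure X).map π ≤ m ∧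
      c ≤ (ν : Measure X).real univ ∧
      (n * b - K) * (ν : Measure X).real univ ≤ ∫ x, birkhoffSum H φ n x ∂(ν : Measure X)) :
    ∃ m' : Measure X, IsFiniteMeasure m' ∧ MeasurePreserving H m' m' ∧ m'.map π ≤ m ∧
      c ≤ m'.real univ ∧ b * m'.real univ ≤ ∫ x, φ x ∂m' := by
  classical
  set P : ℕ → FiniteMeasure X → Prop := fun n ν => (ν : Measure X).map π ≤ m ∧
      c ≤ (ν : Measure X).real univ ∧
      (n * b - K) * (ν : Measure X).real univ ≤ ∫ x, birkhoffSum H φ n x ∂(ν : Measure X)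
    with hP
  have hch : ∀ n : ℕ, ∃ ν : FiniteMeasure X, (∃ ν, P n ν) → P n ν := fun n => by
    by_cases hn : ∃ ν, P n ν
    · exact ⟨hn.choose, fun _ => hn.choose_spec⟩
    · exact ⟨0, fun h => absurd h hn⟩
  choose ν hν using hch
  have hne : (atTop ⊓ 𝓟 {n : ℕ | ∃ ν, P n ν}).NeBot := frequently_iff_neBot.1 h
  set U : Ultrafilter ℕ := Ultrafilter.of (atTop ⊓ 𝓟 {n : ℕ | ∃ ν, P n ν}) with hU
  have hU1 : (U : Filter ℕ) ≤ atTop := (Ultrafilter.of_le _).trans inf_le_left
  have hU2 : ∀ᶠ n in (U : Filter ℕ), P n (ν n) := by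
    have : (U : Filter ℕ) ≤ 𝓟 {n : ℕ | ∃ ν, P n ν} := (Ultrafilter.of_le _).trans inf_le_right
    exact mem_of_superset (le_principal_iff.1 this) fun n hn => hν n hn
  have hU3 : ∀ᶠ n : ℕ in (U : Filter ℕ), (0 : ℝ) < n :=
    hU1 ((eventually_gt_atTop 0).mono fun n hn => Nat.cast_pos.2 hn)
  choose μ hμ using fun n => lift_avg hH n (ν n : Measure X)
  have hmass : ∀ n : ℕ, (0 : ℝ) < n → (μ n : Measure X).real univ = (ν n : Measure X).real univ :=
    fun n hn => by
      have := hμ n (fun _ => 1) continuous_const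
      rw [lift_integral_birk hH continuous_const] at this
      simp only [integral_const, smul_eq_mul, mul_one, Finset.sum_const, Finset.card_range,
        nsmul_eq_mul] at this
      rw [this, inv_mul_cancel_left₀ hn.ne']
  have hνm : ∀ n, P n (ν n) → (ν n : Measure X).real univ ≤ m.real univ := fun n hn => by
    have h1 := hn.1 univ
    rw [Measure.map_apply hπ.measurable MeasurableSet.univ, preimage_univ] at h1
    exact ENNReal.toReal_mono (measure_ne_top _ _) h1
  obtain ⟨m', -, hm'⟩ := (isCompact_setOfPred_finiteMeasure_le_of_compactSpace X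
    (m.real univ).toNNReal).ultrafilter_le_nhds (U.map μ) (by
      rw [le_principal_iff, Ultrafilter.coe_map, mem_map]
      filter_upwards [hU2, hU3] with n h2 h3
      change (μ n).mass ≤ _
      rw [Real.le_toNNReal_iff_coe_le measureReal_nonneg]
      refine le_trans (le_of_eq ?_) ((hmass n h3).le.trans (hνm n h2))
      rw [FiniteMeasure.mass, measureReal_def, ← FiniteMeasure.ennreal_coeFn_eq_coeFn_toMeasure,
        ENNReal.coe_toReal])
  have hlim : ∀ u : X → ℝ, Continuous u →
      Tendsto (fun n => ∫ x, u x ∂(μ n : Measure X)) U (𝓝 (∫ x, u x ∂(m' : Measure X))) :=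
    fun u hu => FiniteMeasure.tendsto_iff_forall_integral_tendsto.1 hm'
      (BoundedContinuousFunction.mkOfCompact (⟨u, hu⟩ : C(X, ℝ)))
  have hlm : Tendsto (fun n => (μ n : Measure X).real univ) U (𝓝 ((m' : Measure X).real univ)) := by
    simpa using hlim (fun _ => 1) continuous_const
  have hinv : Tendsto (fun n : ℕ => (n : ℝ)⁻¹) U (𝓝 0) :=
    tendsto_inv_atTop_nhds_zero_nat.mono_left hU1
  refine ⟨m', inferInstance, ⟨hH.measurable, ?_⟩, ?_, ?_, ?_⟩
  · refine ext_of_forall_integral_eq_of_IsFiniteMeasure fun f => ?_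
    rw [integral_map hH.measurable.aemeasurable f.continuous.aestronglyMeasurable]
    have hfH : Continuous fun x => f (H x) := f.continuous.comp hH
    have h1 := (hlim _ hfH).sub (hlim f f.continuous)
    have h2 : Tendsto (fun n => ∫ x, f (H x) ∂(μ n : Measure X) - ∫ x, f x ∂(μ n : Measure X)) U
        (𝓝 0) := by
      refine squeeze_zero_norm' (a := fun n : ℕ => (n : ℝ)⁻¹ * (2 * ‖f‖ * m.real univ)) ?_
        (by simpa using hinv.mul_const (2 * ‖f‖ * m.real univ))
      filter_upwards [hU2, hU3] with n h2 h3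
      rw [hμ n _ hfH, hμ n _ f.continuous, ← mul_sub, ← integral_sub
        (lift_integrable (lift_birk_cont hH hfH n) _)
        (lift_integrable (lift_birk_cont hH f.continuous n) _), norm_mul, Real.norm_eq_abs,
        abs_of_pos (inv_pos.2 h3)]
      refine mul_le_mul_of_nonneg_left ?_ (inv_pos.2 h3).le
      refine (norm_integral_le_of_norm_le_const (C := 2 * ‖f‖) (.of_forall fun x => ?_)).trans
        (mul_le_mul_of_nonneg_left (hνm n h2) (by positivity))
      have e : birkhoffSum H (fun x => f (H x)) n x = birkhoffSum H f n (H x) := by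
        unfold birkhoffSum
        refine Finset.sum_congr rfl fun j _ => ?_
        rw [← Function.iterate_succ_apply, Function.iterate_succ_apply']
      rw [e, birkhoffSum_apply_sub_birkhoffSum]
      linarith [norm_sub_le (f (H^[n] x)) (f x), f.norm_coe_le_norm (H^[n] x),
        f.norm_coe_le_norm x]
    exact sub_eq_zero.1 (tendsto_nhds_unique h1 h2)
  · refine lift_le_of_integral fun u hu hu0 => ?_
    rw [integral_map hπ.measurable.aemeasurable hu.aestronglyMeasurable]
    have huπ : Continuous fun x => u (π x) := hu.comp hπ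
    refine le_of_tendsto (hlim _ huπ) ?_
    filter_upwards [hU2, hU3] with n h2 h3
    rw [hμ n _ huπ, lift_integral_birk hH huπ, inv_mul_le_iff₀ h3]
    have e : ∀ j ∈ Finset.range n,
        ∫ x, u (π (H^[j] x)) ∂(ν n : Measure X) ≤ ∫ y, u y ∂m := fun j _ => by
      have e1 : ∀ x, π (H^[j] x) = G^[j] (π x) :=
        Function.Semiconj.iterate_right (f := π) (ga := H) (gb := G) hs j
      have hc : Continuous fun y => u (G^[j] y) := hu.comp (hG.iterate j)
      simp only [e1]
      rw [← integral_map (f := fun y => u (G^[j] y)) hπ.measurable.aemeasurable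
        hc.aestronglyMeasurable]
      refine (integral_mono_measure h2.1 (.of_forall fun y => hu0 _) (lift_integrable hc m)).trans
        (le_of_eq ?_)
      rw [← integral_map (hG.iterate j).measurable.aemeasurable hu.aestronglyMeasurable,
        (hm.iterate j).map_eq]
    simpa using Finset.sum_le_sum e
  · refine ge_of_tendsto hlm ?_
    filter_upwards [hU2, hU3] with n h2 h3
    rw [hmass n h3]
    exact h2.2.1
  · have h1 : Tendsto (fun n : ℕ => (b - (n : ℝ)⁻¹ * K) * (μ n : Measure X).real univ) U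
        (𝓝 (b * (m' : Measure X).real univ)) := by
      simpa using ((hinv.mul_const K).const_sub b).mul hlm
    refine le_of_tendsto_of_tendsto h1 (hlim φ hφ) ?_
    filter_upwards [hU2, hU3] with n h2 h3
    rw [hμ n φ hφ, hmass n h3, le_inv_mul_iff₀ h3, ← mul_assoc, mul_sub,
      mul_inv_cancel_left₀ h3.ne']
    exact h2.2.2

end General

/-- The action of a cocycle on the unit sphere bundle. -/
noncomputable def lft {Y : Type} (G : Y → Y) (A : Y → E →L[ℂ] E)
    (hA : ∀ y v, A y v = 0 → v = 0) (p : Y × sphere (0 : E) 1) : Y × sphere (0 : E) 1 :=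
  (G p.1, ⟨((‖A p.1 p.2‖ : ℝ) : ℂ)⁻¹ • A p.1 p.2, by
    have h : ‖A p.1 p.2‖ ≠ 0 := fun h => ne_zero_of_mem_unit_sphere p.2 (hA _ _ (norm_eq_zero.1 h))
    rw [mem_sphere_zero_iff_norm, norm_smul, norm_inv, Complex.norm_real, norm_norm,
      inv_mul_cancel₀ h]⟩)

theorem lft_pos {Y : Type} {A : Y → E →L[ℂ] E} (hA : ∀ y v, A y v = 0 → v = 0)
    (p : Y × sphere (0 : E) 1) : 0 < ‖A p.1 p.2‖ :=
  norm_pos_iff.2 fun h => ne_zero_of_mem_unit_sphere p.2 (hA _ _ h)

theorem lft_spec {Y : Type} (G : Y → Y) {A : Y → E →L[ℂ] E} (hA : ∀ y v, A y v = 0 → v = 0)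
    (p : Y × sphere (0 : E) 1) :
    A p.1 p.2 = ((‖A p.1 p.2‖ : ℝ) : ℂ) • ((lft G A hA p).2 : E) :=
  (smul_inv_smul₀ (Complex.ofReal_ne_zero.2 (lft_pos hA p).ne') _).symm

theorem lft_lft {Y : Type} {G G' : Y → Y} {A B : Y → E →L[ℂ] E} (hA : ∀ y v, A y v = 0 → v = 0)
    (hB : ∀ y v, B y v = 0 → v = 0) (hG : ∀ y, G' (G y) = y) (h : ∀ y v, B (G y) (A y v) = v)
    (p : Y × sphere (0 : E) 1) : lft G' B hB (lft G A hA p) = p := by
  refine Prod.ext (hG _) (Subtype.ext ?_)
  have h0 : ((‖A p.1 p.2‖ : ℝ) : ℂ) ≠ 0 := Complex.ofReal_ne_zero.2 (lft_pos hA p).ne'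
  have e : B (lft G A hA p).1 (lft G A hA p).2 = ((‖A p.1 p.2‖ : ℝ) : ℂ)⁻¹ • (p.2 : E) := by
    change B (G p.1) (((‖A p.1 p.2‖ : ℝ) : ℂ)⁻¹ • A p.1 p.2) = _
    rw [map_smul, h]
  change ((‖B (lft G A hA p).1 (lft G A hA p).2‖ : ℝ) : ℂ)⁻¹ •
    B (lft G A hA p).1 (lft G A hA p).2 = _
  rw [e, norm_smul, norm_inv, Complex.norm_real, norm_norm, norm_eq_of_mem_sphere, mul_one,
    Complex.ofReal_inv, inv_smul_smul₀ (inv_ne_zero h0)]

theorem lft_cont {Y : Type} [TopologicalSpace Y] {G : Y → Y} (hG : Continuous G)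
    {A : Y → E →L[ℂ] E} (hc : Continuous A) (hA : ∀ y v, A y v = 0 → v = 0) :
    Continuous (lft G A hA) := by
  have h : Continuous fun p : Y × sphere (0 : E) 1 => A p.1 p.2 :=
    (hc.comp continuous_fst).clm_apply (continuous_subtype_val.comp continuous_snd)
  refine (hG.comp continuous_fst).prodMk (Continuous.subtype_mk ?_ _)
  exact ((Complex.continuous_ofReal.comp h.norm).inv₀ fun p =>
    Complex.ofReal_ne_zero.2 (lft_pos hA p).ne').smul h

theorem lft_coc {Y : Type} (G : Y → Y) {A : Y → E →L[ℂ] E} (hA : ∀ y v, A y v = 0 → v = 0)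
    (n : ℕ) (p : Y × sphere (0 : E) 1) :
    coc G A n p.1 p.2 = ((Real.exp (birkhoffSum (lft G A hA)
      (fun q => Real.log ‖A q.1 q.2‖) n p) : ℝ) : ℂ) • (((lft G A hA)^[n] p).2 : E) := by
  induction n with
  | zero => simp [coc]
  | succ n ih =>
    have e1 : ((lft G A hA)^[n] p).1 = G^[n] p.1 :=
      Function.Semiconj.iterate_right (f := Prod.fst) (ga := lft G A hA) (gb := G)
        (fun _ => rfl) n p
    rw [coc, ContinuousLinearMap.comp_apply, ih, map_smul, ← e1, lft_spec G hA,
      birkhoffSum_succ, Real.exp_add, Real.exp_log (lft_pos hA _), smul_smul,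
      Function.iterate_succ_apply', Complex.ofReal_mul]

theorem lft_norm_le (M : E →L[ℂ] E) : ‖M‖ ≤ ‖M (1, 0)‖ + ‖M (0, 1)‖ := by
  refine M.opNorm_le_bound (by positivity) fun v => ?_
  have e : v = v.1 • ((1, 0) : E) + v.2 • ((0, 1) : E) := by simp
  calc ‖M v‖ = ‖v.1 • M (1, 0) + v.2 • M (0, 1)‖ := by
        rw [← map_smul, ← map_smul, ← map_add, ← e]
    _ ≤ ‖v.1‖ * ‖M (1, 0)‖ + ‖v.2‖ * ‖M (0, 1)‖ := by
        rw [← norm_smul, ← norm_smul]; exact norm_add_le _ _
    _ ≤ ‖v‖ * ‖M (1, 0)‖ + ‖v‖ * ‖M (0, 1)‖ := by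
        gcongr
        exacts [norm_fst_le v, norm_snd_le v]
    _ = _ := by ring

theorem exists_lift {Y : Type} [MetricSpace Y] [CompactSpace Y] [MeasurableSpace Y] [BorelSpace Y]
    (G : Y ≃ₜ Y) (A A' : Y → E →L[ℂ] E) (hA : Continuous A) (hA' : Continuous A')
    (h1 : ∀ y v, A' y (A y v) = v) (h2 : ∀ y v, A y (A' y v) = v) :
    ∃ H : (Y × sphere (0 : E) 1) ≃ₜ (Y × sphere (0 : E) 1), (∀ p, (H p).1 = G p.1) ∧
      (∀ p : Y × sphere (0 : E) 1, A p.1 p.2 = ((‖A p.1 p.2‖ : ℝ) : ℂ) • ((H p).2 : E)) ∧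
      ∀ (m : Measure Y) [IsFiniteMeasure m], MeasurePreserving G m m → ∀ b c : ℝ, 0 < c →
        (∃ᶠ n : ℕ in atTop, c ≤ m.real {y | Real.exp (n * b) < ‖coc G A n y‖}) →
        ∃ m' : Measure (Y × sphere (0 : E) 1), IsFiniteMeasure m' ∧ MeasurePreserving H m' m' ∧
          m'.map Prod.fst ≤ m ∧ c / 2 ≤ m'.real univ ∧
          b * m'.real univ ≤ ∫ p, Real.log ‖A p.1 p.2‖ ∂m' := by
  have hA0 : ∀ y v, A y v = 0 → v = 0 := fun y v h => by rw [← h1 y v, h, map_zero]
  have hB0 : ∀ y v, A' (G.symm y) v = 0 → v = 0 := fun y v h => by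
    rw [← h2 (G.symm y) v, h, map_zero]
  have hc := lft_cont G.continuous hA hA0
  refine ⟨⟨⟨lft G A hA0, lft G.symm (fun y => A' (G.symm y)) hB0,
    lft_lft hA0 hB0 G.symm_apply_apply fun y v => by rw [G.symm_apply_apply, h1],
    lft_lft hB0 hA0 G.apply_symm_apply fun y v => h2 _ v⟩, hc,
    lft_cont G.symm.continuous (hA'.comp G.symm.continuous) hB0⟩, fun _ => rfl,
    lft_spec G hA0, fun m _ hm b c _ hb => ?_⟩
  set φ : Y × sphere (0 : E) 1 → ℝ := fun q => Real.log ‖A q.1 q.2‖ with hφ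
  have hφc : Continuous φ :=
    ((hA.comp continuous_fst).clm_apply (continuous_subtype_val.comp continuous_snd)).norm.log
      fun p => (lft_pos hA0 p).ne'
  refine lift_limit hc G.continuous continuous_fst (fun _ => rfl) m hm hφc b (c / 2)
    (Real.log 2) (hb.mono fun n hn => ?_)
  set S : sphere (0 : E) 1 → Set Y := fun e =>
    {y | n * b - Real.log 2 ≤ birkhoffSum (lft G A hA0) φ n (y, e)} with hS
  have hbc : ∀ e : sphere (0 : E) 1,
      Continuous fun y => birkhoffSum (lft G A hA0) φ n (y, e) := fun e =>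
    (lift_birk_cont hc hφc n).comp (continuous_id.prodMk continuous_const)
  have hSm : ∀ e, MeasurableSet (S e) := fun e =>
    (isClosed_le continuous_const (hbc e)).measurableSet
  have hex : ∃ e, c / 2 ≤ m.real (S e) := by
    set e1 : sphere (0 : E) 1 := ⟨(1, 0), by simp⟩ with he1
    set e2 : sphere (0 : E) 1 := ⟨(0, 1), by simp⟩ with he2
    have hlt : ∀ e y, y ∉ S e → ‖coc G A n y e‖ < Real.exp (n * b) / 2 := fun e y hy => by
      have e0 := lft_coc G hA0 n (y, e)
      dsimp only at e0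
      rw [e0, norm_smul, norm_eq_of_mem_sphere, mul_one, Complex.norm_real, Real.norm_eq_abs,
        abs_of_pos (Real.exp_pos _), ← Real.exp_log (show (0 : ℝ) < 2 by norm_num),
        ← Real.exp_sub]
      exact Real.exp_lt_exp.2 (not_le.1 hy)
    have hsub : {y | Real.exp (n * b) < ‖coc G A n y‖} ⊆ S e1 ∪ S e2 := fun y hy => by
      by_contra hcon
      rw [mem_union, not_or] at hcon
      have a1 : ‖coc G A n y (1, 0)‖ < _ := hlt e1 y hcon.1
      have a2 : ‖coc G A n y (0, 1)‖ < _ := hlt e2 y hcon.2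
      have a3 := lft_norm_le (coc G A n y)
      have a4 : Real.exp (n * b) < ‖coc G A n y‖ := hy
      linarith
    have h3 := (hn.trans (measureReal_mono hsub)).trans (measureReal_union_le _ _)
    by_contra hcon
    have a1 := not_le.1 fun h => hcon ⟨e1, h⟩
    have a2 := not_le.1 fun h => hcon ⟨e2, h⟩
    linarith
  obtain ⟨e, he⟩ := hex
  have hme : Measurable fun y : Y => (y, e) := measurable_prodMk_right
  have hr : ((m.restrict (S e)).map fun y : Y => (y, e)).real univ = m.real (S e) := by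
    rw [measureReal_def, Measure.map_apply hme MeasurableSet.univ, preimage_univ,
      Measure.restrict_apply_univ, measureReal_def]
  refine ⟨⟨(m.restrict (S e)).map fun y => (y, e), inferInstance⟩, ?_, ?_, ?_⟩
  · change ((m.restrict (S e)).map fun y : Y => (y, e)).map Prod.fst ≤ m
    rw [Measure.map_map measurable_fst hme]
    exact (le_of_eq Measure.map_id).trans Measure.restrict_le_self
  · exact he.trans hr.ge
  · change _ * ((m.restrict (S e)).map fun y : Y => (y, e)).real univ ≤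
      ∫ x, _ ∂((m.restrict (S e)).map fun y : Y => (y, e))
    rw [hr, integral_map hme.aemeasurable (lift_birk_cont hc hφc n).aestronglyMeasurable]
    exact setIntegral_ge_of_const_le_real (hSm e) (measure_ne_top _ _) (fun y hy => hy)
      (lift_integrable (hbc e) m).integrableOn

end Pool.Agent.P.MP_eeb913_an.U
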