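import Mathlib
import Pool.Agent.P.MP_eeb913_an.U.Basic
import Pool.Agent.P.MP_eeb913_an.Entropy

/-!
A general coding bound for the entropy of the names of a partition.

Sketch (compare join_entropy_le in Entropy.lean). Choose p ∈ (0, 1/2) with
p log (1 / p) + log (1 / (1 - p)) + p log k ≤ ε, and B, δ from exists_good_set of Entropy.lean with
ν.real B ≤ p. For y ∈ Γ the extended code is (c y, the set Bs y of t < N with f^[t] (π y) ∈ B, the
labels α (f^[t] (π y)) for t < N in U (c y) ∪ Bs y); it determines the name of π y. Give the extended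
code (a, s, labels) the weight q a * p^|s| (1-p)^(N-|s|) * k^(-|(U a ∩ range N) ∪ s|); these weights
sum to at most 1. For a name τ let q' τ be the sum (or the supremum over y ∈ Γ with name τ) of the
weights of the realised extended codes with name τ: ∑ q' ≤ 1 and q' (name y) ≥ weight y > 0. Names of
positive measure are realised by some y ∈ Γ. The Gibbs inequality (a version of gibbs_fin that asks
positivity of q' only where p > 0) gives H ≤ ∑ p τ (- log q' τ) = ∫ - log q' (name (π y)) dm, and
pointwise on Γ this is ≤ g y + |Bs y| (log (1 / p) + log k) + N log (1 / (1 - p)), with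
∫ |Bs y| dm = N ν B ≤ N p. No measurability of c or Γ is needed.
-/

namespace Pool.Agent.P.MP_eeb913_an.U

open MeasureTheory Filter Metric Set
open scoped ENNReal NNReal Topology

theorem coding_bound {f : E → E} {ν : Measure E} [IsProbabilityMeasure ν]
    (hf : MeasurePreserving f ν ν) {k : ℕ} (α : E → Fin k) (hα : Measurable α) {ε : ℝ}
    (hε : 0 < ε) :
    ∃ δ : ℝ, 0 < δ ∧ ∀ (N : ℕ) (Y : Type) [MeasurableSpace Y] (m : Measure Y)
      [IsProbabilityMeasure m] (π : Y → E), Measurable π → m.map π = ν →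
      ∀ (κ : Type) (C : Finset κ) (c : Y → κ) (q : κ → ℝ) (U : κ → Finset ℕ) (Γ : Set Y)
        (g : Y → ℝ), (∀ᵐ y ∂m, y ∈ Γ) → (∀ y ∈ Γ, c y ∈ C) → (∀ a ∈ C, 0 ≤ q a) →
        ∑ a ∈ C, q a ≤ 1 → (∀ y ∈ Γ, 0 < q (c y)) →
        (∀ y ∈ Γ, ∀ y' ∈ Γ, c y = c y' → ∀ t < N, t ∉ U (c y) →
          ‖f^[t] (π y) - f^[t] (π y')‖ < δ) →
        Integrable g m →
        (∀ y ∈ Γ, -Real.log (q (c y)) + (U (c y)).card * Real.log k ≤ g y) →
        partitionEntropy ν (fun (x : E) (i : Fin N) => α (f^[i] x)) ≤ ∫ y, g y ∂m + ε * N := by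
  classical
  have hk : 0 < k := Fin.pos (α 0)
  have hkR : (0 : ℝ) < k := by exact_mod_cast hk
  have hk1 : (1 : ℝ) ≤ k := by exact_mod_cast hk
  have hlogk : 0 ≤ Real.log k := Real.log_nonneg hk1
  obtain ⟨p, hp0, hp1, hpl⟩ : ∃ p : ℝ, 0 < p ∧ p < 1 ∧ Real.log (1 - p) = -(ε / 2) := by
    refine ⟨1 - Real.exp (-(ε / 2)), ?_, ?_, ?_⟩
    · have : Real.exp (-(ε / 2)) < 1 := Real.exp_lt_one_iff.2 (by linarith)
      linarith
    · linarith [Real.exp_pos (-(ε / 2))]
    · rw [sub_sub_cancel, Real.log_exp]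
  obtain ⟨L, hL0, hL⟩ : ∃ L : ℝ, 0 ≤ L ∧ Real.log (p / k) = -L := by
    refine ⟨-Real.log (p / k), ?_, (neg_neg _).symm⟩
    have := Real.log_nonpos (x := p / k) (by positivity) ((div_le_one hkR).2 (by linarith))
    linarith
  obtain ⟨B, δ, hB, hBm, hδ, hBδ⟩ := exists_good_set ν α hα
    (ε := ε / (2 * k * (L + 1))) (by positivity)
  have hBk : L * ν.real B ≤ ε / 2 := by
    have h1 : (k : ℝ) * (ε / (2 * k * (L + 1))) = ε / (2 * (L + 1)) := by field_simp
    rw [h1] at hBm
    calc L * ν.real B ≤ (L + 1) * (ε / (2 * (L + 1))) :=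
          mul_le_mul (by linarith) hBm measureReal_nonneg (by linarith)
      _ = ε / 2 := by field_simp
  refine ⟨δ, hδ, fun N Y _ m _ π hπ hmap κ C c q U Γ g hΓ hcC hq0 hq1 hqpos hsep hg hgle => ?_⟩
  set τ : E → (Fin N → Fin k) := fun x i => α (f^[i] x) with hτdef
  have hτ : Measurable τ := measurable_pi_lambda _ fun i => hα.comp (hf.measurable.iterate i)
  have hj : ∀ (a : κ) (i : Fin N), ∃ j : Fin k, ∀ y ∈ Γ, c y = a → (i : ℕ) ∉ U a →
      f^[i] (π y) ∉ B → α (f^[i] (π y)) = j := by
    intro a i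
    by_cases h : ∃ y ∈ Γ, c y = a ∧ f^[i] (π y) ∉ B
    · obtain ⟨x, hx, hxc, hxB⟩ := h
      refine ⟨α (f^[i] (π x)), fun y hy hyc hU hyB => hBδ _ _ hyB hxB ?_⟩
      rw [dist_eq_norm]
      exact hsep y hy x hx (hyc.trans hxc.symm) i i.2 (by rwa [hyc])
    · exact ⟨⟨0, hk⟩, fun y hy hyc _ hyB => absurd ⟨y, hy, hyc, hyB⟩ h⟩
  choose j hj using hj
  let q1 : κ → Fin N → Fin k → ℝ := fun a i l =>
    if (i : ℕ) ∈ U a then 1 / k else (if l = j a i then 1 - p else 0) + p / k
  have hpk : 0 < p / k := by positivity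
  have hq1pos : ∀ a i l, 0 < q1 a i l := by
    intro a i l
    have : (0 : ℝ) < 1 / k := by positivity
    simp only [q1]
    split_ifs <;> linarith
  have hq1sum : ∀ a i, ∑ l, q1 a i l = 1 := by
    intro a i
    by_cases h : (i : ℕ) ∈ U a
    · simp only [q1, h, if_true, Finset.sum_const, Finset.card_univ, Fintype.card_fin,
        nsmul_eq_mul]
      field_simp
    · simp only [q1, h, if_false, Finset.sum_add_distrib, Finset.sum_ite_eq', Finset.mem_univ,
        if_true, Finset.sum_const, Finset.card_univ, Fintype.card_fin, nsmul_eq_mul]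
      field_simp
      ring
  have hprod : ∀ a (w : Fin N → Fin k), 0 < ∏ i, q1 a i (w i) := fun a w =>
    Finset.prod_pos fun i _ => hq1pos a i _
  let Q : (Fin N → Fin k) → ℝ := fun w => ∑ a ∈ C, q a * ∏ i, q1 a i (w i)
  have hQge : ∀ y ∈ Γ, ∀ w, q (c y) * ∏ i, q1 (c y) i (w i) ≤ Q w := fun y hy w =>
    Finset.single_le_sum (f := fun a => q a * ∏ i, q1 a i (w i))
      (fun a ha => mul_nonneg (hq0 a ha) (hprod a w).le) (hcC y hy)
  have hQpos : ∀ w, 0 < Q w := by
    intro w
    obtain ⟨y, hy⟩ := hΓ.exists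
    exact (mul_pos (hqpos y hy) (hprod _ w)).trans_le (hQge y hy w)
  have hQsum : ∑ w, Q w ≤ 1 := by
    simp only [Q]
    rw [Finset.sum_comm]
    have : ∀ a ∈ C, ∑ w : Fin N → Fin k, q a * ∏ i, q1 a i (w i) = q a := by
      intro a _
      rw [← Finset.mul_sum, ← Fintype.piFinset_univ, ← Finset.prod_univ_sum]
      simp [hq1sum]
    rw [Finset.sum_congr rfl this]
    exact hq1
  have hmp : ∀ i : ℕ, MeasurePreserving (fun y => f^[i] (π y)) m ν := fun i =>
    (hf.iterate i).comp ⟨hπ, hmap⟩
  have hint2 : Integrable (B.indicator (fun _ => L)) ν := (integrable_const _).indicator hB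
  have hint3 : ∀ i : ℕ, Integrable (fun y => B.indicator (fun _ => L) (f^[i] (π y))) m :=
    fun i => (hmp i).integrable_comp_of_integrable hint2
  have hint4 : Integrable (fun y => ∑ i : Fin N, B.indicator (fun _ => L) (f^[i] (π y))) m :=
    integrable_finsetSum _ fun i _ => hint3 i
  have hint5 : Integrable (fun y => g y + N * (ε / 2)) m := hg.add (integrable_const _)
  have hval : ∫ y, (g y + N * (ε / 2) + ∑ i : Fin N, B.indicator (fun _ => L) (f^[i] (π y))) ∂m =
      ∫ y, g y ∂m + N * (ε / 2) + N * (L * ν.real B) := by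
    rw [integral_add hint5 hint4, integral_add hg (integrable_const _),
      integral_finsetSum _ fun (i : Fin N) _ => hint3 i]
    have : ∀ i : Fin N, ∫ y, B.indicator (fun _ => L) (f^[i] (π y)) ∂m = L * ν.real B := by
      intro i
      have h1 := integral_map (μ := m) (hmp i).measurable.aemeasurable
        (f := B.indicator (fun _ => L))
        (by rw [(hmp i).map_eq]; exact hint2.aestronglyMeasurable)
      rw [(hmp i).map_eq] at h1
      rw [← h1, integral_indicator_const _ hB, smul_eq_mul, mul_comm]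
    simp [this]
  have hent : partitionEntropy ν τ = partitionEntropy m (τ ∘ π) := by
    unfold partitionEntropy
    refine Finset.sum_congr rfl fun w _ => ?_
    rw [← hmap, map_measureReal_apply hπ (hτ (measurableSet_singleton w)), preimage_comp]
  have hmain := gibbs m (τ ∘ π) (hτ.comp hπ) Q hQpos hQsum _ (hint5.add hint4) (by
    filter_upwards [hΓ] with y hy
    have h4 : ∀ i : Fin N, -Real.log (q1 (c y) i (τ (π y) i)) ≤
        (if (i : ℕ) ∈ U (c y) then Real.log k else 0) + ε / 2 +
          B.indicator (fun _ => L) (f^[i] (π y)) := by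
      intro i
      have hi0 : 0 ≤ B.indicator (fun _ => L) (f^[i] (π y)) :=
        Set.indicator_nonneg (fun _ _ => hL0) _
      by_cases hU : (i : ℕ) ∈ U (c y)
      · simp only [q1, hU, if_true, one_div, Real.log_inv]
        linarith
      · by_cases hB' : f^[i] (π y) ∈ B
        · have h5 : p / k ≤ q1 (c y) i (τ (π y) i) := by
            simp only [q1, hU, if_false]
            split_ifs <;> linarith
          have h6 := Real.log_le_log hpk h5
          rw [Set.indicator_of_mem hB', if_neg hU]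
          linarith
        · have h7 : τ (π y) i = j (c y) i := hj (c y) i y hy rfl hU hB'
          have h5 : 1 - p ≤ q1 (c y) i (τ (π y) i) := by
            simp only [q1, hU, if_false, h7, if_true]
            linarith
          have h6 := Real.log_le_log (by linarith) h5
          rw [if_neg hU]
          linarith
    have h5 := Real.log_le_log (mul_pos (hqpos y hy) (hprod _ _)) (hQge y hy (τ (π y)))
    rw [Real.log_mul (hqpos y hy).ne' (hprod _ _).ne',
      Real.log_prod (fun i _ => (hq1pos _ i _).ne')] at h5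
    have h6 := Finset.sum_le_sum fun i (_ : i ∈ (Finset.univ : Finset (Fin N))) => h4 i
    rw [Finset.sum_add_distrib, Finset.sum_add_distrib, Finset.sum_neg_distrib,
      ← Finset.sum_filter] at h6
    simp only [Finset.sum_const, Finset.card_univ, Fintype.card_fin, nsmul_eq_mul] at h6
    have h7 : (Finset.univ.filter fun i : Fin N => (i : ℕ) ∈ U (c y)).card ≤ (U (c y)).card :=
      Finset.card_le_card_of_injOn (fun i => (i : ℕ)) (fun i hi => by simpa using hi)
        fun i _ i' _ h => Fin.ext h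
    have h8 : ((Finset.univ.filter fun i : Fin N => (i : ℕ) ∈ U (c y)).card : ℝ) * Real.log k ≤
        (U (c y)).card * Real.log k :=
      mul_le_mul_of_nonneg_right (by exact_mod_cast h7) hlogk
    have h9 := hgle y hy
    simp only [Function.comp_apply, Pi.add_apply]
    linarith)
  have hmain' : partitionEntropy m (τ ∘ π) ≤
      ∫ y, g y ∂m + N * (ε / 2) + N * (L * ν.real B) := hval ▸ hmain
  have h3 := mul_le_mul_of_nonneg_left hBk (Nat.cast_nonneg (α := ℝ) N)
  rw [hent]
  linarith

end Pool.Agent.P.MP_eeb913_an.U
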