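import Mathlib
import Pool.Agent.P.MP_eeb913_an.U.Basic
import Pool.Agent.P.MP_eeb913_an.U.Coding
import Pool.Agent.P.MP_eeb913_an.U.FiltLem

/-!
A crude Ruelle inequality.

Sketch. Fix α, ε, take δ from coding_bound (Y = E, π = id, U = ∅). Let F = f^[n], Γ the conull set of
points whose forward orbit stays in the closed ball of radius ρ, Good = {x | ‖fderiv F x‖ ≤ exp (n b)}.
On Γ, ‖fderiv F x‖ ≤ L^n (chain rule). By uniform continuity of fderiv F and of f^[t], t < n, on the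
compact ball there is r > 0 with ‖F x - F x'‖ ≤ (‖fderiv F x'‖ + 1) ‖x - x'‖ and
‖f^[t] x - f^[t] x'‖ < δ when ‖x‖, ‖x'‖ ≤ ρ, ‖x - x'‖ ≤ 2 r. Let cell x ∈ ℤ⁴ be the floors of the
four real coordinates divided by r; equal cells give ‖x - x'‖ ≤ 2 r. State of x: (cell x, x ∈ Good).
For N let k = N / n + 1; the code of x is the list (or function on Fin k) of the states of F^[i] x,
i < k. For each state a realised in Γ choose a point x_a of Γ with that state; put Λ a = exp (n b) if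
good and L^n otherwise (Λ ≥ 1); the next cell differs from cell (F x_a) by at most 4 Λ a + 1 in each
coordinate, so the set Next a of possible next states has at most 2 (11 Λ a)^4 elements. The weight
q = (1 / number of states) ∏ 1 / |Next (a i)| on admissible sequences sums to at most 1 (induction
on k; a convenient way: the admissible sequences of length k form a Finset defined recursively).
g x = log (number of states) + ∑_{i < k} (C₀ + 4 n b + 4 n log L * indicator of not Good (F^[i] x)),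
C₀ = log 2 + 4 log 11. Divide by N, let N tend to infinity, then ε to 0.
-/

namespace Pool.Agent.P.MP_eeb913_an.U

open MeasureTheory Filter Metric Set
open scoped ENNReal NNReal Topology

namespace RuelleAux

/-- Markov weights on admissible sequences of states. -/
theorem markov_weights {S : Type} (A : Finset S) (R : S → S → Prop) (B : S → ℝ)
    (hB : ∀ a, 0 < B a) (hcard : ∀ a, ∀ T : Finset S, (∀ b ∈ T, R a b) → (T.card : ℝ) ≤ B a)
    (k : ℕ) :
    ∃ (κ : Type) (C : Finset κ) (q : κ → ℝ) (code : (ℕ → S) → κ) (last : κ → S),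
      (∀ a, 0 ≤ q a) ∧ ∑ a ∈ C, q a ≤ 1 ∧ (∀ s, last (code s) = s k) ∧
      (∀ s s', code s = code s' → ∀ i ≤ k, s i = s' i) ∧
      ∀ s : ℕ → S, (∀ i, s i ∈ A) → (∀ i, R (s i) (s (i + 1))) →
        code s ∈ C ∧ q (code s) = (A.card : ℝ)⁻¹ * ∏ i ∈ Finset.range k, (B (s i))⁻¹ := by
  classical
  induction k with
  | zero =>
    refine ⟨S, A, fun _ => (A.card : ℝ)⁻¹, fun s => s 0, id, fun _ => by positivity, ?_,
      fun _ => rfl, ?_, ?_⟩
    · rw [Finset.sum_const, nsmul_eq_mul]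
      exact mul_inv_le_one
    · intro s s' h i hi
      obtain rfl : i = 0 := by omega
      exact h
    · intro s hs _
      exact ⟨hs 0, by simp⟩
  | succ k ih =>
    obtain ⟨κ, C, q, code, last, hq0, hsum, hlast, hinj, hadm⟩ := ih
    refine ⟨κ × S, C ×ˢ A, fun a => q a.1 * (if R (last a.1) a.2 then (B (last a.1))⁻¹ else 0),
      fun s => (code s, s (k + 1)), Prod.snd, ?_, ?_, fun _ => rfl, ?_, ?_⟩
    · intro a
      refine mul_nonneg (hq0 _) ?_
      split_ifs
      · exact (inv_pos.2 (hB _)).le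
      · exact le_rfl
    · rw [Finset.sum_product]
      refine le_trans (Finset.sum_le_sum fun a _ => ?_) hsum
      simp only
      rw [← Finset.mul_sum]
      refine mul_le_of_le_one_right (hq0 a) ?_
      rw [← Finset.sum_filter, Finset.sum_const, nsmul_eq_mul, ← div_eq_mul_inv,
        div_le_one (hB _)]
      exact hcard _ _ fun b hb => (Finset.mem_filter.1 hb).2
    · intro s s' h i hi
      have h1 : code s = code s' := congrArg Prod.fst h
      have h2 : s (k + 1) = s' (k + 1) := congrArg Prod.snd h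
      rcases Nat.lt_or_ge i (k + 1) with hi' | hi'
      · exact hinj s s' h1 i (by omega)
      · obtain rfl : i = k + 1 := by omega
        exact h2
    · intro s hs hR
      obtain ⟨h1, h2⟩ := hadm s hs hR
      refine ⟨Finset.mem_product.2 ⟨h1, hs _⟩, ?_⟩
      simp only
      rw [h2, hlast, if_pos (hR k), Finset.prod_range_succ, mul_assoc]

/-- The four real coordinates of a point. -/
def rco (x : E) : Fin 4 → ℝ := ![x.1.re, x.1.im, x.2.re, x.2.im]

theorem abs_rco_sub_le (x y : E) (i : Fin 4) : |rco x i - rco y i| ≤ ‖x - y‖ := by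
  have h1 : ‖(x - y).1‖ ≤ ‖x - y‖ := norm_fst_le _
  have h2 : ‖(x - y).2‖ ≤ ‖x - y‖ := norm_snd_le _
  have a1 := Complex.abs_re_le_norm (x - y).1
  have a2 := Complex.abs_im_le_norm (x - y).1
  have a3 := Complex.abs_re_le_norm (x - y).2
  have a4 := Complex.abs_im_le_norm (x - y).2
  simp only [Prod.fst_sub, Prod.snd_sub, Complex.sub_re, Complex.sub_im] at h1 h2 a1 a2 a3 a4
  fin_cases i
  · exact a1.trans h1
  · exact a2.trans h1
  · exact a3.trans h2
  · exact a4.trans h2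

theorem norm_sub_le_of_rco {x y : E} {r : ℝ} (h : ∀ i, |rco x i - rco y i| ≤ r) :
    ‖x - y‖ ≤ 2 * r := by
  have h0 : |x.1.re - y.1.re| ≤ r := h 0
  have h1 : |x.1.im - y.1.im| ≤ r := h 1
  have h2 : |x.2.re - y.2.re| ≤ r := h 2
  have h3 : |x.2.im - y.2.im| ≤ r := h 3
  have a1 := Complex.norm_le_abs_re_add_abs_im (x - y).1
  have a2 := Complex.norm_le_abs_re_add_abs_im (x - y).2
  simp only [Prod.fst_sub, Prod.snd_sub, Complex.sub_re, Complex.sub_im] at a1 a2
  rw [Prod.norm_def]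
  simp only [Prod.fst_sub, Prod.snd_sub]
  exact max_le (by linarith) (by linarith)

/-- The cell of a point in the grid of mesh r. -/
noncomputable def cell (r : ℝ) (x : E) : Fin 4 → ℤ := fun i => ⌊rco x i / r⌋

theorem norm_sub_le_of_cell {x y : E} {r : ℝ} (hr : 0 < r) (h : cell r x = cell r y) :
    ‖x - y‖ ≤ 2 * r := by
  refine norm_sub_le_of_rco fun i => ?_
  have h1 : ⌊rco x i / r⌋ = ⌊rco y i / r⌋ := congrFun h i
  have h2 := Int.abs_sub_lt_one_of_floor_eq_floor h1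
  rw [← sub_div, abs_div, abs_of_pos hr, div_lt_one hr] at h2
  exact h2.le

/-- The box of cells around a given cell. -/
noncomputable def cbox (c : Fin 4 → ℤ) (m : ℕ) : Finset (Fin 4 → ℤ) :=
  Fintype.piFinset fun i => Finset.Icc (c i - m) (c i + m)

theorem card_cbox (c : Fin 4 → ℤ) (m : ℕ) : (cbox c m).card = (2 * m + 1) ^ 4 := by
  have h : ∀ i, (Finset.Icc (c i - m) (c i + m)).card = 2 * m + 1 := by
    intro i
    rw [Int.card_Icc]
    omega
  simp [cbox, Fintype.card_piFinset, h]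

theorem cell_mem_cbox {x y : E} {r t : ℝ} (hr : 0 < r) (h : ‖x - y‖ ≤ t * r) :
    cell r x ∈ cbox (cell r y) (⌊t⌋₊ + 1) := by
  rw [cbox, Fintype.mem_piFinset]
  intro i
  have h1 : |rco x i / r - rco y i / r| ≤ t := by
    rw [← sub_div, abs_div, abs_of_pos hr, div_le_iff₀ hr]
    exact (abs_rco_sub_le x y i).trans h
  have h2 : t < (⌊t⌋₊ : ℝ) + 1 := Nat.lt_floor_add_one t
  obtain ⟨h3, h4⟩ := abs_le.1 h1
  have a1 := Int.floor_le (rco x i / r)
  have a2 := Int.lt_floor_add_one (rco x i / r)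
  have a3 := Int.floor_le (rco y i / r)
  have a4 := Int.lt_floor_add_one (rco y i / r)
  rw [Finset.mem_Icc]
  simp only [cell]
  push_cast
  constructor
  · have : ((⌊rco y i / r⌋ - (⌊t⌋₊ + 1) : ℤ) : ℝ) < ((⌊rco x i / r⌋ + 1 : ℤ) : ℝ) := by
      push_cast; linarith
    have := Int.cast_lt.1 this
    omega
  · have : ((⌊rco x i / r⌋ : ℤ) : ℝ) < ((⌊rco y i / r⌋ + (⌊t⌋₊ + 1) + 1 : ℤ) : ℝ) := by
      push_cast; linarith
    have := Int.cast_lt.1 this
    omega

theorem norm_fderiv_iterate_le {f : E → E} (hf : ContDiff ℂ 2 f) {ρ L : ℝ} (hL : 1 ≤ L)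
    (h : ∀ x : E, ‖x‖ ≤ ρ → ‖fderiv ℂ f x‖ ≤ L) {x : E} (hx : ∀ j, ‖f^[j] x‖ ≤ ρ) (n : ℕ) :
    ‖fderiv ℂ f^[n] x‖ ≤ L ^ n := by
  induction n with
  | zero =>
    simp only [Function.iterate_zero, fderiv_id, pow_zero]
    exact ContinuousLinearMap.norm_id_le
  | succ n ih =>
    have d1 : DifferentiableAt ℂ f (f^[n] x) := (hf.differentiable (by norm_num)) _
    have d2 : DifferentiableAt ℂ f^[n] x :=
      ((contDiff_iterate hf n).differentiable (by norm_num)) _
    rw [Function.iterate_succ', fderiv_comp x d1 d2, pow_succ']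
    refine (ContinuousLinearMap.opNorm_comp_le _ _).trans ?_
    exact mul_le_mul (h _ (hx n)) ih (norm_nonneg _) (by linarith)

theorem exists_local_lip {F : E → E} (hF : ContDiff ℂ 2 F) (ρ : ℝ) :
    ∃ r₀ : ℝ, 0 < r₀ ∧ ∀ x y : E, ‖x‖ ≤ ρ → ‖y‖ ≤ ρ → ‖x - y‖ ≤ r₀ →
      ‖F x - F y‖ ≤ (‖fderiv ℂ F y‖ + 1) * ‖x - y‖ := by
  obtain ⟨L, hL, -, -, h⟩ := exists_lip hF ρ
  have hL0 : 0 < L := by linarith
  refine ⟨L⁻¹, inv_pos.2 hL0, fun x y hx hy hxy => ?_⟩
  have hconv : Convex ℝ (closedBall (0 : E) ρ ∩ closedBall y L⁻¹) :=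
    (convex_closedBall _ _).inter (convex_closedBall _ _)
  refine hconv.norm_image_sub_le_of_norm_fderiv_le (𝕜 := ℂ)
    (fun z _ => (hF.differentiable (by norm_num)) z) (fun z hz => ?_) ?_ ?_
  · have h1 : ‖z‖ ≤ ρ := by simpa using hz.1
    have h2 : ‖z - y‖ ≤ L⁻¹ := by simpa [dist_eq_norm] using hz.2
    have h3 := h z y h1 hy
    have h4 : L * ‖z - y‖ ≤ 1 := by
      calc L * ‖z - y‖ ≤ L * L⁻¹ := mul_le_mul_of_nonneg_left h2 hL0.le
        _ = 1 := mul_inv_cancel₀ hL0.ne'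
    have h5 := norm_le_norm_add_norm_sub' (fderiv ℂ F z) (fderiv ℂ F y)
    linarith
  · exact ⟨by simpa using hy, mem_closedBall_self (inv_pos.2 hL0).le⟩
  · exact ⟨by simpa using hx, by simpa [dist_eq_norm] using hxy⟩

theorem ruelle_names {f : E → E} (hf : ContDiff ℂ 2 f) {ν : Measure E} [IsProbabilityMeasure ν]
    (hν : MeasurePreserving f ν ν) {ρ L : ℝ} (hL : 1 ≤ L) (hρ : ∀ᵐ x ∂ν, ‖x‖ ≤ ρ)
    (hD : ∀ x : E, ‖x‖ ≤ ρ → ‖fderiv ℂ f x‖ ≤ L) {n : ℕ} (hn : 0 < n) {b : ℝ} (hb : 0 ≤ b)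
    {k : ℕ} (α : E → Fin k) (hα : Measurable α) {ε : ℝ} (hε : 0 < ε) :
    ∃ K : ℝ, ∀ N : ℕ, partitionEntropy ν (fun (x : E) (i : Fin N) => α (f^[i] x)) ≤
      K + (N / n : ℕ) * (Real.log 2 + 4 * Real.log 11 + 4 * (n * b) + 4 * (n * Real.log L) *
        ν.real {x | Real.exp (n * b) < ‖fderiv ℂ f^[n] x‖}) + ε * N := by
  classical
  obtain ⟨δ, hδ, hcode⟩ := coding_bound hν α hα hε
  obtain ⟨L₁, hL₁, -, hlip, -⟩ := exists_lip hf ρ
  have hF : ContDiff ℂ 2 f^[n] := contDiff_iterate hf n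
  obtain ⟨r₀, hr₀, hloc⟩ := exists_local_lip hF ρ
  have hL₁n : 0 < L₁ ^ n := pow_pos (by linarith) n
  obtain ⟨r, hr, hr1, hr2⟩ : ∃ r : ℝ, 0 < r ∧ 2 * r ≤ r₀ ∧ L₁ ^ n * (2 * r) < δ := by
    refine ⟨min (r₀ / 2) (δ / (4 * L₁ ^ n)), lt_min (by positivity) (by positivity), ?_, ?_⟩
    · have := min_le_left (r₀ / 2) (δ / (4 * L₁ ^ n))
      linarith
    · have h1 := min_le_right (r₀ / 2) (δ / (4 * L₁ ^ n))
      have h2 : L₁ ^ n * (2 * (δ / (4 * L₁ ^ n))) = δ / 2 := by field_simp; ring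
      have h3 : L₁ ^ n * (2 * min (r₀ / 2) (δ / (4 * L₁ ^ n))) ≤
          L₁ ^ n * (2 * (δ / (4 * L₁ ^ n))) := by gcongr
      linarith
  set Bad : Set E := {x | Real.exp (n * b) < ‖fderiv ℂ f^[n] x‖} with hBad
  have hBadm : MeasurableSet Bad :=
    (isOpen_lt continuous_const (hF.continuous_fderiv (by norm_num)).norm).measurableSet
  set Γ : Set E := {x | ∀ j, ‖f^[j] x‖ ≤ ρ} with hΓ
  have hΓae : ∀ᵐ x ∂ν, x ∈ Γ :=
    ae_all_iff.2 fun j => (hν.iterate j).quasiMeasurePreserving.ae hρ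
  have hΓf : ∀ x ∈ Γ, ∀ j, f^[j] x ∈ Γ := fun x hx j i => by
    rw [← Function.iterate_add_apply]; exact hx _
  have hΓ0 : ∀ x ∈ Γ, ‖x‖ ≤ ρ := fun x hx => hx 0
  let st : E → (Fin 4 → ℤ) × Bool := fun x => (cell r x, decide (x ∈ Bad))
  let Λ : (Fin 4 → ℤ) × Bool → ℝ := fun a => if a.2 = true then L ^ n else Real.exp (n * b)
  have hΛ1 : ∀ a, 1 ≤ Λ a := fun a => by
    simp only [Λ]
    split_ifs
    · exact one_le_pow₀ hL
    · exact Real.one_le_exp (by positivity)
  have hΛD : ∀ x ∈ Γ, ‖fderiv ℂ f^[n] x‖ ≤ Λ (st x) := fun x hx => by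
    simp only [Λ, st, decide_eq_true_eq]
    split_ifs with h
    · exact norm_fderiv_iterate_le hf hL hD hx n
    · exact not_lt.1 h
  let A : Finset ((Fin 4 → ℤ) × Bool) := cbox (cell r 0) (⌊ρ / r⌋₊ + 1) ×ˢ Finset.univ
  have hA : ∀ x ∈ Γ, st x ∈ A := fun x hx => by
    refine Finset.mem_product.2 ⟨cell_mem_cbox hr ?_, Finset.mem_univ _⟩
    rw [sub_zero, div_mul_cancel₀ _ hr.ne']
    exact hΓ0 x hx
  let R : (Fin 4 → ℤ) × Bool → (Fin 4 → ℤ) × Bool → Prop := fun a c =>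
    ∃ x ∈ Γ, st x = a ∧ st (f^[n] x) = c
  let B : (Fin 4 → ℤ) × Bool → ℝ := fun a => 2 * (11 * Λ a) ^ 4
  have hB : ∀ a, 0 < B a := fun a => by
    have := hΛ1 a
    simp only [B]
    positivity
  have hcard : ∀ a, ∀ T : Finset ((Fin 4 → ℤ) × Bool), (∀ c ∈ T, R a c) →
      (T.card : ℝ) ≤ B a := by
    intro a T hT
    rcases T.eq_empty_or_nonempty with rfl | ⟨c₀, hc₀⟩
    · simpa using (hB a).le
    obtain ⟨y, hy, hya, -⟩ := hT c₀ hc₀
    have hsub : T ⊆ cbox (cell r (f^[n] y)) (⌊4 * Λ a⌋₊ + 1) ×ˢ Finset.univ := by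
      intro c hc
      obtain ⟨x, hx, hxa, rfl⟩ := hT c hc
      refine Finset.mem_product.2 ⟨cell_mem_cbox hr ?_, Finset.mem_univ _⟩
      have h1 : cell r x = cell r y := congrArg Prod.fst (hxa.trans hya.symm)
      have h2 := norm_sub_le_of_cell hr h1
      have h3 := hloc x y (hΓ0 x hx) (hΓ0 y hy) (h2.trans hr1)
      have h4 := hΛD y hy
      rw [hya] at h4
      have h5 := hΛ1 a
      calc ‖f^[n] x - f^[n] y‖ ≤ (‖fderiv ℂ f^[n] y‖ + 1) * ‖x - y‖ := h3
        _ ≤ (2 * Λ a) * (2 * r) := by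
          refine mul_le_mul (by linarith) h2 (norm_nonneg _) (by linarith)
        _ = 4 * Λ a * r := by ring
    have h1 := Finset.card_le_card hsub
    rw [Finset.card_product, card_cbox, Finset.card_univ, Fintype.card_bool] at h1
    have h2 : (T.card : ℝ) ≤ (2 * ((⌊4 * Λ a⌋₊ : ℝ) + 1) + 1) ^ 4 * 2 := by exact_mod_cast h1
    have h5 := hΛ1 a
    have h3 : (⌊4 * Λ a⌋₊ : ℝ) ≤ 4 * Λ a := Nat.floor_le (by linarith)
    have h4 : (2 * ((⌊4 * Λ a⌋₊ : ℝ) + 1) + 1) ^ 4 ≤ (11 * Λ a) ^ 4 :=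
      pow_le_pow_left₀ (by positivity) (by linarith) 4
    simp only [B]
    linarith
  refine ⟨Real.log A.card, fun N => ?_⟩
  obtain ⟨κ, C, q, code, last, hq0, hsum, -, hinj, hadm⟩ := markov_weights A R B hB hcard (N / n)
  let sq : E → ℕ → (Fin 4 → ℤ) × Bool := fun x i => st (f^[n * i] x)
  have hsq : ∀ x ∈ Γ, code (sq x) ∈ C ∧
      q (code (sq x)) = (A.card : ℝ)⁻¹ * ∏ i ∈ Finset.range (N / n), (B (sq x i))⁻¹ := by
    intro x hx
    refine hadm _ (fun i => hA _ (hΓf x hx _)) fun i => ⟨_, hΓf x hx _, rfl, ?_⟩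
    simp only [sq]
    rw [← Function.iterate_add_apply, Nat.mul_succ, add_comm]
  have hApos : ∀ x ∈ Γ, (0 : ℝ) < A.card := fun x hx => by
    exact_mod_cast Finset.card_pos.2 ⟨_, hA x hx⟩
  let c₁ : ℝ := Real.log 2 + 4 * Real.log 11 + 4 * (n * b)
  let c₂ : ℝ := 4 * (n * Real.log L)
  let g : E → ℝ := fun x => Real.log A.card +
    ∑ i ∈ Finset.range (N / n), (c₁ + c₂ * (f^[n * i] ⁻¹' Bad).indicator 1 x)
  have hmeas : ∀ i, MeasurableSet (f^[n * i] ⁻¹' Bad) := fun i =>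
    (hν.iterate (n * i)).measurable hBadm
  have hint1 : ∀ i, Integrable ((f^[n * i] ⁻¹' Bad).indicator (1 : E → ℝ)) ν := fun i =>
    (integrable_const (1 : ℝ)).indicator (hmeas i)
  have hint2 : ∀ i, Integrable (fun x => c₁ + c₂ * (f^[n * i] ⁻¹' Bad).indicator 1 x) ν :=
    fun i => (integrable_const c₁).add ((hint1 i).const_mul c₂)
  have hint3 : Integrable (fun x => ∑ i ∈ Finset.range (N / n),
      (c₁ + c₂ * (f^[n * i] ⁻¹' Bad).indicator 1 x)) ν :=
    integrable_finsetSum _ fun i _ => hint2 i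
  have hg : Integrable g ν := (integrable_const _).add hint3
  have hgint : ∫ x, g x ∂ν = Real.log A.card + (N / n : ℕ) * (c₁ + c₂ * ν.real Bad) := by
    simp only [g]
    rw [integral_add (integrable_const _) hint3, integral_finsetSum _ fun i _ => hint2 i]
    have h : ∀ i ∈ Finset.range (N / n),
        ∫ x, (c₁ + c₂ * (f^[n * i] ⁻¹' Bad).indicator 1 x) ∂ν = c₁ + c₂ * ν.real Bad := by
      intro i _
      rw [integral_add (integrable_const _) ((hint1 i).const_mul c₂), integral_const_mul,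
        integral_indicator_one (hmeas i),
        (hν.iterate (n * i)).measureReal_preimage hBadm.nullMeasurableSet]
      simp
    rw [Finset.sum_congr rfl h, Finset.sum_const, Finset.card_range, nsmul_eq_mul]
    simp
  have hlogB : ∀ x i, Real.log (B (sq x i)) ≤
      c₁ + c₂ * (f^[n * i] ⁻¹' Bad).indicator 1 x := by
    intro x i
    have h1 := hΛ1 (sq x i)
    have h2 : Real.log (B (sq x i)) =
        Real.log 2 + 4 * Real.log 11 + 4 * Real.log (Λ (sq x i)) := by
      simp only [B]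
      rw [Real.log_mul (by norm_num) (by positivity), Real.log_pow,
        Real.log_mul (by norm_num) (by positivity)]
      push_cast
      ring
    rw [h2]
    have hnb : 0 ≤ (n : ℝ) * b := by positivity
    by_cases h : f^[n * i] x ∈ Bad
    · have h3 : Λ (sq x i) = L ^ n := by simp only [Λ, sq, st, decide_eq_true_eq, if_pos h]
      rw [h3, Real.log_pow, indicator_of_mem (show x ∈ f^[n * i] ⁻¹' Bad from h)]
      simp only [c₁, c₂, Pi.one_apply]
      linarith
    · have h3 : Λ (sq x i) = Real.exp (n * b) := by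
        simp only [Λ, sq, st, decide_eq_true_eq, if_neg h]
      rw [h3, Real.log_exp, indicator_of_notMem (show x ∉ f^[n * i] ⁻¹' Bad from h)]
      simp only [c₁]
      linarith
  have key := hcode N E ν id measurable_id Measure.map_id κ C (fun x => code (sq x)) q
    (fun _ => ∅) Γ g hΓae (fun x hx => (hsq x hx).1) (fun a _ => hq0 a) hsum ?_ ?_ hg ?_
  · rw [hgint] at key
    exact key
  · intro x hx
    rw [(hsq x hx).2]
    exact mul_pos (inv_pos.2 (hApos x hx)) (Finset.prod_pos fun i _ => inv_pos.2 (hB _))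
  · intro x hx y hy hxy t ht _
    have h1 : sq x (t / n) = sq y (t / n) :=
      hinj _ _ hxy (t / n) (Nat.div_le_div_right ht.le)
    have h2 : cell r (f^[n * (t / n)] x) = cell r (f^[n * (t / n)] y) := congrArg Prod.fst h1
    have h3 := norm_sub_le_of_cell hr h2
    have h4 := iter_lip (by linarith : (1 : ℝ) ≤ L₁) hlip (n := n)
      (fun j _ => hΓf x hx (n * (t / n)) j) (fun j _ => hΓf y hy (n * (t / n)) j) (t % n)
      (Nat.mod_lt t hn).le
    rw [← Function.iterate_add_apply, ← Function.iterate_add_apply, Nat.mod_add_div] at h4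
    have h5 : L₁ ^ (t % n) ≤ L₁ ^ n := pow_le_pow_right₀ (by linarith) (Nat.mod_lt t hn).le
    simp only [id]
    refine lt_of_le_of_lt (h4.trans ?_) hr2
    exact mul_le_mul h5 h3 (norm_nonneg _) hL₁n.le
  · intro x hx
    rw [(hsq x hx).2, Real.log_mul (inv_pos.2 (hApos x hx)).ne'
      (Finset.prod_pos fun i _ => inv_pos.2 (hB _)).ne',
      Real.log_prod (fun i _ => (inv_pos.2 (hB _)).ne')]
    simp only [Real.log_inv, Finset.sum_neg_distrib, Finset.card_empty, Nat.cast_zero, zero_mul,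
      add_zero, neg_add_rev, neg_neg, g]
    have := Finset.sum_le_sum fun i (_ : i ∈ Finset.range (N / n)) => hlogB x i
    linarith

end RuelleAux

theorem ruelle : ∃ C₀ : ℝ, 0 ≤ C₀ ∧ ∀ (f : E → E), ContDiff ℂ 2 f →
    ∀ (ν : Measure E) [IsProbabilityMeasure ν], MeasurePreserving f ν ν → ∀ ρ L : ℝ, 1 ≤ L →
      (∀ᵐ x ∂ν, ‖x‖ ≤ ρ) → (∀ x : E, ‖x‖ ≤ ρ → ‖fderiv ℂ f x‖ ≤ L) → ∀ n : ℕ, 0 < n →
      ∀ b : ℝ, 0 ≤ b → ksEntropy f ν ≤
        ((4 * b + 4 * Real.log L * ν.real {x | Real.exp (n * b) < ‖fderiv ℂ f^[n] x‖} +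
          C₀ / n : ℝ) : EReal) := by
  have hC : 0 ≤ Real.log 2 + 4 * Real.log 11 := by
    have h1 : 0 ≤ Real.log 2 := Real.log_nonneg (by norm_num)
    have h2 : 0 ≤ Real.log 11 := Real.log_nonneg (by norm_num)
    linarith
  refine ⟨Real.log 2 + 4 * Real.log 11, hC, ?_⟩
  intro f hf ν _ hν ρ L hL hρ hD n hn b hb
  refine iSup_le fun k => iSup_le fun α => iSup_le fun hα => ?_
  set p : ℝ := ν.real {x | Real.exp (n * b) < ‖fderiv ℂ f^[n] x‖} with hp
  have hp0 : 0 ≤ p := measureReal_nonneg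
  have hlogL : 0 ≤ Real.log L := Real.log_nonneg hL
  have hn' : (0 : ℝ) < n := by exact_mod_cast hn
  set T : ℝ := 4 * b + 4 * Real.log L * p + (Real.log 2 + 4 * Real.log 11) / n with hT
  have hT0 : 0 ≤ T := by positivity
  refine le_of_forall_gt_imp_ge_of_dense fun a ha => ?_
  induction a with
  | bot => exact absurd ha not_lt_bot
  | top => exact le_top
  | coe a =>
    have ha' : T < a := by exact_mod_cast ha
    have hε : 0 < (a - T) / 2 := by linarith
    obtain ⟨K, hK⟩ := RuelleAux.ruelle_names hf hν hL hρ hD hn hb α hα hε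
    refine limsup_le_of_le (by isBoundedDefault) ?_
    have h1 : ∀ᶠ N : ℕ in atTop, K / N < (a - T) / 2 :=
      (tendsto_const_div_atTop_nhds_zero_nat K).eventually (gt_mem_nhds hε)
    filter_upwards [h1, eventually_gt_atTop 0] with N hN1 hN0
    have hN : (0 : ℝ) < N := by exact_mod_cast hN0
    rw [EReal.coe_le_coe_iff, div_le_iff₀ hN]
    rw [div_lt_iff₀ hN] at hN1
    have h2 := hK N
    have h3 : Real.log 2 + 4 * Real.log 11 + 4 * (n * b) + 4 * (n * Real.log L) * p = n * T := by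
      rw [hT]; field_simp; ring
    rw [← hp, h3] at h2
    have h4 : ((N / n : ℕ) : ℝ) * n ≤ N := by exact_mod_cast Nat.div_mul_le_self N n
    have h5 : ((N / n : ℕ) : ℝ) * (n * T) ≤ N * T := by
      rw [← mul_assoc]; exact mul_le_mul_of_nonneg_right h4 hT0
    nlinarith

end Pool.Agent.P.MP_eeb913_an.U
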