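import Mathlib
import Pool.Agent.P.MP_eeb913_an.U.Basic
import Pool.Agent.P.MP_eeb913_an.U.FiltLem
import Pool.Agent.P.MP_eeb913_an.U.Ergodic
import Pool.Agent.P.MP_eeb913_an.U.Affine
import Pool.Agent.P.MP_eeb913_an.U.Ruelle
import Pool.Agent.P.MP_eeb913_an.U.Lift

/-!
A nearly maximising measure dominates the projection of a hyperbolic extension of definite mass.

Sketch. L ≥ 2 from exists_lip for f and for g at radius R₀ (take the max). K = {x | ∀ n,
‖f^[n] x‖ ≤ R₀ ∧ ‖g^[n] x‖ ≤ R₀} is compact, f restricts to a homeomorphism G₀ of the subtype K, and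
m₀ = μ.comap val is invariant with m₀.map val = μ (ae_bounded). fderiv f x and fderiv g (f x) are
inverse to each other (differentiate g ∘ f = id, f ∘ g = id), and coc G₀ (fderiv f) n x = fderiv f^[n] x.
Step. An invariant probability ν with P - h₀ ≤ fe ν has h₀ ≤ ksEntropy f ν (∫ φ ≤ P - 2 h₀), so ruelle
with b = h₀ / 8 and C₀ / n ≤ h₀ / 4 gives ν.real {exp (n b) < ‖fderiv f^[n]‖} ≥ c = h₀ / (16 log L)
for all large n. exists_lift gives m' on K × sphere; exists_good_set (c = b, c' = χ = b / 2,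
B = log L) gives an invariant S; m₁ = m'.restrict S has mass ≥ t₁ = (c / 2) χ / (log L + χ).
Its projection ν₁ ≤ μ is f-invariant; exists_piece with one piece shows that the normalised ν₁ has
free energy ≥ P - δ / t₁ ≥ P - h₀ when δ ≤ δ₀ = h₀ * min 1 t₁. By ksEntropy_inv and ruelle for g,
ν₁.real {exp (n b) < ‖fderiv g^[n]‖} ≥ c t₁. Apply exists_lift over Y₁ = K × sphere with the
homeomorphism H.symm and the cocycle y ↦ fderiv g (π y); get H₂ and m₂', then exists_good_set for H₂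
and u = log ‖fderiv g (π y) w‖, m = m₂'.restrict S₂. Finally G = H₂.symm, G' = H₂,
a y = ‖fderiv f (π y) (v y)‖, b y = ‖fderiv g (π (G y)) (w (G y))‖⁻¹; the backward sums of u are the
forward sums of - log b. Properties valid m₁-a.e. pass to m because m.map fst ≤ m₁.
-/

namespace Pool.Agent.P.MP_eeb913_an.U

open MeasureTheory Filter Metric Set
open scoped ENNReal NNReal Topology

theorem hyp_inv {f g : E → E} (cf : ContDiff ℂ 2 f) (cg : ContDiff ℂ 2 g) (gf : ∀ z, g (f z) = z)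
    (x z : E) : fderiv ℂ g (f x) (fderiv ℂ f x z) = z := by
  have h1 : HasFDerivAt (g ∘ f) ((fderiv ℂ g (f x)).comp (fderiv ℂ f x)) x :=
    ((cg.differentiable (by norm_num)) (f x)).hasFDerivAt.comp x
      ((cf.differentiable (by norm_num)) x).hasFDerivAt
  have e : g ∘ f = id := funext gf
  rw [e] at h1
  exact congrArg (fun T : E →L[ℂ] E => T z) (h1.unique (hasFDerivAt_id x))

theorem hyp_coc {Y : Type} {f : E → E} (cf : ContDiff ℂ 2 f) {G : Y → Y} {π : Y → E}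
    (semi : ∀ y, π (G y) = f (π y)) (n : ℕ) (y : Y) :
    coc G (fun y => fderiv ℂ f (π y)) n y = fderiv ℂ f^[n] (π y) := by
  induction n with
  | zero => simp [coc]
  | succ n ih =>
    have e : π (G^[n] y) = f^[n] (π y) := Function.Semiconj.iterate_right semi n y
    rw [coc, ih, e, Function.iterate_succ', fderiv_comp _ ((cf.differentiable (by norm_num)) _)
      (((contDiff_iterate cf n).differentiable (by norm_num)) _)]

theorem hyp_bounds {A A' : E →L[ℂ] E} {L : ℝ} (hL : 0 < L) (h1 : ‖A‖ ≤ L) (h2 : ‖A'‖ ≤ L)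
    (h : ∀ z, A' (A z) = z) {v : E} (hv : ‖v‖ = 1) : L⁻¹ ≤ ‖A v‖ ∧ ‖A v‖ ≤ L := by
  constructor
  · rw [inv_le_iff_one_le_mul₀' hL, ← hv]
    calc ‖v‖ = ‖A' (A v)‖ := by rw [h]
      _ ≤ ‖A'‖ * ‖A v‖ := A'.le_opNorm _
      _ ≤ L * ‖A v‖ := mul_le_mul_of_nonneg_right h2 (norm_nonneg _)
  · calc ‖A v‖ ≤ ‖A‖ * ‖v‖ := A.le_opNorm _
      _ ≤ L := by rw [hv, mul_one]; exact h1

theorem hyp_abs_log {x L : ℝ} (hL : 0 < L) (h : L⁻¹ ≤ x ∧ x ≤ L) : |Real.log x| ≤ Real.log L := by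
  have h0 : 0 < x := (inv_pos.2 hL).trans_le h.1
  rw [abs_le, ← Real.log_inv]
  exact ⟨Real.log_le_log (inv_pos.2 hL) h.1, Real.log_le_log h0 h.2⟩

theorem hyp_birk {Y Y' : Type} {G : Y → Y} {G' : Y' → Y'} {p : Y' → Y}
    (semi : ∀ y, p (G' y) = G (p y)) (u : Y → ℝ) (n : ℕ) (y : Y') :
    birkhoffSum G' (fun y => u (p y)) n y = birkhoffSum G u n (p y) := by
  unfold birkhoffSum
  refine Finset.sum_congr rfl fun k _ => ?_
  have e : p (G'^[k] y) = G^[k] (p y) := Function.Semiconj.iterate_right semi k y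
  simp only [e]

theorem hyp_freq {f : E → E} (cf : ContDiff ℂ 2 f) {ν : Measure E} (hν : IsInvariantProb f ν)
    {ρ L h₀ : ℝ} (hL : 2 ≤ L) (h0 : 0 < h₀) (hρ : ∀ᵐ x ∂ν, ‖x‖ ≤ ρ)
    (hb : ∀ x : E, ‖x‖ ≤ ρ → ‖fderiv ℂ f x‖ ≤ L) (hh : (h₀ : EReal) ≤ ksEntropy f ν) :
    ∀ᶠ n : ℕ in atTop, h₀ / (16 * Real.log L) ≤
      ν.real {x | Real.exp (n * (h₀ / 8)) < ‖fderiv ℂ f^[n] x‖} := by
  obtain ⟨C₀, -, hC⟩ := ruelle
  have := hν.1
  have hlog : 0 < Real.log L := Real.log_pos (by linarith)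
  have h1 : ∀ᶠ n : ℕ in atTop, C₀ / n < h₀ / 4 :=
    (tendsto_const_div_atTop_nhds_zero_nat C₀).eventually (gt_mem_nhds (by positivity))
  filter_upwards [h1, eventually_gt_atTop 0] with n hn hn0
  have h2 := hh.trans (hC f cf ν hν.2 ρ L (by linarith) hρ hb n hn0 (h₀ / 8) (by positivity))
  rw [EReal.coe_le_coe_iff] at h2
  rw [div_le_iff₀ (by positivity)]
  linarith

theorem hyp_ent {f : E → E} {φ : E → ℝ} (hφ : Continuous φ) {B : ℝ} (hB : ∀ x, |φ x| ≤ B)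
    {P h₀ : ℝ} (hgap : ∀ x, φ x + 2 * h₀ ≤ P) {ν : Measure E} [IsProbabilityMeasure ν]
    (h : ((P - h₀ : ℝ) : EReal) ≤ fe f φ ν) : (h₀ : EReal) ≤ ksEntropy f ν := by
  have hint : Integrable φ ν :=
    Integrable.of_bound hφ.aestronglyMeasurable B (Eventually.of_forall fun x => hB x)
  have h1 : ∫ x, φ x ∂ν ≤ P - 2 * h₀ := by
    have := integral_mono hint (integrable_const (P - 2 * h₀)) fun x => by
      have := hgap x
      show φ x ≤ P - 2 * h₀
      linarith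
    simpa using this
  by_contra hc
  have h2 := EReal.add_lt_add_right_coe (lt_of_not_ge hc) (∫ x, φ x ∂ν)
  have h3 := h.trans_lt h2
  rw [← EReal.coe_add, EReal.coe_lt_coe_iff] at h3
  linarith

theorem hyp_lift {f g : E → E} (cf : ContDiff ℂ 2 f) (cg : ContDiff ℂ 2 g) (gf : ∀ z, g (f z) = z)
    (fg : ∀ z, f (g z) = z) {R L : ℝ} (hL : 2 ≤ L)
    (bf : ∀ x : E, ‖x‖ ≤ R → ‖fderiv ℂ f x‖ ≤ L) (bg : ∀ x : E, ‖x‖ ≤ R → ‖fderiv ℂ g x‖ ≤ L)
    {Y : Type} [MetricSpace Y] [CompactSpace Y] [MeasurableSpace Y] [BorelSpace Y]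
    (G : Y ≃ₜ Y) {π : Y → E} (hπ : Continuous π) (semi : ∀ y, π (G y) = f (π y))
    (bd : ∀ y, ‖π y‖ ≤ R) (m : Measure Y) [IsFiniteMeasure m] (hm : MeasurePreserving G m m)
    {b c : ℝ} (hb : 0 < b) (hc : 0 < c)
    (hfr : ∀ᶠ n : ℕ in atTop, c ≤ (m.map π).real {x | Real.exp (n * b) < ‖fderiv ℂ f^[n] x‖}) :
    ∃ (H : (Y × sphere (0 : E) 1) ≃ₜ (Y × sphere (0 : E) 1)) (m₁ : Measure (Y × sphere (0 : E) 1)),
      (∀ p, (H p).1 = G p.1) ∧
      (∀ p : Y × sphere (0 : E) 1,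
        fderiv ℂ f (π p.1) p.2 = ((‖fderiv ℂ f (π p.1) p.2‖ : ℝ) : ℂ) • ((H p).2 : E)) ∧
      IsFiniteMeasure m₁ ∧ MeasurePreserving H m₁ m₁ ∧ MeasurePreserving H.symm m₁ m₁ ∧
      m₁.map Prod.fst ≤ m ∧ c * (b / 4 / (Real.log L + b / 2)) ≤ m₁.real univ ∧
      ∀ᵐ p ∂m₁, ∃ k : ℕ, ∀ n : ℕ, k ≤ n →
        b / 2 * n ≤ birkhoffSum H (fun p => Real.log ‖fderiv ℂ f (π p.1) p.2‖) n p ∧
        b / 2 * n ≤ birkhoffSum H.symm
          (fun p => Real.log ‖fderiv ℂ f (π (H.symm p).1) (H.symm p).2‖) n p := by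
  have cA : Continuous fun y => fderiv ℂ f (π y) := (cf.continuous_fderiv (by norm_num)).comp hπ
  have cA' : Continuous fun y => fderiv ℂ g (f (π y)) :=
    (cg.continuous_fderiv (by norm_num)).comp (cf.continuous.comp hπ)
  have i1 : ∀ y v, fderiv ℂ g (f (π y)) (fderiv ℂ f (π y) v) = v :=
    fun y v => hyp_inv cf cg gf _ v
  have i2 : ∀ y v, fderiv ℂ f (π y) (fderiv ℂ g (f (π y)) v) = v := fun y v => by
    have := hyp_inv cg cf fg (f (π y)) v
    rwa [gf] at this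
  obtain ⟨H, H1, H2, H3⟩ := exists_lift G _ _ cA cA' i1 i2
  have hfr' : ∃ᶠ n : ℕ in atTop,
      c ≤ m.real {y | Real.exp (n * b) < ‖coc G (fun y => fderiv ℂ f (π y)) n y‖} := by
    refine (hfr.mono fun n hn => ?_).frequently
    rw [map_measureReal_apply hπ.measurable
      (measurableSet_lt measurable_const (measurable_fderiv ℂ _).norm)] at hn
    simpa only [hyp_coc cf semi, preimage_ofPred_eq] using hn
  obtain ⟨m', fin, mp, le, mass, hint⟩ := H3 m hm b c hc hfr'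
  have mp' : MeasurePreserving H.symm m' m' := MeasurePreserving.symm H.toMeasurableEquiv mp
  have hL0 : 0 < L := by linarith
  have hlog : 0 < Real.log L := Real.log_pos (by linarith)
  have cu : Continuous fun p : Y × sphere (0 : E) 1 => ‖fderiv ℂ f (π p.1) p.2‖ :=
    ((cA.comp continuous_fst).clm_apply (continuous_subtype_val.comp continuous_snd)).norm
  have hu : ∀ p : Y × sphere (0 : E) 1, |Real.log ‖fderiv ℂ f (π p.1) p.2‖| ≤ Real.log L :=
    fun p => hyp_abs_log hL0 (hyp_bounds hL0 (bf _ (bd _))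
      (bg _ (by rw [← semi]; exact bd _)) (i1 p.1) (norm_eq_of_mem_sphere p.2))
  obtain ⟨S, hS, inv, inv', hmass, good⟩ := exists_good_set mp mp' H.symm_apply_apply
    H.apply_symm_apply cu.measurable.log hu (c' := b / 2) (by linarith) hint
  refine ⟨H, m'.restrict S, H1, H2, inferInstance, ?_, ?_, ?_, ?_, ?_⟩
  · have := mp.restrict_preimage hS
    rwa [inv] at this
  · have := mp'.restrict_preimage hS
    rwa [inv'] at this
  · exact (Measure.map_mono Measure.restrict_le_self measurable_fst).trans le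
  · rw [measureReal_restrict_apply_univ, ← mul_div_assoc, div_le_iff₀ (by positivity)]
    rw [abs_of_pos (by positivity)] at hmass
    nlinarith
  · exact (ae_restrict_iff' hS).2 (Eventually.of_forall good)

theorem hyp_maps {f g : E → E} (gf : ∀ z, g (f z) = z) {R : ℝ} {x : E}
    (h1 : ∀ n : ℕ, ‖f^[n] x‖ ≤ R) (h2 : ∀ n : ℕ, ‖g^[n] x‖ ≤ R) (n : ℕ) :
    ‖f^[n] (f x)‖ ≤ R ∧ ‖g^[n] (f x)‖ ≤ R := by
  refine ⟨h1 (n + 1), ?_⟩
  cases n with
  | zero => exact h1 1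
  | succ n =>
    rw [Function.iterate_succ_apply, gf]
    exact h2 n

/-- The points with bounded orbit. -/
def hypK (f g : E → E) (R : ℝ) : Set E := {x | ∀ n : ℕ, ‖f^[n] x‖ ≤ R ∧ ‖g^[n] x‖ ≤ R}

theorem hypK_closed {f g : E → E} (cf : Continuous f) (cg : Continuous g) (R : ℝ) :
    IsClosed (hypK f g R) := by
  have e : hypK f g R = ⋂ n : ℕ, {x | ‖f^[n] x‖ ≤ R} ∩ {x | ‖g^[n] x‖ ≤ R} := by
    ext x
    simp [hypK]
  rw [e]
  exact isClosed_iInter fun n => (isClosed_le (cf.iterate n).norm continuous_const).inter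
    (isClosed_le (cg.iterate n).norm continuous_const)

theorem hypK_compact {f g : E → E} (cf : Continuous f) (cg : Continuous g) (R : ℝ) :
    IsCompact (hypK f g R) :=
  (isCompact_closedBall (0 : E) R).of_isClosed_subset (hypK_closed cf cg R) fun _ hx =>
    mem_closedBall_zero_iff.2 (hx 0).1

/-- The restriction of the map to the points with bounded orbit. -/
def hypG {f g : E → E} (cf : Continuous f) (cg : Continuous g) (gf : ∀ z, g (f z) = z)
    (fg : ∀ z, f (g z) = z) (R : ℝ) : hypK f g R ≃ₜ hypK f g R where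
  toFun x := ⟨f x, hyp_maps gf (fun n => (x.2 n).1) fun n => (x.2 n).2⟩
  invFun x := ⟨g x, fun n => (hyp_maps fg (fun n => (x.2 n).2) (fun n => (x.2 n).1) n).symm⟩
  left_inv x := Subtype.ext (gf x)
  right_inv x := Subtype.ext (fg x)
  continuous_toFun := (cf.comp continuous_subtype_val).subtype_mk _
  continuous_invFun := (cg.comp continuous_subtype_val).subtype_mk _

theorem hyp_final {f g : E → E} (cf : ContDiff ℂ 2 f) (cg : ContDiff ℂ 2 g) (gf : ∀ z, g (f z) = z)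
    (fg : ∀ z, f (g z) = z) {R L χ : ℝ} (hL : 2 ≤ L)
    (bf : ∀ x : E, ‖x‖ ≤ R → ‖fderiv ℂ f x‖ ≤ L) (bg : ∀ x : E, ‖x‖ ≤ R → ‖fderiv ℂ g x‖ ≤ L)
    {Y : Type} [MetricSpace Y] [MeasurableSpace Y] [BorelSpace Y]
    (H₁ : Y ≃ₜ Y) {π v : Y → E} (hπ : Continuous π) (hv : Continuous v)
    (semi : ∀ y, π (H₁ y) = f (π y)) (bd : ∀ y, ‖π y‖ ≤ R) (nv : ∀ y, ‖v y‖ = 1)
    (dv : ∀ y, fderiv ℂ f (π y) (v y) = ((‖fderiv ℂ f (π y) (v y)‖ : ℝ) : ℂ) • v (H₁ y))
    {m₁ : Measure Y}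
    (g1 : ∀ᵐ p ∂m₁, ∃ k : ℕ, ∀ n : ℕ, k ≤ n →
        χ * n ≤ birkhoffSum H₁ (fun p => Real.log ‖fderiv ℂ f (π p) (v p)‖) n p ∧
        χ * n ≤ birkhoffSum H₁.symm
          (fun p => Real.log ‖fderiv ℂ f (π (H₁.symm p)) (v (H₁.symm p))‖) n p)
    (H₂ : (Y × sphere (0 : E) 1) ≃ₜ (Y × sphere (0 : E) 1)) {m₂ : Measure (Y × sphere (0 : E) 1)}
    (s2 : ∀ p, (H₂ p).1 = H₁.symm p.1)
    (dw : ∀ p : Y × sphere (0 : E) 1,
        fderiv ℂ g (π p.1) p.2 = ((‖fderiv ℂ g (π p.1) p.2‖ : ℝ) : ℂ) • ((H₂ p).2 : E))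
    (mp : MeasurePreserving H₂ m₂ m₂) (mp' : MeasurePreserving H₂.symm m₂ m₂)
    (le : m₂.map Prod.fst ≤ m₁)
    (g2 : ∀ᵐ p ∂m₂, ∃ k : ℕ, ∀ n : ℕ, k ≤ n →
        χ * n ≤ birkhoffSum H₂ (fun p => Real.log ‖fderiv ℂ g (π p.1) p.2‖) n p ∧
        χ * n ≤ birkhoffSum H₂.symm
          (fun p => Real.log ‖fderiv ℂ g (π (H₂.symm p).1) (H₂.symm p).2‖) n p) :
    IsHyp f R L χ m₂ H₂.symm H₂ (fun p => π p.1) (fun p => v p.1) (fun p => p.2)
      (fun p => ‖fderiv ℂ f (π p.1) (v p.1)‖)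
      (fun p => ‖fderiv ℂ g (π (H₂.symm p).1) (H₂.symm p).2‖⁻¹) := by
  have hL0 : 0 < L := by linarith
  have s2' : ∀ p, (H₂.symm p).1 = H₁ p.1 := fun p => by
    have := s2 (H₂.symm p)
    rw [H₂.apply_symm_apply] at this
    rw [this, H₁.apply_symm_apply]
  have i1 : ∀ y z, fderiv ℂ g (π (H₁ y)) (fderiv ℂ f (π y) z) = z := fun y z => by
    rw [semi]; exact hyp_inv cf cg gf _ z
  have i2 : ∀ y z, fderiv ℂ f (π y) (fderiv ℂ g (π (H₁ y)) z) = z := fun y z => by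
    have := hyp_inv cg cf fg (f (π y)) z
    rwa [gf, ← semi] at this
  have bb : ∀ p : Y × sphere (0 : E) 1, L⁻¹ ≤ ‖fderiv ℂ g (π (H₂.symm p).1) (H₂.symm p).2‖ ∧
      ‖fderiv ℂ g (π (H₂.symm p).1) (H₂.symm p).2‖ ≤ L := fun p =>
    hyp_bounds hL0 (bg _ (bd _)) (bf _ (bd p.1)) (by rw [s2']; exact i2 p.1)
      (norm_eq_of_mem_sphere _)
  have c1 : Continuous fun p : Y × sphere (0 : E) 1 => ‖fderiv ℂ f (π p.1) (v p.1)‖ :=
    (((cf.continuous_fderiv (by norm_num)).comp (hπ.comp continuous_fst)).clm_apply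
      (hv.comp continuous_fst)).norm
  have c2 : Continuous fun p : Y × sphere (0 : E) 1 => ‖fderiv ℂ g (π p.1) p.2‖ :=
    (((cg.continuous_fderiv (by norm_num)).comp (hπ.comp continuous_fst)).clm_apply
      (continuous_subtype_val.comp continuous_snd)).norm
  refine
    { mp := mp'
      mp' := mp
      left := H₂.apply_symm_apply
      right := H₂.symm_apply_apply
      mπ := (hπ.comp continuous_fst).measurable
      mv := (hv.comp continuous_fst).measurable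
      mw := (continuous_subtype_val.comp continuous_snd).measurable
      ma := c1.measurable
      mb := (c2.comp H₂.symm.continuous).measurable.inv
      semi := fun p => by rw [s2', semi]
      bd := fun p => bd _
      nv := fun p => nv _
      nw := fun p => norm_eq_of_mem_sphere _
      up := fun p => bf _ (bd _)
      low := fun p z => ?_
      dv := fun p => by rw [s2']; exact dv _
      dw := fun p => ?_
      ab := fun p => ?_
      hyp := ?_ }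
  · calc ‖z‖ = ‖fderiv ℂ g (π (H₁ p.1)) (fderiv ℂ f (π p.1) z)‖ := by rw [i1]
      _ ≤ ‖fderiv ℂ g (π (H₁ p.1))‖ * ‖fderiv ℂ f (π p.1) z‖ := ContinuousLinearMap.le_opNorm _ _
      _ ≤ L * ‖fderiv ℂ f (π p.1) z‖ := mul_le_mul_of_nonneg_right (bg _ (bd _)) (norm_nonneg _)
  · have e1 := dw (H₂.symm p)
    rw [H₂.apply_symm_apply] at e1
    have e2 := i2 p.1 (H₂.symm p).2
    rw [← s2', e1, map_smul] at e2
    have e3 : ((‖fderiv ℂ g (π (H₂.symm p).1) (H₂.symm p).2‖ : ℝ) : ℂ) ≠ 0 :=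
      Complex.ofReal_ne_zero.2 ((inv_pos.2 hL0).trans_le (bb p).1).ne'
    rw [Complex.ofReal_inv, eq_inv_smul_iff₀ e3]
    exact e2
  · have e1 := hyp_bounds hL0 (bf _ (bd p.1)) (bg _ (bd (H₁ p.1))) (i1 p.1) (nv p.1)
    have e2 := bb p
    have e3 := (inv_pos.2 hL0).trans_le e2.1
    exact ⟨e1.1, e1.2, inv_anti₀ e3 e2.2, inv_le_of_inv_le₀ hL0 e2.1⟩
  · have g1' := ae_of_ae_map measurable_fst.aemeasurable (ae_mono le g1)
    filter_upwards [g1', g2] with p ⟨k₁, hk₁⟩ ⟨k₂, hk₂⟩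
    refine ⟨max k₁ k₂, fun n hn => ⟨?_, ?_, ?_⟩⟩
    · rw [hyp_birk s2' fun p => Real.log ‖fderiv ℂ f (π p) (v p)‖]
      exact (hk₁ n ((le_max_left _ _).trans hn)).1
    · simp only [s2]
      rw [hyp_birk s2 fun p => Real.log ‖fderiv ℂ f (π (H₁.symm p)) (v (H₁.symm p))‖]
      exact (hk₁ n ((le_max_left _ _).trans hn)).2
    · have e1 := (hk₂ n ((le_max_right _ _).trans hn)).2
      simp only [birkhoffSum, Real.log_inv, Finset.sum_neg_distrib] at e1 ⊢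
      linarith

theorem exists_hyp {f g : E → E} {d : ℕ} {R₀ : ℝ} (h : IsHL f g d R₀) {φ : E → ℝ}
    (hφ : Continuous φ) {B : ℝ} (hB : ∀ x, |φ x| ≤ B) {P h₀ : ℝ} (h0 : 0 < h₀)
    (hP : ∀ ν, IsInvariantProb f ν → fe f φ ν ≤ P) (hgap : ∀ x, φ x + 2 * h₀ ≤ P) :
    ∃ L χ t δ₀ : ℝ, 1 ≤ L ∧ 0 < χ ∧ 0 < t ∧ 0 < δ₀ ∧ ∀ (μ : Measure E) (δ : ℝ),
      IsInvariantProb f μ → δ ≤ δ₀ → ((P - δ : ℝ) : EReal) ≤ fe f φ μ →
      ∃ (Y : Type) (_ : MeasurableSpace Y) (m : Measure Y) (G G' : Y → Y) (π v w : Y → E)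
        (a b : Y → ℝ), IsFiniteMeasure m ∧ IsHyp f R₀ L χ m G G' π v w a b ∧ m.map π ≤ μ ∧
          t ≤ m.real univ := by
  obtain ⟨L₁, hL₁, bf₁, -⟩ := exists_lip h.cf R₀
  obtain ⟨L₂, -, bg₂, -⟩ := exists_lip h.cg R₀
  obtain ⟨L, hL, bf, bg⟩ : ∃ L : ℝ, 2 ≤ L ∧ (∀ x : E, ‖x‖ ≤ R₀ → ‖fderiv ℂ f x‖ ≤ L) ∧
      ∀ x : E, ‖x‖ ≤ R₀ → ‖fderiv ℂ g x‖ ≤ L :=
    ⟨max L₁ L₂, hL₁.trans (le_max_left _ _), fun x hx => (bf₁ x hx).trans (le_max_left _ _),
      fun x hx => (bg₂ x hx).trans (le_max_right _ _)⟩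
  have hlog : 0 < Real.log L := Real.log_pos (by linarith)
  obtain ⟨c, hc⟩ : ∃ c, c = h₀ / (16 * Real.log L) := ⟨_, rfl⟩
  obtain ⟨κ, hκ⟩ : ∃ κ, κ = h₀ / 8 / 4 / (Real.log L + h₀ / 8 / 2) := ⟨_, rfl⟩
  have c0 : 0 < c := by rw [hc]; positivity
  have κ0 : 0 < κ := by rw [hκ]; positivity
  have b0 : 0 < h₀ / 8 := by positivity
  have t0 : 0 < c * κ := mul_pos c0 κ0
  refine ⟨L, h₀ / 8 / 2, c * κ * c * κ, h₀ * min 1 (c * κ), by linarith, by positivity,
    by positivity, mul_pos h0 (lt_min one_pos t0), fun μ δ hμ hδ hfe => ?_⟩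
  have cf := h.cf.continuous
  have cg := h.cg.continuous
  have := hμ.1
  have : CompactSpace (hypK f g R₀) := isCompact_iff_compactSpace.1 (hypK_compact cf cg R₀)
  have hK : MeasurableSet (hypK f g R₀) := (hypK_closed cf cg R₀).measurableSet
  have hae : ∀ {ν : Measure E}, IsInvariantProb f ν → ∀ᵐ x ∂ν, ‖x‖ ≤ R₀ := fun {ν} hν => by
    have := hν.1
    exact (h.ae_bounded hν.2).mono fun x hx => (hx 0).1
  have hm₀ : (μ.comap (Subtype.val : hypK f g R₀ → E)).map Subtype.val = μ := by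
    rw [map_comap_subtype_coe hK]
    exact Measure.restrict_eq_self_of_ae_mem (h.ae_bounded hμ.2)
  have mG := (hypG cf cg h.gf h.fg R₀).continuous.measurable
  have hmp₀ : MeasurePreserving (hypG cf cg h.gf h.fg R₀) (μ.comap Subtype.val)
      (μ.comap Subtype.val) := by
    refine ⟨mG, (MeasurableEmbedding.subtype_coe hK).map_injective ?_⟩
    rw [Measure.map_map measurable_subtype_coe mG,
      show (Subtype.val ∘ hypG cf cg h.gf h.fg R₀) = f ∘ Subtype.val from rfl,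
      ← Measure.map_map cf.measurable measurable_subtype_coe, hm₀, hμ.2.map_eq]
  have hδ1 : δ ≤ h₀ := hδ.trans (mul_le_of_le_one_right h0.le (min_le_left _ _))
  have hδ2 : δ / (c * κ) ≤ h₀ := by
    rw [div_le_iff₀ t0]
    exact hδ.trans (mul_le_mul_of_nonneg_left (min_le_right _ _) h0.le)
  have e0 : (h₀ : EReal) ≤ ksEntropy f μ :=
    hyp_ent hφ hB hgap ((EReal.coe_le_coe_iff.2 (by linarith)).trans hfe)
  obtain ⟨H₁, m₁, s1, dv, fin₁, mp₁, mp₁', le₁, mass₁, g1⟩ :=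
    hyp_lift h.cf h.cg h.gf h.fg hL bf bg (hypG cf cg h.gf h.fg R₀) continuous_subtype_val
      (fun _ => rfl) (fun y => (y.2 0).1) (μ.comap Subtype.val) hmp₀ b0 c0
      (by rw [hm₀, hc]; exact hyp_freq h.cf hμ hL h0 (hae hμ) bf e0)
  rw [← hκ] at mass₁
  obtain ⟨π, hπ⟩ : ∃ π : hypK f g R₀ × sphere (0 : E) 1 → E, π = fun p => (p.1 : E) := ⟨_, rfl⟩
  have cπ : Continuous π := by rw [hπ]; exact continuous_subtype_val.comp continuous_fst
  have semi : ∀ p, π (H₁ p) = f (π p) := fun p => by rw [hπ]; simp only [s1]; rfl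
  have semi' : ∀ p, π (H₁.symm p) = g (π p) := fun p => by
    rw [← h.gf (π (H₁.symm p)), ← semi, H₁.apply_symm_apply]
  have bd : ∀ p, ‖π p‖ ≤ R₀ := fun p => by rw [hπ]; exact (p.1.2 0).1
  have leν : m₁.map π ≤ μ := by
    rw [hπ, ← hm₀]
    exact (Measure.map_map measurable_subtype_coe measurable_fst).symm.trans_le
      (Measure.map_mono le₁ measurable_subtype_coe)
  have invν : MeasurePreserving f (m₁.map π) (m₁.map π) :=
    MeasurePreserving.of_semiconj (cπ.measurable.measurePreserving m₁) mp₁ semi cf.measurable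
  have massν : c * κ ≤ (m₁.map π).real univ := by
    rw [map_measureReal_apply cπ.measurable MeasurableSet.univ]
    exact mass₁
  obtain ⟨i, -, ne, hν, hfeν⟩ := exists_piece cf.measurable hφ.measurable hB hP hμ hfe
    ({()} : Finset Unit) (fun _ => m₁.map π) (fun _ _ => invν)
    (by rw [Finset.sum_singleton]; exact leν) t0 (by rw [Finset.sum_singleton]; exact massν)
  have := hν.1
  have e1 := hyp_ent hφ hB hgap ((EReal.coe_le_coe_iff.2 (by linarith)).trans hfeν)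
  rw [← ksEntropy_inv hν.2 (h.measurePreserving_inv hν.2) h.gf h.fg] at e1
  have fr := hyp_freq h.cg ⟨hν.1, h.measurePreserving_inv hν.2⟩ hL h0 (hae hν) bg e1
  obtain ⟨H₂, m₂, s2, dw, fin₂, mp₂, mp₂', le₂, mass₂, g2⟩ :=
    hyp_lift h.cg h.cf h.fg h.gf hL bg bf H₁.symm cπ semi' bd m₁ mp₁' b0 (mul_pos t0 c0)
      (fr.mono fun n hn => by
        rw [← hc, measureReal_ennreal_smul_apply, ENNReal.toReal_inv,
          ← measureReal_def, le_inv_mul_iff₀ (t0.trans_le massν)] at hn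
        exact (mul_le_mul_of_nonneg_right massν c0.le).trans hn)
  rw [← hκ] at mass₂
  refine ⟨_, _, m₂, _, _, _, _, _, _, _, fin₂,
    hyp_final h.cf h.cg h.gf h.fg hL bf bg H₁ cπ (continuous_subtype_val.comp continuous_snd)
      semi bd (fun p => norm_eq_of_mem_sphere p.2) (by rw [hπ]; exact dv) (by rw [hπ]; exact g1)
      H₂ s2 dw mp₂ mp₂' le₂ g2, ?_, mass₂⟩
  exact ((Measure.map_map cπ.measurable measurable_fst).symm.trans_le
    (Measure.map_mono le₂ cπ.measurable)).trans leν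

end Pool.Agent.P.MP_eeb913_an.U
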