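import Mathlib
import Pool.Agent.P.MP_eeb913_an.U.Basic
import Pool.Agent.P.MP_eeb913_an.U.Ergodic

/-!
Lyapunov sup-norms and tempering.

Sketch. Let su y = ⨆ n, ENNReal.ofReal (exp (χ n - birkhoffSum G' (log a ∘ G') n y)) and
ss y = ⨆ n, ENNReal.ofReal (exp (χ n + birkhoffSum G (log b) n y)), measurable, ≥ 1, finite a.e. by
hyp. With u = su.toReal, s = ss.toReal: u (G y) = max 1 (exp χ * u y / a y) and
s y = max 1 (exp χ * b y * s (G y)). V = v / u, W = w / s, A = a y * u (G y) / u y = max (a / u) (exp χ),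
B = b y * s (G y) / s y ≤ exp (-χ), B ≥ min L⁻¹ (exp (-χ)). det (p, p') = p.1 p'.2 - p.2 p'.1.
S = {su < ⊤, ss < ⊤, det (v, w) ≠ 0} is invariant under G and G' (det (Df v, Df w) = Jac * det (v, w)
with (2 L²)⁻¹ ≤ |Jac| ≤ 2 L² by up and low) and conull: if w = λ v then by induction
∏ a = ∏ b along the forward orbit, against hyp. Q = 2 / ‖det (V, W)‖ on S (Cramer's rule, entries of
norm ≤ 1). q = log Q has bounded increments on S under G and G' since
A B det (V, W) (G y) = Jac * det (V, W) y; apply tempered to G and to G'.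
-/

namespace Pool.Agent.P.MP_eeb913_an.U

open MeasureTheory Filter Metric Set
open scoped ENNReal NNReal Topology

/-- The supremum of the Birkhoff sums. -/
theorem lyap_sup {Y : Type} [MeasurableSpace Y] {G : Y → Y} (hG : Measurable G) {c : Y → ℝ}
    (hc : Measurable c) :
    ∃ (σ : Y → ℝ) (T : Set Y), Measurable σ ∧ MeasurableSet T ∧ (∀ y, G y ∈ T ↔ y ∈ T) ∧
      (∀ y ∈ T, 0 ≤ σ y ∧ σ y = max 0 (c y + σ (G y))) ∧
      ∀ y, (∃ k : ℕ, ∀ n : ℕ, k ≤ n → birkhoffSum G c n y ≤ 0) → y ∈ T := by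
  have hm : ∀ n : ℕ, Measurable fun y => birkhoffSum G c n y := fun n =>
    Finset.measurable_sum _ fun i _ => hc.comp (hG.iterate i)
  have hinv : ∀ y, BddAbove (range fun n : ℕ => birkhoffSum G c n (G y)) ↔
      BddAbove (range fun n : ℕ => birkhoffSum G c n y) := by
    intro y
    constructor
    · rintro ⟨M, hM⟩
      refine ⟨max 0 (c y + M), ?_⟩
      rintro _ ⟨n, rfl⟩
      cases n with
      | zero => simp
      | succ n =>
        simp only [birkhoffSum_succ']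
        exact le_max_of_le_right (by linarith [hM ⟨n, rfl⟩])
    · rintro ⟨M, hM⟩
      refine ⟨M - c y, ?_⟩
      rintro _ ⟨n, rfl⟩
      have := hM ⟨n + 1, rfl⟩
      simp only [birkhoffSum_succ'] at this
      simp only []
      linarith
  refine ⟨fun y => ⨆ n : ℕ, birkhoffSum G c n y,
    {y | BddAbove (range fun n : ℕ => birkhoffSum G c n y)}, Measurable.iSup hm,
    measurableSet_bddAbove_range hm, hinv, fun y hy => ?_, fun y ⟨k, hk⟩ => ?_⟩
  · have hy' := (hinv y).2 hy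
    have h0 : 0 ≤ ⨆ n : ℕ, birkhoffSum G c n y := by simpa using le_ciSup hy 0
    refine ⟨h0, le_antisymm (ciSup_le fun n => ?_) (max_le h0 ?_)⟩
    · cases n with
      | zero => simp
      | succ n =>
        rw [birkhoffSum_succ']
        exact le_max_of_le_right (by linarith [le_ciSup hy' n])
    · have : (⨆ n : ℕ, birkhoffSum G c n (G y)) ≤ (⨆ n : ℕ, birkhoffSum G c n y) - c y :=
        ciSup_le fun n => by
          have := le_ciSup hy (n + 1)
          rw [birkhoffSum_succ'] at this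
          linarith
      simp only []
      linarith
  · refine ⟨∑ i ∈ Finset.range k, |birkhoffSum G c i y|, ?_⟩
    rintro _ ⟨n, rfl⟩
    by_cases hn : k ≤ n
    · exact (hk n hn).trans (Finset.sum_nonneg fun i _ => abs_nonneg _)
    · exact (le_abs_self _).trans (Finset.single_le_sum
        (f := fun i => |birkhoffSum G c i y|) (fun i _ => abs_nonneg _)
        (Finset.mem_range.2 (not_le.1 hn)))

theorem lyap_max {x x' c : ℝ} (hx : 0 ≤ x) (h : x' = max 0 (c + x)) : |x' - x| ≤ |c| := by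
  rw [h, abs_le]
  constructor
  · linarith [le_max_right 0 (c + x), neg_abs_le c]
  · have : max 0 (c + x) ≤ |c| + x :=
      max_le (by linarith [abs_nonneg c]) (by linarith [le_abs_self c])
    linarith

/-- The determinant of two vectors. -/
def det2 (p p' : E) : ℂ := p.1 * p'.2 - p.2 * p'.1

theorem det2_le (p p' : E) : ‖det2 p p'‖ ≤ 2 * (‖p‖ * ‖p'‖) := by
  have h1 : ‖p.1 * p'.2‖ ≤ ‖p‖ * ‖p'‖ := by
    rw [norm_mul]
    exact mul_le_mul (norm_fst_le p) (norm_snd_le p') (norm_nonneg _) (norm_nonneg _)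
  have h2 : ‖p.2 * p'.1‖ ≤ ‖p‖ * ‖p'‖ := by
    rw [norm_mul]
    exact mul_le_mul (norm_snd_le p) (norm_fst_le p') (norm_nonneg _) (norm_nonneg _)
  linarith [norm_sub_le (p.1 * p'.2) (p.2 * p'.1), show ‖det2 p p'‖ = ‖p.1 * p'.2 - p.2 * p'.1‖
    from rfl]

theorem det2_smul (s t : ℂ) (p p' : E) : det2 (s • p) (t • p') = s * t * det2 p p' := by
  simp only [det2, Prod.smul_fst, Prod.smul_snd, smul_eq_mul]
  ring

theorem lin_apply (M : E →L[ℂ] E) (z : E) : M z = z.1 • M (1, 0) + z.2 • M (0, 1) := by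
  rw [← map_smul, ← map_smul, ← map_add]
  congr 1
  ext <;> simp

theorem det2_map (M : E →L[ℂ] E) (p p' : E) :
    det2 (M p) (M p') = det2 (M (1, 0)) (M (0, 1)) * det2 p p' := by
  rw [lin_apply M p, lin_apply M p']
  simp only [det2, Prod.fst_add, Prod.snd_add, Prod.smul_fst, Prod.smul_snd, smul_eq_mul]
  ring

theorem jac_up {M : E →L[ℂ] E} {L : ℝ} (h : ‖M‖ ≤ L) :
    ‖det2 (M (1, 0)) (M (0, 1))‖ ≤ 2 * (L * L) := by
  have h1 : ‖M (1, 0)‖ ≤ L := by
    refine (M.le_opNorm _).trans ?_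
    simpa [Prod.norm_def] using h
  have h2 : ‖M (0, 1)‖ ≤ L := by
    refine (M.le_opNorm _).trans ?_
    simpa [Prod.norm_def] using h
  refine (det2_le _ _).trans ?_
  have := mul_le_mul h1 h2 (norm_nonneg _) ((norm_nonneg _).trans h1)
  linarith

theorem jac_low {M : E →L[ℂ] E} {L : ℝ} (hL : 0 ≤ L) (h : ∀ z, ‖z‖ ≤ L * ‖M z‖) :
    1 ≤ L * L * ‖det2 (M (1, 0)) (M (0, 1))‖ := by
  have e1 : M ((M (0, 1)).2, -(M (1, 0)).2) = (det2 (M (1, 0)) (M (0, 1)), 0) := by
    rw [lin_apply M (_, _)]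
    ext <;> simp only [det2, Prod.fst_add, Prod.snd_add, Prod.smul_fst, Prod.smul_snd,
      smul_eq_mul] <;> ring
  have e2 : M (-(M (0, 1)).1, (M (1, 0)).1) = (0, det2 (M (1, 0)) (M (0, 1))) := by
    rw [lin_apply M (_, _)]
    ext <;> simp only [det2, Prod.fst_add, Prod.snd_add, Prod.smul_fst, Prod.smul_snd,
      smul_eq_mul] <;> ring
  have h1 := h ((M (0, 1)).2, -(M (1, 0)).2)
  have h2 := h (-(M (0, 1)).1, (M (1, 0)).1)
  rw [e1] at h1
  rw [e2] at h2
  simp only [Prod.norm_def, norm_neg, norm_zero, max_le_iff, norm_nonneg, max_eq_left,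
    max_eq_right] at h1 h2
  have h3 : ‖M (1, 0)‖ ≤ L * ‖det2 (M (1, 0)) (M (0, 1))‖ := by
    rw [Prod.norm_def]
    exact max_le h2.2 h1.2
  have h4 := h (1, 0)
  have h5 : ‖((1, 0) : E)‖ = 1 := by simp [Prod.norm_def]
  rw [h5] at h4
  calc (1 : ℝ) ≤ L * ‖M (1, 0)‖ := h4
    _ ≤ L * (L * ‖det2 (M (1, 0)) (M (0, 1))‖) := mul_le_mul_of_nonneg_left h3 hL
    _ = _ := by ring

theorem cramer2 {V W : E} (hV : ‖V‖ ≤ 1) (hW : ‖W‖ ≤ 1) {Q : ℝ} (hQ0 : 0 ≤ Q)
    (hQ : Q * ‖det2 V W‖ = 2) (z : E) : ‖z‖ ≤ Q * ‖z.1 • V + z.2 • W‖ := by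
  have e1 : det2 (z.1 • V + z.2 • W) W = z.1 * det2 V W := by
    simp only [det2, Prod.fst_add, Prod.snd_add, Prod.smul_fst, Prod.smul_snd, smul_eq_mul]
    ring
  have e2 : det2 V (z.1 • V + z.2 • W) = z.2 * det2 V W := by
    simp only [det2, Prod.fst_add, Prod.snd_add, Prod.smul_fst, Prod.smul_snd, smul_eq_mul]
    ring
  have h1 := det2_le (z.1 • V + z.2 • W) W
  have h2 := det2_le V (z.1 • V + z.2 • W)
  rw [e1, norm_mul] at h1
  rw [e2, norm_mul] at h2
  have hp := norm_nonneg (z.1 • V + z.2 • W)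
  have key : ∀ t : ℝ, t * ‖det2 V W‖ ≤ 2 * ‖z.1 • V + z.2 • W‖ →
      t ≤ Q * ‖z.1 • V + z.2 • W‖ := fun t ht => by
    have := mul_le_mul_of_nonneg_left ht hQ0
    rw [mul_left_comm, hQ] at this
    linarith
  rw [Prod.norm_def z]
  refine max_le (key _ (h1.trans ?_)) (key _ (h2.trans ?_))
  · nlinarith
  · nlinarith

theorem par_eq {M : E →L[ℂ] E} {v w v' w' : E} {a b : ℝ} (ha : 0 ≤ a) (hb : 0 ≤ b)
    (hv : ‖v‖ = 1) (hw : ‖w‖ = 1) (hv' : ‖v'‖ = 1) (hw' : ‖w'‖ = 1)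
    (dv : M v = (a : ℂ) • v') (dw : M w = (b : ℂ) • w') (h : det2 v w = 0) : a = b := by
  have e1 : w.1 • v = v.1 • w := by
    ext
    · simp only [Prod.smul_fst, smul_eq_mul]; ring
    · simp only [Prod.smul_snd, smul_eq_mul]
      simp only [det2] at h
      linear_combination -h
  have e2 : w.2 • v = v.2 • w := by
    ext
    · simp only [Prod.smul_fst, smul_eq_mul]
      simp only [det2] at h
      linear_combination h
    · simp only [Prod.smul_snd, smul_eq_mul]; ring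
  have k : ∀ s t : ℂ, s • v = t • w → ‖s‖ * a = ‖t‖ * b := fun s t hst => by
    have := congrArg (fun x => ‖M x‖) hst
    simpa [dv, dw, norm_smul, hv', hw', abs_of_nonneg ha, abs_of_nonneg hb] using this
  have k1 := k _ _ e1
  have k2 := k _ _ e2
  calc a = ‖w‖ * a := by rw [hw, one_mul]
    _ = max (‖w.1‖ * a) (‖w.2‖ * a) := by rw [Prod.norm_def, max_mul_of_nonneg _ _ ha]
    _ = ‖v‖ * b := by rw [k1, k2, Prod.norm_def, max_mul_of_nonneg _ _ hb]
    _ = b := by rw [hv, one_mul]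

theorem abs_log_le {L x : ℝ} (hL : 0 < L) (h1 : L⁻¹ ≤ x) (h2 : x ≤ L) :
    |Real.log x| ≤ Real.log L := by
  have hx : 0 < x := (inv_pos.2 hL).trans_le h1
  rw [abs_le, ← Real.log_inv]
  exact ⟨Real.log_le_log (inv_pos.2 hL) h1, Real.log_le_log hx h2⟩

theorem birk_const_add {Y : Type} (G : Y → Y) (χ : ℝ) (c : Y → ℝ) (n : ℕ) (y : Y) :
    birkhoffSum G (fun y => χ + c y) n y = χ * n + birkhoffSum G c n y := by
  simp [birkhoffSum, Finset.sum_add_distrib, mul_comm]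

theorem birk_const_sub {Y : Type} (G : Y → Y) (χ : ℝ) (c : Y → ℝ) (n : ℕ) (y : Y) :
    birkhoffSum G (fun y => χ - c y) n y = χ * n - birkhoffSum G c n y := by
  simp [birkhoffSum, Finset.sum_sub_distrib, mul_comm]

theorem exists_lyap {f : E → E} {R L χ : ℝ} {Y : Type} [MeasurableSpace Y] {m : Measure Y}
    [IsFiniteMeasure m] {G G' : Y → Y} {π v w : Y → E} {a b : Y → ℝ}
    (h : IsHyp f R L χ m G G' π v w a b) (hL : 1 ≤ L) (hχ : 0 < χ) :
    ∃ (V W : Y → E) (Q : Y → ℝ) (S : Set Y), Measurable V ∧ Measurable W ∧ Measurable Q ∧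
      MeasurableSet S ∧ (∀ y ∈ S, G y ∈ S) ∧ (∀ᵐ y ∂m, y ∈ S) ∧
      (∀ y ∈ S, ‖V y‖ ≤ 1 ∧ ‖W y‖ ≤ 1 ∧ (∀ z : E, ‖z‖ ≤ Q y * ‖z.1 • V y + z.2 • W y‖) ∧
        ∃ A B : ℝ, Real.exp χ ≤ A ∧ A ≤ max L (Real.exp χ) ∧ 0 ≤ B ∧ B ≤ Real.exp (-χ) ∧
          fderiv ℂ f (π y) (V y) = (A : ℂ) • V (G y) ∧
          fderiv ℂ f (π y) (W y) = (B : ℂ) • W (G y)) ∧
      ∀ ε : ℝ, 0 < ε → ∀ᵐ y ∂m, ∃ K : ℝ, ∀ n : ℕ,
        Q (G^[n] y) ≤ K * Real.exp (ε * n) ∧ Q (G'^[n] y) ≤ K * Real.exp (ε * n) := by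
  have hL0 : 0 < L := one_pos.trans_le hL
  have ha0 : ∀ y, 0 < a y := fun y => (inv_pos.2 hL0).trans_le (h.ab y).1
  have hb0 : ∀ y, 0 < b y := fun y => (inv_pos.2 hL0).trans_le (h.ab y).2.2.1
  have hla : ∀ y, |Real.log (a y)| ≤ Real.log L := fun y =>
    abs_log_le hL0 (h.ab y).1 (h.ab y).2.1
  have hlb : ∀ y, |Real.log (b y)| ≤ Real.log L := fun y =>
    abs_log_le hL0 (h.ab y).2.2.1 (h.ab y).2.2.2
  obtain ⟨σ, T, mσ, mT, iT, eT, cT⟩ := lyap_sup h.mp'.measurable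
    (c := fun y => χ - Real.log (a (G' y)))
    (measurable_const.sub (h.ma.comp h.mp'.measurable).log)
  obtain ⟨τ, U, mτ, mU, iU, eU, cU⟩ := lyap_sup h.mp.measurable
    (c := fun y => χ + Real.log (b y)) (measurable_const.add h.mb.log)
  have iT' : ∀ y, G y ∈ T ↔ y ∈ T := fun y => by rw [← iT (G y), h.left]
  have eT' : ∀ y ∈ T, σ (G y) = max 0 (χ - Real.log (a y) + σ y) := fun y hy => by
    have := (eT (G y) ((iT' y).2 hy)).2
    rwa [h.left] at this
  have mv := h.mv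
  have mw := h.mw
  have mD : Measurable fun y => det2 (v y) (w y) := by
    unfold det2
    fun_prop
  -- the determinant along the orbit
  have eD : ∀ y, a y * b y * ‖det2 (v (G y)) (w (G y))‖ =
      ‖det2 (fderiv ℂ f (π y) (1, 0)) (fderiv ℂ f (π y) (0, 1))‖ * ‖det2 (v y) (w y)‖ := by
    intro y
    rw [← norm_mul, ← det2_map, h.dv, h.dw, det2_smul, norm_mul, norm_mul, Complex.norm_real,
      Complex.norm_real, Real.norm_of_nonneg (ha0 y).le, Real.norm_of_nonneg (hb0 y).le]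
  have hJ : ∀ y, 0 < ‖det2 (fderiv ℂ f (π y) (1, 0)) (fderiv ℂ f (π y) (0, 1))‖ := fun y => by
    have := jac_low hL0.le (h.low y)
    by_contra hc
    have h0 := le_antisymm (not_lt.1 hc) (norm_nonneg _)
    rw [h0, mul_zero] at this
    linarith
  have hlJ : ∀ y, |Real.log ‖det2 (fderiv ℂ f (π y) (1, 0)) (fderiv ℂ f (π y) (0, 1))‖| ≤
      Real.log (2 * (L * L)) := fun y => by
    refine abs_log_le (by positivity) ?_ (jac_up (h.up y))
    rw [inv_le_iff_one_le_mul₀' (by positivity)]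
    have := jac_low hL0.le (h.low y)
    nlinarith [hJ y]
  have iD : ∀ y, det2 (v (G y)) (w (G y)) = 0 ↔ det2 (v y) (w y) = 0 := fun y => by
    rw [← norm_eq_zero, ← norm_eq_zero (a := det2 (v y) (w y)),
      ← mul_eq_zero_iff_left (mul_pos (ha0 y) (hb0 y)).ne', eD, mul_eq_zero_iff_left (hJ y).ne']
  have par : ∀ (n : ℕ) (y : Y), det2 (v y) (w y) = 0 →
      birkhoffSum G (fun y => Real.log (a y)) n y = birkhoffSum G (fun y => Real.log (b y)) n y := by
    intro n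
    induction n with
    | zero => intro y _; simp
    | succ n ih =>
      intro y hy
      rw [birkhoffSum_succ', birkhoffSum_succ', ih _ ((iD y).2 hy),
        par_eq (ha0 y).le (hb0 y).le (h.nv y) (h.nw y) (h.nv _) (h.nw _) (h.dv y) (h.dw y) hy]
  set S : Set Y := T ∩ U ∩ {y | det2 (v y) (w y) = 0}ᶜ with hS
  have iS : ∀ y, G y ∈ S ↔ y ∈ S := fun y => by
    simp only [hS, mem_inter_iff, mem_compl_iff, mem_ofPred_eq, iT', iU, iD]
  have aS : ∀ᵐ y ∂m, y ∈ S := by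
    filter_upwards [h.hyp] with y ⟨k, hk⟩
    refine ⟨⟨cT y ⟨k, fun n hn => ?_⟩, cU y ⟨k, fun n hn => ?_⟩⟩, fun h0 => ?_⟩
    · rw [birk_const_sub]
      linarith [(hk n hn).2.1]
    · rw [birk_const_add]
      linarith [(hk n hn).2.2]
    · obtain ⟨h1, -, h2⟩ := hk (k + 1) k.le_succ
      rw [par _ y h0] at h1
      have : 0 < χ * ((k + 1 : ℕ) : ℝ) := by positivity
      linarith
  set q : Y → ℝ := fun y => Real.log 2 - Real.log ‖det2 (v y) (w y)‖ + σ y + τ y with hq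
  have mq : Measurable q := ((measurable_const.sub mD.norm.log).add mσ).add mτ
  have bq : ∀ y ∈ S, |q (G y) - q y| ≤ Real.log (2 * (L * L)) + 4 * Real.log L + 2 * χ := by
    intro y hy
    have d0 : 0 < ‖det2 (v y) (w y)‖ := norm_pos_iff.2 hy.2
    have d1 : 0 < ‖det2 (v (G y)) (w (G y))‖ := norm_pos_iff.2 ((iS y).2 hy).2
    have e := congrArg Real.log (eD y)
    rw [Real.log_mul (mul_pos (ha0 y) (hb0 y)).ne' d1.ne', Real.log_mul (ha0 y).ne' (hb0 y).ne',
      Real.log_mul (hJ y).ne' d0.ne'] at e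
    have s1 := lyap_max (eT y hy.1.1).1 (eT' y hy.1.1)
    have s2 := lyap_max (eU (G y) ((iU y).2 hy.1.2)).1 (eU y hy.1.2).2
    have s3 : |χ - Real.log (a y)| ≤ χ + Real.log L := by
      have := abs_le.1 (hla y)
      rw [abs_le]
      constructor <;> linarith
    have s4 : |χ + Real.log (b y)| ≤ χ + Real.log L := by
      have := abs_le.1 (hlb y)
      rw [abs_le]
      constructor <;> linarith
    have t1 := abs_le.1 (s1.trans s3)
    have t2 := abs_le.1 (s2.trans s4)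
    have t3 := abs_le.1 (hla y)
    have t4 := abs_le.1 (hlb y)
    have t5 := abs_le.1 (hlJ y)
    simp only [hq]
    rw [abs_le]
    constructor <;> linarith
  have nV : ∀ (t : ℝ) (p : E), 0 ≤ t → ‖p‖ = 1 → ‖(Real.exp (-t) : ℂ) • p‖ ≤ 1 := by
    intro t p ht hp
    rw [norm_smul, hp, mul_one, Complex.norm_real, Real.norm_of_nonneg (Real.exp_pos _).le]
    exact Real.exp_le_one_iff.2 (by linarith)
  have dV : ∀ (M : E →L[ℂ] E) (p p' : E) (c s t : ℝ), 0 < c → M p = (c : ℂ) • p' →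
      M ((Real.exp (-s) : ℂ) • p) =
        (Real.exp (Real.log c + t - s) : ℂ) • ((Real.exp (-t) : ℂ) • p') := by
    intro M p p' c s t hc hM
    rw [map_smul, hM, smul_smul, smul_smul, ← Complex.ofReal_mul, ← Complex.ofReal_mul,
      ← Real.exp_add, show Real.log c + t - s + -t = -s + Real.log c by ring, Real.exp_add,
      Real.exp_log hc]
  refine ⟨fun y => (Real.exp (-σ y) : ℂ) • v y, fun y => (Real.exp (-τ y) : ℂ) • w y,
    fun y => Real.exp (q y), S, by fun_prop, by fun_prop, mq.exp,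
    (mT.inter mU).inter (mD (measurableSet_singleton 0)).compl, fun y hy => (iS y).2 hy, aS,
    fun y hy => ?_, fun ε hε => ?_⟩
  · have hV := nV _ _ (eT y hy.1.1).1 (h.nv y)
    have hW := nV _ _ (eU y hy.1.2).1 (h.nw y)
    have d0 : 0 < ‖det2 (v y) (w y)‖ := norm_pos_iff.2 hy.2
    refine ⟨hV, hW, cramer2 hV hW (Real.exp_pos _).le ?_,
      Real.exp (Real.log (a y) + σ (G y) - σ y), Real.exp (Real.log (b y) + τ (G y) - τ y),
      Real.exp_le_exp.2 ?_, ?_, (Real.exp_pos _).le, Real.exp_le_exp.2 ?_,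
      dV _ _ _ _ _ _ (ha0 y) (h.dv y), dV _ _ _ _ _ _ (hb0 y) (h.dw y)⟩
    · rw [det2_smul, norm_mul, ← Complex.ofReal_mul, Complex.norm_real, ← Real.exp_add,
        Real.norm_of_nonneg (Real.exp_pos _).le, ← mul_assoc, ← Real.exp_add]
      simp only [hq]
      rw [show Real.log 2 - Real.log ‖det2 (v y) (w y)‖ + σ y + τ y + (-σ y + -τ y)
        = Real.log 2 - Real.log ‖det2 (v y) (w y)‖ by ring, Real.exp_sub, Real.exp_log two_pos,
        Real.exp_log d0, div_mul_cancel₀ _ d0.ne']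
    · have := eT' y hy.1.1
      linarith [le_max_right 0 (χ - Real.log (a y) + σ y)]
    · rcases max_cases 0 (χ - Real.log (a y) + σ y) with ⟨h1, -⟩ | ⟨h1, -⟩
      · refine le_max_of_le_left (((Real.exp_le_exp.2 ?_).trans_eq
          (Real.exp_log (ha0 y))).trans (h.ab y).2.1)
        linarith [eT' y hy.1.1, (eT y hy.1.1).1]
      · refine le_max_of_le_right (Real.exp_le_exp.2 ?_)
        linarith [eT' y hy.1.1]
    · have := (eU y hy.1.2).2
      linarith [le_max_right 0 (χ + Real.log (b y) + τ (G y))]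
  · have t1 := tempered h.mp mq (aS.mono bq) hε
    have t2 := tempered h.mp' mq (B := Real.log (2 * (L * L)) + 4 * Real.log L + 2 * χ)
      (aS.mono fun y hy => by
        have := bq (G' y) (by rw [← iS, h.right]; exact hy)
        rwa [h.right, abs_sub_comm] at this) hε
    filter_upwards [t1, t2] with y ⟨K1, h1⟩ ⟨K2, h2⟩
    refine ⟨Real.exp (max K1 K2), fun n => ?_⟩
    rw [← Real.exp_add]
    exact ⟨Real.exp_le_exp.2 (by linarith [h1 n, le_max_left K1 K2]),
      Real.exp_le_exp.2 (by linarith [h2 n, le_max_right K1 K2])⟩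

end Pool.Agent.P.MP_eeb913_an.U
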