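import Mathlib
import Pool.Agent.P.MP_eeb913_an.U.Basic
import Pool.Agent.P.MP_eeb913_an.U.Hyp
import Pool.Agent.P.MP_eeb913_an.U.Lyap
import Pool.Agent.P.MP_eeb913_an.U.Charts

/-!
Selection of a Pesin cell.

Sketch. Take L, χ, t, δ₀ from exists_hyp; C₀ = 2 / t. Given μ, δ, Ek, D₀ take (Y, m, G, G', π, …) and
V, W, Q, S from exists_lyap with ε = χ / 2. The measurable sets
Λ k = {y ∈ S | π y ∈ Ek k ∧ ∀ n, Q (G^[n] y) ≤ k exp (ε n) ∧ Q (G'^[n] y) ≤ k exp (ε n)} increase to a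
conull set (m.map π ≤ μ), so m (Λ k) ≥ m univ / 2 for some k. Take κ, θ, D from good_of_segment
(R = R₀, L = max L (exp χ), K = k). Cover the compact set of triples (x, V, W) with norms ≤ R₀, 1, 1 by
finitely many balls of radius θ / 2 in E × E × E; R i = Λ k ∩ preimage of the i-th ball. With
recurrent_set, S i = {y | ∃ᶠ n, G^[n] y ∈ R i} is invariant and contains almost all of R i; make the
S i disjoint (remove the earlier ones; still invariant). ν i = (m.restrict (S' i)).map π are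
f-invariant, their sum is ≤ m.map π ≤ μ, total mass ≥ t / 2. exists_piece picks i; the new measure
is (m (S' i))⁻¹ • m.restrict (S' i). R i is nonempty; take y₀ ∈ R i, (x₀, V₀, W₀) = (π y₀, V y₀, W y₀).
For y, G^[n] y ∈ R i and j ≤ n: Q (G^[j] y) ≤ k exp (ε j) and, as G^[j] y = G'^[n-j] (G^[n] y),
≤ k exp (ε (n - j)).
-/

namespace Pool.Agent.P.MP_eeb913_an.U

open MeasureTheory Filter Metric Set
open scoped ENNReal NNReal Topology

theorem cell_select {Y : Type} [MeasurableSpace Y] {m : Measure Y} [IsFiniteMeasure m]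
    {G : Y → Y} (hG : MeasurePreserving G m m) {f : E → E} (hf : Measurable f) {π : Y → E}
    (hπ : Measurable π) (semi : ∀ y, π (G y) = f (π y)) {φ : E → ℝ} (hφ : Measurable φ) {B : ℝ}
    (hB : ∀ x, |φ x| ≤ B) {P δ t : ℝ} (hP : ∀ ν, IsInvariantProb f ν → fe f φ ν ≤ P)
    {μ : Measure E} (hμ : IsInvariantProb f μ) (hδ : ((P - δ : ℝ) : EReal) ≤ fe f φ μ)
    (hle : m.map π ≤ μ) (N : ℕ) {R : ℕ → Set Y} (hR : ∀ i, MeasurableSet (R i)) (ht : 0 < t)
    {Λ : Set Y} (hΛ : ∀ y ∈ Λ, ∃ i < N, y ∈ R i) (hmass : t ≤ m.real Λ) :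
    ∃ i, (R i).Nonempty ∧ ∃ m' : Measure Y, IsProbabilityMeasure m' ∧ MeasurePreserving G m' m' ∧
      (∀ᵐ y ∂m', ∃ᶠ n in atTop, G^[n] y ∈ R i) ∧
      ((P - δ / t : ℝ) : EReal) ≤ fe f φ (m'.map π) := by
  classical
  let S : ℕ → Set Y := fun i => {y | ∃ᶠ n in atTop, G^[n] y ∈ R i}
  have hS : ∀ i, MeasurableSet (S i) := fun i => (recurrent_set hG (hR i)).1
  have hSi : ∀ i, G ⁻¹' S i = S i := fun i => (recurrent_set hG (hR i)).2.1
  have hS0 : ∀ i, m (R i \ S i) = 0 := fun i => (recurrent_set hG (hR i)).2.2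
  have hT : ∀ i, MeasurableSet (disjointed S i) := MeasurableSet.disjointed hS
  have hTi : ∀ i, G ⁻¹' disjointed S i = disjointed S i := by
    intro i
    rw [disjointed_eq_inter_compl]
    simp only [preimage_inter, preimage_iInter, preimage_compl, hSi]
  have hTc : ∀ y i, y ∈ S i → ∃ j ≤ i, y ∈ disjointed S j := by
    intro y i hy
    have hex : ∃ j, y ∈ S j := ⟨i, hy⟩
    refine ⟨Nat.find hex, Nat.find_min' hex hy, ?_⟩
    rw [disjointed_eq_inter_compl]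
    exact ⟨Nat.find_spec hex, mem_iInter₂.2 fun j hj => Nat.find_min hex hj⟩
  have hmp : ∀ i, MeasurePreserving G (m.restrict (disjointed S i)) (m.restrict (disjointed S i)) :=
    fun i => erg_restrict hG (hT i) (hTi i)
  let ν : ℕ → Measure E := fun i => (m.restrict (disjointed S i)).map π
  have hν : ∀ i (A : Set E), MeasurableSet A → ν i A = m (π ⁻¹' A ∩ disjointed S i) := by
    intro i A hA
    rw [Measure.map_apply hπ hA, Measure.restrict_apply (hπ hA)]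
  have hsum : ∀ A : Set E, MeasurableSet A → ∑ i ∈ Finset.range N, ν i A =
      m (⋃ i ∈ Finset.range N, π ⁻¹' A ∩ disjointed S i) := by
    intro A hA
    rw [measure_biUnion_finset (fun i _ j _ hij => (disjoint_disjointed S hij).mono
      inter_subset_right inter_subset_right) fun i _ => (hπ hA).inter (hT i)]
    exact Finset.sum_congr rfl fun i _ => hν i A hA
  have hνu : ∀ i, ν i univ = m (disjointed S i) := by
    intro i
    rw [hν i _ MeasurableSet.univ, preimage_univ, univ_inter]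
  obtain ⟨i, -, hi0, -, hi⟩ := exists_piece hf hφ hB hP hμ hδ (Finset.range N) ν
    (fun i _ => ⟨hf, by
      have h1 : f ∘ π = π ∘ G := funext fun y => (semi y).symm
      rw [Measure.map_map hf hπ, h1, ← Measure.map_map hπ hG.measurable, (hmp i).map_eq]⟩)
    (by
      refine le_trans (Measure.le_iff.2 fun A hA => ?_) hle
      rw [Measure.finsetSum_apply, hsum A hA, Measure.map_apply hπ hA]
      exact measure_mono (iUnion₂_subset fun i _ => inter_subset_left)) ht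
    (by
      refine hmass.trans ?_
      simp only [Measure.real]
      rw [← ENNReal.toReal_sum fun i _ => by rw [hνu]; exact measure_ne_top _ _,
        hsum _ MeasurableSet.univ]
      refine ENNReal.toReal_mono (measure_ne_top _ _) (measure_mono_ae ?_)
      have h1 : ∀ᵐ y ∂m, ∀ i, y ∉ R i \ S i :=
        ae_all_iff.2 fun i => measure_eq_zero_iff_ae_notMem.1 (hS0 i)
      filter_upwards [h1] with y hy hyΛ
      obtain ⟨i, hiN, hyi⟩ := hΛ y hyΛ
      have h2 : y ∈ S i := by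
        by_contra h3
        exact hy i ⟨hyi, h3⟩
      obtain ⟨j, hj, hyj⟩ := hTc y i h2
      exact mem_biUnion (Finset.mem_range.2 (hj.trans_lt hiN)) ⟨mem_univ _, hyj⟩)
  have h0 : m (disjointed S i) ≠ 0 := by
    rw [← hνu]
    exact fun h => hi0 (Measure.measure_univ_eq_zero.1 h)
  obtain ⟨y, hy⟩ := nonempty_of_measure_ne_zero h0
  obtain ⟨n, hn⟩ := Frequently.exists (disjointed_subset S i hy)
  refine ⟨i, ⟨_, hn⟩, (m (disjointed S i))⁻¹ • m.restrict (disjointed S i), ⟨?_⟩,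
    (hmp i).smul_measure _, Measure.ae_smul_measure ?_ _, ?_⟩
  · rw [Measure.smul_apply, Measure.restrict_apply MeasurableSet.univ, univ_inter, smul_eq_mul,
      ENNReal.inv_mul_cancel h0 (measure_ne_top _ _)]
  · filter_upwards [ae_restrict_mem (hT i)] with y hy
    exact disjointed_subset S i hy
  · rw [Measure.map_smul, ← hνu]
    exact hi

theorem cell_cover (r : ℝ) {θ : ℝ} (hθ : 0 < θ) : ∃ (N : ℕ) (c : ℕ → E × E × E),
    ∀ p : E × E × E, ‖p‖ ≤ r → ∃ i < N, p ∈ ball (c i) θ := by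
  obtain ⟨t, ht, hc⟩ := Metric.totallyBounded_iff.1
    (isCompact_closedBall (0 : E × E × E) r).totallyBounded θ hθ
  refine ⟨ht.toFinset.toList.length, fun i => ht.toFinset.toList.getD i 0, fun p hp => ?_⟩
  obtain ⟨q, hq, hpq⟩ := mem_iUnion₂.1 (hc (mem_closedBall_zero_iff.2 hp))
  obtain ⟨i, hi, he⟩ := List.mem_iff_getElem.1 (Finset.mem_toList.2 (ht.mem_toFinset.2 hq))
  refine ⟨i, hi, ?_⟩
  simp only [List.getD_eq_getElem _ _ hi, he]
  exact hpq

theorem cell_mass {Y : Type} [MeasurableSpace Y] {m : Measure Y} [IsFiniteMeasure m]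
    {Λ : ℕ → Set Y} (hm : Monotone Λ) (hae : ∀ᵐ y ∂m, ∃ k, y ∈ Λ k) {t : ℝ} (ht : 0 < t)
    (hmass : t ≤ m.real univ) : ∃ k, t / 2 ≤ m.real (Λ k) := by
  have h1 : m (⋃ k, Λ k) = m univ := by
    refine measure_congr (ae_eq_univ.2 (measure_eq_zero_iff_ae_notMem.2 ?_))
    filter_upwards [hae] with y hy h
    exact h (mem_iUnion.2 hy)
  have h2 := tendsto_measure_iUnion_atTop (μ := m) hm
  rw [h1] at h2
  have h3 := (ENNReal.tendsto_toReal (measure_ne_top m univ)).comp h2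
  obtain ⟨k, hk⟩ := (h3.eventually (lt_mem_nhds (show t / 2 < m.real univ by linarith))).exists
  exact ⟨k, hk.le⟩

theorem exists_cell {f g : E → E} {d : ℕ} {R₀ : ℝ} (h : IsHL f g d R₀) {φ : E → ℝ}
    (hφ : Continuous φ) {B : ℝ} (hB : ∀ x, |φ x| ≤ B) {P h₀ : ℝ} (h0 : 0 < h₀)
    (hP : ∀ ν, IsInvariantProb f ν → fe f φ ν ≤ P) (hgap : ∀ x, φ x + 2 * h₀ ≤ P) :
    ∃ C₀ δ₀ : ℝ, 0 < C₀ ∧ 0 < δ₀ ∧ ∀ (μ : Measure E) (δ : ℝ), IsInvariantProb f μ → δ ≤ δ₀ →
      ((P - δ : ℝ) : EReal) ≤ fe f φ μ → ∀ Ek : ℕ → Set E, (∀ k, MeasurableSet (Ek k)) →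
      Monotone Ek → (∀ᵐ x ∂μ, ∃ k, x ∈ Ek k) → ∀ D₀ : ℝ, 0 < D₀ →
      ∃ (Y : Type) (_ : MeasurableSpace Y) (m : Measure Y) (G : Y → Y) (π : Y → E) (R : Set Y)
        (κ ε D : ℝ) (χ : Chart) (k : ℕ), IsProbabilityMeasure m ∧ MeasurePreserving G m m ∧
        Measurable π ∧ (∀ y, π (G y) = f (π y)) ∧ MeasurableSet R ∧
        (∀ᵐ y ∂m, ∃ᶠ n in atTop, G^[n] y ∈ R) ∧
        ((P - C₀ * δ : ℝ) : EReal) ≤ fe f φ (m.map π) ∧ 0 < κ ∧ κ < 1 ∧ 0 < ε ∧ 0 < D ∧ D ≤ D₀ ∧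
        (∀ z ∈ D2, ‖χ.pt z‖ ≤ R₀ + 1) ∧ (∀ y ∈ R, π y ∈ Ek k) ∧
        ∀ n : ℕ, 0 < n → ∀ y ∈ R, G^[n] y ∈ R →
          ∃ T : E → E, IsGood f κ ε D χ n T ∧ π y ∈ χ.core T κ := by
  obtain ⟨L, χ, t, δ₀, hL, hχ, ht, hδ₀, H⟩ := exists_hyp h hφ hB h0 hP hgap
  refine ⟨2 / t, δ₀, by positivity, hδ₀, fun μ δ hμ hδ hfe Ek hEm hEmono hEae D₀ hD₀ => ?_⟩
  obtain ⟨Y, _, m, G, G', π, v, w, a, b, _, hH, hle, hmass⟩ := H μ δ hμ hδ hfe
  obtain ⟨V, W, Q, S, mV, mW, mQ, mS, hSG, hSae, hS, hQ⟩ := exists_lyap hH hL hχ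
  have hε : 0 < χ / 2 := by positivity
  let Λ : ℕ → Set Y := fun k => {y | y ∈ S ∧ π y ∈ Ek k ∧ ∀ n : ℕ,
    Q (G^[n] y) ≤ k * Real.exp (χ / 2 * n) ∧ Q (G'^[n] y) ≤ k * Real.exp (χ / 2 * n)}
  have mΛ : ∀ k, MeasurableSet (Λ k) := by
    intro k
    refine mS.inter ((hH.mπ (hEm k)).inter ?_)
    change MeasurableSet {y | ∀ n : ℕ,
      Q (G^[n] y) ≤ k * Real.exp (χ / 2 * n) ∧ Q (G'^[n] y) ≤ k * Real.exp (χ / 2 * n)}
    rw [ofPred_forall]
    exact MeasurableSet.iInter fun n =>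
      (measurableSet_le (mQ.comp (hH.mp.measurable.iterate n)) measurable_const).inter
        (measurableSet_le (mQ.comp (hH.mp'.measurable.iterate n)) measurable_const)
  have hmono : Monotone Λ := by
    intro k k' hk y hy
    have h1 : ∀ n : ℕ, (k : ℝ) * Real.exp (χ / 2 * n) ≤ k' * Real.exp (χ / 2 * n) := fun n =>
      mul_le_mul_of_nonneg_right (Nat.cast_le.2 hk) (Real.exp_pos _).le
    exact ⟨hy.1, hEmono hk hy.2.1, fun n => ⟨(hy.2.2 n).1.trans (h1 n), (hy.2.2 n).2.trans (h1 n)⟩⟩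
  have hae : ∀ᵐ y ∂m, ∃ k, y ∈ Λ k := by
    have h1 : ∀ᵐ y ∂m, ∃ k, π y ∈ Ek k := ae_of_ae_map hH.mπ.aemeasurable (ae_mono hle hEae)
    filter_upwards [hSae, h1, hQ _ hε] with y hyS ⟨k, hk⟩ ⟨K, hK⟩
    obtain ⟨k', hk'⟩ := exists_nat_ge K
    have h2 : ∀ n : ℕ, K * Real.exp (χ / 2 * n) ≤ (max k k' : ℕ) * Real.exp (χ / 2 * n) := fun n =>
      mul_le_mul_of_nonneg_right (hk'.trans (Nat.cast_le.2 (le_max_right _ _))) (Real.exp_pos _).le
    exact ⟨max k k', hyS, hEmono (le_max_left _ _) hk,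
      fun n => ⟨(hK n).1.trans (h2 n), (hK n).2.trans (h2 n)⟩⟩
  obtain ⟨k, hk⟩ := cell_mass hmono hae ht hmass
  obtain ⟨κ, θ, D, hκ0, hκ1, hθ, hD, hDD, Hg⟩ :=
    good_of_segment h.cf R₀ (max L (Real.exp χ)) k hχ hD₀
  obtain ⟨N, c, hc⟩ := cell_cover R₀ (half_pos hθ)
  let τ : Y → E × E × E := fun y => (π y, V y, W y)
  have mτ : Measurable τ := hH.mπ.prodMk (mV.prodMk mW)
  let R : ℕ → Set Y := fun i => Λ k ∩ τ ⁻¹' ball (c i) (θ / 2)
  have mR : ∀ i, MeasurableSet (R i) := fun i => (mΛ k).inter (mτ measurableSet_ball)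
  obtain ⟨i, ⟨y₀, hy₀⟩, m', hm', hmp', hrec, hfe'⟩ := cell_select (Λ := Λ k) hH.mp
    h.cf.continuous.measurable hH.mπ hH.semi hφ.measurable hB hP hμ hfe hle N mR (half_pos ht)
    (fun y hy => by
      obtain ⟨i, hi, hb⟩ := hc (τ y) (norm_prod_le_iff.2 ⟨hH.bd y, norm_prod_le_iff.2
        ⟨(hS y hy.1).1.trans h.one_le, (hS y hy.1).2.1.trans h.one_le⟩⟩)
      exact ⟨i, hi, hy, hb⟩) hk
  obtain ⟨ch, hch, Hc⟩ := Hg (π y₀) (V y₀) (W y₀) (hS y₀ hy₀.1.1).1 (hS y₀ hy₀.1.1).2.1 fun z => by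
    have h1 := (hy₀.1.2.2 0).1
    rw [Function.iterate_zero_apply, Nat.cast_zero, mul_zero, Real.exp_zero, mul_one] at h1
    exact ((hS y₀ hy₀.1.1).2.2.1 z).trans (mul_le_mul_of_nonneg_right h1 (norm_nonneg _))
  have hclose : ∀ y ∈ R i, ‖π y - π y₀‖ ≤ θ ∧ ‖V y - V y₀‖ ≤ θ ∧ ‖W y - W y₀‖ ≤ θ := by
    intro y hy
    have h1 : dist (τ y) (τ y₀) ≤ θ := by
      have h2 := dist_triangle_right (τ y) (τ y₀) (c i)
      have h3 : dist (τ y) (c i) < θ / 2 := hy.2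
      have h4 : dist (τ y₀) (c i) < θ / 2 := hy₀.2
      linarith
    rw [dist_eq_norm, norm_prod_le_iff] at h1
    exact ⟨h1.1, norm_prod_le_iff.1 h1.2⟩
  have hsemi : ∀ (j : ℕ) (y : Y), f^[j] (π y) = π (G^[j] y) := fun j y =>
    ((show Function.Semiconj π G f from hH.semi).iterate_right j y).symm
  refine ⟨Y, _, m', G, π, R i, κ, χ / 2, D, ch, k, hm', hmp', hH.mπ, hH.semi, mR i, hrec, ?_, hκ0,
    hκ1, hε, hD, hDD, fun z hz => ?_, fun y hy => hy.1.2.1, fun n hn y hy hyn => ?_⟩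
  · have h1 : 2 / t * δ = δ / (t / 2) := by field_simp
    rw [h1]
    exact hfe'
  · have h1 := norm_add_le (ch.pt z - π y₀) (π y₀)
    rw [sub_add_cancel] at h1
    have h2 := hch z hz
    have h3 := hH.bd y₀
    linarith
  have hSj : ∀ j : ℕ, G^[j] y ∈ S := fun j => (show MapsTo G S S from hSG).iterate j hy.1.1
  refine Hc n (π y) (fun j => V (G^[j] y)) (fun j => W (G^[j] y)) hn (fun j hj => ?_)
    (fun j _ => ?_) (hclose y hy).1 (hclose y hy).2.1 (hclose y hy).2.2 ?_ (hclose _ hyn).2.1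
    (hclose _ hyn).2.2
  · refine ⟨by rw [hsemi]; exact hH.bd _, (hS _ (hSj j)).1, (hS _ (hSj j)).2.1, fun z => ?_⟩
    refine ((hS _ (hSj j)).2.2.1 z).trans (mul_le_mul_of_nonneg_right ?_ (norm_nonneg _))
    rcases le_total j (n - j) with h1 | h1
    · rw [min_eq_left h1]
      exact (hy.1.2.2 j).1
    · rw [min_eq_right h1]
      have h2 : G'^[n - j] (G^[n] y) = G^[j] y := by
        have h3 : G^[n] y = G^[n - j] (G^[j] y) := by
          rw [← Function.iterate_add_apply, Nat.sub_add_cancel hj]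
        rw [h3]
        exact (show Function.LeftInverse G' G from hH.left).iterate (n - j) _
      rw [← h2]
      exact (hyn.1.2.2 (n - j)).2
  · simp only [hsemi, Function.iterate_succ_apply']
    exact (hS _ (hSj j)).2.2.2
  · rw [hsemi]
    exact (hclose _ hyn).1

end Pool.Agent.P.MP_eeb913_an.U
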