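import Mathlib
import Pool.Agent.P.MP_eeb913_an.U.Basic

/-!
A transverse intersection of an unstable and a stable leaf gives a connecting crossing.

Sketch. Gm z = χ₂.co (F (χ₁.pt z)) is L-Lipschitz on D2, L ≥ 1. δ ζ = (Gm (ζ, β ζ)).1 - γ (Gm (ζ, β ζ)).2,
a = deriv δ ζ₀ ≠ 0. For b = (u, s) ∈ D2 put w k b ζ = Gm (ζ, (S k (ζ, s)).2) and
δk b ζ = (w k b ζ).1 - (T k (u, (w k b ζ).2)).1. Choose ρ with closedBall ζ₀ (2 ρ) in the unit disc, the second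
coordinate of Gm (ζ, β ζ) of norm ≤ r < 1 there, and |δ' - a| ≤ |a| / 4 on ball ζ₀ ρ. For large k,
(w k b ζ).2 stays in the open unit disc and |δk b - δ| ≤ C κ^k on ball ζ₀ (2 ρ) (γ is 1-Lipschitz on the
closed disc as a limit of the T k, or compare T k (u, ·) with γ at the same point and use IsCon.lip).
For b in the open bidisc δk b is holomorphic, so by the Cauchy estimate
|δk b ζ - δk b ζ' - a (ζ - ζ')| ≤ |a| |ζ - ζ'| / 2 on closedBall ζ₀ (ρ / 2); by continuity in b this holds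
for all b ∈ D2. So ζ ↦ ζ - δk b ζ / a is a contraction of closedBall ζ₀ (ρ / 2); its fixed point ζ b is
(2 (2 L + 1) κ^k / |a|)-Lipschitz in b, at most 1-Lipschitz and with (w k b (ζ b)).2 1-Lipschitz for large k.
T' b = ((S k (ζ b, s)).1, (T k (u, (w k b (ζ b)).2)).2).
-/

namespace Pool.Agent.P.MP_eeb913_an.U

open MeasureTheory Filter Metric Set
open scoped ENNReal NNReal Topology

theorem Ift_fix {a ζ₀ : ℂ} {r ε : ℝ} {D : E → ℂ → ℂ} (ha : a ≠ 0) (hr : 0 ≤ r)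
    (h1 : ∀ b ∈ D2, ∀ ζ ∈ closedBall ζ₀ r, ∀ ζ' ∈ closedBall ζ₀ r,
      ‖D b ζ - D b ζ' - a * (ζ - ζ')‖ ≤ ‖a‖ / 2 * ‖ζ - ζ'‖)
    (h2 : ∀ b ∈ D2, ‖D b ζ₀‖ ≤ ‖a‖ / 2 * r)
    (h3 : ∀ b ∈ D2, ∀ b' ∈ D2, ∀ ζ ∈ closedBall ζ₀ r, ‖D b ζ - D b' ζ‖ ≤ ε * ‖b - b'‖) :
    ∃ z : E → ℂ, (∀ b ∈ D2, z b ∈ closedBall ζ₀ r ∧ D b (z b) = 0) ∧
      ∀ b ∈ D2, ∀ b' ∈ D2, ‖a‖ * ‖z b - z b'‖ ≤ 2 * ε * ‖b - b'‖ := by
  have hn : 0 < ‖a‖ := norm_pos_iff.2 ha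
  have hex : ∀ b ∈ D2, ∃ ζ ∈ closedBall ζ₀ r, D b ζ = 0 := by
    intro b hb
    have hl : ∀ ζ ∈ closedBall ζ₀ r, ∀ ζ' ∈ closedBall ζ₀ r,
        ‖(ζ - D b ζ / a) - (ζ' - D b ζ' / a)‖ ≤ 1 / 2 * ‖ζ - ζ'‖ := by
      intro ζ hζ ζ' hζ'
      have e : (ζ - D b ζ / a) - (ζ' - D b ζ' / a) = -(D b ζ - D b ζ' - a * (ζ - ζ')) / a := by
        field_simp
        ring
      rw [e, norm_div, norm_neg, div_le_iff₀ hn]
      have := h1 b hb ζ hζ ζ' hζ'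
      linarith
    have hm : MapsTo (fun ζ => ζ - D b ζ / a) (closedBall ζ₀ r) (closedBall ζ₀ r) := by
      intro ζ hζ
      have e1 := hl ζ hζ ζ₀ (mem_closedBall_self hr)
      have e2 : ‖D b ζ₀ / a‖ ≤ r / 2 := by
        rw [norm_div, div_le_iff₀ hn]
        have := h2 b hb
        linarith
      have e3 : ‖ζ - ζ₀‖ ≤ r := mem_closedBall_iff_norm.1 hζ
      have e4 : ζ - D b ζ / a - ζ₀ = ((ζ - D b ζ / a) - (ζ₀ - D b ζ₀ / a)) - D b ζ₀ / a := by ring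
      rw [mem_closedBall_iff_norm, e4]
      refine (norm_sub_le _ _).trans ?_
      linarith
    have hc : ContractingWith (1 / 2) (hm.restrict _ _ _) := by
      refine ⟨by norm_num, LipschitzWith.of_dist_le_mul fun x y => ?_⟩
      have := hl x x.2 y y.2
      rw [Subtype.dist_eq, Subtype.dist_eq, dist_eq_norm, dist_eq_norm]
      simpa using this
    obtain ⟨y, hy, hf, -⟩ := hc.exists_fixedPoint' isClosed_closedBall.isComplete hm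
      (mem_closedBall_self hr) (edist_ne_top _ _)
    refine ⟨y, hy, ?_⟩
    have e : y - D b y / a = y := hf
    have e' : D b y / a = 0 := by linear_combination -e
    exact (div_eq_zero_iff.1 e').resolve_right ha
  choose! z hz hz0 using hex
  refine ⟨z, fun b hb => ⟨hz b hb, hz0 b hb⟩, fun b hb b' hb' => ?_⟩
  have e1 := h1 b hb _ (hz b hb) _ (hz b' hb')
  have e2 := h3 b hb b' hb' _ (hz b' hb')
  rw [hz0 b' hb', sub_zero] at e2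
  rw [hz0 b hb] at e1
  have e3 : a * (z b - z b') = -(0 - D b (z b') - a * (z b - z b')) - D b (z b') := by ring
  have e4 : ‖a * (z b - z b')‖ ≤ ‖0 - D b (z b') - a * (z b - z b')‖ + ‖D b (z b')‖ := by
    conv_lhs => rw [e3]
    refine (norm_sub_le _ _).trans ?_
    rw [norm_neg]
  rw [norm_mul] at e4
  linarith

theorem Ift_cauchy {g : ℂ → ℂ} {ζ₀ : ℂ} {ρ η : ℝ} (hρ : 0 < ρ)
    (hg : DifferentiableOn ℂ g (ball ζ₀ (2 * ρ))) (hb : ∀ ζ ∈ ball ζ₀ (2 * ρ), ‖g ζ‖ ≤ η)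
    {ζ ζ' : ℂ} (hζ : ζ ∈ closedBall ζ₀ (ρ / 2)) (hζ' : ζ' ∈ closedBall ζ₀ (ρ / 2)) :
    ‖g ζ - g ζ'‖ ≤ η / ρ * ‖ζ - ζ'‖ := by
  have hs : ∀ x ∈ closedBall ζ₀ (ρ / 2), closedBall x ρ ⊆ ball ζ₀ (2 * ρ) := fun x hx =>
    closedBall_subset_ball' (by have := mem_closedBall.1 hx; linarith)
  refine (convex_closedBall ζ₀ (ρ / 2)).norm_image_sub_le_of_norm_deriv_le (𝕜 := ℂ)
    (fun x hx => hg.differentiableAt (isOpen_ball.mem_nhds (hs x hx (mem_closedBall_self hρ.le))))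
    (fun x hx => ?_) hζ' hζ
  refine Complex.norm_deriv_le_of_forall_mem_sphere_norm_le hρ ?_
    fun y hy => hb y (hs x hx (sphere_subset_closedBall hy))
  refine DifferentiableOn.diffContOnCl (hg.mono ?_)
  rw [closure_ball x hρ.ne']
  exact hs x hx

/-- The image of the point of the approximate unstable leaf. -/
noncomputable def Iw (G S : E → E) (s ζ : ℂ) : E := G (ζ, (S (ζ, s)).2)
/-- The approximate defect. -/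
noncomputable def Id (G S T : E → E) (b : E) (ζ : ℂ) : ℂ :=
  (Iw G S b.2 ζ).1 - (T (b.1, (Iw G S b.2 ζ).2)).1
/-- The limit defect. -/
noncomputable def I0 (G : E → E) (β γ : ℂ → ℂ) (ζ : ℂ) : ℂ :=
  (G (ζ, β ζ)).1 - γ (G (ζ, β ζ)).2

/-- The hypotheses at one fixed length. -/
structure IftData (κ η L r ρ : ℝ) (G S T : E → E) (β γ : ℂ → ℂ) (ζ₀ a : ℂ) : Prop where
  hG : Differentiable ℂ G
  hL : ∀ z ∈ closedBall (0 : E) 3, ∀ z' ∈ closedBall (0 : E) 3, ‖G z - G z'‖ ≤ L * ‖z - z'‖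
  L1 : 1 ≤ L
  k1 : κ < 1
  Sc : IsCon κ S
  Sd : DifferentiableOn ℂ S (ball 0 1)
  S1 : ∀ b ∈ D2, ‖(S b).2 - β b.1‖ ≤ 2 * η
  S2 : ∀ b ∈ D2, ∀ b' ∈ D2, b.1 = b'.1 → ‖(S b).2 - (S b').2‖ ≤ η * ‖b.2 - b'.2‖
  Tc : IsCon κ T
  Td : DifferentiableOn ℂ T (ball 0 1)
  T1 : ∀ b ∈ D2, ‖(T b).1 - γ b.2‖ ≤ 2 * η
  T2 : ∀ b ∈ D2, ∀ b' ∈ D2, b.2 = b'.2 → ‖(T b).1 - (T b').1‖ ≤ η * ‖b.1 - b'.1‖
  ρ0 : 0 < ρ
  hb : ∀ ζ ∈ ball ζ₀ (2 * ρ), ‖ζ‖ < 1 ∧ ‖(G (ζ, β ζ)).2‖ ≤ r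
  hβ : DifferentiableOn ℂ β (ball 0 1)
  hγ : DifferentiableOn ℂ γ (ball 0 1)
  hz : I0 G β γ ζ₀ = 0
  app : ∀ ζ ∈ closedBall ζ₀ (ρ / 2), ∀ ζ' ∈ closedBall ζ₀ (ρ / 2),
    ‖I0 G β γ ζ - I0 G β γ ζ' - a * (ζ - ζ')‖ ≤ ‖a‖ / 4 * ‖ζ - ζ'‖
  a0 : a ≠ 0
  η0 : 0 ≤ η
  r0 : 0 ≤ r
  c1 : 2 * L * η < 1 - r
  c2 : (4 * L + 2) * η < ‖a‖ * ρ / 4
  c3 : 4 * L * (2 * L + 1) * η < ‖a‖

theorem Ift_mk {x y : ℂ} (hx : ‖x‖ ≤ 1) (hy : ‖y‖ ≤ 1) : ((x, y) : E) ∈ D2 := mem_D2.2 ⟨hx, hy⟩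

theorem Ift_mk3 {x y : ℂ} (hx : ‖x‖ ≤ 3) (hy : ‖y‖ ≤ 3) : ((x, y) : E) ∈ closedBall (0 : E) 3 := by
  rw [mem_closedBall_zero_iff, Prod.norm_def]
  exact max_le hx hy

theorem Ift_mko {x y : ℂ} (hx : ‖x‖ < 1) (hy : ‖y‖ < 1) : ((x, y) : E) ∈ ball (0 : E) 1 := by
  rw [mem_ball_zero_iff, Prod.norm_def]
  exact max_lt hx hy

theorem Ift_n1 (x y y' : ℂ) : ‖((x, y) : E) - (x, y')‖ = ‖y - y'‖ := by
  simp [Prod.norm_def]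

theorem Ift_n2 (x x' y : ℂ) : ‖((x, y) : E) - (x', y)‖ = ‖x - x'‖ := by
  simp [Prod.norm_def]

namespace IftData

variable {κ η L r ρ : ℝ} {G S T : E → E} {β γ : ℂ → ℂ} {ζ₀ a : ℂ}
  (H : IftData κ η L r ρ G S T β γ ζ₀ a)
include H

theorem η1 : 2 * η ≤ 1 := by
  have := H.c1
  have := H.r0
  nlinarith [H.L1, H.η0]

theorem Sb {ζ s : ℂ} (hζ : ‖ζ‖ ≤ 1) (hs : ‖s‖ ≤ 1) : ‖(S (ζ, s)).2‖ ≤ 1 :=
  (norm_snd_le _).trans ((H.Sc.bound _ (Ift_mk hζ hs)).trans H.k1.le)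

theorem w_sub {ζ s : ℂ} (hζ : ‖ζ‖ ≤ 1) (hs : ‖s‖ ≤ 1) :
    ‖Iw G S s ζ - G (ζ, β ζ)‖ ≤ 2 * L * η := by
  have e1 := H.S1 _ (Ift_mk hζ hs)
  have e2 := H.Sb hζ hs
  have e3 : ‖β ζ‖ ≤ 3 := by
    have := norm_sub_norm_le (β ζ) (S (ζ, s)).2
    rw [norm_sub_rev] at this
    have := H.η1
    simp only at e1
    linarith
  have e4 := H.hL _ (Ift_mk3 (x := ζ) (y := (S (ζ, s)).2) (by linarith) (by linarith)) _
    (Ift_mk3 (x := ζ) (by linarith) e3)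
  rw [Ift_n1] at e4
  refine e4.trans ?_
  have := mul_le_mul_of_nonneg_left e1 (zero_le_one.trans H.L1)
  simp only at this
  linarith

theorem w_lt {ζ s : ℂ} (hζ : ζ ∈ ball ζ₀ (2 * ρ)) (hs : ‖s‖ ≤ 1) : ‖(Iw G S s ζ).2‖ < 1 := by
  obtain ⟨h1, h2⟩ := H.hb ζ hζ
  have e1 := (norm_snd_le _).trans (H.w_sub h1.le hs)
  have e2 := norm_sub_norm_le (Iw G S s ζ).2 (G (ζ, β ζ)).2
  rw [Prod.snd_sub] at e1
  linarith [H.c1]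

theorem r1 : r < 1 := by
  have := H.c1
  nlinarith [H.L1, H.η0]

theorem d_sub {ζ : ℂ} {b : E} (hζ : ζ ∈ ball ζ₀ (2 * ρ)) (hb : b ∈ D2) :
    ‖Id G S T b ζ - I0 G β γ ζ‖ ≤ (4 * L + 2) * η := by
  obtain ⟨h1, h2⟩ := H.hb ζ hζ
  obtain ⟨b1, b2⟩ := mem_D2.1 hb
  have e0 := H.w_sub h1.le b2
  have e1 := (norm_fst_le _).trans e0
  have e2 := (norm_snd_le _).trans e0
  rw [Prod.fst_sub] at e1
  rw [Prod.snd_sub] at e2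
  have m1 := Ift_mk b1 (H.w_lt hζ b2).le
  have m2 := Ift_mk b1 (h2.trans H.r1.le)
  have e3 := (norm_fst_le _).trans (H.Tc.lip _ m1 _ m2)
  rw [Prod.fst_sub, Ift_n1] at e3
  have e4 := H.T1 _ m2
  have e5 : κ * ‖(Iw G S b.2 ζ).2 - (G (ζ, β ζ)).2‖ ≤ 1 * (2 * L * η) :=
    mul_le_mul H.k1.le e2 (norm_nonneg _) zero_le_one
  have e6 : Id G S T b ζ - I0 G β γ ζ = ((Iw G S b.2 ζ).1 - (G (ζ, β ζ)).1) -
      (((T (b.1, (Iw G S b.2 ζ).2)).1 - (T (b.1, (G (ζ, β ζ)).2)).1) +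
        ((T (b.1, (G (ζ, β ζ)).2)).1 - γ (G (ζ, β ζ)).2)) := by
    unfold Id I0; ring
  rw [e6]
  refine (norm_sub_le _ _).trans ?_
  have e7 := norm_add_le ((T (b.1, (Iw G S b.2 ζ).2)).1 - (T (b.1, (G (ζ, β ζ)).2)).1)
    ((T (b.1, (G (ζ, β ζ)).2)).1 - γ (G (ζ, β ζ)).2)
  simp only at e4
  linarith

theorem w_lip {ζ ζ' s s' : ℂ} (hζ : ‖ζ‖ ≤ 1) (hζ' : ‖ζ'‖ ≤ 1) (hs : ‖s‖ ≤ 1) (hs' : ‖s'‖ ≤ 1) :
    ‖Iw G S s ζ - Iw G S s' ζ'‖ ≤ L * (‖ζ - ζ'‖ + η * ‖s - s'‖) := by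
  have e1 := H.Sb hζ hs
  have e2 := H.Sb hζ' hs'
  have e3 := H.hL _ (Ift_mk3 (x := ζ) (y := (S (ζ, s)).2) (by linarith) (by linarith)) _
    (Ift_mk3 (x := ζ') (y := (S (ζ', s')).2) (by linarith) (by linarith))
  refine e3.trans (mul_le_mul_of_nonneg_left ?_ (zero_le_one.trans H.L1))
  have e4 := (norm_snd_le _).trans (H.Sc.lip _ (Ift_mk hζ hs) _ (Ift_mk hζ' hs))
  rw [Prod.snd_sub, Ift_n2] at e4
  have e5 := H.S2 _ (Ift_mk hζ' hs) _ (Ift_mk hζ' hs') rfl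
  have e6 : κ * ‖ζ - ζ'‖ ≤ ‖ζ - ζ'‖ := mul_le_of_le_one_left (norm_nonneg _) H.k1.le
  have e7 := norm_sub_le_norm_sub_add_norm_sub (S (ζ, s)).2 (S (ζ', s)).2 (S (ζ', s')).2
  have e8 := mul_nonneg H.η0 (norm_nonneg (s - s'))
  rw [Prod.norm_def]
  simp only [Prod.fst_sub, Prod.snd_sub] at e5 ⊢
  exact max_le (by linarith) (by linarith)

theorem d_lip {ζ : ℂ} {b b' : E} (hζ : ζ ∈ ball ζ₀ (2 * ρ)) (hb : b ∈ D2) (hb' : b' ∈ D2) :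
    ‖Id G S T b ζ - Id G S T b' ζ‖ ≤ (2 * L + 1) * η * ‖b - b'‖ := by
  obtain ⟨h1, -⟩ := H.hb ζ hζ
  obtain ⟨b1, b2⟩ := mem_D2.1 hb
  obtain ⟨c1, c2⟩ := mem_D2.1 hb'
  have e0 := H.w_lip h1.le h1.le b2 c2
  rw [sub_self, norm_zero, zero_add] at e0
  have n1 : ‖b.1 - b'.1‖ ≤ ‖b - b'‖ := norm_fst_le (b - b')
  have n2 : ‖b.2 - b'.2‖ ≤ ‖b - b'‖ := norm_snd_le (b - b')
  have e0' : ‖Iw G S b.2 ζ - Iw G S b'.2 ζ‖ ≤ L * η * ‖b - b'‖ := by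
    refine e0.trans ?_
    rw [mul_assoc]
    exact mul_le_mul_of_nonneg_left (mul_le_mul_of_nonneg_left n2 H.η0) (zero_le_one.trans H.L1)
  have e1 := (norm_fst_le _).trans e0'
  have e2 := (norm_snd_le _).trans e0'
  rw [Prod.fst_sub] at e1
  rw [Prod.snd_sub] at e2
  have m1 := Ift_mk b1 (H.w_lt hζ b2).le
  have m2 := Ift_mk b1 (H.w_lt hζ c2).le
  have m3 := Ift_mk c1 (H.w_lt hζ c2).le
  have e3 := (norm_fst_le _).trans (H.Tc.lip _ m1 _ m2)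
  rw [Prod.fst_sub, Ift_n1] at e3
  have e4 := H.T2 _ m2 _ m3 rfl
  have e5 : κ * ‖(Iw G S b.2 ζ).2 - (Iw G S b'.2 ζ).2‖ ≤ 1 * (L * η * ‖b - b'‖) :=
    mul_le_mul H.k1.le e2 (norm_nonneg _) zero_le_one
  have e6 : Id G S T b ζ - Id G S T b' ζ = ((Iw G S b.2 ζ).1 - (Iw G S b'.2 ζ).1) -
      (((T (b.1, (Iw G S b.2 ζ).2)).1 - (T (b.1, (Iw G S b'.2 ζ).2)).1) +
        ((T (b.1, (Iw G S b'.2 ζ).2)).1 - (T (b'.1, (Iw G S b'.2 ζ).2)).1)) := by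
    unfold Id; ring
  rw [e6]
  refine (norm_sub_le _ _).trans ?_
  have e7 := norm_add_le ((T (b.1, (Iw G S b.2 ζ).2)).1 - (T (b.1, (Iw G S b'.2 ζ).2)).1)
    ((T (b.1, (Iw G S b'.2 ζ).2)).1 - (T (b'.1, (Iw G S b'.2 ζ).2)).1)
  have e8 := mul_le_mul_of_nonneg_left n1 H.η0
  simp only at e4
  linarith

theorem d_diff {b : E} (hb : b ∈ ball (0 : E) 1) :
    DifferentiableOn ℂ (Id G S T b) (ball ζ₀ (2 * ρ)) := by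
  rw [mem_ball_zero_iff, Prod.norm_def, max_lt_iff] at hb
  have h1 : DifferentiableOn ℂ (fun ζ : ℂ => S (ζ, b.2)) (ball ζ₀ (2 * ρ)) :=
    H.Sd.comp (differentiableOn_id.prodMk (differentiableOn_const _))
      fun ζ hζ => Ift_mko (H.hb ζ hζ).1 hb.2
  have h2 : DifferentiableOn ℂ (Iw G S b.2) (ball ζ₀ (2 * ρ)) :=
    H.hG.comp_differentiableOn (differentiableOn_id.prodMk h1.snd)
  have h3 : DifferentiableOn ℂ (fun ζ : ℂ => T (b.1, (Iw G S b.2 ζ).2)) (ball ζ₀ (2 * ρ)) :=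
    H.Td.comp ((differentiableOn_const _).prodMk h2.snd)
      fun ζ hζ => Ift_mko hb.1 (H.w_lt hζ hb.2.le)
  exact h2.fst.sub h3.fst

theorem i_diff : DifferentiableOn ℂ (I0 G β γ) (ball ζ₀ (2 * ρ)) := by
  have h1 : DifferentiableOn ℂ β (ball ζ₀ (2 * ρ)) :=
    H.hβ.mono fun ζ hζ => mem_ball_zero_iff.2 (H.hb ζ hζ).1
  have h2 : DifferentiableOn ℂ (fun ζ => G (ζ, β ζ)) (ball ζ₀ (2 * ρ)) :=
    H.hG.comp_differentiableOn (differentiableOn_id.prodMk h1)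
  have h3 : DifferentiableOn ℂ (fun ζ => γ (G (ζ, β ζ)).2) (ball ζ₀ (2 * ρ)) :=
    H.hγ.comp h2.snd fun ζ hζ => mem_ball_zero_iff.2 ((H.hb ζ hζ).2.trans_lt H.r1)
  exact h2.fst.sub h3

theorem sub_ball : closedBall ζ₀ (ρ / 2) ⊆ ball ζ₀ (2 * ρ) :=
  closedBall_subset_ball (by linarith [H.ρ0])

theorem d_app_open {b : E} (hb : b ∈ ball (0 : E) 1) {ζ ζ' : ℂ} (hζ : ζ ∈ closedBall ζ₀ (ρ / 2))
    (hζ' : ζ' ∈ closedBall ζ₀ (ρ / 2)) :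
    ‖Id G S T b ζ - Id G S T b ζ' - a * (ζ - ζ')‖ ≤ ‖a‖ / 2 * ‖ζ - ζ'‖ := by
  have e1 := Ift_cauchy (g := fun ζ => Id G S T b ζ - I0 G β γ ζ) H.ρ0
    ((H.d_diff hb).sub H.i_diff) (fun x hx => H.d_sub hx (ball_subset_closedBall hb)) hζ hζ'
  have e2 := H.app ζ hζ ζ' hζ'
  have e3 : (4 * L + 2) * η / ρ ≤ ‖a‖ / 4 := by
    rw [div_le_iff₀ H.ρ0]
    linarith [H.c2]
  have e4 := mul_le_mul_of_nonneg_right e3 (norm_nonneg (ζ - ζ'))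
  have e5 : Id G S T b ζ - Id G S T b ζ' - a * (ζ - ζ') =
      ((Id G S T b ζ - I0 G β γ ζ) - (Id G S T b ζ' - I0 G β γ ζ')) +
        (I0 G β γ ζ - I0 G β γ ζ' - a * (ζ - ζ')) := by ring
  rw [e5]
  refine (norm_add_le _ _).trans ?_
  linarith

theorem d_cont {ζ : ℂ} (hζ : ζ ∈ ball ζ₀ (2 * ρ)) : ContinuousOn (fun b => Id G S T b ζ) D2 := by
  have h0 : 0 ≤ (2 * L + 1) * η := mul_nonneg (by linarith [H.L1]) H.η0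
  refine (LipschitzOnWith.of_dist_le_mul (K := ⟨_, h0⟩) fun b hb b' hb' => ?_).continuousOn
  rw [dist_eq_norm, dist_eq_norm]
  exact H.d_lip hζ hb hb'

theorem d_app {b : E} (hb : b ∈ D2) {ζ ζ' : ℂ} (hζ : ζ ∈ closedBall ζ₀ (ρ / 2))
    (hζ' : ζ' ∈ closedBall ζ₀ (ρ / 2)) :
    ‖Id G S T b ζ - Id G S T b ζ' - a * (ζ - ζ')‖ ≤ ‖a‖ / 2 * ‖ζ - ζ'‖ := by
  have hc : closure (ball (0 : E) 1) = D2 := closure_ball 0 one_ne_zero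
  refine le_on_closure (f := fun b => ‖Id G S T b ζ - Id G S T b ζ' - a * (ζ - ζ')‖)
    (g := fun _ => ‖a‖ / 2 * ‖ζ - ζ'‖) (s := ball (0 : E) 1)
    (fun b hb => H.d_app_open hb hζ hζ') ?_ continuousOn_const (hc ▸ hb)
  rw [hc]
  exact (((H.d_cont (H.sub_ball hζ)).sub (H.d_cont (H.sub_ball hζ'))).sub continuousOn_const).norm

theorem core : ∃ z : E → ℂ, (∀ b ∈ D2, ‖z b‖ ≤ 1 ∧ ‖(Iw G S b.2 (z b)).2‖ ≤ 1 ∧
      (Iw G S b.2 (z b)).1 = (T (b.1, (Iw G S b.2 (z b)).2)).1) ∧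
    ∀ b ∈ D2, ∀ b' ∈ D2, ‖z b - z b'‖ ≤ ‖b - b'‖ ∧
      ‖(Iw G S b.2 (z b)).2 - (Iw G S b'.2 (z b')).2‖ ≤ ‖b - b'‖ := by
  have hρ := H.ρ0
  have hn : 0 < ‖a‖ := norm_pos_iff.2 H.a0
  obtain ⟨z, hz, hl⟩ := Ift_fix (D := Id G S T) (ζ₀ := ζ₀) (r := ρ / 2) (ε := (2 * L + 1) * η)
    H.a0 (by linarith) (fun b hb ζ hζ ζ' hζ' => H.d_app hb hζ hζ')
    (fun b hb => by
      have := H.d_sub (mem_ball_self (by linarith)) hb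
      rw [H.hz, sub_zero] at this
      linarith [H.c2])
    (fun b hb b' hb' ζ hζ => H.d_lip (H.sub_ball hζ) hb hb')
  have hz1 : ∀ b ∈ D2, ‖z b‖ ≤ 1 := fun b hb => (H.hb _ (H.sub_ball (hz b hb).1)).1.le
  refine ⟨z, fun b hb => ⟨hz1 b hb, (H.w_lt (H.sub_ball (hz b hb).1) (mem_D2.1 hb).2).le,
    sub_eq_zero.1 (hz b hb).2⟩, fun b hb b' hb' => ?_⟩
  have e1 := hl b hb b' hb'
  have n0 := norm_nonneg (b - b')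
  have n1 := norm_nonneg (z b - z b')
  have L1 := H.L1
  have e2 : 2 * L * ‖z b - z b'‖ ≤ ‖b - b'‖ := by
    refine le_of_mul_le_mul_left ?_ hn
    have e3 := mul_le_mul_of_nonneg_left e1 (by linarith : 0 ≤ 2 * L)
    have e4 := mul_le_mul_of_nonneg_right H.c3.le n0
    linarith
  refine ⟨by nlinarith, ?_⟩
  have e5 := (norm_snd_le _).trans (H.w_lip (hz1 b hb) (hz1 b' hb') (mem_D2.1 hb).2
    (mem_D2.1 hb').2)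
  rw [Prod.snd_sub] at e5
  have n2 : ‖b.2 - b'.2‖ ≤ ‖b - b'‖ := norm_snd_le (b - b')
  have e6 : 2 * L * η ≤ 1 := by linarith [H.c1, H.r0]
  have e7 : L * η * ‖b.2 - b'.2‖ ≤ 1 / 2 * ‖b - b'‖ :=
    mul_le_mul (by linarith) n2 (norm_nonneg _) (by norm_num)
  linarith

end IftData

theorem Ift_local {G : E → E} (hG : Differentiable ℂ G) {β γ : ℂ → ℂ} {ζ₀ : ℂ}
    (hβ : DifferentiableOn ℂ β (ball 0 1)) (hγ : DifferentiableOn ℂ γ (ball 0 1))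
    (hζ : ‖ζ₀‖ < 1) (hs : ‖(G (ζ₀, β ζ₀)).2‖ < 1) (ha : deriv (I0 G β γ) ζ₀ ≠ 0) :
    ∃ r ρ : ℝ, 0 ≤ r ∧ r < 1 ∧ 0 < ρ ∧
      (∀ ζ ∈ ball ζ₀ (2 * ρ), ‖ζ‖ < 1 ∧ ‖(G (ζ, β ζ)).2‖ ≤ r) ∧
      ∀ ζ ∈ closedBall ζ₀ (ρ / 2), ∀ ζ' ∈ closedBall ζ₀ (ρ / 2),
        ‖I0 G β γ ζ - I0 G β γ ζ' - deriv (I0 G β γ) ζ₀ * (ζ - ζ')‖ ≤
          ‖deriv (I0 G β γ) ζ₀‖ / 4 * ‖ζ - ζ'‖ := by
  have hβa : AnalyticAt ℂ β ζ₀ := hβ.analyticAt (isOpen_ball.mem_nhds (mem_ball_zero_iff.2 hζ))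
  have hγa : AnalyticAt ℂ γ (G (ζ₀, β ζ₀)).2 :=
    hγ.analyticAt (isOpen_ball.mem_nhds (mem_ball_zero_iff.2 hs))
  have hw : AnalyticAt ℂ (fun ζ => G (ζ, β ζ)) ζ₀ := by
    rw [Complex.analyticAt_iff_eventually_differentiableAt]
    filter_upwards [hβa.eventually_analyticAt] with ζ h
    exact (hG _).comp ζ (differentiableAt_id.prodMk h.differentiableAt)
  have hw1 : AnalyticAt ℂ (fun ζ => (G (ζ, β ζ)).1) ζ₀ := analyticAt_fst.comp hw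
  have hw2 : AnalyticAt ℂ (fun ζ => (G (ζ, β ζ)).2) ζ₀ := analyticAt_snd.comp hw
  have hI : AnalyticAt ℂ (I0 G β γ) ζ₀ := hw1.sub (hγa.comp_of_eq hw2 rfl)
  have hst : HasStrictDerivAt (I0 G β γ) (deriv (I0 G β γ) ζ₀) ζ₀ :=
    hI.contDiffAt.hasStrictDerivAt (n := 1) one_ne_zero
  have hn : 0 < ‖deriv (I0 G β γ) ζ₀‖ / 4 := by have := norm_pos_iff.2 ha; positivity
  have h1 := hst.hasStrictFDerivAt.isLittleO.def hn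
  obtain ⟨ρ₁, hρ₁, h1⟩ := Metric.eventually_nhds_iff_ball.1 h1
  obtain ⟨r, hr1, hr2⟩ := exists_between hs
  have h2 : ∀ᶠ ζ in 𝓝 ζ₀, ‖ζ‖ < 1 ∧ ‖(G (ζ, β ζ)).2‖ ≤ r :=
    (continuous_norm.continuousAt.eventually_lt continuousAt_const hζ).and
      ((hw2.continuousAt.norm.eventually_lt continuousAt_const hr1).mono fun _ h => h.le)
  obtain ⟨ρ₂, hρ₂, h2⟩ := Metric.eventually_nhds_iff_ball.1 h2
  have m1 := min_le_left ρ₁ (ρ₂ / 2)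
  have m2 := min_le_right ρ₁ (ρ₂ / 2)
  have m0 : 0 < min ρ₁ (ρ₂ / 2) := lt_min hρ₁ (by linarith)
  refine ⟨r, min ρ₁ (ρ₂ / 2), (norm_nonneg _).trans hr1.le, hr2, m0,
    fun ζ h => h2 ζ (ball_subset_ball (by linarith) h), fun ζ h ζ' h' => ?_⟩
  have hsub : closedBall ζ₀ (min ρ₁ (ρ₂ / 2) / 2) ⊆ ball ζ₀ ρ₁ :=
    closedBall_subset_ball (by linarith)
  have h3 := h1 (ζ, ζ') (by rw [← ball_prod_same]; exact ⟨hsub h, hsub h'⟩)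
  simpa [mul_comm] using h3

theorem Ift_ev {κ : ℝ} (h0 : 0 < κ) (h1 : κ < 1) (c : ℝ) {d : ℝ} (hd : 0 < d) :
    ∀ᶠ k : ℕ in atTop, c * κ ^ k < d := by
  have h := (tendsto_pow_atTop_nhds_zero_of_lt_one h0.le h1).const_mul c
  rw [mul_zero] at h
  exact h.eventually_lt_const hd

theorem cross_of_transverse {κ : ℝ} (h0 : 0 < κ) (h1 : κ < 1) {F : E → E} (hF : ContDiff ℂ 1 F)
    {χ₁ χ₂ : Chart} {β γ : ℂ → ℂ} {ζ₀ : ℂ} {F₁ F₂ S T : ℕ → E → E}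
    (hS : ∀ k, 0 < k → IsCross κ (F₁ k) χ₁ χ₁ (S k) ∧ DifferentiableOn ℂ (S k) (ball 0 1) ∧
      (∀ b ∈ D2, ‖(S k b).2 - β b.1‖ ≤ 2 * κ ^ k) ∧
      ∀ b ∈ D2, ∀ b' ∈ D2, b.1 = b'.1 → ‖(S k b).2 - (S k b').2‖ ≤ κ ^ k * ‖b.2 - b'.2‖)
    (hT : ∀ k, 0 < k → IsCross κ (F₂ k) χ₂ χ₂ (T k) ∧ DifferentiableOn ℂ (T k) (ball 0 1) ∧
      (∀ b ∈ D2, ‖(T k b).1 - γ b.2‖ ≤ 2 * κ ^ k) ∧
      ∀ b ∈ D2, ∀ b' ∈ D2, b.2 = b'.2 → ‖(T k b).1 - (T k b').1‖ ≤ κ ^ k * ‖b.1 - b'.1‖)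
    (hβ : DifferentiableOn ℂ β (ball 0 1)) (hγ : DifferentiableOn ℂ γ (ball 0 1))
    (hζ : ‖ζ₀‖ < 1) (hs : ‖(χ₂.co (F (χ₁.pt (ζ₀, β ζ₀)))).2‖ < 1)
    (hz : (χ₂.co (F (χ₁.pt (ζ₀, β ζ₀)))).1 = γ (χ₂.co (F (χ₁.pt (ζ₀, β ζ₀)))).2)
    (hd : deriv (fun ζ => (χ₂.co (F (χ₁.pt (ζ, β ζ)))).1 -
      γ (χ₂.co (F (χ₁.pt (ζ, β ζ)))).2) ζ₀ ≠ 0) :
    ∃ k, 0 < k ∧ ∃ T' : E → E, IsCross κ (F₂ k ∘ F ∘ F₁ k) χ₁ χ₂ T' := by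
  set G : E → E := fun z => χ₂.co (F (χ₁.pt z)) with hGdef
  have hGc : ContDiff ℂ 1 G := χ₂.contDiff_co.comp (hF.comp χ₁.contDiff_pt)
  have hG : Differentiable ℂ G := hGc.differentiable one_ne_zero
  obtain ⟨K, hK⟩ := ((hGc.restrict_scalars ℝ).contDiffOn (s := closedBall 0 3)).exists_lipschitzOnWith
    one_ne_zero (convex_closedBall _ _) (isCompact_closedBall _ _)
  have ha : deriv (I0 G β γ) ζ₀ ≠ 0 := hd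
  have hn := norm_pos_iff.2 ha
  obtain ⟨r, ρ, r0, r1, ρ0, hb, app⟩ := Ift_local hG hβ hγ hζ hs ha
  have hK0 : (0 : ℝ) ≤ K := K.2
  obtain ⟨k, ⟨⟨c1, c2⟩, c3⟩, hk⟩ := ((((Ift_ev h0 h1 (2 * ((K : ℝ) + 1)) (sub_pos.2 r1)).and
    (Ift_ev h0 h1 (4 * ((K : ℝ) + 1) + 2)
      (show 0 < ‖deriv (I0 G β γ) ζ₀‖ * ρ / 4 by positivity))).and
    (Ift_ev h0 h1 (4 * ((K : ℝ) + 1) * (2 * ((K : ℝ) + 1) + 1)) hn)).and
    (eventually_gt_atTop 0)).exists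
  obtain ⟨S0, Sd, S1, S2⟩ := hS k hk
  obtain ⟨T0, Td, T1, T2⟩ := hT k hk
  have H : IftData κ (κ ^ k) (K + 1) r ρ G (S k) (T k) β γ ζ₀ (deriv (I0 G β γ) ζ₀) :=
    { hG := hG
      hL := fun z hz z' hz' => by
        have := hK.norm_sub_le hz hz'
        nlinarith [norm_nonneg (z - z')]
      L1 := by linarith
      k1 := h1
      Sc := S0.con
      Sd := Sd
      S1 := S1
      S2 := S2
      Tc := T0.con
      Td := Td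
      T1 := T1
      T2 := T2
      ρ0 := ρ0
      hb := hb
      hβ := hβ
      hγ := hγ
      hz := sub_eq_zero.2 hz
      app := app
      a0 := ha
      η0 := by positivity
      r0 := r0
      c1 := c1
      c2 := c2
      c3 := c3 }
  obtain ⟨z, hz1, hz2⟩ := H.core
  refine ⟨k, hk, fun b => ((S k (z b, b.2)).1, (T k (b.1, (Iw G (S k) b.2 (z b)).2)).2),
    ⟨fun b hb => ?_, fun b hb b' hb' => ?_⟩, fun b hb => ?_⟩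
  · obtain ⟨b1, b2⟩ := mem_D2.1 hb
    obtain ⟨z1, z2, -⟩ := hz1 b hb
    have e1 := (norm_fst_le _).trans (S0.con.bound _ (Ift_mk z1 b2))
    have e2 := (norm_snd_le _).trans (T0.con.bound _ (Ift_mk b1 z2))
    rw [Prod.norm_def]
    exact max_le e1 e2
  · obtain ⟨b1, b2⟩ := mem_D2.1 hb
    obtain ⟨z1, z2, -⟩ := hz1 b hb
    obtain ⟨b1', b2'⟩ := mem_D2.1 hb'
    obtain ⟨z1', z2', -⟩ := hz1 b' hb'
    obtain ⟨l1, l2⟩ := hz2 b hb b' hb'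
    have n1 : ‖b.1 - b'.1‖ ≤ ‖b - b'‖ := norm_fst_le (b - b')
    have n2 : ‖b.2 - b'.2‖ ≤ ‖b - b'‖ := norm_snd_le (b - b')
    have e1 := (norm_fst_le _).trans (S0.con.lip _ (Ift_mk z1 b2) _ (Ift_mk z1' b2'))
    have e2 := (norm_snd_le _).trans (T0.con.lip _ (Ift_mk b1 z2) _ (Ift_mk b1' z2'))
    rw [Prod.norm_def]
    refine max_le (e1.trans (mul_le_mul_of_nonneg_left ?_ h0.le))
      (e2.trans (mul_le_mul_of_nonneg_left ?_ h0.le))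
    · rw [Prod.norm_def]; exact max_le l1 n2
    · rw [Prod.norm_def]; exact max_le n1 l2
  · obtain ⟨b1, b2⟩ := mem_D2.1 hb
    obtain ⟨z1, z2, z3⟩ := hz1 b hb
    have e1 := S0.map _ (Ift_mk z1 b2)
    have e2 := T0.map _ (Ift_mk b1 z2)
    have e3 : F (χ₁.pt (z b, (S k (z b, b.2)).2)) = χ₂.pt (Iw G (S k) b.2 (z b)) :=
      (χ₂.pt_co _).symm
    simp only [Chart.start, Function.comp_apply] at e1 e2 ⊢
    rw [e1, e3, ← e2, ← z3]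

end Pool.Agent.P.MP_eeb913_an.U
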