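import Mathlib
import Pool.Agent.P.MP_eeb913_an.U.Basic
import Pool.Agent.P.MP_eeb913_an.U.Lap

/-!
A Jensen type lower bound for the area of the bounded part of a holomorphic image.

Sketch. Let m₁ be smooth nondecreasing, 0 on (-∞, R²], 1 on [(R+1)², ∞) (Real.smoothTransition), with
deriv m₁ ≤ K₁; ℓ t = ∫_{R²}^t m₁ s / s ds (C², ≥ 0, 0 for t ≤ R², ≥ log t - log (R+1)² for
t ≥ (R+1)²). v = ℓ (‖A‖²) has lap v = 4 ‖A'‖² deriv m₁ (‖A‖²) by lap_comp and lap_normSq, between 0 and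
4 K₁ ‖A'‖² 1{‖A‖ ≤ R + 1}; v = 0 on ball ζ₀ ρ, v ≥ 2 M on ball ζ₁ ρ₁, v ≥ 0.
Test function θ ζ = Θ (‖ζ - ζ₀‖²), Θ t = ∫_t^{T} b s * m₂ (s / ρ²) / s ds, T = (5 τ / 2)²,
b s = (max (T - s) 0 / T)³, m₂ smooth nondecreasing, 0 on (-∞, 1/2], 1 on [1, ∞). Then
0 ≤ θ ≤ log (2 T / ρ²) ≤ 2 log (4 τ / ρ), tsupport θ ⊆ closedBall ζ₀ (5 τ / 2), and
lap θ = 4 (t Θ')' = - 4 b' m₂ - 4 b m₂' / ρ², which is ≥ 0 where t ≥ ρ² and ≥ c₁ / τ² on ball ζ₁ ρ₁
when t ≥ ρ² (t ≤ 4 τ²). Where t < ρ², v = 0. If M > 0 the balls ζ₀ ρ and ζ₁ ρ₁ are disjoint.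
integral_mul_lap gives 2 M c₁ π ρ₁² / τ² ≤ ∫ v lap θ = ∫ θ lap v ≤ 8 K₁ log (4 τ / ρ) area.
Any other proof is welcome.
-/

namespace Pool.Agent.P.MP_eeb913_an.U

open MeasureTheory Filter Metric Set
open scoped ENNReal NNReal Topology

theorem jensen_div {m : ℝ → ℝ} {a : ℝ} (ha : 0 < a) (hm : ContDiff ℝ 1 m)
    (h0 : ∀ s ≤ a, m s = 0) : ContDiff ℝ 1 fun s => m s / s := by
  rw [contDiff_iff_contDiffAt]
  intro s
  rcases lt_or_ge s a with h | h
  · have : (fun s => m s / s) =ᶠ[𝓝 s] fun _ => 0 := by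
      filter_upwards [Iio_mem_nhds h] with x hx
      rw [h0 x (le_of_lt hx), zero_div]
    exact contDiffAt_const.congr_of_eventuallyEq this
  · exact hm.contDiffAt.div contDiffAt_id (by linarith : 0 < s).ne'

theorem jensen_lap {m ℓ : ℝ → ℝ} {a : ℝ} (ha : 0 < a) (hm : ContDiff ℝ 1 m)
    (h0 : ∀ s ≤ a, m s = 0) (hℓ : ∀ t, HasDerivAt ℓ (m t / t) t) :
    ContDiff ℝ 2 ℓ ∧ ∀ (A : ℂ → ℂ) (z : ℂ), AnalyticAt ℂ A z →
      lap (fun w => ℓ (‖A w‖ ^ 2)) z = 4 * ‖deriv A z‖ ^ 2 * deriv m (‖A z‖ ^ 2) := by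
  have hg := jensen_div ha hm h0
  have hd : deriv ℓ = fun t => m t / t := funext fun t => (hℓ t).deriv
  have h2 : ContDiff ℝ 2 ℓ := by
    rw [show (2 : WithTop ℕ∞) = 1 + 1 from rfl, contDiff_succ_iff_deriv]
    refine ⟨fun t => (hℓ t).differentiableAt, by simp, ?_⟩
    rw [hd]
    exact hg
  refine ⟨h2, fun A z hA => ?_⟩
  obtain ⟨h3, h4, h5⟩ := lap_normSq hA
  have h6 := (lap_comp (θ := ℓ) (u := fun w => ‖A w‖ ^ 2) (z := z) h2.contDiffAt (h3 2)).1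
  rw [h6, h4, h5, hd]
  have h7 : ∀ t, deriv m t = m t / t + t * deriv (fun t => m t / t) t := fun t => by
    have e : m = fun t => t * (m t / t) := funext fun t => by
      rcases eq_or_ne t 0 with rfl | ht
      · simp [h0 0 ha.le]
      · field_simp
    have := ((hasDerivAt_id t).fun_mul
      ((hg.differentiable one_ne_zero) t).hasDerivAt).deriv
    simp only [id, one_mul] at this
    rw [← this]
    exact congrArg (fun f => deriv f t) e
  rw [h7]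
  ring

theorem jensen_prim {m : ℝ → ℝ} {a : ℝ} (ha : 0 < a) (hm : ContDiff ℝ 1 m)
    (h0 : ∀ s ≤ a, m s = 0) (hn : ∀ s, 0 ≤ m s) :
    ∃ P : ℝ → ℝ, (∀ t, HasDerivAt P (m t / t) t) ∧ (∀ t ≤ a, P t = 0) ∧ Monotone P ∧
      ∀ s t, P t - P s = ∫ x in s..t, m x / x := by
  have hg := (jensen_div ha hm h0).continuous
  have hd : ∀ t, HasDerivAt (fun u => ∫ x in a..u, m x / x) (m t / t) t := fun t =>
    (hg.integral_hasStrictDerivAt a t).hasDerivAt
  refine ⟨fun u => ∫ x in a..u, m x / x, hd, fun t ht => ?_, ?_, fun s t => ?_⟩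
  · have : ∫ x in a..t, m x / x = ∫ x in a..t, (0 : ℝ) :=
      intervalIntegral.integral_congr fun x hx => by
        rw [uIcc_of_ge ht] at hx
        simp [h0 x hx.2]
    simpa using this
  · refine monotone_of_deriv_nonneg (fun t => (hd t).differentiableAt) fun t => ?_
    rw [(hd t).deriv]
    rcases le_or_gt t a with h | h
    · simp [h0 t h]
    · exact div_nonneg (hn t) (by linarith)
  · exact intervalIntegral.integral_interval_sub_left (hg.intervalIntegrable _ _)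
      (hg.intervalIntegrable _ _)

theorem jensen_v {R : ℝ} (hR : 0 < R) :
    ∃ (ℓ : ℝ → ℝ) (K : ℝ), 0 < K ∧ ContDiff ℝ 2 ℓ ∧ (∀ t, 0 ≤ ℓ t) ∧ (∀ t ≤ R ^ 2, ℓ t = 0) ∧
      (∀ t, (R + 1) ^ 2 ≤ t → Real.log (t / (R + 1) ^ 2) ≤ ℓ t) ∧
      ∀ (A : ℂ → ℂ) (z : ℂ), AnalyticAt ℂ A z →
        (‖A z‖ ≤ R + 1 → lap (fun w => ℓ (‖A w‖ ^ 2)) z ≤ K * ‖deriv A z‖ ^ 2) ∧
        (R + 1 < ‖A z‖ → lap (fun w => ℓ (‖A w‖ ^ 2)) z = 0) := by
  set m : ℝ → ℝ := fun s => Real.smoothTransition ((s - R ^ 2) / (2 * R + 1)) with hmdef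
  have hm : ContDiff ℝ 1 m :=
    (Real.smoothTransition.contDiff (n := 1)).comp ((contDiff_id.sub contDiff_const).div_const _)
  have h0 : ∀ s ≤ R ^ 2, m s = 0 := fun s hs =>
    Real.smoothTransition.zero_of_nonpos (div_nonpos_of_nonpos_of_nonneg (by linarith) (by linarith))
  have h1 : ∀ s, (R + 1) ^ 2 ≤ s → m s = 1 := fun s hs =>
    Real.smoothTransition.one_of_one_le (by rw [le_div_iff₀ (by linarith)]; nlinarith)
  have hn : ∀ s, 0 ≤ m s := fun s => Real.smoothTransition.nonneg _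
  have hR2 : 0 < R ^ 2 := by positivity
  obtain ⟨P, hP, hP0, hPm, hPs⟩ := jensen_prim hR2 hm h0 hn
  obtain ⟨h2, hlap⟩ := jensen_lap hR2 hm h0 hP
  have hPn : ∀ t, 0 ≤ P t := fun t => by
    rcases le_total t (R ^ 2) with h | h
    · rw [hP0 t h]
    · rw [← hP0 _ le_rfl]; exact hPm h
  obtain ⟨K, hK⟩ := (isCompact_Icc (a := (0 : ℝ)) (b := (R + 1) ^ 2)).bddAbove_image
    (hm.continuous_deriv le_rfl).continuousOn
  refine ⟨P, 4 * (|K| + 1), by positivity, h2, hPn, hP0, fun t ht => ?_, fun A z hA => ?_⟩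
  · have hpos : 0 < (R + 1) ^ 2 := by positivity
    have e : ∫ x in (R + 1) ^ 2..t, m x / x = ∫ x in (R + 1) ^ 2..t, 1 / x :=
      intervalIntegral.integral_congr fun x hx => by
        rw [uIcc_of_le ht] at hx
        simp only [h1 x hx.1]
    have := hPs ((R + 1) ^ 2) t
    rw [e, integral_one_div_of_pos hpos (by linarith)] at this
    linarith [hPn ((R + 1) ^ 2)]
  · rw [hlap A z hA]
    refine ⟨fun h => ?_, fun h => ?_⟩
    · have h3 : deriv m (‖A z‖ ^ 2) ≤ K :=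
        hK (mem_image_of_mem _ ⟨by positivity, by gcongr⟩)
      have h4 : deriv m (‖A z‖ ^ 2) ≤ |K| + 1 := by linarith [le_abs_self K]
      nlinarith [sq_nonneg ‖deriv A z‖]
    · have h3 : m =ᶠ[𝓝 (‖A z‖ ^ 2)] fun _ => 1 := by
        have : (R + 1) ^ 2 < ‖A z‖ ^ 2 := by gcongr
        filter_upwards [Ioi_mem_nhds this] with x hx
        exact h1 x (le_of_lt hx)
      rw [h3.deriv_eq]
      simp

theorem jensen_glue (T s : ℝ) : HasDerivAt (fun s => expNegInvGlue (T - s))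
    (-((T - s)⁻¹ ^ 2 * expNegInvGlue (T - s))) s := by
  have h := expNegInvGlue.hasDerivAt_polynomial_eval_inv_mul 1 (T - s)
  simp only [Polynomial.eval_one, one_mul, Polynomial.derivative_one, sub_zero, mul_one,
    Polynomial.eval_pow, Polynomial.eval_X] at h
  have h2 : HasDerivAt (fun s => T - s) (-1) s := (hasDerivAt_id s).const_sub T
  exact (h.comp s h2).congr_deriv (by ring)

theorem jensen_glue_le (x : ℝ) : expNegInvGlue x ≤ 1 := by
  unfold expNegInvGlue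
  split_ifs with h
  · exact zero_le_one
  · rw [Real.exp_le_one_iff]
    have : 0 < x⁻¹ := inv_pos.2 (not_le.1 h)
    linarith

theorem jensen_theta {τ : ℝ} (hτ : 0 < τ) :
    ∃ c₁ : ℝ, 0 < c₁ ∧ ∀ ρ, 0 < ρ → ρ ≤ τ → ∃ Θ : ℝ → ℝ, ContDiff ℝ 2 Θ ∧ (∀ t, 0 ≤ Θ t) ∧
      (∀ t, Θ t ≤ 2 * Real.log (4 * τ / ρ)) ∧ (∀ t, (5 * τ / 2) ^ 2 ≤ t → Θ t = 0) ∧
      ∀ ζ₀ z : ℂ, ρ ≤ ‖z - ζ₀‖ → 0 ≤ lap (fun w => Θ (‖w - ζ₀‖ ^ 2)) z ∧
        (‖z - ζ₀‖ ≤ 2 * τ → c₁ ≤ lap (fun w => Θ (‖w - ζ₀‖ ^ 2)) z) := by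
  set T : ℝ := (5 * τ / 2) ^ 2 with hT
  have hT0 : 0 < T := by positivity
  have hT4 : 0 < T - (2 * τ) ^ 2 := by rw [hT]; nlinarith
  refine ⟨4 * (T⁻¹ ^ 2 * expNegInvGlue (T - (2 * τ) ^ 2)),
    by have := expNegInvGlue.pos_of_pos hT4; positivity, fun ρ hρ hρτ => ?_⟩
  have hρ2 : 0 < ρ ^ 2 := by positivity
  set m : ℝ → ℝ := fun s => expNegInvGlue (T - s) * Real.smoothTransition (4 * s / ρ ^ 2 - 2)
    with hmdef
  have hm : ContDiff ℝ 1 m :=
    ((expNegInvGlue.contDiff (n := 1)).comp (contDiff_const.sub contDiff_id)).mul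
      ((Real.smoothTransition.contDiff (n := 1)).comp
        (((contDiff_const.mul contDiff_id).div_const _).sub contDiff_const))
  have ha : 0 < ρ ^ 2 / 2 := by positivity
  have h0 : ∀ s ≤ ρ ^ 2 / 2, m s = 0 := fun s hs => by
    have : 4 * s / ρ ^ 2 - 2 ≤ 0 := by
      rw [sub_nonpos, div_le_iff₀ hρ2]; linarith
    simp only [hmdef, Real.smoothTransition.zero_of_nonpos this, mul_zero]
  have hn : ∀ s, 0 ≤ m s := fun s =>
    mul_nonneg (expNegInvGlue.nonneg _) (Real.smoothTransition.nonneg _)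
  have hle : ∀ s, m s ≤ 1 := fun s =>
    mul_le_one₀ (jensen_glue_le _) (Real.smoothTransition.nonneg _) (Real.smoothTransition.le_one _)
  have hTz : ∀ s, T ≤ s → m s = 0 := fun s hs => by
    simp only [hmdef, expNegInvGlue.zero_of_nonpos (sub_nonpos.2 hs), zero_mul]
  obtain ⟨P, hP, hP0, hPm, hPs⟩ := jensen_prim ha hm h0 hn
  have hPn : ∀ t, 0 ≤ P t := fun t => by
    rcases le_total t (ρ ^ 2 / 2) with h | h
    · rw [hP0 t h]
    · rw [← hP0 _ le_rfl]; exact hPm h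
  have hz : ∀ t, T ≤ t → P T - P t = 0 := fun t ht => by
    have e : ∫ x in T..t, m x / x = ∫ x in T..t, (0 : ℝ) :=
      intervalIntegral.integral_congr fun x hx => by
        rw [uIcc_of_le ht] at hx
        simp [hTz x hx.1]
    have := hPs T t
    rw [e] at this
    simp at this
    linarith
  have haT : ρ ^ 2 / 2 ≤ T := by rw [hT]; nlinarith
  have hPT : P T ≤ 2 * Real.log (4 * τ / ρ) := by
    have e := hPs (ρ ^ 2 / 2) T
    rw [hP0 _ le_rfl, sub_zero] at e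
    have h1 : ∫ x in ρ ^ 2 / 2..T, m x / x ≤ ∫ x in ρ ^ 2 / 2..T, 1 / x := by
      refine intervalIntegral.integral_mono_on haT
        ((jensen_div ha hm h0).continuous.intervalIntegrable _ _) ?_ fun x hx => ?_
      · refine ContinuousOn.intervalIntegrable (continuousOn_const.div continuousOn_id ?_)
        intro x hx
        rw [uIcc_of_le haT] at hx
        exact (ha.trans_le hx.1).ne'
      · exact div_le_div_of_nonneg_right (hle x) (ha.trans_le hx.1).le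
    rw [integral_one_div_of_pos ha hT0] at h1
    have h2 : Real.log (T / (ρ ^ 2 / 2)) ≤ Real.log ((4 * τ / ρ) ^ 2) := by
      refine Real.log_le_log (by positivity) ?_
      rw [div_pow, div_le_div_iff₀ ha hρ2, hT]
      nlinarith [mul_pos (pow_pos hτ 2) hρ2]
    rw [Real.log_pow] at h2
    push_cast at h2
    linarith
  obtain ⟨h2, hlap⟩ := jensen_lap (m := fun s => -m s) (ℓ := fun t => P T - P t) ha hm.neg
    (fun s hs => by simp [h0 s hs]) (fun t => ((hP t).const_sub (P T)).congr_deriv (by ring))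
  refine ⟨fun t => P T - P t, h2, fun t => ?_, fun t => by linarith [hPn t], hz,
    fun ζ₀ z hz => ?_⟩
  · rcases le_total t T with h | h
    · exact sub_nonneg.2 (hPm h)
    · exact (hz t h).ge
  · have h3 := hlap (fun w => w - ζ₀) z (analyticAt_id.sub analyticAt_const)
    have h4 : deriv (fun w : ℂ => w - ζ₀) z = 1 := ((hasDerivAt_id z).sub_const ζ₀).deriv
    set t := ‖z - ζ₀‖ ^ 2 with ht
    have ht1 : ρ ^ 2 ≤ t := by rw [ht]; gcongr
    have h5 : (fun s => -m s) =ᶠ[𝓝 t] fun s => -expNegInvGlue (T - s) := by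
      have : 3 * ρ ^ 2 / 4 < t := by linarith
      filter_upwards [Ioi_mem_nhds this] with x hx
      have h6 : 1 ≤ 4 * x / ρ ^ 2 - 2 := by
        rw [le_sub_iff_add_le, le_div_iff₀ hρ2]
        have : 3 * ρ ^ 2 / 4 < x := hx
        linarith
      simp only [hmdef, Real.smoothTransition.one_of_one_le h6, mul_one]
    rw [h4, h5.deriv_eq, (jensen_glue T t).fun_neg.deriv] at h3
    rw [h3]
    have h7 := expNegInvGlue.nonneg (T - t)
    refine ⟨by simp only [norm_one, neg_neg]; positivity, fun h => ?_⟩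
    have h8 : t ≤ (2 * τ) ^ 2 := by rw [ht]; gcongr
    have h9 : T⁻¹ ≤ (T - t)⁻¹ := inv_anti₀ (by linarith) (by linarith)
    have h10 : expNegInvGlue (T - (2 * τ) ^ 2) ≤ expNegInvGlue (T - t) :=
      expNegInvGlue.monotone (by linarith)
    have h11 := expNegInvGlue.nonneg (T - (2 * τ) ^ 2)
    simp only [norm_one, neg_neg, one_pow, mul_one]
    gcongr

theorem mass_lower {τ ρ₁ R : ℝ} (hτ : 0 < τ) (hρ₁ : 0 < ρ₁) (hρτ : ρ₁ ≤ τ) (hR : 0 < R) :
    ∃ c : ℝ, 0 < c ∧ ∀ (A : ℂ → ℂ) (ζ₀ ζ₁ : ℂ) (ρ M : ℝ),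
      DifferentiableOn ℂ A (ball ζ₀ (4 * τ)) → 0 < ρ → ρ ≤ τ → (∀ ζ ∈ ball ζ₀ ρ, ‖A ζ‖ ≤ R) →
      ‖ζ₁ - ζ₀‖ ≤ τ → (∀ ζ ∈ ball ζ₁ ρ₁, (R + 1) * Real.exp M ≤ ‖A ζ‖) →
      ENNReal.ofReal (c * M) ≤ ENNReal.ofReal (Real.log (4 * τ / ρ)) *
        area A (ball ζ₀ (3 * τ) ∩ {ζ | ‖A ζ‖ ≤ R + 1}) := by
  obtain ⟨ℓ, K, hK, hℓ, hℓn, hℓ0, hℓl, hℓlap⟩ := jensen_v hR
  obtain ⟨c₁, hc₁, hΘ⟩ := jensen_theta hτ
  set V : ℝ := volume.real (ball (0 : ℂ) ρ₁) with hV
  have hV0 : 0 < V := ENNReal.toReal_pos (measure_ball_pos _ _ hρ₁).ne' measure_ball_lt_top.ne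
  refine ⟨c₁ * V / K, by positivity, fun A ζ₀ ζ₁ ρ M hA hρ hρτ' hin hζ hout => ?_⟩
  rcases le_or_gt M 0 with hM | hM
  · rw [ENNReal.ofReal_of_nonpos (mul_nonpos_of_nonneg_of_nonpos (by positivity) hM)]
    exact zero_le
  obtain ⟨Θ, hΘ2, hΘn, hΘl, hΘ0, hΘlap⟩ := hΘ ρ hρ hρτ'
  set θ : ℂ → ℝ := fun w => Θ (‖w - ζ₀‖ ^ 2) with hθ
  set v : ℂ → ℝ := fun w => ℓ (‖A w‖ ^ 2) with hv
  have hAa : ∀ z ∈ ball ζ₀ (4 * τ), AnalyticAt ℂ A z := hA.analyticOnNhd isOpen_ball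
  have hθ2 : ContDiff ℝ 2 θ := hΘ2.comp ((contDiff_id.sub contDiff_const).norm_sq ℝ)
  have hθz : ∀ z, z ∉ closedBall ζ₀ (5 * τ / 2) → θ z = 0 := fun z hz => by
    rw [mem_closedBall, dist_eq_norm, not_le] at hz
    exact hΘ0 _ (by gcongr)
  have hts : tsupport θ ⊆ closedBall ζ₀ (5 * τ / 2) :=
    closure_minimal (fun z hz => by_contra fun h => hz (hθz z h)) isClosed_closedBall
  have hv2 : ContDiffOn ℝ 2 v (ball ζ₀ (4 * τ)) := fun z hz =>
    (hℓ.contDiffAt.comp z ((lap_normSq (hAa z hz)).1 2)).contDiffWithinAt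
  obtain ⟨hi1, hi2, hI⟩ := integral_mul_lap isOpen_ball hθ2
    ((isCompact_closedBall ζ₀ (5 * τ / 2)).of_isClosed_subset (isClosed_tsupport _) hts)
    (hts.trans (closedBall_subset_ball (by linarith))) hv2
  have hlow : 2 * M * c₁ * V ≤ ∫ z, v z * lap θ z := by
    have h1 : 2 * M * c₁ * volume.real (ball ζ₁ ρ₁) ≤ ∫ z in ball ζ₁ ρ₁, v z * lap θ z := by
      refine setIntegral_ge_of_const_le_real measurableSet_ball measure_ball_lt_top.ne
        (fun z hz => ?_) hi2.integrableOn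
      have h2 := hout z hz
      have h3 : 1 ≤ Real.exp M := Real.one_le_exp hM.le
      have h4 : R + 1 ≤ ‖A z‖ := by nlinarith
      have h5 : ρ ≤ ‖z - ζ₀‖ := by
        by_contra hc
        have := hin z (by rw [mem_ball, dist_eq_norm]; exact not_le.1 hc)
        linarith
      have h6 : ‖z - ζ₀‖ ≤ 2 * τ := by
        rw [mem_ball, dist_eq_norm] at hz
        have := norm_sub_le_norm_sub_add_norm_sub z ζ₁ ζ₀
        linarith
      have h7 : 2 * M ≤ v z := by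
        refine le_trans ?_ (hℓl _ (by gcongr))
        rw [Real.le_log_iff_exp_le (div_pos (pow_pos (by linarith) 2) (by positivity)),
          le_div_iff₀ (by positivity)]
        have e : Real.exp (2 * M) * (R + 1) ^ 2 = ((R + 1) * Real.exp M) ^ 2 := by
          rw [two_mul, Real.exp_add]; ring
        rw [e]
        gcongr
      exact mul_le_mul h7 ((hΘlap ζ₀ z h5).2 h6) hc₁.le (hℓn _)
    have h2 : volume.real (ball ζ₁ ρ₁) = V := by
      rw [hV, Measure.real, Measure.real, Measure.addHaar_ball_center]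
    rw [h2] at h1
    refine h1.trans (setIntegral_le_integral hi2 (Eventually.of_forall fun z => ?_))
    rcases le_or_gt ρ ‖z - ζ₀‖ with h | h
    · exact mul_nonneg (hℓn _) (hΘlap ζ₀ z h).1
    · have h3 := hin z (by rw [mem_ball, dist_eq_norm]; exact h)
      have h4 : v z = 0 := hℓ0 _ (by gcongr)
      simp [h4]
  have hlog : 0 ≤ Real.log (4 * τ / ρ) :=
    Real.log_nonneg (by rw [le_div_iff₀ hρ]; linarith)
  have hi3 : Integrable fun z => (2 * K)⁻¹ * (θ z * lap v z) := hi1.const_mul _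
  have hle : c₁ * V / K * M ≤ ∫ z, (2 * K)⁻¹ * (θ z * lap v z) := by
    rw [integral_const_mul, hI]
    have : c₁ * V / K * M = (2 * K)⁻¹ * (2 * M * c₁ * V) := by field_simp
    rw [this]
    gcongr
  have hle2 : ENNReal.ofReal (c₁ * V / K * M) ≤
      ∫⁻ z, ENNReal.ofReal ((2 * K)⁻¹ * (θ z * lap v z)) := by
    refine le_trans (ENNReal.ofReal_le_ofReal ?_) ENNReal.ofReal_toReal_le
    rw [integral_eq_lintegral_pos_part_sub_lintegral_neg_part hi3] at hle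
    exact hle.trans (sub_le_self _ ENNReal.toReal_nonneg)
  refine hle2.trans ?_
  rw [area, ← lintegral_const_mul' _ _ ENNReal.ofReal_ne_top]
  refine le_trans (lintegral_mono fun z => ?_) (lintegral_indicator_le _ _)
  by_cases hz : z ∈ closedBall ζ₀ (5 * τ / 2)
  · have hzU : z ∈ ball ζ₀ (4 * τ) := closedBall_subset_ball (by linarith) hz
    obtain ⟨h1, h2⟩ := hℓlap A z (hAa z hzU)
    rcases le_or_gt ‖A z‖ (R + 1) with h | h
    · rw [indicator_of_mem (show z ∈ ball ζ₀ (3 * τ) ∩ {ζ | ‖A ζ‖ ≤ R + 1} from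
        ⟨closedBall_subset_ball (by linarith) hz, h⟩), ← ENNReal.ofReal_mul hlog]
      refine ENNReal.ofReal_le_ofReal ?_
      have h3 : θ z * lap v z ≤ θ z * (K * ‖deriv A z‖ ^ 2) :=
        mul_le_mul_of_nonneg_left (h1 h) (hΘn _)
      have h4 : θ z * (K * ‖deriv A z‖ ^ 2) ≤
          2 * Real.log (4 * τ / ρ) * (K * ‖deriv A z‖ ^ 2) :=
        mul_le_mul_of_nonneg_right (hΘl _) (by positivity)
      refine (mul_le_mul_of_nonneg_left (h3.trans h4) (by positivity)).trans (le_of_eq ?_)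
      field_simp
    · have h3 : lap v z = 0 := h2 h
      simp [h3]
  · simp [hθz z hz]

end Pool.Agent.P.MP_eeb913_an.U
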