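import Mathlib
import Pool.Agent.P.MP_eeb913_an.U.Basic
import Pool.Agent.P.MP_eeb913_an.U.Jensen
import Pool.Agent.P.MP_eeb913_an.U.FiltLem

/-!
Area growth of iterates of a holomorphic disc with a bounded point and an escaping point.

area_lower. All ψ ζ are in the box, so mem_W and bounded_between apply; ‖f^[j] (ψ ζ₀)‖ ≤ R for j ≤ n.
By the Cauchy estimate (Complex.norm_deriv_le_of_forall_mem_sphere_norm_le or the Schwarz lemma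
Complex.dist_le_div_mul_dist_of_mapsTo_ball) ψ is (2 R / τ)-Lipschitz on ball ζ₀ (3 τ). With L from
exists_lip at radius R + 1 and ρ = τ / (2 R L^n), iter_lip_near gives ‖(f^[n] (ψ ζ)).1‖ ≤ R + 1 on
ball ζ₀ ρ; log (4 τ / ρ) ≤ C n for n ≥ 1. f^[j₀] is L₀-Lipschitz on the box, so with
ρ₁ = min τ (τ / (2 L₀)) one has ‖f^[j₀] (ψ ζ)‖ ≥ 3 R on ball ζ₁ ρ₁; such a point w of W has
R ≤ |w.1|, |w.2| ≤ |w.1|; growth_low gives log |(f^[n] (ψ ζ)).1| ≥ c d^(n - j₀) for n ≥ j₀ + i₀.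
Apply mass_lower with R + 1 and M = c d^(n - j₀) - log (R + 2) ≥ (c / 2) d^(n - j₀).
exists_escape. Otherwise ‖U‖ < M on closedBall ζ₀ τ; the Cauchy estimate on circles of radius τ / 2
bounds the derivative by 2 M / τ on the convex set closedBall ζ₀ (τ / 2).
-/

namespace Pool.Agent.P.MP_eeb913_an.U

open MeasureTheory Filter Metric Set
open scoped ENNReal NNReal Topology

theorem escape_cauchy_lip {U : ℂ → E} {ζ₀ : ℂ} {ρ r s M : ℝ} (hs : 0 < s) (hρ : r + s < ρ)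
    (hU : DifferentiableOn ℂ U (ball ζ₀ ρ)) (hM : ∀ ζ, ‖ζ - ζ₀‖ ≤ r + s → ‖U ζ‖ ≤ M)
    {ζa ζb : ℂ} (ha : ‖ζa - ζ₀‖ ≤ r) (hb : ‖ζb - ζ₀‖ ≤ r) :
    ‖U ζa - U ζb‖ ≤ M / s * ‖ζa - ζb‖ := by
  have hsub : ∀ ζ ∈ closedBall ζ₀ r, ∀ η ∈ closedBall ζ s, ‖η - ζ₀‖ ≤ r + s := by
    intro ζ hζ η hη
    rw [mem_closedBall, dist_eq_norm] at hζ hη
    have h := norm_add_le (η - ζ) (ζ - ζ₀)
    rw [sub_add_sub_cancel] at h
    linarith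
  have hsub' : ∀ ζ ∈ closedBall ζ₀ r, closedBall ζ s ⊆ ball ζ₀ ρ := by
    intro ζ hζ η hη
    rw [mem_ball, dist_eq_norm]
    exact (hsub ζ hζ η hη).trans_lt hρ
  refine (convex_closedBall ζ₀ r).norm_image_sub_le_of_norm_deriv_le (𝕜 := ℂ)
    (fun ζ hζ => ?_) (fun ζ hζ => ?_) ?_ ?_
  · exact hU.differentiableAt
      (isOpen_ball.mem_nhds (hsub' ζ hζ (mem_closedBall_self hs.le)))
  · refine Complex.norm_deriv_le_of_forall_mem_sphere_norm_le hs ?_ fun η hη => ?_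
    · refine DifferentiableOn.diffContOnCl ?_
      rw [closure_ball ζ hs.ne']
      exact hU.mono (hsub' ζ hζ)
    · exact hM η (hsub ζ hζ η (sphere_subset_closedBall hη))
  · rwa [mem_closedBall, dist_eq_norm]
  · rwa [mem_closedBall, dist_eq_norm]

theorem escape_plus {w : E} {R : ℝ} (hR : 1 ≤ R) (h3 : 3 * R ≤ ‖w‖)
    (hw : ‖w.2‖ ≤ max R (‖w.1‖ / 2)) : R ≤ ‖w.1‖ ∧ ‖w.2‖ ≤ ‖w.1‖ := by
  rw [Prod.norm_def, le_max_iff] at h3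
  rw [le_max_iff] at hw
  have h1 := norm_nonneg w.1
  rcases h3 with h3 | h3 <;> rcases hw with hw | hw <;> constructor <;> linarith

theorem area_lower {f : E → E} {d : ℕ} {R : ℝ} (hf : ContDiff ℂ 2 f) (hF : Filt f d R)
    (hd : 2 ≤ d) {τ : ℝ} (hτ : 0 < τ) (j₀ : ℕ) :
    ∃ (c : ℝ) (n₀ : ℕ), 0 < c ∧ ∀ (ψ : ℂ → E) (ζ₀ ζ₁ : ℂ) (n : ℕ), n₀ ≤ n →
      DifferentiableOn ℂ ψ (ball ζ₀ (4 * τ)) → (∀ ζ ∈ ball ζ₀ (4 * τ), ‖ψ ζ‖ ≤ R) →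
      ‖f^[n] (ψ ζ₀)‖ ≤ R → ‖ζ₁ - ζ₀‖ ≤ τ → 4 * R ≤ ‖f^[j₀] (ψ ζ₁)‖ →
      ENNReal.ofReal (c * d ^ n / n) ≤ area (fun ζ => (f^[n] (ψ ζ)).1)
        (ball ζ₀ (3 * τ) ∩ {ζ | ‖(f^[n] (ψ ζ)).1‖ ≤ R + 2}) := by
  have hR := hF.one_le
  have hR0 : 0 < R := by linarith
  obtain ⟨L, hL2, -, hL, -⟩ := exists_lip hf (R + 1)
  obtain ⟨L₀, hL₀2, -, hL₀, -⟩ := exists_lip (contDiff_iterate hf j₀) R
  obtain ⟨c₀, i₀, hc₀, hlow⟩ := hF.growth_low hd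
  have hL0 : 0 < L := by linarith
  have hL₀0 : 0 < L₀ := by linarith
  have hρ₁ : 0 < τ / L₀ := by positivity
  have hρ₁τ : τ / L₀ ≤ τ := div_le_self hτ.le (by linarith)
  obtain ⟨c₁, hc₁, hmass⟩ := mass_lower hτ hρ₁ hρ₁τ (show 0 < R + 1 by linarith)
  have hlogL : 0 < Real.log L := Real.log_pos (by linarith)
  have hlogR : 0 < Real.log (4 * R) := Real.log_pos (by linarith)
  have hC : 0 < Real.log (4 * R) + Real.log L := by linarith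
  have hd2 : (2 : ℝ) ≤ d := by exact_mod_cast hd
  have hd0 : (0 : ℝ) < d := by linarith
  obtain ⟨k₀, hk₀⟩ := exists_nat_ge (2 * (R + 2) / c₀)
  refine ⟨c₁ * c₀ / (2 * (Real.log (4 * R) + Real.log L) * d ^ j₀), j₀ + i₀ + k₀ + 1,
    by positivity, fun ψ ζ₀ ζ₁ n hn hψ hbd hn0 hζ₁ hesc => ?_⟩
  obtain ⟨k, rfl⟩ : ∃ k, n = k + j₀ := ⟨n - j₀, by omega⟩
  have hn1 : (1 : ℝ) ≤ (k + j₀ : ℕ) := by exact_mod_cast (by omega : 1 ≤ k + j₀)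
  have hin : ∀ ζ, ‖ζ - ζ₀‖ ≤ 2 * τ + τ → ‖ψ ζ‖ ≤ R := fun ζ hζ =>
    hbd ζ (by rw [mem_ball, dist_eq_norm]; linarith)
  have hlip : ∀ ζa ζb : ℂ, ‖ζa - ζ₀‖ ≤ 2 * τ → ‖ζb - ζ₀‖ ≤ 2 * τ →
      ‖ψ ζa - ψ ζb‖ ≤ R / τ * ‖ζa - ζb‖ := fun ζa ζb ha hb =>
    escape_cauchy_lip hτ (by linarith) hψ hin ha hb
  have hW : ∀ ζ, ‖ζ - ζ₀‖ ≤ 2 * τ → ‖(ψ ζ).2‖ ≤ max R (‖(ψ ζ).1‖ / 2) := fun ζ hζ =>
    ((norm_snd_le _).trans (hin ζ (by linarith))).trans (le_max_left _ _)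
  have h00 : ‖ζ₀ - ζ₀‖ ≤ 2 * τ := by rw [sub_self, norm_zero]; linarith
  have hbetween := hF.bounded_between le_rfl (hW ζ₀ h00) ((norm_fst_le _).trans hn0)
  have hLn : 1 ≤ L ^ (k + j₀) := one_le_pow₀ (by linarith)
  have hRL : 1 ≤ R * L ^ (k + j₀) := one_le_mul_of_one_le_of_one_le hR hLn
  have hρ : 0 < τ / (R * L ^ (k + j₀)) := by positivity
  have hρτ : τ / (R * L ^ (k + j₀)) ≤ τ := div_le_self hτ.le hRL
  have hA : DifferentiableOn ℂ (fun ζ => (f^[k + j₀] (ψ ζ)).1) (ball ζ₀ (4 * τ)) :=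
    (((contDiff_iterate hf (k + j₀)).differentiable (by norm_num)).comp_differentiableOn hψ).fst
  have hsmall : ∀ ζ ∈ ball ζ₀ (τ / (R * L ^ (k + j₀))), ‖(f^[k + j₀] (ψ ζ)).1‖ ≤ R + 1 := by
    intro ζ hζ
    rw [mem_ball, dist_eq_norm] at hζ
    have h1 := hlip ζ ζ₀ (by linarith) h00
    have h2 : L ^ (k + j₀) * ‖ψ ζ - ψ ζ₀‖ ≤ 1 := by
      have h3 : ‖ψ ζ - ψ ζ₀‖ ≤ R / τ * (τ / (R * L ^ (k + j₀))) :=
        h1.trans (mul_le_mul_of_nonneg_left hζ.le (by positivity))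
      have e : L ^ (k + j₀) * (R / τ * (τ / (R * L ^ (k + j₀)))) = 1 := by field_simp
      rw [← e]
      exact mul_le_mul_of_nonneg_left h3 (by positivity)
    have h4 := iter_lip_near (by linarith) hL (fun j hj => hbetween j hj.le) h2 (k + j₀) le_rfl
    have h5 := norm_add_le (f^[k + j₀] (ψ ζ) - f^[k + j₀] (ψ ζ₀)) (f^[k + j₀] (ψ ζ₀))
    rw [sub_add_cancel] at h5
    exact (norm_fst_le _).trans (by linarith)
  have hM : R + 2 ≤ c₀ / 2 * d ^ k := by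
    have h1 : (k : ℝ) ≤ d ^ k := by
      have h2 : (k : ℝ) ≤ 2 ^ k := by exact_mod_cast (Nat.lt_two_pow_self (n := k)).le
      exact h2.trans (pow_le_pow_left₀ (by norm_num) hd2 k)
    have h3 : (k₀ : ℝ) ≤ k := by exact_mod_cast (by omega : k₀ ≤ k)
    rw [div_le_iff₀ hc₀] at hk₀
    nlinarith
  have hbig : ∀ ζ ∈ ball ζ₁ (τ / L₀),
      (R + 1 + 1) * Real.exp (c₀ / 2 * d ^ k) ≤ ‖(f^[k + j₀] (ψ ζ)).1‖ := by
    intro ζ hζ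
    rw [mem_ball, dist_eq_norm] at hζ
    have hζ0 : ‖ζ - ζ₀‖ ≤ 2 * τ := by
      have h := norm_add_le (ζ - ζ₁) (ζ₁ - ζ₀)
      rw [sub_add_sub_cancel] at h
      linarith
    have h1 := hlip ζ₁ ζ (by linarith) hζ0
    rw [norm_sub_rev ζ₁ ζ] at h1
    have h2 := hL₀ (ψ ζ₁) (ψ ζ) (hin ζ₁ (by linarith)) (hin ζ (by linarith))
    have h3 : L₀ * ‖ψ ζ₁ - ψ ζ‖ ≤ R := by
      have h3 : ‖ψ ζ₁ - ψ ζ‖ ≤ R / τ * (τ / L₀) :=
        h1.trans (mul_le_mul_of_nonneg_left hζ.le (by positivity))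
      have e : L₀ * (R / τ * (τ / L₀)) = R := by field_simp
      rw [← e]
      exact mul_le_mul_of_nonneg_left h3 hL₀0.le
    have h5 := norm_add_le (f^[j₀] (ψ ζ₁) - f^[j₀] (ψ ζ)) (f^[j₀] (ψ ζ))
    rw [sub_add_cancel] at h5
    obtain ⟨h6, h7⟩ := escape_plus hR (show 3 * R ≤ ‖f^[j₀] (ψ ζ)‖ by linarith)
      (hF.mem_W (hW ζ hζ0) j₀)
    have h8 := hlow _ h6 h7 k (by omega)
    rw [← Function.iterate_add_apply] at h8
    have hpos : 0 < ‖(f^[k + j₀] (ψ ζ)).1‖ := by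
      refine lt_of_le_of_ne (norm_nonneg _) fun h0 => ?_
      rw [← h0, Real.log_zero] at h8
      linarith
    rw [Real.le_log_iff_exp_le hpos] at h8
    refine le_trans ?_ h8
    have e : c₀ * (d : ℝ) ^ k = c₀ / 2 * d ^ k + c₀ / 2 * d ^ k := by ring
    rw [e, Real.exp_add]
    refine mul_le_mul_of_nonneg_right ?_ (Real.exp_pos _).le
    have := Real.add_one_le_exp (c₀ / 2 * d ^ k)
    linarith
  have hmain := hmass _ ζ₀ ζ₁ _ _ hA hρ hρτ hsmall hζ₁ hbig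
  have e2 : R + 1 + 1 = R + 2 := by ring
  rw [e2] at hmain
  have hlog : Real.log (4 * τ / (τ / (R * L ^ (k + j₀)))) ≤
      (Real.log (4 * R) + Real.log L) * (k + j₀ : ℕ) := by
    have e : 4 * τ / (τ / (R * L ^ (k + j₀))) = 4 * R * L ^ (k + j₀) := by field_simp
    rw [e, Real.log_mul (by positivity) (by positivity), Real.log_pow]
    nlinarith
  have hmain2 := hmain.trans (mul_le_mul_left (ENNReal.ofReal_le_ofReal hlog) _)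
  have e3 : c₁ * c₀ / (2 * (Real.log (4 * R) + Real.log L) * d ^ j₀) * d ^ (k + j₀) / (k + j₀ : ℕ)
      = c₁ * (c₀ / 2 * d ^ k) / ((Real.log (4 * R) + Real.log L) * (k + j₀ : ℕ)) := by
    rw [pow_add]
    field_simp
  rw [e3, ENNReal.ofReal_div_of_pos (by positivity)]
  exact ENNReal.div_le_of_le_mul' hmain2

theorem exists_escape {U : ℂ → E} {ζ₀ ζa ζb : ℂ} {τ M : ℝ} (hτ : 0 < τ)
    (hU : DifferentiableOn ℂ U (ball ζ₀ (4 * τ))) (ha : ‖ζa - ζ₀‖ ≤ τ / 2)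
    (hb : ‖ζb - ζ₀‖ ≤ τ / 2) (h : 2 * M / τ * ‖ζa - ζb‖ < ‖U ζa - U ζb‖) :
    ∃ ζ₁ : ℂ, ‖ζ₁ - ζ₀‖ ≤ τ ∧ M ≤ ‖U ζ₁‖ := by
  by_contra hcon
  push Not at hcon
  have h1 := escape_cauchy_lip (r := τ / 2) (s := τ / 2) (M := M) (by linarith) (by linarith) hU
    (fun ζ hζ => (hcon ζ (by linarith)).le) ha hb
  have e : M / (τ / 2) = 2 * M / τ := by field_simp
  rw [e] at h1
  linarith

end Pool.Agent.P.MP_eeb913_an.U
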