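import Mathlib
import Pool.Agent.P.MP_eeb913_an.U.Basic

/-!
Crossings are holomorphic, and two crossings through a common interior point agree.

Sketch. Let Gm z = ((χ'.co (F (χ.pt z))).1, z.2) and S b = ((T b).1, b.2); Gm (S b) = b on D2 and S is
Lipschitz on D2. At an interior b the derivative M of Gm at S b is surjective: otherwise a nonzero
complex linear form ℓ kills its range, and ℓ (b' - b) = ℓ (Gm (S b') - Gm (S b)) = o (‖b' - b‖), false
(alternatively: id = M ∘ (S b' - S b) + o gives, for small e, a dense and so full range). In finite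
dimension M is then a ContinuousLinearEquiv (LinearEquiv.ofBijective, injective_iff_surjective).
HasFDerivAt.of_local_left_inverse gives differentiability of S at b, and
(T b).2 = (χ'.co (F (χ.pt (S b)))).2. For eqOn: equal starting points give b.2 = b'.2 and, applying F,
b.1 = b'.1, T b = T' b. The set of b in the open ball with T b = T' b is closed, and open because Gm
is injective near S b (HasStrictFDerivAt.toOpenPartialHomeomorph or ContDiffAt.toOpenPartialHomeomorph);
the ball is preconnected; extend to D2 by continuity (closure_ball).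
-/

namespace Pool.Agent.P.MP_eeb913_an.U

open MeasureTheory Filter Metric Set
open scoped ENNReal NNReal Topology

private theorem exists_equiv_of_lip {G S : E → E} {M : E →L[ℂ] E} {b : E} {K : ℝ}
    (hG : HasFDerivAt G M (S b)) (hc : ContinuousAt S b) (hGS : ∀ᶠ y in 𝓝 b, G (S y) = y)
    (hK : ∀ᶠ y in 𝓝 b, ‖S y - S b‖ ≤ K * ‖y - b‖) : ∃ M' : E ≃L[ℂ] E, (M' : E →L[ℂ] E) = M := by
  have hs : Function.Surjective M := by
    by_contra hn
    have hlt : LinearMap.range (M : E →ₗ[ℂ] E) < ⊤ :=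
      lt_top_iff_ne_top.2 fun h => hn (LinearMap.range_eq_top.1 h)
    obtain ⟨l, hl0, hl⟩ := Submodule.exists_le_ker_of_lt_top _ hlt
    let l' : E →L[ℂ] ℂ := LinearMap.toContinuousLinearMap l
    have h0 : l'.comp M = 0 := ContinuousLinearMap.ext fun z => hl ⟨z, rfl⟩
    have h1 : HasFDerivAt (fun z => l' (G z)) (0 : E →L[ℂ] ℂ) (S b) := by
      rw [← h0]; exact l'.hasFDerivAt.comp _ hG
    have h2 := (h1.isLittleO.comp_tendsto hc).trans_isBigO
      (Asymptotics.IsBigO.of_bound K hK)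
    have h3 : HasFDerivAt l' (0 : E →L[ℂ] ℂ) b := by
      refine HasFDerivAt.of_isLittleO (h2.congr' ?_ EventuallyEq.rfl)
      filter_upwards [hGS] with y hy
      simp [hy, hGS.self_of_nhds]
    have h4 : l' = 0 := l'.hasFDerivAt.unique h3
    exact hl0 (LinearMap.ext fun z => congrArg (fun f : E →L[ℂ] ℂ => f z) h4)
  have hi : Function.Injective (M : E →ₗ[ℂ] E) := LinearMap.injective_iff_surjective.2 hs
  exact ⟨(LinearEquiv.ofBijective (M : E →ₗ[ℂ] E) ⟨hi, hs⟩).toContinuousLinearEquiv,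
    ContinuousLinearMap.ext fun z => rfl⟩

private theorem co_eq {κ : ℝ} {F T : E → E} {χ χ' : Chart} (h : IsCross κ F χ χ' T) {b : E}
    (hb : b ∈ D2) : χ'.co (F (χ.pt ((T b).1, b.2))) = (b.1, (T b).2) := by
  rw [← χ'.co_pt (b.1, (T b).2), ← h.map b hb]; rfl

private theorem D2_mem_nhds {b : E} (hb : b ∈ ball (0 : E) 1) : D2 ∈ 𝓝 b :=
  mem_of_superset (isOpen_ball.mem_nhds hb) ball_subset_closedBall

private theorem contAt {κ : ℝ} {T : E → E} (h : IsCon κ T) {b : E} (hb : b ∈ ball (0 : E) 1) :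
    ContinuousAt (fun y : E => ((T y).1, y.2)) b :=
  (h.continuousOn.continuousAt (D2_mem_nhds hb)).fst.prodMk continuousAt_snd

private theorem gm_eq {κ : ℝ} {F T : E → E} {χ χ' : Chart} (h : IsCross κ F χ χ' T) {b : E}
    (hb : b ∈ ball (0 : E) 1) : ∀ᶠ y in 𝓝 b,
      (fun z : E => ((χ'.co (F (χ.pt z))).1, z.2)) ((T y).1, y.2) = y := by
  filter_upwards [D2_mem_nhds hb] with y hy
  simp only [co_eq h hy]

private theorem exists_strict {κ : ℝ} {F T : E → E} {χ χ' : Chart} (hF : ContDiff ℂ 1 F)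
    (h : IsCross κ F χ χ' T) {b : E} (hb : b ∈ ball (0 : E) 1) :
    ∃ M : E ≃L[ℂ] E, HasStrictFDerivAt (fun z : E => ((χ'.co (F (χ.pt z))).1, z.2))
      (M : E →L[ℂ] E) ((T b).1, b.2) := by
  have hG : ContDiff ℂ 1 fun z : E => ((χ'.co (F (χ.pt z))).1, z.2) :=
    (χ'.contDiff_co.comp (hF.comp χ.contDiff_pt)).fst.prodMk contDiff_snd
  have h1 := hG.hasStrictFDerivAt (x := ((T b).1, b.2)) one_ne_zero
  obtain ⟨M, hM⟩ := exists_equiv_of_lip (S := fun y : E => ((T y).1, y.2)) (K := κ + 1)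
    h1.hasFDerivAt (contAt h.con hb) (gm_eq h hb) (by
      filter_upwards [D2_mem_nhds hb] with y hy
      have h2 := h.con.lip y hy b (ball_subset_closedBall hb)
      have h3 := h.con.nonneg
      have h4 := norm_fst_le (T y - T b)
      have h5 := norm_snd_le (y - b)
      have h6 := norm_nonneg (y - b)
      rw [Prod.norm_def]
      refine max_le ?_ ?_
      · exact h4.trans (by nlinarith)
      · exact h5.trans (by nlinarith))
  exact ⟨M, hM ▸ h1⟩

theorem IsCross.differentiableOn {κ : ℝ} {F T : E → E} {χ χ' : Chart} (hF : ContDiff ℂ 1 F)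
    (h : IsCross κ F χ χ' T) : DifferentiableOn ℂ T (ball 0 1) := by
  intro b hb
  obtain ⟨M, hM⟩ := exists_strict hF h hb
  have h1 : DifferentiableAt ℂ (fun y : E => ((T y).1, y.2)) b :=
    (HasFDerivAt.of_local_left_inverse (g := fun y : E => ((T y).1, y.2)) (contAt h.con hb)
      hM.hasFDerivAt (gm_eq h hb)).differentiableAt
  have h2 : Differentiable ℂ fun z : E => χ'.co (F (χ.pt z)) :=
    (χ'.contDiff_co.comp (hF.comp χ.contDiff_pt)).differentiable one_ne_zero
  have h3 := h1.fst.prodMk ((h2 _).comp b h1).snd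
  refine (h3.congr_of_eventuallyEq ?_).differentiableWithinAt
  filter_upwards [D2_mem_nhds hb] with y hy
  simp only [Function.comp, co_eq h hy]

theorem IsCross.eqOn {κ κ' : ℝ} {F T T' : E → E} {χ χ' : Chart} (hF : ContDiff ℂ 1 F)
    (h : IsCross κ F χ χ' T) (h' : IsCross κ' F χ χ' T') {b b' : E} (hb : b ∈ ball (0 : E) 1)
    (hb' : b' ∈ ball (0 : E) 1) (e : χ.start T b = χ.start T' b') : b = b' ∧ EqOn T T' D2 := by
  have key : ∀ y ∈ D2, ∀ y' ∈ D2, ((T y).1, y.2) = ((T' y').1, y'.2) → y = y' ∧ T y = T' y' := by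
    intro y hy y' hy' e1
    have e2 : (y.1, (T y).2) = (y'.1, (T' y').2) := by rw [← co_eq h hy, ← co_eq h' hy', e1]
    simp only [Prod.mk.injEq] at e1 e2
    exact ⟨Prod.ext e2.1 e1.2, Prod.ext e1.1 e2.2⟩
  obtain ⟨rfl, e3⟩ := key b (ball_subset_closedBall hb) b' (ball_subset_closedBall hb')
    (χ.pt_injective e)
  refine ⟨rfl, ?_⟩
  have hopen : ∀ y ∈ ball (0 : E) 1, T y = T' y → ∀ᶠ x in 𝓝 y, T x = T' x := by
    intro y hy ey
    obtain ⟨M, hM⟩ := exists_strict hF h hy
    obtain ⟨g, h1⟩ : ∃ g : E → E, ∀ᶠ z in 𝓝 ((T y).1, y.2),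
        g ((χ'.co (F (χ.pt z))).1, z.2) = z := ⟨_, hM.eventually_left_inverse⟩
    have h2 := (contAt h.con hy).eventually h1
    rw [ey] at h1
    have h3 := (contAt h'.con hy).eventually h1
    filter_upwards [h2, h3, gm_eq h hy, gm_eq h' hy, D2_mem_nhds hy] with x a1 a2 a3 a4 hx
    have b1 : g x = ((T x).1, x.2) := (congrArg g a3).symm.trans a1
    have b2 : g x = ((T' x).1, x.2) := (congrArg g a4).symm.trans a2
    exact (key x hx x hx (b1.symm.trans b2)).2
  have hsub : ball (0 : E) 1 ⊆ {y | ∀ᶠ x in 𝓝 y, T x = T' x} := by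
    refine (convex_ball (0 : E) 1).isPreconnected.subset_of_closure_inter_subset
      isOpen_setOfPred_eventually_nhds ⟨b, hb, hopen b hb e3⟩ fun y hy => hopen y hy.2 ?_
    exact tendsto_nhds_unique_of_frequently_eq
      (h.con.continuousOn.continuousAt (D2_mem_nhds hy.2))
      (h'.con.continuousOn.continuousAt (D2_mem_nhds hy.2))
      ((mem_closure_iff_frequently.1 hy.1).mono fun x hx =>
        Eventually.self_of_nhds (p := fun x => T x = T' x) hx)
  have hb1 : EqOn T T' (ball (0 : E) 1) := fun y hy =>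
    Eventually.self_of_nhds (p := fun x => T x = T' x) (hsub hy)
  exact hb1.of_subset_closure h.con.continuousOn h'.con.continuousOn ball_subset_closedBall
    (closure_ball (0 : E) one_ne_zero).ge

theorem IsCross.disjoint_core {κ κ' ρ : ℝ} {F T T' : E → E} {χ χ' : Chart} (hF : ContDiff ℂ 1 F)
    (h : IsCross κ F χ χ' T) (h' : IsCross κ' F χ χ' T') (hρ : ρ < 1) (hne : ¬ EqOn T T' D2) :
    Disjoint (χ.core T ρ) (χ.core T' ρ) := by
  refine Set.disjoint_left.2 ?_
  rintro _ ⟨b, hb, rfl⟩ ⟨b', hb', e⟩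
  exact hne (h.eqOn hF h' (closedBall_subset_ball hρ hb) (closedBall_subset_ball hρ hb') e.symm).2

end Pool.Agent.P.MP_eeb913_an.U
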