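import Mathlib
import Pool.Agent.P.MP_eeb913_an.U.Basic
import Pool.Agent.P.MP_eeb913_an.U.Chain
import Pool.Agent.P.MP_eeb913_an.U.Local
import Pool.Agent.P.MP_eeb913_an.U.FiltLem

/-!
Stable leaves of a two-symbol horseshoe.

Sketch. est: chain_est for the chains of length i of (ω, s) and (ω', s'), which pass through the same
sections; bound from IsChain.bound with n = 1. continuousOn follows (cylinders are open).
approx: exists_comp with F i = f^[l], Φ i = f^[i * l] gives T k; compare its chain with the chain of the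
leaf (same s) and two of its chains (same s) by chain_est; differentiableOn from Local.
differentiableOn: γ ω is the uniform limit on the disc of s ↦ (T k (0, s)).1
(TendstoLocallyUniformlyOn.differentiableOn). orbit: induction with IsCross.map.
sep: with r' = max κ r < 1 (and r' ≥ 0) the cores χ.core (T true) r', χ.core (T false) r' are compact and
disjoint (disjoint_core), at distance ≥ δ₀ > 0; f^[i * l] of the two points lie in the cores of T (ω i),
T (ω' i); the orbits stay in the compact union of f^[t] '' (χ.pt '' D2), t < l, so iter_lip gives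
δ₀ ≤ L^(i l) * distance. shift: the chain of ω from index j on is a chain for the shifted sequence;
compare it with the chain of that leaf by chain_est with n → ∞.
-/

namespace Pool.Agent.P.MP_eeb913_an.U

open MeasureTheory Filter Metric Set
open scoped ENNReal NNReal Topology

variable {κ : ℝ} {T : Bool → E → E} {γ : (ℕ → Bool) → ℂ → ℂ} {z : (ℕ → Bool) → ℂ → ℕ → E}

private theorem leaf_two {a b : E} (ha : a ∈ D2) (hb : b ∈ D2) : ‖a.1 - b.1‖ ≤ 2 := by
  have h1 := (mem_D2.1 ha).1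
  have h2 := (mem_D2.1 hb).1
  have h3 := norm_sub_le a.1 b.1
  linarith

private theorem leaf_lim {a b : ℝ} (h0 : 0 ≤ κ) (h1 : κ < 1) (hb : 0 ≤ b)
    (h : ∀ m : ℕ, a ≤ max b (κ ^ m * 2)) : a ≤ b := by
  have h2 : Tendsto (fun m : ℕ => max b (κ ^ m * 2)) atTop (𝓝 (max b (0 * 2))) :=
    tendsto_const_nhds.max ((tendsto_pow_atTop_nhds_zero_of_lt_one h0 h1).mul_const 2)
  rw [zero_mul, max_eq_left hb] at h2
  exact ge_of_tendsto' h2 h

private theorem leaf_inf (h0 : 0 ≤ κ) (h1 : κ < 1) {S : ℕ → E → E} {w w' : ℕ → E}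
    (hS : ∀ i, IsCon κ (S i)) (hw : ∀ n, IsChain S n w) (hw' : ∀ n, IsChain S n w') (i : ℕ) :
    ‖(w i).1 - (w' i).1‖ ≤ κ ^ (i + 1) * ‖(w 0).2 - (w' 0).2‖ ∧
      ‖(w i).2 - (w' i).2‖ ≤ κ ^ i * ‖(w 0).2 - (w' 0).2‖ := by
  have e : ∀ m, ‖(w m).1 - (w' m).1‖ ≤ 2 := fun m =>
    leaf_two ((hw m).1 m le_rfl) ((hw' m).1 m le_rfl)
  refine ⟨leaf_lim h0 h1 (by positivity) fun m => ?_, leaf_lim h0 h1 (by positivity) fun m => ?_⟩
  · have h := (chain_est h0 h1 (fun j _ => hS j) (hw (i + m)) (hw' (i + m)) i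
      (Nat.le_add_right i m)).1
    rw [Nat.add_sub_cancel_left, max_comm] at h
    exact h.trans (max_le_max le_rfl (mul_le_mul_of_nonneg_left (e _) (by positivity)))
  · have h := (chain_est h0 h1 (fun j _ => hS j) (hw (i + m)) (hw' (i + m)) i
      (Nat.le_add_right i m)).2
    rw [Nat.add_sub_cancel_left] at h
    refine h.trans (max_le_max le_rfl (mul_le_mul ?_ (e _) (norm_nonneg _) (by positivity)))
    exact pow_le_pow_of_le_one h0 h1.le (Nat.le_succ m)

private theorem leaf_mem {s : ℂ} (hs : ‖s‖ ≤ 1) : s ∈ closedBall (0 : ℂ) 1 :=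
  mem_closedBall_zero_iff.2 hs

private theorem leaf_core (h : IsLeaves T γ z) (hT : ∀ a, IsCon κ (T a)) (χ : Chart)
    (ω : ℕ → Bool) {s : ℂ} {r : ℝ} (hr : r < 1) (hs : ‖s‖ ≤ r) (i : ℕ) :
    χ.pt (z ω s i) ∈ χ.core (T (ω i)) (max κ r) := by
  have hs1 := leaf_mem (hs.trans hr.le)
  have hc := h.chain ω s hs1 (i + 2)
  refine ⟨((z ω s (i + 1)).1, (z ω s i).2), ?_, ?_⟩
  · rw [mem_closedBall_zero_iff, Prod.norm_def]
    refine max_le ((hc.bound (fun j _ => hT _) (i := i + 1) (by omega)).2.1.trans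
      (le_max_left _ _)) ?_
    rcases i with _ | i
    · rw [h.zero ω s hs1]
      exact hs.trans (le_max_right _ _)
    · exact (hc.bound (fun j _ => hT _) (i := i) (by omega)).2.2.trans (le_max_left _ _)
  · have e := hc.2 i (by omega)
    simp only [Chart.start] at e ⊢
    rw [e]

theorem IsLeaves.est (h : IsLeaves T γ z) (h1 : κ < 1) (hT : ∀ a, IsCon κ (T a))
    {ω ω' : ℕ → Bool} {i : ℕ} (hω : ∀ j < i, ω j = ω' j) {s s' : ℂ} (hs : ‖s‖ ≤ 1)
    (hs' : ‖s'‖ ≤ 1) :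
    ‖γ ω s‖ ≤ κ ∧ ‖γ ω s - γ ω' s'‖ ≤ max (2 * κ ^ i) (κ ^ min i 1 * ‖s - s'‖) := by
  have h0 := (hT true).nonneg
  have hc := h.chain ω s (leaf_mem hs)
  have hc' : IsChain (fun j => T (ω j)) i (z ω' s') := by
    have h2 := h.chain ω' s' (leaf_mem hs') i
    refine ⟨h2.1, fun j hj => ?_⟩
    have h3 := h2.2 j hj
    simp only [hω j hj] at h3 ⊢
    exact h3
  have e := h.zero ω s (leaf_mem hs)
  have e' := h.zero ω' s' (leaf_mem hs')
  constructor
  · have h2 := ((hc 1).bound (fun j _ => hT _) (i := 0) one_pos).2.1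
    rwa [e] at h2
  · have h2 := (chain_est h0 h1 (fun j _ => hT _) (hc i) hc' 0 (Nat.zero_le i)).1
    rw [e, e', Nat.sub_zero] at h2
    refine h2.trans (max_le_max ?_ (mul_le_mul_of_nonneg_right ?_ (norm_nonneg _)))
    · rw [mul_comm 2]
      exact mul_le_mul_of_nonneg_left (leaf_two ((hc i).1 i le_rfl) (hc'.1 i le_rfl))
        (by positivity)
    · exact pow_le_pow_of_le_one h0 h1.le (min_le_right _ _)

theorem IsLeaves.continuousOn (h : IsLeaves T γ z) (h1 : κ < 1) (hT : ∀ a, IsCon κ (T a)) :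
    ContinuousOn (fun p : (ℕ → Bool) × ℂ => γ p.1 p.2) (univ ×ˢ closedBall 0 1) := by
  have h0 := (hT true).nonneg
  rintro ⟨ω, s⟩ hp
  rw [ContinuousWithinAt, Metric.tendsto_nhds]
  intro ε hε
  obtain ⟨i, hi⟩ := exists_pow_lt_of_lt_one (half_pos hε) h1
  have h2 : ∀ᶠ p : (ℕ → Bool) × ℂ in 𝓝 (ω, s), ∀ j ∈ Finset.range i, p.1 j = ω j := by
    rw [eventually_all_finset]
    intro j _
    have hc : Continuous fun p : (ℕ → Bool) × ℂ => p.1 j := (continuous_apply j).comp continuous_fst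
    exact (hc.tendsto (ω, s)).eventually (p := fun b => b = ω j) (by
      rw [nhds_discrete]
      exact eventually_pure.2 rfl)
  have h3 : ∀ᶠ p : (ℕ → Bool) × ℂ in 𝓝 (ω, s), dist p.2 s < ε :=
    Metric.tendsto_nhds.1 (continuous_snd.tendsto (ω, s)) ε hε
  filter_upwards [self_mem_nhdsWithin, nhdsWithin_le_nhds h2, nhdsWithin_le_nhds h3] with p p1 p2 p3
  rw [dist_eq_norm] at p3 ⊢
  refine (h.est h1 hT (i := i) (fun j hj => p2 j (Finset.mem_range.2 hj))
    (mem_closedBall_zero_iff.1 p1.2) (mem_closedBall_zero_iff.1 hp.2)).2.trans_lt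
    (max_lt (by linarith) (lt_of_le_of_lt ?_ p3))
  exact mul_le_of_le_one_left (norm_nonneg _) (pow_le_one₀ h0 h1.le)

theorem IsLeaves.shift (h : IsLeaves T γ z) (h1 : κ < 1) (hT : ∀ a, IsCon κ (T a))
    (ω : ℕ → Bool) {s : ℂ} (hs : ‖s‖ ≤ 1) (j i : ℕ) :
    z ω s (j + i) = z (fun p => ω (j + p)) (z ω s j).2 i := by
  have h0 := (hT true).nonneg
  have hc := h.chain ω s (leaf_mem hs)
  have hj := leaf_mem (mem_D2.1 ((hc j).1 j le_rfl)).2
  have hw : ∀ n, IsChain (fun p => T (ω (j + p))) n fun p => z ω s (j + p) := fun n =>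
    ⟨fun p _ => (hc (j + p)).1 _ le_rfl, fun p _ => (hc (j + p + 1)).2 _ (Nat.lt_succ_self _)⟩
  have h2 := leaf_inf h0 h1 (fun p => hT _) hw (h.chain (fun p => ω (j + p)) _ hj) i
  rw [h.zero _ _ hj] at h2
  simp only [Nat.add_zero, sub_self, norm_zero, mul_zero, norm_le_zero_iff, sub_eq_zero] at h2
  exact Prod.ext h2.1 h2.2

theorem IsLeaves.snd_lip (h : IsLeaves T γ z) (h1 : κ < 1) (hT : ∀ a, IsCon κ (T a))
    (ω : ℕ → Bool) {s s' : ℂ} (hs : ‖s‖ ≤ 1) (hs' : ‖s'‖ ≤ 1) (j : ℕ) :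
    ‖(z ω s j).2 - (z ω s' j).2‖ ≤ κ ^ j * ‖s - s'‖ := by
  have h2 := (leaf_inf (hT true).nonneg h1 (fun p => hT _) (h.chain ω s (leaf_mem hs))
    (h.chain ω s' (leaf_mem hs')) j).2
  rwa [h.zero _ _ (leaf_mem hs), h.zero _ _ (leaf_mem hs')] at h2

theorem IsLeaves.orbit (h : IsLeaves T γ z) {f : E → E} {l : ℕ} {χ : Chart}
    (hT : ∀ a, IsCross κ f^[l] χ χ (T a)) (ω : ℕ → Bool) {s : ℂ} (hs : ‖s‖ ≤ 1) (i : ℕ) :
    f^[i * l] (χ.pt (γ ω s, s)) = χ.pt (z ω s i) := by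
  induction i with
  | zero => rw [h.zero ω s (leaf_mem hs), Nat.zero_mul, Function.iterate_zero_apply]
  | succ i ih =>
    have hc := h.chain ω s (leaf_mem hs) (i + 1)
    have h2 := (hT (ω i)).map _ (hc.bound (fun j _ => (hT _).con) (Nat.lt_succ_self i)).1
    have e := hc.2 i (Nat.lt_succ_self i)
    simp only [Chart.start] at e h2
    rw [e] at h2
    rw [Nat.succ_mul, add_comm, Function.iterate_add_apply, ih]
    exact h2

theorem IsLeaves.approx (h : IsLeaves T γ z) (h1 : κ < 1) {f : E → E} (hf : ContDiff ℂ 1 f) {l : ℕ}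
    {χ : Chart} (hT : ∀ a, IsCross κ f^[l] χ χ (T a)) (ω : ℕ → Bool) :
    ∃ S : ℕ → E → E, ∀ k, 0 < k → IsCross κ f^[k * l] χ χ (S k) ∧
      DifferentiableOn ℂ (S k) (ball 0 1) ∧ (∀ b ∈ D2, ‖(S k b).1 - γ ω b.2‖ ≤ 2 * κ ^ k) ∧
      ∀ b ∈ D2, ∀ b' ∈ D2, b.2 = b'.2 → ‖(S k b).1 - (S k b').1‖ ≤ κ ^ k * ‖b.1 - b'.1‖ := by
  have h0 := (hT true).con.nonneg
  have key : ∀ k : ℕ, ∃ S : E → E, 0 < k → IsCross κ f^[k * l] χ χ S ∧
      DifferentiableOn ℂ S (ball 0 1) ∧ (∀ b ∈ D2, ‖(S b).1 - γ ω b.2‖ ≤ 2 * κ ^ k) ∧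
      ∀ b ∈ D2, ∀ b' ∈ D2, b.2 = b'.2 → ‖(S b).1 - (S b').1‖ ≤ κ ^ k * ‖b.1 - b'.1‖ := by
    intro k
    rcases Nat.eq_zero_or_pos k with hk | hk
    · exact ⟨id, fun h' => absurd hk h'.ne'⟩
    obtain ⟨S, w, hS, hw⟩ := exists_comp h1 hk (F := fun _ => f^[l]) (T := fun i => T (ω i))
      (χ := fun _ => χ) (fun i _ => hT (ω i)) (Φ := fun i => f^[i * l])
      (fun x => by rw [Nat.zero_mul, Function.iterate_zero_apply])
      (fun i _ x => by rw [Nat.succ_mul, add_comm, Function.iterate_add_apply])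
    refine ⟨S, fun _ => ⟨hS, hS.differentiableOn (contDiff_iterate hf _), fun b hb => ?_,
      fun b hb b' hb' e => ?_⟩⟩
    · have hs := leaf_mem (mem_D2.1 hb).2
      have hc := h.chain ω b.2 hs k
      have h2 := (chain_est h0 h1 (fun j _ => (hT _).con) (hw b hb).1 hc 0 (Nat.zero_le k)).1
      rw [(hw b hb).2.1, h.zero ω b.2 hs, Nat.sub_zero, sub_self, norm_zero, mul_zero] at h2
      refine h2.trans (max_le ?_ (by positivity))
      rw [mul_comm 2]
      exact mul_le_mul_of_nonneg_left (leaf_two ((hw b hb).1.1 k le_rfl) (hc.1 k le_rfl))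
        (by positivity)
    · have h2 := (chain_est h0 h1 (fun j _ => (hT _).con) (hw b hb).1 (hw b' hb').1 0
        (Nat.zero_le k)).1
      rw [(hw b hb).2.1, (hw b' hb').2.1, (hw b hb).2.2.1, (hw b' hb').2.2.1, Nat.sub_zero] at h2
      simp only [e, sub_self, norm_zero, mul_zero] at h2
      exact h2.trans (max_le le_rfl (by positivity))
  choose S hS using key
  exact ⟨S, hS⟩

theorem IsLeaves.differentiableOn (h : IsLeaves T γ z) (h1 : κ < 1) {f : E → E}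
    (hf : ContDiff ℂ 1 f) {l : ℕ} {χ : Chart} (hT : ∀ a, IsCross κ f^[l] χ χ (T a))
    (ω : ℕ → Bool) : DifferentiableOn ℂ (γ ω) (ball 0 1) := by
  have h0 := (hT true).con.nonneg
  obtain ⟨S, hS⟩ := h.approx h1 hf hT ω
  have hm : ∀ s ∈ ball (0 : ℂ) 1, ((0 : ℂ), s) ∈ ball (0 : E) 1 := fun s hs => by
    rw [mem_ball_zero_iff] at hs ⊢
    rw [Prod.norm_def]
    exact max_lt (by simp) hs
  have h2 : TendstoUniformlyOn (fun k s => (S k (0, s)).1) (γ ω) atTop (ball 0 1) := by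
    rw [Metric.tendstoUniformlyOn_iff]
    intro ε hε
    have h3 : ∀ᶠ k : ℕ in atTop, κ ^ k < ε / 2 :=
      (tendsto_pow_atTop_nhds_zero_of_lt_one h0 h1).eventually (gt_mem_nhds (half_pos hε))
    filter_upwards [h3, eventually_gt_atTop 0] with k k1 k2 s hs
    rw [dist_comm, dist_eq_norm]
    have h4 := (hS k k2).2.2.1 (0, s) (ball_subset_closedBall (hm s hs))
    exact h4.trans_lt (by linarith)
  refine h2.tendstoLocallyUniformlyOn.differentiableOn ?_ isOpen_ball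
  filter_upwards [eventually_gt_atTop 0] with k k2
  exact ((hS k k2).2.1.comp ((differentiableOn_const _).prodMk differentiableOn_id) hm).fst

theorem IsLeaves.sep (h : IsLeaves T γ z) (h1 : κ < 1) {f : E → E} (hf : ContDiff ℂ 2 f) {l : ℕ}
    {χ : Chart} (hT : ∀ a, IsCross κ f^[l] χ χ (T a)) (hne : ¬ EqOn (T true) (T false) D2)
    {r : ℝ} (hr : r < 1) :
    ∃ C : ℝ, 0 < C ∧ ∀ (ω ω' : ℕ → Bool) (i : ℕ), ω i ≠ ω' i → ∀ s s' : ℂ, ‖s‖ ≤ r → ‖s'‖ ≤ r →
      Real.exp (-(C * (i + 1))) ≤ ‖χ.pt (γ ω s, s) - χ.pt (γ ω' s', s')‖ := by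
  have hr' : max κ r < 1 := max_lt h1 hr
  have hf1 : ContDiff ℂ 1 f := hf.of_le (by norm_num)
  have hd := (hT true).disjoint_core (contDiff_iterate hf1 l) (hT false) hr' hne
  obtain ⟨δ, hδ, hδ'⟩ := Metric.exists_pos_forall_lt_edist
    ((hT true).con.isCompact_core χ hr'.le) ((hT false).con.isCompact_core χ hr'.le).isClosed hd
  have hδ0 : (0 : ℝ) < δ := hδ
  have hsep : ∀ a a' : Bool, a ≠ a' → ∀ x ∈ χ.core (T a) (max κ r),
      ∀ y ∈ χ.core (T a') (max κ r), (δ : ℝ) ≤ ‖x - y‖ := by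
    have h2 : ∀ x ∈ χ.core (T true) (max κ r), ∀ y ∈ χ.core (T false) (max κ r),
        (δ : ℝ) ≤ ‖x - y‖ := fun x hx y hy => by
      have h3 := hδ' x hx y hy
      rw [edist_nndist, ENNReal.coe_lt_coe] at h3
      rw [← dist_eq_norm]
      exact h3.le
    intro a a' ha x hx y hy
    cases a <;> cases a'
    · exact absurd rfl ha
    · rw [norm_sub_rev]
      exact h2 y hy x hx
    · exact h2 x hx y hy
    · exact absurd rfl ha
  have hK : IsCompact (⋃ t ∈ Finset.range l, f^[t] '' (χ.pt '' D2)) :=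
    (Finset.range l).isCompact_biUnion fun t _ =>
      ((isCompact_closedBall 0 1).image χ.continuous_pt).image (hf.continuous.iterate t)
  obtain ⟨ρ, hρ⟩ := hK.isBounded.exists_norm_le
  obtain ⟨L, hL, -, hL', -⟩ := exists_lip hf ρ
  have horb : ∀ (ω : ℕ → Bool) (s : ℂ), ‖s‖ ≤ 1 → ∀ (i : ℕ), ∀ j < i * l,
      ‖f^[j] (χ.pt (γ ω s, s))‖ ≤ ρ := fun ω s hs i j hj => by
    have hl : 0 < l := Nat.pos_of_ne_zero fun e => by simp [e] at hj
    refine hρ _ (mem_iUnion₂.2 ⟨j % l, Finset.mem_range.2 (Nat.mod_lt j hl), _,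
      ⟨_, (h.chain ω s (leaf_mem hs) (j / l)).1 _ le_rfl, rfl⟩, ?_⟩)
    rw [← h.orbit hT ω hs, ← Function.iterate_add_apply, Nat.mod_add_div']
  have hlog : 0 ≤ Real.log L := Real.log_nonneg (by linarith)
  refine ⟨l * Real.log L + |Real.log δ| + 1, by positivity, fun ω ω' i hi s s' hs hs' => ?_⟩
  have h2 := iter_lip (by linarith) hL' (horb ω s (hs.trans hr.le) i)
    (horb ω' s' (hs'.trans hr.le) i) (i * l) le_rfl
  rw [h.orbit hT ω (hs.trans hr.le), h.orbit hT ω' (hs'.trans hr.le)] at h2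
  have h3 := (hsep _ _ hi _ (leaf_core h (fun a => (hT a).con) χ ω hr hs i) _
    (leaf_core h (fun a => (hT a).con) χ ω' hr hs' i)).trans h2
  have hp : 0 < L ^ (i * l) := by positivity
  refine le_trans ?_ ((div_le_iff₀' hp).2 h3)
  rw [← Real.exp_log (div_pos hδ0 hp), Real.exp_le_exp, Real.log_div hδ0.ne' hp.ne', Real.log_pow]
  have h4 := neg_abs_le (Real.log δ)
  have h5 := abs_nonneg (Real.log δ)
  have h6 : (0 : ℝ) ≤ i := Nat.cast_nonneg i
  have h7 : 0 ≤ l * Real.log L := by positivity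
  push_cast
  nlinarith [mul_nonneg h5 h6]

end Pool.Agent.P.MP_eeb913_an.U
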