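import Mathlib
import Pool.Agent.P.MP_eeb913_an.U.Basic
import Pool.Agent.P.MP_eeb913_an.U.Leaf
import Pool.Agent.P.MP_eeb913_an.U.Escape

/-!
Backward iterates of stable leaves: area growth and separation.

Notation: σ ω η = χ.pt (γ ω η, η). Work with f' = sw g (Filt f' d R by h.fi) and ψ η = (σ ω η).swap, so
that f'^[n] (ψ η) = (g^[n] (σ ω η)).swap (sw_iterate).
leaf_area. τ = (r - κ) / 4. For J ≥ 1 let ω J be ω preceded by J symbols true, η J s = (z (ω J) s J).2.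
By shift (i = 0, with IsLeaves.zero) and orbit, σ ω (η J s) = f^[J l] (σ (ω J) s), so
g^[J l] (σ ω (η J s)) = σ (ω J) s; snd_lip gives |η J s - η J s'| ≤ κ^J |s - s'|. Fix j ≥ 1 large. For n take
J ≥ j with J l ≥ n, η₀ = η J 0, of norm ≤ κ; ‖g^[n] (σ ω η₀)‖ ≤ R by bounded_between for f'. By shift
η₀ = η j s₁ with s₁ = (z (ω J) 0 (J - j)).2. Pick ‖s₂‖ ≤ 1 with ‖s₁ - s₂‖ ≥ 1; U = f'^[j l] ∘ ψ satisfies
‖U (η j s₁) - U (η j s₂)‖ ≥ ‖s₁ - s₂‖ / ‖χ.A.symm‖, so exists_escape (M = 4 R) applies when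
2 κ^j ≤ τ / 2 and (8 R / τ) κ^j ‖χ.A.symm‖ < 1; then area_lower with j₀ = j l, and
ball η₀ (3 τ) ⊆ ball 0 r.
leaf_sep. g^[j] (σ ω η) is bounded by ρ' = max ρ R for j ≤ n (bounded_between), so iter_lip for f along
the two backward orbits gives ‖σ ω η - σ ω' η'‖ ≤ L^n * distance; combine with IsLeaves.sep.
-/

namespace Pool.Agent.P.MP_eeb913_an.U

open MeasureTheory Filter Metric Set
open scoped ENNReal NNReal Topology

variable {κ : ℝ} {T : Bool → E → E} {γ : (ℕ → Bool) → ℂ → ℂ} {z : (ℕ → Bool) → ℂ → ℕ → E}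

/-- The sequence `ω` preceded by `J` symbols `true`. -/
private def pre (J : ℕ) (ω : ℕ → Bool) : ℕ → Bool := fun p => if p < J then true else ω (p - J)

private theorem pre_shift (n j : ℕ) (ω : ℕ → Bool) :
    (fun p => pre (n + j) ω (n + p)) = pre j ω := by
  funext p
  simp only [pre, Nat.add_lt_add_iff_left, Nat.add_sub_add_left]

private theorem pre_zero (ω : ℕ → Bool) : pre 0 ω = ω := by
  funext p
  simp [pre]

private theorem la_snd_le (hz : IsLeaves T γ z) (ω : ℕ → Bool) {s : ℂ} (hs : ‖s‖ ≤ 1) (j : ℕ) :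
    ‖(z ω s j).2‖ ≤ 1 :=
  (mem_D2.mp ((hz.chain ω s (mem_closedBall_zero_iff.mpr hs) j).1 j le_rfl)).2

private theorem la_mem (hz : IsLeaves T γ z) (ω : ℕ → Bool) {s : ℂ} (hs : ‖s‖ ≤ 1) :
    (γ ω s, s) ∈ D2 := by
  rw [← hz.zero ω s (mem_closedBall_zero_iff.mpr hs)]
  exact (hz.chain ω s (mem_closedBall_zero_iff.mpr hs) 0).1 0 le_rfl

private theorem la_back {f g : E → E} {d : ℕ} {R₀ : ℝ} (h : IsHL f g d R₀) (hz : IsLeaves T γ z)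
    (h1 : κ < 1) {l : ℕ} {χ : Chart} (hT : ∀ a, IsCross κ f^[l] χ χ (T a)) (J : ℕ) (ω : ℕ → Bool)
    {s : ℂ} (hs : ‖s‖ ≤ 1) :
    g^[J * l] (χ.pt (γ ω (z (pre J ω) s J).2, (z (pre J ω) s J).2)) =
      χ.pt (γ (pre J ω) s, s) := by
  have e1 := hz.shift h1 (fun a => (hT a).con) (pre J ω) hs J 0
  have e2 := pre_shift J 0 ω
  rw [Nat.add_zero, pre_zero] at e2
  rw [Nat.add_zero, e2, hz.zero ω _ (mem_closedBall_zero_iff.mpr (la_snd_le hz _ hs J))] at e1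
  rw [← e1, ← hz.orbit hT (pre J ω) hs J, h.gf_iterate]

private theorem la_bdd {f g : E → E} {d : ℕ} {R₀ R R' : ℝ} (h : IsHL f g d R₀) (hR : R₀ ≤ R)
    (hR' : R ≤ R') {x : E} (hx : ‖x‖ ≤ R) {n : ℕ} (hn : ‖g^[n] x‖ ≤ R') :
    ∀ j ≤ n, ‖g^[j] x‖ ≤ R' := by
  intro j hj
  have := (h.fi R hR).bounded_between hR' (z := x.swap)
    (((norm_snd_le _).trans ((norm_swap x).trans_le hx)).trans (le_max_left _ _)) (n := n)
    (by
      rw [sw_iterate, sw_swap]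
      exact (norm_fst_le _).trans ((norm_swap _).trans_le hn)) j hj
  rwa [sw_iterate, sw_swap, norm_swap] at this

private theorem la_far (s : ℂ) : ∃ s' : ℂ, ‖s'‖ ≤ 1 ∧ 1 ≤ ‖s - s'‖ := by
  rcases le_total s.re 0 with hs | hs
  · refine ⟨1, by simp, le_trans ?_ (Complex.abs_re_le_norm _)⟩
    rw [Complex.sub_re, Complex.one_re, le_abs]
    right
    linarith
  · refine ⟨-1, by simp, le_trans ?_ (Complex.abs_re_le_norm _)⟩
    rw [Complex.sub_re, Complex.neg_re, Complex.one_re, le_abs]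
    left
    linarith

theorem leaf_area {f g : E → E} {d : ℕ} {R₀ R : ℝ} (h : IsHL f g d R₀) (hR : R₀ ≤ R)
    (hz : IsLeaves T γ z) {l : ℕ} (hl : 0 < l) {χ : Chart} (hT : ∀ a, IsCross κ f^[l] χ χ (T a))
    (box : ∀ w ∈ D2, ‖χ.pt w‖ ≤ R) {r : ℝ} (hκ : κ < r) (hr : r < 1) :
    ∃ (c : ℝ) (n₀ : ℕ), 0 < c ∧ ∀ (ω : ℕ → Bool) (n : ℕ), n₀ ≤ n →
      ENNReal.ofReal (c * d ^ n / n) ≤ area (fun η => (g^[n] (χ.pt (γ ω η, η))).2)
        (ball 0 r ∩ {η | ‖(g^[n] (χ.pt (γ ω η, η))).2‖ ≤ R + 2}) := by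
  have h1 : κ < 1 := hκ.trans hr
  have hcon : ∀ a, IsCon κ (T a) := fun a => (hT a).con
  have h0 : 0 ≤ κ := (hcon true).nonneg
  have hR1 : 1 ≤ R := h.one_le.trans hR
  obtain ⟨τ, hτ, hτr⟩ : ∃ τ : ℝ, 0 < τ ∧ 4 * τ = r - κ := ⟨(r - κ) / 4, by linarith, by ring⟩
  obtain ⟨N, hN0, hN⟩ : ∃ N : ℝ, 0 ≤ N ∧ ∀ w : E, ‖w‖ ≤ N * ‖χ.A w‖ := by
    refine ⟨‖(χ.A.symm : E →L[ℂ] E)‖, norm_nonneg _, fun w => ?_⟩
    have := (χ.A.symm : E →L[ℂ] E).le_opNorm (χ.A w)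
    simpa using this
  have hK0 : 0 ≤ 2 * (4 * R) / τ := by positivity
  obtain ⟨j, hj0, hj1, hj2⟩ : ∃ j : ℕ, 0 < j ∧ 2 * κ ^ j ≤ τ / 2 ∧
      2 * (4 * R) / τ * N * κ ^ j < 1 := by
    have hK : 0 < 2 * (4 * R) / τ * N + 1 := by positivity
    obtain ⟨j, hj⟩ := exists_pow_lt_of_lt_one
      (lt_min (show 0 < τ / 4 by positivity) (one_div_pos.mpr hK)) h1
    have hle : κ ^ (j + 1) ≤ κ ^ j := pow_le_pow_of_le_one h0 h1.le (Nat.le_succ j)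
    have ha := (hle.trans_lt hj).trans_le (min_le_left _ _)
    have hb := (hle.trans_lt hj).trans_le (min_le_right _ _)
    refine ⟨j + 1, Nat.succ_pos j, by linarith, ?_⟩
    rw [lt_div_iff₀ hK] at hb
    have := pow_nonneg h0 (j + 1)
    nlinarith
  have hcs : ContDiff ℂ 2 (sw g) := contDiff_sw h.cg
  obtain ⟨c, n₀, hc, hA⟩ := area_lower hcs (h.fi R hR) h.two_le hτ (j * l)
  refine ⟨c, n₀, hc, fun ω n hn => ?_⟩
  have hz0 : ‖(0 : ℂ)‖ ≤ 1 := by simp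
  obtain ⟨s₁, hs₁⟩ : ∃ s₁, s₁ = (z (pre (n + j) ω) 0 n).2 := ⟨_, rfl⟩
  have hs₁1 : ‖s₁‖ ≤ 1 := hs₁ ▸ la_snd_le hz _ hz0 n
  obtain ⟨η₀, hη₀⟩ : ∃ η₀, η₀ = (z (pre (n + j) ω) 0 (n + j)).2 := ⟨_, rfl⟩
  have hη₁ : η₀ = (z (pre j ω) s₁ j).2 := by
    rw [hη₀, hz.shift h1 hcon _ hz0 n j, pre_shift, ← hs₁]
  have hηκ : ‖η₀‖ ≤ κ := by
    have := ((hz.chain (pre j ω) s₁ (mem_closedBall_zero_iff.mpr hs₁1) j).bound
      (fun i _ => hcon _) (i := j - 1) (by omega)).2.2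
    rwa [Nat.sub_add_cancel hj0, ← hη₁] at this
  have hsub : ball η₀ (4 * τ) ⊆ ball 0 r := by
    refine ball_subset_ball' ?_
    rw [dist_zero_right]
    linarith
  have hsub1 : ball η₀ (4 * τ) ⊆ ball 0 1 := hsub.trans (ball_subset_ball hr.le)
  let ψ : ℂ → E := fun η => (χ.pt (γ ω η, η)).swap
  have hit : ∀ (m : ℕ) (η : ℂ), (sw g)^[m] (ψ η) = (g^[m] (χ.pt (γ ω η, η))).swap := by
    intro m η
    rw [sw_iterate]
    exact sw_swap _ _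
  have hψ : DifferentiableOn ℂ ψ (ball η₀ (4 * τ)) := by
    have hγ := (hz.differentiableOn h1 (h.cf.of_le (by norm_num)) hT ω).mono hsub1
    have hp : DifferentiableOn ℂ (fun η => χ.pt (γ ω η, η)) (ball η₀ (4 * τ)) :=
      ((χ.contDiff_pt (n := 1)).differentiable one_ne_zero).comp_differentiableOn
        (hγ.prodMk differentiableOn_id)
    exact hp.snd.prodMk hp.fst
  have hψR : ∀ ζ ∈ ball η₀ (4 * τ), ‖ψ ζ‖ ≤ R := fun ζ hζ =>
    (norm_swap _).trans_le (box _ (la_mem hz ω (mem_ball_zero_iff.mp (hsub1 hζ)).le))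
  have hbd : ‖(sw g)^[n] (ψ η₀)‖ ≤ R := by
    rw [hit, norm_swap]
    refine la_bdd h hR le_rfl (box _ (la_mem hz ω (hηκ.trans h1.le))) (n := (n + j) * l) ?_ n ?_
    · rw [hη₀, la_back h hz h1 hT _ ω hz0]
      exact box _ (la_mem hz _ hz0)
    · exact (Nat.le_add_right n j).trans (Nat.le_mul_of_pos_right _ hl)
  obtain ⟨s₂, hs₂, hfar⟩ := la_far s₁
  obtain ⟨ηb, hηb⟩ : ∃ ηb, ηb = (z (pre j ω) s₂ j).2 := ⟨_, rfl⟩
  have hlip : ‖η₀ - ηb‖ ≤ κ ^ j * ‖s₁ - s₂‖ := by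
    rw [hη₁, hηb]
    exact hz.snd_lip h1 hcon _ hs₁1 hs₂ j
  have hκj := pow_nonneg h0 j
  have hs12 : ‖s₁ - s₂‖ ≤ 2 := (norm_sub_le _ _).trans (by linarith)
  have hU : DifferentiableOn ℂ (fun ζ => (sw g)^[j * l] (ψ ζ)) (ball η₀ (4 * τ)) :=
    ((contDiff_iterate hcs _).differentiable two_ne_zero).comp_differentiableOn hψ
  obtain ⟨ζ₁, hζ₁, hM⟩ := exists_escape (M := 4 * R) (ζa := η₀) (ζb := ηb) hτ hU
    (by rw [sub_self, norm_zero]; positivity)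
    (by
      rw [norm_sub_rev]
      refine hlip.trans ?_
      nlinarith)
    (by
      have e1 : (sw g)^[j * l] (ψ η₀) = (χ.pt (γ (pre j ω) s₁, s₁)).swap := by
        rw [hit, hη₁, la_back h hz h1 hT _ ω hs₁1]
      have e2 : (sw g)^[j * l] (ψ ηb) = (χ.pt (γ (pre j ω) s₂, s₂)).swap := by
        rw [hit, hηb, la_back h hz h1 hT _ ω hs₂]
      rw [e1, e2, ← Prod.swap_sub, norm_swap, χ.pt_sub]
      have e3 := (norm_snd_le _).trans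
        (hN ((γ (pre j ω) s₁, s₁) - (γ (pre j ω) s₂, s₂)))
      rw [Prod.snd_sub] at e3
      generalize ‖χ.A ((γ (pre j ω) s₁, s₁) - (γ (pre j ω) s₂, s₂))‖ = X at e3
      have hX : 0 < X := by
        by_contra hX
        have : N * X ≤ 0 := mul_nonpos_of_nonneg_of_nonpos hN0 (not_lt.mp hX)
        linarith
      calc 2 * (4 * R) / τ * ‖η₀ - ηb‖ ≤ 2 * (4 * R) / τ * (κ ^ j * (N * X)) :=
            mul_le_mul_of_nonneg_left (hlip.trans (mul_le_mul_of_nonneg_left e3 hκj)) hK0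
        _ = 2 * (4 * R) / τ * N * κ ^ j * X := by ring
        _ < 1 * X := mul_lt_mul_of_pos_right hj2 hX
        _ = X := one_mul X)
  have key := hA ψ η₀ ζ₁ n hn hψ hψR hbd hζ₁ hM
  simp only [hit, Prod.fst_swap] at key
  refine key.trans (lintegral_mono_set (inter_subset_inter_left _ ?_))
  exact (ball_subset_ball (by linarith)).trans hsub

theorem leaf_sep {f g : E → E} {d : ℕ} {R₀ R : ℝ} (h : IsHL f g d R₀) (hR : R₀ ≤ R)
    (hz : IsLeaves T γ z) (h1 : κ < 1) {l : ℕ} {χ : Chart} (hT : ∀ a, IsCross κ f^[l] χ χ (T a))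
    (hne : ¬ EqOn (T true) (T false) D2) (box : ∀ w ∈ D2, ‖χ.pt w‖ ≤ R) {r : ℝ} (hr : r < 1)
    (ρ : ℝ) :
    ∃ C : ℝ, 0 < C ∧ ∀ (ω ω' : ℕ → Bool) (i n : ℕ), ω i ≠ ω' i → ∀ η η' : ℂ, ‖η‖ ≤ r → ‖η'‖ ≤ r →
      ‖g^[n] (χ.pt (γ ω η, η))‖ ≤ ρ → ‖g^[n] (χ.pt (γ ω' η', η'))‖ ≤ ρ →
      Real.exp (-(C * n + C * (i + 1))) ≤
        ‖g^[n] (χ.pt (γ ω η, η)) - g^[n] (χ.pt (γ ω' η', η'))‖ := by
  obtain ⟨C₀, hC₀, hsep⟩ := hz.sep h1 h.cf hT hne hr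
  obtain ⟨L, hL, -, hlip, -⟩ := exists_lip h.cf (max ρ R)
  have hL1 : 1 ≤ L := by linarith
  have hlog : 0 ≤ Real.log L := Real.log_nonneg hL1
  refine ⟨C₀ + Real.log L, by linarith, fun ω ω' i n hne' η η' hη hη' hx hy => ?_⟩
  have hb : ∀ {x : E}, ‖x‖ ≤ R → ‖g^[n] x‖ ≤ ρ → ∀ j < n, ‖f^[j] (g^[n] x)‖ ≤ max ρ R := by
    intro x hx1 hn j hj
    obtain ⟨m, hm⟩ := Nat.exists_eq_add_of_le hj.le
    have e : f^[j] (g^[n] x) = g^[m] x := by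
      rw [hm, Function.iterate_add_apply, h.fg_iterate]
    rw [e]
    exact la_bdd h hR (le_max_right _ _) hx1 (hn.trans (le_max_left _ _)) m (by omega)
  have e1 := iter_lip hL1 hlip (hb (box _ (la_mem hz ω (hη.trans hr.le))) hx)
    (hb (box _ (la_mem hz ω' (hη'.trans hr.le))) hy) n le_rfl
  rw [h.fg_iterate, h.fg_iterate] at e1
  have e2 := (hsep ω ω' i hne' η η' hη hη').trans e1
  have hLn : 0 < L ^ n := by positivity
  rw [← div_le_iff₀' hLn] at e2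
  refine le_trans ?_ e2
  rw [← Real.exp_log hLn, ← Real.exp_sub, Real.exp_le_exp, Real.log_pow]
  have a1 : 0 ≤ C₀ * n := by positivity
  have a2 : 0 ≤ Real.log L * (i + 1) := by positivity
  nlinarith

end Pool.Agent.P.MP_eeb913_an.U
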