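import Mathlib
import Pool.Agent.P.MP_eeb913_an.U.Basic

/-!
The complex Hessian of log (c + |A ζ - B η|²).

Sketch. Φ = A ζ - B η, N = c + nsq Φ, X = deriv A ζ, Y = - deriv B η, ⟨p, q⟩ = p.1 conj q.1 + p.2 conj q.2,
p ∧ q = p.1 q.2 - p.2 q.1. For directions v = (v₁, v₂), DΦ v = v₁ X + v₂ Y and
dd v N = 2 Re ⟨DΦ v, Φ⟩ near the point; dd v' (dd v N) = 2 Re ⟨DΦ v, DΦ v'⟩ + 2 Re ⟨v₁ v'₁ A'' - v₂ v'₂ B'', Φ⟩;
dd v' (dd v (log N)) = dd v' (dd v N) / N - dd v N dd v' N / N². Adding up,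
hp = 4 (nsq X N - |⟨X, Φ⟩|²) / N² = 4 (c nsq X + |Φ ∧ X|²) / N², the same for hq with Y, and
hr² + hs² = 16 |⟨X, Y⟩ N - ⟨X, Φ⟩ ⟨Φ, Y⟩|² / N⁴; then hp hq - hr² - hs² = 16 c |X ∧ Y|² / N³, a polynomial
identity in the real and imaginary parts (ring after clearing denominators).
-/

namespace Pool.Agent.P.MP_eeb913_an.U

open MeasureTheory Filter Metric Set
open scoped ENNReal NNReal Topology

namespace MaHessAux

section HD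

variable {F G : Type} [NormedAddCommGroup F] [NormedSpace ℝ F] [NormedAddCommGroup G]
  [NormedSpace ℝ G]

/-- `f` is differentiable at `z` with directional derivatives `L`. -/
def HD (f : E → F) (z : E) (L : E → F) : Prop :=
  ∃ L' : E →L[ℝ] F, HasFDerivAt f L' z ∧ ∀ v, L' v = L v

theorem HD.fderiv {f : E → F} {z : E} {L : E → F} (h : HD f z L) (v : E) :
    fderiv ℝ f z v = L v := by
  obtain ⟨L', h1, h2⟩ := h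
  rw [h1.fderiv, h2]

theorem HD.congr {f : E → F} {z : E} {L M : E → F} (h : HD f z L) (e : ∀ v, L v = M v) :
    HD f z M := by
  obtain ⟨L', h1, h2⟩ := h
  exact ⟨L', h1, fun v => (h2 v).trans (e v)⟩

theorem HD.add {f g : E → F} {z : E} {L M : E → F} (h : HD f z L) (h' : HD g z M) :
    HD (fun x => f x + g x) z fun v => L v + M v := by
  obtain ⟨L', h1, h2⟩ := h
  obtain ⟨M', h3, h4⟩ := h'
  exact ⟨L' + M', h1.add h3, fun v => by rw [_root_.add_apply, h2, h4]⟩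

theorem HD.sub {f g : E → F} {z : E} {L M : E → F} (h : HD f z L) (h' : HD g z M) :
    HD (fun x => f x - g x) z fun v => L v - M v := by
  obtain ⟨L', h1, h2⟩ := h
  obtain ⟨M', h3, h4⟩ := h'
  exact ⟨L' - M', h1.sub h3, fun v => by rw [_root_.sub_apply, h2, h4]⟩

theorem HD.const_add {f : E → F} {z : E} {L : E → F} (h : HD f z L) (c : F) :
    HD (fun x => c + f x) z L := by
  obtain ⟨L', h1, h2⟩ := h
  exact ⟨L', h1.const_add c, h2⟩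

theorem HD.clm {f : E → F} {z : E} {L : E → F} (h : HD f z L) (T : F →L[ℝ] G) :
    HD (fun x => T (f x)) z fun v => T (L v) := by
  obtain ⟨L', h1, h2⟩ := h
  exact ⟨T.comp L', T.hasFDerivAt.comp z h1, fun v => by rw [ContinuousLinearMap.comp_apply, h2]⟩

end HD

theorem HD.mul {f g : E → ℝ} {z : E} {L M : E → ℝ} (h : HD f z L) (h' : HD g z M) :
    HD (fun x => f x * g x) z fun v => L v * g z + f z * M v := by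
  obtain ⟨L', h1, h2⟩ := h
  obtain ⟨M', h3, h4⟩ := h'
  refine ⟨_, h1.mul h3, fun v => ?_⟩
  simp only [_root_.add_apply, _root_.smul_apply, smul_eq_mul, h2, h4]
  ring

theorem HD.comp {f : E → ℝ} {z : E} {L : E → ℝ} (h : HD f z L) {g : ℝ → ℝ} {g' : ℝ}
    (hg : HasDerivAt g g' (f z)) : HD (fun x => g (f x)) z fun v => g' * L v := by
  obtain ⟨L', h1, h2⟩ := h
  refine ⟨_, hg.comp_hasFDerivAt z h1, fun v => ?_⟩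
  simp only [_root_.smul_apply, smul_eq_mul, h2]

theorem hd_fst {a : ℂ → ℂ} {a' : ℂ} {z : E} (h : HasDerivAt a a' z.1) :
    HD (fun x : E => a x.1) z fun v => v.1 * a' :=
  ⟨_, (h.hasFDerivAt.restrictScalars ℝ).comp z hasFDerivAt_fst, fun v => by simp⟩

theorem hd_snd {a : ℂ → ℂ} {a' : ℂ} {z : E} (h : HasDerivAt a a' z.2) :
    HD (fun x : E => a x.2) z fun v => v.2 * a' :=
  ⟨_, (h.hasFDerivAt.restrictScalars ℝ).comp z hasFDerivAt_snd, fun v => by simp⟩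

/-- The real inner product on the complex line. -/
def ip (p q : ℂ) : ℝ := p.re * q.re + p.im * q.im

theorem HD.ip {f g : E → ℂ} {z : E} {L M : E → ℂ} (h : HD f z L) (h' : HD g z M) :
    HD (fun x => ip (f x) (g x)) z fun v => ip (L v) (g z) + ip (f z) (M v) :=
  (((h.clm Complex.reCLM).mul (h'.clm Complex.reCLM)).add
    ((h.clm Complex.imCLM).mul (h'.clm Complex.imCLM))).congr fun v => by
      simp only [MaHessAux.ip, Complex.reCLM_apply, Complex.imCLM_apply]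
      ring

theorem ip_self (p : ℂ) : ‖p‖ ^ 2 = ip p p := by
  rw [Complex.sq_norm, Complex.normSq_apply, ip]

/-- One component of the difference. -/
def ph (a b : ℂ → ℂ) (z : E) : ℂ := a z.1 - b z.2

/-- Its directional derivative. -/
noncomputable def ps (a b : ℂ → ℂ) (v z : E) : ℂ := v.1 * deriv a z.1 - v.2 * deriv b z.2

/-- Its second directional derivative. -/
noncomputable def ch (a b : ℂ → ℂ) (v w z : E) : ℂ :=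
  w.1 * (v.1 * deriv (deriv a) z.1) - w.2 * (v.2 * deriv (deriv b) z.2)

theorem hd_ph {a b : ℂ → ℂ} {z : E} (ha : AnalyticAt ℂ a z.1) (hb : AnalyticAt ℂ b z.2) :
    HD (ph a b) z fun v => ps a b v z :=
  (hd_fst ha.differentiableAt.hasDerivAt).sub (hd_snd hb.differentiableAt.hasDerivAt)

theorem hd_ps {a b : ℂ → ℂ} {z : E} (ha : AnalyticAt ℂ a z.1) (hb : AnalyticAt ℂ b z.2) (v : E) :
    HD (ps a b v) z fun w => ch a b v w z :=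
  (hd_fst (ha.deriv.differentiableAt.hasDerivAt.const_mul v.1)).sub
    (hd_snd (hb.deriv.differentiableAt.hasDerivAt.const_mul v.2))

variable (a₁ a₂ b₁ b₂ : ℂ → ℂ) (c : ℝ)

/-- The function under the logarithm. -/
def NN (z : E) : ℝ := c + (ip (ph a₁ b₁ z) (ph a₁ b₁ z) + ip (ph a₂ b₂ z) (ph a₂ b₂ z))

/-- Its directional derivative. -/
noncomputable def GG (v z : E) : ℝ :=
  2 * (ip (ps a₁ b₁ v z) (ph a₁ b₁ z) + ip (ps a₂ b₂ v z) (ph a₂ b₂ z))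

/-- Its second directional derivative. -/
noncomputable def KK (v w z : E) : ℝ :=
  2 * (ip (ch a₁ b₁ v w z) (ph a₁ b₁ z) + ip (ps a₁ b₁ v z) (ps a₁ b₁ w z) +
    (ip (ch a₂ b₂ v w z) (ph a₂ b₂ z) + ip (ps a₂ b₂ v z) (ps a₂ b₂ w z)))

/-- The four functions are analytic at the point. -/
def An (z : E) : Prop :=
  (AnalyticAt ℂ a₁ z.1 ∧ AnalyticAt ℂ a₂ z.1) ∧ AnalyticAt ℂ b₁ z.2 ∧ AnalyticAt ℂ b₂ z.2

variable {a₁ a₂ b₁ b₂}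

theorem An.eventually {z : E} (h : An a₁ a₂ b₁ b₂ z) : ∀ᶠ x in 𝓝 z, An a₁ a₂ b₁ b₂ x :=
  ((continuousAt_fst.eventually h.1.1.eventually_analyticAt).and
    (continuousAt_fst.eventually h.1.2.eventually_analyticAt)).and
    ((continuousAt_snd.eventually h.2.1.eventually_analyticAt).and
      (continuousAt_snd.eventually h.2.2.eventually_analyticAt))

theorem hd_NN {z : E} (h : An a₁ a₂ b₁ b₂ z) :
    HD (NN a₁ a₂ b₁ b₂ c) z fun v => GG a₁ a₂ b₁ b₂ v z :=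
  ((((hd_ph h.1.1 h.2.1).ip (hd_ph h.1.1 h.2.1)).add
    ((hd_ph h.1.2 h.2.2).ip (hd_ph h.1.2 h.2.2))).const_add c).congr fun v => by
      simp only [GG, ip]
      ring

theorem hd_GG {z : E} (h : An a₁ a₂ b₁ b₂ z) (v : E) :
    HD (GG a₁ a₂ b₁ b₂ v) z fun w => KK a₁ a₂ b₁ b₂ v w z :=
  (((hd_ps h.1.1 h.2.1 v).ip (hd_ph h.1.1 h.2.1)).add
    ((hd_ps h.1.2 h.2.2 v).ip (hd_ph h.1.2 h.2.2))).comp ((hasDerivAt_id _).const_mul 2) |>.congr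
      fun w => by simp only [KK, mul_one]

theorem dd_dd {z : E} (h : An a₁ a₂ b₁ b₂ z) (hN : 0 < NN a₁ a₂ b₁ b₂ c z) (v w : E) :
    dd w (dd v fun x => Real.log (NN a₁ a₂ b₁ b₂ c x)) z =
      (KK a₁ a₂ b₁ b₂ v w z * NN a₁ a₂ b₁ b₂ c z - GG a₁ a₂ b₁ b₂ v z * GG a₁ a₂ b₁ b₂ w z) /
        NN a₁ a₂ b₁ b₂ c z ^ 2 := by
  have hc : ContinuousAt (NN a₁ a₂ b₁ b₂ c) z := by
    obtain ⟨L, hL, -⟩ := hd_NN c h
    exact hL.continuousAt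
  have e : (dd v fun x => Real.log (NN a₁ a₂ b₁ b₂ c x)) =ᶠ[𝓝 z]
      fun x => (NN a₁ a₂ b₁ b₂ c x)⁻¹ * GG a₁ a₂ b₁ b₂ v x := by
    filter_upwards [h.eventually, hc.eventually (lt_mem_nhds hN)] with x hx hx'
    exact ((hd_NN c hx).comp (Real.hasDerivAt_log hx'.ne')).fderiv v
  have h2 := (((hd_NN c h).comp (hasDerivAt_inv hN.ne')).mul (hd_GG h v)).fderiv w
  rw [dd, e.fderiv_eq, h2]
  field_simp
  ring

theorem alg (c p₁ q₁ p₂ q₂ x₁ y₁ x₂ y₂ r₁ s₁ r₂ s₂ N α β γ δ μ ν ρ σ : ℝ)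
    (hN : N = c + (p₁ * p₁ + q₁ * q₁ + (p₂ * p₂ + q₂ * q₂)))
    (hα : α = x₁ * x₁ + y₁ * y₁ + (x₂ * x₂ + y₂ * y₂))
    (hβ : β = r₁ * r₁ + s₁ * s₁ + (r₂ * r₂ + s₂ * s₂))
    (hγ : γ = x₁ * r₁ + y₁ * s₁ + (x₂ * r₂ + y₂ * s₂))
    (hδ : δ = y₁ * r₁ - x₁ * s₁ + (y₂ * r₂ - x₂ * s₂))
    (hμ : μ = x₁ * p₁ + y₁ * q₁ + (x₂ * p₂ + y₂ * q₂))
    (hν : ν = x₁ * q₁ - y₁ * p₁ + (x₂ * q₂ - y₂ * p₂))
    (hρ : ρ = r₁ * p₁ + s₁ * q₁ + (r₂ * p₂ + s₂ * q₂))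
    (hσ : σ = r₁ * q₁ - s₁ * p₁ + (r₂ * q₂ - s₂ * p₂)) :
    (α * N - μ ^ 2 - ν ^ 2) * (β * N - ρ ^ 2 - σ ^ 2) - (γ * N - μ * ρ - ν * σ) ^ 2 -
      (δ * N - μ * σ + ν * ρ) ^ 2 =
      c * ((x₁ * r₂ - y₁ * s₂ - (x₂ * r₁ - y₂ * s₁)) ^ 2 +
        (x₁ * s₂ + y₁ * r₂ - (x₂ * s₁ + y₂ * r₁)) ^ 2) * N := by
  have h1 : (x₁ * r₂ - y₁ * s₂ - (x₂ * r₁ - y₂ * s₁)) ^ 2 +
      (x₁ * s₂ + y₁ * r₂ - (x₂ * s₁ + y₂ * r₁)) ^ 2 = α * β - γ ^ 2 - δ ^ 2 := by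
    subst hα hβ hγ hδ
    ring
  have h2 : (α * β - γ ^ 2 - δ ^ 2) * (N - c) - α * (ρ ^ 2 + σ ^ 2) - β * (μ ^ 2 + ν ^ 2) +
      2 * γ * (μ * ρ + ν * σ) + 2 * δ * (μ * σ - ν * ρ) = 0 := by
    subst hN hα hβ hγ hδ hμ hν hρ hσ
    ring
  rw [h1]
  linear_combination N * h2

theorem alg_pos {c p₁ q₁ p₂ q₂ x₁ y₁ x₂ y₂ : ℝ} (hc : 0 ≤ c) :
    0 ≤ (x₁ * x₁ + y₁ * y₁ + (x₂ * x₂ + y₂ * y₂)) * (c + (p₁ * p₁ + q₁ * q₁ + (p₂ * p₂ + q₂ * q₂))) -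
      (x₁ * p₁ + y₁ * q₁ + (x₂ * p₂ + y₂ * q₂)) ^ 2 -
      (x₁ * q₁ - y₁ * p₁ + (x₂ * q₂ - y₂ * p₂)) ^ 2 := by
  have e : (x₁ * x₁ + y₁ * y₁ + (x₂ * x₂ + y₂ * y₂)) *
        (c + (p₁ * p₁ + q₁ * q₁ + (p₂ * p₂ + q₂ * q₂))) -
      (x₁ * p₁ + y₁ * q₁ + (x₂ * p₂ + y₂ * q₂)) ^ 2 -
      (x₁ * q₁ - y₁ * p₁ + (x₂ * q₂ - y₂ * p₂)) ^ 2 =
      c * (x₁ ^ 2 + y₁ ^ 2 + x₂ ^ 2 + y₂ ^ 2) + (x₁ * p₂ - y₁ * q₂ - (x₂ * p₁ - y₂ * q₁)) ^ 2 +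
        (x₁ * q₂ + y₁ * p₂ - (x₂ * q₁ + y₂ * p₁)) ^ 2 := by ring
  rw [e]
  positivity

theorem contDiffAt_NN {z : E} (h : An a₁ a₂ b₁ b₂ z) : ContDiffAt ℝ 3 (NN a₁ a₂ b₁ b₂ c) z := by
  have h1 : ∀ {a b : ℂ → ℂ}, AnalyticAt ℂ a z.1 → AnalyticAt ℂ b z.2 →
      ContDiffAt ℝ 3 (fun x => ip (ph a b x) (ph a b x)) z := by
    intro a b ha hb
    have h2 : ContDiffAt ℝ 3 (ph a b) z :=
      ((ha.contDiffAt.restrict_scalars ℝ).comp z contDiffAt_fst).sub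
        ((hb.contDiffAt.restrict_scalars ℝ).comp z contDiffAt_snd)
    have h3 := Complex.reCLM.contDiff.contDiffAt.comp z h2
    have h4 := Complex.imCLM.contDiff.contDiffAt.comp z h2
    exact (h3.mul h3).add (h4.mul h4)
  exact contDiffAt_const.add ((h1 h.1.1 h.2.1).add (h1 h.1.2 h.2.2))

theorem main {z : E} (h : An a₁ a₂ b₁ b₂ z) (hc : 0 ≤ c) (hN : 0 < NN a₁ a₂ b₁ b₂ c z)
    {u : E → ℝ} (hu : u = fun x => Real.log (NN a₁ a₂ b₁ b₂ c x)) :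
    0 ≤ hp u z ∧ 0 ≤ hq u z ∧ hp u z * hq u z - hr u z ^ 2 - hs u z ^ 2 =
      16 * c * ‖deriv a₁ z.1 * deriv b₂ z.2 - deriv a₂ z.1 * deriv b₁ z.2‖ ^ 2 /
        NN a₁ a₂ b₁ b₂ c z ^ 3 := by
  have hd := dd_dd c h hN
  rw [← hu] at hd
  have eN : NN a₁ a₂ b₁ b₂ c z =
    c + (ip (ph a₁ b₁ z) (ph a₁ b₁ z) + ip (ph a₂ b₂ z) (ph a₂ b₂ z)) := rfl
  simp only [KK, GG, ps, ch] at hd
  generalize NN a₁ a₂ b₁ b₂ c z = N at hd eN hN ⊢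
  generalize ph a₁ b₁ z = P₁ at hd eN
  generalize ph a₂ b₂ z = P₂ at hd eN
  generalize deriv (deriv a₁) z.1 = A₁ at hd
  generalize deriv (deriv a₂) z.1 = A₂ at hd
  generalize deriv (deriv b₁) z.2 = B₁ at hd
  generalize deriv (deriv b₂) z.2 = B₂ at hd
  generalize deriv a₁ z.1 = X₁ at hd ⊢
  generalize deriv a₂ z.1 = X₂ at hd ⊢
  generalize deriv b₁ z.2 = W₁ at hd ⊢
  generalize deriv b₂ z.2 = W₂ at hd ⊢
  obtain ⟨p₁, q₁⟩ := P₁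
  obtain ⟨p₂, q₂⟩ := P₂
  obtain ⟨x₁, y₁⟩ := X₁
  obtain ⟨x₂, y₂⟩ := X₂
  obtain ⟨r₁, s₁⟩ := W₁
  obtain ⟨r₂, s₂⟩ := W₂
  simp only [ip] at eN
  obtain ⟨α, hα⟩ : ∃ α, α = x₁ * x₁ + y₁ * y₁ + (x₂ * x₂ + y₂ * y₂) := ⟨_, rfl⟩
  obtain ⟨β, hβ⟩ : ∃ β, β = r₁ * r₁ + s₁ * s₁ + (r₂ * r₂ + s₂ * s₂) := ⟨_, rfl⟩
  obtain ⟨γ, hγ⟩ : ∃ γ, γ = x₁ * r₁ + y₁ * s₁ + (x₂ * r₂ + y₂ * s₂) := ⟨_, rfl⟩
  obtain ⟨δ, hδ⟩ : ∃ δ, δ = y₁ * r₁ - x₁ * s₁ + (y₂ * r₂ - x₂ * s₂) := ⟨_, rfl⟩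
  obtain ⟨μ, hμ⟩ : ∃ μ, μ = x₁ * p₁ + y₁ * q₁ + (x₂ * p₂ + y₂ * q₂) := ⟨_, rfl⟩
  obtain ⟨ν, hν⟩ : ∃ ν, ν = x₁ * q₁ - y₁ * p₁ + (x₂ * q₂ - y₂ * p₂) := ⟨_, rfl⟩
  obtain ⟨ρ, hρ⟩ : ∃ ρ, ρ = r₁ * p₁ + s₁ * q₁ + (r₂ * p₂ + s₂ * q₂) := ⟨_, rfl⟩
  obtain ⟨σ, hσ⟩ : ∃ σ, σ = r₁ * q₁ - s₁ * p₁ + (r₂ * q₂ - s₂ * p₂) := ⟨_, rfl⟩
  have hne := hN.ne'
  have e1 : hp u z = 4 * (α * N - μ ^ 2 - ν ^ 2) / N ^ 2 := by
    rw [hp, hd, hd, ← add_div, hα, hμ, hν]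
    congr 1
    simp [ip]
    ring
  have e2 : hq u z = 4 * (β * N - ρ ^ 2 - σ ^ 2) / N ^ 2 := by
    rw [hq, hd, hd, ← add_div, hβ, hρ, hσ]
    congr 1
    simp [ip]
    ring
  have e3 : hr u z = -4 * (γ * N - μ * ρ - ν * σ) / N ^ 2 := by
    rw [hr, hd, hd, ← add_div, hγ, hμ, hν, hρ, hσ]
    congr 1
    simp [ip]
    ring
  have e4 : hs u z = -4 * (δ * N - μ * σ + ν * ρ) / N ^ 2 := by
    rw [hs, hd, hd, ← sub_div, hδ, hμ, hν, hρ, hσ]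
    congr 1
    simp [ip]
    ring
  have e5 := alg c p₁ q₁ p₂ q₂ x₁ y₁ x₂ y₂ r₁ s₁ r₂ s₂ N α β γ δ μ ν ρ σ eN hα hβ hγ hδ hμ hν hρ hσ
  have e6 : ‖(⟨x₁, y₁⟩ : ℂ) * ⟨r₂, s₂⟩ - ⟨x₂, y₂⟩ * ⟨r₁, s₁⟩‖ ^ 2 =
      (x₁ * r₂ - y₁ * s₂ - (x₂ * r₁ - y₂ * s₁)) ^ 2 +
        (x₁ * s₂ + y₁ * r₂ - (x₂ * s₁ + y₂ * r₁)) ^ 2 := by
    rw [ip_self]
    simp only [ip, Complex.sub_re, Complex.sub_im, Complex.mul_re, Complex.mul_im]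
    ring
  refine ⟨?_, ?_, ?_⟩
  · rw [e1]
    refine div_nonneg (mul_nonneg (by norm_num) ?_) (sq_nonneg _)
    rw [hα, hμ, hν, eN]
    exact alg_pos hc
  · rw [e2]
    refine div_nonneg (mul_nonneg (by norm_num) ?_) (sq_nonneg _)
    rw [hβ, hρ, hσ, eN]
    exact alg_pos hc
  · rw [e1, e2, e3, e4, e6]
    generalize (x₁ * r₂ - y₁ * s₂ - (x₂ * r₁ - y₂ * s₁)) ^ 2 +
        (x₁ * s₂ + y₁ * r₂ - (x₂ * s₁ + y₂ * r₁)) ^ 2 = D at e5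
    generalize α * N - μ ^ 2 - ν ^ 2 = P at e5
    generalize β * N - ρ ^ 2 - σ ^ 2 = Q at e5
    generalize γ * N - μ * ρ - ν * σ = R at e5
    generalize δ * N - μ * σ + ν * ρ = S at e5
    field_simp
    linear_combination 16 * e5

end MaHessAux

open MaHessAux

theorem hess_log {A B : ℂ → E} {ζ η : ℂ} (hA : AnalyticAt ℂ A ζ) (hB : AnalyticAt ℂ B η) {c : ℝ}
    (hc : 0 ≤ c) (hN : 0 < c + nsq (A ζ - B η)) :
    let u : E → ℝ := fun z => Real.log (c + nsq (A z.1 - B z.2))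
    ContDiffAt ℝ 3 u (ζ, η) ∧ 0 ≤ hp u (ζ, η) ∧ 0 ≤ hq u (ζ, η) ∧
      hr u (ζ, η) ^ 2 + hs u (ζ, η) ^ 2 ≤ hp u (ζ, η) * hq u (ζ, η) ∧
      mq u u (ζ, η) = 32 * c *
        ‖(deriv A ζ).1 * (deriv B η).2 - (deriv A ζ).2 * (deriv B η).1‖ ^ 2 /
          (c + nsq (A ζ - B η)) ^ 3 := by
  intro u
  have eN : ∀ z : E, c + nsq (A z.1 - B z.2) = NN (fun x => (A x).1) (fun x => (A x).2)
      (fun x => (B x).1) (fun x => (B x).2) c z := fun z => by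
    rw [nsq, ip_self, ip_self]
    rfl
  have h : An (fun x => (A x).1) (fun x => (A x).2) (fun x => (B x).1) (fun x => (B x).2) (ζ, η) :=
    ⟨⟨analyticAt_fst.comp hA, analyticAt_snd.comp hA⟩, analyticAt_fst.comp hB,
      analyticAt_snd.comp hB⟩
  have hu : u = fun z => Real.log (NN (fun x => (A x).1) (fun x => (A x).2)
      (fun x => (B x).1) (fun x => (B x).2) c z) := funext fun z => congrArg Real.log (eN z)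
  have hN' := lt_of_lt_of_eq hN (eN (ζ, η))
  obtain ⟨h1, h2, h3⟩ := main c h hc hN' hu
  have dA := hA.differentiableAt.hasDerivAt
  have dB := hB.differentiableAt.hasDerivAt
  have d1 : HasDerivAt (fun x => (A x).1) (deriv A ζ).1 ζ := dA.fst
  have d2 : HasDerivAt (fun x => (A x).2) (deriv A ζ).2 ζ := dA.snd
  have d3 : HasDerivAt (fun x => (B x).1) (deriv B η).1 η := dB.fst
  have d4 : HasDerivAt (fun x => (B x).2) (deriv B η).2 η := dB.snd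
  rw [← eN (ζ, η), d1.deriv, d2.deriv, d3.deriv, d4.deriv] at h3
  have h4 : 0 ≤ 16 * c * ‖(deriv A ζ).1 * (deriv B η).2 - (deriv A ζ).2 * (deriv B η).1‖ ^ 2 /
      (c + nsq (A ζ - B η)) ^ 3 := by positivity
  refine ⟨?_, h1, h2, by linarith, ?_⟩
  · rw [hu]
    exact (contDiffAt_NN c h).log hN'.ne'
  · rw [mq]
    linear_combination 2 * h3

end Pool.Agent.P.MP_eeb913_an.U
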