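import Mathlib
import Pool.Agent.P.MP_eeb913_an.U.Basic
import Pool.Agent.P.MP_eeb913_an.U.Lap

/-!
Integration by parts for the mixed Monge-Ampere expression on ℂ².

Sketch. With the four directions e₁ = (1,0), e₂ = (I,0), e₃ = (0,1), e₄ = (0,I), write
mq a b = ∑_{k,l} M k l * dd e_k (dd e_l a) with the symmetric matrix M 1 1 = M 2 2 = hq b,
M 3 3 = M 4 4 = hp b, M 1 3 = M 2 4 = - hr b, M 1 4 = - hs b, M 2 3 = hs b, M 1 2 = M 3 4 = 0 (second
derivatives of a C² function commute: ContDiffAt.isSymmSndFDerivAt). For b of class C³ the columns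
are divergence free: ∑_k dd e_k (M k l) = 0 (commute third derivatives). Hence
χ mq a b - a mq χ b = ∑_k dd e_k (∑_l M k l (χ dd e_l a - a dd e_l χ)), and each function under dd e_k is
C¹ with compact support (contDiff_mul_of_tsupport; tsupport (dd v χ) ⊆ tsupport χ);
integral_dd_eq_zero. hq_slice: dd (0, v) u (ζ, η) = dd v (fun η' => u (ζ, η')) η near the point.
mq_le: |hr b|, |hs b| ≤ (hp b + hq b) / 2.
-/

namespace Pool.Agent.P.MP_eeb913_an.U

open MeasureTheory Filter Metric Set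
open scoped ENNReal NNReal Topology

theorem ibp_cd {u : E → ℝ} {z : E} {m n : WithTop ℕ∞} (hu : ContDiffAt ℝ n u z) (h : m + 1 ≤ n)
    (v : E) : ContDiffAt ℝ m (dd v u) z :=
  (hu.fderiv_right h).clm_apply contDiffAt_const

theorem ibp_hess {u : E → ℝ} {z : E} {m n : WithTop ℕ∞} (hu : ContDiffAt ℝ n u z)
    (h : m + 1 + 1 ≤ n) : ContDiffAt ℝ m (hp u) z ∧ ContDiffAt ℝ m (hq u) z ∧
      ContDiffAt ℝ m (hr u) z ∧ ContDiffAt ℝ m (hs u) z :=
  have k : ∀ v w, ContDiffAt ℝ m (dd v (dd w u)) z := fun v w => ibp_cd (ibp_cd hu h w) le_rfl v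
  ⟨(k _ _).add (k _ _), (k _ _).add (k _ _), (k _ _).add (k _ _), (k _ _).sub (k _ _)⟩

theorem ibp_congr {V : Type} [NormedAddCommGroup V] [NormedSpace ℝ V] {f g : V → ℝ} {z : V}
    (h : f =ᶠ[𝓝 z] g) (v : V) : dd v f z = dd v g z := by
  rw [dd, dd, h.fderiv_eq]

theorem ibp_add {f g : E → ℝ} {z : E} (hf : DifferentiableAt ℝ f z) (hg : DifferentiableAt ℝ g z)
    (v : E) : dd v (fun w => f w + g w) z = dd v f z + dd v g z := by
  rw [dd, fderiv_fun_add hf hg]; rfl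

theorem ibp_sub {f g : E → ℝ} {z : E} (hf : DifferentiableAt ℝ f z) (hg : DifferentiableAt ℝ g z)
    (v : E) : dd v (fun w => f w - g w) z = dd v f z - dd v g z := by
  rw [dd, fderiv_fun_sub hf hg]; rfl

theorem ibp_mul {f g : E → ℝ} {z : E} (hf : DifferentiableAt ℝ f z) (hg : DifferentiableAt ℝ g z)
    (v : E) : dd v (fun w => f w * g w) z = f z * dd v g z + g z * dd v f z := by
  rw [dd, fderiv_fun_mul hf hg]; rfl

theorem ibp_swap {u : E → ℝ} {z : E} (hu : ContDiffAt ℝ 2 u z) (v w : E) :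
    dd v (dd w u) z = dd w (dd v u) z := by
  have hd : DifferentiableAt ℝ (fderiv ℝ u) z :=
    (hu.fderiv_right (m := 1) (by norm_num)).differentiableAt one_ne_zero
  have k : ∀ v w, dd v (dd w u) z = fderiv ℝ (fderiv ℝ u) z v w := fun v w => by
    change fderiv ℝ (fun y => fderiv ℝ u y w) z v = _
    rw [fderiv_clm_apply hd (differentiableAt_const _)]
    simp
  rw [k, k, (hu.isSymmSndFDerivAt (by simp)).eq]

theorem ibp_ts {F χ : E → ℝ} (h0 : ∀ z, z ∉ tsupport χ → F z = 0) : tsupport F ⊆ tsupport χ :=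
  closure_minimal (fun z hz => by_contra fun h => hz (h0 z h)) (isClosed_tsupport _)

theorem ibp_zero {u : E → ℝ} {z : E} (hz : z ∉ tsupport u) (v : E) : dd v u z = 0 := by
  rw [dd, fderiv_of_notMem_tsupport ℝ hz]; rfl

theorem ibp_zero2 {u : E → ℝ} {z : E} (hz : z ∉ tsupport u) (v w : E) : dd v (dd w u) z = 0 :=
  ibp_zero (fun h => hz (ibp_ts (fun _ hy => ibp_zero hy w) h)) v

/-- integrable with integral zero -/
def IbpZ (f : E → ℝ) : Prop := Integrable f ∧ ∫ z, f z = 0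

theorem IbpZ.add {f g : E → ℝ} (hf : IbpZ f) (hg : IbpZ g) : IbpZ fun z => f z + g z :=
  ⟨hf.1.add hg.1, by rw [integral_add hf.1 hg.1, hf.2, hg.2, add_zero]⟩

theorem IbpZ.sub {f g : E → ℝ} (hf : IbpZ f) (hg : IbpZ g) : IbpZ fun z => f z - g z :=
  ⟨hf.1.sub hg.1, by rw [integral_sub hf.1 hg.1, hf.2, hg.2, sub_zero]⟩

/-- one term of the divergence -/
noncomputable def ibpT (χ a m : E → ℝ) (v w : E) : E → ℝ :=
  dd v fun y => m y * (χ y * dd w a y - a y * dd w χ y)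

theorem ibpT_out {χ : E → ℝ} (a m : E → ℝ) (w : E) : ∀ y, y ∉ tsupport χ →
    m y * (χ y * dd w a y - a y * dd w χ y) = 0 := fun y hy => by
  rw [image_eq_zero_of_notMem_tsupport hy, ibp_zero hy]; ring

theorem ibpT_zero {χ : E → ℝ} {z : E} (hz : z ∉ tsupport χ) (a m : E → ℝ) (v w : E) :
    ibpT χ a m v w z = 0 :=
  ibp_zero (fun h => hz (ibp_ts (ibpT_out a m w) h)) v

theorem ibpT_Z {χ a m : E → ℝ} (hχ : ContDiff ℝ 2 χ) (hc : HasCompactSupport χ)
    (ha : ∀ z ∈ tsupport χ, ContDiffAt ℝ 2 a z) (hm : ∀ z ∈ tsupport χ, ContDiffAt ℝ 1 m z)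
    (v w : E) : IbpZ (ibpT χ a m v w) := by
  have h1 := ibp_ts (ibpT_out (χ := χ) a m w)
  have h2 : ContDiff ℝ 1 fun y => m y * (χ y * dd w a y - a y * dd w χ y) :=
    contMDiff_iff_contDiff.1 (contMDiff_of_tsupport fun z hz => ((hm z (h1 hz)).mul
      (((hχ.contDiffAt.of_le one_le_two).mul (ibp_cd (ha z (h1 hz)) (by norm_num) w)).sub
        (((ha z (h1 hz)).of_le one_le_two).mul
          (ibp_cd hχ.contDiffAt (by norm_num) w)))).contMDiffAt)
  have h3 : HasCompactSupport fun y => m y * (χ y * dd w a y - a y * dd w χ y) :=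
    hc.of_isClosed_subset (isClosed_tsupport _) h1
  have : Measure.IsAddHaarMeasure (volume : Measure E) := Measure.prod.instIsAddHaarMeasure _ _
  exact ⟨((h2.continuous_fderiv one_ne_zero).clm_apply
    continuous_const).integrable_of_hasCompactSupport (h3.fderiv_apply ℝ v),
    integral_dd_eq_zero volume h2 h3 v⟩

theorem ibpT_eq {χ a m : E → ℝ} {z : E} (hχ : ContDiffAt ℝ 2 χ z) (ha : ContDiffAt ℝ 2 a z)
    (hm : ContDiffAt ℝ 1 m z) (v w : E) : ibpT χ a m v w z =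
      m z * (χ z * dd v (dd w a) z + dd w a z * dd v χ z -
        (a z * dd v (dd w χ) z + dd w χ z * dd v a z)) +
      (χ z * dd w a z - a z * dd w χ z) * dd v m z := by
  have d1 := hχ.differentiableAt two_ne_zero
  have d2 := ha.differentiableAt two_ne_zero
  have d3 := (ibp_cd (m := 1) hχ (by norm_num) w).differentiableAt one_ne_zero
  have d4 := (ibp_cd (m := 1) ha (by norm_num) w).differentiableAt one_ne_zero
  rw [ibpT, ibp_mul (hm.differentiableAt one_ne_zero) ((d1.fun_mul d4).fun_sub (d2.fun_mul d3)),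
    ibp_sub (d1.fun_mul d4) (d2.fun_mul d3), ibp_mul d1 d4, ibp_mul d2 d3]

theorem ibp_div {b : E → ℝ} {z : E} (hb : ContDiffAt ℝ 3 b z) :
    dd (1, 0) (hq b) z = dd (0, 1) (hr b) z + dd (0, Complex.I) (hs b) z ∧
    dd (Complex.I, 0) (hq b) z = dd (0, Complex.I) (hr b) z - dd (0, 1) (hs b) z ∧
    dd (0, 1) (hp b) z = dd (1, 0) (hr b) z - dd (Complex.I, 0) (hs b) z ∧
    dd (0, Complex.I) (hp b) z = dd (Complex.I, 0) (hr b) z + dd (1, 0) (hs b) z := by
  have k : ∀ v w, DifferentiableAt ℝ (dd v (dd w b)) z := fun v w =>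
    (ibp_cd (m := 1) (ibp_cd (m := 2) hb (by norm_num) w) (by norm_num) v).differentiableAt
      one_ne_zero
  have s12 : ∀ u v w, dd u (dd v (dd w b)) z = dd v (dd u (dd w b)) z := fun u v w =>
    ibp_swap (ibp_cd hb (by norm_num) w) u v
  have s23 : ∀ u v w, dd u (dd v (dd w b)) z = dd u (dd w (dd v b)) z := fun u v w =>
    ibp_congr (((hb.of_le (m := 2) (by norm_num)).eventually (by simp)).mono
      fun y hy => ibp_swap hy v w) u
  have s13 : ∀ u v w, dd u (dd v (dd w b)) z = dd w (dd v (dd u b)) z := fun u v w => by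
    rw [s12, s23, s12]
  unfold hp hq hr hs
  simp only [ibp_add (k _ _) (k _ _), ibp_sub (k _ _) (k _ _)]
  refine ⟨?_, ?_, ?_, ?_⟩
  · linarith [s12 (1, 0) (0, 1) (0, 1), s12 (1, 0) (0, Complex.I) (0, Complex.I),
      s13 (0, 1) (Complex.I, 0) (0, Complex.I)]
  · linarith [s12 (Complex.I, 0) (0, 1) (0, 1), s12 (Complex.I, 0) (0, Complex.I) (0, Complex.I),
      s13 (0, 1) (1, 0) (0, Complex.I)]
  · linarith [s13 (0, 1) (1, 0) (1, 0), s13 (0, 1) (Complex.I, 0) (Complex.I, 0),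
      s12 (1, 0) (Complex.I, 0) (0, Complex.I)]
  · linarith [s13 (0, Complex.I) (1, 0) (1, 0), s13 (0, Complex.I) (Complex.I, 0) (Complex.I, 0),
      s12 (1, 0) (Complex.I, 0) (0, 1)]

theorem ibp_mq0 {χ b : E → ℝ} {z : E} (hz : z ∉ tsupport χ) : mq χ b z = 0 := by
  simp only [mq, hp, hq, hr, hs, ibp_zero2 hz]
  ring

theorem ibp_cmq {a b : E → ℝ} {z : E} (ha : ContDiffAt ℝ 2 a z) (hb : ContDiffAt ℝ 2 b z) :
    ContinuousAt (mq a b) z := by
  obtain ⟨a1, a2, a3, a4⟩ := ibp_hess (m := 0) ha (by norm_num)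
  obtain ⟨b1, b2, b3, b4⟩ := ibp_hess (m := 0) hb (by norm_num)
  exact (((a1.mul b2).add (a2.mul b1)).sub
    (contDiffAt_const.mul ((a3.mul b3).add (a4.mul b4)))).continuousAt

theorem ibp_slice {u : E → ℝ} {ι : ℂ → E} {L : ℂ →L[ℝ] E} (hι : ∀ x, HasFDerivAt ι L x) {ζ : ℂ}
    (hu : ContDiffAt ℝ 2 u (ι ζ)) (v : ℂ) :
    dd v (dd v fun x => u (ι x)) ζ = dd (L v) (dd (L v) u) (ι ζ) := by
  have k : ∀ (f : E → ℝ) (x : ℂ), DifferentiableAt ℝ f (ι x) →
      dd v (fun x => f (ι x)) x = dd (L v) f (ι x) := fun f x hf =>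
    congrArg (fun A : ℂ →L[ℝ] ℝ => A v) (hf.hasFDerivAt.comp x (hι x)).fderiv
  rw [← k _ _ ((ibp_cd (m := 1) hu (by norm_num) _).differentiableAt one_ne_zero)]
  exact ibp_congr (((hι ζ).continuousAt.eventually (hu.eventually (by simp))).mono
    fun x hx => k u x (hx.differentiableAt two_ne_zero)) v

theorem continuousOn_hess {u : E → ℝ} {U : Set E} (hU : IsOpen U) (hu : ContDiffOn ℝ 2 u U) :
    ContinuousOn (hp u) U ∧ ContinuousOn (hq u) U ∧ ContinuousOn (hr u) U ∧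
      ContinuousOn (hs u) U := by
  have k := fun z (hz : z ∈ U) =>
    ibp_hess (m := 0) (hu.contDiffAt (hU.mem_nhds hz)) (by norm_num)
  exact ⟨fun z hz => (k z hz).1.continuousAt.continuousWithinAt,
    fun z hz => (k z hz).2.1.continuousAt.continuousWithinAt,
    fun z hz => (k z hz).2.2.1.continuousAt.continuousWithinAt,
    fun z hz => (k z hz).2.2.2.continuousAt.continuousWithinAt⟩

theorem integral_mq {χ a b : E → ℝ} {U : Set E} (hU : IsOpen U) (hχ : ContDiff ℝ 2 χ)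
    (hc : HasCompactSupport χ) (hs : tsupport χ ⊆ U) (ha : ContDiffOn ℝ 2 a U)
    (hb : ContDiffOn ℝ 3 b U) :
    Integrable (fun z => χ z * mq a b z) ∧ Integrable (fun z => a z * mq χ b z) ∧
      ∫ z, χ z * mq a b z = ∫ z, a z * mq χ b z := by
  have ha' : ∀ z ∈ tsupport χ, ContDiffAt ℝ 2 a z := fun z hz =>
    ha.contDiffAt (hU.mem_nhds (hs hz))
  have hb' : ∀ z ∈ tsupport χ, ContDiffAt ℝ 3 b z := fun z hz =>
    hb.contDiffAt (hU.mem_nhds (hs hz))
  have hh := fun z hz => ibp_hess (m := 1) (hb' z hz) (by norm_num)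
  have t1 : tsupport (fun z => χ z * mq a b z) ⊆ tsupport χ := tsupport_mul_subset_left
  have t2 : tsupport (fun z => a z * mq χ b z) ⊆ tsupport χ :=
    ibp_ts fun z hz => by rw [ibp_mq0 hz, mul_zero]
  have i1 : Integrable fun z => χ z * mq a b z :=
    (continuous_of_tsupport fun z hz => hχ.continuous.continuousAt.mul (ibp_cmq (ha' z (t1 hz))
      ((hb' z (t1 hz)).of_le (by norm_num)))).integrable_of_hasCompactSupport
        (hc.of_isClosed_subset (isClosed_tsupport _) t1)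
  have i2 : Integrable fun z => a z * mq χ b z :=
    (continuous_of_tsupport fun z hz => (ha' z (t2 hz)).continuousAt.mul (ibp_cmq hχ.contDiffAt
      ((hb' z (t2 hz)).of_le (by norm_num)))).integrable_of_hasCompactSupport
        (hc.of_isClosed_subset (isClosed_tsupport _) t2)
  refine ⟨i1, i2, ?_⟩
  have zp := ibpT_Z hχ hc ha' fun z hz => (hh z hz).1
  have zq := ibpT_Z hχ hc ha' fun z hz => (hh z hz).2.1
  have zr := ibpT_Z hχ hc ha' fun z hz => (hh z hz).2.2.1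
  have zs := ibpT_Z hχ hc ha' fun z hz => (hh z hz).2.2.2
  have Z := ((((zq (1, 0) (1, 0)).add (zq (Complex.I, 0) (Complex.I, 0))).add
    ((zp (0, 1) (0, 1)).add (zp (0, Complex.I) (0, Complex.I)))).sub
    ((((zr (1, 0) (0, 1)).add (zr (0, 1) (1, 0))).add ((zr (Complex.I, 0) (0, Complex.I)).add
      (zr (0, Complex.I) (Complex.I, 0)))).add
    (((zs (1, 0) (0, Complex.I)).add (zs (0, Complex.I) (1, 0))).sub
      ((zs (Complex.I, 0) (0, 1)).add (zs (0, 1) (Complex.I, 0)))))).2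
  rw [← sub_eq_zero, ← integral_sub i1 i2, ← Z]
  refine integral_congr_ae (Eventually.of_forall fun z => ?_)
  by_cases hz : z ∈ tsupport χ
  · obtain ⟨p1, p2, p3, p4⟩ := hh z hz
    obtain ⟨q1, q2, q3, q4⟩ := ibp_div (hb' z hz)
    have sa := ibp_swap (ha' z hz)
    have sc := ibp_swap (hχ.contDiffAt (x := z))
    simp only [ibpT_eq hχ.contDiffAt (ha' z hz) p1, ibpT_eq hχ.contDiffAt (ha' z hz) p2,
      ibpT_eq hχ.contDiffAt (ha' z hz) p3, ibpT_eq hχ.contDiffAt (ha' z hz) p4, q1, q2, q3, q4, mq]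
    rw [hp.eq_1 a, hq.eq_1 a, hr.eq_1 a, MP_eeb913_an.U.hs.eq_1 a, hp.eq_1 χ, hq.eq_1 χ, hr.eq_1 χ,
      MP_eeb913_an.U.hs.eq_1 χ, sa (0, 1) (1, 0),
      sa (0, Complex.I) (1, 0), sa (0, 1) (Complex.I, 0), sa (0, Complex.I) (Complex.I, 0),
      sc (0, 1) (1, 0), sc (0, Complex.I) (1, 0), sc (0, 1) (Complex.I, 0),
      sc (0, Complex.I) (Complex.I, 0)]
    ring
  · simp only [ibpT_zero hz, ibp_mq0 hz, image_eq_zero_of_notMem_tsupport hz]
    ring

theorem mq_sub {a a' : E → ℝ} {z : E} (ha : ContDiffAt ℝ 2 a z) (ha' : ContDiffAt ℝ 2 a' z) :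
    mq a a z - mq a' a' z = mq (fun w => a w - a' w) a z + mq (fun w => a w - a' w) a' z := by
  have k : ∀ v w, dd v (dd w fun y => a y - a' y) z = dd v (dd w a) z - dd v (dd w a') z := by
    intro v w
    rw [← ibp_sub ((ibp_cd (m := 1) ha (by norm_num) w).differentiableAt one_ne_zero)
      ((ibp_cd (m := 1) ha' (by norm_num) w).differentiableAt one_ne_zero)]
    refine ibp_congr ?_ v
    filter_upwards [ha.eventually (by simp), ha'.eventually (by simp)] with y h1 h2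
    exact ibp_sub (h1.differentiableAt two_ne_zero) (h2.differentiableAt two_ne_zero) w
  simp only [mq, hp, hq, hr, hs, k]
  ring

theorem mq_le {χ b : E → ℝ} {z : E} {K : ℝ} (h1 : |hp χ z| ≤ K) (h2 : |hq χ z| ≤ K)
    (h3 : |hr χ z| ≤ K) (h4 : |hs χ z| ≤ K) (b1 : 0 ≤ hp b z) (b2 : 0 ≤ hq b z)
    (b3 : hr b z ^ 2 + hs b z ^ 2 ≤ hp b z * hq b z) : |mq χ b z| ≤ 3 * K * (hp b z + hq b z) := by
  have k : ∀ x y : ℝ, |x| ≤ K → |x * y| ≤ K * |y| := fun x y h => by
    rw [abs_mul]; exact mul_le_mul_of_nonneg_right h (abs_nonneg _)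
  have hK : 0 ≤ K := (abs_nonneg _).trans h1
  have c1 := abs_le.1 (k _ (hq b z) h1)
  have c2 := abs_le.1 (k _ (hp b z) h2)
  have c3 : |hr b z| ≤ (hp b z + hq b z) / 2 := abs_le_of_sq_le_sq' (by
    nlinarith [sq_nonneg (hp b z - hq b z), sq_nonneg (hs b z)]) (by positivity) |> abs_le.2
  have c4 : |hs b z| ≤ (hp b z + hq b z) / 2 := abs_le_of_sq_le_sq' (by
    nlinarith [sq_nonneg (hp b z - hq b z), sq_nonneg (hr b z)]) (by positivity) |> abs_le.2
  have c5 := abs_le.1 ((k _ (hr b z) h3).trans (mul_le_mul_of_nonneg_left c3 hK))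
  have c6 := abs_le.1 ((k _ (hs b z) h4).trans (mul_le_mul_of_nonneg_left c4 hK))
  rw [abs_of_nonneg b2] at c1
  rw [abs_of_nonneg b1] at c2
  rw [mq, abs_le]
  constructor <;> linarith [c1.1, c1.2, c2.1, c2.2, c5.1, c5.2, c6.1, c6.2]

theorem mq_eq_zero {χ b : E → ℝ} {z : E} (hz : z ∉ tsupport χ) : mq χ b z = 0 := ibp_mq0 hz

theorem hq_slice {u : E → ℝ} {ζ η : ℂ} (hu : ContDiffAt ℝ 2 u (ζ, η)) :
    hp u (ζ, η) = lap (fun ζ' => u (ζ', η)) ζ ∧ hq u (ζ, η) = lap (fun η' => u (ζ, η')) η := by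
  have h1 := ibp_slice (u := u) (fun x => hasFDerivAt_prodMk_left (𝕜 := ℝ) x η) hu
  have h2 := ibp_slice (u := u) (fun x => hasFDerivAt_prodMk_right (𝕜 := ℝ) ζ x) hu
  exact ⟨(congrArg₂ (· + ·) (h1 1) (h1 Complex.I)).symm,
    (congrArg₂ (· + ·) (h2 1) (h2 Complex.I)).symm⟩

end Pool.Agent.P.MP_eeb913_an.U
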