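import Mathlib
import Pool.Agent.P.MP_eeb913_an.U.Basic
import Pool.Agent.P.MP_eeb913_an.U.MaIbp

/-!
Auxiliary estimates for the mixed Monge-Ampere bound: Tonelli on the bidisc and elementary
inequalities for logarithms.
-/

namespace Pool.Agent.P.MP_eeb913_an.U

open MeasureTheory Filter Metric Set
open scoped ENNReal NNReal Topology

theorem mm_ball (ρ : ℝ) : ball (0 : E) ρ = ball (0 : ℂ) ρ ×ˢ ball (0 : ℂ) ρ := by
  rw [ball_prod_same]; rfl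

theorem mm_mem {ρ : ℝ} {ζ η : ℂ} (h1 : ζ ∈ ball (0 : ℂ) ρ) (h2 : η ∈ ball (0 : ℂ) ρ) :
    ((ζ, η) : E) ∈ ball (0 : E) ρ := by
  rw [mm_ball]; exact ⟨h1, h2⟩

theorem mm_restrict (ρ : ℝ) : (volume : Measure E).restrict (ball (0 : E) ρ) =
    ((volume : Measure ℂ).restrict (ball 0 ρ)).prod ((volume : Measure ℂ).restrict (ball 0 ρ)) := by
  rw [mm_ball, Measure.prod_restrict, ← Measure.volume_eq_prod]

/-- The slice estimate with a uniform bound of the function. -/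
theorem mm_slice {r' r₁ C : ℝ} (hrr : r' ≤ r₁)
    (hC : ∀ u : ℂ → ℝ, ContDiffOn ℝ 2 u (ball 0 r₁) → (∀ z ∈ ball (0 : ℂ) r₁, 0 ≤ lap u z) →
      ∫⁻ z in ball (0 : ℂ) r', ENNReal.ofReal (lap u z) ≤
        ENNReal.ofReal C * ∫⁻ z in ball (0 : ℂ) r₁, ENNReal.ofReal |u z|)
    {v : ℂ → ℝ} (hv : ContDiffOn ℝ 2 v (ball 0 r₁)) (hl : ∀ z ∈ ball (0 : ℂ) r₁, 0 ≤ lap v z)
    {a β : ℝ≥0∞} (hβ : ∀ z ∈ ball (0 : ℂ) r₁, ENNReal.ofReal |v z| ≤ β) :
    ∫⁻ z in ball (0 : ℂ) r', a * ENNReal.ofReal (lap v z) ≤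
      ENNReal.ofReal C * volume (ball (0 : ℂ) r₁) * (a * β) := by
  have hm : AEMeasurable (fun z => ENNReal.ofReal (lap v z))
      ((volume : Measure ℂ).restrict (ball 0 r')) := by
    have h1 := ((continuousOn_lap isOpen_ball hv).1.mono (ball_subset_ball hrr)).aemeasurable
      (μ := (volume : Measure ℂ)) measurableSet_ball
    exact ENNReal.measurable_ofReal.comp_aemeasurable h1
  rw [lintegral_const_mul'' _ hm]
  have h2 : ∫⁻ z in ball (0 : ℂ) r₁, ENNReal.ofReal |v z| ≤ β * volume (ball (0 : ℂ) r₁) := by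
    rw [← setLIntegral_const]
    exact setLIntegral_mono' measurableSet_ball hβ
  calc a * ∫⁻ z in ball (0 : ℂ) r', ENNReal.ofReal (lap v z)
      ≤ a * (ENNReal.ofReal C * (β * volume (ball (0 : ℂ) r₁))) := by
        gcongr
        exact (hC v hv hl).trans (by gcongr)
    _ = _ := by ring

theorem mm_half_q {r' r₁ C : ℝ} (hrr : r' ≤ r₁)
    (hC : ∀ u : ℂ → ℝ, ContDiffOn ℝ 2 u (ball 0 r₁) → (∀ z ∈ ball (0 : ℂ) r₁, 0 ≤ lap u z) →
      ∫⁻ z in ball (0 : ℂ) r', ENNReal.ofReal (lap u z) ≤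
        ENNReal.ofReal C * ∫⁻ z in ball (0 : ℂ) r₁, ENNReal.ofReal |u z|)
    {u : E → ℝ} (hu : ∀ z ∈ ball (0 : E) r₁, ContDiffAt ℝ 2 u z)
    (h0 : ∀ z ∈ ball (0 : E) r₁, 0 ≤ hq u z) {a β : ℂ → ℝ≥0∞} (ha : Measurable a)
    (hb : Measurable β)
    (hβ : ∀ ζ ∈ ball (0 : ℂ) r₁, ∀ η ∈ ball (0 : ℂ) r₁, ENNReal.ofReal |u (ζ, η)| ≤ β ζ) :
    ∫⁻ z in ball (0 : E) r', a z.1 * ENNReal.ofReal (hq u z) ≤
      ENNReal.ofReal C * volume (ball (0 : ℂ) r₁) * ∫⁻ ζ in ball (0 : ℂ) r₁, a ζ * β ζ := by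
  rw [mm_restrict]
  refine (lintegral_prod_le _).trans ?_
  rw [← lintegral_const_mul (f := fun ζ => a ζ * β ζ) _ (ha.mul hb)]
  refine le_trans ?_ (lintegral_mono_set (ball_subset_ball hrr))
  refine setLIntegral_mono' measurableSet_ball fun ζ hζ => ?_
  have hζ' : ζ ∈ ball (0 : ℂ) r₁ := ball_subset_ball hrr hζ
  have hv : ContDiffOn ℝ 2 (fun η => u (ζ, η)) (ball 0 r₁) := fun η hη =>
    ((hu _ (mm_mem hζ' hη)).comp η (contDiffAt_const.prodMk contDiffAt_id)).contDiffWithinAt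
  have he : ∀ η ∈ ball (0 : ℂ) r₁, hq u (ζ, η) = lap (fun η => u (ζ, η)) η := fun η hη =>
    (hq_slice (hu _ (mm_mem hζ' hη))).2
  refine le_trans (le_of_eq ?_) (mm_slice hrr hC hv
    (fun η hη => he η hη ▸ h0 _ (mm_mem hζ' hη)) (a := a ζ) (hβ ζ hζ'))
  refine setLIntegral_congr_fun measurableSet_ball fun η hη => ?_
  simp only
  rw [he η (ball_subset_ball hrr hη)]

theorem mm_half_p {r' r₁ C : ℝ} (hrr : r' ≤ r₁)
    (hC : ∀ u : ℂ → ℝ, ContDiffOn ℝ 2 u (ball 0 r₁) → (∀ z ∈ ball (0 : ℂ) r₁, 0 ≤ lap u z) →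
      ∫⁻ z in ball (0 : ℂ) r', ENNReal.ofReal (lap u z) ≤
        ENNReal.ofReal C * ∫⁻ z in ball (0 : ℂ) r₁, ENNReal.ofReal |u z|)
    {u : E → ℝ} (hu : ∀ z ∈ ball (0 : E) r₁, ContDiffAt ℝ 2 u z)
    (h0 : ∀ z ∈ ball (0 : E) r₁, 0 ≤ hp u z) {a β : ℂ → ℝ≥0∞} (ha : Measurable a)
    (hb : Measurable β)
    (hβ : ∀ ζ ∈ ball (0 : ℂ) r₁, ∀ η ∈ ball (0 : ℂ) r₁, ENNReal.ofReal |u (ζ, η)| ≤ β η) :
    ∫⁻ z in ball (0 : E) r', a z.2 * ENNReal.ofReal (hp u z) ≤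
      ENNReal.ofReal C * volume (ball (0 : ℂ) r₁) * ∫⁻ ζ in ball (0 : ℂ) r₁, a ζ * β ζ := by
  rw [mm_restrict, ← lintegral_prod_swap]
  refine (lintegral_prod_le _).trans ?_
  rw [← lintegral_const_mul (f := fun ζ => a ζ * β ζ) _ (ha.mul hb)]
  refine le_trans ?_ (lintegral_mono_set (ball_subset_ball hrr))
  refine setLIntegral_mono' measurableSet_ball fun η hη => ?_
  have hη' : η ∈ ball (0 : ℂ) r₁ := ball_subset_ball hrr hη
  have hv : ContDiffOn ℝ 2 (fun ζ => u (ζ, η)) (ball 0 r₁) := fun ζ hζ =>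
    ((hu _ (mm_mem hζ hη')).comp ζ (contDiffAt_id.prodMk contDiffAt_const)).contDiffWithinAt
  have he : ∀ ζ ∈ ball (0 : ℂ) r₁, hp u (ζ, η) = lap (fun ζ => u (ζ, η)) ζ := fun ζ hζ =>
    (hq_slice (hu _ (mm_mem hζ hη'))).1
  refine le_trans (le_of_eq ?_) (mm_slice hrr hC hv
    (fun ζ hζ => he ζ hζ ▸ h0 _ (mm_mem hζ hη')) (a := a η) (fun ζ hζ => hβ ζ hζ η hη'))
  refine setLIntegral_congr_fun measurableSet_ball fun ζ hζ => ?_
  simp only [Prod.swap_prod_mk]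
  rw [he ζ (ball_subset_ball hrr hζ)]

/-- The bound for one boundary term. -/
theorem mm_term {r' r₁ C K : ℝ} (hrr : r' ≤ r₁) (hK : 0 ≤ K)
    (hC : ∀ u : ℂ → ℝ, ContDiffOn ℝ 2 u (ball 0 r₁) → (∀ z ∈ ball (0 : ℂ) r₁, 0 ≤ lap u z) →
      ∫⁻ z in ball (0 : ℂ) r', ENNReal.ofReal (lap u z) ≤
        ENNReal.ofReal C * ∫⁻ z in ball (0 : ℂ) r₁, ENNReal.ofReal |u z|)
    {χ : E → ℝ} (hs1 : tsupport χ ⊆ ball 0 r')
    (hχ : ∀ z ∈ tsupport χ, |hp χ z| ≤ K ∧ |hq χ z| ≤ K ∧ |hr χ z| ≤ K ∧ |hs χ z| ≤ K)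
    {w u : E → ℝ} (hu : ∀ z ∈ ball (0 : E) r₁, ContDiffAt ℝ 2 u z)
    (h0 : ∀ z ∈ ball (0 : E) r₁, 0 ≤ hp u z ∧ 0 ≤ hq u z ∧
      hr u z ^ 2 + hs u z ^ 2 ≤ hp u z * hq u z)
    {a₁ a₂ β₁ β₂ : ℂ → ℝ≥0∞} (ha₁ : Measurable a₁) (ha₂ : Measurable a₂)
    (hb₁ : Measurable β₁) (hb₂ : Measurable β₂)
    (hw : ∀ ζ ∈ ball (0 : ℂ) r₁, ∀ η ∈ ball (0 : ℂ) r₁,
      ENNReal.ofReal |w (ζ, η)| ≤ a₁ ζ ∧ ENNReal.ofReal |w (ζ, η)| ≤ a₂ η)
    (hβ : ∀ ζ ∈ ball (0 : ℂ) r₁, ∀ η ∈ ball (0 : ℂ) r₁,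
      ENNReal.ofReal |u (ζ, η)| ≤ β₁ ζ ∧ ENNReal.ofReal |u (ζ, η)| ≤ β₂ η) :
    ENNReal.ofReal (∫ z, w z * mq χ u z) ≤ ENNReal.ofReal (3 * K) *
      (ENNReal.ofReal C * volume (ball (0 : ℂ) r₁) *
        ((∫⁻ ζ in ball (0 : ℂ) r₁, a₁ ζ * β₁ ζ) + ∫⁻ ζ in ball (0 : ℂ) r₁, a₂ ζ * β₂ ζ)) := by
  have h1 : ENNReal.ofReal (∫ z, w z * mq χ u z) ≤ ∫⁻ z, ENNReal.ofReal |w z * mq χ u z| := by
    refine le_trans ?_ (le_trans (enorm_integral_le_lintegral_enorm (μ := (volume : Measure E))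
      (fun z => w z * mq χ u z)) (le_of_eq ?_))
    · rw [Real.enorm_eq_ofReal_abs]
      exact ENNReal.ofReal_le_ofReal (le_abs_self _)
    · simp only [Real.enorm_eq_ofReal_abs]
  have h2 : ∫⁻ z, ENNReal.ofReal |w z * mq χ u z| ≤ ∫⁻ z in ball (0 : E) r',
      ENNReal.ofReal (3 * K) *
        (a₁ z.1 * ENNReal.ofReal (hq u z) + a₂ z.2 * ENNReal.ofReal (hp u z)) := by
    rw [← lintegral_indicator measurableSet_ball]
    refine lintegral_mono fun z => ?_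
    by_cases hz : z ∈ tsupport χ
    · have hz1 := hs1 hz
      have hz2 : z ∈ ball (0 : E) r₁ := ball_subset_ball hrr hz1
      rw [indicator_of_mem hz1]
      obtain ⟨k1, k2, k3, k4⟩ := hχ z hz
      obtain ⟨b1, b2, b3⟩ := h0 z hz2
      have hm := mq_le k1 k2 k3 k4 b1 b2 b3
      have hz3 := hz2
      rw [mm_ball] at hz3
      obtain ⟨w1, w2⟩ := hw z.1 hz3.1 z.2 hz3.2
      calc ENNReal.ofReal |w z * mq χ u z|
          ≤ ENNReal.ofReal ((3 * K) * (|w z| * hq u z + |w z| * hp u z)) := by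
            apply ENNReal.ofReal_le_ofReal
            rw [abs_mul]
            calc |w z| * |mq χ u z| ≤ |w z| * (3 * K * (hp u z + hq u z)) := by gcongr
              _ = _ := by ring
        _ = ENNReal.ofReal (3 * K) * (ENNReal.ofReal |w z| * ENNReal.ofReal (hq u z) +
              ENNReal.ofReal |w z| * ENNReal.ofReal (hp u z)) := by
            rw [ENNReal.ofReal_mul (by positivity), ENNReal.ofReal_add (by positivity)
              (by positivity), ENNReal.ofReal_mul (abs_nonneg _),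
              ENNReal.ofReal_mul (abs_nonneg _)]
        _ ≤ _ := by gcongr
    · rw [mq_eq_zero hz]; simp
  have hU : ContDiffOn ℝ 2 u (ball 0 r₁) := fun z hz => (hu z hz).contDiffWithinAt
  have hm : AEMeasurable (fun z : E => a₁ z.1 * ENNReal.ofReal (hq u z))
      ((volume : Measure E).restrict (ball 0 r')) := by
    have h1 := ((continuousOn_hess isOpen_ball hU).2.1.mono (ball_subset_ball hrr)).aemeasurable
      (μ := (volume : Measure E)) measurableSet_ball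
    exact ((ha₁.comp measurable_fst).aemeasurable).mul
      (ENNReal.measurable_ofReal.comp_aemeasurable h1)
  refine h1.trans (h2.trans ?_)
  rw [lintegral_const_mul' _ _ ENNReal.ofReal_ne_top, lintegral_add_left' hm, mul_add
    (ENNReal.ofReal C * volume (ball (0 : ℂ) r₁))]
  gcongr
  · exact mm_half_q hrr hC hu (fun z hz => (h0 z hz).2.1) ha₁ hb₁
      fun ζ hζ η hη => (hβ ζ hζ η hη).1
  · exact mm_half_p hrr hC hu (fun z hz => (h0 z hz).1) ha₂ hb₂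
      fun ζ hζ η hη => (hβ ζ hζ η hη).2

/-- The integral of the product of the two majorants. -/
theorem mm_prod {S : Set ℂ} {c m G V : ℝ} (hc : 0 ≤ c) (hm : 0 ≤ m) (hG : 0 ≤ G) (hV0 : 0 ≤ V)
    (hV : volume S = ENNReal.ofReal V) {g : ℂ → ℝ≥0∞}
    (h2 : ∫⁻ ζ in S, g ζ ^ 2 ≤ ENNReal.ofReal (G ^ 2)) :
    ∫⁻ ζ in S, (ENNReal.ofReal c + 2 * g ζ) * (ENNReal.ofReal m + 2 * g ζ) ≤
      ENNReal.ofReal ((c * m + (c + m) * (G + 1)) * V + ((c + m) / (G + 1) + 4) * G ^ 2) := by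
  have hP : 0 ≤ c * m + (c + m) * (G + 1) := by positivity
  have hQ : 0 < (c + m) / (G + 1) + 4 := by positivity
  have h1 : ∀ x : ℝ≥0∞, (ENNReal.ofReal c + 2 * x) * (ENNReal.ofReal m + 2 * x) ≤
      ENNReal.ofReal (c * m + (c + m) * (G + 1)) +
        ENNReal.ofReal ((c + m) / (G + 1) + 4) * x ^ 2 := by
    intro x
    rcases eq_or_ne x ⊤ with rfl | hx
    · have : ENNReal.ofReal ((c + m) / (G + 1) + 4) * (⊤ : ℝ≥0∞) ^ 2 = ⊤ := by
        rw [ENNReal.top_pow (by norm_num), ENNReal.mul_top (by simpa using hQ)]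
      rw [this]; simp
    · obtain ⟨y, hy, rfl⟩ : ∃ y : ℝ, 0 ≤ y ∧ x = ENNReal.ofReal y :=
        ⟨x.toReal, ENNReal.toReal_nonneg, (ENNReal.ofReal_toReal hx).symm⟩
      have e2 : (2 : ℝ≥0∞) * ENNReal.ofReal y = ENNReal.ofReal (2 * y) := by
        rw [ENNReal.ofReal_mul (by norm_num)]; simp
      rw [e2, ← ENNReal.ofReal_add hc (by positivity), ← ENNReal.ofReal_add hm (by positivity),
        ← ENNReal.ofReal_mul (by positivity), ← ENNReal.ofReal_pow hy,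
        ← ENNReal.ofReal_mul hQ.le, ← ENNReal.ofReal_add hP (by positivity)]
      apply ENNReal.ofReal_le_ofReal
      have hG1 : 0 < G + 1 := by positivity
      have h3 : 2 * y ≤ (G + 1) + y ^ 2 / (G + 1) := by
        rw [← sub_nonneg]
        have : (G + 1) + y ^ 2 / (G + 1) - 2 * y = (G + 1 - y) ^ 2 / (G + 1) := by
          field_simp; ring
        rw [this]; positivity
      have h4 : (c + m) * (2 * y) ≤ (c + m) * ((G + 1) + y ^ 2 / (G + 1)) := by gcongr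
      have h5 : ((c + m) / (G + 1) + 4) * y ^ 2 = (c + m) * (y ^ 2 / (G + 1)) + 4 * y ^ 2 := by
        ring
      rw [h5]; nlinarith
  refine (lintegral_mono fun ζ => h1 (g ζ)).trans ?_
  rw [lintegral_add_left measurable_const, setLIntegral_const,
    lintegral_const_mul' _ _ ENNReal.ofReal_ne_top, hV,
    ENNReal.ofReal_add (p := (c * m + (c + m) * (G + 1)) * V) (by positivity) (by positivity),
    ENNReal.ofReal_mul hP, ENNReal.ofReal_mul hQ.le]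
  gcongr

theorem mm_nsq_le (z : E) : ‖z‖ ^ 2 ≤ nsq z ∧ nsq z ≤ 2 * ‖z‖ ^ 2 := by
  have h1 : ‖z.1‖ ≤ ‖z‖ := norm_fst_le z
  have h2 : ‖z.2‖ ≤ ‖z‖ := norm_snd_le z
  have h3 := norm_nonneg z.1
  have h4 := norm_nonneg z.2
  unfold nsq
  constructor
  · rw [Prod.norm_def]
    rcases le_total ‖z.1‖ ‖z.2‖ with h | h
    · rw [max_eq_right h]; nlinarith
    · rw [max_eq_left h]; nlinarith
  · nlinarith

theorem mm_nsq_nonneg (z : E) : 0 ≤ nsq z := by unfold nsq; positivity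

/-- Comparison of the two smooth potentials. -/
theorem mm_cmp {Φ Ψ : E} {R : ℝ} (hR : 0 ≤ R) (h : ‖Φ - Ψ‖ ≤ max R (‖Ψ‖ / 2)) :
    |Real.log (1 + nsq Ψ) - Real.log (1 + nsq Φ)| ≤ Real.log (16 + 16 * R ^ 2) := by
  have h0 : ‖Φ - Ψ‖ ≤ R + ‖Ψ‖ / 2 :=
    h.trans (max_le (by linarith [norm_nonneg Ψ]) (by linarith))
  have h1 : ‖Φ‖ ≤ 3 / 2 * ‖Ψ‖ + R := by
    have := norm_add_le (Φ - Ψ) Ψ
    rw [sub_add_cancel] at this
    linarith
  have h2 : ‖Ψ‖ ≤ 2 * ‖Φ‖ + 2 * R := by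
    have := norm_sub_le Φ (Φ - Ψ)
    rw [sub_sub_cancel] at this
    linarith
  obtain ⟨a1, a2⟩ := mm_nsq_le Φ
  obtain ⟨b1, b2⟩ := mm_nsq_le Ψ
  have p1 := norm_nonneg Φ
  have p2 := norm_nonneg Ψ
  have n1 := mm_nsq_nonneg Φ
  have n2 := mm_nsq_nonneg Ψ
  have s1 : ‖Φ‖ ^ 2 ≤ (3 / 2 * ‖Ψ‖ + R) ^ 2 := by gcongr
  have s2 : ‖Ψ‖ ^ 2 ≤ (2 * ‖Φ‖ + 2 * R) ^ 2 := by gcongr
  have hR2 : 0 ≤ R ^ 2 := by positivity
  have e1 : 1 + nsq Φ ≤ (16 + 16 * R ^ 2) * (1 + nsq Ψ) := by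
    have : nsq Φ ≤ 9 * nsq Ψ + 4 * R ^ 2 := by nlinarith [sq_nonneg (3 / 2 * ‖Ψ‖ - R)]
    nlinarith [mul_nonneg hR2 n2]
  have e2 : 1 + nsq Ψ ≤ (16 + 16 * R ^ 2) * (1 + nsq Φ) := by
    have : nsq Ψ ≤ 16 * nsq Φ + 16 * R ^ 2 := by nlinarith [sq_nonneg (‖Φ‖ - R)]
    nlinarith [mul_nonneg hR2 n1]
  have l1 := Real.log_le_log (by positivity) e1
  have l2 := Real.log_le_log (by positivity) e2
  rw [Real.log_mul (by positivity) (by positivity)] at l1 l2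
  rw [abs_le]; constructor <;> linarith

/-- The smooth potential is bounded by the growth of the discs. -/
theorem mm_up {Φ : E} {M : ℝ} (hM : 0 ≤ M) (h : ‖Φ‖ ≤ 2 * Real.exp M) :
    0 ≤ Real.log (1 + nsq Φ) ∧ Real.log (1 + nsq Φ) ≤ 4 * (1 + M) := by
  have n1 := mm_nsq_nonneg Φ
  refine ⟨Real.log_nonneg (by linarith), ?_⟩
  have h1 : 1 ≤ Real.exp M := Real.one_le_exp hM
  have h2 : ‖Φ‖ ^ 2 ≤ (2 * Real.exp M) ^ 2 := by gcongr
  have h3 : 1 + nsq Φ ≤ (3 * Real.exp M) ^ 2 := by nlinarith [(mm_nsq_le Φ).2]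
  have h4 := Real.log_le_log (by positivity) h3
  rw [Real.log_pow, Real.log_mul (by norm_num) (by positivity), Real.log_exp] at h4
  have h5 : Real.log 3 ≤ 3 - 1 := Real.log_le_sub_one_of_pos (by norm_num)
  push_cast at h4
  linarith

/-- The difference between the smooth and the singular potential. -/
theorem mm_sing {Φ : E} (h : Φ ≠ 0) :
    0 ≤ Real.log (1 + nsq Φ) - Real.log (0 + nsq Φ) ∧
      Real.log (1 + nsq Φ) - Real.log (0 + nsq Φ) ≤ Real.log 2 + 2 * max (-Real.log ‖Φ‖) 0 ∧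
      -Real.log (0 + nsq Φ) ≤ 2 * max (-Real.log ‖Φ‖) 0 := by
  have p : 0 < ‖Φ‖ := norm_pos_iff.mpr h
  obtain ⟨a1, -⟩ := mm_nsq_le Φ
  have n : 0 < nsq Φ := lt_of_lt_of_le (by positivity) a1
  rw [zero_add]
  have l1 : 2 * Real.log ‖Φ‖ ≤ Real.log (nsq Φ) := by
    have := Real.log_le_log (by positivity) a1
    rw [Real.log_pow] at this
    push_cast at this
    exact this
  have m1 := le_max_left (-Real.log ‖Φ‖) 0
  have m2 := le_max_right (-Real.log ‖Φ‖) 0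
  refine ⟨sub_nonneg.mpr (Real.log_le_log n (by linarith)), ?_, by linarith⟩
  rcases le_total 1 (nsq Φ) with h1 | h1
  · have := Real.log_le_log (by positivity) (show 1 + nsq Φ ≤ 2 * nsq Φ by linarith)
    rw [Real.log_mul (by norm_num) n.ne'] at this
    linarith
  · have := Real.log_le_log (by positivity) (show 1 + nsq Φ ≤ 2 by linarith)
    linarith

theorem mm_ofReal {x c t : ℝ} {g : ℝ≥0∞} (hc : 0 ≤ c) (hx : x ≤ c + 2 * max t 0)
    (hg : ENNReal.ofReal t ≤ g) : ENNReal.ofReal x ≤ ENNReal.ofReal c + 2 * g := by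
  have h1 : ENNReal.ofReal (max t 0) = ENNReal.ofReal t := by
    rcases le_total t 0 with h | h
    · rw [max_eq_right h, ENNReal.ofReal_zero, ENNReal.ofReal_of_nonpos h]
    · rw [max_eq_left h]
  refine (ENNReal.ofReal_le_ofReal hx).trans ?_
  rw [ENNReal.ofReal_add hc (by positivity), ENNReal.ofReal_mul (by norm_num), h1]
  simp only [ENNReal.ofReal_ofNat]
  gcongr

end Pool.Agent.P.MP_eeb913_an.U
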