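import Mathlib
import Pool.Agent.P.MP_eeb913_an.U.Basic
import Pool.Agent.P.MP_eeb913_an.U.MaIbp
import Pool.Agent.P.MP_eeb913_an.U.MaHess
import Pool.Agent.P.MP_eeb913_an.U.MaMainAux

/-!
Two disjoint holomorphic discs cannot both carry much area in a bounded region.

Sketch. U = ball r₁ ×ˢ ball r₁, r < r' < r₁, χ (ζ, η) = χ₀ ζ χ₀ η with a bump χ₀ = 1 on ball r and
tsupport in ball r', K a bound for its second derivatives. u' = log (1 + |A.1|² + |B.2|²) (hess_log for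
(A.1, 0) and (0, - B.2)), u₁ = log (1 + nsq (A - B)), u₀ = log (nsq (A - B)). mq u₀ u₀ = 0 and
mq u' u' = 32 |A.1'|² |B.2'|² / (1 + |A.1|² + |B.2|²)³, so by Tonelli
32 (1 + 2 R'²)⁻³ area * area ≤ ∫ χ mq u' u'. By mq_sub and integral_mq,
∫ χ mq u' u' = ∫ (u' - u₁) (mq χ u' + mq χ u₁) + ∫ (u₁ - u₀) (mq χ u₁ + mq χ u₀).
With Ψ = (A.1, - B.2): ‖A - B - Ψ‖ ≤ ‖Ψ‖ / 2 + R, so |u' - u₁| ≤ C₁ (R). 0 ≤ u₁ - u₀ ≤ log 2 + 2 g where
g is g₁ ζ or g₂ η. 0 ≤ u', u₁ ≤ C₂ (1 + M) and |u₀| ≤ C₂ (1 + M) + 2 g. By mq_le each term is at most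
3 K ∫⁻ over ball r' ×ˢ ball r' of |w| (hp u + hq u); for hq use the bound of |w| depending on ζ only,
Tonelli, hq_slice and slice_bound in η; symmetrically for hp. Finally ∫⁻ g ≤ (vol + G²) or by
g ≤ (G + 1) / 2 + g² / (2 (G + 1)): ∫⁻ g ≤ C₃ (1 + G).
-/

namespace Pool.Agent.P.MP_eeb913_an.U

open MeasureTheory Filter Metric Set
open scoped ENNReal NNReal Topology

theorem mm_analytic {A : ℂ → E} {r₁ : ℝ} (hA : DifferentiableOn ℂ A (ball 0 r₁)) {ζ : ℂ}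
    (hζ : ζ ∈ ball (0 : ℂ) r₁) : AnalyticAt ℂ A ζ :=
  hA.analyticAt (isOpen_ball.mem_nhds hζ)

theorem mm_measurableSet {a : ℂ → ℂ} {r R' : ℝ} (ha : ContinuousOn a (ball 0 r)) :
    MeasurableSet (ball (0 : ℂ) r ∩ {ζ | ‖a ζ‖ ≤ R'}) := by
  have h1 : IsOpen (ball (0 : ℂ) r ∩ (fun ζ => ‖a ζ‖) ⁻¹' Ioi R') :=
    ha.norm.isOpen_inter_preimage isOpen_ball isOpen_Ioi
  have h2 : ball (0 : ℂ) r ∩ {ζ | ‖a ζ‖ ≤ R'} =
      ball (0 : ℂ) r \ (ball (0 : ℂ) r ∩ (fun ζ => ‖a ζ‖) ⁻¹' Ioi R') := by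
    ext ζ
    simp only [mem_inter_iff, mem_ofPred_eq, Set.mem_sdiff, mem_preimage, mem_Ioi, not_and, not_lt]
    tauto
  rw [h2]
  exact measurableSet_ball.diff h1.measurableSet

/-- The product of the areas is bounded by the Monge-Ampere mass of the split potential. -/
theorem mm_lower {r r₁ R' : ℝ} (h1 : r ≤ r₁) {a b : ℂ → ℂ}
    (ha : DifferentiableOn ℂ a (ball 0 r₁)) (hb : DifferentiableOn ℂ b (ball 0 r₁))
    {F : E → ℝ} (hF : Integrable F) (hF0 : ∀ z, 0 ≤ F z)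
    (hF1 : ∀ ζ ∈ ball (0 : ℂ) r, ∀ η ∈ ball (0 : ℂ) r,
      F (ζ, η) = 32 * 1 * ‖deriv a ζ * deriv b η‖ ^ 2 / (1 + (‖a ζ‖ ^ 2 + ‖b η‖ ^ 2)) ^ 3) :
    area a (ball 0 r ∩ {ζ | ‖a ζ‖ ≤ R'}) * area b (ball 0 r ∩ {η | ‖b η‖ ≤ R'}) ≤
      ENNReal.ofReal ((1 + 2 * R' ^ 2) ^ 3 / 32) * ENNReal.ofReal (∫ z, F z) := by
  have m1 := mm_measurableSet (R' := R') (ha.continuousOn.mono (ball_subset_ball h1))
  have m2 := mm_measurableSet (R' := R') (hb.continuousOn.mono (ball_subset_ball h1))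
  have md : ∀ f : ℂ → ℂ, Measurable fun ζ => ENNReal.ofReal (‖deriv f ζ‖ ^ 2) := fun f =>
    ENNReal.measurable_ofReal.comp ((measurable_deriv f).norm.pow_const 2)
  unfold area
  rw [← lintegral_prod_mul (md a).aemeasurable (md b).aemeasurable, Measure.prod_restrict,
    ← Measure.volume_eq_prod, ofReal_integral_eq_lintegral_ofReal hF (ae_of_all _ hF0),
    ← lintegral_const_mul' _ _ ENNReal.ofReal_ne_top]
  refine le_trans ?_ (setLIntegral_le_lintegral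
    ((ball 0 r ∩ {ζ | ‖a ζ‖ ≤ R'}) ×ˢ (ball 0 r ∩ {η | ‖b η‖ ≤ R'})) _)
  refine setLIntegral_mono' (m1.prod m2) fun z hz => ?_
  obtain ⟨⟨z1, z2⟩, z3, z4⟩ := hz
  rw [← ENNReal.ofReal_mul (by positivity), ← ENNReal.ofReal_mul (by positivity)]
  apply ENNReal.ofReal_le_ofReal
  have e := hF1 z.1 z1 z.2 z3
  simp only [Prod.mk.eta] at e
  rw [e, norm_mul, mul_pow]
  have z2' : ‖a z.1‖ ≤ R' := z2
  have z4' : ‖b z.2‖ ≤ R' := z4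
  have s1 : ‖a z.1‖ ^ 2 ≤ R' ^ 2 := by gcongr
  have s2 : ‖b z.2‖ ^ 2 ≤ R' ^ 2 := by gcongr
  have hN : 0 < (1 + (‖a z.1‖ ^ 2 + ‖b z.2‖ ^ 2)) ^ 3 := by positivity
  have hle : (1 + (‖a z.1‖ ^ 2 + ‖b z.2‖ ^ 2)) ^ 3 ≤ (1 + 2 * R' ^ 2) ^ 3 := by
    gcongr; linarith
  have hP : 0 ≤ ‖deriv a z.1‖ ^ 2 * ‖deriv b z.2‖ ^ 2 := by positivity
  calc ‖deriv a z.1‖ ^ 2 * ‖deriv b z.2‖ ^ 2
      = (1 + (‖a z.1‖ ^ 2 + ‖b z.2‖ ^ 2)) ^ 3 / 32 * (32 * 1 *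
          (‖deriv a z.1‖ ^ 2 * ‖deriv b z.2‖ ^ 2) / (1 + (‖a z.1‖ ^ 2 + ‖b z.2‖ ^ 2)) ^ 3) := by
        field_simp
    _ ≤ _ := by gcongr

/-- Splitting of the Monge-Ampere mass into four boundary terms. -/
theorem mm_split {χ u' u₁ u₀ : E → ℝ} {U : Set E} (hU : IsOpen U) (hχ : ContDiff ℝ 2 χ)
    (hc : HasCompactSupport χ) (hs1 : tsupport χ ⊆ U) (h' : ∀ z ∈ U, ContDiffAt ℝ 3 u' z)
    (h₁ : ∀ z ∈ U, ContDiffAt ℝ 3 u₁ z) (h₀ : ∀ z ∈ U, ContDiffAt ℝ 3 u₀ z)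
    (hz : ∀ z ∈ U, mq u₀ u₀ z = 0) :
    ∫ z, χ z * mq u' u' z = (∫ z, (u' z - u₁ z) * mq χ u' z) + (∫ z, (u' z - u₁ z) * mq χ u₁ z) +
      (∫ z, (u₁ z - u₀ z) * mq χ u₁ z) + ∫ z, (u₁ z - u₀ z) * mq χ u₀ z := by
  have d3 : ∀ {u : E → ℝ}, (∀ z ∈ U, ContDiffAt ℝ 3 u z) → ContDiffOn ℝ 3 u U :=
    fun h z hz => (h z hz).contDiffWithinAt
  have d2 : ∀ {u : E → ℝ}, (∀ z ∈ U, ContDiffAt ℝ 3 u z) → ∀ z ∈ U, ContDiffAt ℝ 2 u z :=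
    fun h z hz => (h z hz).of_le (by norm_num)
  have dw : ∀ {u v : E → ℝ}, (∀ z ∈ U, ContDiffAt ℝ 3 u z) → (∀ z ∈ U, ContDiffAt ℝ 3 v z) →
      ContDiffOn ℝ 2 (fun z => u z - v z) U :=
    fun h h' z hz => ((d2 h z hz).sub (d2 h' z hz)).contDiffWithinAt
  obtain ⟨i1, -, e1⟩ := integral_mq hU hχ hc hs1 (dw h' h₁) (d3 h')
  obtain ⟨i2, -, e2⟩ := integral_mq hU hχ hc hs1 (dw h' h₁) (d3 h₁)
  obtain ⟨i3, -, e3⟩ := integral_mq hU hχ hc hs1 (dw h₁ h₀) (d3 h₁)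
  obtain ⟨i4, -, e4⟩ := integral_mq hU hχ hc hs1 (dw h₁ h₀) (d3 h₀)
  have s1 := integral_add i1 i2
  have s2 := integral_add (i1.add i2) i3
  have s3 := integral_add ((i1.add i2).add i3) i4
  simp only [Pi.add_apply] at s2 s3
  rw [← e1, ← e2, ← e3, ← e4, ← s1, ← s2, ← s3]
  refine integral_congr_ae (ae_of_all _ fun z => ?_)
  by_cases hz1 : z ∈ U
  · have a1 := mq_sub (d2 h' z hz1) (d2 h₁ z hz1)
    have a2 := mq_sub (d2 h₁ z hz1) (d2 h₀ z hz1)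
    have a3 := hz z hz1
    simp only
    have : mq u' u' z = mq (fun w => u' w - u₁ w) u' z + mq (fun w => u' w - u₁ w) u₁ z +
        mq (fun w => u₁ w - u₀ w) u₁ z + mq (fun w => u₁ w - u₀ w) u₀ z := by linarith
    rw [this]; ring
  · have : χ z = 0 := image_eq_zero_of_notMem_tsupport fun h => hz1 (hs1 h)
    simp [this]

theorem mm_const {c M G V : ℝ} (hc : 0 ≤ c) (hM : 0 ≤ M) (hG : 0 ≤ G) (hV : 0 ≤ V) :
    (c * (4 * (1 + M)) + (c + 4 * (1 + M)) * (G + 1)) * V +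
        ((c + 4 * (1 + M)) / (G + 1) + 4) * G ^ 2 ≤
      (c * 4 * V + (c + 4) * V + (c + 4) + 4) * ((1 + G) * (1 + M + G)) := by
  have hG1 : 0 < G + 1 := by positivity
  have p0 : 1 + M ≤ (1 + G) * (1 + M + G) := by nlinarith [mul_nonneg hG hM, mul_nonneg hG hG]
  have p1 : (1 + M) * (G + 1) ≤ (1 + G) * (1 + M + G) := by nlinarith [mul_nonneg hG hG]
  have p2 : G ^ 2 ≤ (1 + G) * (1 + M + G) := by nlinarith [mul_nonneg hG hM]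
  have p3 : c + 4 * (1 + M) ≤ (c + 4) * (1 + M) := by nlinarith [mul_nonneg hc hM]
  have p4 : G ^ 2 / (G + 1) ≤ G + 1 := by
    rw [div_le_iff₀ hG1]; nlinarith
  have t1 : c * (4 * (1 + M)) * V ≤ c * 4 * V * ((1 + G) * (1 + M + G)) := by
    calc c * (4 * (1 + M)) * V = c * 4 * V * (1 + M) := by ring
      _ ≤ _ := by gcongr
  have t2 : (c + 4 * (1 + M)) * (G + 1) * V ≤ (c + 4) * V * ((1 + G) * (1 + M + G)) := by
    calc (c + 4 * (1 + M)) * (G + 1) * V ≤ (c + 4) * (1 + M) * (G + 1) * V := by gcongr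
      _ = (c + 4) * V * ((1 + M) * (G + 1)) := by ring
      _ ≤ _ := by gcongr
  have t3 : (c + 4 * (1 + M)) / (G + 1) * G ^ 2 ≤ (c + 4) * ((1 + G) * (1 + M + G)) := by
    calc (c + 4 * (1 + M)) / (G + 1) * G ^ 2 = (c + 4 * (1 + M)) * (G ^ 2 / (G + 1)) := by ring
      _ ≤ (c + 4) * (1 + M) * (G + 1) := by gcongr
      _ = (c + 4) * ((1 + M) * (G + 1)) := by ring
      _ ≤ _ := by gcongr
  nlinarith

theorem ma_main {r r₁ R R' : ℝ} (h0 : 0 < r) (h1 : r < r₁) (hR : 0 ≤ R) :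
    ∃ C : ℝ, 0 ≤ C ∧ ∀ (A B : ℂ → E) (M G : ℝ) (g₁ g₂ : ℂ → ℝ≥0∞), 0 ≤ M → 0 ≤ G →
      DifferentiableOn ℂ A (ball 0 r₁) → DifferentiableOn ℂ B (ball 0 r₁) →
      (∀ ζ ∈ ball (0 : ℂ) r₁, ‖(A ζ).2‖ ≤ max R (‖(A ζ).1‖ / 2) ∧ Real.log (1 + ‖A ζ‖) ≤ M) →
      (∀ η ∈ ball (0 : ℂ) r₁, ‖(B η).1‖ ≤ max R (‖(B η).2‖ / 2) ∧ Real.log (1 + ‖B η‖) ≤ M) →
      Measurable g₁ → Measurable g₂ →
      (∀ ζ ∈ ball (0 : ℂ) r₁, ∀ η ∈ ball (0 : ℂ) r₁, A ζ ≠ B η ∧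
        ENNReal.ofReal (-Real.log ‖A ζ - B η‖) ≤ g₁ ζ ∧
        ENNReal.ofReal (-Real.log ‖A ζ - B η‖) ≤ g₂ η) →
      ∫⁻ ζ in ball (0 : ℂ) r₁, g₁ ζ ^ 2 ≤ ENNReal.ofReal (G ^ 2) →
      ∫⁻ η in ball (0 : ℂ) r₁, g₂ η ^ 2 ≤ ENNReal.ofReal (G ^ 2) →
      area (fun ζ => (A ζ).1) (ball 0 r ∩ {ζ | ‖(A ζ).1‖ ≤ R'}) *
          area (fun η => (B η).2) (ball 0 r ∩ {η | ‖(B η).2‖ ≤ R'}) ≤
        ENNReal.ofReal (C * (1 + G) * (1 + M + G)) := by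
  have hr1 : r < (2 * r + r₁) / 3 := by linarith
  have hr2 : (2 * r + r₁) / 3 < (r + 2 * r₁) / 3 := by linarith
  have hr3 : (r + 2 * r₁) / 3 < r₁ := by linarith
  obtain ⟨C, hC0, hC⟩ := slice_bound (r' := (r + 2 * r₁) / 3) (r₁ := r₁) (by linarith) hr3
  let χ₀ : ContDiffBump (0 : E) := ⟨r, (2 * r + r₁) / 3, h0, hr1⟩
  obtain ⟨χ, hχ2, hc, hs1, hχ0, hχ1⟩ : ∃ χ : E → ℝ, ContDiff ℝ 2 χ ∧ HasCompactSupport χ ∧
      tsupport χ ⊆ ball 0 ((r + 2 * r₁) / 3) ∧ (∀ z, 0 ≤ χ z) ∧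
        ∀ z ∈ ball (0 : E) r, χ z = 1 := by
    refine ⟨χ₀, χ₀.contDiff, χ₀.hasCompactSupport, ?_, fun z => χ₀.nonneg,
      fun z hz => χ₀.one_of_mem_closedBall (ball_subset_closedBall hz)⟩
    rw [χ₀.tsupport_eq]
    exact closedBall_subset_ball hr2
  have hs2 : tsupport χ ⊆ ball 0 r₁ := hs1.trans (ball_subset_ball hr3.le)
  obtain ⟨K, hK0, hK⟩ : ∃ K : ℝ, 0 ≤ K ∧ ∀ z ∈ tsupport χ,
      |hp χ z| ≤ K ∧ |hq χ z| ≤ K ∧ |hr χ z| ≤ K ∧ |hs χ z| ≤ K := by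
    obtain ⟨c1, c2, c3, c4⟩ := continuousOn_hess isOpen_univ hχ2.contDiffOn
    have hcont : ContinuousOn (fun z => |hp χ z| + |hq χ z| + |hr χ z| + |hs χ z|)
        (tsupport χ) :=
      (((c1.abs.add c2.abs).add c3.abs).add c4.abs).mono (subset_univ _)
    obtain ⟨K, hK⟩ := hc.isCompact.exists_bound_of_continuousOn hcont
    refine ⟨max K 0, le_max_right _ _, fun z hz => ?_⟩
    have h2 := (le_abs_self _).trans ((hK z hz).trans (le_max_left K 0))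
    have a1 := abs_nonneg (hp χ z)
    have a2 := abs_nonneg (hq χ z)
    have a3 := abs_nonneg (hr χ z)
    have a4 := abs_nonneg (hs χ z)
    refine ⟨?_, ?_, ?_, ?_⟩ <;> linarith
  obtain ⟨V, hV0, hV⟩ : ∃ V : ℝ, 0 ≤ V ∧ volume (ball (0 : ℂ) r₁) = ENNReal.ofReal V :=
    ⟨_, ENNReal.toReal_nonneg, (ENNReal.ofReal_toReal measure_ball_lt_top.ne).symm⟩
  obtain ⟨c, hcd⟩ : ∃ c : ℝ, c = Real.log (16 + 16 * R ^ 2) := ⟨_, rfl⟩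
  have hc2 : Real.log 2 ≤ c := by
    rw [hcd]; exact Real.log_le_log (by norm_num) (by nlinarith [sq_nonneg R])
  have hc0 : 0 ≤ c := (Real.log_nonneg (by norm_num)).trans hc2
  obtain ⟨C₄, hC₄⟩ : ∃ C₄ : ℝ, C₄ = c * 4 * V + (c + 4) * V + (c + 4) + 4 := ⟨_, rfl⟩
  have hC₄0 : 0 ≤ C₄ := by rw [hC₄]; positivity
  refine ⟨(1 + 2 * R' ^ 2) ^ 3 / 32 * (4 * (3 * K * (C * V * (2 * C₄)))), by positivity, ?_⟩
  intro A B M G g₁ g₂ hM hG hA hB bA bB mg₁ mg₂ hg hG₁ hG₂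
  -- the three potentials
  let A' : ℂ → E := fun ζ => ((A ζ).1, 0)
  let B' : ℂ → E := fun η => (0, (B η).2)
  have hA' : DifferentiableOn ℂ A' (ball 0 r₁) := hA.fst.prodMk (differentiableOn_const _)
  have hB' : DifferentiableOn ℂ B' (ball 0 r₁) := (differentiableOn_const _).prodMk hB.snd
  let u' : E → ℝ := fun z => Real.log (1 + nsq (A' z.1 - B' z.2))
  let u₁ : E → ℝ := fun z => Real.log (1 + nsq (A z.1 - B z.2))
  let u₀ : E → ℝ := fun z => Real.log (0 + nsq (A z.1 - B z.2))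
  have hmem : ∀ z ∈ ball (0 : E) r₁, z.1 ∈ ball (0 : ℂ) r₁ ∧ z.2 ∈ ball (0 : ℂ) r₁ := by
    intro z hz; rw [mm_ball] at hz; exact hz
  have H' := fun z (hz : z ∈ ball (0 : E) r₁) => hess_log (mm_analytic hA' (hmem z hz).1)
    (mm_analytic hB' (hmem z hz).2) (c := 1) zero_le_one
    (by linarith [mm_nsq_nonneg (A' z.1 - B' z.2)])
  have H₁ := fun z (hz : z ∈ ball (0 : E) r₁) => hess_log (mm_analytic hA (hmem z hz).1)
    (mm_analytic hB (hmem z hz).2) (c := 1) zero_le_one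
    (by linarith [mm_nsq_nonneg (A z.1 - B z.2)])
  have hne : ∀ ζ ∈ ball (0 : ℂ) r₁, ∀ η ∈ ball (0 : ℂ) r₁, A ζ - B η ≠ 0 :=
    fun ζ hζ η hη => sub_ne_zero.mpr (hg ζ hζ η hη).1
  have H₀ := fun z (hz : z ∈ ball (0 : E) r₁) => hess_log (mm_analytic hA (hmem z hz).1)
    (mm_analytic hB (hmem z hz).2) (c := 0) le_rfl (by
      have h2 := norm_pos_iff.mpr (hne _ (hmem z hz).1 _ (hmem z hz).2)
      have h3 := (mm_nsq_le (A z.1 - B z.2)).1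
      have h4 : 0 < ‖A z.1 - B z.2‖ ^ 2 := by positivity
      linarith)
  simp only [Prod.mk.eta] at H' H₁ H₀
  have d' : ∀ z ∈ ball (0 : E) r₁, ContDiffAt ℝ 3 u' z := fun z hz => (H' z hz).1
  have d₁ : ∀ z ∈ ball (0 : E) r₁, ContDiffAt ℝ 3 u₁ z := fun z hz => (H₁ z hz).1
  have d₀ : ∀ z ∈ ball (0 : E) r₁, ContDiffAt ℝ 3 u₀ z := fun z hz => (H₀ z hz).1
  have d2 : ∀ {u : E → ℝ}, (∀ z ∈ ball (0 : E) r₁, ContDiffAt ℝ 3 u z) →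
      ∀ z ∈ ball (0 : E) r₁, ContDiffAt ℝ 2 u z :=
    fun h z hz => (h z hz).of_le (by norm_num)
  have hsplit := mm_split isOpen_ball hχ2 hc hs2 d' d₁ d₀ (fun z hz => by
    have := (H₀ z hz).2.2.2.2
    rw [mul_zero, zero_mul, zero_div] at this
    exact this)
  -- lower bound
  have hint : Integrable fun z => χ z * mq u' u' z :=
    (integral_mq isOpen_ball hχ2 hc hs2 (fun z hz => (d2 d' z hz).contDiffWithinAt)
      (fun z hz => (d' z hz).contDiffWithinAt)).1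
  have hlow := mm_lower (R' := R') h1.le hA.fst hB.snd hint (fun z => by
      by_cases hz : z ∈ ball (0 : E) r₁
      · refine mul_nonneg (hχ0 z) ?_
        have h2 := (H' z hz).2.2.2.2
        have h3 := mm_nsq_nonneg (A' z.1 - B' z.2)
        exact h2 ▸ (by positivity)
      · have : χ z = 0 := image_eq_zero_of_notMem_tsupport fun h => hz (hs2 h)
        simp [this]) (fun ζ hζ η hη => by
      have hζ' : ζ ∈ ball (0 : ℂ) r₁ := ball_subset_ball h1.le hζ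
      have hη' : η ∈ ball (0 : ℂ) r₁ := ball_subset_ball h1.le hη
      have h2 := (H' (ζ, η) (mm_mem hζ' hη')).2.2.2.2
      have e1 : deriv A' ζ = (deriv (fun ζ => (A ζ).1) ζ, 0) :=
        (((hA.fst.differentiableAt (isOpen_ball.mem_nhds hζ')).hasDerivAt).prodMk
          (hasDerivAt_const ζ (0 : ℂ))).deriv
      have e2 : deriv B' η = (0, deriv (fun η => (B η).2) η) :=
        ((hasDerivAt_const η (0 : ℂ)).prodMk
          ((hB.snd.differentiableAt (isOpen_ball.mem_nhds hη')).hasDerivAt)).deriv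
      have e3 : nsq (A' ζ - B' η) = ‖(A ζ).1‖ ^ 2 + ‖(B η).2‖ ^ 2 := by
        simp [nsq, A', B']
      simp only [e1, e2, e3, mul_zero, sub_zero] at h2
      rw [hχ1 _ (mm_mem hζ hη), one_mul]
      exact h2)
  -- pointwise bounds
  have nA : ∀ ζ ∈ ball (0 : ℂ) r₁, ‖A ζ‖ ≤ Real.exp M := fun ζ hζ => by
    have h2 := (Real.log_le_iff_le_exp (by positivity)).mp (bA ζ hζ).2
    linarith
  have nB : ∀ η ∈ ball (0 : ℂ) r₁, ‖B η‖ ≤ Real.exp M := fun η hη => by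
    have h2 := (Real.log_le_iff_le_exp (by positivity)).mp (bB η hη).2
    linarith
  have nΨ : ∀ ζ η, ‖A' ζ - B' η‖ = max ‖(A ζ).1‖ ‖(B η).2‖ := fun ζ η => by
    simp [A', B', Prod.norm_def]
  have up' : ∀ ζ ∈ ball (0 : ℂ) r₁, ∀ η ∈ ball (0 : ℂ) r₁,
      0 ≤ u' (ζ, η) ∧ u' (ζ, η) ≤ 4 * (1 + M) := fun ζ hζ η hη => by
    refine mm_up hM ?_
    have h2 := (norm_fst_le (A ζ)).trans (nA ζ hζ)
    have h3 := (norm_snd_le (B η)).trans (nB η hη)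
    have h4 := Real.exp_pos M
    rw [nΨ]
    exact max_le (by linarith) (by linarith)
  have up₁ : ∀ ζ ∈ ball (0 : ℂ) r₁, ∀ η ∈ ball (0 : ℂ) r₁,
      0 ≤ u₁ (ζ, η) ∧ u₁ (ζ, η) ≤ 4 * (1 + M) := fun ζ hζ η hη => by
    refine mm_up hM ?_
    have h2 := norm_sub_le (A ζ) (B η)
    linarith [nA ζ hζ, nB η hη]
  have cmp : ∀ ζ ∈ ball (0 : ℂ) r₁, ∀ η ∈ ball (0 : ℂ) r₁, |u' (ζ, η) - u₁ (ζ, η)| ≤ c :=
    fun ζ hζ η hη => by
      rw [hcd]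
      refine mm_cmp hR ?_
      have e : A ζ - B η - (A' ζ - B' η) = (-(B η).1, (A ζ).2) := by
        ext <;> simp [A', B']
      rw [e, nΨ, Prod.norm_def, norm_neg]
      refine max_le ((bB η hη).1.trans ?_) ((bA ζ hζ).1.trans ?_)
      · gcongr; exact le_max_right _ _
      · gcongr; exact le_max_left _ _
  have sing := fun ζ (hζ : ζ ∈ ball (0 : ℂ) r₁) η (hη : η ∈ ball (0 : ℂ) r₁) =>
    mm_sing (hne ζ hζ η hη)
  have hm0 : 0 ≤ 4 * (1 + M) := by positivity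
  have both : ∀ ζ ∈ ball (0 : ℂ) r₁, ∀ η ∈ ball (0 : ℂ) r₁, ∀ x k : ℝ, 0 ≤ k →
      x ≤ k + 2 * max (-Real.log ‖A ζ - B η‖) 0 →
      ENNReal.ofReal x ≤ ENNReal.ofReal k + 2 * g₁ ζ ∧
        ENNReal.ofReal x ≤ ENNReal.ofReal k + 2 * g₂ η := fun ζ hζ η hη x k hk hx =>
    ⟨mm_ofReal hk hx (hg ζ hζ η hη).2.1, mm_ofReal hk hx (hg ζ hζ η hη).2.2⟩
  have mx : ∀ t : ℝ, 0 ≤ 2 * max t 0 := fun t => by positivity
  have w1 := fun ζ (hζ : ζ ∈ ball (0 : ℂ) r₁) η (hη : η ∈ ball (0 : ℂ) r₁) =>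
    both ζ hζ η hη |u' (ζ, η) - u₁ (ζ, η)| c hc0
      (by linarith [cmp ζ hζ η hη, mx (-Real.log ‖A ζ - B η‖)])
  have w0 := fun ζ (hζ : ζ ∈ ball (0 : ℂ) r₁) η (hη : η ∈ ball (0 : ℂ) r₁) =>
    both ζ hζ η hη |u₁ (ζ, η) - u₀ (ζ, η)| c hc0 (by
      obtain ⟨s1, s2, -⟩ := sing ζ hζ η hη
      rw [abs_of_nonneg s1]
      exact s2.trans (by linarith))
  have b' := fun ζ (hζ : ζ ∈ ball (0 : ℂ) r₁) η (hη : η ∈ ball (0 : ℂ) r₁) =>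
    both ζ hζ η hη |u' (ζ, η)| _ hm0 (by
      rw [abs_of_nonneg (up' ζ hζ η hη).1]
      linarith [(up' ζ hζ η hη).2, mx (-Real.log ‖A ζ - B η‖)])
  have b₁ := fun ζ (hζ : ζ ∈ ball (0 : ℂ) r₁) η (hη : η ∈ ball (0 : ℂ) r₁) =>
    both ζ hζ η hη |u₁ (ζ, η)| _ hm0 (by
      rw [abs_of_nonneg (up₁ ζ hζ η hη).1]
      linarith [(up₁ ζ hζ η hη).2, mx (-Real.log ‖A ζ - B η‖)])
  have b₀ := fun ζ (hζ : ζ ∈ ball (0 : ℂ) r₁) η (hη : η ∈ ball (0 : ℂ) r₁) =>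
    both ζ hζ η hη |u₀ (ζ, η)| _ hm0 (by
      obtain ⟨s1, -, s3⟩ := sing ζ hζ η hη
      have h2 := (up₁ ζ hζ η hη).2
      have h3 := mx (-Real.log ‖A ζ - B η‖)
      have s1' : 0 ≤ u₁ (ζ, η) - u₀ (ζ, η) := s1
      have s3' : -u₀ (ζ, η) ≤ 2 * max (-Real.log ‖A ζ - B η‖) 0 := s3
      rw [abs_le]; constructor <;> linarith)
  have mm : ∀ (k : ℝ) {g : ℂ → ℝ≥0∞}, Measurable g →
      Measurable fun ζ => ENNReal.ofReal k + 2 * g ζ :=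
    fun k g hg => measurable_const.add (measurable_const.mul hg)
  have J : ∀ {g : ℂ → ℝ≥0∞}, ∫⁻ ζ in ball (0 : ℂ) r₁, g ζ ^ 2 ≤ ENNReal.ofReal (G ^ 2) →
      ∫⁻ ζ in ball (0 : ℂ) r₁, (ENNReal.ofReal c + 2 * g ζ) *
        (ENNReal.ofReal (4 * (1 + M)) + 2 * g ζ) ≤
          ENNReal.ofReal (C₄ * ((1 + G) * (1 + M + G))) := fun h =>
    (mm_prod hc0 hm0 hG hV0 hV h).trans
      (ENNReal.ofReal_le_ofReal (hC₄ ▸ mm_const hc0 hM hG hV0))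
  have T : ∀ {w u : E → ℝ}, (∀ z ∈ ball (0 : E) r₁, ContDiffAt ℝ 2 u z) →
      (∀ z ∈ ball (0 : E) r₁, 0 ≤ hp u z ∧ 0 ≤ hq u z ∧
        hr u z ^ 2 + hs u z ^ 2 ≤ hp u z * hq u z) →
      (∀ ζ ∈ ball (0 : ℂ) r₁, ∀ η ∈ ball (0 : ℂ) r₁,
        ENNReal.ofReal |w (ζ, η)| ≤ ENNReal.ofReal c + 2 * g₁ ζ ∧
          ENNReal.ofReal |w (ζ, η)| ≤ ENNReal.ofReal c + 2 * g₂ η) →
      (∀ ζ ∈ ball (0 : ℂ) r₁, ∀ η ∈ ball (0 : ℂ) r₁,
        ENNReal.ofReal |u (ζ, η)| ≤ ENNReal.ofReal (4 * (1 + M)) + 2 * g₁ ζ ∧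
          ENNReal.ofReal |u (ζ, η)| ≤ ENNReal.ofReal (4 * (1 + M)) + 2 * g₂ η) →
      ∫ z, w z * mq χ u z ≤ 3 * K * (C * V * (2 * C₄)) * ((1 + G) * (1 + M + G)) := by
    intro w u hu hpos hw hβ
    have h2 := mm_term hr3.le hK0 hC hs1 hK hu hpos (mm c mg₁) (mm c mg₂) (mm _ mg₁) (mm _ mg₂)
      hw hβ
    have hX : 0 ≤ C₄ * ((1 + G) * (1 + M + G)) := by positivity
    have h3 : ENNReal.ofReal (∫ z, w z * mq χ u z) ≤
        ENNReal.ofReal (3 * K * (C * V * (2 * C₄)) * ((1 + G) * (1 + M + G))) := by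
      refine h2.trans ?_
      calc _ ≤ ENNReal.ofReal (3 * K) * (ENNReal.ofReal C * volume (ball (0 : ℂ) r₁) *
            (ENNReal.ofReal (C₄ * ((1 + G) * (1 + M + G))) +
              ENNReal.ofReal (C₄ * ((1 + G) * (1 + M + G))))) := by
            gcongr
            · exact J hG₁
            · exact J hG₂
        _ = _ := by
            rw [hV, ← ENNReal.ofReal_add hX hX, ← ENNReal.ofReal_mul hC0,
              ← ENNReal.ofReal_mul (by positivity), ← ENNReal.ofReal_mul (by positivity)]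
            congr 1; ring
    exact (ENNReal.ofReal_le_ofReal_iff (by positivity)).mp h3
  have t1 := T (w := fun z => u' z - u₁ z) (d2 d') (fun z hz => ⟨(H' z hz).2.1,
    (H' z hz).2.2.1, (H' z hz).2.2.2.1⟩) w1 b'
  have t2 := T (w := fun z => u' z - u₁ z) (d2 d₁) (fun z hz => ⟨(H₁ z hz).2.1,
    (H₁ z hz).2.2.1, (H₁ z hz).2.2.2.1⟩) w1 b₁
  have t3 := T (w := fun z => u₁ z - u₀ z) (d2 d₁) (fun z hz => ⟨(H₁ z hz).2.1,
    (H₁ z hz).2.2.1, (H₁ z hz).2.2.2.1⟩) w0 b₁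
  have t4 := T (w := fun z => u₁ z - u₀ z) (d2 d₀) (fun z hz => ⟨(H₀ z hz).2.1,
    (H₀ z hz).2.2.1, (H₀ z hz).2.2.2.1⟩) w0 b₀
  refine hlow.trans ?_
  rw [← ENNReal.ofReal_mul (by positivity)]
  apply ENNReal.ofReal_le_ofReal
  rw [hsplit]
  calc _ ≤ (1 + 2 * R' ^ 2) ^ 3 / 32 *
        (4 * (3 * K * (C * V * (2 * C₄)) * ((1 + G) * (1 + M + G)))) := by
        gcongr; linarith
    _ = _ := by ring

end Pool.Agent.P.MP_eeb913_an.U
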