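import Mathlib
import Pool.Agent.P.MP_eeb913_an.U.Basic

/-!
An isolated zero splits into simple zeros under a nonvanishing exponentially small perturbation.

Sketch. δ is analytic on the ball and not identically 0, so near ζ₀, δ = (ζ - ζ₀)^m h with m ≥ 1, h analytic,
h ζ₀ ≠ 0 (AnalyticAt.exists_eventuallyEq_pow_smul_nonzero_iff, identity theorem). Fix ρ' ≤ ρ / 4 with
c₁ ≤ |h| and |h'| ≤ K₁ on closedBall ζ₀ ρ'. For large k, δ - e k has a zero ζ k in closedBall ζ₀ ρ'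
(DiffContOnCl.ball_subset_image_closedBall, or the maximum principle for its inverse), ζ k ≠ ζ₀,
c₁ |ζ k - ζ₀|^m ≤ 2 κ^k. A holomorphic logarithm E k of e k exists on the ball
(DifferentiableOn.isExactOn_ball applied to (e k)' / e k); exp (E k / (k + 1)) has modulus in
[exp (-C), 2], so the Cauchy estimate gives |(e k)' / e k| ≤ K₂ (k + 1) on ball ζ₀ (ρ / 2). If the derivatives
agreed at ζ k then m / |ζ k - ζ₀| ≤ K₁ / c₁ + K₂ (k + 1), so c₁ ≤ 2 κ^k (K₁ / c₁ + K₂ (k + 1))^m, false for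
large k.
-/

namespace Pool.Agent.P.MP_eeb913_an.U

open MeasureTheory Filter Metric Set
open scoped ENNReal NNReal Topology

private theorem tr_log {e : ℂ → ℂ} {ζ₀ : ℂ} {ρ : ℝ} (hρ : 0 < ρ)
    (he : DifferentiableOn ℂ e (ball ζ₀ ρ)) (hne : ∀ ζ ∈ ball ζ₀ ρ, e ζ ≠ 0) :
    ∃ F : ℂ → ℂ, ∀ ζ ∈ ball ζ₀ ρ, HasDerivAt F (deriv e ζ / e ζ) ζ ∧ Complex.exp (F ζ) = e ζ := by
  have hd : DifferentiableOn ℂ (fun ζ => deriv e ζ / e ζ) (ball ζ₀ ρ) :=
    (he.deriv isOpen_ball).div he hne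
  obtain ⟨F, hF0, hF⟩ := hd.isExactOn_ball.with_val_at ζ₀ (Complex.log (e ζ₀))
  refine ⟨F, fun ζ hζ => ⟨hF ζ hζ, ?_⟩⟩
  have hG : ∀ z ∈ ball ζ₀ ρ, HasDerivAt (fun z => Complex.exp (F z) / e z) 0 z := fun z hz => by
    have h1 := (he.differentiableAt (isOpen_ball.mem_nhds hz)).hasDerivAt
    have h2 := (hF z hz).cexp.div h1 (hne z hz)
    refine h2.congr_deriv ?_
    have := hne z hz
    field_simp
    ring
  have hc := isOpen_ball.is_const_of_deriv_eq_zero (convex_ball ζ₀ ρ).isPreconnected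
    (fun z hz => (hG z hz).differentiableAt.differentiableWithinAt)
    (fun z hz => (hG z hz).deriv) hζ (mem_ball_self hρ)
  simp only [hF0, Complex.exp_log (hne ζ₀ (mem_ball_self hρ)),
    div_self (hne ζ₀ (mem_ball_self hρ))] at hc
  exact (div_eq_one_iff_eq (hne ζ hζ)).1 hc

private theorem tr_logderiv {e : ℂ → ℂ} {ζ₀ : ℂ} {ρ C N : ℝ} (hρ : 0 < ρ) (hN : 1 ≤ N)
    (he : DifferentiableOn ℂ e (ball ζ₀ ρ))
    (hb : ∀ ζ ∈ ball ζ₀ ρ, Real.exp (-(C * N)) ≤ ‖e ζ‖ ∧ ‖e ζ‖ ≤ 2) {ζ : ℂ}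
    (hζ : ζ ∈ closedBall ζ₀ (ρ / 4)) :
    ‖deriv e ζ / e ζ‖ ≤ 2 / (ρ / 2) * Real.exp C * N := by
  have hne : ∀ z ∈ ball ζ₀ ρ, e z ≠ 0 := fun z hz =>
    norm_pos_iff.1 ((Real.exp_pos _).trans_le (hb z hz).1)
  obtain ⟨F, hF⟩ := tr_log hρ he hne
  have hN0 : 0 < N := by linarith
  have hsub : closedBall ζ (ρ / 2) ⊆ ball ζ₀ ρ := fun z hz => by
    rw [mem_closedBall] at hz hζ
    rw [mem_ball]
    linarith [dist_triangle z ζ ζ₀]
  have hG : ∀ z ∈ ball ζ₀ ρ, HasDerivAt (fun z => Complex.exp (F z / N))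
      (Complex.exp (F z / N) * (deriv e z / e z / N)) z := fun z hz =>
    ((hF z hz).1.div_const (N : ℂ)).cexp
  have hnorm : ∀ z ∈ ball ζ₀ ρ, Real.exp (-C) ≤ ‖Complex.exp (F z / N)‖ ∧
      ‖Complex.exp (F z / N)‖ ≤ 2 := fun z hz => by
    have h1 := hb z hz
    rw [← (hF z hz).2, Complex.norm_exp] at h1
    rw [Complex.norm_exp, Complex.div_ofReal_re]
    constructor
    · rw [Real.exp_le_exp, le_div_iff₀ hN0]
      linarith [Real.exp_le_exp.1 h1.1]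
    · rcases le_total (F z).re 0 with h | h
      · exact (Real.exp_le_one_iff.2 (div_nonpos_of_nonpos_of_nonneg h hN0.le)).trans one_le_two
      · exact (Real.exp_le_exp.2 (div_le_self h hN)).trans h1.2
  have hζb : ζ ∈ ball ζ₀ ρ := hsub (mem_closedBall_self (by linarith))
  have hdc : DiffContOnCl ℂ (fun z => Complex.exp (F z / N)) (ball ζ (ρ / 2)) := by
    refine DifferentiableOn.diffContOnCl fun z hz => ?_
    exact (hG z (hsub (closure_ball_subset_closedBall hz))).differentiableAt.differentiableWithinAt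
  have h2 := Complex.norm_deriv_le_of_forall_mem_sphere_norm_le (by linarith : 0 < ρ / 2) hdc
    fun z hz => (hnorm z (hsub (sphere_subset_closedBall hz))).2
  rw [(hG ζ hζb).deriv, norm_mul, norm_div, Complex.norm_real, Real.norm_eq_abs,
    abs_of_pos hN0] at h2
  have h3 := (hnorm ζ hζb).1
  have h4 : Real.exp (-C) * (‖deriv e ζ / e ζ‖ / N) ≤ 2 / (ρ / 2) :=
    (mul_le_mul_of_nonneg_right h3 (by positivity)).trans h2
  rw [Real.exp_neg, inv_mul_le_iff₀ (Real.exp_pos C), div_le_iff₀ hN0] at h4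
  linarith

private theorem tr_zero {δ e : ℂ → ℂ} {ζ₀ : ℂ} {r η : ℝ} (hr : 0 < r)
    (hδ : DifferentiableOn ℂ δ (closedBall ζ₀ r)) (he : DifferentiableOn ℂ e (closedBall ζ₀ r))
    (hz : δ ζ₀ = 0) (h1 : ∀ z ∈ sphere ζ₀ r, 2 * η < ‖δ z‖)
    (h2 : ∀ z ∈ closedBall ζ₀ r, ‖e z‖ ≤ η) : ∃ z ∈ closedBall ζ₀ r, δ z = e z := by
  by_contra hcon
  push Not at hcon
  have hne : ∀ z ∈ closedBall ζ₀ r, δ z - e z ≠ 0 := fun z hz => sub_ne_zero.2 (hcon z hz)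
  have hd : DiffContOnCl ℂ (fun z => (δ z - e z)⁻¹) (ball ζ₀ r) := by
    refine DifferentiableOn.diffContOnCl ?_
    rw [closure_ball ζ₀ hr.ne']
    exact (hδ.sub he).inv hne
  obtain ⟨w, hw, hmax⟩ := Complex.exists_mem_frontier_isMaxOn_norm isBounded_ball
    (nonempty_ball.2 hr) hd
  rw [frontier_ball ζ₀ hr.ne'] at hw
  have h3 : ‖(δ ζ₀ - e ζ₀)⁻¹‖ ≤ ‖(δ w - e w)⁻¹‖ := hmax (subset_closure (mem_ball_self hr))
  have hw' := sphere_subset_closedBall hw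
  rw [norm_inv, norm_inv, inv_le_inv₀ (norm_pos_iff.2 (hne _ (mem_closedBall_self hr.le)))
    (norm_pos_iff.2 (hne _ hw')), hz, zero_sub, norm_neg] at h3
  have h4 := norm_sub_norm_le (δ w) (e w)
  linarith [h1 w hw, h2 w hw', h2 ζ₀ (mem_closedBall_self hr.le)]

theorem exists_simple {δ : ℂ → ℂ} {e : ℕ → ℂ → ℂ} {ζ₀ : ℂ} {ρ κ C : ℝ} (hρ : 0 < ρ) (h0 : 0 < κ)
    (h1 : κ < 1) (hδ : DifferentiableOn ℂ δ (ball ζ₀ ρ)) (hz : δ ζ₀ = 0)
    (hne : ∃ ζ ∈ ball ζ₀ ρ, δ ζ ≠ 0) (he : ∀ k, DifferentiableOn ℂ (e k) (ball ζ₀ ρ))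
    (hb : ∀ k : ℕ, ∀ ζ ∈ ball ζ₀ ρ, Real.exp (-(C * (k + 1))) ≤ ‖e k ζ‖ ∧ ‖e k ζ‖ ≤ 2 * κ ^ k) :
    ∃ k, ∃ ζ ∈ ball ζ₀ ρ, δ ζ = e k ζ ∧ deriv δ ζ ≠ deriv (e k) ζ := by
  have han := hδ.analyticOnNhd isOpen_ball
  have hnz : ¬∀ᶠ z in 𝓝 ζ₀, δ z = 0 := fun h => by
    obtain ⟨ζ, hζ, hζ'⟩ := hne
    exact hζ' (han.eqOn_zero_of_preconnected_of_eventuallyEq_zero
      (convex_ball ζ₀ ρ).isPreconnected (mem_ball_self hρ) h hζ)
  obtain ⟨m, h, hh, hh0, hfac⟩ :=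
    (han ζ₀ (mem_ball_self hρ)).exists_eventuallyEq_pow_smul_nonzero_iff.2 hnz
  have hm : m ≠ 0 := by
    rintro rfl
    have := hfac.self_of_nhds
    rw [hz, pow_zero, one_smul] at this
    exact hh0 this.symm
  set c : ℝ := ‖h ζ₀‖ / 2 with hc
  have hc0 : 0 < c := half_pos (norm_pos_iff.2 hh0)
  set K : ℝ := ‖deriv h ζ₀‖ + 1 with hK
  have hK0 : 0 < K := by positivity
  have e1 : ∀ᶠ z in 𝓝 ζ₀, c < ‖h z‖ :=
    continuousAt_const.eventually_lt hh.continuousAt.norm (half_lt_self (norm_pos_iff.2 hh0))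
  have e2 : ∀ᶠ z in 𝓝 ζ₀, ‖deriv h z‖ < K :=
    hh.deriv.continuousAt.norm.eventually_lt continuousAt_const (lt_add_one _)
  have e3 := hh.eventually_analyticAt
  obtain ⟨r₀, hr₀, hball⟩ := Metric.eventually_nhds_iff_ball.1
    (hfac.eventually_nhds.and (e1.and (e2.and e3)))
  set r : ℝ := min (r₀ / 2) (ρ / 4) with hr
  have hr0 : 0 < r := lt_min (by linarith) (by linarith)
  have s1 : closedBall ζ₀ r ⊆ ball ζ₀ r₀ :=
    closedBall_subset_ball ((min_le_left _ _).trans_lt (by linarith))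
  have s2 : closedBall ζ₀ r ⊆ closedBall ζ₀ (ρ / 4) :=
    closedBall_subset_closedBall (min_le_right _ _)
  have s3 : closedBall ζ₀ r ⊆ ball ζ₀ ρ :=
    closedBall_subset_ball ((min_le_right _ _).trans_lt (by linarith))
  have hlow : ∀ z ∈ closedBall ζ₀ r, c * ‖z - ζ₀‖ ^ m ≤ ‖δ z‖ := fun z hz => by
    obtain ⟨a1, a2, -, -⟩ := hball z (s1 hz)
    rw [a1.self_of_nhds, norm_smul, norm_pow, mul_comm]
    exact mul_le_mul_of_nonneg_left a2.le (by positivity)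
  set A : ℝ := K / c + 2 / (ρ / 2) * Real.exp C with hA
  have hA0 : 0 < A := by positivity
  have t1 : Tendsto (fun k : ℕ => 2 * (2 * κ ^ k)) atTop (𝓝 (2 * (2 * 0))) :=
    ((tendsto_pow_atTop_nhds_zero_of_lt_one h0.le h1).const_mul 2).const_mul 2
  have t2 : Tendsto (fun k : ℕ => 2 * A ^ m / κ * (((k + 1 : ℕ) : ℝ) ^ m * κ ^ (k + 1))) atTop
      (𝓝 (2 * A ^ m / κ * 0)) :=
    ((tendsto_pow_const_mul_const_pow_of_abs_lt_one m (by rwa [abs_of_pos h0])).comp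
      (tendsto_add_atTop_nat 1)).const_mul _
  obtain ⟨k, hk1, hk2⟩ := ((t1.eventually_lt_const (show 2 * (2 * (0 : ℝ)) < c * r ^ m by
    rw [mul_zero, mul_zero]; positivity)).and (t2.eventually_lt_const
      (show 2 * A ^ m / κ * 0 < c by rwa [mul_zero]))).exists
  obtain ⟨ζ, hζ, hζe⟩ := tr_zero hr0 (hδ.mono s3) ((he k).mono s3) hz
    (fun z hz => by
      have := hlow z (sphere_subset_closedBall hz)
      rw [mem_sphere_iff_norm.1 hz] at this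
      exact hk1.trans_le this)
    (fun z hz => (hb k z (s3 hz)).2)
  refine ⟨k, ζ, s3 hζ, hζe, fun hder => ?_⟩
  have hN : (1 : ℝ) ≤ k + 1 := by linarith [Nat.cast_nonneg (α := ℝ) k]
  have hL := tr_logderiv hρ hN (he k) (fun z hz => ⟨(hb k z hz).1, (hb k z hz).2.trans (by
    linarith [pow_le_one₀ (n := k) h0.le h1.le])⟩) (s2 hζ)
  obtain ⟨a1, a2, a3, a4⟩ := hball ζ (s1 hζ)
  have hen : e k ζ ≠ 0 := norm_pos_iff.1 ((Real.exp_pos _).trans_le (hb k ζ (s3 hζ)).1)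
  have hζ0 : ζ - ζ₀ ≠ 0 := fun h => hen (by rw [← hζe, sub_eq_zero.1 h, hz])
  have hhζ : h ζ ≠ 0 := norm_pos_iff.1 (hc0.trans a2)
  have hd : HasDerivAt δ (m * (ζ - ζ₀) ^ (m - 1) * 1 * h ζ + (ζ - ζ₀) ^ m * deriv h ζ) ζ :=
    ((((hasDerivAt_id ζ).sub_const ζ₀).pow m).mul a4.differentiableAt.hasDerivAt).congr_of_eventuallyEq
      a1
  have hq : (m : ℂ) = (ζ - ζ₀) * (deriv (e k) ζ / e k ζ - deriv h ζ / h ζ) := by
    rw [← hder, ← hζe, hd.deriv, a1.self_of_nhds, smul_eq_mul]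
    obtain ⟨n, rfl⟩ := Nat.exists_eq_succ_of_ne_zero hm
    simp only [Nat.succ_eq_add_one, Nat.add_sub_cancel]
    field_simp
    ring
  have hq2 : ‖deriv h ζ / h ζ‖ ≤ K / c := by
    rw [norm_div]
    exact div_le_div₀ hK0.le a3.le hc0 a2.le
  have hq3 : 1 ≤ ‖ζ - ζ₀‖ * (A * (k + 1)) := by
    have b1 : (1 : ℝ) ≤ ‖(m : ℂ)‖ := by
      rw [Complex.norm_natCast]; exact_mod_cast Nat.one_le_iff_ne_zero.2 hm
    rw [hq, norm_mul] at b1
    refine b1.trans (mul_le_mul_of_nonneg_left ((norm_sub_le _ _).trans ?_) (norm_nonneg _))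
    have b2 : K / c ≤ K / c * (k + 1) := le_mul_of_one_le_right (by positivity) hN
    rw [hA, add_mul]
    linarith
  have hq4 : c ≤ c * ‖ζ - ζ₀‖ ^ m * (A * (k + 1)) ^ m := by
    rw [mul_assoc, ← mul_pow]
    exact le_mul_of_one_le_right hc0.le (one_le_pow₀ hq3)
  have hq5 : c * ‖ζ - ζ₀‖ ^ m ≤ 2 * κ ^ k :=
    (hlow ζ hζ).trans (by rw [hζe]; exact (hb k ζ (s3 hζ)).2)
  have hq6 := hq4.trans (mul_le_mul_of_nonneg_right hq5 (by positivity))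
  have hq7 : 2 * κ ^ k * (A * (k + 1)) ^ m =
      2 * A ^ m / κ * (((k + 1 : ℕ) : ℝ) ^ m * κ ^ (k + 1)) := by
    push_cast
    rw [mul_pow, pow_succ κ]
    field_simp
  linarith

end Pool.Agent.P.MP_eeb913_an.U
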