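import Mathlib
import Pool.Agent.P.MP_eeb913_an.U.Basic
import Pool.Agent.P.MP_eeb913_an.U.LeafArea
import Pool.Agent.P.MP_eeb913_an.U.MaMain
import Pool.Agent.P.MP_eeb913_an.U.Average
import Pool.Agent.P.MP_eeb913_an.U.Transverse
import Pool.Agent.P.MP_eeb913_an.U.Ift

/-!
Any two horseshoes of a Henon-like map are connected by a crossing.
-/

namespace Pool.Agent.P.MP_eeb913_an.U

open MeasureTheory Filter Metric Set
open scoped ENNReal NNReal Topology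

theorem Chart.sw_sw (χ : Chart) : χ.sw.sw = χ := by
  obtain ⟨c, A⟩ := χ
  simp only [Chart.sw, Prod.swap_swap, Chart.mk.injEq, true_and]
  ext z <;> simp

theorem near_bounded {R : ℝ} {a b : E} (hR : 1 ≤ R) (ha : ‖a.2‖ ≤ max R (‖a.1‖ / 2))
    (hb : ‖b.1‖ ≤ max R (‖b.2‖ / 2)) (hab : ‖a - b‖ ≤ 1) : ‖a‖ ≤ R + 2 ∧ ‖b‖ ≤ R + 2 := by
  have h1 : ‖a.1‖ ≤ ‖b.1‖ + 1 := by
    have := norm_fst_le (a - b)
    have h := norm_sub_norm_le a.1 b.1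
    simp only [Prod.fst_sub] at this
    linarith
  have h2 : ‖b.2‖ ≤ ‖a.2‖ + 1 := by
    have := norm_snd_le (a - b)
    have h := norm_sub_norm_le b.2 a.2
    rw [norm_sub_rev] at h
    simp only [Prod.snd_sub] at this
    linarith
  rw [Prod.norm_def, Prod.norm_def, max_le_iff, max_le_iff]
  rcases le_max_iff.1 ha with ha | ha <;> rcases le_max_iff.1 hb with hb | hb <;>
    refine ⟨⟨?_, ?_⟩, ?_, ?_⟩ <;> linarith

theorem exists_large {c₁ c₂ Cm Cg C' C : ℝ} {d : ℕ} (hd : 2 ≤ d) (h1 : 0 < c₁) (h2 : 0 < c₂)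
    (hm : 0 ≤ Cm) (hg : 0 ≤ Cg) (h' : 0 ≤ C') (hC : 0 ≤ C) (n₀ : ℕ) :
    ∃ n : ℕ, n₀ ≤ n ∧ 0 < n ∧
      Cm * (1 + C' * (1 + (C * n + Real.log 2))) *
          (1 + Cg * d ^ n + C' * (1 + (C * n + Real.log 2))) <
        (c₁ * d ^ n / n) * (c₂ * d ^ n / n) := by
  set K : ℝ := 1 + C' * (2 + C) with hK
  have hK0 : 0 < K := by positivity
  have ht : Tendsto (fun n : ℕ => (n : ℝ) ^ 3 / (2 : ℝ) ^ n) atTop (𝓝 0) :=
    tendsto_pow_const_div_const_pow_of_one_lt 3 one_lt_two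
  have hpos : 0 < c₁ * c₂ / (Cm * K * (K + Cg) + 1) := by positivity
  obtain ⟨n, hn⟩ := ((ht.eventually (gt_mem_nhds hpos)).and
    ((eventually_ge_atTop n₀).and (eventually_ge_atTop 1))).exists
  obtain ⟨hn1, hn2, hn3⟩ := hn
  refine ⟨n, hn2, hn3, ?_⟩
  have hn' : (1 : ℝ) ≤ n := by exact_mod_cast hn3
  have hl : Real.log 2 ≤ 1 := by
    have := Real.log_le_sub_one_of_pos (show (0 : ℝ) < 2 by norm_num); linarith
  have hl0 : 0 ≤ Real.log 2 := Real.log_nonneg (by norm_num)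
  have h2d : (2 : ℝ) ^ n ≤ (d : ℝ) ^ n :=
    pow_le_pow_left₀ (by norm_num) (by exact_mod_cast hd) n
  have hn2' : (n : ℝ) ≤ (2 : ℝ) ^ n := by exact_mod_cast Nat.lt_two_pow_self.le
  have hdn : (0 : ℝ) < (d : ℝ) ^ n := lt_of_lt_of_le (by positivity) h2d
  have hG : 1 + C' * (1 + (C * n + Real.log 2)) ≤ K * n := by
    have : 1 + (C * n + Real.log 2) ≤ (2 + C) * n := by nlinarith
    have := mul_le_mul_of_nonneg_left this h'
    rw [hK]; nlinarith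
  have hG0 : 0 ≤ 1 + C' * (1 + (C * n + Real.log 2)) := by positivity
  have hM : 1 + Cg * d ^ n + C' * (1 + (C * n + Real.log 2)) ≤ (K + Cg) * d ^ n := by
    have : K * n ≤ K * d ^ n := mul_le_mul_of_nonneg_left (hn2'.trans h2d) hK0.le
    nlinarith
  have hM0 : 0 ≤ 1 + Cg * d ^ n + C' * (1 + (C * n + Real.log 2)) := by positivity
  have h3 : Cm * (1 + C' * (1 + (C * n + Real.log 2))) *
      (1 + Cg * d ^ n + C' * (1 + (C * n + Real.log 2))) ≤ Cm * (K * n) * ((K + Cg) * d ^ n) :=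
    mul_le_mul (mul_le_mul_of_nonneg_left hG hm) hM hM0 (by positivity)
  refine h3.trans_lt ?_
  have hn0 : (0 : ℝ) < n := by linarith
  rw [div_lt_div_iff₀ (by positivity) (by positivity)] at hn1
  have h4 : (n : ℝ) ^ 3 * (Cm * K * (K + Cg)) < c₁ * c₂ * d ^ n := by
    have : c₁ * c₂ * 2 ^ n ≤ c₁ * c₂ * d ^ n := mul_le_mul_of_nonneg_left h2d (by positivity)
    have h5 : (0 : ℝ) < (n : ℝ) ^ 3 := by positivity
    nlinarith
  rw [div_mul_div_comm, lt_div_iff₀ (by positivity)]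
  have : Cm * (K * n) * ((K + Cg) * d ^ n) * (n * n) =
      ((n : ℝ) ^ 3 * (Cm * K * (K + Cg))) * d ^ n := by ring
  rw [this]
  have : c₁ * d ^ n * (c₂ * d ^ n) = (c₁ * c₂ * d ^ n) * d ^ n := by ring
  rw [this]
  exact mul_lt_mul_of_pos_right h4 hdn

/-- Some forward image of an unstable leaf meets a backward image of a stable leaf, and not along
an open piece. -/
theorem exists_meet {f g : E → E} {d : ℕ} {R₀ R κ : ℝ} (h : IsHL f g d R₀) (hR : R₀ ≤ R)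
    (h0 : 0 < κ) (h1 : κ < 1) {χ₁ χ₂ : Chart} (box₁ : ∀ w ∈ D2, ‖χ₁.pt w‖ ≤ R)
    (box₂ : ∀ w ∈ D2, ‖χ₂.pt w‖ ≤ R) {l₁ l₂ : ℕ} (hl₁ : 0 < l₁) (hl₂ : 0 < l₂)
    {T₁ T₂ : Bool → E → E} (c₁ : ∀ a, IsCross κ (sw g)^[l₁] χ₁.sw χ₁.sw (T₁ a))
    (c₂ : ∀ a, IsCross κ f^[l₂] χ₂ χ₂ (T₂ a)) (n₁ : ¬ EqOn (T₁ true) (T₁ false) D2)
    (n₂ : ¬ EqOn (T₂ true) (T₂ false) D2) {β γ : (ℕ → Bool) → ℂ → ℂ}
    {z₁ z₂ : (ℕ → Bool) → ℂ → ℕ → E} (L₁ : IsLeaves T₁ β z₁) (L₂ : IsLeaves T₂ γ z₂) {r₁ : ℝ}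
    (hκ : κ < r₁) (hr : r₁ < 1) :
    ∃ (n : ℕ) (ω' ω : ℕ → Bool),
      (∃ ζ ∈ ball (0 : ℂ) r₁, ∃ η ∈ ball (0 : ℂ) r₁,
        f^[n] (χ₁.pt (ζ, β ω' ζ)) = g^[n] (χ₂.pt (γ ω η, η))) ∧
      ∀ (ζ₀ : ℂ) (ρ : ℝ), 0 < ρ → ball ζ₀ ρ ⊆ ball 0 r₁ → ∃ ζ ∈ ball ζ₀ ρ,
        ∀ η ∈ ball (0 : ℂ) r₁, f^[n] (χ₁.pt (ζ, β ω' ζ)) ≠ g^[n] (χ₂.pt (γ ω η, η)) := by
  have h' := h.symm
  have hR1 : 1 ≤ R := h.one_le.trans hR
  have box₁' : ∀ w ∈ D2, ‖χ₁.sw.pt w‖ ≤ R := fun w hw => by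
    rw [Chart.sw_pt, norm_swap]; exact box₁ _ (swap_mem_D2 hw)
  set r : ℝ := (κ + r₁) / 2 with hrdef
  have hκr : κ < r := by rw [hrdef]; linarith
  have hrr : r < r₁ := by rw [hrdef]; linarith
  set A : ℕ → (ℕ → Bool) → ℂ → E := fun n ω ζ => f^[n] (χ₁.pt (ζ, β ω ζ)) with hA
  set B : ℕ → (ℕ → Bool) → ℂ → E := fun n ω η => g^[n] (χ₂.pt (γ ω η, η)) with hB
  have hAsw : ∀ n ω ζ, (sw f)^[n] (χ₁.sw.pt (β ω ζ, ζ)) = (A n ω ζ).swap := fun n ω ζ => by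
    rw [sw_iterate, Chart.sw_pt, sw_swap]; rfl
  have hBsw : ∀ n ω η, (sw g)^[n] (χ₂.pt (γ ω η, η)).swap = (B n ω η).swap := fun n ω η => by
    rw [sw_iterate, sw_swap]
  have con₁ : ∀ a, IsCon κ (T₁ a) := fun a => (c₁ a).con
  have con₂ : ∀ a, IsCon κ (T₂ a) := fun a => (c₂ a).con
  have hb1 : ∀ ζ ∈ ball (0 : ℂ) r₁, ‖ζ‖ ≤ 1 := fun ζ hζ => by
    rw [mem_ball_zero_iff] at hζ; linarith
  have mem₁ : ∀ ω, ∀ ζ ∈ ball (0 : ℂ) r₁, ‖χ₁.pt (ζ, β ω ζ)‖ ≤ R := fun ω ζ hζ =>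
    box₁ _ (mem_D2.2 ⟨hb1 ζ hζ, ((L₁.est h1 con₁ (ω := ω) (ω' := ω) (i := 0)
      (fun _ _ => rfl) (hb1 ζ hζ) (hb1 ζ hζ)).1).trans h1.le⟩)
  have mem₂ : ∀ ω, ∀ η ∈ ball (0 : ℂ) r₁, ‖χ₂.pt (γ ω η, η)‖ ≤ R := fun ω η hη =>
    box₂ _ (mem_D2.2 ⟨((L₂.est h1 con₂ (ω := ω) (ω' := ω) (i := 0)
      (fun _ _ => rfl) (hb1 η hη) (hb1 η hη)).1).trans h1.le, hb1 η hη⟩)
  have WA : ∀ n ω, ∀ ζ ∈ ball (0 : ℂ) r₁, ‖(A n ω ζ).2‖ ≤ max R (‖(A n ω ζ).1‖ / 2) :=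
    fun n ω ζ hζ => (h.ff R hR).mem_W
      (((norm_snd_le _).trans (mem₁ ω ζ hζ)).trans (le_max_left _ _)) n
  have WB : ∀ n ω, ∀ η ∈ ball (0 : ℂ) r₁, ‖(B n ω η).1‖ ≤ max R (‖(B n ω η).2‖ / 2) :=
    fun n ω η hη => by
      have := (h.fi R hR).mem_W (z := (χ₂.pt (γ ω η, η)).swap)
        (((norm_snd_le _).trans ((norm_swap _).trans_le (mem₂ ω η hη))).trans (le_max_left _ _)) n
      rw [hBsw] at this
      exact this
  obtain ⟨Cf, hCf0, hCf⟩ := (h.ff R hR).growth_up h.two_le R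
  obtain ⟨Cg, hCg0, hCg⟩ := (h.fi R hR).growth_up h.two_le R
  obtain ⟨a₁, m₁, ha₁, hA₁⟩ := leaf_area h' hR L₁ hl₁ c₁ box₁' hκr (hrr.trans hr)
  obtain ⟨a₂, m₂, ha₂, hA₂⟩ := leaf_area h hR L₂ hl₂ c₂ box₂ hκr (hrr.trans hr)
  obtain ⟨S₁, hS₁, sep₁⟩ := leaf_sep h' hR L₁ h1 c₁ n₁ box₁' hr (R + 2)
  obtain ⟨S₂, hS₂, sep₂⟩ := leaf_sep h hR L₂ h1 c₂ n₂ box₂ hr (R + 2)
  set C : ℝ := max S₁ S₂ with hC
  have hC0 : 0 < C := lt_max_of_lt_left hS₁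
  obtain ⟨C', hC', hpair⟩ := exists_pair r₁ hC0
  obtain ⟨Cm, hCm, hma⟩ := ma_main (R := R) (R' := R + 2) (h0.trans hκr) hrr (by linarith)
  obtain ⟨n, hn₀, hn, hlt⟩ := exists_large h.two_le ha₁ ha₂ hCm (add_nonneg hCf0 hCg0) hC' hC0.le
    (max m₁ m₂)
  have hl2 : 0 ≤ Real.log 2 := Real.log_nonneg (by norm_num)
  have hΛ : 0 ≤ C * n + Real.log 2 := by positivity
  have dβ : ∀ ω, DifferentiableOn ℂ (β ω) (ball 0 r₁) := fun ω =>
    (L₁.differentiableOn h1 (h'.cf.of_le (by norm_num)) c₁ ω).mono (ball_subset_ball hr.le)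
  have dγ : ∀ ω, DifferentiableOn ℂ (γ ω) (ball 0 r₁) := fun ω =>
    (L₂.differentiableOn h1 (h.cf.of_le (by norm_num)) c₂ ω).mono (ball_subset_ball hr.le)
  have hsub : (univ ×ˢ ball (0 : ℂ) r₁ : Set ((ℕ → Bool) × ℂ)) ⊆ univ ×ˢ closedBall 0 1 :=
    prod_mono subset_rfl (ball_subset_closedBall.trans (closedBall_subset_closedBall hr.le))
  have cA : ContinuousOn (fun p : (ℕ → Bool) × ℂ => A n p.1 p.2) (univ ×ˢ ball 0 r₁) :=
    ((h.cf.continuous.iterate n).comp χ₁.continuous_pt).comp_continuousOn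
      (continuousOn_snd.prodMk ((L₁.continuousOn h1 con₁).mono hsub))
  have cB : ContinuousOn (fun p : (ℕ → Bool) × ℂ => B n p.1 p.2) (univ ×ˢ ball 0 r₁) :=
    ((h.cg.continuous.iterate n).comp χ₂.continuous_pt).comp_continuousOn
      (((L₂.continuousOn h1 con₂).mono hsub).prodMk continuousOn_snd)
  have hsmall : ∀ i : ℕ, Real.exp (-(C * n + Real.log 2 + C * (i + 1))) ≤ 1 := fun i =>
    Real.exp_le_one_iff.2 (by have : 0 ≤ C * (i + 1) := by positivity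
                              linarith)
  have hdouble : ∀ (i : ℕ) (S : ℝ), S ≤ C → Real.exp (-(C * n + Real.log 2 + C * (i + 1))) +
      Real.exp (-(C * n + Real.log 2 + C * (i + 1))) ≤ Real.exp (-(S * n + S * (i + 1))) :=
    fun i S hS => by
      have e1 : Real.exp (-(C * n + Real.log 2 + C * (i + 1))) =
          Real.exp (-(C * n + C * (i + 1))) / 2 := by
        rw [show -(C * n + Real.log 2 + C * (i + 1)) = -(C * n + C * (i + 1)) - Real.log 2 by ring,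
          Real.exp_sub, Real.exp_log (by norm_num)]
      have e2 : Real.exp (-(C * n + C * (i + 1))) ≤ Real.exp (-(S * n + S * (i + 1))) := by
        apply Real.exp_le_exp.2
        have : S * n ≤ C * n := mul_le_mul_of_nonneg_right hS (Nat.cast_nonneg n)
        have : S * (i + 1) ≤ C * (i + 1) := mul_le_mul_of_nonneg_right hS (by positivity)
        linarith
      rw [e1]; linarith
  have hle : ∀ ζ ∈ ball (0 : ℂ) r₁, ‖ζ‖ ≤ r₁ := fun ζ hζ => (mem_ball_zero_iff.1 hζ).le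
  obtain ⟨ω', ω, g₁, g₂, mg₁, mg₂, hg, i₁, i₂⟩ := hpair (A n) (B n) (C * n + Real.log 2) hΛ cA cB
    (fun ω' ω ω₂ ζ hζ η hη η₂ hη₂ i e₁ e₂ => by
      by_contra hne
      have b₁ := (near_bounded hR1 (WA n ω' ζ hζ) (WB n ω η hη) (e₁.le.trans (hsmall i))).2
      have b₂ := (near_bounded hR1 (WA n ω' ζ hζ) (WB n ω₂ η₂ hη₂) (e₂.le.trans (hsmall i))).2
      have s := sep₂ ω ω₂ i n hne η η₂ (hle η hη) (hle η₂ hη₂) b₁ b₂
      have t : ‖B n ω η - B n ω₂ η₂‖ ≤ ‖A n ω' ζ - B n ω η‖ + ‖A n ω' ζ - B n ω₂ η₂‖ := by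
        rw [← dist_eq_norm, ← dist_eq_norm, ← dist_eq_norm]; exact dist_triangle_left _ _ _
      have := hdouble i S₂ (le_max_right _ _)
      change _ ≤ ‖B n ω η - B n ω₂ η₂‖ at s
      linarith)
    (fun ω ω' ω₂ η hη ζ hζ ζ₂ hζ₂ i e₁ e₂ => by
      by_contra hne
      have b₁ := (near_bounded hR1 (WA n ω' ζ hζ) (WB n ω η hη) (e₁.le.trans (hsmall i))).1
      have b₂ := (near_bounded hR1 (WA n ω₂ ζ₂ hζ₂) (WB n ω η hη) (e₂.le.trans (hsmall i))).1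
      have s := sep₁ ω' ω₂ i n hne ζ ζ₂ (hle ζ hζ) (hle ζ₂ hζ₂)
        (by rw [hAsw, norm_swap]; exact b₁) (by rw [hAsw, norm_swap]; exact b₂)
      rw [hAsw, hAsw, ← Prod.swap_sub, norm_swap] at s
      have t : ‖A n ω' ζ - A n ω₂ ζ₂‖ ≤ ‖A n ω' ζ - B n ω η‖ + ‖A n ω₂ ζ₂ - B n ω η‖ := by
        rw [← dist_eq_norm, ← dist_eq_norm, ← dist_eq_norm]; exact dist_triangle_right _ _ _
      have := hdouble i S₁ (le_max_left _ _)
      linarith)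
  refine ⟨n, ω', ω, ?_, ?_⟩
  · by_contra hno
    push Not at hno
    have hdn : (0 : ℝ) ≤ (d : ℝ) ^ n := by positivity
    have dA : DifferentiableOn ℂ (A n ω') (ball 0 r₁) :=
      (((contDiff_iterate h.cf n).comp χ₁.contDiff_pt).differentiable
        (by norm_num)).comp_differentiableOn (differentiableOn_id.prodMk (dβ ω'))
    have dB : DifferentiableOn ℂ (B n ω) (ball 0 r₁) :=
      (((contDiff_iterate h.cg n).comp χ₂.contDiff_pt).differentiable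
        (by norm_num)).comp_differentiableOn ((dγ ω).prodMk differentiableOn_id)
    have key := hma (A n ω') (B n ω) ((Cf + Cg) * d ^ n) (C' * (1 + (C * n + Real.log 2))) g₁ g₂
      (by positivity) (by positivity) dA dB
      (fun ζ hζ => ⟨WA n ω' ζ hζ, (hCf _ (mem₁ ω' ζ hζ) n).trans (by nlinarith)⟩)
      (fun η hη => ⟨WB n ω η hη, by
        have := hCg _ ((norm_swap _).trans_le (mem₂ ω η hη)) n
        rw [hBsw, norm_swap] at this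
        exact this.trans (by nlinarith)⟩)
      mg₁ mg₂ (fun ζ hζ η hη => ⟨hno ζ hζ η hη, (hg ζ hζ η hη).2⟩) i₁ i₂
    have a1 := hA₁ ω' n ((le_max_left _ _).trans hn₀)
    have a2 := hA₂ ω n ((le_max_right _ _).trans hn₀)
    simp only [hAsw, Prod.snd_swap] at a1
    have := (mul_le_mul' a1 a2).trans key
    rw [← ENNReal.ofReal_mul (by positivity), ENNReal.ofReal_le_ofReal_iff (by positivity)] at this
    exact absurd hlt (not_lt.2 this)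
  · intro ζ₀ ρ hρ hsub'
    by_contra hno
    push Not at hno
    have htop : ∀ ζ ∈ ball ζ₀ ρ, g₁ ζ ^ 2 = ⊤ := fun ζ hζ => by
      obtain ⟨η, hη, e⟩ := hno ζ hζ
      rw [(hg ζ (hsub' hζ) η hη).1 e]; simp
    have h2 : ∫⁻ ζ in ball ζ₀ ρ, g₁ ζ ^ 2 = ⊤ := by
      rw [setLIntegral_congr_fun measurableSet_ball htop, setLIntegral_const,
        ENNReal.top_mul (measure_ball_pos _ _ hρ).ne']
    have h3 : ∫⁻ ζ in ball ζ₀ ρ, g₁ ζ ^ 2 ≤ ∫⁻ ζ in ball (0 : ℂ) r₁, g₁ ζ ^ 2 :=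
      lintegral_mono_set hsub'
    rw [h2] at h3
    exact absurd (h3.trans i₁) (not_le.2 ENNReal.ofReal_lt_top)

theorem exists_connect {f g : E → E} {d : ℕ} {R₀ R κ : ℝ} (h : IsHL f g d R₀) (hR : R₀ ≤ R)
    (h0 : 0 < κ) (h1 : κ < 1) {χ₁ χ₂ : Chart} (box₁ : ∀ w ∈ D2, ‖χ₁.pt w‖ ≤ R)
    (box₂ : ∀ w ∈ D2, ‖χ₂.pt w‖ ≤ R) {l₁ l₂ : ℕ} (hl₁ : 0 < l₁) (hl₂ : 0 < l₂)
    {T₁ T₂ : Bool → E → E} (c₁ : ∀ a, IsCross κ f^[l₁] χ₁ χ₁ (T₁ a))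
    (c₂ : ∀ a, IsCross κ f^[l₂] χ₂ χ₂ (T₂ a)) (n₁ : ¬ EqOn (T₁ true) (T₁ false) D2)
    (n₂ : ¬ EqOn (T₂ true) (T₂ false) D2) :
    ∃ (l : ℕ) (T : E → E), IsCross κ f^[l] χ₁ χ₂ T := by
  have h' := h.symm
  have hf1 : ContDiff ℂ 1 f := h.cf.of_le (by norm_num)
  have hg1 : ContDiff ℂ 1 (sw g) := h'.cf.of_le (by norm_num)
  have c₁' : ∀ a, IsCross κ (sw g)^[l₁] χ₁.sw χ₁.sw (sw (T₁ a)) := fun a => by
    rw [sw_iterate]; exact (c₁ a).sw (h.gf_iterate l₁)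
  have n₁' : ¬ EqOn (sw (T₁ true)) (sw (T₁ false)) D2 := fun e => n₁ fun b hb => by
    have := e (swap_mem_D2 hb)
    rw [sw_swap, sw_swap] at this
    exact Prod.swap_injective this
  have con₂ : ∀ a, IsCon κ (T₂ a) := fun a => (c₂ a).con
  obtain ⟨β, z₁, L₁⟩ := exists_leaves h1 (T := fun a => sw (T₁ a)) fun a => (c₁' a).con
  obtain ⟨γ, z₂, L₂⟩ := exists_leaves h1 con₂
  set r₁ : ℝ := (κ + 1) / 2 with hr₁
  have hκ : κ < r₁ := by rw [hr₁]; linarith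
  have hr : r₁ < 1 := by rw [hr₁]; linarith
  obtain ⟨n, ω', ω, ⟨ζ₀, hζ₀, η₀, hη₀, e₀⟩, hiso⟩ :=
    exists_meet h hR h0 h1 box₁ box₂ hl₁ hl₂ c₁' c₂ n₁' n₂ L₁ L₂ hκ hr
  set F : E → E := f^[n] ∘ f^[n] with hF
  have hFd : ContDiff ℂ 1 F := (contDiff_iterate hf1 n).comp (contDiff_iterate hf1 n)
  set Gm : ℂ → E := fun ζ => χ₂.co (F (χ₁.pt (ζ, β ω' ζ))) with hGm
  have dβ : DifferentiableOn ℂ (β ω') (ball 0 1) := L₁.differentiableOn h1 hg1 c₁' ω'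
  have dγ : ∀ ω, DifferentiableOn ℂ (γ ω) (ball 0 1) := L₂.differentiableOn h1 hf1 c₂
  have dG : DifferentiableOn ℂ Gm (ball 0 1) :=
    ((χ₂.contDiff_co.comp (hFd.comp χ₁.contDiff_pt)).differentiable
      (by norm_num)).comp_differentiableOn (differentiableOn_id.prodMk dβ)
  have hG₀ : Gm ζ₀ = (γ ω η₀, η₀) := by
    simp only [hGm, hF, Function.comp_apply]
    rw [e₀, h.fg_iterate, Chart.co_pt]
  have hsub1 : ball (0 : ℂ) r₁ ⊆ ball 0 1 := ball_subset_ball hr.le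
  have hopen : IsOpen (ball (0 : ℂ) r₁ ∩ (fun ζ => (Gm ζ).2) ⁻¹' ball 0 r₁) :=
    (dG.continuousOn.snd.mono hsub1).isOpen_inter_preimage isOpen_ball isOpen_ball
  obtain ⟨ρ, hρ, hball⟩ := Metric.isOpen_iff.1 hopen ζ₀ ⟨hζ₀, by
    simp only [mem_preimage, hG₀]; exact hη₀⟩
  have hb1 : ball ζ₀ ρ ⊆ ball 0 r₁ := fun ζ hζ => (hball hζ).1
  have hb2 : ∀ ζ ∈ ball ζ₀ ρ, (Gm ζ).2 ∈ ball (0 : ℂ) r₁ := fun ζ hζ => (hball hζ).2
  have dG' : DifferentiableOn ℂ Gm (ball ζ₀ ρ) := dG.mono (hb1.trans hsub1)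
  have dc : ∀ ω, DifferentiableOn ℂ (fun ζ => γ ω (Gm ζ).2) (ball ζ₀ ρ) := fun ω =>
    (dγ ω).comp dG'.snd fun ζ hζ => hsub1 (hb2 ζ hζ)
  set fl : ℕ → ℕ → Bool := fun k => Function.update ω k (!ω k) with hfl
  obtain ⟨Cs, hCs, hsep⟩ := L₂.sep h1 h.cf c₂ n₂ hr
  set a : ℝ := max 1 ‖(χ₂.A : E →L[ℂ] E)‖ with ha
  have ha1 : 1 ≤ a := le_max_left _ _
  obtain ⟨k, ζ₁, hζ₁, e₁, e₂⟩ := exists_simple (δ := fun ζ => (Gm ζ).1 - γ ω (Gm ζ).2)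
    (e := fun k ζ => γ (fl k) (Gm ζ).2 - γ ω (Gm ζ).2) (C := Cs + Real.log a) hρ h0 h1
    (dG'.fst.sub (dc ω)) (by simp [hG₀])
    (by
      obtain ⟨ζ, hζ, hne⟩ := hiso ζ₀ ρ hρ hb1
      refine ⟨ζ, hζ, fun e => hne _ (hb2 ζ hζ) ?_⟩
      have e' : Gm ζ = (γ ω (Gm ζ).2, (Gm ζ).2) := Prod.ext (sub_eq_zero.1 e) rfl
      rw [← e']
      simp only [hGm, hF, Function.comp_apply]
      rw [Chart.pt_co, h.gf_iterate])
    (fun k => (dc (fl k)).sub (dc ω))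
    (fun k ζ hζ => by
      have hs : ‖(Gm ζ).2‖ ≤ r₁ := (mem_ball_zero_iff.1 (hb2 ζ hζ)).le
      constructor
      · have s := hsep (fl k) ω k (by simp [hfl]) _ _ hs hs
        rw [Chart.pt_sub] at s
        have s2 := (χ₂.A : E →L[ℂ] E).le_opNorm
          ((γ (fl k) (Gm ζ).2, (Gm ζ).2) - (γ ω (Gm ζ).2, (Gm ζ).2))
        have s3 : ‖((γ (fl k) (Gm ζ).2, (Gm ζ).2) - (γ ω (Gm ζ).2, (Gm ζ).2) : E)‖ =
            ‖γ (fl k) (Gm ζ).2 - γ ω (Gm ζ).2‖ := by simp [Prod.norm_def]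
        rw [s3] at s2
        have s4 : Real.exp (-(Cs * (k + 1))) ≤ a * ‖γ (fl k) (Gm ζ).2 - γ ω (Gm ζ).2‖ :=
          (s.trans s2).trans (mul_le_mul_of_nonneg_right (le_max_right _ _) (norm_nonneg _))
        have s5 : Real.exp (-((Cs + Real.log a) * (k + 1))) * a ≤ Real.exp (-(Cs * (k + 1))) := by
          nth_rewrite 2 [← Real.exp_log (show 0 < a by linarith)]
          rw [← Real.exp_add]
          apply Real.exp_le_exp.2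
          have : 0 ≤ Real.log a * k := mul_nonneg (Real.log_nonneg ha1) (Nat.cast_nonneg k)
          nlinarith
        have := s5.trans s4
        rw [mul_comm a] at this
        exact le_of_mul_le_mul_right this (by linarith)
      · have := (L₂.est h1 con₂ (ω := fl k) (ω' := ω) (i := k)
          (fun j hj => by simp [hfl, Function.update_of_ne hj.ne]) (hs.trans hr.le)
          (hs.trans hr.le)).2
        rw [sub_self, norm_zero, mul_zero] at this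
        exact this.trans (max_le le_rfl (by positivity)))
  obtain ⟨S', hS'⟩ := L₁.approx h1 hg1 c₁' ω'
  obtain ⟨S₂, hS₂⟩ := L₂.approx h1 hf1 c₂ (fl k)
  have hζ1 : ζ₁ ∈ ball (0 : ℂ) 1 := hsub1 (hb1 hζ₁)
  obtain ⟨p, -, T', hT'⟩ := cross_of_transverse h0 h1 hFd (χ₁ := χ₁) (χ₂ := χ₂) (β := β ω')
    (γ := γ (fl k)) (ζ₀ := ζ₁) (F₁ := fun p => f^[p * l₁]) (F₂ := fun p => f^[p * l₂])
    (S := fun p => sw (S' p)) (T := S₂)
    (fun p hp => by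
      obtain ⟨s1, s2, s3, s4⟩ := hS' p hp
      refine ⟨?_, ?_, fun b hb => ?_, fun b hb b' hb' e => ?_⟩
      · have := s1.sw (h'.gf_iterate (p * l₁))
        rwa [Chart.sw_sw, sw_iterate, sw_sw] at this
      · have hs : Differentiable ℂ (Prod.swap : E → E) := differentiable_snd.prodMk differentiable_fst
        exact hs.comp_differentiableOn (s2.comp hs.differentiableOn fun b hb => by
          rw [mem_ball_zero_iff] at hb ⊢; rwa [norm_swap])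
      · exact s3 _ (swap_mem_D2 hb)
      · exact s4 _ (swap_mem_D2 hb) _ (swap_mem_D2 hb') e)
    hS₂ dβ (dγ _) (mem_ball_zero_iff.1 hζ1) (mem_ball_zero_iff.1 (hsub1 (hb2 ζ₁ hζ₁)))
    (by
      change (Gm ζ₁).1 = γ (fl k) (Gm ζ₁).2
      exact sub_left_injective e₁)
    (by
      change deriv (fun ζ => (Gm ζ).1 - γ (fl k) (Gm ζ).2) ζ₁ ≠ 0
      have hn : ball ζ₀ ρ ∈ 𝓝 ζ₁ := isOpen_ball.mem_nhds hζ₁
      have d1 : DifferentiableAt ℂ (fun ζ => (Gm ζ).1 - γ ω (Gm ζ).2) ζ₁ :=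
        (dG'.fst.sub (dc ω)).differentiableAt hn
      have d2 : DifferentiableAt ℂ (fun ζ => γ (fl k) (Gm ζ).2 - γ ω (Gm ζ).2) ζ₁ :=
        ((dc (fl k)).sub (dc ω)).differentiableAt hn
      have e : (fun ζ => (Gm ζ).1 - γ (fl k) (Gm ζ).2) = fun ζ =>
          ((Gm ζ).1 - γ ω (Gm ζ).2) - (γ (fl k) (Gm ζ).2 - γ ω (Gm ζ).2) := by
        funext ζ; ring
      rw [e, deriv_fun_sub d1 d2]
      exact sub_ne_zero.2 e₂)
  refine ⟨p * l₂ + (n + n + p * l₁), T', ?_⟩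
  rw [Function.iterate_add, Function.iterate_add, Function.iterate_add]
  exact hT'

end Pool.Agent.P.MP_eeb913_an.U
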