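import Mathlib
import Pool.Agent.P.MP_eeb913_an.U.Basic
import Pool.Agent.P.MP_eeb913_an.U.Area
import Pool.Agent.P.MP_eeb913_an.U.Local

/-!
Few good crossings start in a Bowen ball.

Sketch. Let ε₁, C₁ come from area_upper, ε = ε₁ / 2, r = min (1/2) (ε / D). The line is
γ ζ = χ.pt (ζ, 0) = χ.c + ζ • χ.A (1, 0). For T ∈ I let piece T = {(T (u, 0)).1 | ‖u‖ ≤ r}, compact. On it
γ ζ = χ.start T (u, 0), so by decay it lies in the set of area_upper. Pieces of different T are disjoint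
(IsCross.eqOn). U ζ = (χ.co (f^[n] (γ ζ))).1 is entire and U '' piece T ⊇ closedBall 0 r; by
addHaar_image_le_lintegral_abs_det_fderiv (the real determinant of multiplication by c is ‖c‖²,
see Algebra.norm_complex_apply or LinearMap.det_restrictScalars / Complex.det lemmas)
π r² ≤ ∫⁻ over piece of ‖U'‖² ≤ ‖χ.A.symm‖² ∫⁻ over piece of ‖(f^[n] ∘ γ)'‖². Sum over T.
-/

namespace Pool.Agent.P.MP_eeb913_an.U

open MeasureTheory Filter Metric Set
open scoped ENNReal NNReal Topology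

private theorem cnt_det (c : ℂ) :
    |((ContinuousLinearMap.toSpanSingleton ℂ c).restrictScalars ℝ).det| = ‖c‖ ^ 2 := by
  simp [ContinuousLinearMap.det, LinearMap.det_restrictScalars, Algebra.norm_complex_eq,
    Complex.normSq_eq_norm_sq]

private theorem cnt_image {U U' : ℂ → ℂ} (hU : ∀ ζ, HasDerivAt U (U' ζ) ζ) {s : Set ℂ}
    (hs : MeasurableSet s) : volume (U '' s) ≤ ∫⁻ ζ in s, ENNReal.ofReal (‖U' ζ‖ ^ 2) := by
  have h := addHaar_image_le_lintegral_abs_det_fderiv (volume : Measure ℂ) hs (f := U)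
    (f' := fun ζ => (ContinuousLinearMap.toSpanSingleton ℂ (U' ζ)).restrictScalars ℝ)
    (fun ζ _ => ((hU ζ).hasFDerivAt.restrictScalars ℝ).hasFDerivWithinAt)
  simpa only [cnt_det] using h

theorem count_bound {f : E → E} (hf : ContDiff ℂ 2 f) (ρ : ℝ) {η : ℝ} (hη : 0 < η) :
    ∃ ε : ℝ, 0 < ε ∧ ∀ (D : ℝ) (χ : Chart), 0 < D → ∃ C : ℝ, ∀ (κ ε' : ℝ) (n : ℕ) (x : E)
      (I : Finset (E → E)), 0 ≤ ε' → (∀ j ≤ n, ‖f^[j] x‖ ≤ ρ) →
      (∀ T ∈ I, IsGood f κ ε' D χ n T) → (∀ T ∈ I, ∀ T' ∈ I, T ≠ T' → ¬ EqOn T T' D2) →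
      (∀ T ∈ I, ∀ j ≤ n, ‖f^[j] (χ.start T 0) - f^[j] x‖ ≤ ε) →
      (I.card : ℝ) ≤ C * Real.exp (η * n) := by
  obtain ⟨ε₁, C₁, hε₁, hA⟩ := area_upper hf ρ hη
  refine ⟨ε₁ / 2, half_pos hε₁, fun D χ hD => ?_⟩
  set r : ℝ := min (1 / 2) (ε₁ / 2 / D) with hr
  have hr0 : 0 < r := lt_min (by norm_num) (div_pos (half_pos hε₁) hD)
  have hr1 : r < 1 := (min_le_left _ _).trans_lt (by norm_num)
  have hrD : D * r ≤ ε₁ / 2 := by
    have : r ≤ ε₁ / 2 / D := min_le_right _ _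
    rwa [le_div_iff₀ hD, mul_comm] at this
  set a : ℝ := ‖(χ.A.symm : E →L[ℂ] E)‖ with ha
  set v : ℝ≥0∞ := volume (closedBall (0 : ℂ) r) with hv
  have hv0 : v ≠ 0 := (measure_closedBall_pos volume (0 : ℂ) hr0).ne'
  have hvt : v ≠ ∞ := measure_closedBall_lt_top.ne
  have hvr : 0 < v.toReal := ENNReal.toReal_pos hv0 hvt
  refine ⟨a ^ 2 * |C₁| / v.toReal, fun κ ε' n x I hε' hx hI hne hstart => ?_⟩
  set w : E := χ.A (1, 0) with hw
  have hw0 : w ≠ 0 := by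
    intro h
    have h1 : ((1, 0) : E) = 0 := χ.A.injective (by rw [← hw, h, map_zero])
    simp at h1
  have hγ : ∀ ζ : ℂ, χ.c + ζ • w = χ.pt (ζ, 0) := by
    intro ζ
    rw [Chart.pt, hw, ← map_smul]
    simp
  have hfn : ContDiff ℂ 2 f^[n] := contDiff_iterate hf n
  have hfn1 : ContDiff ℂ 1 f^[n] := hfn.of_le (by norm_num)
  set g : ℂ → E := fun ζ => f^[n] (χ.c + ζ • w) with hg
  have hgd : Differentiable ℂ g :=
    (hfn1.differentiable (by norm_num)).comp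
      ((differentiable_const _).add (differentiable_id.smul_const w))
  have hU : ∀ ζ, HasDerivAt (fun ζ => (χ.co (g ζ)).1) (χ.A.symm (deriv g ζ)).1 ζ := by
    intro ζ
    have h1 : HasDerivAt (fun ζ => g ζ - χ.c) (deriv g ζ) ζ := (hgd ζ).hasDerivAt.sub_const _
    have h2 := (((ContinuousLinearMap.fst ℂ ℂ ℂ).comp
      (χ.A.symm : E →L[ℂ] E)).hasFDerivAt).comp_hasDerivAt ζ h1
    exact h2
  have hmem : ∀ u ∈ closedBall (0 : ℂ) r, ‖((u, 0) : E)‖ ≤ r := by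
    intro u hu
    rw [mem_closedBall_zero_iff] at hu
    simpa [Prod.norm_def] using hu
  have hball : ∀ u ∈ closedBall (0 : ℂ) r, ((u, 0) : E) ∈ ball (0 : E) 1 := fun u hu =>
    mem_ball_zero_iff.mpr ((hmem u hu).trans_lt hr1)
  have hD2 : ∀ u ∈ closedBall (0 : ℂ) r, ((u, 0) : E) ∈ D2 := fun u hu =>
    ball_subset_closedBall (hball u hu)
  let piece : (E → E) → Set ℂ := fun T => (fun u : ℂ => (T (u, 0)).1) '' closedBall 0 r
  have hmeas : ∀ T ∈ I, MeasurableSet (piece T) := by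
    intro T hT
    refine ((isCompact_closedBall (0 : ℂ) r).image_of_continuousOn ?_).measurableSet
    exact ((hI T hT).cross.con.continuousOn.comp
      (continuous_id.prodMk continuous_const).continuousOn hD2).fst
  have hdisj : (I : Set (E → E)).PairwiseDisjoint piece := by
    intro T hT T' hT' hTT'
    refine Set.disjoint_left.mpr ?_
    rintro ζ ⟨u, hu, rfl⟩ ⟨u', hu', he⟩
    refine hne T hT T' hT' hTT' ((hI T hT).cross.eqOn hfn1 (hI T' hT').cross (hball u hu)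
      (hball u' hu') ?_).2
    simp only [Chart.start]
    rw [show (T' (u', 0)).1 = (T (u, 0)).1 from he]
  have hsub : (⋃ T ∈ I, piece T) ⊆
      {ζ : ℂ | ∀ j ≤ n, ‖f^[j] (χ.c + ζ • w) - f^[j] x‖ ≤ ε₁} := by
    intro ζ hζ
    simp only [Set.mem_iUnion] at hζ
    obtain ⟨T, hT, u, hu, rfl⟩ := hζ
    intro j hj
    have e : χ.c + (T (u, 0)).1 • w = χ.start T (u, 0) := hγ _
    have h1 := (hI T hT).decay (u, 0) (hD2 u hu) 0 (mem_closedBall_self zero_le_one) j hj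
    have h2 := hstart T hT j hj
    have h3 : Real.exp (-(ε' * (min j (n - j) : ℕ))) ≤ 1 :=
      Real.exp_le_one_iff.mpr (neg_nonpos.mpr (mul_nonneg hε' (Nat.cast_nonneg _)))
    have h4 : D * Real.exp (-(ε' * (min j (n - j) : ℕ))) * ‖((u, 0) : E) - 0‖ ≤ D * r := by
      rw [sub_zero]
      refine mul_le_mul ?_ (hmem u hu) (norm_nonneg _) hD.le
      exact mul_le_of_le_one_right hD.le h3
    show ‖f^[j] (χ.c + (T (u, 0)).1 • w) - f^[j] x‖ ≤ ε₁
    rw [e]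
    have h5 := norm_sub_le_norm_sub_add_norm_sub (f^[j] (χ.start T (u, 0)))
      (f^[j] (χ.start T 0)) (f^[j] x)
    linarith
  have hpiece : ∀ T ∈ I, v ≤ ENNReal.ofReal (a ^ 2) *
      ∫⁻ ζ in piece T, ENNReal.ofReal (‖deriv g ζ‖ ^ 2) := by
    intro T hT
    have h1 : closedBall (0 : ℂ) r ⊆ (fun ζ => (χ.co (g ζ)).1) '' piece T := by
      intro u hu
      refine ⟨(T (u, 0)).1, ⟨u, hu, rfl⟩, ?_⟩
      have e : χ.c + (T (u, 0)).1 • w = χ.start T (u, 0) := hγ _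
      show (χ.co (f^[n] (χ.c + (T (u, 0)).1 • w))).1 = u
      rw [e, (hI T hT).cross.map _ (hD2 u hu), χ.co_pt]
    refine (measure_mono h1).trans ((cnt_image hU (hmeas T hT)).trans ?_)
    rw [← lintegral_const_mul' _ _ ENNReal.ofReal_ne_top]
    refine lintegral_mono fun ζ => ?_
    rw [← ENNReal.ofReal_mul (sq_nonneg a), ← mul_pow]
    refine ENNReal.ofReal_le_ofReal (pow_le_pow_left₀ (norm_nonneg _) ?_ 2)
    exact (norm_fst_le _).trans ((χ.A.symm : E →L[ℂ] E).le_opNorm _)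
  have hsum : (I.card : ℝ≥0∞) * v ≤
      ENNReal.ofReal (a ^ 2 * |C₁| * Real.exp (η * n)) := by
    calc (I.card : ℝ≥0∞) * v = ∑ _T ∈ I, v := by rw [Finset.sum_const, nsmul_eq_mul]
      _ ≤ ∑ T ∈ I, ENNReal.ofReal (a ^ 2) *
          ∫⁻ ζ in piece T, ENNReal.ofReal (‖deriv g ζ‖ ^ 2) := Finset.sum_le_sum hpiece
      _ = ENNReal.ofReal (a ^ 2) *
          ∫⁻ ζ in ⋃ T ∈ I, piece T, ENNReal.ofReal (‖deriv g ζ‖ ^ 2) := by
        rw [lintegral_biUnion_finset hdisj hmeas, Finset.mul_sum]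
      _ ≤ ENNReal.ofReal (a ^ 2) * ENNReal.ofReal (C₁ * Real.exp (η * n)) := by
        refine mul_le_mul_right ?_ _
        exact (lintegral_mono_set hsub).trans (hA χ.c w n x hw0 hx)
      _ ≤ ENNReal.ofReal (a ^ 2 * |C₁| * Real.exp (η * n)) := by
        rw [← ENNReal.ofReal_mul (sq_nonneg a), mul_assoc]
        refine ENNReal.ofReal_le_ofReal (mul_le_mul_of_nonneg_left ?_ (sq_nonneg a))
        exact mul_le_mul_of_nonneg_right (le_abs_self _) (Real.exp_pos _).le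
  have hreal : (I.card : ℝ) * v.toReal ≤ a ^ 2 * |C₁| * Real.exp (η * n) := by
    have h1 := ENNReal.toReal_mono ENNReal.ofReal_ne_top hsum
    rw [ENNReal.toReal_mul, ENNReal.toReal_natCast, ENNReal.toReal_ofReal (by positivity)] at h1
    exact h1
  rw [div_mul_eq_mul_div, le_div_iff₀ hvr]
  exact hreal

end Pool.Agent.P.MP_eeb913_an.U
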