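import Mathlib
import Pool.Agent.P.MP_eeb913_an.U.Basic
import Pool.Agent.P.MP_eeb913_an.Entropy

/-!
The entropy inequality in Misiurewicz's proof of the variational principle.

Sketch. Basic facts for a probability measure σ and measurable finite partitions:
H (τ, τ') ≤ H τ + H τ' (Gibbs inequality with the product of the marginals), H τ ≤ log card,
H (F ∘ τ) ≤ H τ (subadditivity of negMulLog), H of τ ∘ f^[j] under σ is H of τ under σ.map f^[j],
and concavity: the average of H_{σ_j} τ is at most H_{average of σ_j} τ (concavity of negMulLog).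
For each r < q the name of length n is a function of the q-names at the times r + i q with
r + (i + 1) q ≤ n and of at most 2 q single letters, so
H_σ (α^n) ≤ ∑_i H_{σ.map f^[r + i q]} (α^q) + 2 q log k. Sum over r < q: each time j < n occurs at
most once and the terms are nonnegative.
entropy_ge: H_σ τ = ∑ p (- log p) = ∫ - log σ (atom of x) dσ.
-/

namespace Pool.Agent.P.MP_eeb913_an.U

open MeasureTheory Filter Metric Set
open scoped ENNReal NNReal Topology

section Aux

variable {X : Type} [MeasurableSpace X]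

theorem misA_sum_one {ι : Type} [Fintype ι] [MeasurableSpace ι] [MeasurableSingletonClass ι]
    (ν : Measure X) [IsProbabilityMeasure ν] (τ : X → ι) (hτ : Measurable τ) :
    ∑ i, ν.real (τ ⁻¹' {i}) = 1 := by
  have : IsProbabilityMeasure (ν.map τ) := Measure.isProbabilityMeasure_map hτ.aemeasurable
  have hreal : ∀ i, (ν.map τ).real {i} = ν.real (τ ⁻¹' {i}) := fun i => by
    rw [map_measureReal_apply hτ (measurableSet_singleton i)]
  have := integral_fintype (μ := ν.map τ) (f := fun _ : ι => (1 : ℝ)) (integrable_const _)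
  simp only [integral_const, probReal_univ, smul_eq_mul, mul_one, hreal] at this
  exact this.symm

theorem misA_integral {ι : Type} [Fintype ι] [MeasurableSpace ι] [MeasurableSingletonClass ι]
    (ν : Measure X) [IsProbabilityMeasure ν] (τ : X → ι) (hτ : Measurable τ) (φ : ι → ℝ) :
    Integrable (fun x => φ (τ x)) ν ∧ ∫ x, φ (τ x) ∂ν = ∑ i, ν.real (τ ⁻¹' {i}) * φ i := by
  have : IsProbabilityMeasure (ν.map τ) := Measure.isProbabilityMeasure_map hτ.aemeasurable
  have hreal : ∀ i, (ν.map τ).real {i} = ν.real (τ ⁻¹' {i}) := fun i => by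
    rw [map_measureReal_apply hτ (measurableSet_singleton i)]
  have hmeas : Measurable φ := measurable_of_finite _
  have h3 := integral_fintype (μ := ν.map τ) (f := φ) Integrable.of_finite
  rw [integral_map hτ.aemeasurable hmeas.aestronglyMeasurable] at h3
  simp only [hreal, smul_eq_mul] at h3
  exact ⟨(integrable_map_measure hmeas.aestronglyMeasurable hτ.aemeasurable).mp
    Integrable.of_finite, h3⟩

theorem misA_ae_pos {ι : Type} [Fintype ι] (ν : Measure X) [IsProbabilityMeasure ν] (τ : X → ι) :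
    ∀ᵐ x ∂ν, 0 < ν.real (τ ⁻¹' {τ x}) := by
  have h : ∀ i : ι, ∀ᵐ x ∂ν, τ x = i → 0 < ν.real (τ ⁻¹' {i}) := by
    intro i
    by_cases h0 : ν (τ ⁻¹' {i}) = 0
    · have : ∀ᵐ x ∂ν, x ∉ τ ⁻¹' {i} := measure_eq_zero_iff_ae_notMem.mp h0
      filter_upwards [this] with x hx hxi
      exact absurd hxi hx
    · refine Eventually.of_forall fun x _ => ?_
      exact ENNReal.toReal_pos h0 (measure_ne_top _ _)
  have := ae_all_iff.mpr h
  filter_upwards [this] with x hx
  exact hx _ rfl

theorem misA_eq_integral {ι : Type} [Fintype ι] [MeasurableSpace ι] [MeasurableSingletonClass ι]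
    (ν : Measure X) [IsProbabilityMeasure ν] (τ : X → ι) (hτ : Measurable τ) :
    partitionEntropy ν τ = ∫ x, -Real.log (ν.real (τ ⁻¹' {τ x})) ∂ν := by
  rw [(misA_integral ν τ hτ (fun i => -Real.log (ν.real (τ ⁻¹' {i})))).2]
  unfold partitionEntropy
  refine Finset.sum_congr rfl fun i _ => ?_
  unfold Real.negMulLog
  ring

theorem misA_gibbs {ι : Type} [Fintype ι] [MeasurableSpace ι] [MeasurableSingletonClass ι]
    (ν : Measure X) [IsProbabilityMeasure ν] (τ : X → ι) (hτ : Measurable τ) (q : ι → ℝ)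
    (hq : ∀ i, 0 ≤ q i) (hq1 : ∑ i, q i ≤ 1) (g : X → ℝ) (hg : Integrable g ν)
    (hle : ∀ᵐ x ∂ν, 0 < q (τ x) ∧ -Real.log (q (τ x)) ≤ g x) :
    partitionEntropy ν τ ≤ ∫ x, g x ∂ν := by
  have h1 := misA_sum_one ν τ hτ
  have h3 := misA_integral ν τ hτ (fun i => -Real.log (q i))
  have h : ∀ i, Real.negMulLog (ν.real (τ ⁻¹' {i})) ≤
      ν.real (τ ⁻¹' {i}) * (-Real.log (q i)) + (q i - ν.real (τ ⁻¹' {i})) := by
    intro i
    have hp : 0 ≤ ν.real (τ ⁻¹' {i}) := measureReal_nonneg
    rcases hp.eq_or_lt with h0 | h0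
    · rw [← h0]; simp [hq i]
    · have hqi : 0 < q i := by
        by_contra hcon
        have hz : ν (τ ⁻¹' {i}) = 0 := by
          refine measure_eq_zero_iff_ae_notMem.mpr ?_
          filter_upwards [hle] with x hx hxi
          have hxi' : τ x = i := hxi
          rw [hxi'] at hx
          exact hcon hx.1
        rw [measureReal_def, hz] at h0
        simp at h0
      set p := ν.real (τ ⁻¹' {i}) with hpdef
      have h1 := Real.log_le_sub_one_of_pos (div_pos hqi h0)
      rw [Real.log_div hqi.ne' h0.ne'] at h1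
      have h2 : p * (Real.log (q i) - Real.log p) ≤ p * (q i / p - 1) :=
        mul_le_mul_of_nonneg_left h1 h0.le
      have h3 : p * (q i / p - 1) = q i - p := by field_simp
      unfold Real.negMulLog
      nlinarith
  calc partitionEntropy ν τ
      ≤ ∑ i, (ν.real (τ ⁻¹' {i}) * (-Real.log (q i)) + (q i - ν.real (τ ⁻¹' {i}))) :=
        Finset.sum_le_sum fun i _ => h i
    _ = ∑ i, ν.real (τ ⁻¹' {i}) * (-Real.log (q i)) + (∑ i, q i - ∑ i, ν.real (τ ⁻¹' {i})) := by
        rw [Finset.sum_add_distrib, Finset.sum_sub_distrib]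
    _ ≤ ∑ i, ν.real (τ ⁻¹' {i}) * (-Real.log (q i)) := by linarith
    _ = _ := h3.2.symm
    _ ≤ _ := integral_mono_ae h3.1 hg (hle.mono fun x hx => hx.2)

theorem misA_subadd {ι ι₁ ι₂ : Type} [Fintype ι] [MeasurableSpace ι] [MeasurableSingletonClass ι]
    [Fintype ι₁] [MeasurableSpace ι₁] [MeasurableSingletonClass ι₁]
    [Fintype ι₂] [MeasurableSpace ι₂] [MeasurableSingletonClass ι₂]
    (ν : Measure X) [IsProbabilityMeasure ν] (τ : X → ι) (hτ : Measurable τ)
    (τ₁ : X → ι₁) (hτ₁ : Measurable τ₁) (τ₂ : X → ι₂) (hτ₂ : Measurable τ₂) (F : ι₁ × ι₂ → ι)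
    (hF : ∀ x, τ x = F (τ₁ x, τ₂ x)) :
    partitionEntropy ν τ ≤ partitionEntropy ν τ₁ + partitionEntropy ν τ₂ := by
  classical
  set w : ι₁ × ι₂ → ℝ := fun ab => ν.real (τ₁ ⁻¹' {ab.1}) * ν.real (τ₂ ⁻¹' {ab.2}) with hw
  have hw0 : ∀ ab, 0 ≤ w ab := fun ab => mul_nonneg measureReal_nonneg measureReal_nonneg
  have hw1 : ∑ ab, w ab = 1 := by
    rw [Fintype.sum_prod_type]
    simp only [hw]
    rw [← Finset.sum_mul_sum, misA_sum_one ν τ₁ hτ₁, misA_sum_one ν τ₂ hτ₂, mul_one]
  have i1 := misA_integral ν τ₁ hτ₁ (fun i => -Real.log (ν.real (τ₁ ⁻¹' {i})))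
  have i2 := misA_integral ν τ₂ hτ₂ (fun i => -Real.log (ν.real (τ₂ ⁻¹' {i})))
  rw [misA_eq_integral ν τ₁ hτ₁, misA_eq_integral ν τ₂ hτ₂, ← integral_add i1.1 i2.1]
  refine misA_gibbs ν τ hτ (fun i => ∑ ab ∈ Finset.univ.filter (fun ab => F ab = i), w ab)
    (fun i => Finset.sum_nonneg fun ab _ => hw0 ab) ?_ _ (i1.1.add i2.1) ?_
  · exact le_of_eq ((Finset.sum_fiberwise Finset.univ F w).trans hw1)
  · filter_upwards [misA_ae_pos ν τ₁, misA_ae_pos ν τ₂] with x h1 h2
    have hle : w (τ₁ x, τ₂ x) ≤ ∑ ab ∈ Finset.univ.filter (fun ab => F ab = τ x), w ab :=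
      Finset.single_le_sum (f := w) (fun ab _ => hw0 ab) (by simp [hF x])
    have hpos : 0 < w (τ₁ x, τ₂ x) := mul_pos h1 h2
    refine ⟨lt_of_lt_of_le hpos hle, ?_⟩
    have h3 := Real.log_le_log hpos hle
    have h4 : Real.log (w (τ₁ x, τ₂ x)) =
        Real.log (ν.real (τ₁ ⁻¹' {τ₁ x})) + Real.log (ν.real (τ₂ ⁻¹' {τ₂ x})) :=
      Real.log_mul h1.ne' h2.ne'
    linarith

theorem misA_le_log_card {ι : Type} [Fintype ι] [MeasurableSpace ι] [MeasurableSingletonClass ι]
    (ν : Measure X) [IsProbabilityMeasure ν] (τ : X → ι) (hτ : Measurable τ) :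
    partitionEntropy ν τ ≤ Real.log (Fintype.card ι) := by
  have hne : Nonempty X := nonempty_of_isProbabilityMeasure ν
  have hne' : Nonempty ι := ⟨τ hne.some⟩
  have hc : (0 : ℝ) < Fintype.card ι := by exact_mod_cast Fintype.card_pos
  have := gibbs ν τ hτ (fun _ => ((Fintype.card ι : ℝ))⁻¹) (fun _ => inv_pos.mpr hc)
    (by simp) (fun _ => Real.log (Fintype.card ι)) (integrable_const _)
    (Eventually.of_forall fun x => by rw [Real.log_inv, neg_neg])
  simpa using this

theorem misA_nonneg {ι : Type} [Fintype ι] (ν : Measure X) [IsProbabilityMeasure ν] (τ : X → ι) :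
    0 ≤ partitionEntropy ν τ :=
  Finset.sum_nonneg fun _ _ => Real.negMulLog_nonneg measureReal_nonneg measureReal_le_one

theorem misA_map {ι : Type} [Fintype ι] [MeasurableSpace ι] [MeasurableSingletonClass ι]
    (ν : Measure X) (τ : X → ι) (hτ : Measurable τ) {g : X → X} (hg : Measurable g) :
    partitionEntropy ν (fun x => τ (g x)) = partitionEntropy (ν.map g) τ := by
  unfold partitionEntropy
  refine Finset.sum_congr rfl fun i _ => ?_
  rw [map_measureReal_apply hg (hτ (measurableSet_singleton i))]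
  rfl

theorem misA_concave {ι : Type} [Fintype ι] (μ : ℕ → Measure X)
    (hμ : ∀ j, IsProbabilityMeasure (μ j)) (τ : X → ι) {n : ℕ} (hn : 0 < n) :
    ∑ j ∈ Finset.range n, partitionEntropy (μ j) τ ≤
      n * partitionEntropy (((n : ℝ≥0∞))⁻¹ • ∑ j ∈ Finset.range n, μ j) τ := by
  have hnR : (0 : ℝ) < n := by exact_mod_cast hn
  unfold partitionEntropy
  rw [Finset.sum_comm, Finset.mul_sum]
  refine Finset.sum_le_sum fun i _ => ?_
  have h1 : (((n : ℝ≥0∞))⁻¹ • ∑ j ∈ Finset.range n, μ j).real (τ ⁻¹' {i}) =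
      ∑ j ∈ Finset.range n, (n : ℝ)⁻¹ • (μ j).real (τ ⁻¹' {i}) := by
    rw [measureReal_def, Measure.smul_apply, Measure.finsetSum_apply, smul_eq_mul,
      ENNReal.toReal_mul, ENNReal.toReal_sum (fun j _ => measure_ne_top _ _), Finset.mul_sum]
    refine Finset.sum_congr rfl fun j _ => ?_
    simp [measureReal_def]
  have h2 := Real.concaveOn_negMulLog.le_map_sum (t := Finset.range n) (w := fun _ => (n : ℝ)⁻¹)
    (p := fun j => (μ j).real (τ ⁻¹' {i})) (fun _ _ => (inv_pos.mpr hnR).le)
    (by simp [mul_inv_cancel₀ hnR.ne']) (fun _ _ => Set.mem_Ici.mpr measureReal_nonneg)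
  rw [h1]
  refine le_trans (le_of_eq ?_) (mul_le_mul_of_nonneg_left h2 hnR.le)
  rw [Finset.mul_sum]
  refine Finset.sum_congr rfl fun j _ => ?_
  rw [smul_eq_mul, ← mul_assoc, mul_inv_cancel₀ hnR.ne', one_mul]

theorem misA_comb (h a : ℕ → ℝ) (c : ℝ) (hc : 0 ≤ c) (q : ℕ) (ha : ∀ j, 0 ≤ a j)
    (h1 : ∀ m, h (m + q) ≤ h m + a m) (h2 : ∀ m l : ℕ, h (m + l) ≤ h m + l * c)
    (h3 : ∀ l : ℕ, h l ≤ l * c) (n : ℕ) :
    q * h n ≤ ∑ j ∈ Finset.range n, a j + 2 * q ^ 2 * c := by
  have hq0 : (0 : ℝ) ≤ q := Nat.cast_nonneg q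
  have hS : ∀ m, ∑ r ∈ Finset.range q, h (m + r) ≤ q * (q * c) + ∑ j ∈ Finset.range m, a j := by
    intro m
    induction m with
    | zero =>
      simp only [zero_add, Finset.range_zero, Finset.sum_empty, add_zero]
      calc ∑ r ∈ Finset.range q, h r ≤ ∑ _r ∈ Finset.range q, (q * c) := by
            refine Finset.sum_le_sum fun r hr => (h3 r).trans ?_
            have : (r : ℝ) ≤ q := by exact_mod_cast (Finset.mem_range.mp hr).le
            exact mul_le_mul_of_nonneg_right this hc
        _ = _ := by simp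
    | succ m ih =>
      have e1 := Finset.sum_range_succ (fun r => h (m + r)) q
      have e2 := Finset.sum_range_succ' (fun r => h (m + r)) q
      have e3 : ∑ r ∈ Finset.range q, h (m + 1 + r) = ∑ r ∈ Finset.range q, h (m + (r + 1)) :=
        Finset.sum_congr rfl fun r _ => by rw [add_assoc, add_comm 1 r]
      rw [Finset.sum_range_succ, e3]
      have := h1 m
      simp only [add_zero] at e2
      linarith
  have hsum0 : 0 ≤ ∑ j ∈ Finset.range n, a j := Finset.sum_nonneg fun j _ => ha j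
  have hqc : 0 ≤ (q : ℝ) * (q * c) := mul_nonneg hq0 (mul_nonneg hq0 hc)
  rcases lt_or_ge n q with hnq | hnq
  · have : (n : ℝ) ≤ q := by exact_mod_cast hnq.le
    have h4 : h n ≤ q * c := (h3 n).trans (mul_le_mul_of_nonneg_right this hc)
    have h5 := mul_le_mul_of_nonneg_left h4 hq0
    nlinarith
  · obtain ⟨m, rfl⟩ := Nat.exists_eq_add_of_le' hnq
    have h4 : ∑ _r ∈ Finset.range q, h (m + q) ≤ ∑ r ∈ Finset.range q, (h (m + r) + q * c) := by
      refine Finset.sum_le_sum fun r hr => ?_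
      have hr' := (Finset.mem_range.mp hr).le
      have h5 := h2 (m + r) (q - r)
      rw [add_assoc, Nat.add_sub_cancel' hr'] at h5
      have h6 : ((q - r : ℕ) : ℝ) ≤ q := by exact_mod_cast Nat.sub_le q r
      have h7 := mul_le_mul_of_nonneg_right h6 hc
      linarith
    rw [Finset.sum_add_distrib] at h4
    simp only [Finset.sum_const, Finset.card_range, nsmul_eq_mul] at h4
    have h8 : ∑ j ∈ Finset.range m, a j ≤ ∑ j ∈ Finset.range (m + q), a j :=
      Finset.sum_le_sum_of_subset_of_nonneg (Finset.range_mono (Nat.le_add_right m q))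
        fun j _ _ => ha j
    have h9 := hS m
    nlinarith

end Aux

theorem names_le {X : Type} [MeasurableSpace X] {f : X → X} (hf : Measurable f) (σ : Measure X)
    [IsProbabilityMeasure σ] {k : ℕ} (α : X → Fin k) (hα : Measurable α) {q n : ℕ} (hq : 0 < q)
    (hn : 0 < n) :
    q * partitionEntropy σ (fun (x : X) (i : Fin n) => α (f^[i] x)) ≤
      n * partitionEntropy (((n : ℝ≥0∞))⁻¹ • ∑ j ∈ Finset.range n, σ.map f^[j])
        (fun (x : X) (i : Fin q) => α (f^[i] x)) + 2 * q ^ 2 * Real.log k := by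
  have hne : Nonempty X := nonempty_of_isProbabilityMeasure σ
  have hk : 0 < k := Fin.pos (α hne.some)
  have hlog : 0 ≤ Real.log k := Real.log_nonneg (by exact_mod_cast hk)
  have hN : ∀ l : ℕ, Measurable (fun (x : X) (i : Fin l) => α (f^[i] x)) := fun l =>
    measurable_pi_lambda _ fun i => hα.comp (hf.iterate i)
  have hprob : ∀ j : ℕ, IsProbabilityMeasure (σ.map f^[j]) := fun j =>
    Measure.isProbabilityMeasure_map (hf.iterate j).aemeasurable
  have hcard : ∀ (ν : Measure X) [IsProbabilityMeasure ν] (l : ℕ),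
      partitionEntropy ν (fun (x : X) (i : Fin l) => α (f^[i] x)) ≤ l * Real.log k := by
    intro ν _ l
    have := misA_le_log_card ν _ (hN l)
    simpa using this
  have hstep : ∀ m l : ℕ, partitionEntropy σ (fun (x : X) (i : Fin (m + l)) => α (f^[i] x)) ≤
      partitionEntropy σ (fun (x : X) (i : Fin m) => α (f^[i] x)) +
        partitionEntropy (σ.map f^[m]) (fun (x : X) (i : Fin l) => α (f^[i] x)) := by
    intro m l
    rw [← misA_map σ _ (hN l) (hf.iterate m)]
    refine misA_subadd σ _ (hN (m + l)) _ (hN m) _ ((hN l).comp (hf.iterate m))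
      (fun ab => Fin.append ab.1 ab.2) fun x => ?_
    funext i
    refine Fin.addCases (fun i => ?_) (fun i => ?_) i
    · simp
    · simp only [Fin.append_right, Fin.val_natAdd]
      rw [add_comm, Function.iterate_add_apply]
  have hcomb := misA_comb (fun l => partitionEntropy σ (fun (x : X) (i : Fin l) => α (f^[i] x)))
    (fun j => partitionEntropy (σ.map f^[j]) (fun (x : X) (i : Fin q) => α (f^[i] x)))
    (Real.log k) hlog q (fun j => by have := hprob j; exact misA_nonneg _ _) (fun m => hstep m q)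
    (fun m l => by
      have := hprob m
      exact (hstep m l).trans (add_le_add le_rfl (hcard _ l))) (fun l => hcard σ l) n
  have hconc := misA_concave (fun j => σ.map f^[j]) hprob
    (fun (x : X) (i : Fin q) => α (f^[i] x)) hn
  have _ := hq
  linarith

theorem entropy_ge {X ι : Type} [MeasurableSpace X] [Fintype ι] [MeasurableSpace ι]
    [MeasurableSingletonClass ι] (σ : Measure X) [IsProbabilityMeasure σ] (τ : X → ι)
    (hτ : Measurable τ) (g : X → ℝ) (hg : Integrable g σ)
    (h : ∀ᵐ x ∂σ, σ.real (τ ⁻¹' {τ x}) ≤ Real.exp (-g x)) :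
    ∫ x, g x ∂σ ≤ partitionEntropy σ τ := by
  rw [misA_eq_integral σ τ hτ]
  refine integral_mono_ae hg (misA_integral σ τ hτ (fun i => -Real.log (σ.real (τ ⁻¹' {i})))).1 ?_
  filter_upwards [h, misA_ae_pos σ τ] with x hx hpos
  have := Real.log_le_log hpos hx
  rw [Real.log_exp] at this
  linarith

end Pool.Agent.P.MP_eeb913_an.U
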