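import Mathlib
import Pool.Agent.P.MP_eeb913_an.U.Basic

/-!
Partitions with null boundaries.

exists_partition: for each point x there is r ∈ (ε / 4, ε / 2) with μ (frontier (ball x r)) = 0
(exists_null_frontier_thickening for the set {x}, or countably many spheres have positive measure).
Cover the compact ball by finitely many such balls B 0, …, B (k-1); α x is the least index i with
x ∈ B i, and the extra index k outside. Each atom is a Boolean combination of sets with null
frontier (frontier_inter_subset, frontier_compl, frontier_union_subset).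
tendsto_names: an atom of the name partition is the intersection of the sets f^[i] ⁻¹' (α ⁻¹' {a i});
its frontier lies in the union of the f^[i] ⁻¹' (frontier (α ⁻¹' {a i}))
(Continuous.frontier_preimage_subset), null by invariance. Use
ProbabilityMeasure.tendsto_measure_of_null_frontier_of_tendsto' and continuity of negMulLog.
-/

namespace Pool.Agent.P.MP_eeb913_an.U

open MeasureTheory Filter Metric Set
open scoped ENNReal NNReal Topology

private theorem null_frontier_iInter {μ : Measure E} {κ : Type} [Fintype κ] (S : κ → Set E)
    (h : ∀ i, μ (frontier (S i)) = 0) : μ (frontier (⋂ i, S i)) = 0 := by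
  classical
  have key : ∀ t : Finset κ, μ (frontier (⋂ i ∈ t, S i)) = 0 := by
    intro t
    induction t using Finset.induction_on with
    | empty => simp
    | insert a t ha ih =>
      rw [Finset.set_biInter_insert]
      exact null_frontier_inter (h a) ih
  simpa using key Finset.univ

theorem exists_partition (μ : Measure E) [IsFiniteMeasure μ] (ρ : ℝ) {ε : ℝ} (hε : 0 < ε) :
    ∃ (k : ℕ) (α : E → Fin k), Measurable α ∧
      (∀ x y : E, ‖x‖ ≤ ρ → ‖y‖ ≤ ρ → α x = α y → ‖x - y‖ < ε) ∧
      ∀ i, μ (frontier (α ⁻¹' {i})) = 0 := by
  classical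
  have hr : ∀ x : E, ∃ r ∈ Ioo (ε / 4) (ε / 2), μ (frontier (ball x r)) = 0 := by
    intro x
    obtain ⟨r, hr, h0⟩ := exists_null_frontier_thickening μ ({x} : Set E)
      (show ε / 4 < ε / 2 by linarith)
    exact ⟨r, hr, by rwa [thickening_singleton] at h0⟩
  choose r hr h0 using hr
  have hK : IsCompact (closedBall (0 : E) ρ) := isCompact_closedBall _ _
  obtain ⟨t, -, ht⟩ := hK.elim_nhds_subcover (fun x => ball x (r x))
    (fun x _ => ball_mem_nhds x (by linarith [(hr x).1]))
  set β : E → (t → Bool) := fun x i => decide (x ∈ ball (i : E) (r i)) with hβ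
  have hβm : Measurable β := by
    refine measurable_pi_lambda _ fun i => ?_
    refine measurable_to_bool ?_
    have : (fun x : E => decide (x ∈ ball (i : E) (r i))) ⁻¹' {true} = ball (i : E) (r i) := by
      ext x; simp
    rw [this]
    exact measurableSet_ball
  let e := Fintype.equivFin (t → Bool)
  refine ⟨Fintype.card (t → Bool), fun x => e (β x), (measurable_of_finite e).comp hβm, ?_, ?_⟩
  · intro x y hx hy hxy
    have hxy' : β x = β y := e.injective hxy
    have hxK : x ∈ closedBall (0 : E) ρ := by simpa using hx
    obtain ⟨i, hi, hxi⟩ := mem_iUnion₂.1 (ht hxK)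
    have h1 : β x ⟨i, hi⟩ = true := by simpa [hβ] using hxi
    rw [hxy'] at h1
    have hyi : y ∈ ball i (r i) := by simpa [hβ] using h1
    have h2 := dist_triangle_right x y i
    rw [mem_ball] at hxi hyi
    rw [← dist_eq_norm]
    linarith [(hr i).2]
  · intro j
    have : (fun x => e (β x)) ⁻¹' {j} =
        ⋂ i : t, (if e.symm j i = true then ball (i : E) (r i) else (ball (i : E) (r i))ᶜ) := by
      ext x
      simp only [mem_preimage, mem_singleton_iff, mem_iInter]
      rw [← e.eq_symm_apply, funext_iff]
      refine forall_congr' fun i => ?_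
      cases h : e.symm j i <;> simp [hβ]
    rw [this]
    refine null_frontier_iInter _ fun i => ?_
    split_ifs
    · exact h0 i
    · rw [frontier_compl]; exact h0 i

theorem tendsto_names {f : E → E} (hf : Continuous f) {ι : Type} {l : Filter ι}
    {ν : ι → ProbabilityMeasure E} {μ : ProbabilityMeasure E} (hlim : Tendsto ν l (𝓝 μ))
    (hμ : MeasurePreserving f (μ : Measure E) (μ : Measure E)) {k : ℕ} (α : E → Fin k)
    (hα : ∀ i, (μ : Measure E) (frontier (α ⁻¹' {i})) = 0) (q : ℕ) :
    Tendsto (fun j => partitionEntropy (ν j : Measure E)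
      (fun (x : E) (i : Fin q) => α (f^[i] x))) l
      (𝓝 (partitionEntropy (μ : Measure E) (fun (x : E) (i : Fin q) => α (f^[i] x)))) := by
  unfold partitionEntropy
  refine tendsto_finsetSum _ fun a _ => ?_
  refine (Real.continuous_negMulLog.tendsto _).comp ?_
  have hnull : (μ : Measure E)
      (frontier ((fun (x : E) (i : Fin q) => α (f^[i] x)) ⁻¹' {a})) = 0 := by
    have : (fun (x : E) (i : Fin q) => α (f^[i] x)) ⁻¹' {a} =
        ⋂ i : Fin q, f^[i] ⁻¹' (α ⁻¹' {a i}) := by
      ext x
      simp [funext_iff]
    rw [this]
    refine null_frontier_iInter _ fun i => ?_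
    refine measure_mono_null ((hf.iterate i).frontier_preimage_subset _) ?_
    rw [(hμ.iterate i).measure_preimage isClosed_frontier.measurableSet.nullMeasurableSet]
    exact hα _
  have := ProbabilityMeasure.tendsto_measure_of_null_frontier_of_tendsto' hlim hnull
  exact (ENNReal.tendsto_toReal (measure_ne_top _ _)).comp this

end Pool.Agent.P.MP_eeb913_an.U
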