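import Mathlib
import Pool.Agent.P.MP_eeb913_an.U.Basic
import Pool.Agent.P.MP_eeb913_an.U.MisA
import Pool.Agent.P.MP_eeb913_an.U.MisB

/-!
Misiurewicz's construction of an invariant measure from mass bounds on Bowen balls.

Sketch. For n k > 0 let μ k = (n k)⁻¹ • ∑_{j < n k} (σ k).map f^[j], a probability measure with
μ k (closedBall 0 ρ)ᶜ = 0. These lie in a compact set of ProbabilityMeasure E
(isCompact_setOfPred_probabilityMeasure_mass_eq_compl_isCompact_le or
isCompact_closure_of_isTightMeasureSet); take an ultrafilter finer than atTop, or a subsequence, with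
limit μ. Invariance: for bounded continuous u, ∫ u ∘ f dμ k - ∫ u dμ k = O (1 / n k), then
ext_of_forall_integral_eq_of_IsFiniteMeasure. ∫ φ dμ k = (n k)⁻¹ ∫ birkhoffSum f φ (n k) dσ k tends
to ∫ φ dμ. Given η take ε, then α from exists_partition. For x ∈ Γ k the atom of x for the names of
length n k, intersected with Γ k, lies in the Bowen ball, and has the same measure as the atom
(Γ k is conull; measure_congr or measure_inter_eq_of_ae). entropy_ge with
g = n k (a - η) - birkhoffSum and names_le give, after dividing by q n k and passing to the limit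
(tendsto_names), a - η - ∫ φ dμ ≤ H_μ (α^q) / q for every q > 0; so the limsup is at least that.
-/

namespace Pool.Agent.P.MP_eeb913_an.U

open MeasureTheory Filter Metric Set
open scoped ENNReal NNReal Topology BoundedContinuousFunction

/-- the time average of the images of a measure -/
noncomputable def misAv (f : E → E) (σ : Measure E) (n : ℕ) : Measure E :=
  ((n : ℝ≥0∞))⁻¹ • ∑ j ∈ Finset.range n, σ.map f^[j]

theorem misAv_prob {f : E → E} (hf : Continuous f) (σ : Measure E) [IsProbabilityMeasure σ]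
    {n : ℕ} (hn : 0 < n) : IsProbabilityMeasure (misAv f σ n) := by
  constructor
  have h : ∀ j ∈ Finset.range n, (σ.map f^[j]) univ = 1 := fun j _ => by
    rw [Measure.map_apply (hf.iterate j).measurable MeasurableSet.univ, preimage_univ,
      measure_univ]
  rw [misAv, Measure.smul_apply, Measure.finsetSum_apply, Finset.sum_congr rfl h]
  simp only [Finset.sum_const, Finset.card_range, nsmul_eq_mul, mul_one, smul_eq_mul]
  exact ENNReal.inv_mul_cancel (by exact_mod_cast hn.ne') (ENNReal.natCast_ne_top n)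

theorem misAv_integrable {f : E → E} (hf : Continuous f) (σ : Measure E) [IsProbabilityMeasure σ]
    (u : E →ᵇ ℝ) (j : ℕ) : Integrable (fun x => u (f^[j] x)) σ :=
  (u.compContinuous ⟨f^[j], hf.iterate j⟩).integrable σ

theorem misAv_birk {f : E → E} (hf : Continuous f) (σ : Measure E) [IsProbabilityMeasure σ]
    (u : E →ᵇ ℝ) (n : ℕ) : Integrable (birkhoffSum f u n) σ :=
  integrable_finsetSum _ fun j _ => misAv_integrable hf σ u j

theorem misAv_integral {f : E → E} (hf : Continuous f) (σ : Measure E) [IsProbabilityMeasure σ]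
    (u : E →ᵇ ℝ) (n : ℕ) :
    ∫ x, u x ∂misAv f σ n = (n : ℝ)⁻¹ * ∫ x, birkhoffSum f u n x ∂σ := by
  rw [misAv, integral_smul_measure, integral_finsetSum_measure fun j _ => u.integrable _]
  have h : ∀ j ∈ Finset.range n, ∫ x, u x ∂σ.map f^[j] = ∫ x, u (f^[j] x) ∂σ := fun j _ =>
    integral_map (hf.iterate j).measurable.aemeasurable u.continuous.aestronglyMeasurable
  rw [Finset.sum_congr rfl h, ← integral_finsetSum _ fun j _ => misAv_integrable hf σ u j]
  simp [birkhoffSum]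

theorem misAv_shift {f : E → E} (hf : Continuous f) (σ : Measure E) [IsProbabilityMeasure σ]
    (u : E →ᵇ ℝ) (n : ℕ) :
    |∫ x, u (f x) ∂misAv f σ n - ∫ x, u x ∂misAv f σ n| ≤ (n : ℝ)⁻¹ * (2 * ‖u‖) := by
  have h1 := misAv_integral hf σ (u.compContinuous ⟨f, hf⟩) n
  have h1' : ∫ x, u (f x) ∂misAv f σ n =
      (n : ℝ)⁻¹ * ∫ x, birkhoffSum f (u.compContinuous ⟨f, hf⟩) n x ∂σ := h1
  rw [h1', misAv_integral hf σ u n, ← mul_sub, abs_mul, abs_of_nonneg (by positivity),
    ← integral_sub (misAv_birk hf σ _ n) (misAv_birk hf σ u n)]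
  refine mul_le_mul_of_nonneg_left ?_ (by positivity)
  have h2 : ∀ x, ‖birkhoffSum f (u.compContinuous ⟨f, hf⟩) n x - birkhoffSum f u n x‖ ≤
      2 * ‖u‖ := by
    intro x
    have e : birkhoffSum f (u.compContinuous ⟨f, hf⟩) n x = birkhoffSum f u n (f x) := by
      simp only [birkhoffSum, BoundedContinuousFunction.compContinuous_apply,
        ContinuousMap.coe_mk, ← Function.iterate_succ_apply, ← Function.iterate_succ_apply']
    rw [e, birkhoffSum_apply_sub_birkhoffSum]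
    have a1 := u.norm_coe_le_norm (f^[n] x)
    have a2 := u.norm_coe_le_norm x
    linarith [norm_sub_le (u (f^[n] x)) (u x)]
  have := norm_integral_le_of_norm_le_const (μ := σ) (Eventually.of_forall h2)
  simpa using this

theorem mis_step {f : E → E} (hf : Continuous f) (u : E →ᵇ ℝ) {ρ ε c : ℝ} (σ : Measure E)
    [IsProbabilityMeasure σ] {n : ℕ} (hn : 0 < n) {Γ : Set E} (hΓ : ∀ᵐ x ∂σ, x ∈ Γ)
    (hV : ∀ x ∈ Γ, ∀ j < n, ‖f^[j] x‖ ≤ ρ)
    (h : ∀ x ∈ Γ, σ.real {y | y ∈ Γ ∧ ∀ j < n, ‖f^[j] x - f^[j] y‖ < ε} ≤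
      Real.exp (birkhoffSum f u n x - n * c))
    {m : ℕ} {α : E → Fin m} (hα : Measurable α)
    (hs : ∀ x y : E, ‖x‖ ≤ ρ → ‖y‖ ≤ ρ → α x = α y → ‖x - y‖ < ε) {q : ℕ} (hq : 0 < q) :
    q * (c - ∫ x, u x ∂misAv f σ n) ≤
      partitionEntropy (misAv f σ n) (fun (x : E) (i : Fin q) => α (f^[i] x)) +
        (n : ℝ)⁻¹ * (2 * q ^ 2 * Real.log m) := by
  have hτ : Measurable (fun (x : E) (i : Fin n) => α (f^[i] x)) :=
    measurable_pi_lambda _ fun i => hα.comp (hf.iterate i).measurable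
  have h1 := entropy_ge σ (fun (x : E) (i : Fin n) => α (f^[i] x)) hτ
    (fun x => n * c - birkhoffSum f u n x) ((integrable_const _).sub (misAv_birk hf σ u n)) (by
      filter_upwards [hΓ] with x hx
      rw [neg_sub]
      refine le_trans ?_ (h x hx)
      refine ENNReal.toReal_mono (measure_ne_top _ _) (measure_mono_ae ?_)
      filter_upwards [hΓ] with y hy hy'
      refine ⟨hy, fun j hj => hs _ _ (hV x hx j hj) (hV y hy j hj) ?_⟩
      exact (congrFun hy' ⟨j, hj⟩).symm)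
  have h2 := names_le hf.measurable σ α hα hq hn
  rw [integral_sub (integrable_const _) (misAv_birk hf σ u n)] at h1
  simp only [integral_const, probReal_univ, smul_eq_mul, one_mul] at h1
  have hn' : (0 : ℝ) < n := by exact_mod_cast hn
  have hq' : (0 : ℝ) < q := by exact_mod_cast hq
  have h3 := mul_le_mul_of_nonneg_left ((mul_le_mul_of_nonneg_left h1 hq'.le).trans h2)
    (inv_nonneg.mpr hn'.le)
  rw [misAv_integral hf σ u n]
  have e1 : (n : ℝ)⁻¹ * (q * (n * c - ∫ x, birkhoffSum f u n x ∂σ)) =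
      q * (c - (n : ℝ)⁻¹ * ∫ x, birkhoffSum f u n x ∂σ) := by field_simp
  rw [e1, mul_add, ← mul_assoc, inv_mul_cancel₀ hn'.ne', one_mul] at h3
  exact h3

theorem mis_pos {f : E → E} (hf : Continuous f) (u : E →ᵇ ℝ) (ρ : ℝ) (σ : ℕ → Measure E)
    (hσ : ∀ k, IsProbabilityMeasure (σ k)) (n : ℕ → ℕ) (hpos : ∀ k, 0 < n k)
    (hn : Tendsto n atTop atTop) (Γ : ℕ → Set E) (hΓ : ∀ k, ∀ᵐ x ∂σ k, x ∈ Γ k)
    (hV : ∀ k, ∀ x ∈ Γ k, ∀ j < n k, ‖f^[j] x‖ ≤ ρ) (a : ℝ)
    (h : ∀ η : ℝ, 0 < η → ∃ ε : ℝ, 0 < ε ∧ ∀ᶠ k in atTop, ∀ x ∈ Γ k,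
      (σ k).real {y | y ∈ Γ k ∧ ∀ j < n k, ‖f^[j] x - f^[j] y‖ < ε} ≤
        Real.exp (birkhoffSum f u (n k) x - n k * (a - η))) :
    ∃ μ : Measure E, IsInvariantProb f μ ∧ (a : EReal) ≤ fe f u μ := by
  let ν : ℕ → ProbabilityMeasure E := fun k =>
    ⟨misAv f (σ k) (n k), misAv_prob hf (σ k) (hpos k)⟩
  have hν : ∀ k, (ν k : Measure E) = misAv f (σ k) (n k) := fun k => rfl
  have hK : ∀ k, (ν k : Measure E) (closedBall (0 : E) ρ)ᶜ = 0 := by
    intro k
    rw [hν, misAv, Measure.smul_apply, Measure.finsetSum_apply, Finset.sum_eq_zero, smul_zero]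
    intro j hj
    rw [Measure.map_apply (hf.iterate j).measurable isClosed_closedBall.measurableSet.compl]
    refine measure_mono_null (t := {x | ¬ x ∈ Γ k}) (fun x hx hx' => hx ?_) (ae_iff.mp (hΓ k))
    exact mem_closedBall_zero_iff.mpr (hV k x hx' j (Finset.mem_range.mp hj))
  have hc : IsCompact (closure (range ν)) := by
    refine isCompact_closure_of_isTightMeasureSet
      (isTightMeasureSet_iff_exists_isCompact_measure_compl_le.mpr fun ε _ =>
        ⟨closedBall 0 ρ, isCompact_closedBall 0 ρ, ?_⟩)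
    rintro _ ⟨_, ⟨k, rfl⟩, rfl⟩
    rw [hK k]
    exact zero_le
  let U : Ultrafilter ℕ := Ultrafilter.of atTop
  have hU : (U : Filter ℕ) ≤ atTop := Ultrafilter.of_le atTop
  obtain ⟨μ, -, hμ : Tendsto ν U (𝓝 μ)⟩ := hc.ultrafilter_le_nhds (U.map ν)
    (.trans (by simp) (monotone_principal subset_closure))
  have hint := ProbabilityMeasure.tendsto_iff_forall_integral_tendsto.mp hμ
  have hinv : Tendsto (fun k => ((n k : ℕ) : ℝ)⁻¹) U (𝓝 0) :=
    (tendsto_inv_atTop_zero.comp (tendsto_natCast_atTop_atTop.comp hn)).mono_left hU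
  have hmp : MeasurePreserving f (μ : Measure E) (μ : Measure E) := by
    refine ⟨hf.measurable, ext_of_forall_integral_eq_of_IsFiniteMeasure fun v => ?_⟩
    rw [integral_map hf.measurable.aemeasurable v.continuous.aestronglyMeasurable]
    have t1 := ((hint (v.compContinuous ⟨f, hf⟩)).sub (hint v)).abs
    have t2 := hinv.mul_const (2 * ‖v‖)
    rw [zero_mul] at t2
    have t3 := le_of_tendsto_of_tendsto' t1 t2 fun k => by
      have := hσ k
      exact misAv_shift hf (σ k) v (n k)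
    exact sub_eq_zero.mp (abs_nonpos_iff.mp t3)
  refine ⟨μ, ⟨inferInstance, hmp⟩, ?_⟩
  have key : ∀ η : ℝ, 0 < η →
      ((a - η - ∫ x, u x ∂(μ : Measure E) : ℝ) : EReal) ≤ ksEntropy f (μ : Measure E) := by
    intro η hη
    obtain ⟨ε, hε, hev⟩ := h η hη
    obtain ⟨m, α, hα, hs, hfr⟩ := exists_partition (μ : Measure E) ρ hε
    refine le_iSup_of_le m (le_iSup₂_of_le α hα ?_)
    refine le_limsup_of_frequently_le (Eventually.frequently ?_)
    filter_upwards [eventually_gt_atTop 0] with q hq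
    have hq' : (0 : ℝ) < q := by exact_mod_cast hq
    rw [EReal.coe_le_coe_iff, le_div_iff₀ hq', mul_comm]
    have t1 := ((hint u).const_sub (a - η)).const_mul (q : ℝ)
    have t2 := (tendsto_names hf hμ hmp α hfr q).add (hinv.mul_const (2 * q ^ 2 * Real.log m))
    rw [zero_mul, add_zero] at t2
    refine le_of_tendsto_of_tendsto t1 t2 ?_
    filter_upwards [hU hev] with k hk
    have := hσ k
    exact mis_step hf u (σ k) (hpos k) (hΓ k) (hV k) hk hα hs hq
  unfold fe
  generalize ksEntropy f (μ : Measure E) = H at key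
  induction H using EReal.rec with
  | bot => exact absurd (le_bot_iff.mp (key 1 one_pos)) (EReal.coe_ne_bot _)
  | top => simp
  | coe r =>
    rw [← EReal.coe_add, EReal.coe_le_coe_iff]
    refine le_of_forall_pos_le_add fun η hη => ?_
    have := EReal.coe_le_coe_iff.mp (key η hη)
    linarith

theorem misiurewicz {f : E → E} (hf : Continuous f) {φ : E → ℝ} (hφ : Continuous φ) {B : ℝ}
    (hB : ∀ x, |φ x| ≤ B) (ρ : ℝ) (σ : ℕ → Measure E) (hσ : ∀ k, IsProbabilityMeasure (σ k))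
    (n : ℕ → ℕ) (hn : Tendsto n atTop atTop) (Γ : ℕ → Set E) (hΓ : ∀ k, ∀ᵐ x ∂σ k, x ∈ Γ k)
    (hV : ∀ k, ∀ x ∈ Γ k, ∀ j < n k, ‖f^[j] x‖ ≤ ρ) (a : ℝ)
    (h : ∀ η : ℝ, 0 < η → ∃ ε : ℝ, 0 < ε ∧ ∀ᶠ k in atTop, ∀ x ∈ Γ k,
      (σ k).real {y | y ∈ Γ k ∧ ∀ j < n k, ‖f^[j] x - f^[j] y‖ < ε} ≤
        Real.exp (birkhoffSum f φ (n k) x - n k * (a - η))) :
    ∃ μ : Measure E, IsInvariantProb f μ ∧ (a : EReal) ≤ fe f φ μ := by
  obtain ⟨k₀, hk₀⟩ := eventually_atTop.mp (hn.eventually (eventually_gt_atTop 0))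
  let u : E →ᵇ ℝ := BoundedContinuousFunction.ofNormedAddCommGroup φ hφ B hB
  refine mis_pos hf u ρ (fun k => σ (k + k₀)) (fun k => hσ _) (fun k => n (k + k₀))
    (fun k => hk₀ _ (Nat.le_add_left _ _)) (hn.comp (tendsto_add_atTop_nat k₀))
    (fun k => Γ (k + k₀)) (fun k => hΓ _) (fun k => hV _) a fun η hη => ?_
  obtain ⟨ε, hε, hev⟩ := h η hη
  exact ⟨ε, hε, (tendsto_add_atTop_nat k₀).eventually hev⟩

end Pool.Agent.P.MP_eeb913_an.U
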