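import Mathlib

/-!
Combinatorics of block patterns for the lower bound on partition sums.

A pattern `s` gives for every block `b` (the times `b j, …, b j + j - 1`) an offset `s b`; the block is
hit when `s b < j`, and then `b j + s b` is a cut time.
-/

namespace Pool.Agent.P.MP_eeb913_an.U.Low

open Finset Filter

/-- The number of hit blocks before `b`. -/
def cn (s : ℕ → ℕ) (j b : ℕ) : ℕ := Nat.count (fun b => s b < j) b

/-- The `p`-th hit block. -/
noncomputable def nb (s : ℕ → ℕ) (j p : ℕ) : ℕ := Nat.nth (fun b => s b < j) p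

/-- The `p`-th cut time. -/
noncomputable def tt (s : ℕ → ℕ) (j p : ℕ) : ℕ := nb s j p * j + s (nb s j p)

/-- The length of the `p`-th letter. -/
noncomputable def len (s : ℕ → ℕ) (j p : ℕ) : ℕ := tt s j (p + 1) - tt s j p

/-- The times that are not controlled by the code. -/
def UU (s : ℕ → ℕ) (j k k₀ N : ℕ) : Finset ℕ :=
  (range N).filter fun t => k ≤ t / j ∨ cn s j (t / j) ≤ k₀ ∨ cn s j k ≤ cn s j (t / j + 1) + k₀

variable {s : ℕ → ℕ} {j k k₀ N p q b : ℕ}

theorem cn_mono (h : b ≤ k) : cn s j b ≤ cn s j k := Nat.count_monotone _ h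

theorem cn_le : cn s j k ≤ k := Nat.count_le _

theorem cn_succ : cn s j (b + 1) = cn s j b + if s b < j then 1 else 0 := Nat.count_succ _ _

theorem nb_lt (h : p < cn s j k) : nb s j p < k := Nat.nth_lt_of_lt_count h

theorem nb_hit (h : p < cn s j k) : s (nb s j p) < j :=
  Nat.nth_mem (p := fun b => s b < j) p fun hf => h.trans_le (Nat.count_le_card hf k)

theorem cn_nb (h : p < cn s j k) : cn s j (nb s j p) = p :=
  Nat.count_nth (p := fun b => s b < j) fun hf => h.trans_le (Nat.count_le_card hf k)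

theorem nb_cn (h : s b < j) : nb s j (cn s j b) = b := Nat.nth_count (p := fun b => s b < j) h

theorem le_nb (h : p < cn s j k) (hb : cn s j b ≤ p) : b ≤ nb s j p := by
  by_contra hc
  have h1 : cn s j (nb s j p + 1) ≤ cn s j b := cn_mono (by omega)
  rw [cn_succ, cn_nb h, if_pos (nb_hit h)] at h1
  omega

theorem tt_lt_of (h : p < cn s j b) : tt s j p < b * j := by
  have h1 := nb_lt h
  have h2 := nb_hit h
  have h3 : (nb s j p + 1) * j ≤ b * j := Nat.mul_le_mul_right j h1
  unfold tt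
  nlinarith

theorem le_tt_of (h : p < cn s j k) (hb : cn s j b ≤ p) : b * j ≤ tt s j p := by
  have h3 : b * j ≤ nb s j p * j := Nat.mul_le_mul_right j (le_nb h hb)
  unfold tt
  omega

theorem tt_lt (hpq : p < q) (h : q < cn s j k) : tt s j p < tt s j q := by
  have h1 : p < cn s j (nb s j q) := by rw [cn_nb h]; exact hpq
  exact (tt_lt_of h1).trans_le (le_tt_of h (cn_nb h).le)

theorem tt_le (hpq : p ≤ q) (h : q < cn s j k) : tt s j p ≤ tt s j q := by
  rcases hpq.eq_or_lt with rfl | hpq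
  · exact le_rfl
  · exact (tt_lt hpq h).le

theorem len_pos (h : p + 1 < cn s j k) : 0 < len s j p :=
  Nat.sub_pos_of_lt (tt_lt (Nat.lt_succ_self p) h)

theorem tt_add_len (h : p + 1 < cn s j k) : tt s j p + len s j p = tt s j (p + 1) :=
  Nat.add_sub_cancel' (tt_le (Nat.le_succ p) h)

theorem exists_letter {t : ℕ} (hj : 0 < j) (ht : t < N) (hU : t ∉ UU s j k k₀ N) :
    ∃ p, k₀ ≤ p ∧ p + k₀ + 1 < cn s j k ∧ tt s j p ≤ t ∧ t < tt s j (p + 1) := by
  simp only [UU, mem_filter, mem_range, ht, true_and, not_or, not_le] at hU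
  obtain ⟨h1, h2, h3⟩ := hU
  set b := t / j with hb
  have hb1 : b * j ≤ t := Nat.div_mul_le_self t j
  have hb2 : t < (b + 1) * j := by
    have := Nat.lt_mul_div_succ t hj
    rw [mul_comm] at this
    exact this
  have hs := cn_succ (s := s) (j := j) (b := b)
  have hlow : tt s j (cn s j b - 1) ≤ t := (tt_lt_of (b := b) (by omega)).le.trans hb1
  have hup : t < tt s j (cn s j (b + 1)) := hb2.trans_le (le_tt_of (k := k) (by omega) le_rfl)
  by_cases hc : t < tt s j (cn s j b)
  · refine ⟨cn s j b - 1, by omega, ?_, hlow, ?_⟩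
    · split_ifs at hs <;> omega
    · rwa [show cn s j b - 1 + 1 = cn s j b by omega]
  · by_cases hh : s b < j
    · rw [if_pos hh] at hs
      exact ⟨cn s j b, by omega, by omega, by omega, by rwa [← hs]⟩
    · rw [if_neg hh, add_zero] at hs
      rw [hs] at hup
      exact absurd hup hc

theorem card_UU (hj : 0 < j) (hN : N < (k + 1) * j) :
    ((UU s j k k₀ N).card : ℝ) ≤ j * (1 + ∑ b ∈ range k, ((if cn s j b ≤ k₀ then (1 : ℝ) else 0) +
      if cn s j k ≤ cn s j (b + 1) + k₀ then (1 : ℝ) else 0)) := by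
  set F := (range k).filter fun b => cn s j b ≤ k₀ ∨ cn s j k ≤ cn s j (b + 1) + k₀ with hF
  have hsub : UU s j k k₀ N ⊆ (insert k F).biUnion fun b => Ico (b * j) (b * j + j) := by
    intro t ht
    simp only [UU, mem_filter, mem_range] at ht
    have hb1 : t / j * j ≤ t := Nat.div_mul_le_self t j
    have hb2 : t < t / j * j + j := by
      have := Nat.lt_mul_div_succ t hj
      nlinarith
    refine mem_biUnion.2 ⟨t / j, ?_, mem_Ico.2 ⟨hb1, hb2⟩⟩
    have hk : t / j < k + 1 := (Nat.div_lt_iff_lt_mul hj).2 (ht.1.trans hN)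
    by_cases hc : k ≤ t / j
    · exact mem_insert.2 (Or.inl (by omega))
    · refine mem_insert_of_mem (mem_filter.2 ⟨mem_range.2 (by omega), ?_⟩)
      rcases ht.2 with h | h
      · exact absurd h hc
      · exact h
  have h1 : (UU s j k k₀ N).card ≤ (F.card + 1) * j := by
    refine (card_le_card hsub).trans (card_biUnion_le.trans ?_)
    simp only [Nat.card_Ico, Nat.add_sub_cancel_left, sum_const, smul_eq_mul]
    exact Nat.mul_le_mul_right j (card_insert_le _ _)
  have h2 : (F.card : ℝ) ≤ ∑ b ∈ range k, ((if cn s j b ≤ k₀ then (1 : ℝ) else 0) +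
      if cn s j k ≤ cn s j (b + 1) + k₀ then (1 : ℝ) else 0) := by
    rw [hF, card_filter]
    push_cast
    refine sum_le_sum fun b _ => ?_
    by_cases h1 : cn s j b ≤ k₀ <;> by_cases h2 : cn s j k ≤ cn s j (b + 1) + k₀ <;> simp [h1, h2]
  have h3 : ((UU s j k k₀ N).card : ℝ) ≤ (F.card + 1) * j := by exact_mod_cast h1
  have hj' : (0 : ℝ) ≤ j := Nat.cast_nonneg j
  nlinarith

theorem window_count {T₀ : ℕ} (hT : T₀ < j) :
    (k : ℝ) ≤ 1 + 2 * (∑ b ∈ range k, if T₀ < s b then (1 : ℝ) else 0) +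
      ∑ p ∈ range (cn s j k - 1),
        if j ≤ len s j p + T₀ ∧ len s j p ≤ j + T₀ then (1 : ℝ) else 0 := by
  set Gd := (range (k - 1)).filter fun b => s b ≤ T₀ ∧ s (b + 1) ≤ T₀ with hGd
  set Wn := (range (cn s j k - 1)).filter fun p => j ≤ len s j p + T₀ ∧ len s j p ≤ j + T₀ with hWn
  set Bd := (range k).filter fun b => T₀ < s b with hBd
  have h1 : Gd.card ≤ Wn.card := by
    refine card_le_card_of_injOn (fun b => cn s j b) (fun b hb => ?_) (fun b hb b' hb' h => ?_)
    · obtain ⟨hk, h0, h1⟩ := mem_filter.1 (mem_coe.1 hb)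
      rw [mem_range] at hk
      have e1 : cn s j (b + 1) = cn s j b + 1 := by rw [cn_succ, if_pos (by omega)]
      have e2 : cn s j (b + 1 + 1) = cn s j (b + 1) + 1 := by rw [cn_succ, if_pos (by omega)]
      have e3 : cn s j (b + 1 + 1) ≤ cn s j k := cn_mono (by omega)
      have e4 : tt s j (cn s j b) = b * j + s b := by unfold tt; rw [nb_cn (by omega)]
      have e5 : tt s j (cn s j b + 1) = (b + 1) * j + s (b + 1) := by
        unfold tt; rw [← e1, nb_cn (by omega)]
      have e6 : (b + 1) * j = b * j + j := by ring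
      have e7 : len s j (cn s j b) = (b + 1) * j + s (b + 1) - (b * j + s b) := by
        unfold len; rw [e4, e5]
      refine mem_coe.2 (mem_filter.2 ⟨mem_range.2 ?_, ?_⟩)
      · show cn s j b < cn s j k - 1
        omega
      · show j ≤ len s j (cn s j b) + T₀ ∧ len s j (cn s j b) ≤ j + T₀
        omega
    · have h1 := (mem_filter.1 (mem_coe.1 hb)).2.1
      have h2 := (mem_filter.1 (mem_coe.1 hb')).2.1
      exact Nat.count_injective (p := fun b => s b < j) (by omega) (by omega) h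
  have h2 : k - 1 ≤ Gd.card + Bd.card + Bd.card := by
    have hsub : range (k - 1) ⊆ Gd ∪ Bd ∪ Bd.image fun b => b - 1 := by
      intro b hb
      have hb' := mem_range.1 hb
      simp only [hGd, hBd, mem_union, mem_filter, mem_range, mem_image]
      by_cases h0 : s b ≤ T₀
      · by_cases h1 : s (b + 1) ≤ T₀
        · exact Or.inl (Or.inl ⟨hb', h0, h1⟩)
        · exact Or.inr ⟨b + 1, ⟨by omega, by omega⟩, by omega⟩
      · exact Or.inl (Or.inr ⟨by omega, by omega⟩)
    have := card_le_card hsub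
    rw [card_range] at this
    have h3 := card_union_le (Gd ∪ Bd) (Bd.image fun b => b - 1)
    have h4 := card_union_le Gd Bd
    have h5 : (Bd.image fun b => b - 1).card ≤ Bd.card := card_image_le
    omega
  have e1 : (∑ b ∈ range k, if T₀ < s b then (1 : ℝ) else 0) = Bd.card := by
    rw [hBd, card_filter]; push_cast; rfl
  have e2 : (∑ p ∈ range (cn s j k - 1),
      if j ≤ len s j p + T₀ ∧ len s j p ≤ j + T₀ then (1 : ℝ) else 0) = Wn.card := by
    rw [hWn, card_filter]; push_cast; rfl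
  rw [e1, e2]
  have h3 : k ≤ 1 + 2 * Bd.card + Wn.card := by omega
  exact_mod_cast h3

theorem cost_le {T₀ : ℕ} (hT : T₀ < j) {D C : ℝ} (hD : 0 ≤ D) (hC : 0 ≤ C) :
    (∑ p ∈ range (cn s j k - 1),
        if j ≤ len s j p + T₀ ∧ len s j p ≤ j + T₀ then -D else C) ≤
      -(D * k) + (D + C) * (1 + 2 * ∑ b ∈ range k, if T₀ < s b then (1 : ℝ) else 0) := by
  have h1 := window_count (s := s) (k := k) hT
  set w := ∑ p ∈ range (cn s j k - 1),
    if j ≤ len s j p + T₀ ∧ len s j p ≤ j + T₀ then (1 : ℝ) else 0 with hw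
  set bd := ∑ b ∈ range k, if T₀ < s b then (1 : ℝ) else 0 with hbd
  have h2 : (∑ p ∈ range (cn s j k - 1),
        if j ≤ len s j p + T₀ ∧ len s j p ≤ j + T₀ then -D else C) =
      C * (cn s j k - 1 : ℕ) - (D + C) * w := by
    rw [hw, mul_sum]
    have : C * ((cn s j k - 1 : ℕ) : ℝ) = ∑ _p ∈ range (cn s j k - 1), C := by
      rw [sum_const, card_range, nsmul_eq_mul, mul_comm]
    rw [this, ← sum_sub_distrib]
    refine sum_congr rfl fun p _ => ?_
    split_ifs <;> ring
  have h3 : ((cn s j k - 1 : ℕ) : ℝ) ≤ k := by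
    have := cn_le (s := s) (j := j) (k := k)
    exact_mod_cast (by omega : cn s j k - 1 ≤ k)
  rw [h2]
  nlinarith [mul_le_mul_of_nonneg_left h3 hC, mul_le_mul_of_nonneg_left h1 (add_nonneg hD hC)]

/-- Sums along the letters telescope. -/
theorem sum_letters (ψ : ℕ → ℝ) {l : ℕ} (hl : l < cn s j k) :
    ∑ p ∈ range l, ∑ u ∈ range (len s j p), ψ (tt s j p + u) =
      ∑ t ∈ Ico (tt s j 0) (tt s j l), ψ t := by
  induction l with
  | zero => simp
  | succ l ih =>
    rw [sum_range_succ, ih (by omega), ← sum_Ico_consecutive ψ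
      (tt_le (k := k) (Nat.zero_le l) (by omega))
      (tt_le (Nat.le_succ l) hl), sum_Ico_eq_sum_range (m := tt s j l)]
    rfl

theorem sum_letters_le (hj : 0 < j) (hN : k * j ≤ N) (ψ : ℕ → ℝ) {M : ℝ} (hM : ∀ t, -M ≤ ψ t)
    (hM0 : 0 ≤ M) :
    ∑ p ∈ range (cn s j k - 1), ∑ u ∈ range (len s j p), ψ (tt s j p + u) ≤
      ∑ t ∈ range N, ψ t + M * (UU s j k k₀ N).card := by
  classical
  obtain ⟨I, hI, hIs, hIU⟩ : ∃ I : Finset ℕ, ∑ p ∈ range (cn s j k - 1),
      ∑ u ∈ range (len s j p), ψ (tt s j p + u) = ∑ t ∈ I, ψ t ∧ I ⊆ range N ∧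
      range N \ I ⊆ UU s j k k₀ N := by
    by_cases h0 : cn s j k = 0
    · refine ⟨∅, by simp [h0], empty_subset _, fun t ht => ?_⟩
      by_contra hc
      obtain ⟨p, -, h2, -⟩ := exists_letter hj (by simpa using ht) hc
      omega
    · refine ⟨Ico (tt s j 0) (tt s j (cn s j k - 1)), sum_letters ψ (k := k) (by omega),
        fun t ht => ?_, fun t ht => ?_⟩
      · have := tt_lt_of (s := s) (j := j) (p := cn s j k - 1) (b := k) (by omega)
        exact mem_range.2 (by have := (mem_Ico.1 ht).2; omega)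
      · by_contra hc
        obtain ⟨ht1, ht2⟩ := mem_sdiff.1 ht
        obtain ⟨p, -, h2, h3, h4⟩ := exists_letter hj (mem_range.1 ht1) hc
        refine ht2 (mem_Ico.2 ⟨(tt_le (k := k) (Nat.zero_le p) (by omega)).trans h3,
          h4.trans_le (tt_le (k := k) (by omega) (by omega))⟩)
  rw [hI, ← sum_sdiff hIs]
  have h1 : -M * ((range N \ I).card : ℝ) ≤ ∑ t ∈ range N \ I, ψ t := by
    have := card_nsmul_le_sum (range N \ I) ψ (-M) fun t _ => hM t
    rwa [nsmul_eq_mul, mul_comm] at this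
  have h2 : ((range N \ I).card : ℝ) ≤ (UU s j k k₀ N).card := by exact_mod_cast card_le_card hIU
  nlinarith [mul_le_mul_of_nonneg_left h2 hM0]

/-- The weight of an offset. -/
noncomputable def ql (T₀ j n : ℕ) : ℝ :=
  if n ≤ T₀ then 1 / (2 * (T₀ + 1)) else 1 / (2 * j)

theorem ql_pos {T₀ : ℕ} (hj : 0 < j) (n : ℕ) : 0 < ql T₀ j n := by
  unfold ql
  have : (0 : ℝ) < j := by exact_mod_cast hj
  split_ifs <;> positivity

theorem sum_ql {T₀ : ℕ} (hT : T₀ < j) : ∑ n ∈ range (j + 1), ql T₀ j n ≤ 1 := by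
  have hj : (0 : ℝ) < j := by exact_mod_cast (by omega : 0 < j)
  rw [range_eq_Ico, ← sum_Ico_consecutive _ (Nat.zero_le (T₀ + 1)) (by omega)]
  have e1 : ∑ n ∈ Ico 0 (T₀ + 1), ql T₀ j n = 1 / 2 := by
    rw [sum_congr rfl (g := fun _ => (1 : ℝ) / (2 * (T₀ + 1))) fun n hn => by
      unfold ql; rw [if_pos (by have := (mem_Ico.1 hn).2; omega)]]
    rw [sum_const, Nat.card_Ico, nsmul_eq_mul]
    push_cast
    field_simp
  have e2 : ∑ n ∈ Ico (T₀ + 1) (j + 1), ql T₀ j n ≤ 1 / 2 := by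
    rw [sum_congr rfl (g := fun _ => (1 : ℝ) / (2 * j)) fun n hn => by
      unfold ql; rw [if_neg (by have := (mem_Ico.1 hn).1; omega)]]
    rw [sum_const, Nat.card_Ico, nsmul_eq_mul]
    have : ((j + 1 - (T₀ + 1) : ℕ) : ℝ) ≤ j := by exact_mod_cast (by omega : j + 1 - (T₀ + 1) ≤ j)
    rw [mul_one_div, div_le_iff₀ (by positivity)]
    linarith
  linarith

theorem neg_log_ql {T₀ : ℕ} (hj : 0 < j) (n : ℕ) :
    -Real.log (ql T₀ j n) ≤ Real.log (2 * (T₀ + 1)) +
      Real.log (2 * j) * if T₀ < n then (1 : ℝ) else 0 := by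
  have hj' : (1 : ℝ) ≤ j := by exact_mod_cast hj
  have h1 : 0 ≤ Real.log (2 * ((T₀ : ℝ) + 1)) :=
    Real.log_nonneg (by have : (0 : ℝ) ≤ T₀ := Nat.cast_nonneg _; linarith)
  unfold ql
  by_cases h : n ≤ T₀
  · rw [if_pos h, if_neg (by omega), one_div, Real.log_inv]; simp
  · rw [if_neg h, if_pos (by omega), one_div, Real.log_inv]; linarith

/-- The extension of a finite pattern. -/
def ext {k : ℕ} (σ : Fin k → ℕ) (b : ℕ) : ℕ := if h : b < k then σ ⟨b, h⟩ else 0

variable {ι : Type}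

/-- The possible values of the `p`-th letter. -/
noncomputable def LL (W : ℕ → Finset ι) (s : ℕ → ℕ) (j k p : ℕ) : Finset (Option ι) :=
  if p + 1 < cn s j k then (W (len s j p)).map Function.Embedding.some else {none}

/-- The weight of a letter of length `n`. -/
noncomputable def lw (W : ℕ → Finset ι) (a : ℕ → ι → ℝ) (n : ℕ) : Option ι → ℝ
  | none => 1
  | some w => Real.exp (a n w) / ∑ i ∈ W n, Real.exp (a n i)

theorem lw_nonneg (W : ℕ → Finset ι) (a : ℕ → ι → ℝ) (n : ℕ) (o : Option ι) : 0 ≤ lw W a n o := by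
  cases o with
  | none => exact zero_le_one
  | some w => exact div_nonneg (Real.exp_pos _).le (sum_nonneg fun i _ => (Real.exp_pos _).le)

theorem sum_lw (W : ℕ → Finset ι) (a : ℕ → ι → ℝ) :
    ∑ o ∈ LL W s j k p, lw W a (len s j p) o ≤ 1 := by
  unfold LL
  split_ifs
  · rw [sum_map]
    simp only [Function.Embedding.some_apply, lw]
    rw [← sum_div]
    exact div_self_le_one _
  · simp [lw]

/-- The set of codes. -/
noncomputable def CC (W : ℕ → Finset ι) (j k : ℕ) :
    Finset (Σ _ : Fin k → ℕ, Fin k → Option ι) :=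
  (Fintype.piFinset fun _ : Fin k => range (j + 1)).sigma fun σ =>
    Fintype.piFinset fun p : Fin k => LL W (ext σ) j k p

/-- The weight of a code. -/
noncomputable def qq (W : ℕ → Finset ι) (a : ℕ → ι → ℝ) (T₀ j k : ℕ)
    (c : Σ _ : Fin k → ℕ, Fin k → Option ι) : ℝ :=
  (∏ b : Fin k, ql T₀ j (c.1 b)) * ∏ p : Fin k, lw W a (len (ext c.1) j p) (c.2 p)

theorem qq_nonneg (W : ℕ → Finset ι) (a : ℕ → ι → ℝ) {T₀ : ℕ} (hj : 0 < j)
    (c : Σ _ : Fin k → ℕ, Fin k → Option ι) : 0 ≤ qq W a T₀ j k c :=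
  mul_nonneg (prod_nonneg fun _ _ => (ql_pos hj _).le) (prod_nonneg fun _ _ => lw_nonneg _ _ _ _)

theorem sum_qq (W : ℕ → Finset ι) (a : ℕ → ι → ℝ) {T₀ : ℕ} (hT : T₀ < j) :
    ∑ c ∈ CC W j k, qq W a T₀ j k c ≤ 1 := by
  have hj : 0 < j := by omega
  unfold CC qq
  rw [sum_sigma]
  calc _ ≤ ∑ σ ∈ Fintype.piFinset fun _ : Fin k => range (j + 1), ∏ b : Fin k, ql T₀ j (σ b) := by
        refine sum_le_sum fun σ _ => ?_
        dsimp only
        rw [← mul_sum, ← prod_univ_sum (fun p : Fin k => LL W (ext σ) j k p)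
          fun p o => lw W a (len (ext σ) j p) o]
        refine mul_le_of_le_one_right (prod_nonneg fun _ _ => (ql_pos hj _).le) ?_
        exact prod_le_one (fun p _ => sum_nonneg fun o _ => lw_nonneg _ _ _ _)
          fun p _ => sum_lw W a
    _ = ∏ _b : Fin k, ∑ n ∈ range (j + 1), ql T₀ j n :=
        (prod_univ_sum (fun _ : Fin k => range (j + 1)) fun _ n => ql T₀ j n).symm
    _ ≤ 1 := prod_le_one (fun _ _ => sum_nonneg fun n _ => (ql_pos hj n).le) fun _ _ => sum_ql hT

end Pool.Agent.P.MP_eeb913_an.U.Low
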