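import Mathlib
import Pool.Agent.P.MP_eeb913_an.U.Basic
import Pool.Agent.P.MP_eeb913_an.U.Coding
import Pool.Agent.P.MP_eeb913_an.U.LowerAux

/-!
Lower bound for partition sums by coding orbits with their returns.

Time is cut into blocks of length `j`; the first visit to `R` in a block is a cut time. The code of an
orbit is the list of the offsets of these visits and the list of the letters between consecutive cut
times, with Gibbs weights. If all partition sums in the window around `j` were small, the coding bound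
would give too small an entropy.
-/

namespace Pool.Agent.P.MP_eeb913_an.U

open MeasureTheory Filter Metric Set
open scoped ENNReal NNReal Topology

namespace Low

section Orbit

variable {Y : Type} {G : Y → Y} {R : Set Y} {j k : ℕ}

open Classical in
/-- The first visit to `R` before time `j`, or `j`. -/
noncomputable def tau (G : Y → Y) (R : Set Y) (j : ℕ) (y : Y) : ℕ :=
  Nat.find (p := fun t => t = j ∨ G^[t] y ∈ R) ⟨j, Or.inl rfl⟩

open Classical in
theorem tau_le (y : Y) : tau G R j y ≤ j := Nat.find_le (Or.inl rfl)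

open Classical in
theorem tau_mem {y : Y} (h : tau G R j y < j) : G^[tau G R j y] y ∈ R :=
  (Nat.find_spec (p := fun t => t = j ∨ G^[t] y ∈ R) ⟨j, Or.inl rfl⟩).resolve_left h.ne

open Classical in
theorem tau_le_of {y : Y} {t : ℕ} (h : G^[t] y ∈ R) : tau G R j y ≤ t := Nat.find_le (Or.inr h)

/-- The points that visit `R` before time `n`. -/
def Hs (G : Y → Y) (R : Set Y) (n : ℕ) : Set Y := {y | ∃ t < n, G^[t] y ∈ R}

theorem tau_lt_iff {y : Y} {n : ℕ} (hn : n ≤ j) : tau G R j y < n ↔ y ∈ Hs G R n :=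
  ⟨fun h => ⟨_, h, tau_mem (h.trans_le hn)⟩, fun ⟨_, ht, h⟩ => (tau_le_of h).trans_lt ht⟩

/-- The pattern of an orbit. -/
noncomputable def sg (G : Y → Y) (R : Set Y) (j k : ℕ) (y : Y) : Fin k → ℕ :=
  fun b => tau G R j (G^[b * j] y)

theorem ext_sg {y : Y} {b : ℕ} (hb : b < k) : ext (sg G R j k y) b = tau G R j (G^[b * j] y) := by
  simp [ext, sg, hb]

open Classical in
/-- The number of hit blocks among the first `n`. -/
noncomputable def hc (G : Y → Y) (R : Set Y) (j : ℕ) (y : Y) (n : ℕ) : ℕ :=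
  ∑ b ∈ Finset.range n, if G^[b * j] y ∈ Hs G R j then 1 else 0

theorem hc_add (y : Y) (b n : ℕ) :
    hc G R j y (b + n) = hc G R j y b + hc G R j (G^[b * j] y) n := by
  unfold hc
  rw [Finset.sum_range_add]
  congr 1
  refine Finset.sum_congr rfl fun u _ => ?_
  rw [← Function.iterate_add_apply, show u * j + b * j = (b + u) * j by ring]

theorem hc_mono (y : Y) {b n : ℕ} (h : b ≤ n) : hc G R j y b ≤ hc G R j y n := by
  obtain ⟨u, rfl⟩ := Nat.exists_eq_add_of_le h
  rw [hc_add]; omega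

theorem cn_eq {y : Y} {b : ℕ} (hb : b ≤ k) : cn (ext (sg G R j k y)) j b = hc G R j y b := by
  induction b with
  | zero => simp [cn, hc]
  | succ b ih =>
    rw [cn_succ, ih (by omega), ext_sg (by omega)]
    unfold hc
    rw [Finset.sum_range_succ]
    congr 1
    by_cases h : G^[b * j] y ∈ Hs G R j
    · rw [if_pos h, if_pos ((tau_lt_iff le_rfl).2 h)]
    · rw [if_neg h, if_neg fun h' => h ((tau_lt_iff le_rfl).1 h')]

theorem hc_unbounded (hj : 0 < j) {y : Y} (hy : ∃ᶠ n in atTop, G^[n] y ∈ R) (M : ℕ) :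
    ∃ n, M ≤ hc G R j y n := by
  induction M with
  | zero => exact ⟨0, Nat.zero_le _⟩
  | succ M ih =>
    obtain ⟨n, hn⟩ := ih
    obtain ⟨t, ht, hR⟩ := frequently_atTop.1 hy (n * j)
    have h1 : n ≤ t / j := (Nat.le_div_iff_mul_le hj).2 ht
    have h2 : G^[t / j * j] y ∈ Hs G R j := by
      refine ⟨t % j, Nat.mod_lt _ hj, ?_⟩
      rwa [← Function.iterate_add_apply, Nat.mod_add_div']
    refine ⟨t / j + 1, ?_⟩
    have h3 := hc_mono (G := G) (R := R) (j := j) y h1
    have h4 : hc G R j y (t / j + 1) = hc G R j y (t / j) + 1 := by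
      unfold hc
      rw [Finset.sum_range_succ, if_pos h2]
    omega

theorem cut_mem {y : Y} {p : ℕ} (h : p < cn (ext (sg G R j k y)) j k) :
    G^[tt (ext (sg G R j k y)) j p] y ∈ R := by
  have h1 := nb_lt h
  have h2 := nb_hit h
  unfold tt
  rw [ext_sg h1] at h2 ⊢
  rw [add_comm, Function.iterate_add_apply]
  exact tau_mem h2

variable {ι : Type}

open Classical in
/-- The letters of an orbit. -/
noncomputable def wd (G : Y → Y) (R : Set Y) (j k : ℕ) (π : Y → E) (W : ℕ → Finset ι)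
    (S : ι → Set E) (y : Y) (p : ℕ) : Option ι :=
  if h : p + 1 < cn (ext (sg G R j k y)) j k ∧ ∃ i ∈ W (len (ext (sg G R j k y)) j p),
    π (G^[tt (ext (sg G R j k y)) j p] y) ∈ S i then some h.2.choose else none

theorem wd_none {π : Y → E} {W : ℕ → Finset ι} {S : ι → Set E} {y : Y} {p : ℕ}
    (h : ¬ p + 1 < cn (ext (sg G R j k y)) j k) : wd G R j k π W S y p = none := by
  unfold wd
  rw [dif_neg fun h' => h h'.1]

theorem wd_some {π : Y → E} {W : ℕ → Finset ι} {S : ι → Set E}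
    (hcov : ∀ n, 0 < n → ∀ y ∈ R, G^[n] y ∈ R → ∃ i ∈ W n, π y ∈ S i) {y : Y} {p : ℕ}
    (h : p + 1 < cn (ext (sg G R j k y)) j k) :
    ∃ i, wd G R j k π W S y p = some i ∧ i ∈ W (len (ext (sg G R j k y)) j p) ∧
      π (G^[tt (ext (sg G R j k y)) j p] y) ∈ S i := by
  have h1 : ∃ i ∈ W (len (ext (sg G R j k y)) j p),
      π (G^[tt (ext (sg G R j k y)) j p] y) ∈ S i := by
    refine hcov _ (len_pos h) _ (cut_mem (by omega)) ?_
    rw [← Function.iterate_add_apply, add_comm, tt_add_len h]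
    exact cut_mem h
  refine ⟨h1.choose, ?_, h1.choose_spec⟩
  unfold wd
  rw [dif_pos ⟨h, h1⟩]

/-- The code of an orbit. -/
noncomputable def code (G : Y → Y) (R : Set Y) (j k : ℕ) (π : Y → E) (W : ℕ → Finset ι)
    (S : ι → Set E) (y : Y) : Σ _ : Fin k → ℕ, Fin k → Option ι :=
  ⟨sg G R j k y, fun p => wd G R j k π W S y p⟩

theorem code_mem {π : Y → E} {W : ℕ → Finset ι} {S : ι → Set E}
    (hcov : ∀ n, 0 < n → ∀ y ∈ R, G^[n] y ∈ R → ∃ i ∈ W n, π y ∈ S i) (y : Y) :
    code G R j k π W S y ∈ CC W j k := by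
  refine Finset.mem_sigma.2 ⟨Fintype.mem_piFinset.2 fun b => ?_, Fintype.mem_piFinset.2 fun p => ?_⟩
  · exact Finset.mem_range.2 (Nat.lt_succ_of_le (tau_le _))
  · change wd G R j k π W S y p ∈ LL W (ext (sg G R j k y)) j k p
    unfold LL
    split_ifs with h
    · obtain ⟨i, h1, h2, -⟩ := wd_some hcov h
      rw [h1]
      exact Finset.mem_map_of_mem _ h2
    · rw [wd_none h]; exact Finset.mem_singleton_self _

theorem lw_pos {π : Y → E} {W : ℕ → Finset ι} {S : ι → Set E} (a : ℕ → ι → ℝ)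
    (hcov : ∀ n, 0 < n → ∀ y ∈ R, G^[n] y ∈ R → ∃ i ∈ W n, π y ∈ S i) (y : Y) (p : ℕ) :
    0 < lw W a (len (ext (sg G R j k y)) j p) (wd G R j k π W S y p) := by
  by_cases h : p + 1 < cn (ext (sg G R j k y)) j k
  · obtain ⟨i, h1, h2, -⟩ := wd_some hcov h
    rw [h1]
    exact div_pos (Real.exp_pos _) (Finset.sum_pos (fun _ _ => Real.exp_pos _) ⟨i, h2⟩)
  · rw [wd_none h]; exact zero_lt_one

theorem semi_iter {f : E → E} {π : Y → E} (semi : ∀ y, π (G y) = f (π y)) (n : ℕ) (y : Y) :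
    π (G^[n] y) = f^[n] (π y) :=
  Function.Semiconj.iterate_right (f := π) (ga := G) (gb := f) semi n y

theorem code_shadow {f : E → E} {π : Y → E} (semi : ∀ y, π (G y) = f (π y)) {W : ℕ → Finset ι}
    {S : ι → Set E} (hcov : ∀ n, 0 < n → ∀ y ∈ R, G^[n] y ∈ R → ∃ i ∈ W n, π y ∈ S i)
    (hj : 0 < j) {ε : ℝ} {k₀ N : ℕ}
    (hsh : ∀ (l : ℕ) (t : ℕ → ℕ) (i : ℕ → ι) (x x' : E),
      (∀ p < l, t p < t (p + 1) ∧ i p ∈ W (t (p + 1) - t p) ∧ f^[t p] x ∈ S (i p) ∧
        f^[t p] x' ∈ S (i p)) →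
      ∀ p, k₀ ≤ p → p + k₀ < l → ∀ s, t p ≤ s → s < t (p + 1) → ‖f^[s] x - f^[s] x'‖ < ε)
    {y y' : Y} (h : code G R j k π W S y = code G R j k π W S y') {t : ℕ} (ht : t < N)
    (hU : t ∉ UU (ext (sg G R j k y)) j k k₀ N) : ‖f^[t] (π y) - f^[t] (π y')‖ < ε := by
  obtain ⟨p, h1, h2, h3, h4⟩ := exists_letter hj ht hU
  have e1 : sg G R j k y = sg G R j k y' := congrArg Sigma.fst h
  have e2 : ∀ u < k, wd G R j k π W S y u = wd G R j k π W S y' u := fun u hu =>
    congrFun (congrArg (fun c : Σ _ : Fin k → ℕ, Fin k → Option ι => c.2) h) ⟨u, hu⟩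
  obtain ⟨i₀, -⟩ := wd_some (π := π) (S := S) hcov (y := y) (j := j) (k := k) (p := p) (by omega)
  refine hsh (cn (ext (sg G R j k y)) j k - 1) (tt (ext (sg G R j k y)) j)
    (fun u => (wd G R j k π W S y u).getD i₀) _ _ (fun u hu => ?_) p h1 (by omega) t h3 h4
  have hu' : u + 1 < cn (ext (sg G R j k y)) j k := by omega
  have hk : u < k := by
    have := cn_le (s := ext (sg G R j k y)) (j := j) (k := k)
    omega
  obtain ⟨i, g1, g2, g3⟩ := wd_some (π := π) (S := S) hcov hu'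
  obtain ⟨i', g1', -, g3'⟩ := wd_some (π := π) (S := S) hcov (y := y') (j := j) (k := k) (p := u)
    (by rw [← e1]; exact hu')
  rw [← e2 u hk, g1] at g1'
  obtain rfl : i = i' := Option.some_injective _ g1'
  rw [← e1, semi_iter semi] at g3'
  rw [semi_iter semi] at g3
  simp only [g1, Option.getD_some]
  exact ⟨tt_lt (Nat.lt_succ_self u) hu', g2, g3, g3'⟩

/-- The points with at most `k₀` hit blocks among the first `n`. -/
def FF (G : Y → Y) (R : Set Y) (j k₀ n : ℕ) : Set Y := {y | hc G R j y n ≤ k₀}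

theorem code_cost {f : E → E} {φ : E → ℝ} {B : ℝ} (hB : ∀ x, |φ x| ≤ B) {π : Y → E}
    (semi : ∀ y, π (G y) = f (π y)) {W : ℕ → Finset ι} {S : ι → Set E} {a : ℕ → ι → ℝ}
    {P C D L : ℝ} (hD : 0 ≤ D) (hL : 0 ≤ L) {T₀ : ℕ} (hT : T₀ < j)
    (hcov : ∀ n, 0 < n → ∀ y ∈ R, G^[n] y ∈ R → ∃ i ∈ W n, π y ∈ S i)
    (ha : ∀ n, 0 < n → ∀ i ∈ W n, ∀ x ∈ S i, birkhoffSum f φ n x ≤ a n i)
    (hup : ∀ n : ℕ, 0 < n → ∑ i ∈ W n, Real.exp (a n i) ≤ Real.exp (n * P + C))
    (hsm : ∀ n : ℕ, j ≤ n + T₀ → n ≤ j + T₀ → ∑ i ∈ W n, Real.exp (a n i) ≤ Real.exp (n * P - D))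
    {k₀ N : ℕ} (hN : k * j ≤ N) (hN' : N < (k + 1) * j) (y : Y) :
    -Real.log (qq W a T₀ j k (code G R j k π W S y)) +
        (UU (ext (sg G R j k y)) j k k₀ N).card * L ≤
      (k * Real.log (2 * (T₀ + 1)) - D * k + (D + |C|) + (|P| + B + L) * j) +
      (Real.log (2 * j) + 2 * (D + |C|)) *
        (∑ b ∈ Finset.range k, (Hs G R (T₀ + 1))ᶜ.indicator (1 : Y → ℝ) (G^[b * j] y)) +
      (∑ t ∈ Finset.range N, (P - φ (π (G^[t] y)))) +
      (|P| + B + L) * j * ∑ b ∈ Finset.range k, ((FF G R j k₀ b).indicator (1 : Y → ℝ) y +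
        (FF G R j k₀ (k - (b + 1))).indicator (1 : Y → ℝ) (G^[(b + 1) * j] y)) := by
  have hj : 0 < j := by omega
  set s := ext (sg G R j k y) with hs
  have hB0 : 0 ≤ B := (abs_nonneg _).trans (hB 0)
  set bd := ∑ b ∈ Finset.range k, if T₀ < s b then (1 : ℝ) else 0 with hbd
  have e1 : ∑ b ∈ Finset.range k, (Hs G R (T₀ + 1))ᶜ.indicator (1 : Y → ℝ) (G^[b * j] y) = bd := by
    refine Finset.sum_congr rfl fun b hb => ?_
    have h1 := tau_lt_iff (G := G) (R := R) (j := j) (y := G^[b * j] y) (n := T₀ + 1) hT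
    rw [hs, ext_sg (Finset.mem_range.1 hb)]
    split_ifs with h
    · rw [indicator_of_mem (show _ ∈ (Hs G R (T₀ + 1))ᶜ from fun h' => by
        have := h1.2 h'; omega)]
      rfl
    · rw [indicator_of_notMem (show _ ∉ (Hs G R (T₀ + 1))ᶜ from fun h' => h' (h1.1 (by omega)))]
  have e2 : ∑ b ∈ Finset.range k, ((FF G R j k₀ b).indicator (1 : Y → ℝ) y +
        (FF G R j k₀ (k - (b + 1))).indicator (1 : Y → ℝ) (G^[(b + 1) * j] y)) =
      ∑ b ∈ Finset.range k, ((if cn s j b ≤ k₀ then (1 : ℝ) else 0) +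
        if cn s j k ≤ cn s j (b + 1) + k₀ then (1 : ℝ) else 0) := by
    refine Finset.sum_congr rfl fun b hb => ?_
    have hb' := Finset.mem_range.1 hb
    have h1 := hc_add (G := G) (R := R) (j := j) y (b + 1) (k - (b + 1))
    rw [show b + 1 + (k - (b + 1)) = k by omega] at h1
    rw [hs, cn_eq hb'.le, cn_eq le_rfl, cn_eq (show b + 1 ≤ k by omega), h1]
    classical
    simp only [indicator_apply, FF, mem_ofPred_eq, Pi.one_apply, add_le_add_iff_left]
  rw [e1, e2]
  have h1 := card_UU (s := s) (k₀ := k₀) hj hN'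
  set uu := ∑ b ∈ Finset.range k, ((if cn s j b ≤ k₀ then (1 : ℝ) else 0) +
    if cn s j k ≤ cn s j (b + 1) + k₀ then (1 : ℝ) else 0) with huu
  have h2 := sum_letters_le (s := s) (k₀ := k₀) hj hN (fun t => P - φ (π (G^[t] y)))
    (M := |P| + B) (fun t => by
      have := abs_le.1 (hB (π (G^[t] y)))
      have := neg_abs_le P
      linarith) (by positivity)
  have h3 := cost_le (s := s) (k := k) hT hD (abs_nonneg C)
  have h4 : -Real.log (∏ b : Fin k, ql T₀ j (sg G R j k y b)) ≤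
      k * Real.log (2 * (T₀ + 1)) + Real.log (2 * j) * bd := by
    rw [Real.log_prod fun b _ => (ql_pos hj _).ne', ← Finset.sum_neg_distrib]
    calc _ ≤ ∑ b : Fin k, (Real.log (2 * (T₀ + 1)) +
          Real.log (2 * j) * if T₀ < s b then (1 : ℝ) else 0) := by
          refine Finset.sum_le_sum fun b _ => ?_
          have : s b = sg G R j k y b := by rw [hs, ext_sg b.2]; rfl
          rw [this]
          exact neg_log_ql hj _
      _ = _ := by
          rw [Finset.sum_add_distrib, ← Finset.mul_sum, hbd,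
            Fin.sum_univ_eq_sum_range (fun b => if T₀ < s b then (1 : ℝ) else 0)]
          simp
  have hlw : ∀ p, 0 < lw W a (len s j p) (wd G R j k π W S y p) := lw_pos a hcov y
  have h5 : -Real.log (∏ p : Fin k, lw W a (len s j p) (wd G R j k π W S y p)) ≤
      ∑ p ∈ Finset.range (cn s j k - 1), ∑ u ∈ Finset.range (len s j p),
        (P - φ (π (G^[tt s j p + u] y))) + ∑ p ∈ Finset.range (cn s j k - 1),
        if j ≤ len s j p + T₀ ∧ len s j p ≤ j + T₀ then -D else |C| := by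
    rw [Real.log_prod fun (p : Fin k) _ => (hlw p).ne', ← Finset.sum_neg_distrib,
      Fin.sum_univ_eq_sum_range
        (fun p => -Real.log (lw W a (len s j p) (wd G R j k π W S y p))),
      ← Finset.sum_subset (s₁ := Finset.range (cn s j k - 1)), ← Finset.sum_add_distrib]
    · refine Finset.sum_le_sum fun p hp => ?_
      have hp' : p + 1 < cn s j k := by have := Finset.mem_range.1 hp; omega
      obtain ⟨i, g1, g2, g3⟩ := wd_some (π := π) (S := S) hcov hp'
      have hZ : 0 < ∑ i ∈ W (len s j p), Real.exp (a (len s j p) i) :=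
        Finset.sum_pos (fun _ _ => Real.exp_pos _) ⟨i, g2⟩
      have g4 := ha _ (len_pos hp') i g2 _ g3
      have g5 : ∑ u ∈ Finset.range (len s j p), (P - φ (π (G^[tt s j p + u] y))) =
          len s j p * P - birkhoffSum f φ (len s j p) (π (G^[tt s j p] y)) := by
        rw [Finset.sum_sub_distrib, Finset.sum_const, Finset.card_range, nsmul_eq_mul, birkhoffSum]
        congr 1
        refine Finset.sum_congr rfl fun u _ => ?_
        rw [← semi_iter semi, ← Function.iterate_add_apply, add_comm]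
      rw [g1, g5]
      simp only [lw]
      rw [Real.log_div (Real.exp_pos _).ne' hZ.ne', Real.log_exp]
      split_ifs with hw
      · have := (Real.log_le_iff_le_exp hZ).2 (hsm _ hw.1 hw.2)
        linarith
      · have := (Real.log_le_iff_le_exp hZ).2 (hup _ (len_pos hp'))
        have := le_abs_self C
        linarith
    · intro p hp
      have := cn_le (s := s) (j := j) (k := k)
      have := Finset.mem_range.1 hp
      exact Finset.mem_range.2 (by omega)
    · intro p _ hp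
      rw [wd_none (by rw [Finset.mem_range] at hp; rw [← hs]; omega)]
      simp [lw]
  have h6 : Real.log (qq W a T₀ j k (code G R j k π W S y)) =
      Real.log (∏ b : Fin k, ql T₀ j (sg G R j k y b)) +
        Real.log (∏ p : Fin k, lw W a (len s j p) (wd G R j k π W S y p)) :=
    Real.log_mul (Finset.prod_pos fun b _ => ql_pos hj _).ne'
      (Finset.prod_pos fun (p : Fin k) _ => hlw p).ne'
  have h7 := mul_le_mul_of_nonneg_left h1 (show 0 ≤ |P| + B + L by positivity)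
  rw [h6]
  nlinarith

end Orbit

section Measure

variable {Y : Type} [MeasurableSpace Y] {m : Measure Y} {G : Y → Y} {R : Set Y} {j : ℕ}

theorem measurableSet_Hs (hG : Measurable G) (hR : MeasurableSet R) (n : ℕ) :
    MeasurableSet (Hs G R n) := by
  have : Hs G R n = ⋃ t, ⋃ (_ : t < n), G^[t] ⁻¹' R := by
    ext y; simp [Hs]
  rw [this]
  exact MeasurableSet.iUnion fun t => MeasurableSet.iUnion fun _ => (hG.iterate t) hR

theorem measurableSet_FF (hG : Measurable G) (hR : MeasurableSet R) (k₀ n : ℕ) :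
    MeasurableSet (FF G R j k₀ n) := by
  have : Measurable fun y => hc G R j y n := by
    unfold hc
    refine Finset.measurable_sum _ fun b _ => ?_
    exact Measurable.ite ((hG.iterate _) (measurableSet_Hs hG hR j)) measurable_const
      measurable_const
  exact measurableSet_le this measurable_const

theorem tendsto_real [IsProbabilityMeasure m] {A : ℕ → Set Y} (hA : ∀ n, MeasurableSet (A n))
    (hm : Antitone A) (h0 : ∀ᵐ y ∂m, ∃ n, y ∉ A n) :
    Tendsto (fun n => m.real (A n)) atTop (𝓝 0) := by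
  have h1 := tendsto_measure_iInter_atTop (μ := m) (fun n => (hA n).nullMeasurableSet) hm
    ⟨0, measure_ne_top _ _⟩
  have h2 : m (⋂ n, A n) = 0 := by
    refine measure_mono_null (fun y hy => ?_) (ae_iff.1 h0)
    simpa using hy
  rw [h2] at h1
  exact (ENNReal.tendsto_toReal ENNReal.zero_ne_top).comp h1

theorem tendsto_Hs [IsProbabilityMeasure m] (hG : Measurable G) (hR : MeasurableSet R)
    (hrec : ∀ᵐ y ∂m, ∃ᶠ n in atTop, G^[n] y ∈ R) :
    Tendsto (fun n => m.real (Hs G R (n + 1))ᶜ) atTop (𝓝 0) := by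
  refine tendsto_real (fun n => (measurableSet_Hs hG hR _).compl) (fun n n' h => ?_) ?_
  · exact compl_subset_compl.2 fun y ⟨t, ht, hy⟩ => ⟨t, by omega, hy⟩
  · filter_upwards [hrec] with y hy
    obtain ⟨t, ht⟩ := hy.exists
    exact ⟨t, fun h => h ⟨t, Nat.lt_succ_self t, ht⟩⟩

theorem tendsto_FF [IsProbabilityMeasure m] (hG : Measurable G) (hR : MeasurableSet R)
    (hrec : ∀ᵐ y ∂m, ∃ᶠ n in atTop, G^[n] y ∈ R) (hj : 0 < j) (k₀ : ℕ) :
    Tendsto (fun n => m.real (FF G R j k₀ n)) atTop (𝓝 0) := by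
  refine tendsto_real (fun n => measurableSet_FF hG hR _ _) (fun n n' h y hy => ?_) ?_
  · exact (hc_mono y h).trans hy
  · filter_upwards [hrec] with y hy
    obtain ⟨n, hn⟩ := hc_unbounded hj hy (k₀ + 1)
    exact ⟨n, fun h => by have : hc G R j y n ≤ k₀ := h; omega⟩

theorem integrable_ind [IsProbabilityMeasure m] (hG : Measurable G) {A : Set Y}
    (hA : MeasurableSet A) (n : ℕ) : Integrable (fun y => A.indicator (1 : Y → ℝ) (G^[n] y)) m :=
  (integrable_const (1 : ℝ)).indicator ((hG.iterate n) hA)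

theorem integral_ind (hG : MeasurePreserving G m m) {A : Set Y} (hA : MeasurableSet A) (n : ℕ) :
    ∫ y, A.indicator (1 : Y → ℝ) (G^[n] y) ∂m = m.real A := by
  have h1 : ∫ y, (G^[n] ⁻¹' A).indicator (1 : Y → ℝ) y ∂m = m.real (G^[n] ⁻¹' A) :=
    integral_indicator_one ((hG.measurable.iterate n) hA)
  rw [Measure.real, (hG.iterate n).measure_preimage hA.nullMeasurableSet] at h1
  exact h1

theorem key {f : E → E} {φ : E → ℝ} (hφ : Measurable φ) {B : ℝ} (hB : ∀ x, |φ x| ≤ B)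
    [IsProbabilityMeasure m] (hG : MeasurePreserving G m m) {π : Y → E} (hπ : Measurable π)
    (semi : ∀ y, π (G y) = f (π y)) (hR : MeasurableSet R) {ι : Type} {W : ℕ → Finset ι}
    {S : ι → Set E} {a : ℕ → ι → ℝ} {P C D L : ℝ} (hD : 0 ≤ D) (hL : 0 ≤ L) {T₀ : ℕ} (hT : T₀ < j)
    (hcov : ∀ n, 0 < n → ∀ y ∈ R, G^[n] y ∈ R → ∃ i ∈ W n, π y ∈ S i)
    (ha : ∀ n, 0 < n → ∀ i ∈ W n, ∀ x ∈ S i, birkhoffSum f φ n x ≤ a n i)
    (hup : ∀ n : ℕ, 0 < n → ∑ i ∈ W n, Real.exp (a n i) ≤ Real.exp (n * P + C))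
    (hsm : ∀ n : ℕ, j ≤ n + T₀ → n ≤ j + T₀ → ∑ i ∈ W n, Real.exp (a n i) ≤ Real.exp (n * P - D))
    {k k₀ N : ℕ} (hN : k * j ≤ N) (hN' : N < (k + 1) * j) :
    ∃ g : Y → ℝ, Integrable g m ∧
      (∀ y, -Real.log (qq W a T₀ j k (code G R j k π W S y)) +
        (UU (ext (sg G R j k y)) j k k₀ N).card * L ≤ g y) ∧
      ∫ y, g y ∂m = (k * Real.log (2 * (T₀ + 1)) - D * k + (D + |C|) + (|P| + B + L) * j) +
        (Real.log (2 * j) + 2 * (D + |C|)) * (k * m.real (Hs G R (T₀ + 1))ᶜ) +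
        N * (P - ∫ y, φ (π y) ∂m) +
        (|P| + B + L) * j * (2 * ∑ b ∈ Finset.range k, m.real (FF G R j k₀ b)) := by
  have hGm := hG.measurable
  have hA := (measurableSet_Hs hGm hR (T₀ + 1)).compl
  have hF := measurableSet_FF (j := j) hGm hR k₀
  have i0 : Integrable (fun y => φ (π y)) m :=
    Integrable.of_bound (hφ.comp hπ).aestronglyMeasurable B (ae_of_all _ fun y => hB _)
  have i1 : ∀ t, Integrable (fun y => φ (π (G^[t] y))) m := fun t =>
    (hG.iterate t).integrable_comp_of_integrable i0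
  have i2 : ∀ t, ∫ y, φ (π (G^[t] y)) ∂m = ∫ y, φ (π y) ∂m := fun t => by
    have := integral_map (μ := m) (hG.iterate t).measurable.aemeasurable (f := fun y => φ (π y))
      (by rw [(hG.iterate t).map_eq]; exact i0.aestronglyMeasurable)
    rw [(hG.iterate t).map_eq] at this
    exact this.symm
  have j1 : Integrable (fun y => ∑ b ∈ Finset.range k,
      (Hs G R (T₀ + 1))ᶜ.indicator (1 : Y → ℝ) (G^[b * j] y)) m :=
    integrable_finsetSum _ fun b _ => integrable_ind hGm hA _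
  have j2 : Integrable (fun y => ∑ t ∈ Finset.range N, (P - φ (π (G^[t] y)))) m :=
    integrable_finsetSum _ fun t _ => (integrable_const P).sub (i1 t)
  have j3' : ∀ b, Integrable (fun y => (FF G R j k₀ b).indicator (1 : Y → ℝ) y +
        (FF G R j k₀ (k - (b + 1))).indicator (1 : Y → ℝ) (G^[(b + 1) * j] y)) m := fun b =>
    (integrable_ind hGm (hF b) 0).add (integrable_ind hGm (hF _) _)
  have j3 : Integrable (fun y => ∑ b ∈ Finset.range k, ((FF G R j k₀ b).indicator (1 : Y → ℝ) y +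
        (FF G R j k₀ (k - (b + 1))).indicator (1 : Y → ℝ) (G^[(b + 1) * j] y))) m :=
    integrable_finsetSum _ fun b _ => j3' b
  refine ⟨_, ?_, code_cost hB semi hD hL hT hcov ha hup hsm hN hN', ?_⟩
  · exact (((integrable_const _).add (j1.const_mul _)).add j2).add (j3.const_mul _)
  · rw [integral_add _ (j3.const_mul _), integral_add _ j2,
      integral_add (integrable_const _) (j1.const_mul _), integral_const_mul, integral_const_mul,
      integral_finsetSum _ fun b _ => integrable_ind hGm hA _,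
      integral_finsetSum (f := fun t y => P - φ (π (G^[t] y))) _
        fun t _ => (integrable_const P).sub (i1 t),
      integral_finsetSum _ fun b _ => j3' b]
    rotate_left
    · exact (integrable_const _).add (j1.const_mul _)
    · exact ((integrable_const _).add (j1.const_mul _)).add j2
    have e1 : ∀ t, ∫ y, (P - φ (π (G^[t] y))) ∂m = P - ∫ y, φ (π y) ∂m := fun t => by
      rw [integral_sub (integrable_const P) (i1 t), i2]; simp
    have e2 : ∀ b, ∫ y, ((FF G R j k₀ b).indicator (1 : Y → ℝ) y +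
        (FF G R j k₀ (k - (b + 1))).indicator (1 : Y → ℝ) (G^[(b + 1) * j] y)) ∂m =
        m.real (FF G R j k₀ b) + m.real (FF G R j k₀ (k - 1 - b)) := fun b => by
      rw [← show k - (b + 1) = k - 1 - b by omega, ← integral_ind hG (hF b) 0,
        ← integral_ind hG (hF (k - (b + 1))) ((b + 1) * j)]
      exact integral_add (integrable_ind hGm (hF b) 0) (integrable_ind hGm (hF _) _)
    simp only [e1, e2, integral_ind hG hA]
    rw [Finset.sum_add_distrib, Finset.sum_range_reflect (fun b => m.real (FF G R j k₀ b))]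
    simp only [Finset.sum_const, Finset.card_range, nsmul_eq_mul, integral_const, probReal_univ,
      one_smul]
    ring

end Measure

theorem exists_partition {f : E → E} {φ : E → ℝ} {ν : Measure E} {x ε : ℝ} (hε : 0 < ε)
    (h : ((x : ℝ) : EReal) ≤ fe f φ ν) :
    ∃ (k : ℕ) (α : E → Fin k), Measurable α ∧ ∃ᶠ N : ℕ in atTop,
      x - ∫ z, φ z ∂ν - ε < partitionEntropy ν (fun (z : E) (i : Fin N) => α (f^[i] z)) / N := by
  have h1 : ((x - ∫ z, φ z ∂ν - ε : ℝ) : EReal) < ksEntropy f ν := by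
    by_contra hc
    have h2 : fe f φ ν ≤ ((x - ∫ z, φ z ∂ν - ε : ℝ) : EReal) + ((∫ z, φ z ∂ν : ℝ) : EReal) :=
      add_le_add_left (not_lt.1 hc) _
    rw [← EReal.coe_add] at h2
    have h3 := EReal.coe_le_coe_iff.1 (h.trans h2)
    linarith
  unfold ksEntropy at h1
  obtain ⟨k, h1⟩ := lt_iSup_iff.1 h1
  obtain ⟨α, h1⟩ := lt_iSup_iff.1 h1
  obtain ⟨hα, h1⟩ := lt_iSup_iff.1 h1
  exact ⟨k, α, hα, (frequently_lt_of_lt_limsup (by isBoundedDefault) h1).mono fun N hN =>
    EReal.coe_lt_coe_iff.1 hN⟩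

end Low

open Low in
theorem lower_bound {f : E → E} {φ : E → ℝ} (hφ : Measurable φ) {B : ℝ} (hB : ∀ x, |φ x| ≤ B)
    {Y : Type} [MeasurableSpace Y] {m : Measure Y} [IsProbabilityMeasure m] {G : Y → Y}
    (hG : MeasurePreserving G m m) {π : Y → E} (hπ : Measurable π) (hf : Measurable f)
    (semi : ∀ y, π (G y) = f (π y)) {R : Set Y} (hR : MeasurableSet R)
    (hrec : ∀ᵐ y ∂m, ∃ᶠ n in atTop, G^[n] y ∈ R) {ι : Type} (W : ℕ → Finset ι) (S : ι → Set E)
    (a : ℕ → ι → ℝ) {P C δ : ℝ} (hδ : 0 ≤ δ)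
    (hcov : ∀ n, 0 < n → ∀ y ∈ R, G^[n] y ∈ R → ∃ i ∈ W n, π y ∈ S i)
    (ha : ∀ n, 0 < n → ∀ i ∈ W n, ∀ x ∈ S i, birkhoffSum f φ n x ≤ a n i)
    (hup : ∀ n : ℕ, 0 < n → ∑ i ∈ W n, Real.exp (a n i) ≤ Real.exp (n * P + C))
    (hsh : ∀ ε : ℝ, 0 < ε → ∃ k₀ : ℕ, ∀ (l : ℕ) (t : ℕ → ℕ) (i : ℕ → ι) (x x' : E),
      (∀ p < l, t p < t (p + 1) ∧ i p ∈ W (t (p + 1) - t p) ∧ f^[t p] x ∈ S (i p) ∧
        f^[t p] x' ∈ S (i p)) →
      ∀ p, k₀ ≤ p → p + k₀ < l → ∀ s, t p ≤ s → s < t (p + 1) → ‖f^[s] x - f^[s] x'‖ < ε)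
    (hfe : ((P - δ : ℝ) : EReal) ≤ fe f φ (m.map π)) {η : ℝ} (hη : 0 < η) :
    ∃ (T₀ : ℕ) (C' : ℝ), ∀ j : ℕ, T₀ < j → ∃ n : ℕ, j ≤ n + T₀ ∧ n ≤ j + T₀ ∧
      Real.exp (n * P - j * (2 * δ) - η * Real.log j - C') ≤ ∑ i ∈ W n, Real.exp (a n i) := by
  have hGm := hG.measurable
  set η' : ℝ := min (η / 2) (1 / 4) with hη'
  have hη0 : 0 < η' := lt_min (by positivity) (by norm_num)
  have hη1 : η' ≤ η / 2 := min_le_left _ _
  have hη2 : η' ≤ 1 / 4 := min_le_right _ _
  obtain ⟨T₀, hT₀⟩ := ((tendsto_Hs hGm hR hrec).eventually (gt_mem_nhds hη0)).exists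
  have hlT : 0 ≤ Real.log (2 * ((T₀ : ℝ) + 1)) :=
    Real.log_nonneg (by have : (0 : ℝ) ≤ T₀ := Nat.cast_nonneg _; linarith)
  refine ⟨T₀, 2 * Real.log (2 * (T₀ + 1)) + 2 * |C| + 10, fun j hT => ?_⟩
  by_contra hcon
  have hj : 0 < j := by omega
  have hj1 : (1 : ℝ) ≤ j := by exact_mod_cast hj
  have hlj : 0 ≤ Real.log j := Real.log_nonneg hj1
  set D : ℝ := j * (2 * δ) + η * Real.log j + (2 * Real.log (2 * (T₀ + 1)) + 2 * |C| + 10) with hD
  have hD0 : 0 ≤ D := by positivity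
  have hsm : ∀ n : ℕ, j ≤ n + T₀ → n ≤ j + T₀ →
      ∑ i ∈ W n, Real.exp (a n i) ≤ Real.exp (n * P - D) := by
    intro n h1 h2
    by_contra hc
    refine hcon ⟨n, h1, h2, le_of_eq_of_le ?_ (not_le.1 hc).le⟩
    congr 1
    rw [hD]; ring
  have : IsProbabilityMeasure (m.map π) := Measure.isProbabilityMeasure_map hπ.aemeasurable
  have hfν : MeasurePreserving f (m.map π) (m.map π) := by
    refine ⟨hf, ?_⟩
    rw [Measure.map_map hf hπ, show f ∘ π = π ∘ G from funext fun y => (semi y).symm,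
      ← Measure.map_map hπ hGm, hG.map_eq]
  have hε : (0 : ℝ) < 1 / j := by positivity
  obtain ⟨ka, α, hα, hfr⟩ := exists_partition hε hfe
  rw [integral_map hπ.aemeasurable hφ.aestronglyMeasurable] at hfr
  obtain ⟨δ₁, hδ₁, hcod⟩ := coding_bound hfν α hα hε
  obtain ⟨k₀, hk₀⟩ := hsh δ₁ hδ₁
  have hB0 : 0 ≤ B := (abs_nonneg _).trans (hB 0)
  have hL : 0 ≤ Real.log ka := Real.log_natCast_nonneg ka
  set K : ℝ := (|P| + B + Real.log ka) * j with hK
  have hK0 : 0 ≤ K := by positivity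
  have hdiv : Tendsto (fun N : ℕ => N / j) atTop atTop := Nat.tendsto_div_const_atTop hj.ne'
  have ev1 : ∀ᶠ k : ℕ in atTop,
      (k⁻¹ : ℝ) * ∑ b ∈ Finset.range k, m.real (FF G R j k₀ b) < 1 / (2 * K + 1) :=
    (tendsto_FF hGm hR hrec hj k₀).cesaro.eventually (gt_mem_nhds (by positivity))
  have ev2 : ∀ᶠ k : ℕ in atTop, D + |C| + K + (j * δ + 2) < (k : ℝ) :=
    tendsto_natCast_atTop_atTop.eventually (eventually_gt_atTop _)
  obtain ⟨N, hN1, hN2, hN3⟩ := (hfr.and_eventually (hdiv.eventually (ev1.and ev2))).exists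
  set k := N / j with hk
  have hkj : k * j ≤ N := Nat.div_mul_le_self N j
  have hkj' : N < (k + 1) * j := by
    have := Nat.lt_mul_div_succ N hj
    rwa [mul_comm] at this
  have hjδ : 0 ≤ j * δ := by positivity
  have hk0 : (0 : ℝ) < k := by have := abs_nonneg C; linarith
  have hN0 : (0 : ℝ) < N := by
    have h1 : (k : ℝ) * j ≤ N := by exact_mod_cast hkj
    nlinarith
  obtain ⟨g, hg1, hg2, hg3⟩ := key (k₀ := k₀) hφ hB hG hπ semi hR hD0 hL hT hcov ha hup hsm hkj hkj'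
  have hH := hcod N Y m π hπ rfl _ (CC W j k) (code G R j k π W S) (qq W a T₀ j k)
    (fun c => UU (ext c.1) j k k₀ N) univ g (ae_of_all _ fun _ => mem_univ _)
    (fun y _ => code_mem hcov y) (fun c _ => qq_nonneg W a hj c) (sum_qq W a hT)
    (fun y _ => mul_pos (Finset.prod_pos fun b _ => ql_pos hj _)
      (Finset.prod_pos fun p _ => lw_pos a hcov y p))
    (fun y _ y' _ h t ht hU => code_shadow semi hcov hj hk₀ h ht hU) hg1 (fun y _ => hg2 y)
  rw [lt_div_iff₀ hN0] at hN1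
  rw [hg3, ← hK] at hH
  set u := ∑ b ∈ Finset.range k, m.real (FF G R j k₀ b) with hu
  have hu0 : 0 ≤ u := Finset.sum_nonneg fun _ _ => measureReal_nonneg
  have hu1 : K * (2 * u) ≤ k := by
    rw [inv_mul_lt_iff₀ hk0, mul_one_div, lt_div_iff₀ (by positivity)] at hN2
    nlinarith
  set β := m.real (Hs G R (T₀ + 1))ᶜ with hβ
  have hβ0 : 0 ≤ β := measureReal_nonneg
  have hl2 : Real.log (2 * j) ≤ 1 + Real.log j := by
    rw [Real.log_mul (by norm_num) (by positivity)]
    have := Real.log_two_lt_d9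
    linarith
  have hC0 := abs_nonneg C
  have h1 : (Real.log (2 * j) + 2 * (D + |C|)) * β ≤
      1 / 4 + η / 2 * Real.log j + (D + |C|) / 2 := by
    have a1 : Real.log (2 * j) * β ≤ (1 + Real.log j) * β := mul_le_mul_of_nonneg_right hl2 hβ0
    have a2 : Real.log j * β ≤ Real.log j * (η / 2) :=
      mul_le_mul_of_nonneg_left (by linarith) hlj
    have a3 : (D + |C|) * β ≤ (D + |C|) * (1 / 4) :=
      mul_le_mul_of_nonneg_left (by linarith) (by linarith)
    nlinarith
  have h2 := mul_le_mul_of_nonneg_left h1 hk0.le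
  have h3 : (δ + 2 * (1 / j)) * N ≤ (k + 1) * (j * δ + 2) := by
    have b1 : (N : ℝ) ≤ (k + 1) * j := by exact_mod_cast hkj'.le
    have b2 : (δ + 2 * (1 / j)) * ((k + 1) * j) = (k + 1) * (j * δ + 2) := by
      field_simp
    rw [← b2]
    exact mul_le_mul_of_nonneg_left b1 (by positivity)
  have h4 : (k : ℝ) * D = k * (j * (2 * δ) + η * Real.log j +
      (2 * Real.log (2 * (T₀ + 1)) + 2 * |C| + 10)) := by rw [hD]
  have h5 : 0 ≤ (k : ℝ) * |C| := by positivity
  nlinarith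

end Pool.Agent.P.MP_eeb913_an.U
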