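import Mathlib
import Pool.Agent.P.MP_eeb913_an.U.Basic
import Pool.Agent.P.MP_eeb913_an.U.Mis
import Pool.Agent.P.MP_eeb913_an.U.Chain

/-!
Upper bound for weighted counts of disjoint crossings, and bounded distortion.

upper_bound. Assume I nonempty, Z = ∑ exp (a i), p i = exp (a i) / Z. For k and ω : Fin k → I (the
subtype) take by exists_chain a chain z ω through T (ω 0), …, T (ω (k-1)) with boundary data 0, and
x ω = χ.pt (z ω 0). By induction f^[i N] (x ω) = χ.pt (z ω i) = χ.start (T (ω i)) (b i) with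
b i = ((z (i+1)).1, (z i).2) of norm ≤ κ (IsChain.bound or boundary data), so it lies in the core of
T (ω i). σ k = ∑ ω, ofReal (∏ p (ω i)) • dirac (x ω), n k = k N, Γ k = range x. The cores are compact and
pairwise disjoint, so at distance ≥ ε₀ > 0; the Bowen ball of x ω of radius ε₀ meets Γ k only in
points x ω' with ω' = ω, and x is injective; its mass is ∏ p (ω i) ≤
exp (birkhoffSum (k N) (x ω) + k C - k log Z). The orbits stay in the compact union of the
f^[t] '' core, t < N. misiurewicz with a = (log Z - C) / N and hP give the claim.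
distortion. |φ (f^[t] x) - φ (f^[t] x')| ≤ |H| (2 D exp (-ε min t (n-t)))^α and
∑_{t < n} exp (-α ε min t (n-t)) ≤ 2 / (1 - exp (-α ε)).
-/

namespace Pool.Agent.P.MP_eeb913_an.U

open MeasureTheory Filter Metric Set
open scoped ENNReal NNReal Topology

private lemma up_orbit {F : E → E} {κ : ℝ} {χ : Chart} {T : ℕ → E → E} {k : ℕ} {z : ℕ → E}
    (hT : ∀ i < k, IsCross κ F χ χ (T i)) (hz : IsChain T k z) :
    ∀ i ≤ k, F^[i] (χ.pt (z 0)) = χ.pt (z i) := by
  intro i
  induction i with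
  | zero => intro _; rfl
  | succ i ih =>
    intro hi
    have hik : i < k := hi
    have hb := (hz.bound (fun j hj => (hT j hj).con) hik).1
    have hm := (hT i hik).map _ hb
    have he := hz.2 i hik
    rw [Function.iterate_succ_apply', ih hik.le]
    simp only [Chart.start, he] at hm
    simpa using hm

private lemma up_core {F : E → E} {κ : ℝ} (h0 : 0 ≤ κ) {χ : Chart} {T : ℕ → E → E} {k : ℕ}
    {z : ℕ → E} (hT : ∀ i < k, IsCross κ F χ χ (T i)) (hz : IsChain T k z)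
    (hk : (z k).1 = 0) (hz0 : (z 0).2 = 0) :
    ∀ i < k, χ.pt (z i) ∈ χ.core (T i) κ := by
  intro i hi
  have hc : ∀ j < k, IsCon κ (T j) := fun j hj => (hT j hj).con
  refine ⟨((z (i + 1)).1, (z i).2), ?_, ?_⟩
  · rw [mem_closedBall_zero_iff, Prod.norm_def]
    refine max_le ?_ ?_
    · rcases Nat.lt_or_ge (i + 1) k with h | h
      · exact (hz.bound hc h).2.1
      · have : i + 1 = k := by omega
        simp only [this, hk, norm_zero]; exact h0
    · rcases i with _ | j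
      · simp only [hz0, norm_zero]; exact h0
      · exact (hz.bound hc (by omega : j < k)).2.2
  · simp only [Chart.start, hz.2 i hi]

private lemma up_birkhoff (f : E → E) (φ : E → ℝ) (N k : ℕ) (x : E) :
    birkhoffSum f φ (k * N) x = ∑ i ∈ Finset.range k, birkhoffSum f φ N ((f^[N])^[i] x) := by
  induction k with
  | zero => simp
  | succ k ih =>
    rw [Finset.sum_range_succ, ← ih, Nat.succ_mul, birkhoffSum_add, ← Function.iterate_mul,
      mul_comm N k]

private lemma up_sep {ι : Type} (I : Finset ι) (K : ι → Set E) (hK : ∀ i ∈ I, IsCompact (K i))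
    (hdisj : ∀ i ∈ I, ∀ j ∈ I, i ≠ j → Disjoint (K i) (K j)) :
    ∃ ε : ℝ, 0 < ε ∧ ∀ i ∈ I, ∀ j ∈ I, ∀ x ∈ K i, ∀ y ∈ K j, ‖x - y‖ < ε → i = j := by
  have h : ∀ᶠ ε in 𝓝[>] (0 : ℝ), ∀ i ∈ I, ∀ j ∈ I, ∀ x ∈ K i, ∀ y ∈ K j,
      ‖x - y‖ < ε → i = j := by
    rw [Filter.eventually_all_finset]
    intro i hi
    rw [Filter.eventually_all_finset]
    intro j hj
    by_cases hij : i = j
    · exact Eventually.of_forall fun _ _ _ _ _ _ => hij
    · obtain ⟨r, hr, hr'⟩ := Metric.exists_pos_forall_lt_edist (hK i hi) (hK j hj).isClosed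
        (hdisj i hi j hj hij)
      have hr0 : (0 : ℝ) < r := hr
      filter_upwards [Ioo_mem_nhdsGT hr0] with ε hε x hx y hy hxy
      exfalso
      have h2 := hr' x hx y hy
      rw [edist_dist, dist_eq_norm, ← ENNReal.ofReal_coe_nnreal,
        ENNReal.ofReal_lt_ofReal_iff_of_nonneg hr0.le] at h2
      linarith [hε.2]
  obtain ⟨ε, h1, h2⟩ := (h.and self_mem_nhdsWithin).exists
  exact ⟨ε, h2, h1⟩

private lemma up_bdd {f : E → E} (hf : Continuous f) (N : ℕ) {ι : Type} (I : Finset ι)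
    (K : ι → Set E) (hK : ∀ i ∈ I, IsCompact (K i)) :
    ∃ ρ : ℝ, ∀ i ∈ I, ∀ t < N, ∀ y ∈ K i, ‖f^[t] y‖ ≤ ρ := by
  have hc : IsCompact (⋃ i ∈ I, ⋃ t ∈ Finset.range N, f^[t] '' K i) :=
    I.isCompact_biUnion fun i hi => (Finset.range N).isCompact_biUnion fun t _ =>
      (hK i hi).image (hf.iterate t)
  obtain ⟨ρ, hρ⟩ := hc.isBounded.exists_norm_le
  refine ⟨ρ, fun i hi t ht y hy => hρ _ ?_⟩
  simp only [mem_iUnion]
  exact ⟨i, hi, t, Finset.mem_range.2 ht, y, hy, rfl⟩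

private lemma up_meas {J : Type} [Fintype J] (w : J → ℝ) (x : J → E) (S : Set E) :
    (∑ j, ENNReal.ofReal (w j) • Measure.dirac (x j)) S =
      ∑ j, ENNReal.ofReal (w j) * S.indicator 1 (x j) := by
  rw [Measure.finsetSum_apply]
  refine Finset.sum_congr rfl fun j _ => ?_
  rw [Measure.smul_apply, Measure.dirac_apply, smul_eq_mul]

theorem upper_bound {f : E → E} (hf : Continuous f) {φ : E → ℝ} (hφ : Continuous φ) {B : ℝ}
    (hB : ∀ x, |φ x| ≤ B) {P : ℝ} (hP : ∀ ν, IsInvariantProb f ν → fe f φ ν ≤ P) {κ : ℝ}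
    (h1 : κ < 1) (χ : Chart) {N : ℕ} (hN : 0 < N) {ι : Type} (I : Finset ι) (T : ι → E → E)
    (hT : ∀ i ∈ I, IsCross κ f^[N] χ χ (T i))
    (hdisj : ∀ i ∈ I, ∀ j ∈ I, i ≠ j → Disjoint (χ.core (T i) κ) (χ.core (T j) κ))
    (a : ι → ℝ) (C : ℝ) (ha : ∀ i ∈ I, ∀ x ∈ χ.core (T i) κ, a i ≤ birkhoffSum f φ N x + C) :
    ∑ i ∈ I, Real.exp (a i) ≤ Real.exp (N * P + C) := by
  classical
  rcases I.eq_empty_or_nonempty with rfl | hI
  · simpa using (Real.exp_pos _).le
  obtain ⟨i₀, hi₀⟩ := hI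
  have h0 : 0 ≤ κ := (hT i₀ hi₀).con.nonneg
  set Z : ℝ := ∑ i ∈ I, Real.exp (a i) with hZ
  have hZ0 : 0 < Z := Finset.sum_pos (fun i _ => Real.exp_pos _) ⟨i₀, hi₀⟩
  have hK : ∀ i ∈ I, IsCompact (χ.core (T i) κ) := fun i hi =>
    (hT i hi).con.isCompact_core χ h1.le
  obtain ⟨ε, hε, hsep⟩ := up_sep I (fun i => χ.core (T i) κ) hK hdisj
  obtain ⟨ρ, hρ⟩ := up_bdd hf N I (fun i => χ.core (T i) κ) hK
  have hx : ∀ (k : ℕ) (ω : Fin k → I), ∃ x : E, ∀ i : Fin k,
      (f^[N])^[i] x ∈ χ.core (T (ω i)) κ := by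
    intro k ω
    let S : ℕ → E → E := fun i => if h : i < k then T (ω ⟨i, h⟩) else id
    have hS : ∀ i < k, IsCross κ f^[N] χ χ (S i) := fun i hi => by
      simp only [S, dif_pos hi]; exact hT _ (ω ⟨i, hi⟩).2
    obtain ⟨z, hz, hzk, hz0⟩ := exists_chain h0 h1 (fun i hi => (hS i hi).con)
      (b := 0) (by simp [D2])
    refine ⟨χ.pt (z 0), fun i => ?_⟩
    rw [up_orbit hS hz i i.2.le]
    have := up_core h0 hS hz hzk hz0 i i.2
    simpa only [S, dif_pos i.2] using this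
  choose x hx using hx
  let p : I → ℝ := fun i => Real.exp (a i) / Z
  have hp0 : ∀ i, 0 ≤ p i := fun i => div_nonneg (Real.exp_pos _).le hZ0.le
  have hp1 : ∑ i, p i = 1 := by
    simp only [p]
    rw [← Finset.sum_div, Finset.sum_coe_sort I (fun i => Real.exp (a i)), ← hZ, div_self hZ0.ne']
  let w : ∀ k : ℕ, (Fin k → I) → ℝ := fun k ω => ∏ i, p (ω i)
  have hw0 : ∀ k ω, 0 ≤ w k ω := fun k ω => Finset.prod_nonneg fun i _ => hp0 _
  let σ : ℕ → Measure E := fun k => ∑ ω, ENNReal.ofReal (w k ω) • Measure.dirac (x k ω)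
  have hσ : ∀ k, IsProbabilityMeasure (σ k) := fun k => ⟨by
    simp only [σ]
    rw [up_meas]
    simp only [indicator_univ, Pi.one_apply, mul_one]
    rw [← ENNReal.ofReal_sum_of_nonneg fun ω _ => hw0 k ω]
    simp only [w]
    rw [← Fintype.sum_pow, hp1, one_pow, ENNReal.ofReal_one]⟩
  have hΓ : ∀ k, ∀ᵐ y ∂σ k, y ∈ range (x k) := fun k => by
    rw [ae_iff]
    simp only [σ]
    rw [up_meas]
    refine Finset.sum_eq_zero fun ω _ => ?_
    rw [indicator_of_notMem (by simp), mul_zero]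
  have hV : ∀ k, ∀ y ∈ range (x k), ∀ j < k * N, ‖f^[j] y‖ ≤ ρ := by
    rintro k _ ⟨ω, rfl⟩ j hj
    have hjk : j / N < k := (Nat.div_lt_iff_lt_mul hN).2 hj
    have h2 := hρ _ (ω ⟨j / N, hjk⟩).2 (j % N) (Nat.mod_lt _ hN) _ (hx k ω ⟨j / N, hjk⟩)
    rw [← Function.iterate_mul, ← Function.iterate_add_apply, Nat.mod_add_div] at h2
    exact h2
  obtain ⟨μ, hμ, hle⟩ := misiurewicz hf hφ hB ρ σ hσ (fun k => k * N)
    (tendsto_id.atTop_mul_const' hN) (fun k => range (x k)) hΓ hV ((Real.log Z - C) / N) (by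
      intro η hη
      refine ⟨ε, hε, Eventually.of_forall ?_⟩
      rintro k _ ⟨ω₀, rfl⟩
      have hone : ∀ ω, x k ω ∈ {y | y ∈ range (x k) ∧
          ∀ j < k * N, ‖f^[j] (x k ω₀) - f^[j] y‖ < ε} → ω = ω₀ := by
        intro ω hω
        funext i
        have hi : N * i < k * N := by
          rw [mul_comm k N]; exact Nat.mul_lt_mul_of_pos_left i.2 hN
        have h2 := hω.2 _ hi
        rw [Function.iterate_mul] at h2
        exact (Subtype.ext (hsep _ (ω₀ i).2 _ (ω i).2 _ (hx k ω₀ i) _ (hx k ω i) h2)).symm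
      have hm : σ k {y | y ∈ range (x k) ∧
          ∀ j < k * N, ‖f^[j] (x k ω₀) - f^[j] y‖ < ε} ≤ ENNReal.ofReal (w k ω₀) := by
        simp only [σ]
        rw [up_meas, Finset.sum_eq_single ω₀]
        · refine mul_le_of_le_one_right' ?_
          exact indicator_le_self' (fun _ _ => zero_le_one) _
        · intro ω _ hω
          rw [indicator_of_notMem (fun h => hω (hone ω h)), mul_zero]
        · intro h; exact absurd (Finset.mem_univ _) h
      refine (ENNReal.toReal_le_of_le_ofReal (hw0 k ω₀) hm).trans ?_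
      have hw : w k ω₀ = Real.exp (∑ i : Fin k, (a (ω₀ i) - Real.log Z)) := by
        rw [Real.exp_sum]
        refine Finset.prod_congr rfl fun i _ => ?_
        rw [Real.exp_sub, Real.exp_log hZ0]
      rw [hw, Real.exp_le_exp, up_birkhoff, ← Fin.sum_univ_eq_sum_range
        (fun i => birkhoffSum f φ N ((f^[N])^[i] (x k ω₀))) k]
      have hs : ∑ i : Fin k, (a (ω₀ i) - Real.log Z) ≤
          ∑ i : Fin k, (birkhoffSum f φ N ((f^[N])^[i] (x k ω₀)) + (C - Real.log Z)) :=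
        Finset.sum_le_sum fun i _ => by linarith [ha _ (ω₀ i).2 _ (hx k ω₀ i)]
      rw [Finset.sum_add_distrib, Finset.sum_const, Finset.card_univ, Fintype.card_fin,
        nsmul_eq_mul] at hs
      have hN' : (0 : ℝ) < N := by exact_mod_cast hN
      have he : ((k * N : ℕ) : ℝ) * ((Real.log Z - C) / N - η) =
          k * (Real.log Z - C) - k * N * η := by
        push_cast; field_simp
      have hη' : 0 ≤ (k : ℝ) * N * η := by positivity
      rw [he]
      linarith)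
  have hle' : (Real.log Z - C) / N ≤ P := by exact_mod_cast hle.trans (hP μ hμ)
  have hN' : (0 : ℝ) < N := by exact_mod_cast hN
  rw [div_le_iff₀ hN'] at hle'
  rw [← Real.exp_log hZ0, Real.exp_le_exp]
  linarith

theorem distortion {φ : E → ℝ} {H α ε D : ℝ} (hα : 0 < α)
    (hH : ∀ z w : E, |φ z - φ w| ≤ H * ‖z - w‖ ^ α) (hε : 0 < ε) (hD : 0 ≤ D) :
    ∃ C : ℝ, 0 ≤ C ∧ ∀ (f : E → E) (κ : ℝ) (χ : Chart) (n : ℕ) (T : E → E),
      IsGood f κ ε D χ n T → ∀ b ∈ D2, ∀ b' ∈ D2,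
        |birkhoffSum f φ n (χ.start T b) - birkhoffSum f φ n (χ.start T b')| ≤ C := by
  set r : ℝ := Real.exp (-(ε * α)) with hr
  have hr0 : 0 < r := Real.exp_pos _
  have hr1 : r < 1 := Real.exp_lt_one_iff.2 (by nlinarith [mul_pos hε hα])
  have hg : ∀ n : ℕ, ∑ t ∈ Finset.range n, r ^ t ≤ (1 - r)⁻¹ := fun n =>
    sum_le_hasSum _ (fun t _ => pow_nonneg hr0.le t) (hasSum_geometric_of_lt_one hr0.le hr1)
  have hA : 0 ≤ |H| * (2 * D) ^ α := by positivity
  have h1r : 0 ≤ (1 - r)⁻¹ := inv_nonneg.2 (by linarith)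
  refine ⟨|H| * (2 * D) ^ α * (2 * (1 - r)⁻¹), by positivity, ?_⟩
  intro f κ χ n T hT b hb b' hb'
  have hbb : ‖b - b'‖ ≤ 2 := by
    have h1 := mem_closedBall_zero_iff.1 hb
    have h2 := mem_closedBall_zero_iff.1 hb'
    linarith [norm_sub_le b b']
  have ht : ∀ t ∈ Finset.range n,
      |φ (f^[t] (χ.start T b)) - φ (f^[t] (χ.start T b'))| ≤
        |H| * (2 * D) ^ α * (r ^ t + r ^ (n - 1 - t)) := by
    intro t htn
    have htn' : t < n := Finset.mem_range.1 htn
    have h1 := hT.decay b hb b' hb' t htn'.le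
    set m : ℕ := min t (n - t) with hm
    have h2 : ‖f^[t] (χ.start T b) - f^[t] (χ.start T b')‖ ≤
        2 * D * Real.exp (-(ε * m)) := by
      have : 0 ≤ D * Real.exp (-(ε * m)) := by positivity
      nlinarith
    have h3 : (2 * D * Real.exp (-(ε * m))) ^ α = (2 * D) ^ α * r ^ m := by
      rw [Real.mul_rpow (by positivity) (Real.exp_pos _).le, ← Real.exp_mul, hr,
        ← Real.exp_nat_mul]
      congr 2
      ring
    have h4 : r ^ m ≤ r ^ t + r ^ (n - 1 - t) := by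
      rcases le_total t (n - t) with h | h
      · rw [hm, min_eq_left h]
        linarith [pow_nonneg hr0.le (n - 1 - t)]
      · rw [hm, min_eq_right h]
        have : r ^ (n - t) ≤ r ^ (n - 1 - t) := pow_le_pow_of_le_one hr0.le hr1.le (by omega)
        linarith [pow_nonneg hr0.le t]
    calc _ ≤ H * ‖f^[t] (χ.start T b) - f^[t] (χ.start T b')‖ ^ α := hH _ _
      _ ≤ |H| * ‖f^[t] (χ.start T b) - f^[t] (χ.start T b')‖ ^ α :=
        mul_le_mul_of_nonneg_right (le_abs_self H) (by positivity)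
      _ ≤ |H| * (2 * D * Real.exp (-(ε * m))) ^ α :=
        mul_le_mul_of_nonneg_left (Real.rpow_le_rpow (norm_nonneg _) h2 hα.le) (abs_nonneg H)
      _ = |H| * (2 * D) ^ α * r ^ m := by rw [h3, mul_assoc]
      _ ≤ _ := mul_le_mul_of_nonneg_left h4 hA
  simp only [birkhoffSum]
  rw [← Finset.sum_sub_distrib]
  refine (Finset.abs_sum_le_sum_abs _ _).trans ((Finset.sum_le_sum ht).trans ?_)
  rw [← Finset.mul_sum, Finset.sum_add_distrib, Finset.sum_range_reflect (fun t => r ^ t) n]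
  exact mul_le_mul_of_nonneg_left (by linarith [hg n]) hA

end Pool.Agent.P.MP_eeb913_an.U
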