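import Mathlib
import Pool.Agent.P.MP_eeb913_an.U.Basic
import Pool.Agent.P.MP_eeb913_an.U.Cell
import Pool.Agent.P.MP_eeb913_an.U.Upper
import Pool.Agent.P.MP_eeb913_an.U.Lower
import Pool.Agent.P.MP_eeb913_an.U.Local
import Pool.Agent.P.MP_eeb913_an.U.FiltLem

/-!
Boxes with many good crossings.

Sketch. Take the data of exists_cell; the new constant is 2 C₀. Cd from distortion. For n > 0 let
𝒢 n = {T | IsGood f κ ε D χ n T ∧ ∃ y ∈ R, G^[n] y ∈ R ∧ π y ∈ χ.core T κ}. A finite subfamily whose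
members are pairwise not EqOn D2 has disjoint cores (disjoint_core; f^[n] is smooth), so upper_bound
with a T = birkhoffSum f φ n (χ.start T 0) and C = Cd bounds its cardinality by
exp (n P + Cd + n B). Take W n a subfamily of maximal cardinality (W 0 = ∅); by maximality each
T ∈ 𝒢 n is EqOn D2 to a member of W n, with the same core. Apply lower_bound with S T = χ.core T κ,
a n T = birkhoffSum f φ n (χ.start T 0) + Cd. For hsh: if f^[t p] x = χ.start (T p) (b p), then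
z p = χ.co (f^[t p] x) is a chain of length l through the T p with b p = ((z (p+1)).1, (z p).2)
(use IsCross.map and pt_injective); chain_est gives ‖b p - b' p‖ ≤ 2 κ^k₀, and decay gives
distance ≤ 2 D κ^k₀. The orbit bound R₀ + 1 comes from Filt.bounded_between at radius R₀ + 1
(the orbit starts and ends in the box).
-/

namespace Pool.Agent.P.MP_eeb913_an.U

open MeasureTheory Filter Metric Set
open scoped ENNReal NNReal Topology

theorem sys_max (𝒢 : Set (E → E)) (N : ℕ)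
    (hN : ∀ s : Finset (E → E), (∀ T ∈ s, T ∈ 𝒢) →
      (∀ T ∈ s, ∀ T' ∈ s, T ≠ T' → ¬ EqOn T T' D2) → s.card ≤ N) :
    ∃ W : Finset (E → E), (∀ T ∈ W, T ∈ 𝒢) ∧ (∀ T ∈ W, ∀ T' ∈ W, T ≠ T' → ¬ EqOn T T' D2) ∧
      ∀ T ∈ 𝒢, ∃ T' ∈ W, EqOn T T' D2 := by
  classical
  let A : Set ℕ := {n | ∃ s : Finset (E → E), (∀ T ∈ s, T ∈ 𝒢) ∧
    (∀ T ∈ s, ∀ T' ∈ s, T ≠ T' → ¬ EqOn T T' D2) ∧ s.card = n}
  have hne : A.Nonempty := ⟨0, ∅, by simp, by simp, rfl⟩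
  have hbd : BddAbove A := ⟨N, by
    rintro n ⟨s, h1, h2, rfl⟩
    exact hN s h1 h2⟩
  obtain ⟨W, h1, h2, h3⟩ := Nat.sSup_mem hne hbd
  refine ⟨W, h1, h2, fun T hT => ?_⟩
  by_contra hc
  push Not at hc
  have hTW : T ∉ W := fun h => hc T h (fun _ _ => rfl)
  have h4 : (insert T W).card ∈ A := by
    refine ⟨insert T W, ?_, ?_, rfl⟩
    · intro S hS
      rcases Finset.mem_insert.mp hS with rfl | hS
      · exact hT
      · exact h1 S hS
    · intro S hS S' hS' hne'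
      rcases Finset.mem_insert.mp hS with rfl | a1 <;>
        rcases Finset.mem_insert.mp hS' with rfl | a2
      · exact absurd rfl hne'
      · exact hc S' a2
      · exact fun h => hc S a1 h.symm
      · exact h2 S a1 S' a2 hne'
  have h5 := le_csSup hbd h4
  rw [Finset.card_insert_of_notMem hTW, ← h3] at h5
  omega

theorem sys_mem {κ : ℝ} {T : E → E} (h1 : κ ≤ 1) (h : IsCon κ T) {b : E} (hb : b ∈ D2) :
    ((T b).1, b.2) ∈ D2 ∧ (b.1, (T b).2) ∈ D2 := by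
  have h2 := h.bound b hb
  have h3 := mem_D2.mp hb
  exact ⟨mem_D2.mpr ⟨(norm_fst_le (T b)).trans (h2.trans h1), h3.2⟩,
    mem_D2.mpr ⟨h3.1, (norm_snd_le (T b)).trans (h2.trans h1)⟩⟩

theorem sys_chain {f : E → E} {κ : ℝ} (h1 : κ ≤ 1) {χ : Chart} {l : ℕ} (hl : 0 < l) {t : ℕ → ℕ}
    {T : ℕ → E → E} {x : E} (ht : ∀ p < l, t p < t (p + 1))
    (hT : ∀ p < l, IsCross κ f^[t (p + 1) - t p] χ χ (T p))
    (hx : ∀ p < l, f^[t p] x ∈ χ.core (T p) κ) :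
    IsChain T l (fun p => χ.co (f^[t p] x)) ∧ ∀ p < l, f^[t p] x =
      χ.start (T p) ((χ.co (f^[t (p + 1)] x)).1, (χ.co (f^[t p] x)).2) := by
  have key : ∀ p < l, ∃ b ∈ D2, f^[t p] x = χ.start (T p) b ∧
      χ.co (f^[t p] x) = ((T p b).1, b.2) ∧ χ.co (f^[t (p + 1)] x) = (b.1, (T p b).2) := by
    intro p hp
    obtain ⟨b, hb, hb'⟩ := hx p hp
    have hb2 : b ∈ D2 := closedBall_subset_closedBall h1 hb
    refine ⟨b, hb2, hb'.symm, ?_, ?_⟩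
    · rw [← hb', Chart.start, Chart.co_pt]
    · have h2 : t (p + 1) = (t (p + 1) - t p) + t p := by have := ht p hp; omega
      rw [h2, Function.iterate_add_apply, ← hb', (hT p hp).map b hb2, Chart.co_pt]
  refine ⟨⟨fun p hp => ?_, fun p hp => ?_⟩, fun p hp => ?_⟩
  · rcases hp.lt_or_eq with hp | hp
    · obtain ⟨b, hb, -, h2, -⟩ := key p hp
      beta_reduce
      rw [h2]
      exact (sys_mem h1 (hT p hp).con hb).1
    · obtain ⟨q, rfl⟩ : ∃ q, p = q + 1 := ⟨p - 1, by omega⟩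
      obtain ⟨b, hb, -, -, h2⟩ := key q (by omega)
      beta_reduce
      rw [h2]
      exact (sys_mem h1 (hT q (by omega)).con hb).2
  · obtain ⟨b, -, -, h2, h3⟩ := key p hp
    beta_reduce
    rw [h2, h3]
  · obtain ⟨b, -, h4, h2, h3⟩ := key p hp
    rw [h2, h3]
    exact h4

theorem sys_shadow {f : E → E} {κ ε D : ℝ} (h0 : 0 < κ) (h1 : κ < 1) (hε : 0 < ε) (hD : 0 < D)
    {χ : Chart} {W : ℕ → Finset (E → E)} (hW : ∀ n, ∀ T ∈ W n, IsGood f κ ε D χ n T) (e : ℝ)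
    (he : 0 < e) : ∃ k₀ : ℕ, ∀ (l : ℕ) (t : ℕ → ℕ) (i : ℕ → E → E) (x x' : E),
      (∀ p < l, t p < t (p + 1) ∧ i p ∈ W (t (p + 1) - t p) ∧ f^[t p] x ∈ χ.core (i p) κ ∧
        f^[t p] x' ∈ χ.core (i p) κ) →
      ∀ p, k₀ ≤ p → p + k₀ < l → ∀ s, t p ≤ s → s < t (p + 1) → ‖f^[s] x - f^[s] x'‖ < e := by
  obtain ⟨k₀, hk⟩ := exists_pow_lt_of_lt_one (by positivity : 0 < e / (2 * D)) h1
  refine ⟨k₀, fun l t i x x' h p hp hpl s hs hs' => ?_⟩
  have hl : 0 < l := by omega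
  have hg : ∀ p < l, IsGood f κ ε D χ (t (p + 1) - t p) (i p) := fun p hp => hW _ _ (h p hp).2.1
  obtain ⟨c1, c2⟩ := sys_chain h1.le hl (fun p hp => (h p hp).1) (fun p hp => (hg p hp).cross)
    (fun p hp => (h p hp).2.2.1)
  obtain ⟨c1', c2'⟩ := sys_chain h1.le hl (fun p hp => (h p hp).1) (fun p hp => (hg p hp).cross)
    (fun p hp => (h p hp).2.2.2)
  have hcon : ∀ p < l, IsCon κ (i p) := fun p hp => (hg p hp).cross.con
  have est := chain_est h0.le h1 hcon c1 c1'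
  have hb := (c1.bound hcon (i := p) (by omega)).1
  have hb' := (c1'.bound hcon (i := p) (by omega)).1
  have hU : ‖(χ.co (f^[t l] x)).1 - (χ.co (f^[t l] x')).1‖ ≤ 2 :=
    (norm_sub_le _ _).trans (by
      linarith [(mem_D2.mp (c1.1 l le_rfl)).1, (mem_D2.mp (c1'.1 l le_rfl)).1])
  have hS : ‖(χ.co (f^[t 0] x)).2 - (χ.co (f^[t 0] x')).2‖ ≤ 2 :=
    (norm_sub_le _ _).trans (by
      linarith [(mem_D2.mp (c1.1 0 hl.le)).2, (mem_D2.mp (c1'.1 0 hl.le)).2])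
  have hpow : ∀ (q : ℕ) (r : ℝ), k₀ ≤ q → 0 ≤ r → r ≤ 2 → κ ^ q * r ≤ κ ^ k₀ * 2 :=
    fun q r hq hr hr' => mul_le_mul (pow_le_pow_of_le_one h0.le h1.le hq) hr' hr (by positivity)
  have e1 := (est (p + 1) (by omega)).1.trans (max_le
    (hpow _ _ (by omega) (norm_nonneg _) hU) (hpow _ _ (by omega) (norm_nonneg _) hS))
  have e2 := (est p (by omega)).2.trans (max_le
    (hpow _ _ (by omega) (norm_nonneg _) hS) (hpow _ _ (by omega) (norm_nonneg _) hU))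
  have e3 := (hg p (by omega)).decay _ hb _ hb' (s - t p) (by omega)
  rw [← c2 p (by omega), ← c2' p (by omega), ← Function.iterate_add_apply,
    ← Function.iterate_add_apply, Nat.sub_add_cancel hs] at e3
  refine e3.trans_lt ?_
  have e4 : ‖(((χ.co (f^[t (p + 1)] x)).1, (χ.co (f^[t p] x)).2) : E) -
      ((χ.co (f^[t (p + 1)] x')).1, (χ.co (f^[t p] x')).2)‖ ≤ κ ^ k₀ * 2 := by
    rw [Prod.mk_sub_mk, Prod.norm_mk]
    exact max_le e1 e2
  have e5 : Real.exp (-(ε * (min (s - t p) (t (p + 1) - t p - (s - t p)) : ℕ))) ≤ 1 :=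
    Real.exp_le_one_iff.mpr (neg_nonpos.mpr (by positivity))
  rw [lt_div_iff₀ (by positivity)] at hk
  calc _ ≤ D * 1 * (κ ^ k₀ * 2) :=
        mul_le_mul (mul_le_mul_of_nonneg_left e5 hD.le) e4 (norm_nonneg _) (by positivity)
    _ < e := by linarith

theorem exists_sys {f g : E → E} {d : ℕ} {R₀ : ℝ} (h : IsHL f g d R₀) {φ : E → ℝ}
    (hφ : Continuous φ) {B : ℝ} (hB : ∀ x, |φ x| ≤ B) {H α : ℝ} (hα : 0 < α)
    (hH : ∀ z w : E, |φ z - φ w| ≤ H * ‖z - w‖ ^ α) {P h₀ : ℝ} (h0 : 0 < h₀)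
    (hP : ∀ ν, IsInvariantProb f ν → fe f φ ν ≤ P) (hgap : ∀ x, φ x + 2 * h₀ ≤ P) :
    ∃ C₀ δ₀ : ℝ, 0 < C₀ ∧ 0 < δ₀ ∧ ∀ (μ : Measure E) (δ : ℝ), IsInvariantProb f μ → 0 ≤ δ →
      δ ≤ δ₀ → ((P - δ : ℝ) : EReal) ≤ fe f φ μ → ∀ Ek : ℕ → Set E, (∀ k, MeasurableSet (Ek k)) →
      Monotone Ek → (∀ᵐ x ∂μ, ∃ k, x ∈ Ek k) → ∀ D₀ : ℝ, 0 < D₀ →
      ∃ (κ ε D : ℝ) (χ : Chart) (W : ℕ → Finset (E → E)) (k : ℕ), D ≤ D₀ ∧
        IsSys f (R₀ + 1) κ ε D χ W ∧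
        (∀ n, ∀ T ∈ W n, ∃ b ∈ D2, χ.start T b ∈ Ek k ∧ f^[n] (χ.start T b) ∈ Ek k ∧
          ∀ j ≤ n, ‖f^[j] (χ.start T b)‖ ≤ R₀ + 1) ∧
        LowerSum f φ P (C₀ * δ) χ W := by
  obtain ⟨C₀, δ₀, hC₀, hδ₀, hcell⟩ := exists_cell h hφ hB h0 hP hgap
  refine ⟨2 * C₀, δ₀, by positivity, hδ₀, fun μ δ hμ hδ hδ' hfe Ek hE hmono hae D₀ hD₀ => ?_⟩
  obtain ⟨Y, _, m, G, π, R, κ, ε, D, χ, k, hm, hG, hπ, semi, hR, hrec, hfe', k0, k1, e0, d0, hD,
    box, hEk, hgood⟩ := hcell μ δ hμ hδ' hfe Ek hE hmono hae D₀ hD₀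
  obtain ⟨Cd, hCd, hdist⟩ := distortion hα hH e0 d0.le
  have hf : Continuous f := h.cf.continuous
  have h0D : (0 : E) ∈ D2 := mem_closedBall_self zero_le_one
  have hsub : closedBall (0 : E) κ ⊆ D2 := closedBall_subset_closedBall k1.le
  have hup : ∀ n : ℕ, 0 < n → ∀ s : Finset (E → E), (∀ T ∈ s, IsGood f κ ε D χ n T) →
      (∀ T ∈ s, ∀ T' ∈ s, T ≠ T' → ¬ EqOn T T' D2) →
      ∑ T ∈ s, Real.exp (birkhoffSum f φ n (χ.start T 0)) ≤ Real.exp (n * P + Cd) := by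
    intro n hn s h1 h2
    refine upper_bound hf hφ hB hP k1 χ hn s (fun T => T) (fun T hT => (h1 T hT).cross)
      (fun T hT T' hT' hne => IsCross.disjoint_core
        (contDiff_iterate (h.cf.of_le (by norm_num)) n) (h1 T hT).cross (h1 T' hT').cross k1
        (h2 T hT T' hT' hne)) _ Cd ?_
    rintro T hT _ ⟨b, hb, rfl⟩
    linarith [(abs_le.mp (hdist f κ χ n T (h1 T hT) 0 h0D b (hsub hb))).2]
  have hW : ∀ n : ℕ, ∃ W : Finset (E → E), (∀ T ∈ W, T ∈ {T | 0 < n ∧ IsGood f κ ε D χ n T ∧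
      ∃ y ∈ R, G^[n] y ∈ R ∧ π y ∈ χ.core T κ}) ∧
      (∀ T ∈ W, ∀ T' ∈ W, T ≠ T' → ¬ EqOn T T' D2) ∧
      ∀ T ∈ {T | 0 < n ∧ IsGood f κ ε D χ n T ∧ ∃ y ∈ R, G^[n] y ∈ R ∧ π y ∈ χ.core T κ},
        ∃ T' ∈ W, EqOn T T' D2 := by
    intro n
    refine sys_max _ ⌊Real.exp (n * P + Cd) / Real.exp (-(n * B))⌋₊ fun s h1 h2 => ?_
    rcases s.eq_empty_or_nonempty with rfl | ⟨T₀, hT₀⟩
    · simp
    refine Nat.le_floor ?_
    rw [le_div_iff₀ (Real.exp_pos _), ← nsmul_eq_mul]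
    refine le_trans (Finset.card_nsmul_le_sum _ _ _ fun T _ => Real.exp_le_exp.mpr ?_)
      (hup n (h1 T₀ hT₀).1 s (fun T hT => (h1 T hT).2.1) h2)
    have h3 := Finset.card_nsmul_le_sum (Finset.range n) (fun j => φ (f^[j] (χ.start T 0))) (-B)
      fun j _ => (abs_le.mp (hB _)).1
    rw [Finset.card_range, nsmul_eq_mul, mul_neg] at h3
    exact h3
  choose W hW1 hW2 hW3 using hW
  have hWg : ∀ n, ∀ T ∈ W n, IsGood f κ ε D χ n T := fun n T hT => (hW1 n T hT).2.1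
  have hsum : ∀ n, ∑ T ∈ W n, Real.exp (birkhoffSum f φ n (χ.start T 0) + Cd) =
      (∑ T ∈ W n, Real.exp (birkhoffSum f φ n (χ.start T 0))) * Real.exp Cd := by
    intro n
    simp only [Real.exp_add, Finset.sum_mul]
  refine ⟨κ, ε, D, χ, W, k, hD, ⟨k0, k1, e0, d0, box, hWg, hW2⟩, fun n T hT => ?_, fun η hη => ?_⟩
  · obtain ⟨-, hg, y, hy, hy', b, hb, hb'⟩ := hW1 n T hT
    have hsemi : π (G^[n] y) = f^[n] (π y) := (Function.Semiconj.iterate_right semi n) y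
    obtain ⟨m1, m2⟩ := sys_mem k1.le hg.cross.con (hsub hb)
    refine ⟨b, hsub hb, ?_, ?_, ?_⟩
    · rw [hb']; exact hEk y hy
    · rw [hb', ← hsemi]; exact hEk _ hy'
    · refine (h.ff (R₀ + 1) (by linarith)).bounded_between le_rfl (z := χ.start T b)
        (le_max_of_le_left ((norm_snd_le _).trans (box _ m1))) ?_
      rw [hg.cross.map b (hsub hb)]
      exact (norm_fst_le _).trans (box _ m2)
  · obtain ⟨T₀, C', hC'⟩ := lower_bound hφ.measurable hB hG hπ hf.measurable semi hR hrec W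
      (fun T => χ.core T κ) (fun n T => birkhoffSum f φ n (χ.start T 0) + Cd) (P := P)
      (C := Cd + Cd) (δ := C₀ * δ) (by positivity)
      (fun n hn y hy hy' => by
        obtain ⟨T, hT, b, hb, hb'⟩ := hgood n hn y hy hy'
        obtain ⟨T', hT', he⟩ := hW3 n T ⟨hn, hT, y, hy, hy', b, hb, hb'⟩
        refine ⟨T', hT', b, hb, ?_⟩
        rw [← hb', Chart.start, Chart.start, he (hsub hb)])
      (by
        rintro n hn T hT _ ⟨b, hb, rfl⟩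
        linarith [(abs_le.mp (hdist f κ χ n T (hWg n T hT) b (hsub hb) 0 h0D)).2])
      (fun n hn => by
        rw [hsum, ← add_assoc, Real.exp_add _ Cd]
        exact mul_le_mul_of_nonneg_right (hup n hn _ (hWg n) (hW2 n)) (Real.exp_pos _).le)
      (sys_shadow k0 k1 e0 d0 hWg) hfe' hη
    refine ⟨T₀, C' + Cd, fun j hj => ?_⟩
    obtain ⟨n, h1, h2, h3⟩ := hC' j hj
    refine ⟨n, h1, h2, ?_⟩
    rw [hsum, ← div_le_iff₀ (Real.exp_pos _), ← Real.exp_sub] at h3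
    refine le_of_eq_of_le (congrArg Real.exp ?_) h3
    ring

end Pool.Agent.P.MP_eeb913_an.U
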