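import Mathlib
import Pool.Agent.P.MP_eeb913_an.U.Basic
import Pool.Agent.P.MP_eeb913_an.U.Sys
import Pool.Agent.P.MP_eeb913_an.U.Count
import Pool.Agent.P.MP_eeb913_an.U.Mis

/-!
Existence of an equilibrium state.

Sketch. For each k let δ k = δ₀ / (k + 1); as P is the least upper bound there is μ k with
P - δ k ≤ fe (μ k). exists_sys with Ek = univ and D₀ = 1 gives χ k, W k; marked points χ.start T 0 have
orbits bounded by ρ = R₀ + 2 up to time n (decay, D ≤ 1). For i ∈ ℕ let ε i come from count_bound with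
η = 1 / (i + 1), made smaller so that |φ z - φ w| ≤ 1 / (i + 1) when ‖z - w‖ ≤ ε i; C k i the constants.
LowerSum with η = 1 gives T₀, C'; choose j, hence n = n k ≥ k, so large that j ≤ 2 n and
log j + C' + log (max 1 (C k i)) + 2 (B + |P|) ≤ n / (k + 1) for all i ≤ k. Z = ∑_{T ∈ W n} exp (S_n φ (start T 0)),
σ k = Z⁻¹ • ∑ ofReal (exp (S_n φ (start T 0))) • dirac (start T 0), Γ k the marked points, times n + 1.
For i ≤ k a Bowen ball of radius ε i at x has mass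
≤ C k i exp (n / (i + 1)) exp (S_n φ x + n / (i + 1)) / Z. misiurewicz with a = P.
-/

namespace Pool.Agent.P.MP_eeb913_an.U

open MeasureTheory Filter Metric Set
open scoped ENNReal NNReal Topology

theorem exist_measure {ι : Type} (W : Finset ι) (y : ι → E) (c : ι → ℝ) (hc : ∀ T, 0 ≤ c T) :
    ∃ σ : Measure E, ∀ (S : Set E) (I : Finset ι), (∀ T, T ∈ I ↔ T ∈ W ∧ y T ∈ S) →
      σ S = ENNReal.ofReal (∑ T ∈ I, c T) := by
  classical
  refine ⟨∑ T ∈ W, ENNReal.ofReal (c T) • Measure.dirac (y T), fun S I hI => ?_⟩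
  obtain rfl : I = W.filter fun T => y T ∈ S := Finset.ext fun T => by rw [hI, Finset.mem_filter]
  rw [Measure.finsetSum_apply, ENNReal.ofReal_sum_of_nonneg fun T _ => hc T, Finset.sum_filter]
  refine Finset.sum_congr rfl fun T _ => ?_
  rw [Measure.smul_apply, Measure.dirac_apply, smul_eq_mul]
  by_cases h : y T ∈ S <;> simp [h]

theorem exist_large (T₀ k : ℕ) (M : ℝ) {θ : ℝ} (hθ : 0 < θ) :
    ∃ j : ℕ, T₀ < j ∧ ∀ n : ℕ, j ≤ n + T₀ → k ≤ n ∧ j ≤ 2 * n ∧ Real.log j + M ≤ n * θ := by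
  have h1 := (tendsto_natCast_atTop_atTop (R := ℝ)).eventually
    (Real.isLittleO_log_id_atTop.bound (c := θ / 4) (by positivity))
  have h2 := (tendsto_natCast_atTop_atTop (R := ℝ)).eventually (eventually_ge_atTop (4 * M / θ))
  obtain ⟨j, ⟨hj1, hj2⟩, hj3⟩ := ((h1.and h2).and (eventually_ge_atTop (2 * T₀ + k + 1))).exists
  refine ⟨j, by omega, fun n hn => ⟨by omega, by omega, ?_⟩⟩
  have h3 : (j : ℝ) ≤ 2 * n := by exact_mod_cast (by omega : j ≤ 2 * n)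
  rw [div_le_iff₀ hθ] at hj2
  have h4 : Real.log j ≤ θ / 4 * j := by
    refine (le_abs_self _).trans (hj1.trans (le_of_eq ?_))
    simp
  nlinarith

theorem exist_modulus {φ : E → ℝ} {H α : ℝ} (hα : 0 < α)
    (hH : ∀ z w : E, |φ z - φ w| ≤ H * ‖z - w‖ ^ α) {ω : ℝ} (hω : 0 < ω) :
    ∃ ε : ℝ, 0 < ε ∧ ∀ z w : E, ‖z - w‖ < ε → |φ z - φ w| ≤ ω := by
  have hc : ContinuousAt (fun t : ℝ => H * t ^ α) 0 :=
    continuousAt_const.mul (Real.continuousAt_rpow_const 0 α (Or.inr hα.le))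
  obtain ⟨ε, hε, h⟩ := Metric.continuousAt_iff.1 hc ω hω
  refine ⟨ε, hε, fun z w hzw => (hH z w).trans ?_⟩
  have := h (x := ‖z - w‖) (by simpa using hzw)
  rw [Real.zero_rpow hα.ne', mul_zero, dist_zero_right] at this
  exact (le_abs_self _).trans this.le

theorem exist_birkhoff {f : E → E} {φ : E → ℝ} {ε ω : ℝ}
    (hω : ∀ z w : E, ‖z - w‖ < ε → |φ z - φ w| ≤ ω) {x y : E} {n : ℕ}
    (h : ∀ j < n, ‖f^[j] x - f^[j] y‖ < ε) :
    birkhoffSum f φ n y ≤ birkhoffSum f φ n x + n * ω := by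
  have h1 : ∑ j ∈ Finset.range n, φ (f^[j] y) ≤ ∑ j ∈ Finset.range n, (φ (f^[j] x) + ω) :=
    Finset.sum_le_sum fun j hj => by
      linarith [(abs_le.1 (hω _ _ (h j (Finset.mem_range.1 hj)))).1]
  rw [Finset.sum_add_distrib, Finset.sum_const, Finset.card_range, nsmul_eq_mul] at h1
  exact h1

theorem exist_step {f : E → E} {φ : E → ℝ} {B : ℝ} (hB : ∀ x, |φ x| ≤ B) {P R κ ε₀ D δ θ : ℝ}
    {χ : Chart} {W : ℕ → Finset (E → E)} (hD : D ≤ 1) (hs : IsSys f R κ ε₀ D χ W)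
    (hb : ∀ n, ∀ T ∈ W n, ∃ b ∈ D2, ∀ j ≤ n, ‖f^[j] (χ.start T b)‖ ≤ R)
    (hl : LowerSum f φ P δ χ W) (hδ : 0 ≤ δ) (hθ : 0 < θ) (k : ℕ) (e η C : ℕ → ℝ)
    (hη : ∀ i, 0 ≤ η i)
    (hC : ∀ (i n : ℕ) (x : E) (I : Finset (E → E)), (∀ j ≤ n, ‖f^[j] x‖ ≤ R + 1) →
      (∀ T ∈ I, IsGood f κ ε₀ D χ n T) → (∀ T ∈ I, ∀ T' ∈ I, T ≠ T' → ¬ EqOn T T' D2) →
      (∀ T ∈ I, ∀ j ≤ n, ‖f^[j] (χ.start T 0) - f^[j] x‖ ≤ e i) →
      (I.card : ℝ) ≤ C i * Real.exp (η i * n)) :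
    ∃ (σ : Measure E) (N : ℕ) (Γ : Set E), IsProbabilityMeasure σ ∧ k ≤ N ∧ (∀ᵐ x ∂σ, x ∈ Γ) ∧
      (∀ x ∈ Γ, ∀ j < N, ‖f^[j] x‖ ≤ R + 1) ∧
      ∀ i ≤ k, ∀ ε ω : ℝ, ε ≤ e i → 0 ≤ ω → (∀ z w : E, ‖z - w‖ < ε → |φ z - φ w| ≤ ω) →
        ∀ x ∈ Γ, σ.real {y | y ∈ Γ ∧ ∀ j < N, ‖f^[j] x - f^[j] y‖ < ε} ≤
          Real.exp (birkhoffSum f φ N x - N * (P - (η i + ω + (2 * δ + θ)))) := by
  classical
  obtain ⟨T₀, C', hT⟩ := hl 1 one_pos
  obtain ⟨j, hj, hjn⟩ := exist_large T₀ k (C' + B + |P| + ∑ i ∈ Finset.range (k + 1), |C i|) hθ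
  obtain ⟨n, hn1, -, hZ⟩ := hT j hj
  obtain ⟨hkn, hj2, hM⟩ := hjn n hn1
  obtain ⟨Z, hZe⟩ : ∃ Z, Z = ∑ T ∈ W n, Real.exp (birkhoffSum f φ n (χ.start T 0)) := ⟨_, rfl⟩
  rw [← hZe] at hZ
  have hZ0 : 0 < Z := (Real.exp_pos _).trans_le hZ
  have hc0 : ∀ T : E → E, 0 ≤ Real.exp (birkhoffSum f φ n (χ.start T 0)) / Z := fun T =>
    div_nonneg (Real.exp_pos _).le hZ0.le
  obtain ⟨σ, hσ⟩ := exist_measure (W n) (fun T => χ.start T 0) _ hc0
  have horb : ∀ T ∈ W n, ∀ t ≤ n, ‖f^[t] (χ.start T 0)‖ ≤ R + 1 := fun T hT t ht => by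
    obtain ⟨b, hb1, hb2⟩ := hb n T hT
    have h1 := (hs.good n T hT).decay 0 (by simp [D2]) b hb1 t ht
    have h2 : ‖(0 : E) - b‖ ≤ 1 := by simpa [D2] using hb1
    have h3 : Real.exp (-(ε₀ * (min t (n - t) : ℕ))) ≤ 1 :=
      Real.exp_le_one_iff.2 (neg_nonpos.2 (mul_nonneg hs.e0.le (Nat.cast_nonneg _)))
    have h4 : D * Real.exp (-(ε₀ * (min t (n - t) : ℕ))) * ‖(0 : E) - b‖ ≤ 1 :=
      mul_le_one₀ (mul_le_one₀ hD (Real.exp_pos _).le h3) (norm_nonneg _) h2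
    have h5 := norm_sub_norm_le (f^[t] (χ.start T 0)) (f^[t] (χ.start T b))
    linarith [hb2 t ht]
  refine ⟨σ, n + 1, {x | ∃ T ∈ W n, χ.start T 0 = x}, ⟨?_⟩, by omega, ?_, ?_, ?_⟩
  · rw [hσ univ (W n) fun T => by simp, ← Finset.sum_div, ← hZe,
      div_self hZ0.ne', ENNReal.ofReal_one]
  · rw [ae_iff, hσ _ ∅ fun T => ⟨by simp, fun h => (h.2 ⟨T, h.1, rfl⟩).elim⟩]
    simp
  · rintro _ ⟨T, hT, rfl⟩ t ht
    exact horb T hT t (by omega)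
  intro i hi ε ω hε hω0 hω x hx
  obtain ⟨I, hI⟩ : ∃ I, I = (W n).filter fun T => χ.start T 0 ∈
      {y | y ∈ {x | ∃ T ∈ W n, χ.start T 0 = x} ∧ ∀ j < n + 1, ‖f^[j] x - f^[j] y‖ < ε} :=
    ⟨_, rfl⟩
  have hIm : ∀ T ∈ I, T ∈ W n ∧ ∀ j < n + 1, ‖f^[j] x - f^[j] (χ.start T 0)‖ < ε := fun T hT => by
    rw [hI, Finset.mem_filter] at hT
    exact ⟨hT.1, hT.2.2⟩
  have hcard := hC i n x I
    (by
      obtain ⟨T, hT, rfl⟩ := hx
      exact horb T hT)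
    (fun T hT => hs.good n T (hIm T hT).1)
    (fun T hT T' hT' => hs.disj n T (hIm T hT).1 T' (hIm T' hT').1)
    (fun T hT t ht => by
      rw [norm_sub_rev]
      exact ((hIm T hT).2 t (by omega)).le.trans hε)
  have hCi : C i ≤ Real.exp (∑ i ∈ Finset.range (k + 1), |C i|) := by
    have h1 : |C i| ≤ ∑ i ∈ Finset.range (k + 1), |C i| :=
      Finset.single_le_sum (f := fun i => |C i|) (fun _ _ => abs_nonneg _)
        (Finset.mem_range.2 (by omega))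
    linarith [Real.add_one_le_exp (∑ i ∈ Finset.range (k + 1), |C i|), le_abs_self (C i)]
  generalize ∑ i ∈ Finset.range (k + 1), |C i| = M at hM hCi
  have hsum : ∑ T ∈ I, Real.exp (birkhoffSum f φ n (χ.start T 0)) / Z ≤
      I.card * (Real.exp (birkhoffSum f φ n x + n * ω) / Z) := by
    rw [← nsmul_eq_mul]
    refine Finset.sum_le_card_nsmul _ _ _ fun T hT => div_le_div_of_nonneg_right ?_ hZ0.le
    exact Real.exp_le_exp.2 (exist_birkhoff hω fun t ht => (hIm T hT).2 t (by omega))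
  rw [measureReal_def, hσ _ I fun T => by rw [hI, Finset.mem_filter],
    ENNReal.toReal_ofReal (Finset.sum_nonneg fun T _ => hc0 T)]
  refine hsum.trans ?_
  calc (I.card : ℝ) * (Real.exp (birkhoffSum f φ n x + n * ω) / Z)
      ≤ (Real.exp M * Real.exp (η i * n)) * (Real.exp (birkhoffSum f φ n x + n * ω) /
          Real.exp (n * P - j * δ - 1 * Real.log j - C')) :=
        mul_le_mul (hcard.trans (mul_le_mul_of_nonneg_right hCi (Real.exp_pos _).le))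
          (div_le_div_of_nonneg_left (Real.exp_pos _).le (Real.exp_pos _) hZ)
          (div_nonneg (Real.exp_pos _).le hZ0.le) (by positivity)
    _ ≤ _ := by
        rw [← Real.exp_sub, ← Real.exp_add, ← Real.exp_add, Real.exp_le_exp, birkhoffSum_succ]
        have h1 : (j : ℝ) ≤ 2 * n := by exact_mod_cast hj2
        have h2 := mul_le_mul_of_nonneg_right h1 hδ
        have h3 := (abs_le.1 (hB (f^[n] x))).1
        have h4 := le_abs_self P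
        have h5 := hη i
        push_cast
        linarith

theorem exists_max {f g : E → E} {d : ℕ} {R₀ : ℝ} (h : IsHL f g d R₀) {φ : E → ℝ}
    (hφ : Continuous φ) {B : ℝ} (hB : ∀ x, |φ x| ≤ B) {H α : ℝ} (hα : 0 < α)
    (hH : ∀ z w : E, |φ z - φ w| ≤ H * ‖z - w‖ ^ α) {P h₀ : ℝ} (h0 : 0 < h₀)
    (hP : ∀ ν, IsInvariantProb f ν → fe f φ ν ≤ P) (hgap : ∀ x, φ x + 2 * h₀ ≤ P)
    (hsup : ∀ δ : ℝ, 0 < δ → ∃ ν, IsInvariantProb f ν ∧ ((P - δ : ℝ) : EReal) ≤ fe f φ ν) :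
    ∃ μ, IsInvariantProb f μ ∧ (P : EReal) ≤ fe f φ μ := by
  obtain ⟨C₀, δ₀, hC₀, hδ₀, hsys⟩ := exists_sys h hφ hB hα hH h0 hP hgap
  have hpos : ∀ i : ℕ, (0 : ℝ) < 1 / (i + 1) := fun i => by positivity
  choose e he hcount using fun i : ℕ => count_bound h.cf (R₀ + 1 + 1) (hpos i)
  have key : ∀ k : ℕ, ∃ (σ : Measure E) (N : ℕ) (Γ : Set E), IsProbabilityMeasure σ ∧ k ≤ N ∧
      (∀ᵐ x ∂σ, x ∈ Γ) ∧ (∀ x ∈ Γ, ∀ j < N, ‖f^[j] x‖ ≤ R₀ + 1 + 1) ∧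
      ∀ i ≤ k, ∀ ε ω : ℝ, ε ≤ e i → 0 ≤ ω → (∀ z w : E, ‖z - w‖ < ε → |φ z - φ w| ≤ ω) →
        ∀ x ∈ Γ, σ.real {y | y ∈ Γ ∧ ∀ j < N, ‖f^[j] x - f^[j] y‖ < ε} ≤
          Real.exp (birkhoffSum f φ N x - N * (P - (1 / (i + 1) + ω +
            (2 * (C₀ * (δ₀ * (1 / (k + 1)))) + 1 / (k + 1))))) := by
    intro k
    have hδ : 0 < δ₀ * (1 / (k + 1)) := mul_pos hδ₀ (hpos k)
    obtain ⟨ν, hν, hν'⟩ := hsup _ hδ
    obtain ⟨κ, ε₀, D, χ, W, l, hD, hs, hb, hl⟩ := hsys ν _ hν hδ.le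
      (mul_le_of_le_one_right hδ₀.le (by
        rw [div_le_one (by positivity)]
        linarith [Nat.cast_nonneg (α := ℝ) k])) hν' (fun _ => univ) (fun _ => MeasurableSet.univ)
      monotone_const (Eventually.of_forall fun _ => ⟨0, mem_univ _⟩) 1 one_pos
    choose C hC using fun i => hcount i D χ hs.d0
    exact exist_step hB hD hs
      (fun n T hT => by
        obtain ⟨b, hb1, -, -, hb2⟩ := hb n T hT
        exact ⟨b, hb1, hb2⟩) hl (mul_pos hC₀ hδ).le (hpos k) k e (fun i => 1 / (i + 1)) C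
      (fun i => (hpos i).le) fun i n x I => hC i κ ε₀ n x I hs.e0.le
  choose σ N Γ hσ hN hΓ hV hm using key
  refine misiurewicz h.cf.continuous hφ hB (R₀ + 1 + 1) σ hσ N
    (tendsto_atTop_mono hN tendsto_id) Γ hΓ hV P fun η hη => ?_
  obtain ⟨i, hi⟩ := exists_nat_one_div_lt (K := ℝ) (ε := η / 3) (by positivity)
  obtain ⟨ε, hε, hω⟩ := exist_modulus hα hH (ω := η / 3) (by positivity)
  refine ⟨min ε (e i), lt_min hε (he i), ?_⟩
  have ht : Tendsto (fun k : ℕ => 2 * (C₀ * (δ₀ * (1 / ((k : ℝ) + 1)))) + 1 / ((k : ℝ) + 1))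
      atTop (𝓝 0) := by
    have h1 := tendsto_one_div_add_atTop_nhds_zero_nat (𝕜 := ℝ)
    simpa using (((h1.const_mul δ₀).const_mul C₀).const_mul 2).add h1
  filter_upwards [eventually_ge_atTop i, ht.eventually (gt_mem_nhds (by positivity : 0 < η / 3))]
    with k hk hk' x hx
  refine (hm k i hk _ (η / 3) (min_le_right _ _) (by positivity)
    (fun z w hzw => hω z w (hzw.trans_le (min_le_left _ _))) x hx).trans ?_
  rw [Real.exp_le_exp]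
  refine sub_le_sub_left (mul_le_mul_of_nonneg_left ?_ (Nat.cast_nonneg _)) _
  linarith

end Pool.Agent.P.MP_eeb913_an.U
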