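import Mathlib
import Pool.Agent.P.MP_eeb913_an.U.Basic

/-!
Henon maps are Henon-like.

Sketch. For one factor q = (p, a) with degree d ≥ 2, a ≠ 0 there is R₁ with Filt (henonFactor q) d R
for every R ≥ R₁ (leading coefficient dominates: |p x| ≥ c |x|^d for |x| ≥ R₁; box holds since the
second coordinate of the image is x). Filt f d R and Filt g e R give Filt (f ∘ g) (d * e) R
(a point z with R ≤ |z.1|, |z.2| ≤ |z.1| has an image of the same kind; a point of the box has an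
image w with |w.2| ≤ max R (|w.1| / 2), so w is in the box or of the first kind).
The inverse of the factor is (x, y) ↦ (y, (p y - x) / a), and sw of it is the factor
(C a⁻¹ * p, a⁻¹) of the same degree. Induct on the list, carrying: an inverse g, smoothness of both,
and R₀ such that Filt holds for f and sw g for R ≥ R₀ (sw (g₁ ∘ g₂) = sw g₁ ∘ sw g₂).
For the induction start from a singleton list, (henonMap [q] = henonFactor q).
-/

namespace Pool.Agent.P.MP_eeb913_an.U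

open MeasureTheory Filter Metric Set
open scoped ENNReal NNReal Topology

theorem hl_sum_le (c : ℕ → ℂ) (n : ℕ) (x : ℂ) {r : ℝ} (h1 : 1 ≤ r) (hx : ‖x‖ ≤ r) :
    ‖∑ i ∈ Finset.range (n + 1), c i * x ^ i‖ ≤ (∑ i ∈ Finset.range (n + 1), ‖c i‖) * r ^ n := by
  rw [Finset.sum_mul]
  refine (norm_sum_le _ _).trans (Finset.sum_le_sum fun i hi => ?_)
  rw [norm_mul, norm_pow]
  refine mul_le_mul_of_nonneg_left ?_ (norm_nonneg _)
  exact (pow_le_pow_left₀ (norm_nonneg _) hx i).trans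
    (pow_le_pow_right₀ h1 (Nat.lt_succ_iff.1 (Finset.mem_range.1 hi)))

theorem hl_filt_factor (p : Polynomial ℂ) (a : ℂ) (hp : 2 ≤ p.natDegree) :
    ∃ R₁ : ℝ, ∀ R, R₁ ≤ R → Filt (henonFactor (p, a)) p.natDegree R := by
  obtain ⟨e, he⟩ : ∃ e, p.natDegree = e + 1 := ⟨p.natDegree - 1, by omega⟩
  have he1 : e ≠ 0 := by omega
  have hp0 : p ≠ 0 := by
    rintro rfl
    simp at hp
  have hc : 0 < ‖p.coeff (e + 1)‖ := by
    rw [← he]; exact norm_pos_iff.2 (Polynomial.leadingCoeff_ne_zero.2 hp0)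
  obtain ⟨c, hcd⟩ : ∃ c, c = ‖p.coeff (e + 1)‖ := ⟨_, rfl⟩
  obtain ⟨M, hM⟩ : ∃ M, M = ∑ i ∈ Finset.range (e + 1), ‖p.coeff i‖ := ⟨_, rfl⟩
  have hM0 : 0 ≤ M := by rw [hM]; positivity
  rw [← hcd] at hc
  have ha := norm_nonneg a
  refine ⟨1 + (2 * (M + ‖a‖) + 4) / c, fun R hR => ?_⟩
  have hq : 0 ≤ (2 * (M + ‖a‖) + 4) / c := by positivity
  have hR1 : 1 ≤ R := by linarith
  have key : ∀ z : E, R ≤ ‖z.1‖ → ‖z.2‖ ≤ ‖z.1‖ →
      c / 2 * ‖z.1‖ ^ (e + 1) + 2 * ‖z.1‖ ≤ ‖p.eval z.1 - a * z.2‖ := by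
    intro z h1 h2
    have hr : 1 ≤ ‖z.1‖ := hR1.trans h1
    have h3 : 2 * (M + ‖a‖) + 4 ≤ ‖z.1‖ * c := (div_le_iff₀ hc).1 (by linarith)
    have h4 := hl_sum_le p.coeff e z.1 hr le_rfl
    rw [← hM] at h4
    have h5 : ‖z.1‖ ≤ ‖z.1‖ ^ e := le_self_pow₀ hr he1
    have h6 : p.coeff (e + 1) * z.1 ^ (e + 1) = (p.eval z.1 - a * z.2) -
        ∑ i ∈ Finset.range (e + 1), p.coeff i * z.1 ^ i + a * z.2 := by
      rw [Polynomial.eval_eq_sum_range, he, Finset.sum_range_succ _ (e + 1)]; ring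
    have h7 : c * ‖z.1‖ ^ (e + 1) ≤ ‖p.eval z.1 - a * z.2‖ + M * ‖z.1‖ ^ e + ‖a‖ * ‖z.1‖ ^ e := by
      rw [hcd, ← norm_pow, ← norm_mul, h6]
      refine (norm_add_le _ _).trans (add_le_add ((norm_sub_le _ _).trans (by linarith)) ?_)
      rw [norm_mul]
      exact mul_le_mul_of_nonneg_left (h2.trans h5) ha
    rw [pow_succ] at h7 ⊢
    have h8 := mul_le_mul_of_nonneg_left h3 (le_trans (by linarith) h5 : 0 ≤ ‖z.1‖ ^ e)
    nlinarith
  refine ⟨hR1, ⟨1 + ∑ i ∈ Finset.range (p.natDegree + 1), ‖p.coeff i‖ + ‖a‖, ?_, fun z => ?_⟩,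
    ⟨c / 2, half_pos hc, fun z h1 h2 => ?_⟩, fun z h1 h2 => ?_, fun z hz => ?_⟩
  · have : 0 ≤ ∑ i ∈ Finset.range (p.natDegree + 1), ‖p.coeff i‖ := by positivity
    linarith
  · have h0 : 0 ≤ ∑ i ∈ Finset.range (p.natDegree + 1), ‖p.coeff i‖ := by positivity
    have h1 : ‖z.1‖ ≤ max 1 ‖z‖ := (norm_fst_le z).trans (le_max_right _ _)
    have h2 : ‖z.2‖ ≤ max 1 ‖z‖ := (norm_snd_le z).trans (le_max_right _ _)
    have h3 := hl_sum_le p.coeff p.natDegree z.1 (le_max_left 1 ‖z‖) h1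
    rw [← Polynomial.eval_eq_sum_range] at h3
    have h4 : max 1 ‖z‖ ≤ max 1 ‖z‖ ^ p.natDegree := le_self_pow₀ (le_max_left _ _) (by omega)
    have h5 : 0 ≤ max 1 ‖z‖ ^ p.natDegree := by positivity
    have h6 : ‖a * z.2‖ ≤ ‖a‖ * max 1 ‖z‖ ^ p.natDegree := by
      rw [norm_mul]; exact mul_le_mul_of_nonneg_left (h2.trans h4) ha
    have h7 := norm_sub_le (p.eval z.1) (a * z.2)
    refine norm_prod_le_iff.2 ⟨?_, ?_⟩
    · change ‖p.eval z.1 - a * z.2‖ ≤ _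
      nlinarith
    · change ‖z.1‖ ≤ _
      nlinarith [mul_nonneg h0 h5, mul_nonneg ha h5]
  · have := key z h1 h2
    change _ ≤ ‖p.eval z.1 - a * z.2‖
    rw [he]
    linarith [norm_nonneg z.1]
  · have h3 := key z h1 h2
    have h4 : 0 ≤ c / 2 * ‖z.1‖ ^ (e + 1) := by positivity
    change _ ≤ ‖p.eval z.1 - a * z.2‖ ∧ ‖z.1‖ ≤ ‖p.eval z.1 - a * z.2‖ / 2
    constructor <;> linarith
  · change ‖z.1‖ ≤ _
    exact ((norm_fst_le z).trans hz).trans (le_max_left _ _)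

theorem hl_filt_comp {f g : E → E} {d e : ℕ} {R : ℝ} (hf : Filt f d R) (hg : Filt g e R) :
    Filt (f ∘ g) (d * e) R := by
  have hR := hf.one_le
  have next : ∀ z : E, R ≤ ‖z.1‖ → ‖z.2‖ ≤ ‖z.1‖ →
      R ≤ ‖(g z).1‖ ∧ ‖(g z).2‖ ≤ ‖(g z).1‖ := fun z h1 h2 => by
    obtain ⟨h3, h4⟩ := hg.esc z h1 h2
    constructor <;> linarith [norm_nonneg (g z).1]
  obtain ⟨M, hM, hfu⟩ := hf.up
  obtain ⟨M', hM', hgu⟩ := hg.up
  obtain ⟨m, hm, hfl⟩ := hf.low
  obtain ⟨m', hm', hgl⟩ := hg.low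
  refine ⟨hR, ⟨M * M' ^ d, one_le_mul_of_one_le_of_one_le hM (one_le_pow₀ hM'), fun z => ?_⟩,
    ⟨m * m' ^ d, by positivity, fun z h1 h2 => ?_⟩, fun z h1 h2 => ?_, fun z hz => ?_⟩
  · have h1 : max 1 ‖g z‖ ≤ M' * max 1 ‖z‖ ^ e :=
      max_le (one_le_mul_of_one_le_of_one_le hM' (one_le_pow₀ (le_max_left _ _))) (hgu z)
    refine (hfu (g z)).trans ?_
    rw [mul_assoc, mul_comm d e, pow_mul, ← mul_pow]
    exact mul_le_mul_of_nonneg_left (pow_le_pow_left₀ (by positivity) h1 d) (by linarith)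
  · obtain ⟨h3, h4⟩ := next z h1 h2
    refine le_trans ?_ (hfl (g z) h3 h4)
    rw [mul_assoc, mul_comm d e, pow_mul, ← mul_pow]
    exact mul_le_mul_of_nonneg_left (pow_le_pow_left₀ (by positivity) (hgl z h1 h2) d) hm.le
  · obtain ⟨h3, h4⟩ := next z h1 h2
    obtain ⟨h5, h6⟩ := hf.esc (g z) h3 h4
    have h7 := (hg.esc z h1 h2).1
    exact ⟨by change _ ≤ ‖(f (g z)).1‖; linarith [norm_nonneg z.1], h6⟩
  · have h1 := hg.box z hz
    rcases le_total ‖(g z).1‖ R with h2 | h2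
    · exact hf.box (g z) (norm_prod_le_iff.2 ⟨h2, h1.trans (max_le le_rfl (by linarith))⟩)
    · exact (hf.esc (g z) h2 (h1.trans (max_le h2 (by linarith)))).2.trans (le_max_right _ _)

theorem hl_contDiff_factor (q : Polynomial ℂ × ℂ) : ContDiff ℂ 2 (henonFactor q) := by
  have h1 : ContDiff ℂ 2 fun x : ℂ => q.1.eval x := by
    simpa using q.1.contDiff_aeval (𝕜 := ℂ) 2
  exact ((h1.comp contDiff_fst).sub (contDiff_const.mul contDiff_snd)).prodMk contDiff_fst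

theorem hl_factor (q : Polynomial ℂ × ℂ) (hd : 2 ≤ q.1.natDegree) (ha : q.2 ≠ 0) :
    ∃ (g : E → E) (R₀ : ℝ), IsHL (henonFactor q) g q.1.natDegree R₀ := by
  obtain ⟨p, a⟩ := q
  have hdeg : (Polynomial.C a⁻¹ * p).natDegree = p.natDegree :=
    Polynomial.natDegree_C_mul (inv_ne_zero ha)
  obtain ⟨R₁, h1⟩ := hl_filt_factor p a hd
  obtain ⟨R₂, h2⟩ := hl_filt_factor (Polynomial.C a⁻¹ * p) a⁻¹ (by rw [hdeg]; exact hd)
  have ha' : a ≠ 0 := ha
  refine ⟨sw (henonFactor (Polynomial.C a⁻¹ * p, a⁻¹)), max R₁ R₂, hd, hl_contDiff_factor _,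
    contDiff_sw (hl_contDiff_factor _), fun z => ?_, fun z => ?_,
    fun R hR => h1 R ((le_max_left _ _).trans hR), fun R hR => ?_⟩
  · refine Prod.ext rfl ?_
    simp only [sw, henonFactor, Prod.swap_prod_mk, Polynomial.eval_mul, Polynomial.eval_C]
    field_simp
    ring
  · refine Prod.ext ?_ rfl
    simp only [sw, henonFactor, Prod.swap_prod_mk, Polynomial.eval_mul, Polynomial.eval_C,
      Prod.fst_swap, Prod.snd_swap]
    field_simp
    ring
  · rw [sw_sw]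
    have := h2 R ((le_max_right _ _).trans hR)
    rwa [hdeg] at this

theorem hl_comp {f g f' g' : E → E} {d d' : ℕ} {R R' : ℝ} (h : IsHL f g d R)
    (h' : IsHL f' g' d' R') : IsHL (f ∘ f') (g' ∘ g) (d * d') (max R R') where
  two_le := h.two_le.trans (Nat.le_mul_of_pos_right d (lt_of_lt_of_le two_pos h'.two_le))
  cf := h.cf.comp h'.cf
  cg := h'.cg.comp h.cg
  gf z := by simp only [Function.comp_apply, h.gf, h'.gf]
  fg z := by simp only [Function.comp_apply, h.fg, h'.fg]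
  ff S hS := hl_filt_comp (h.ff S ((le_max_left _ _).trans hS))
    (h'.ff S ((le_max_right _ _).trans hS))
  fi S hS := by
    have e : sw (g' ∘ g) = sw g' ∘ sw g := rfl
    rw [mul_comm, e]
    exact hl_filt_comp (h'.fi S ((le_max_right _ _).trans hS))
      (h.fi S ((le_max_left _ _).trans hS))

theorem isHL_henonMap (L : List (Polynomial ℂ × ℂ)) (hne : L ≠ [])
    (hL : ∀ q ∈ L, 2 ≤ q.1.natDegree ∧ q.2 ≠ 0) :
    ∃ (g : E → E) (R₀ : ℝ), IsHL (henonMap L) g (L.map fun q => q.1.natDegree).prod R₀ := by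
  induction L with
  | nil => exact absurd rfl hne
  | cons q L ih =>
    obtain ⟨g, R, h⟩ := hl_factor q (hL q List.mem_cons_self).1 (hL q List.mem_cons_self).2
    by_cases hn : L = []
    · subst hn
      refine ⟨g, R, ?_⟩
      simp only [List.map_cons, List.map_nil, List.prod_cons, List.prod_nil, mul_one]
      exact h
    · obtain ⟨g', R', h'⟩ := ih hn fun r hr => hL r (List.mem_cons_of_mem q hr)
      refine ⟨g' ∘ g, max R R', ?_⟩
      have e : henonMap (q :: L) = henonFactor q ∘ henonMap L := rfl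
      rw [List.map_cons, List.prod_cons, e]
      exact hl_comp h h'

end Pool.Agent.P.MP_eeb913_an.U
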