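import Mathlib
import Pool.Agent.P.MP_eeb913_an.U.Basic
import Pool.Agent.P.MP_eeb913_an.U.Area
import Pool.Agent.P.MP_eeb913_an.U.Escape
import Pool.Agent.P.MP_eeb913_an.U.Mis
import Pool.Agent.P.MP_eeb913_an.U.Ruelle

/-!
An invariant measure of entropy at least log d, and finiteness of the entropy.

exists_entropy. γ ζ = (ζ, 0), A n ζ = (f^[n] (γ ζ)).1 is entire and |A n ζ| ≥ |ζ| for |ζ| ≥ R₀ (doubling
at radius R₀), so it has a zero ζ₀ (otherwise 1 / A n is entire and tends to 0 at infinity, Liouville),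
and |ζ₀| < R₀. Apply area_lower with R = 9 R₀, τ = 2 R₀, ζ₁ = R₀, j₀ = 6 (‖f^[n] (γ ζ₀)‖ ≤ R by mem_W).
S n = ball 0 R ∩ {|A n| ≤ R + 2}; a n = area (A n) (S n) is finite (continuous integrand, bounded set)
and ≥ c d^n / n. σ n = (a n)⁻¹ • ((volume.restrict (S n)).withDensity (ofReal ‖A n'‖²)).map γ,
Γ n = γ '' S n, orbits bounded by R + 2 up to time n (bounded_between). misiurewicz with φ = 0, times
n + 1, a = log d: by area_upper (η / 2) a Bowen ball has mass ≤ C exp (η n / 2) n / (c d^n).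
(For the finitely many small n use any Dirac mass, or shift the index.)
ksEntropy_le_const: ruelle with n = 1, b = 0 and ae_bounded.
-/

namespace Pool.Agent.P.MP_eeb913_an.U

open MeasureTheory Filter Metric Set
open scoped ENNReal NNReal Topology

private theorem pos_diff {f : E → E} (hf : ContDiff ℂ 2 f) (n : ℕ) :
    Differentiable ℂ fun ζ : ℂ => f^[n] ((ζ, 0) : E) :=
  ((contDiff_iterate hf n).differentiable (by norm_num)).comp
    (differentiable_id.prodMk (differentiable_const _))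

private theorem pos_zero {f : E → E} {d : ℕ} {R₀ : ℝ} (hf : ContDiff ℂ 2 f) (hF : Filt f d R₀)
    (n : ℕ) : ∃ ζ₀ : ℂ, ‖ζ₀‖ < R₀ ∧ (f^[n] ((ζ₀, 0) : E)).1 = 0 := by
  have hR := hF.one_le
  have hlow : ∀ ζ : ℂ, R₀ ≤ ‖ζ‖ → ‖ζ‖ ≤ ‖(f^[n] ((ζ, 0) : E)).1‖ := fun ζ hζ => by
    have h1 := (hF.doubling (z := ((ζ, 0) : E)) hζ (by simp) n).1
    have h2 : (1 : ℝ) ≤ 2 ^ n := one_le_pow₀ (by norm_num)
    have h3 : ‖ζ‖ ≤ 2 ^ n * ‖ζ‖ := le_mul_of_one_le_left (norm_nonneg _) h2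
    exact h3.trans h1
  by_contra hne
  have hne' : ∀ ζ : ℂ, (f^[n] ((ζ, 0) : E)).1 ≠ 0 := fun ζ h0 => by
    rcases lt_or_ge ‖ζ‖ R₀ with h | h
    · exact hne ⟨ζ, h, h0⟩
    · have := hlow ζ h
      rw [h0, norm_zero] at this
      linarith
  have hd : Differentiable ℂ fun ζ : ℂ => ((f^[n] ((ζ, 0) : E)).1)⁻¹ :=
    (pos_diff hf n).fst.inv hne'
  have ht : Tendsto (fun ζ : ℂ => ((f^[n] ((ζ, 0) : E)).1)⁻¹) (cocompact ℂ) (𝓝 0) := by
    have hn : Tendsto (fun ζ : ℂ => ‖ζ‖) (cocompact ℂ) atTop := tendsto_norm_cocompact_atTop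
    refine squeeze_zero_norm' ?_ (tendsto_inv_atTop_zero.comp hn)
    filter_upwards [hn.eventually_ge_atTop R₀] with ζ hζ
    rw [norm_inv]
    exact inv_anti₀ (by linarith) (hlow ζ hζ)
  exact hne' 0 (inv_eq_zero.1 (hd.apply_eq_of_tendsto_cocompact 0 ht))

/-- The part of the horizontal disc of radius `R` whose `n`-th image stays bounded. -/
private def posS (f : E → E) (R : ℝ) (n : ℕ) : Set ℂ :=
  ball 0 R ∩ {ζ | ‖(f^[n] ((ζ, 0) : E)).1‖ ≤ R + 2}

private theorem posS_meas {f : E → E} (hf : ContDiff ℂ 2 f) (R : ℝ) (n : ℕ) :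
    MeasurableSet (posS f R n) :=
  measurableSet_ball.inter
    (isClosed_le (pos_diff hf n).fst.continuous.norm continuous_const).measurableSet

private theorem pos_area_lower {f g : E → E} {d : ℕ} {R₀ : ℝ} (h : IsHL f g d R₀) :
    ∃ (c : ℝ) (n₀ : ℕ), 0 < c ∧ ∀ n, n₀ ≤ n → ENNReal.ofReal (c * d ^ n / n) ≤
      area (fun ζ : ℂ => (f^[n] ((ζ, 0) : E)).1) (posS f (9 * R₀) n) := by
  have hR := h.one_le
  have hF0 := h.ff R₀ le_rfl
  have hF := h.ff (9 * R₀) (by linarith)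
  obtain ⟨c, n₀, hc, H⟩ := area_lower h.cf hF h.two_le (τ := 2 * R₀) (by linarith) 6
  refine ⟨c, n₀, hc, fun n hn => ?_⟩
  obtain ⟨ζ₀, h0, hz⟩ := pos_zero h.cf hF0 n
  have hnorm : ∀ ζ : ℂ, ‖((ζ, 0) : E)‖ = ‖ζ‖ := fun ζ => by simp [Prod.norm_def]
  have hRn : ‖((R₀ : ℝ) : ℂ)‖ = R₀ := by
    rw [Complex.norm_real, Real.norm_eq_abs, abs_of_pos (by linarith)]
  have hball : ∀ (ζ : ℂ) (r : ℝ), ζ ∈ ball ζ₀ r → ‖ζ‖ < r + R₀ := fun ζ r hζ => by
    rw [mem_ball, dist_eq_norm] at hζ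
    have := norm_add_le (ζ - ζ₀) ζ₀
    rw [sub_add_cancel] at this
    linarith
  refine (H (fun ζ => ((ζ, 0) : E)) ζ₀ (R₀ : ℂ) n hn
    (differentiable_id.prodMk (differentiable_const _)).differentiableOn (fun ζ hζ => ?_) ?_ ?_
    ?_).trans (lintegral_mono_set (inter_subset_inter_left _ fun ζ hζ => ?_))
  · rw [hnorm]; have := hball ζ _ hζ; linarith
  · have h2 := hF.mem_W (z := ((ζ₀, 0) : E)) (by simp; left; linarith) n
    rw [hz, norm_zero, zero_div, max_eq_left (by linarith)] at h2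
    rw [Prod.norm_def, hz, norm_zero]
    exact max_le (by linarith) h2
  · have := norm_sub_le ((R₀ : ℝ) : ℂ) ζ₀
    linarith
  · have h1 := (hF0.doubling (z := (((R₀ : ℝ) : ℂ), 0)) (by simp only [hRn]; exact le_rfl)
      (by simp) 6).1
    have h2 := norm_fst_le (f^[6] ((((R₀ : ℝ) : ℂ), 0) : E))
    simp only [hRn] at h1
    have h3 : (2 : ℝ) ^ 6 = 64 := by norm_num
    rw [h3] at h1
    linarith
  · rw [mem_ball_zero_iff]; have := hball ζ _ hζ; linarith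

private theorem pos_area_fin {f : E → E} (hf : ContDiff ℂ 2 f) (R : ℝ) (n : ℕ) :
    area (fun ζ : ℂ => (f^[n] ((ζ, 0) : E)).1) (posS f R n) ≠ ⊤ := by
  have hc : Continuous fun ζ : ℂ => ‖deriv (fun ζ : ℂ => (f^[n] ((ζ, 0) : E)).1) ζ‖ ^ 2 :=
    ((pos_diff hf n).fst.deriv.continuous.norm).pow 2
  have hi := hc.continuousOn.integrableOn_compact (μ := volume) (isCompact_closedBall (0 : ℂ) R)
  refine ne_top_of_le_ne_top hi.lintegral_lt_top.ne ?_
  exact lintegral_mono_set (inter_subset_left.trans ball_subset_closedBall)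

/-- The area measure on the bounded part of the horizontal disc, seen in the plane. -/
private noncomputable def posM (f : E → E) (R : ℝ) (n : ℕ) : Measure E :=
  ((volume.restrict (posS f R n)).withDensity fun ζ =>
    ENNReal.ofReal (‖deriv (fun ζ : ℂ => (f^[n] ((ζ, 0) : E)).1) ζ‖ ^ 2)).map
      fun ζ : ℂ => ((ζ, 0) : E)

private theorem pos_meas : Measurable fun ζ : ℂ => ((ζ, 0) : E) :=
  measurable_id.prodMk measurable_const

private theorem posM_univ (f : E → E) (R : ℝ) (n : ℕ) :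
    posM f R n univ = area (fun ζ : ℂ => (f^[n] ((ζ, 0) : E)).1) (posS f R n) := by
  rw [posM, Measure.map_apply pos_meas MeasurableSet.univ, preimage_univ,
    withDensity_apply _ MeasurableSet.univ, Measure.restrict_univ, area]

private theorem posM_ae {f : E → E} (hf : ContDiff ℂ 2 f) (R : ℝ) (n : ℕ) :
    ∀ᵐ x ∂posM f R n, x ∈ posS f R n ×ˢ ({0} : Set ℂ) := by
  refine (ae_map_iff pos_meas.aemeasurable (p := fun x => x ∈ posS f R n ×ˢ ({0} : Set ℂ))
    ((posS_meas hf R n).prod (measurableSet_singleton 0))).2 ?_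
  refine (withDensity_absolutelyContinuous _ _).ae_le ?_
  filter_upwards [ae_restrict_mem (posS_meas hf R n)] with ζ hζ
  exact ⟨hζ, rfl⟩

private theorem posM_ball {f : E → E} (hf : ContDiff ℂ 2 f) (R ρ : ℝ) {η : ℝ} (hη : 0 < η) :
    ∃ ε C : ℝ, 0 < ε ∧ 0 ≤ C ∧ ∀ (n : ℕ) (x : E), (∀ j ≤ n, ‖f^[j] x‖ ≤ ρ) →
      posM f R n {y | ∀ j ≤ n, ‖f^[j] y - f^[j] x‖ ≤ ε} ≤
        ENNReal.ofReal (C * Real.exp (η * n)) := by
  obtain ⟨ε, C, hε, H⟩ := area_upper hf ρ hη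
  refine ⟨ε, |C|, hε, abs_nonneg C, fun n x hx => ?_⟩
  have hw : ((1, 0) : E) ≠ 0 := by simp
  have h1 := H 0 (1, 0) n x hw hx
  have e : ∀ ζ : ℂ, (0 : E) + ζ • ((1, 0) : E) = (ζ, 0) := fun ζ => by simp
  simp only [e] at h1
  have hcl : IsClosed {y : E | ∀ j ≤ n, ‖f^[j] y - f^[j] x‖ ≤ ε} := by
    simp only [ofPred_forall]
    exact isClosed_iInter fun j => isClosed_iInter fun _ =>
      isClosed_le (((contDiff_iterate hf j).continuous.sub continuous_const).norm) continuous_const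
  rw [posM, Measure.map_apply pos_meas hcl.measurableSet,
    withDensity_apply _ (pos_meas hcl.measurableSet)]
  refine le_trans (lintegral_mono' (Measure.restrict_mono le_rfl Measure.restrict_le_self)
    fun ζ => ?_) (h1.trans (ENNReal.ofReal_le_ofReal
      (mul_le_mul_of_nonneg_right (le_abs_self C) (Real.exp_pos _).le)))
  refine ENNReal.ofReal_le_ofReal (pow_le_pow_left₀ (norm_nonneg _) ?_ 2)
  have h2 : HasDerivAt (fun ζ : ℂ => (f^[n] ((ζ, 0) : E)).1)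
      (deriv (fun ζ : ℂ => f^[n] ((ζ, 0) : E)) ζ).1 ζ :=
    (ContinuousLinearMap.fst ℂ ℂ ℂ).hasFDerivAt.comp_hasDerivAt ζ (pos_diff hf n ζ).hasDerivAt
  rw [h2.deriv]
  exact norm_fst_le _

private theorem pos_numeric {c C η : ℝ} {d N : ℕ} (hc : 0 < c) (hη : 0 < η)
    (hd : 2 ≤ d) (hN : 0 < N) (hbig : 8 * (C * d / c) / η ^ 2 ≤ N) :
    (c * d ^ N / N)⁻¹ * (C * Real.exp (η / 2 * N)) ≤
      Real.exp (0 - ((N + 1 : ℕ) : ℝ) * (Real.log d - η)) := by
  have hd0 : (0 : ℝ) < d := by exact_mod_cast (by omega : 0 < d)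
  have hN0 : (0 : ℝ) < N := by exact_mod_cast hN
  have e : Real.exp (0 - ((N + 1 : ℕ) : ℝ) * (Real.log d - η)) =
      Real.exp (η / 2 * N) * (Real.exp (η / 2 * N) * Real.exp η) / (d ^ N * d) := by
    rw [← pow_succ, ← Real.exp_log (pow_pos hd0 (N + 1)), Real.log_pow, ← Real.exp_add,
      ← Real.exp_add, ← Real.exp_sub]
    apply congrArg
    push_cast
    ring
  have h1 : C * d / c * N ≤ Real.exp (η / 2 * N) := by
    have h2 := Real.quadratic_le_exp_of_nonneg (x := η / 2 * N) (by positivity)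
    have h3 : 8 * (C * d / c) ≤ N * η ^ 2 := (div_le_iff₀ (by positivity)).1 hbig
    have h4 : 8 * (C * d / c) * N ≤ N * η ^ 2 * N := mul_le_mul_of_nonneg_right h3 hN0.le
    have h5 : 0 ≤ η / 2 * N := by positivity
    nlinarith
  have h6 : Real.exp (η / 2 * N) ≤ Real.exp (η / 2 * N) * Real.exp η :=
    le_mul_of_one_le_right (Real.exp_pos _).le (Real.one_le_exp hη.le)
  have e2 : (c * d ^ N / N)⁻¹ * (C * Real.exp (η / 2 * N)) =
      Real.exp (η / 2 * N) * (C * d / c * N) / (d ^ N * d) := by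
    field_simp
  rw [e, e2]
  exact div_le_div_of_nonneg_right
    (mul_le_mul_of_nonneg_left (h1.trans h6) (Real.exp_pos _).le) (by positivity)

theorem exists_entropy {f g : E → E} {d : ℕ} {R₀ : ℝ} (h : IsHL f g d R₀) :
    ∃ μ : Measure E, IsInvariantProb f μ ∧ ((Real.log d : ℝ) : EReal) ≤ ksEntropy f μ := by
  have hR := h.one_le
  have hF := h.ff (9 * R₀) (by linarith)
  have hd0 : (0 : ℝ) < d := by exact_mod_cast (by have := h.two_le; omega : 0 < d)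
  obtain ⟨c, n₀, hc, H⟩ := pos_area_lower h
  have hlow : ∀ k : ℕ, ENNReal.ofReal (c * d ^ (k + n₀ + 1) / (k + n₀ + 1 : ℕ)) ≤
      posM f (9 * R₀) (k + n₀ + 1) univ := fun k => by
    rw [posM_univ]; exact H _ (by omega)
  have hpos : ∀ k : ℕ, 0 < c * d ^ (k + n₀ + 1) / (k + n₀ + 1 : ℕ) := fun k => by positivity
  have hne : ∀ k : ℕ, posM f (9 * R₀) (k + n₀ + 1) univ ≠ 0 := fun k =>
    ((ENNReal.ofReal_pos.2 (hpos k)).trans_le (hlow k)).ne'
  have hfin : ∀ k : ℕ, posM f (9 * R₀) (k + n₀ + 1) univ ≠ ⊤ := fun k => by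
    rw [posM_univ]; exact pos_area_fin h.cf _ _
  have hV : ∀ (n : ℕ), ∀ x ∈ posS f (9 * R₀) n ×ˢ ({0} : Set ℂ), ∀ j ≤ n,
      ‖f^[j] x‖ ≤ 9 * R₀ + 2 := by
    rintro n ⟨ζ, z⟩ ⟨hx, hz⟩
    have hz' : z = 0 := hz
    subst hz'
    exact hF.bounded_between (by linarith) (by simp; left; linarith) hx.2
  obtain ⟨μ, hμ, hle⟩ := misiurewicz h.cf.continuous (φ := fun _ => 0) continuous_const (B := 0)
    (fun _ => by simp) (9 * R₀ + 2)
    (fun k => (posM f (9 * R₀) (k + n₀ + 1) univ)⁻¹ • posM f (9 * R₀) (k + n₀ + 1))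
    (fun k => ⟨by rw [Measure.smul_apply, smul_eq_mul, ENNReal.inv_mul_cancel (hne k) (hfin k)]⟩)
    (fun k => k + n₀ + 1 + 1) (tendsto_atTop_mono (fun k => by simp only [id]; omega) tendsto_id)
    (fun k => posS f (9 * R₀) (k + n₀ + 1) ×ˢ ({0} : Set ℂ))
    (fun k => Measure.ae_smul_measure (posM_ae h.cf _ _) _)
    (fun k x hx j hj => hV _ x hx j (by omega)) (Real.log d) (fun η hη => by
      obtain ⟨ε, C, hε, hC, HB⟩ := posM_ball h.cf (9 * R₀) (9 * R₀ + 2) (half_pos hη)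
      refine ⟨ε, hε, ?_⟩
      filter_upwards [eventually_ge_atTop ⌈8 * (C * d / c) / η ^ 2⌉₊] with k hk x hx
      have hbig : 8 * (C * d / c) / η ^ 2 ≤ ((k + n₀ + 1 : ℕ) : ℝ) :=
        (Nat.le_ceil _).trans (by exact_mod_cast (by omega))
      have hb : birkhoffSum f (fun _ => (0 : ℝ)) (k + n₀ + 1 + 1) x = 0 := by simp [birkhoffSum]
      rw [hb]
      refine le_trans ?_ (pos_numeric hc hη h.two_le (by omega) hbig)
      have h1 : posM f (9 * R₀) (k + n₀ + 1)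
          {y | y ∈ posS f (9 * R₀) (k + n₀ + 1) ×ˢ ({0} : Set ℂ) ∧
            ∀ j < k + n₀ + 1 + 1, ‖f^[j] x - f^[j] y‖ < ε} ≤
          ENNReal.ofReal (C * Real.exp (η / 2 * (k + n₀ + 1 : ℕ))) := by
        refine (measure_mono fun y hy j hj => ?_).trans (HB _ x (hV _ x hx))
        rw [norm_sub_rev]
        exact (hy.2 j (by omega)).le
      have h2 : (posM f (9 * R₀) (k + n₀ + 1) univ)⁻¹ ≤
          ENNReal.ofReal (c * d ^ (k + n₀ + 1) / (k + n₀ + 1 : ℕ))⁻¹ := by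
        rw [ENNReal.ofReal_inv_of_pos (hpos k)]
        exact ENNReal.inv_le_inv.2 (hlow k)
      refine ENNReal.toReal_le_of_le_ofReal (by have := hpos k; positivity) ?_
      rw [Measure.smul_apply, smul_eq_mul, ENNReal.ofReal_mul (inv_pos.2 (hpos k)).le]
      exact mul_le_mul' h2 h1)
  refine ⟨μ, hμ, ?_⟩
  simpa [fe] using hle

theorem ksEntropy_le_const {f g : E → E} {d : ℕ} {R₀ : ℝ} (h : IsHL f g d R₀) :
    ∃ C : ℝ, ∀ ν : Measure E, IsInvariantProb f ν → ksEntropy f ν ≤ (C : EReal) := by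
  obtain ⟨C₀, -, H⟩ := ruelle
  obtain ⟨L, hL, hL1, -, -⟩ := exists_lip h.cf R₀
  refine ⟨4 * Real.log L + C₀, fun ν hν => ?_⟩
  have := hν.1
  have hb : ∀ᵐ x ∂ν, ‖x‖ ≤ R₀ := (h.ae_bounded hν.2).mono fun x hx => (hx 0).1
  refine (H f h.cf ν hν.2 R₀ L (by linarith) hb hL1 1 one_pos 0 le_rfl).trans ?_
  rw [EReal.coe_le_coe_iff]
  have h1 : 0 ≤ 4 * Real.log L := mul_nonneg (by norm_num) (Real.log_nonneg (by linarith))
  have h2 := mul_le_mul_of_nonneg_left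
    (measureReal_le_one (μ := ν)
      (s := {x | Real.exp (((1 : ℕ) : ℝ) * 0) < ‖fderiv ℂ f^[1] x‖})) h1
  rw [Nat.cast_one, div_one] at *
  linarith

end Pool.Agent.P.MP_eeb913_an.U
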