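import Mathlib
import Pool.Agent.P.MP_eeb913_an.U.Basic
import Pool.Agent.P.MP_eeb913_an.U.Upper
import Pool.Agent.P.MP_eeb913_an.U.Local

/-!
Two boxes with different Birkhoff averages cannot be connected both ways.

Sketch. Let κ < 1 be the max of all contraction constants (IsCross.mono), Cd a distortion constant
for both boxes, η = 1/4, T₀ and C' common to low₁, low₂ (take the max; windows only grow).
s = 2 T₀ + l₁₂ + k + 1. For p ≥ 1 choose n p, n' p from low₁, low₂ at j = s p; the n p are separated by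
at least l₁₂ + k + 1, the n' p are distinct and positive. For (p, q, T, T') with T ∈ W₁ (n p),
T' ∈ W₂ (n' q), exists_comp (four maps f^[n p], f^[l₁₂], f^[n' q], f^[l₂₁], charts χ₁ χ₁ χ₂ χ₂ χ₁) gives a
crossing Θ of f^[N], N = n p + l₁₂ + n' q + l₂₁; a point x of its core is in χ₁.core T κ and
f^[n p + l₁₂] x is in χ₂.core T' κ. For fixed N two different indices have disjoint cores: if p = p' then
q = q', use disjoint_core for T or T'; if n p < n p', with t = n p' - n p - l₁₂ ≥ k + 1 and t ≤ n' q,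
t ≤ n p', the sum birkhoffSum f ψ t (f^[n p + l₁₂] x) is ≤ c₂ t by h₂ and ≥ c₁ t by h₁.
upper_bound with a = birkhoffSum φ (start T 0) + birkhoffSum φ (start T' 0), C = 2 Cd + (l₁₂ + l₂₁) B.
Summing exp (a - N P) over p, q ∈ [1, M] gives
M² exp (- (l₁₂ + l₂₁) P - 2 C') (s M)^(-1/2) ≤ (2 s M + 2 T₀ + l₁₂ + l₂₁ + 1) exp C, false for large M.
-/

namespace Pool.Agent.P.MP_eeb913_an.U

open MeasureTheory Filter Metric Set
open scoped ENNReal NNReal Topology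

theorem switch_comp4 {f : E → E} {κ : ℝ} (h1 : κ < 1) {χ₁ χ₂ : Chart} {n l n' l' : ℕ}
    {T S T' S' : E → E} (c0 : IsCross κ f^[n] χ₁ χ₁ T) (c1 : IsCross κ f^[l] χ₁ χ₂ S)
    (c2 : IsCross κ f^[n'] χ₂ χ₂ T') (c3 : IsCross κ f^[l'] χ₂ χ₁ S') :
    ∃ Θ : E → E, IsCross κ f^[n + l + n' + l'] χ₁ χ₁ Θ ∧ ∀ x ∈ χ₁.core Θ κ,
      x ∈ χ₁.core T κ ∧ f^[n + l] x ∈ χ₂.core T' κ := by
  let F : ℕ → E → E := fun i => match i with
    | 0 => f^[n]
    | 1 => f^[l]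
    | 2 => f^[n']
    | _ => f^[l']
  let TT : ℕ → E → E := fun i => match i with
    | 0 => T
    | 1 => S
    | 2 => T'
    | _ => S'
  let χ : ℕ → Chart := fun i => match i with
    | 2 => χ₂
    | 3 => χ₂
    | _ => χ₁
  let Φ : ℕ → E → E := fun i => match i with
    | 0 => id
    | 1 => f^[n]
    | 2 => f^[n + l]
    | 3 => f^[n + l + n']
    | _ => f^[n + l + n' + l']
  have hT : ∀ i < 4, IsCross κ (F i) (χ i) (χ (i + 1)) (TT i) := by
    intro i hi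
    interval_cases i
    exacts [c0, c1, c2, c3]
  have hΦ : ∀ i < 4, ∀ x, Φ (i + 1) x = F i (Φ i x) := by
    intro i hi x
    interval_cases i
    · rfl
    · show f^[n + l] x = f^[l] (f^[n] x)
      rw [add_comm, Function.iterate_add_apply]
    · show f^[n + l + n'] x = f^[n'] (f^[n + l] x)
      rw [add_comm, Function.iterate_add_apply]
    · show f^[n + l + n' + l'] x = f^[l'] (f^[n + l + n'] x)
      rw [add_comm, Function.iterate_add_apply]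
  obtain ⟨Θ, z, hΘ, hz⟩ := exists_comp (χ := χ) (Φ := Φ) h1 (by norm_num : 0 < 4) hT
    (fun _ => rfl) hΦ
  refine ⟨Θ, hΘ, ?_⟩
  rintro x ⟨b, hb, rfl⟩
  have hbD : b ∈ D2 := closedBall_subset_closedBall h1.le hb
  obtain ⟨hch, hz0, -, hor⟩ := hz b hbD
  have hcon : ∀ i < 4, IsCon κ (TT i) := fun i hi => (hT i hi).con
  have b1 := hch.bound hcon (i := 1) (by norm_num)
  have b3 := hch.bound hcon (i := 3) (by norm_num)
  have e0 : T ((z b 1).1, (z b 0).2) = ((z b 0).1, (z b 1).2) := hch.2 0 (by norm_num)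
  have e2 : T' ((z b 3).1, (z b 2).2) = ((z b 2).1, (z b 3).2) := hch.2 2 (by norm_num)
  have hb2 : ‖(z b 0).2‖ ≤ κ := by
    rw [hz0]
    exact (norm_snd_le b).trans (mem_closedBall_zero_iff.1 hb)
  constructor
  · refine ⟨((z b 1).1, (z b 0).2), ?_, ?_⟩
    · rw [mem_closedBall_zero_iff, Prod.norm_def]
      exact max_le b1.2.1 hb2
    · have h0 : χ₁.start Θ b = χ₁.pt (z b 0) := hor 0 (by norm_num)
      rw [h0, Chart.start, e0]
  · refine ⟨((z b 3).1, (z b 2).2), ?_, ?_⟩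
    · rw [mem_closedBall_zero_iff, Prod.norm_def]
      exact max_le b3.2.1 b1.2.2
    · have h2 : f^[n + l] (χ₁.start Θ b) = χ₂.pt (z b 2) := hor 2 (by norm_num)
      rw [h2, Chart.start, e2]

theorem switch_birk_le {f : E → E} {φ : E → ℝ} {B : ℝ} (hB : ∀ x, |φ x| ≤ B) (l : ℕ) (x : E) :
    -(l * B) ≤ birkhoffSum f φ l x := by
  have h : ∑ _i ∈ Finset.range l, -B ≤ birkhoffSum f φ l x :=
    Finset.sum_le_sum fun i _ => (abs_le.1 (hB _)).1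
  simpa using h

theorem switch_lower {f : E → E} {φ : E → ℝ} {P : ℝ} {χ : Chart} {W : ℕ → Finset (E → E)}
    (low : LowerSum f φ P 0 χ W) (g : ℕ) :
    ∃ (s : ℕ) (c : ℝ), 0 < c ∧ ∀ r : ℕ, 1 ≤ r → ∃ A : Finset ℕ,
      (∀ n ∈ A, ∀ m ∈ A, n < m → n + g + 1 ≤ m) ∧ (∀ n ∈ A, 0 < n ∧ n ≤ s * r ^ 4) ∧
      c * (r : ℝ) ^ 3 ≤
        ∑ n ∈ A, ∑ T ∈ W n, Real.exp (birkhoffSum f φ n (χ.start T 0) - n * P) := by
  obtain ⟨T₀, C, h⟩ := low (1 / 4) (by norm_num)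
  obtain ⟨s, hs⟩ : ∃ s, s = 2 * T₀ + g + 1 := ⟨_, rfl⟩
  have hj : ∀ p : ℕ, T₀ < s * (p + 1) := fun p => by
    have : s ≤ s * (p + 1) := Nat.le_mul_of_pos_right _ (Nat.succ_pos _)
    omega
  choose n hn1 hn2 hn3 using fun p : ℕ => h (s * (p + 1)) (hj p)
  have hsep : ∀ p q, p < q → n p + g + 1 ≤ n q := fun p q hpq => by
    have h1 := hn2 p
    have h2 := hn1 q
    have h3 : s * (p + 1) + s ≤ s * (q + 1) := by
      rw [← Nat.mul_succ]
      exact Nat.mul_le_mul_left _ (by omega)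
    omega
  have hmono : StrictMono n := fun p q hpq => by have := hsep p q hpq; omega
  refine ⟨2 * s, Real.exp (-(1 / 4 * Real.log s) - C), Real.exp_pos _, fun r hr => ?_⟩
  have hr4 : 1 ≤ r ^ 4 := Nat.one_le_pow _ _ hr
  refine ⟨(Finset.range (r ^ 4)).image n, ?_, ?_, ?_⟩
  · intro a ha b hb hab
    obtain ⟨p, -, rfl⟩ := Finset.mem_image.1 ha
    obtain ⟨q, -, rfl⟩ := Finset.mem_image.1 hb
    exact hsep p q (hmono.lt_iff_lt.1 hab)
  · intro a ha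
    obtain ⟨p, hp, rfl⟩ := Finset.mem_image.1 ha
    have h1 := hn1 p
    have h2 := hn2 p
    have h3 := hj p
    have h4 : s * (p + 1) ≤ s * r ^ 4 := Nat.mul_le_mul_left _ (Finset.mem_range.1 hp)
    have h5 : 2 * s * r ^ 4 = s * r ^ 4 + s * r ^ 4 := by ring
    constructor <;> omega
  · rw [Finset.sum_image fun p _ q _ hpq => hmono.injective hpq]
    have hrR : (0 : ℝ) < r := by exact_mod_cast hr
    have hs0 : (0 : ℝ) < s := by
      have : 0 < s := by omega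
      exact_mod_cast this
    have key : ∀ p ∈ Finset.range (r ^ 4), Real.exp (-(1 / 4 * Real.log s) - C) / r ≤
        ∑ T ∈ W (n p), Real.exp (birkhoffSum f φ (n p) (χ.start T 0) - n p * P) := by
      intro p hp
      have h1 := hn3 p
      have h4 : s * (p + 1) ≤ s * r ^ 4 := Nat.mul_le_mul_left _ (Finset.mem_range.1 hp)
      have h5 : Real.log ((s * (p + 1) : ℕ) : ℝ) ≤ Real.log s + 4 * Real.log r := by
        have h0 : (0 : ℝ) < ((s * (p + 1) : ℕ) : ℝ) := by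
          have : 0 < s * (p + 1) := by have := hj p; omega
          exact_mod_cast this
        have h6 : ((s * (p + 1) : ℕ) : ℝ) ≤ s * (r : ℝ) ^ 4 := by exact_mod_cast h4
        refine (Real.log_le_log h0 h6).trans (le_of_eq ?_)
        rw [Real.log_mul hs0.ne' (by positivity), Real.log_pow]
        norm_num
      simp only [Real.exp_sub (birkhoffSum _ _ _ _)]
      rw [← Finset.sum_div, le_div_iff₀ (Real.exp_pos _)]
      refine le_trans ?_ h1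
      rw [← Real.exp_log hrR, ← Real.exp_sub, ← Real.exp_add]
      refine Real.exp_le_exp.2 ?_
      linarith
    have h2 := Finset.card_nsmul_le_sum _ _ _ key
    rw [Finset.card_range, nsmul_eq_mul] at h2
    refine le_trans (le_of_eq ?_) h2
    push_cast
    field_simp

theorem switch_false {f : E → E} (hf : ContDiff ℂ 1 f) {φ : E → ℝ} (hφ : Continuous φ) {B : ℝ}
    (hB : ∀ x, |φ x| ≤ B) {H α : ℝ} (hα : 0 < α)
    (hH : ∀ z w : E, |φ z - φ w| ≤ H * ‖z - w‖ ^ α) {P : ℝ}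
    (hP : ∀ ν, IsInvariantProb f ν → fe f φ ν ≤ P) {R κ₁ ε₁ D₁ κ₂ ε₂ D₂ : ℝ} {χ₁ χ₂ : Chart}
    {W₁ W₂ : ℕ → Finset (E → E)} (s₁ : IsSys f R κ₁ ε₁ D₁ χ₁ W₁) (s₂ : IsSys f R κ₂ ε₂ D₂ χ₂ W₂)
    (low₁ : LowerSum f φ P 0 χ₁ W₁) (low₂ : LowerSum f φ P 0 χ₂ W₂)
    {ψ : E → ℝ} {c₁ c₂ : ℝ} (hc : c₂ < c₁) (k : ℕ)
    (h₁ : ∀ n, ∀ T ∈ W₁ n, ∀ b ∈ D2, ∀ t : ℕ, k ≤ t → t ≤ n →
      c₁ * t ≤ birkhoffSum f ψ t (f^[n - t] (χ₁.start T b)))
    (h₂ : ∀ n, ∀ T ∈ W₂ n, ∀ b ∈ D2, ∀ t : ℕ, k ≤ t → t ≤ n →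
      birkhoffSum f ψ t (χ₂.start T b) ≤ c₂ * t)
    {κ₃ κ₄ : ℝ} (h3 : κ₃ < 1) (h4 : κ₄ < 1) {l₁₂ l₂₁ : ℕ} {T₁₂ T₂₁ : E → E}
    (c₁₂ : IsCross κ₃ f^[l₁₂] χ₁ χ₂ T₁₂) (c₂₁ : IsCross κ₄ f^[l₂₁] χ₂ χ₁ T₂₁) : False := by
  classical
  obtain ⟨κ, hκ1, k1, k2, k3, k4⟩ : ∃ κ : ℝ, κ < 1 ∧ κ₁ ≤ κ ∧ κ₂ ≤ κ ∧ κ₃ ≤ κ ∧ κ₄ ≤ κ :=
    ⟨max (max κ₁ κ₂) (max κ₃ κ₄), max_lt (max_lt s₁.k1 s₂.k1) (max_lt h3 h4),
      le_max_of_le_left (le_max_left _ _), le_max_of_le_left (le_max_right _ _),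
      le_max_of_le_right (le_max_left _ _), le_max_of_le_right (le_max_right _ _)⟩
  obtain ⟨C₁, -, hC₁⟩ := distortion hα hH s₁.e0 s₁.d0.le
  obtain ⟨C₂, -, hC₂⟩ := distortion hα hH s₂.e0 s₂.d0.le
  have hsub : closedBall (0 : E) κ ⊆ D2 := closedBall_subset_closedBall hκ1.le
  have h0D : (0 : E) ∈ D2 := mem_closedBall_self zero_le_one
  have hex : ∀ i : (Σ _ : ℕ, E → E) × (Σ _ : ℕ, E → E), i.1.2 ∈ W₁ i.1.1 ∧ i.2.2 ∈ W₂ i.2.1 →
      ∃ Θ : E → E, IsCross κ f^[i.1.1 + l₁₂ + i.2.1 + l₂₁] χ₁ χ₁ Θ ∧ ∀ x ∈ χ₁.core Θ κ,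
        x ∈ χ₁.core i.1.2 κ ∧ f^[i.1.1 + l₁₂] x ∈ χ₂.core i.2.2 κ := fun i hi =>
    switch_comp4 hκ1 ((s₁.good _ _ hi.1).cross.mono k1) (c₁₂.mono k3)
      ((s₂.good _ _ hi.2).cross.mono k2) (c₂₁.mono k4)
  choose! Θ hΘ hcore using hex
  obtain ⟨C, hC⟩ : ∃ C : ℝ, C = C₁ + C₂ + (l₁₂ + l₂₁) * B := ⟨_, rfl⟩
  -- the main counting inequality
  have key : ∀ (A A' : Finset ℕ) (K : ℕ),
      (∀ n ∈ A, ∀ m ∈ A, n < m → n + (l₁₂ + k) + 1 ≤ m) → (∀ n ∈ A, 0 < n) →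
      (∀ n ∈ A, ∀ n' ∈ A', n + l₁₂ + n' + l₂₁ ≤ K) →
      (∑ n ∈ A, ∑ T ∈ W₁ n, Real.exp (birkhoffSum f φ n (χ₁.start T 0) - n * P)) *
      (∑ n ∈ A', ∑ T ∈ W₂ n, Real.exp (birkhoffSum f φ n (χ₂.start T 0) - n * P)) ≤
        (K + 1) * Real.exp ((l₁₂ + l₂₁) * P + C) := by
    intro A A' K hsep hpos hK
    rw [Finset.sum_sigma', Finset.sum_sigma', Finset.sum_mul_sum, ← Finset.sum_product']
    set I := (A.sigma W₁) ×ˢ (A'.sigma W₂) with hI
    have hmem : ∀ i ∈ I, (i.1.1 ∈ A ∧ i.2.1 ∈ A') ∧ i.1.2 ∈ W₁ i.1.1 ∧ i.2.2 ∈ W₂ i.2.1 := by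
      intro i hi
      rw [hI, Finset.mem_product, Finset.mem_sigma, Finset.mem_sigma] at hi
      exact ⟨⟨hi.1.1, hi.2.1⟩, hi.1.2, hi.2.2⟩
    rw [← Finset.sum_fiberwise_of_maps_to (t := Finset.range (K + 1))
      (g := fun i : (Σ _ : ℕ, E → E) × (Σ _ : ℕ, E → E) => i.1.1 + l₁₂ + i.2.1 + l₂₁)
      (fun i hi => Finset.mem_range.2 (Nat.lt_succ_of_le
        (hK _ (hmem i hi).1.1 _ (hmem i hi).1.2)))]
    refine (Finset.sum_le_card_nsmul _ _ (Real.exp ((l₁₂ + l₂₁) * P + C)) ?_).trans ?_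
    swap
    · rw [Finset.card_range, nsmul_eq_mul]
      push_cast
      exact le_rfl
    intro N _
    set J := I.filter (fun i => i.1.1 + l₁₂ + i.2.1 + l₂₁ = N) with hJ
    have hmJ : ∀ i ∈ J, i ∈ I ∧ i.1.1 + l₁₂ + i.2.1 + l₂₁ = N := fun i hi =>
      Finset.mem_filter.1 hi
    rcases J.eq_empty_or_nonempty with hE | ⟨i₀, hi₀⟩
    · rw [hE, Finset.sum_empty]
      exact (Real.exp_pos _).le
    have hN : 0 < N := by
      have h1 := hpos _ (hmem _ (hmJ _ hi₀).1).1.1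
      have h2 := (hmJ _ hi₀).2
      omega
    have hlt : ∀ i ∈ J, ∀ j ∈ J, i.1.1 < j.1.1 →
        Disjoint (χ₁.core (Θ i) κ) (χ₁.core (Θ j) κ) := by
      intro i hi j hj hij
      obtain ⟨hiI, hiN⟩ := hmJ i hi
      obtain ⟨hjI, hjN⟩ := hmJ j hj
      obtain ⟨⟨hiA, -⟩, hiW⟩ := hmem i hiI
      obtain ⟨⟨hjA, -⟩, hjW⟩ := hmem j hjI
      rw [Set.disjoint_left]
      intro x hxi hxj
      obtain ⟨b', hb', eb'⟩ := (hcore i hiW x hxi).2
      obtain ⟨b, hb, eb⟩ := (hcore j hjW x hxj).1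
      have hs := hsep _ hiA _ hjA hij
      obtain ⟨t, ht⟩ : ∃ t, j.1.1 = i.1.1 + l₁₂ + t := ⟨j.1.1 - (i.1.1 + l₁₂), by omega⟩
      have e1 := h₁ _ _ hjW.1 b (hsub hb) t (by omega) (by omega)
      have e2 := h₂ _ _ hiW.2 b' (hsub hb') t (by omega) (by omega)
      have e3 : j.1.1 - t = i.1.1 + l₁₂ := by omega
      rw [e3, eb, ← eb'] at e1
      have ht0 : (0 : ℝ) < t := by
        have : 0 < t := by omega
        exact_mod_cast this
      have := mul_lt_mul_of_pos_right hc ht0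
      linarith
    have hub := upper_bound hf.continuous hφ hB hP hκ1 χ₁ hN J Θ
      (fun i hi => by
        have := hΘ i (hmem i (hmJ i hi).1).2
        rwa [(hmJ i hi).2] at this)
      (fun i hi j hj hij => by
        rcases lt_trichotomy i.1.1 j.1.1 with h | h | h
        · exact hlt i hi j hj h
        · obtain ⟨hiI, hiN⟩ := hmJ i hi
          obtain ⟨hjI, hjN⟩ := hmJ j hj
          obtain ⟨-, hiW⟩ := hmem i hiI
          obtain ⟨-, hjW⟩ := hmem j hjI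
          have hi' := hcore i hiW
          have hj' := hcore j hjW
          obtain ⟨⟨n, T⟩, ⟨n', T'⟩⟩ := i
          obtain ⟨⟨m, U⟩, ⟨m', U'⟩⟩ := j
          dsimp only at h hiN hjN hiW hjW hi' hj'
          subst h
          obtain rfl : n' = m' := by omega
          rw [Set.disjoint_left]
          intro x hxi hxj
          by_cases hT : T = U
          · have hT' : T' ≠ U' := by
              rintro rfl
              exact hij (by rw [hT])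
            exact Set.disjoint_left.1 (IsCross.disjoint_core (contDiff_iterate hf n')
              (s₂.good _ _ hiW.2).cross (s₂.good _ _ hjW.2).cross hκ1
              (s₂.disj _ _ hiW.2 _ hjW.2 hT')) (hi' x hxi).2 (hj' x hxj).2
          · exact Set.disjoint_left.1 (IsCross.disjoint_core (contDiff_iterate hf n)
              (s₁.good _ _ hiW.1).cross (s₁.good _ _ hjW.1).cross hκ1
              (s₁.disj _ _ hiW.1 _ hjW.1 hT)) (hi' x hxi).1 (hj' x hxj).1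
        · exact (hlt j hj i hi h).symm)
      (fun i => birkhoffSum f φ i.1.1 (χ₁.start i.1.2 0) +
        birkhoffSum f φ i.2.1 (χ₂.start i.2.2 0)) C
      (fun i hi x hx => by
        obtain ⟨hiI, hiN⟩ := hmJ i hi
        obtain ⟨-, hiW⟩ := hmem i hiI
        obtain ⟨⟨b, hb, eb⟩, ⟨b', hb', eb'⟩⟩ := hcore i hiW x hx
        have d1 := (abs_le.1 (hC₁ f _ _ _ _ (s₁.good _ _ hiW.1) 0 h0D b (hsub hb))).2
        have d2 := (abs_le.1 (hC₂ f _ _ _ _ (s₂.good _ _ hiW.2) 0 h0D b' (hsub hb'))).2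
        rw [eb] at d1
        rw [eb'] at d2
        have d3 := switch_birk_le (f := f) hB l₁₂ (f^[i.1.1] x)
        have d4 := switch_birk_le (f := f) hB l₂₁ (f^[i.1.1 + l₁₂ + i.2.1] x)
        rw [← hiN, birkhoffSum_add, birkhoffSum_add, birkhoffSum_add, hC]
        linarith)
    have e : ∀ i ∈ J, Real.exp (birkhoffSum f φ i.1.1 (χ₁.start i.1.2 0) - i.1.1 * P) *
        Real.exp (birkhoffSum f φ i.2.1 (χ₂.start i.2.2 0) - i.2.1 * P) =
        Real.exp (birkhoffSum f φ i.1.1 (χ₁.start i.1.2 0) +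
          birkhoffSum f φ i.2.1 (χ₂.start i.2.2 0)) * Real.exp ((l₁₂ + l₂₁) * P - N * P) := by
      intro i hi
      rw [← Real.exp_add, ← Real.exp_add, ← (hmJ i hi).2]
      congr 1
      push_cast
      ring
    rw [Finset.sum_congr rfl e, ← Finset.sum_mul]
    refine (mul_le_mul_of_nonneg_right hub (Real.exp_pos _).le).trans (le_of_eq ?_)
    rw [← Real.exp_add]
    congr 1
    ring
  obtain ⟨u₁, a₁, ha₁, H₁⟩ := switch_lower low₁ (l₁₂ + k)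
  obtain ⟨u₂, a₂, ha₂, H₂⟩ := switch_lower low₂ 0
  obtain ⟨Q, hQ⟩ : ∃ Q : ℝ, Q = Real.exp ((l₁₂ + l₂₁) * P + C) := ⟨_, rfl⟩
  have hQ0 : 0 < Q := hQ ▸ Real.exp_pos _
  obtain ⟨r, hr⟩ := exists_nat_gt (max 1 ((u₁ + u₂ + l₁₂ + l₂₁ + 1) * Q / (a₁ * a₂)))
  have hr1 : (1 : ℝ) < r := (le_max_left _ _).trans_lt hr
  have hr2 := (div_lt_iff₀ (mul_pos ha₁ ha₂)).1 ((le_max_right _ _).trans_lt hr)
  have hr1' : 1 ≤ r := by exact_mod_cast hr1.le
  obtain ⟨A, hA1, hA2, hA3⟩ := H₁ r hr1'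
  obtain ⟨A', -, hB2, hB3⟩ := H₂ r hr1'
  have hk := key A A' (u₁ * r ^ 4 + l₁₂ + u₂ * r ^ 4 + l₂₁) hA1 (fun n hn => (hA2 n hn).1)
    (fun n hn n' hn' => by
      have := (hA2 n hn).2
      have := (hB2 n' hn').2
      omega)
  rw [← hQ] at hk
  have hr0 : (0 : ℝ) < r := by linarith
  have hl := mul_le_mul hA3 hB3 (by positivity) ((by positivity : (0 : ℝ) ≤ a₁ * r ^ 3).trans hA3)
  have h4' : (1 : ℝ) ≤ (r : ℝ) ^ 4 := one_le_pow₀ hr1.le
  have hK : (((u₁ * r ^ 4 + l₁₂ + u₂ * r ^ 4 + l₂₁ : ℕ) : ℝ) + 1) ≤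
      (u₁ + u₂ + l₁₂ + l₂₁ + 1) * (r : ℝ) ^ 4 := by
    push_cast
    have := mul_le_mul_of_nonneg_left h4' (by positivity : (0 : ℝ) ≤ l₁₂ + l₂₁ + 1)
    linarith
  have h5 := (hl.trans hk).trans (mul_le_mul_of_nonneg_right hK hQ0.le)
  have h6 := mul_lt_mul_of_pos_right hr2 (by positivity : (0 : ℝ) < (r : ℝ) ^ 4)
  have h7 := mul_le_mul_of_nonneg_left hr1.le (by positivity : (0 : ℝ) ≤ a₁ * a₂ * (r : ℝ) ^ 5)
  linarith

end Pool.Agent.P.MP_eeb913_an.U
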