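import Mathlib
import Pool.Agent.P.MP_eeb913_an.U.Basic
import Pool.Agent.P.MP_eeb913_an.U.Sys
import Pool.Agent.P.MP_eeb913_an.U.Switch
import Pool.Agent.P.MP_eeb913_an.U.Connect

/-!
Uniqueness of the equilibrium state.
-/

namespace Pool.Agent.P.MP_eeb913_an.U

open MeasureTheory Filter Metric Set
open scoped ENNReal NNReal Topology

theorem restrict_good {f g : E → E} {d : ℕ} {R₀ : ℝ} (h : IsHL f g d R₀) {φ : E → ℝ}
    (hφ : Continuous φ) {B : ℝ} (hB : ∀ x, |φ x| ≤ B) {P : ℝ}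
    (hP : ∀ ν, IsInvariantProb f ν → fe f φ ν ≤ P) {μ : Measure E} (i : IsInvariantProb f μ)
    (e : (P : EReal) ≤ fe f φ μ) {u : E → ℝ} (hu : Measurable u) {Bu c' : ℝ}
    (hBu : ∀ x, |u x| ≤ Bu) (hc : c' < ∫ x, u x ∂μ) :
    ∃ ν : Measure E, IsInvariantProb f ν ∧ (P : EReal) ≤ fe f φ ν ∧
      ∀ᵐ x ∂ν, ∃ k : ℕ, ∀ n : ℕ, k ≤ n → c' * n ≤ birkhoffSum f u n x ∧
        c' * n ≤ birkhoffSum g (fun y => u (g y)) n x := by
  have := i.1
  obtain ⟨S, hS, hinv, -, hm, hgood⟩ := exists_good_set i.2 (h.measurePreserving_inv i.2) h.gf h.fg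
    hu hBu hc (by simp)
  rw [probReal_univ, mul_one] at hm
  have hpos : 0 < μ.real S := by
    by_contra hn
    have h0 : μ.real S = 0 := le_antisymm (not_lt.1 hn) measureReal_nonneg
    rw [h0, mul_zero] at hm
    linarith
  have hres : MeasurePreserving f (μ.restrict S) (μ.restrict S) := by
    have := i.2.restrict_preimage hS
    rwa [hinv] at this
  obtain ⟨_, -, -, j1, j2⟩ := exists_piece (δ := 0) (t := μ.real S) i.2.measurable hφ.measurable hB hP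
    i (by simpa using e) ({()} : Finset Unit) (fun _ => μ.restrict S) (fun _ _ => hres)
    (by simpa using Measure.restrict_le_self) hpos (by simp)
  refine ⟨_, j1, by simpa using j2, ?_⟩
  exact Measure.ae_smul_measure ((ae_restrict_mem hS).mono hgood) _

theorem two_words {f : E → E} {φ : E → ℝ} {P h₀ R κ ε D : ℝ} (h0 : 0 < h₀)
    (hgap : ∀ x, φ x + 2 * h₀ ≤ P) {χ : Chart} {W : ℕ → Finset (E → E)}
    (s : IsSys f R κ ε D χ W) (low : LowerSum f φ P 0 χ W) :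
    ∃ (l : ℕ) (T : Bool → E → E), 0 < l ∧ (∀ a, IsCross κ f^[l] χ χ (T a)) ∧
      ¬ EqOn (T true) (T false) D2 := by
  obtain ⟨T₀, C, hC⟩ := low h₀ h0
  obtain ⟨j, hj1, hj2⟩ : ∃ j : ℕ, T₀ < j ∧ C + 2 * h₀ * T₀ < h₀ * j := by
    obtain ⟨j, hj⟩ := exists_nat_gt (max (T₀ : ℝ) ((C + 2 * h₀ * T₀) / h₀))
    refine ⟨j, by exact_mod_cast (le_max_left _ _).trans_lt hj, ?_⟩
    have := (le_max_right _ _).trans_lt hj
    rw [div_lt_iff₀ h0] at this
    linarith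
  obtain ⟨n, hn1, -, hn3⟩ := hC j hj1
  have hn : 0 < n := by omega
  have hj0 : (0 : ℝ) < j := by exact_mod_cast (show 0 < j by omega)
  have hlog : Real.log j ≤ j := (Real.log_le_sub_one_of_pos hj0).trans (by linarith)
  have hjn : (j : ℝ) ≤ n + T₀ := by exact_mod_cast hn1
  have hterm : ∀ T ∈ W n, Real.exp (birkhoffSum f φ n (χ.start T 0)) ≤
      Real.exp (n * (P - 2 * h₀)) := fun T _ => by
    apply Real.exp_le_exp.2
    have := Finset.sum_le_card_nsmul (Finset.range n) (fun i => φ (f^[i] (χ.start T 0)))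
      (P - 2 * h₀) fun i _ => by linarith [hgap (f^[i] (χ.start T 0))]
    simpa [birkhoffSum] using this
  have hcard : 1 < (W n).card := by
    by_contra hc
    have h1 : ((W n).card : ℝ) ≤ 1 := by exact_mod_cast not_lt.1 hc
    have h2 := Finset.sum_le_card_nsmul _ _ _ hterm
    rw [nsmul_eq_mul] at h2
    have h3 : ((W n).card : ℝ) * Real.exp (n * (P - 2 * h₀)) ≤ Real.exp (n * (P - 2 * h₀)) :=
      mul_le_of_le_one_left (Real.exp_pos _).le h1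
    have h4 := Real.exp_le_exp.1 ((hn3.trans h2).trans h3)
    nlinarith
  obtain ⟨T, hT, T', hT', hne⟩ := Finset.one_lt_card.1 hcard
  refine ⟨n, fun a => if a then T else T', hn, fun a => ?_, ?_⟩
  · cases a
    · exact (s.good n T' hT').cross
    · exact (s.good n T hT).cross
  · exact s.disj n T hT T' hT' hne

theorem birkhoffSum_back {f g : E → E} (hgf : ∀ z, g (f z) = z) (ψ : E → ℝ) (t : ℕ) (x : E) :
    birkhoffSum g (fun y => ψ (g y)) t (f^[t] x) = birkhoffSum f ψ t x := by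
  induction t generalizing x with
  | zero => simp
  | succ t ih =>
    rw [birkhoffSum_succ', birkhoffSum_succ, Function.iterate_succ_apply', hgf, ih, add_comm]

theorem birkhoffSum_close {f : E → E} {ψ : E → ℝ} {ρ : ℝ} {t : ℕ} {x y : E}
    (h : ∀ i < t, |ψ (f^[i] x) - ψ (f^[i] y)| ≤ ρ) :
    |birkhoffSum f ψ t x - birkhoffSum f ψ t y| ≤ ρ * t := by
  unfold birkhoffSum
  rw [← Finset.sum_sub_distrib]
  refine (Finset.abs_sum_le_sum_abs _ _).trans ?_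
  have := Finset.sum_le_card_nsmul (Finset.range t) (fun i => |ψ (f^[i] x) - ψ (f^[i] y)|) ρ
    fun i hi => h i (Finset.mem_range.1 hi)
  simpa [mul_comm] using this

theorem IsGood.close {f : E → E} {κ ε D : ℝ} {χ : Chart} {n : ℕ} {T : E → E}
    (h : IsGood f κ ε D χ n T) (hε : 0 ≤ ε) (hD : 0 ≤ D) {b b' : E} (hb : b ∈ D2) (hb' : b' ∈ D2)
    {t : ℕ} (ht : t ≤ n) : ‖f^[t] (χ.start T b) - f^[t] (χ.start T b')‖ ≤ 2 * D := by
  refine (h.decay b hb b' hb' t ht).trans ?_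
  have h1 : Real.exp (-(ε * (min t (n - t) : ℕ))) ≤ 1 :=
    Real.exp_le_one_iff.2 (neg_nonpos.2 (by positivity))
  have h2 : ‖b - b'‖ ≤ 2 := by
    have := norm_sub_le b b'
    rw [D2, mem_closedBall_zero_iff] at hb hb'
    linarith
  calc D * Real.exp (-(ε * (min t (n - t) : ℕ))) * ‖b - b'‖ ≤ D * 1 * 2 :=
        mul_le_mul (mul_le_mul_of_nonneg_left h1 hD) h2 (norm_nonneg _) (by positivity)
    _ = 2 * D := by ring

theorem integral_le_of_max {f g : E → E} {d : ℕ} {R₀ : ℝ} (h : IsHL f g d R₀) {φ : E → ℝ}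
    (hφ : Continuous φ) {B : ℝ} (hB : ∀ x, |φ x| ≤ B) {H α : ℝ} (hα : 0 < α)
    (hH : ∀ z w : E, |φ z - φ w| ≤ H * ‖z - w‖ ^ α) {P h₀ : ℝ} (h0 : 0 < h₀)
    (hP : ∀ ν, IsInvariantProb f ν → fe f φ ν ≤ P) (hgap : ∀ x, φ x + 2 * h₀ ≤ P)
    {μ₁ μ₂ : Measure E} (i₁ : IsInvariantProb f μ₁) (i₂ : IsInvariantProb f μ₂)
    (e₁ : (P : EReal) ≤ fe f φ μ₁) (e₂ : (P : EReal) ≤ fe f φ μ₂) {ψ : E → ℝ}
    (hψ : Continuous ψ) {Bψ : ℝ} (hBψ : ∀ x, |ψ x| ≤ Bψ) : ∫ x, ψ x ∂μ₁ ≤ ∫ x, ψ x ∂μ₂ := by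
  by_contra hlt
  rw [not_le] at hlt
  set I₁ := ∫ x, ψ x ∂μ₁
  set I₂ := ∫ x, ψ x ∂μ₂ with hI₂
  set ρ := (I₁ - I₂) / 8 with hρ
  have hρ0 : 0 < ρ := by rw [hρ]; linarith
  obtain ⟨ν₁, j₁, f₁, g₁⟩ := restrict_good h hφ hB hP i₁ e₁ hψ.measurable hBψ
    (c' := I₁ - ρ) (by linarith)
  obtain ⟨ν₂, j₂, f₂, g₂⟩ := restrict_good h hφ hB hP i₂ e₂ hψ.neg.measurable
    (u := fun x => -ψ x) (Bu := Bψ) (fun x => by rw [abs_neg]; exact hBψ x)
    (c' := -I₂ - ρ) (by rw [integral_neg, ← hI₂]; linarith)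
  obtain ⟨D₀, hD₀, huc⟩ : ∃ D₀ : ℝ, 0 < D₀ ∧ ∀ x y : E, ‖y‖ ≤ R₀ + 1 → ‖x - y‖ ≤ 2 * D₀ →
      |ψ x - ψ y| ≤ ρ := by
    have hu := (isCompact_closedBall (0 : E) (R₀ + 2)).uniformContinuousOn_of_continuous
      hψ.continuousOn
    obtain ⟨δ, hδ, hu⟩ := Metric.uniformContinuousOn_iff.1 hu ρ hρ0
    refine ⟨min (δ / 4) (1 / 2), by positivity, fun x y hy hxy => ?_⟩
    have a1 : min (δ / 4) (1 / 2) ≤ δ / 4 := min_le_left _ _
    have a2 : min (δ / 4) (1 / 2) ≤ 1 / 2 := min_le_right _ _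
    have hx : ‖x‖ ≤ R₀ + 2 := by
      have := norm_sub_norm_le x y
      linarith
    have := hu x (mem_closedBall_zero_iff.2 hx) y (mem_closedBall_zero_iff.2 (by linarith))
      (by rw [dist_eq_norm]; linarith)
    rw [Real.dist_eq] at this
    exact this.le
  obtain ⟨C₀, δ₀, -, hδ₀, hsys⟩ := exists_sys h hφ hB hα hH h0 hP hgap
  have mf : Measurable f := h.cf.continuous.measurable
  have mg : Measurable g := h.cg.continuous.measurable
  have mS : ∀ {F : E → E} {u : E → ℝ}, Measurable F → Measurable u → ∀ n,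
      Measurable (birkhoffSum F u n) := fun hF hu n =>
    Finset.measurable_sum _ fun i _ => hu.comp (hF.iterate i)
  obtain ⟨κ₁, ε₁, D₁, χ₁, W₁, k₁, hD₁, s₁, gen₁, low₁⟩ := hsys ν₁ 0 j₁ le_rfl hδ₀.le
    (by simpa using f₁)
    (fun k => {x | ∀ n : ℕ, k ≤ n → (I₁ - ρ) * n ≤ birkhoffSum g (fun y => ψ (g y)) n x})
    (fun k => by
      simp only [ofPred_forall]
      exact MeasurableSet.iInter fun n => MeasurableSet.iInter fun _ =>
        measurableSet_le measurable_const (mS mg (hψ.measurable.comp mg) n))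
    (fun k k' hk x hx n hn => hx n (hk.trans hn))
    (g₁.mono fun x ⟨k, hk⟩ => ⟨k, fun n hn => (hk n hn).2⟩) D₀ hD₀
  obtain ⟨κ₂, ε₂, D₂, χ₂, W₂, k₂, hD₂, s₂, gen₂, low₂⟩ := hsys ν₂ 0 j₂ le_rfl hδ₀.le
    (by simpa using f₂)
    (fun k => {x | ∀ n : ℕ, k ≤ n → (-I₂ - ρ) * n ≤ birkhoffSum f (fun y => -ψ y) n x})
    (fun k => by
      simp only [ofPred_forall]
      exact MeasurableSet.iInter fun n => MeasurableSet.iInter fun _ =>
        measurableSet_le measurable_const (mS mf hψ.neg.measurable n))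
    (fun k k' hk x hx n hn => hx n (hk.trans hn))
    (g₂.mono fun x ⟨k, hk⟩ => ⟨k, fun n hn => (hk n hn).1⟩) D₀ hD₀
  rw [mul_zero] at low₁ low₂
  obtain ⟨l₁, T₁, hl₁, c₁, n₁⟩ := two_words h0 hgap s₁ low₁
  obtain ⟨l₂, T₂, hl₂, c₂, n₂⟩ := two_words h0 hgap s₂ low₂
  have k0 : 0 < max κ₁ κ₂ := lt_max_of_lt_left s₁.k0
  have k1 : max κ₁ κ₂ < 1 := max_lt s₁.k1 s₂.k1
  have hR : R₀ ≤ R₀ + 1 := by linarith
  obtain ⟨l₁₂, T₁₂, c₁₂⟩ := exists_connect h hR k0 k1 s₁.box s₂.box hl₁ hl₂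
    (fun a => (c₁ a).mono (le_max_left _ _)) (fun a => (c₂ a).mono (le_max_right _ _)) n₁ n₂
  obtain ⟨l₂₁, T₂₁, c₂₁⟩ := exists_connect h hR k0 k1 s₂.box s₁.box hl₂ hl₁
    (fun a => (c₂ a).mono (le_max_right _ _)) (fun a => (c₁ a).mono (le_max_left _ _)) n₂ n₁
  refine switch_false (h.cf.of_le (by norm_num)) hφ hB hα hH hP s₁ s₂ low₁ low₂ (ψ := ψ)
    (c₁ := I₁ - 2 * ρ) (c₂ := I₂ + 2 * ρ) (by rw [hρ]; linarith) (max k₁ k₂) ?_ ?_ k1 k1 c₁₂ c₂₁
  · intro n T hT b hb t ht htn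
    obtain ⟨b₀, hb₀, -, m, bd⟩ := gen₁ n T hT
    have m1 := m t ((le_max_left _ _).trans ht)
    have e : f^[n] (χ₁.start T b₀) = f^[t] (f^[n - t] (χ₁.start T b₀)) := by
      rw [← Function.iterate_add_apply]; congr 1; omega
    rw [e, birkhoffSum_back h.gf] at m1
    have cl := birkhoffSum_close (f := f) (ψ := ψ) (ρ := ρ) (t := t)
      (x := f^[n - t] (χ₁.start T b)) (y := f^[n - t] (χ₁.start T b₀)) fun i hi => by
        rw [← Function.iterate_add_apply, ← Function.iterate_add_apply]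
        exact huc _ _ (bd _ (by omega)) (((s₁.good n T hT).close s₁.e0.le s₁.d0.le hb hb₀
          (by omega)).trans (by linarith))
    have := (abs_le.1 cl).1
    nlinarith
  · intro n T hT b hb t ht htn
    obtain ⟨b₀, hb₀, m, -, bd⟩ := gen₂ n T hT
    have m1 := m t ((le_max_right _ _).trans ht)
    have e : birkhoffSum f (fun y => -ψ y) t (χ₂.start T b₀) =
        -birkhoffSum f ψ t (χ₂.start T b₀) := by simp [birkhoffSum]
    rw [e] at m1
    have cl := birkhoffSum_close (f := f) (ψ := ψ) (ρ := ρ) (t := t)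
      (x := χ₂.start T b) (y := χ₂.start T b₀) fun i hi =>
        huc _ _ (bd _ (by omega)) (((s₂.good n T hT).close s₂.e0.le s₂.d0.le hb hb₀
          (by omega)).trans (by linarith))
    have := (abs_le.1 cl).2
    nlinarith

theorem max_unique {f g : E → E} {d : ℕ} {R₀ : ℝ} (h : IsHL f g d R₀) {φ : E → ℝ}
    (hφ : Continuous φ) {B : ℝ} (hB : ∀ x, |φ x| ≤ B) {H α : ℝ} (hα : 0 < α)
    (hH : ∀ z w : E, |φ z - φ w| ≤ H * ‖z - w‖ ^ α) {P h₀ : ℝ} (h0 : 0 < h₀)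
    (hP : ∀ ν, IsInvariantProb f ν → fe f φ ν ≤ P) (hgap : ∀ x, φ x + 2 * h₀ ≤ P)
    {μ₁ μ₂ : Measure E} (i₁ : IsInvariantProb f μ₁) (i₂ : IsInvariantProb f μ₂)
    (e₁ : (P : EReal) ≤ fe f φ μ₁) (e₂ : (P : EReal) ≤ fe f φ μ₂) : μ₁ = μ₂ := by
  have := i₁.1
  have := i₂.1
  refine ext_of_forall_integral_eq_of_IsFiniteMeasure fun ψ => le_antisymm ?_ ?_
  · exact integral_le_of_max h hφ hB hα hH h0 hP hgap i₁ i₂ e₁ e₂ ψ.continuous
      fun x => ψ.norm_coe_le_norm x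
  · exact integral_le_of_max h hφ hB hα hH h0 hP hgap i₂ i₁ e₂ e₁ ψ.continuous
      fun x => ψ.norm_coe_le_norm x

end Pool.Agent.P.MP_eeb913_an.U
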