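import Mathlib
import Pool.Agent.P.MP_eeb913_an.U.Basic
import Pool.Agent.P.MP_eeb913_an.U.Unique
import Pool.Agent.P.MP_eeb913_an.U.Exist
import Pool.Agent.P.MP_eeb913_an.U.Positive

/-!
Existence and uniqueness of the equilibrium state for Henon-like maps.
-/

namespace Pool.Agent.P.MP_eeb913_an.U

open MeasureTheory Filter Metric Set
open scoped ENNReal NNReal Topology

theorem integral_bounds {φ : E → ℝ} (hφ : Continuous φ) {a b : ℝ} (h : ∀ x, a ≤ φ x ∧ φ x ≤ b)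
    (ν : Measure E) [IsProbabilityMeasure ν] : a ≤ ∫ x, φ x ∂ν ∧ ∫ x, φ x ∂ν ≤ b := by
  have hi : Integrable φ ν := (integrable_const (|a| + |b|)).mono' hφ.aestronglyMeasurable
    (Eventually.of_forall fun x => by
      rw [Real.norm_eq_abs, abs_le]
      have := h x
      constructor <;> linarith [neg_abs_le a, le_abs_self b, abs_nonneg a, abs_nonneg b])
  constructor
  · simpa using integral_mono (integrable_const a) hi fun x => (h x).1
  · simpa using integral_mono hi (integrable_const b) fun x => (h x).2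

theorem existsUnique_bounded {f g : E → E} {d : ℕ} {R₀ : ℝ} (h : IsHL f g d R₀) {φ : E → ℝ}
    {H α : ℝ} (hα : 0 < α) (hH : ∀ z w : E, |φ z - φ w| ≤ H * ‖z - w‖ ^ α) {a c : ℝ}
    (hc : c < Real.log d) (hb : ∀ x, a ≤ φ x ∧ φ x ≤ a + c) :
    ∃! μ : Measure E, IsEquilibrium f φ μ := by
  have hφ : Continuous φ := continuous_iff_continuousAt.2 fun w => by
    rw [ContinuousAt, tendsto_iff_norm_sub_tendsto_zero]
    have h1 : Tendsto (fun z : E => H * ‖z - w‖ ^ α) (𝓝 w) (𝓝 (H * ‖w - w‖ ^ α)) :=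
      (continuous_const.mul ((continuous_id.sub continuous_const).norm.rpow_const
        fun _ => Or.inr hα.le)).tendsto w
    rw [sub_self, norm_zero, Real.zero_rpow hα.ne', mul_zero] at h1
    exact squeeze_zero (fun _ => norm_nonneg _) (fun z => hH z w) h1
  have hB : ∀ x, |φ x| ≤ |a| + |a + c| := fun x => by
    rw [abs_le]
    have := hb x
    constructor <;> linarith [neg_abs_le a, le_abs_self (a + c), abs_nonneg a, abs_nonneg (a + c)]
  obtain ⟨μ₀, i₀, e₀⟩ := exists_entropy h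
  obtain ⟨C, hC⟩ := ksEntropy_le_const h
  have hle : ∀ ν, IsInvariantProb f ν → fe f φ ν ≤ pressure f φ := fun ν hν =>
    le_iSup₂_of_le (f := fun (ν : Measure E) (_ : IsInvariantProb f ν) => fe f φ ν) ν hν le_rfl
  have hup : pressure f φ ≤ ((C + (a + c) : ℝ) : EReal) := iSup₂_le fun ν hν => by
    have := hν.1
    rw [EReal.coe_add]
    exact add_le_add (hC ν hν) (EReal.coe_le_coe_iff.2 (integral_bounds hφ hb ν).2)
  have hlow : ((Real.log d + a : ℝ) : EReal) ≤ pressure f φ := by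
    have := i₀.1
    refine le_trans ?_ (hle μ₀ i₀)
    rw [EReal.coe_add]
    exact add_le_add e₀ (EReal.coe_le_coe_iff.2 (integral_bounds hφ hb μ₀).1)
  obtain ⟨P, hP⟩ : ∃ P : ℝ, pressure f φ = P :=
    ⟨(pressure f φ).toReal, (EReal.coe_toReal (ne_top_of_le_ne_top (EReal.coe_ne_top _) hup)
      (ne_bot_of_le_ne_bot (EReal.coe_ne_bot _) hlow)).symm⟩
  rw [hP] at hle hlow
  have hlow' := EReal.coe_le_coe_iff.1 hlow
  have h0 : 0 < (Real.log d - c) / 2 := by linarith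
  have hgap : ∀ x, φ x + 2 * ((Real.log d - c) / 2) ≤ P := fun x => by linarith [(hb x).2]
  obtain ⟨μ, i, e⟩ := exists_max h hφ hB hα hH h0 hle hgap fun δ hδ => by
    have : ((P - δ : ℝ) : EReal) < pressure f φ := by
      rw [hP]; exact EReal.coe_lt_coe_iff.2 (by linarith)
    obtain ⟨ν, hν⟩ := lt_iSup_iff.1 this
    obtain ⟨j, hj⟩ := lt_iSup_iff.1 hν
    exact ⟨ν, j, hj.le⟩
  refine ⟨μ, ⟨i, ?_⟩, fun ν hν => max_unique h hφ hB hα hH h0 hle hgap hν.1 i ?_ e⟩
  · rw [hP]; exact le_antisymm (hle μ i) e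
  · rw [← hP]; exact hν.2.ge

theorem existsUnique_equilibrium {f g : E → E} {d : ℕ} {R₀ : ℝ} (h : IsHL f g d R₀) {φ : E → ℝ}
    {H α : ℝ} (hα : 0 < α) (hH : ∀ z w : E, |φ z - φ w| ≤ H * ‖z - w‖ ^ α) {K : Set E}
    (hK : ∀ x : E, (∀ n : ℕ, ‖f^[n] x‖ ≤ R₀ ∧ ‖g^[n] x‖ ≤ R₀) → x ∈ K) {c : ℝ}
    (hc : c < Real.log d) (hosc : ∀ z ∈ K, ∀ w ∈ K, φ z - φ w ≤ c) :
    ∃! μ : Measure E, IsEquilibrium f φ μ := by
  have hae : ∀ ν, IsInvariantProb f ν → ∀ᵐ x ∂ν, x ∈ K := fun ν hν => by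
    have := hν.1
    exact (h.ae_bounded hν.2).mono hK
  obtain ⟨μ₀, i₀, -⟩ := exists_entropy h
  have := i₀.1
  obtain ⟨x₀, hx₀⟩ := (hae μ₀ i₀).exists
  have hc0 : 0 ≤ c := by simpa using hosc x₀ hx₀ x₀ hx₀
  set a := sInf (φ '' K) with ha
  have hbdd : BddBelow (φ '' K) := ⟨φ x₀ - c, by
    rintro _ ⟨w, hw, rfl⟩; linarith [hosc x₀ hx₀ w hw]⟩
  have hKb : ∀ x ∈ K, a ≤ φ x ∧ φ x ≤ a + c := fun x hx => by
    refine ⟨csInf_le hbdd ⟨x, hx, rfl⟩, ?_⟩
    have : φ x - c ≤ a := le_csInf ⟨_, x₀, hx₀, rfl⟩ (by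
      rintro _ ⟨w, hw, rfl⟩; linarith [hosc x hx w hw])
    linarith
  set φ' : E → ℝ := fun x => max a (min (φ x) (a + c)) with hφ'
  have heq : ∀ x ∈ K, φ' x = φ x := fun x hx => by
    simp only [hφ']
    rw [min_eq_left (hKb x hx).2, max_eq_right (hKb x hx).1]
  have hint : ∀ ν, IsInvariantProb f ν → ∫ x, φ' x ∂ν = ∫ x, φ x ∂ν := fun ν hν =>
    integral_congr_ae ((hae ν hν).mono heq)
  have hpr : pressure f φ' = pressure f φ := by
    unfold pressure
    exact iSup_congr fun ν => iSup_congr fun hν => by rw [hint ν hν]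
  have hiff : ∀ μ, IsEquilibrium f φ' μ ↔ IsEquilibrium f φ μ := fun μ => by
    unfold IsEquilibrium
    exact and_congr_right fun hμ => by rw [hint μ hμ, hpr]
  rw [← existsUnique_congr hiff]
  refine existsUnique_bounded h hα (H := H) (fun z w => le_trans ?_ (hH z w)) hc (a := a)
    fun x => ⟨le_max_left _ _, max_le (by linarith) (min_le_right _ _)⟩
  refine (abs_max_sub_max_le_max _ _ _ _).trans (max_le (by simp) ?_)
  exact (abs_min_sub_min_le_max _ _ _ _).trans (max_le le_rfl (by simp))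

end Pool.Agent.P.MP_eeb913_an.U
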